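import Pool.Agent.Work.MP_f99e36_co.H4F

/-!
The 37 exceptional bases of the base stage, and hypothesis H4 of the nested composition.
-/

set_option autoImplicit false

namespace Pool.Agent.Simplex

open Finset

/-- the exceptional bases, outer labels -/
def exO : List (List ℕ) := [
  [0, 1, 2, 3, 4, 5, 6, 7, 8, 9, 40, 43],
  [0, 1, 2, 3, 4, 5, 6, 7, 8, 36, 39, 43],
  [0, 1, 2, 3, 4, 5, 6, 7, 8, 41, 42, 43],
  [0, 1, 2, 3, 4, 5, 6, 7, 34, 36, 41, 42],
  [0, 1, 2, 3, 4, 5, 6, 7, 37, 38, 41, 42],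
  [0, 1, 2, 3, 4, 5, 6, 32, 35, 39, 40, 41],
  [0, 1, 2, 3, 4, 6, 7, 8, 10, 40, 42, 43],
  [0, 1, 2, 3, 4, 6, 7, 9, 40, 41, 42, 43],
  [0, 1, 2, 3, 4, 6, 8, 9, 36, 39, 40, 42],
  [0, 1, 2, 3, 4, 6, 8, 37, 38, 39, 40, 42],
  [0, 1, 2, 3, 4, 6, 30, 32, 37, 38, 40, 42],
  [0, 1, 2, 3, 4, 6, 33, 34, 37, 38, 40, 42],
  [0, 1, 2, 3, 4, 7, 8, 9, 40, 41, 42, 43],
  [0, 1, 2, 3, 4, 8, 9, 36, 39, 40, 41, 43],
  [0, 1, 2, 3, 4, 8, 37, 38, 39, 40, 41, 43],
  [0, 1, 2, 3, 4, 28, 31, 35, 36, 37, 42, 43],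
  [0, 1, 2, 3, 4, 30, 32, 37, 38, 40, 41, 43],
  [0, 1, 2, 3, 4, 33, 34, 37, 38, 40, 41, 43],
  [0, 1, 2, 3, 5, 28, 31, 35, 36, 37, 40, 41],
  [0, 1, 2, 3, 5, 32, 35, 39, 40, 41, 42, 43],
  [0, 1, 2, 3, 6, 7, 8, 10, 36, 38, 39, 41],
  [0, 1, 2, 3, 6, 7, 9, 36, 37, 38, 39, 41],
  [0, 1, 2, 3, 6, 8, 9, 32, 35, 36, 38, 41],
  [0, 1, 2, 3, 6, 8, 33, 34, 35, 36, 38, 41],
  [0, 1, 2, 3, 6, 26, 28, 33, 34, 36, 38, 41],
  [0, 1, 2, 3, 6, 29, 30, 33, 34, 36, 38, 41],
  [2, 3, 4, 5, 6, 7, 8, 9, 10, 11, 12, 15],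
  [2, 4, 6, 7, 8, 9, 10, 11, 12, 13, 14, 15],
  [2, 4, 8, 9, 10, 11, 12, 15, 16, 17, 18, 19],
  [2, 4, 8, 9, 10, 11, 13, 14, 16, 17, 18, 19],
  [3, 4, 5, 6, 7, 8, 9, 10, 11, 12, 13, 14],
  [3, 4, 5, 6, 7, 8, 9, 10, 11, 12, 17, 18],
  [3, 6, 7, 8, 9, 10, 11, 12, 13, 14, 15, 19],
  [3, 7, 8, 9, 10, 11, 12, 14, 15, 16, 17, 18],
  [4, 5, 6, 7, 8, 9, 10, 11, 13, 14, 16, 19],
  [5, 6, 8, 9, 10, 11, 13, 14, 15, 16, 21, 22],
  [7, 8, 9, 10, 11, 12, 14, 15, 17, 18, 20, 23]]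

/-- the masks of the exceptional bases, in the same order -/
def exMasks : List ℕ := [
  38654708736,
  622770261504,
  30064774656,
  2774548877056,
  438086668032,
  10015863738240,
  47244642848,
  64424512800,
  661424966816,
  523986013856,
  44435731648416,
  7052336304032,
  64424512608,
  674309868768,
  536870915808,
  160266704654304,
  44448616550368,
  7065221205984,
  160305359359952,
  10028748640208,
  773094115888,
  1047972023600,
  10599979289776,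
  8400956034736,
  710988886183856,
  112854560673712,
  713053462628379038341895553027,
  1188422437713965063903159255083,
  787329864985501854835843006699,
  549645377442708842055211155691,
  1109194275199700726309615304711,
  663535861056963827345930584071,
  1193374197871106585002755751991,
  940834429856889008923334410359,
  519934816499859715457632174095,
  596068128915910602363928314015,
  904005713688148945745085464703]

/-- the reoriented elements -/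
def epsF : Finset ℕ := {44}

theorem exO_mask : ∀ p ∈ exMasks.zip exO, GDat.dset 12 68 p.1 = (p.2.map sig).toFinset := by
  decide +kernel

theorem exO_shape : ∀ l ∈ exO, l ≠ [] ∧ l.Nodup ∧ ∀ z ∈ l, z < 44 := by
  decide +kernel

theorem exO_pat : ∀ l ∈ exO, patL l ∈ [1, 3, 12, 14] := by
  decide +kernel

theorem exO_good : ∀ a ∈ [1, 3, 12, 14], ∀ b ∈ [1, 3, 12, 14], ∃ k < 4, ∃ k' < 4,
    (a.testBit k ^^ a.testBit k' ^^ b.testBit (4 - 1 - k) ^^ b.testBit (4 - 1 - k') ^^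
      decide (44 + k ∈ epsF) ^^ decide (44 + k' ∈ epsF)) = true := by
  decide +kernel

/-- the check of H4 for every table whose exceptional masks are in the list -/
theorem excOK {T : GTb} (h : ∀ k, k < T.en → fld128 T.ex k ∈ exMasks) :
    ExcOK T exO [1, 3, 12, 14] epsF where
  mask := by
    intro k hk
    obtain ⟨i, hi, hZ⟩ := List.getElem_of_mem (h k hk)
    have hlen : exMasks.length = exO.length := by decide +kernel
    have hi' : i < exO.length := by rw [← hlen]; exact hi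
    refine ⟨exO[i], List.getElem_mem hi', ?_⟩
    have hz : i < (exMasks.zip exO).length := by
      rw [List.length_zip]
      omega
    have h1 := exO_mask ((exMasks.zip exO)[i]) (List.getElem_mem hz)
    rw [List.getElem_zip] at h1
    rw [← hZ]
    exact h1
  shape := exO_shape
  pat := exO_pat
  good := exO_good

/-- hypothesis H4 of the nested composition -/
theorem h4F {pt bt al ng cc : ℕ} {T : GTb} (h : ∀ k, k < T.en → fld128 T.ex k ∈ exMasks)
    (X1 X2 : Finset ℕ) (h1 : ExcF (datP pt bt al ng cc) T X1)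
    (h2 : ExcF (datP pt bt al ng cc) T X2) :
    ∃ x ∈ X1, ∃ y ∈ X2, ∃ e ∈ Ico (12 + 32) (12 + 32 + 4), ∃ f ∈ Ico (12 + 32) (12 + 32 + 4),
      (f1F (insert e (X1.erase x)) ^^ f1F (insert f (X1.erase x)) ^^
        f1F (insert (2 * 12 + 68 - 1 - e) (X2.erase y)) ^^
        f1F (insert (2 * 12 + 68 - 1 - f) (X2.erase y)) ^^
        decide (e ∈ epsF) ^^ decide (f ∈ epsF)) = true :=
  hyp_H4 (excOK h) X1 X2 h1 h2

end Pool.Agent.Simplex
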