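import Pool.Agent.Work.MP_f99e36_co.St32R0
import Pool.Agent.Work.MP_f99e36_co.St32L0
import Pool.Agent.Work.MP_f99e36_co.St32L1
import Pool.Agent.Work.MP_f99e36_co.St32L2
import Pool.Agent.Work.MP_f99e36_co.St32L3

/-!
The certificate of the stage with newest element number 43 (generated).
-/

set_option autoImplicit false

namespace Pool.Agent.Simplex.St32

open GDat

theorem good : D.Good := datF_good _ _ _

theorem hwck : ∀ j, 0 ≤ j → j < 0 + 889 → HTi D T j :=
  of_kwck (by decide +kernel : kwck D T 889 0 = true)

theorem full : ∀ L, D.arr.Valid L → D.Free L → D.Tgt T L := by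
  have hnn : T.nn = 889 := rfl
  have hT : HT D T := fun id hid => hwck id (Nat.zero_le _) (by omega)
  refine all_full good (T := T) (by decide) (by unfold st0; decide +kernel) (by decide +kernel)
    (nv_sub (by decide +kernel)) ?_ ?_
  · intro er her yc hyc hnv
    have hm : D.m = 12 := rfl
    have h0 := of_kcrow good cr0 er
    rcases (by omega : (0 ≤ er ∧ er < 0 + 12)) with h
    · exact h0 h.1 h.2 yc hyc hnv
  · intro id hid
    have h0 := of_kclo good hT cl0 id
    have h1 := of_kclo good hT cl1 id
    have h2 := of_kclo good hT cl2 id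
    have h3 := of_kclo good hT cl3 id
    rcases (by omega : (0 ≤ id ∧ id < 0 + 459) ∨ (459 ≤ id ∧ id < 459 + 147) ∨ (606 ≤ id ∧ id < 606 + 207) ∨ (813 ≤ id ∧ id < 813 + 76)) with h | h | h | h
    · exact h0 h.1 h.2
    · exact h1 h.1 h.2
    · exact h2 h.1 h.2
    · exact h3 h.1 h.2

theorem ok : StageOK 43 45 0xfff000000000fffff00000fff 0xfffffffff00000 127 where
  al_ok := by decide +kernel
  ng_ok := by decide +kernel
  cc_ok := by decide +kernel

end Pool.Agent.Simplex.St32

namespace Pool.Agent.Simplex

theorem baseCert_F : BaseCert ptF btF 0xfff000000000fffff00000fff 0xfffffffff00000 127 St32.T where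
  ok := St32.ok
  cc_ge := by decide
  all := St32.full

end Pool.Agent.Simplex
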