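import Pool.Agent.Work.MP_f99e36_co.StgF
import Pool.Agent.Work.MP_f99e36_co.St32
import Pool.Agent.Work.MP_f99e36_co.H4Inst

/-!
The composite object: a uniform oriented matroid of rank 24 on 92 elements all of whose bases are
blocked.
-/

set_option autoImplicit false

namespace Pool.Agent.Simplex

theorem exc_F : ∀ k, k < St32.T.en → fld128 St32.T.ex k ∈ exMasks := by decide +kernel

theorem final_F : GP3 id (Finset.range 92) 24 (nestF 12 68 epsF f1F) ∧
    ∀ B, B ⊆ Finset.range 92 → B.card = 24 →
      Blocked id (Finset.range 92) (nestF 12 68 epsF f1F) B :=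
  final_of_stg baseCert_F stg_F (fun X1 X2 h1 h2 => h4F exc_F X1 X2 h1 h2)

end Pool.Agent.Simplex
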