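import Mathlib

/-!
Set-level chirotopes of uniform oriented matroids.

A sign function f on the r-subsets of a ground set (true = plus), together with a (cyclic) order
given by a key function pos.  For a < b < c < d outside z (with z of size r - 2) put
p1 = f(zab) f(zcd), p2 = f(zac) f(zbd), p3 = f(zad) f(zbc).
The three-term Grassmann-Pluecker relation says: p2 = p1 or p2 = p3.
-/

set_option autoImplicit false

namespace Pool.Agent.Simplex

variable {α : Type*} [DecidableEq α]

/-- The set z with two more elements. -/
def add2 (z : Finset α) (a b : α) : Finset α := insert a (insert b z)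

/-- Three-term Grassmann-Pluecker relations for the sign function f on the r-subsets of E,
with respect to the order given by pos. -/
def GP3 (pos : α → ℕ) (E : Finset α) (r : ℕ) (f : Finset α → Bool) : Prop :=
  ∀ (z : Finset α) (a b c d : α), z ⊆ E → a ∈ E → b ∈ E → c ∈ E → d ∈ E →
    a ∉ z → b ∉ z → c ∉ z → d ∉ z → z.card + 2 = r →
    pos a < pos b → pos b < pos c → pos c < pos d →
    (f (add2 z a c) ^^ f (add2 z b d)) = (f (add2 z a b) ^^ f (add2 z c d)) ∨
    (f (add2 z a c) ^^ f (add2 z b d)) = (f (add2 z a d) ^^ f (add2 z b c))

/-- Reverse the sign of one set. -/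
def flip (f : Finset α → Bool) (B : Finset α) : Finset α → Bool :=
  fun X => if X = B then !f X else f X

end Pool.Agent.Simplex
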