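import Mathlib
import Pool.Agent.Work.MP_f99e36_co.Defs

/-!
Composition of two set-level chirotopes along an order: the first `r1` elements of a basis are
evaluated by `f1`, the last `r2` elements by `f2`.
-/

set_option autoImplicit false

namespace Pool.Agent.Simplex

open Finset

variable {α : Type*} [DecidableEq α]

/-- the first `k` elements of `B` -/
def firstK (pos : α → ℕ) (B : Finset α) (k : ℕ) : Finset α :=
  B.filter (fun x => (B.filter (fun y => pos y < pos x)).card < k)

/-- the last `k` elements of `B` -/
def lastK (pos : α → ℕ) (B : Finset α) (k : ℕ) : Finset α :=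
  B.filter (fun x => (B.filter (fun y => pos x < pos y)).card < k)

/-- the composite of `f1` and `f2` -/
def comp (pos : α → ℕ) (r1 r2 : ℕ) (f1 f2 : Finset α → Bool) (B : Finset α) : Bool :=
  f1 (firstK pos B r1) ^^ f2 (lastK pos B r2)

theorem firstK_union {pos : α → ℕ} {X Y : Finset α} (h : ∀ x ∈ X, ∀ y ∈ Y, pos x < pos y) :
    firstK pos (X ∪ Y) X.card = X := by
  ext x
  simp only [firstK, mem_filter, mem_union]
  constructor
  · rintro ⟨hx, hlt⟩
    by_contra hxX
    have hxY : x ∈ Y := hx.resolve_left hxX
    have hsub : X ⊆ (X ∪ Y).filter (fun y => pos y < pos x) := by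
      intro y hy
      rw [mem_filter, mem_union]
      exact ⟨Or.inl hy, h y hy x hxY⟩
    exact absurd hlt (not_lt.2 (card_le_card hsub))
  · intro hx
    refine ⟨Or.inl hx, ?_⟩
    refine card_lt_card ?_
    rw [ssubset_iff_of_subset]
    · refine ⟨x, hx, ?_⟩
      rw [mem_filter]
      exact fun hc => lt_irrefl _ hc.2
    · intro y hy
      rw [mem_filter, mem_union] at hy
      rcases hy.1 with h1 | h1
      · exact h1
      · exact absurd hy.2 (not_lt.2 (h x hx y h1).le)

theorem lastK_union {pos : α → ℕ} {X Y : Finset α} (h : ∀ x ∈ X, ∀ y ∈ Y, pos x < pos y) :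
    lastK pos (X ∪ Y) Y.card = Y := by
  ext x
  simp only [lastK, mem_filter, mem_union]
  constructor
  · rintro ⟨hx, hlt⟩
    by_contra hxY
    have hxX : x ∈ X := hx.resolve_right hxY
    have hsub : Y ⊆ (X ∪ Y).filter (fun y => pos x < pos y) := by
      intro y hy
      rw [mem_filter, mem_union]
      exact ⟨Or.inr hy, h x hxX y hy⟩
    exact absurd hlt (not_lt.2 (card_le_card hsub))
  · intro hx
    refine ⟨Or.inr hx, ?_⟩
    refine card_lt_card ?_
    rw [ssubset_iff_of_subset]
    · refine ⟨x, hx, ?_⟩
      rw [mem_filter]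
      exact fun hc => lt_irrefl _ hc.2
    · intro y hy
      rw [mem_filter, mem_union] at hy
      rcases hy.1 with h1 | h1
      · exact absurd hy.2 (not_lt.2 (h y h1 x hx).le)
      · exact h1

theorem comp_union {pos : α → ℕ} {r1 r2 : ℕ} {f1 f2 : Finset α → Bool} {X Y : Finset α}
    (h : ∀ x ∈ X, ∀ y ∈ Y, pos x < pos y) (hX : X.card = r1) (hY : Y.card = r2) :
    comp pos r1 r2 f1 f2 (X ∪ Y) = (f1 X ^^ f2 Y) := by
  subst hX hY
  rw [comp, firstK_union h, lastK_union h]

/-- splitting a finite set at position `k` -/
theorem exists_split {pos : α → ℕ} (z : Finset α)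
    (hinj : ∀ x ∈ z, ∀ y ∈ z, pos x = pos y → x = y) :
    ∀ k, k ≤ z.card → ∃ X Y : Finset α, X ∪ Y = z ∧ Disjoint X Y ∧ X.card = k ∧
      ∀ x ∈ X, ∀ y ∈ Y, pos x < pos y := by
  intro k
  induction k with
  | zero => exact fun _ => ⟨∅, z, by simp, by simp, rfl, by simp⟩
  | succ k ih =>
    intro hk
    obtain ⟨X, Y, hXY, hd, hc, hlt⟩ := ih (Nat.le_of_succ_le hk)
    have hcard : X.card + Y.card = z.card := by rw [← hXY, card_union_of_disjoint hd]
    have hY : Y.Nonempty := by
      rw [← card_pos]; omega
    obtain ⟨w, hw, hmin⟩ := exists_min_image Y pos hY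
    have hwz : w ∈ z := by rw [← hXY]; exact mem_union_right _ hw
    have hwX : w ∉ X := fun h => (disjoint_left.1 hd h) hw
    refine ⟨insert w X, Y.erase w, ?_, ?_, ?_, ?_⟩
    · rw [← hXY]
      ext x
      simp only [mem_union, mem_insert, mem_erase]
      by_cases hx : x = w
      · subst hx; simp [hw]
      · simp [hx]
    · rw [disjoint_left]
      intro x hx hx'
      rw [mem_insert] at hx
      rcases hx with rfl | hx
      · exact (notMem_erase _ _) hx'
      · exact disjoint_left.1 hd hx (mem_of_mem_erase hx')
    · rw [card_insert_of_notMem hwX, hc]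
    · intro x hx y hy
      have hyY := mem_of_mem_erase hy
      have hyz : y ∈ z := by rw [← hXY]; exact mem_union_right _ hyY
      rw [mem_insert] at hx
      rcases hx with rfl | hx
      · refine lt_of_le_of_ne (hmin y hyY) fun he => ?_
        exact (ne_of_mem_erase hy) (hinj y hyz x hwz he.symm)
      · exact hlt x hx y hyY

theorem xor_cancel (s x y u v : Bool) (t : Bool)
    (h : (x ^^ y) = (u ^^ v)) : ((x ^^ s) ^^ (y ^^ t)) = ((u ^^ s) ^^ (v ^^ t)) := by
  revert h; cases s <;> cases x <;> cases y <;> cases u <;> cases v <;> cases t <;> decide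

/-- **Composition theorem.** -/
theorem comp_GP3 {pos : α → ℕ} {E E1 E2 : Finset α} {r1 r2 : ℕ} {f1 f2 : Finset α → Bool}
    (hinj : ∀ x ∈ E, ∀ y ∈ E, pos x = pos y → x = y)
    (hd1 : ∀ x ∈ E1, ∀ y ∈ E, pos y < pos x → y ∈ E1)
    (hd2 : ∀ x ∈ E2, ∀ y ∈ E, pos x < pos y → y ∈ E2)
    (hc1 : (E \ E1).card ≤ r2) (hc2 : (E \ E2).card ≤ r1) (hr1 : 2 ≤ r1) (hr2 : 2 ≤ r2)
    (h1 : GP3 pos E1 r1 f1) (h2 : GP3 pos E2 r2 f2) :
    GP3 pos E (r1 + r2) (comp pos r1 r2 f1 f2) := by
  intro z a b c d hz ha hb hc hd haz hbz hcz hdz hcard hab hbc hcd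
  -- split z
  obtain ⟨Z1, W1, hZW, hdis, hZ1, hlt⟩ := exists_split (pos := pos) z
    (fun x hx y hy => hinj x (hz hx) y (hz hy)) (r1 - 1) (by omega)
  have hWcard : W1.card = r2 - 1 := by
    have h3 : Z1.card + W1.card = z.card := by rw [← hZW, card_union_of_disjoint hdis]
    omega
  have hZsub : ∀ x ∈ Z1, x ∈ z := fun x hx => by rw [← hZW]; exact mem_union_left _ hx
  have hWsub : ∀ x ∈ W1, x ∈ z := fun x hx => by rw [← hZW]; exact mem_union_right _ hx
  obtain ⟨u, hu, humax⟩ := exists_max_image Z1 pos (by rw [← card_pos]; omega)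
  obtain ⟨v, hv, hvmin⟩ := exists_min_image W1 pos (by rw [← card_pos]; omega)
  have huv : pos u < pos v := hlt u hu v hv
  have huE : u ∈ E := hz (hZsub u hu)
  have hvE : v ∈ E := hz (hWsub v hv)
  have huW : u ∉ W1 := fun h => disjoint_left.1 hdis hu h
  have hvZ : v ∉ Z1 := fun h => disjoint_left.1 hdis h hv
  -- strictness
  have hZu : ∀ x ∈ Z1.erase u, pos x < pos u := by
    intro x hx
    refine lt_of_le_of_ne (humax x (mem_of_mem_erase hx)) fun he => ?_
    exact (ne_of_mem_erase hx) (hinj x (hz (hZsub x (mem_of_mem_erase hx))) u huE he)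
  have hvW : ∀ y ∈ W1.erase v, pos v < pos y := by
    intro y hy
    refine lt_of_le_of_ne (hvmin y (mem_of_mem_erase hy)) fun he => ?_
    exact (ne_of_mem_erase hy) (hinj y (hz (hWsub y (mem_of_mem_erase hy))) v hvE he.symm)
  have hZ2card : (Z1.erase u).card = r1 - 2 := by rw [card_erase_of_mem hu]; omega
  have hW0card : (W1.erase v).card = r2 - 2 := by rw [card_erase_of_mem hv]; omega
  -- the three evaluations
  have evLL : ∀ p q : α, p ∉ z → q ∉ z → pos p < pos q → pos q < pos u →
      comp pos r1 r2 f1 f2 (add2 z p q) = (f1 (add2 (Z1.erase u) p q) ^^ f2 (insert u W1)) := by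
    intro p q hp hq hpq hqu
    have e : add2 z p q = add2 (Z1.erase u) p q ∪ insert u W1 := by
      rw [← hZW]
      ext x
      simp only [add2, mem_insert, mem_union, mem_erase]
      by_cases hx : x = u
      · subst hx; simp [hu]
      · simp only [hx, false_or, ne_eq, not_false_eq_true, true_and]
        tauto
    rw [e]
    refine comp_union ?_ ?_ ?_
    · intro x hx y hy
      have hxu : pos x < pos u := by
        simp only [add2, mem_insert] at hx
        rcases hx with rfl | rfl | hx
        · exact hpq.trans hqu
        · exact hqu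
        · exact hZu x hx
      rw [mem_insert] at hy
      rcases hy with rfl | hy
      · exact hxu
      · exact hxu.trans (hlt u hu y hy)
    · have hq' : q ∉ Z1.erase u := fun h => hq (hZsub q (mem_of_mem_erase h))
      have hp' : p ∉ insert q (Z1.erase u) := by
        rw [mem_insert, not_or]
        exact ⟨fun h => by rw [h] at hpq; exact lt_irrefl _ hpq,
          fun h => hp (hZsub p (mem_of_mem_erase h))⟩
      rw [add2, card_insert_of_notMem hp', card_insert_of_notMem hq', hZ2card]
      omega
    · rw [card_insert_of_notMem huW, hWcard]; omega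
  have evHH : ∀ p q : α, p ∉ z → q ∉ z → pos p < pos q → pos v < pos p →
      comp pos r1 r2 f1 f2 (add2 z p q) = (f1 (insert v Z1) ^^ f2 (add2 (W1.erase v) p q)) := by
    intro p q hp hq hpq hvp
    have e : add2 z p q = insert v Z1 ∪ add2 (W1.erase v) p q := by
      rw [← hZW]
      ext x
      simp only [add2, mem_insert, mem_union, mem_erase]
      by_cases hx : x = v
      · subst hx; simp [hv]
      · simp only [hx, false_or, ne_eq, not_false_eq_true, true_and]
        tauto
    rw [e]
    refine comp_union ?_ ?_ ?_
    · intro x hx y hy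
      have hvy : pos v < pos y := by
        simp only [add2, mem_insert] at hy
        rcases hy with rfl | rfl | hy
        · exact hvp
        · exact hvp.trans hpq
        · exact hvW y hy
      rw [mem_insert] at hx
      rcases hx with rfl | hx
      · exact hvy
      · exact (hlt x hx v hv).trans hvy
    · rw [card_insert_of_notMem hvZ, hZ1]; omega
    · have hq' : q ∉ W1.erase v := fun h => hq (hWsub q (mem_of_mem_erase h))
      have hp' : p ∉ insert q (W1.erase v) := by
        rw [mem_insert, not_or]
        exact ⟨fun h => by rw [h] at hpq; exact lt_irrefl _ hpq,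
          fun h => hp (hWsub p (mem_of_mem_erase h))⟩
      rw [add2, card_insert_of_notMem hp', card_insert_of_notMem hq', hW0card]
      omega
  have evM : ∀ p q : α, p ∉ z → q ∉ z → pos p < pos q → pos p < pos v → pos u < pos q →
      comp pos r1 r2 f1 f2 (add2 z p q) = (f1 (insert p Z1) ^^ f2 (insert q W1)) := by
    intro p q hp hq hpq hpv huq
    have e : add2 z p q = insert p Z1 ∪ insert q W1 := by
      rw [← hZW]
      ext x
      simp only [add2, mem_insert, mem_union]
      tauto
    rw [e]
    refine comp_union ?_ ?_ ?_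
    · intro x hx y hy
      rw [mem_insert] at hx hy
      rcases hx with rfl | hx
      · rcases hy with rfl | hy
        · exact hpq
        · exact lt_of_lt_of_le hpv (hvmin y hy)
      · rcases hy with rfl | hy
        · exact lt_of_le_of_lt (humax x hx) huq
        · exact hlt x hx y hy
    · rw [card_insert_of_notMem (fun h => hp (hZsub p h)), hZ1]; omega
    · rw [card_insert_of_notMem (fun h => hq (hWsub q h)), hWcard]; omega
  -- membership criteria
  have mem1 : ∀ (x : α) (T : Finset α), x ∈ E → (∀ y ∈ T, y ∈ E ∧ pos x ≤ pos y) → r2 < T.card →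
      x ∈ E1 := by
    intro x T hx hT hcT
    by_contra hxE
    have hsub : T ⊆ E \ E1 := by
      intro y hy
      rw [mem_sdiff]
      refine ⟨(hT y hy).1, fun hyE => hxE ?_⟩
      rcases (hT y hy).2.lt_or_eq with h | h
      · exact hd1 y hyE x hx h
      · rw [hinj x hx y (hT y hy).1 h]; exact hyE
    exact absurd (card_le_card hsub) (by omega)
  have mem2 : ∀ (x : α) (T : Finset α), x ∈ E → (∀ y ∈ T, y ∈ E ∧ pos y ≤ pos x) → r1 < T.card →
      x ∈ E2 := by
    intro x T hx hT hcT
    by_contra hxE
    have hsub : T ⊆ E \ E2 := by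
      intro y hy
      rw [mem_sdiff]
      refine ⟨(hT y hy).1, fun hyE => hxE ?_⟩
      rcases (hT y hy).2.lt_or_eq with h | h
      · exact hd2 y hyE x hx h
      · rw [← hinj y (hT y hy).1 x hx h]; exact hyE
    exact absurd (card_le_card hsub) (by omega)
  have memL : ∀ x ∈ E, pos x < pos u → x ∈ E1 := by
    intro x hx hxu
    have hxW : x ∉ insert u W1 := by
      rw [mem_insert, not_or]
      exact ⟨fun h => by rw [h] at hxu; exact lt_irrefl _ hxu,
        fun h => absurd (hlt u hu x h) (not_lt.2 hxu.le)⟩
    refine mem1 x (insert x (insert u W1)) hx ?_ ?_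
    · intro y hy
      rw [mem_insert, mem_insert] at hy
      rcases hy with rfl | rfl | hy
      · exact ⟨hx, le_rfl⟩
      · exact ⟨huE, hxu.le⟩
      · exact ⟨hz (hWsub y hy), (hxu.trans (hlt u hu y hy)).le⟩
    · rw [card_insert_of_notMem hxW, card_insert_of_notMem huW, hWcard]; omega
  have memH : ∀ x ∈ E, pos v < pos x → x ∈ E2 := by
    intro x hx hxv
    have hxZ : x ∉ insert v Z1 := by
      rw [mem_insert, not_or]
      exact ⟨fun h => by rw [h] at hxv; exact lt_irrefl _ hxv,
        fun h => absurd (hlt x h v hv) (not_lt.2 hxv.le)⟩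
    refine mem2 x (insert x (insert v Z1)) hx ?_ ?_
    · intro y hy
      rw [mem_insert, mem_insert] at hy
      rcases hy with rfl | rfl | hy
      · exact ⟨hx, le_rfl⟩
      · exact ⟨hvE, hxv.le⟩
      · exact ⟨hz (hZsub y hy), ((hlt y hy v hv).trans hxv).le⟩
    · rw [card_insert_of_notMem hxZ, card_insert_of_notMem hvZ, hZ1]; omega
  have ne_u : ∀ x, x ∉ z → x ∈ E → pos x ≠ pos u := fun x hxz hx he =>
    hxz (by rw [hinj x hx u huE he]; exact hZsub u hu)
  have ne_v : ∀ x, x ∉ z → x ∈ E → pos x ≠ pos v := fun x hxz hx he =>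
    hxz (by rw [hinj x hx v hvE he]; exact hWsub v hv)
  have hZ2E : Z1.erase u ⊆ E1 := fun x hx =>
    memL x (hz (hZsub x (mem_of_mem_erase hx))) (hZu x hx)
  have hW0E : W1.erase v ⊆ E2 := fun x hx =>
    memH x (hz (hWsub x (mem_of_mem_erase hx))) (hvW x hx)
  have notZ2 : ∀ x, x ∉ z → x ∉ Z1.erase u := fun x hx h => hx (hZsub x (mem_of_mem_erase h))
  have notW0 : ∀ x, x ∉ z → x ∉ W1.erase v := fun x hx h => hx (hWsub x (mem_of_mem_erase h))
  have insZ : ∀ x, insert x Z1 = add2 (Z1.erase u) x u := by
    intro x
    rw [add2, insert_erase hu]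
  have insW : ∀ x, insert x W1 = add2 (W1.erase v) v x := by
    intro x
    rw [add2, Finset.insert_comm, insert_erase hv]
  rcases lt_or_ge (pos c) (pos u) with hcu | hcu
  · -- c below u
    have hau := (hab.trans hbc).trans hcu
    have hbu := hbc.trans hcu
    rcases lt_or_ge (pos d) (pos u) with hdu | hdu
    · rw [evLL a b haz hbz hab hbu, evLL c d hcz hdz hcd hdu,
        evLL a c haz hcz (hab.trans hbc) hcu, evLL b d hbz hdz (hbc.trans hcd) hdu,
        evLL a d haz hdz ((hab.trans hbc).trans hcd) hdu, evLL b c hbz hcz hbc hcu]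
      rcases h1 (Z1.erase u) a b c d hZ2E (memL a ha hau) (memL b hb hbu) (memL c hc hcu)
        (memL d hd hdu) (notZ2 a haz) (notZ2 b hbz) (notZ2 c hcz) (notZ2 d hdz)
        (by rw [hZ2card]; omega) hab hbc hcd with h | h
      · exact Or.inl (xor_cancel _ _ _ _ _ _ h)
      · exact Or.inr (xor_cancel _ _ _ _ _ _ h)
    · have hdu' : pos u < pos d := lt_of_le_of_ne hdu (Ne.symm (ne_u d hdz hd))
      have hcv := hcu.trans huv
      have huE1 : u ∈ E1 := by
        have hdW : d ∉ insert u W1 := by
          rw [mem_insert, not_or]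
          exact ⟨fun h => by rw [h] at hdu'; exact lt_irrefl _ hdu', fun h => hdz (hWsub d h)⟩
        refine mem1 u (insert d (insert u W1)) huE ?_ ?_
        · intro y hy
          rw [mem_insert, mem_insert] at hy
          rcases hy with rfl | rfl | hy
          · exact ⟨hd, hdu⟩
          · exact ⟨huE, le_rfl⟩
          · exact ⟨hz (hWsub y hy), (hlt u hu y hy).le⟩
        · rw [card_insert_of_notMem hdW, card_insert_of_notMem huW, hWcard]; omega
      rw [evLL a b haz hbz hab hbu, evM c d hcz hdz hcd hcv hdu',
        evLL a c haz hcz (hab.trans hbc) hcu, evM b d hbz hdz (hbc.trans hcd) (hbc.trans hcv) hdu',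
        evM a d haz hdz ((hab.trans hbc).trans hcd) ((hab.trans hbc).trans hcv) hdu',
        evLL b c hbz hcz hbc hcu, insZ a, insZ b, insZ c]
      rcases h1 (Z1.erase u) a b c u hZ2E (memL a ha hau) (memL b hb hbu) (memL c hc hcu)
        huE1 (notZ2 a haz) (notZ2 b hbz) (notZ2 c hcz) (notMem_erase u Z1)
        (by rw [hZ2card]; omega) hab hbc hcu with h | h
      · left
        revert h
        generalize f1 (add2 (Z1.erase u) a b) = x1
        generalize f1 (add2 (Z1.erase u) a c) = x2
        generalize f1 (add2 (Z1.erase u) b u) = x3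
        generalize f1 (add2 (Z1.erase u) c u) = x4
        generalize f2 (insert u W1) = x5
        generalize f2 (insert d W1) = x6
        revert x1 x2 x3 x4 x5 x6
        decide
      · right
        revert h
        generalize f1 (add2 (Z1.erase u) b c) = x1
        generalize f1 (add2 (Z1.erase u) a c) = x2
        generalize f1 (add2 (Z1.erase u) b u) = x3
        generalize f1 (add2 (Z1.erase u) a u) = x4
        generalize f2 (insert u W1) = x5
        generalize f2 (insert d W1) = x6
        revert x1 x2 x3 x4 x5 x6
        decide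
  · have hcu' : pos u < pos c := lt_of_le_of_ne hcu (Ne.symm (ne_u c hcz hc))
    rcases lt_or_ge (pos b) (pos v) with hbv | hbv
    · -- everything mixed
      right
      have hav := hab.trans hbv
      have hdu := hcu'.trans hcd
      rw [evM a c haz hcz (hab.trans hbc) hav hcu', evM b d hbz hdz (hbc.trans hcd) hbv hdu,
        evM a d haz hdz ((hab.trans hbc).trans hcd) hav hdu, evM b c hbz hcz hbc hbv hcu']
      generalize f1 (insert a Z1) = x1
      generalize f1 (insert b Z1) = x2
      generalize f2 (insert c W1) = x3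
      generalize f2 (insert d W1) = x4
      revert x1 x2 x3 x4
      decide
    · have hbv' : pos v < pos b := lt_of_le_of_ne hbv (Ne.symm (ne_v b hbz hb))
      have hcv := hbv'.trans hbc
      have hdv := hcv.trans hcd
      rcases lt_or_ge (pos a) (pos v) with hav | hav
      · have hbu := huv.trans hbv'
        have hdu := hcu'.trans hcd
        have hvE2 : v ∈ E2 := by
          have haZ : a ∉ insert v Z1 := by
            rw [mem_insert, not_or]
            exact ⟨fun h => by rw [h] at hav; exact lt_irrefl _ hav, fun h => haz (hZsub a h)⟩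
          refine mem2 v (insert a (insert v Z1)) hvE ?_ ?_
          · intro y hy
            rw [mem_insert, mem_insert] at hy
            rcases hy with rfl | rfl | hy
            · exact ⟨ha, hav.le⟩
            · exact ⟨hvE, le_rfl⟩
            · exact ⟨hz (hZsub y hy), (hlt y hy v hv).le⟩
          · rw [card_insert_of_notMem haZ, card_insert_of_notMem hvZ, hZ1]; omega
        rw [evM a b haz hbz hab hav hbu, evHH c d hcz hdz hcd hcv,
          evM a c haz hcz (hab.trans hbc) hav hcu', evHH b d hbz hdz (hbc.trans hcd) hbv',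
          evM a d haz hdz ((hab.trans hbc).trans hcd) hav hdu, evHH b c hbz hcz hbc hbv',
          insW b, insW c, insW d]
        rcases h2 (W1.erase v) v b c d hW0E hvE2 (memH b hb hbv') (memH c hc hcv)
          (memH d hd hdv) (notMem_erase v W1) (notW0 b hbz) (notW0 c hcz) (notW0 d hdz)
          (by rw [hW0card]; omega) hbv' hbc hcd with h | h
        · left
          revert h
          generalize f2 (add2 (W1.erase v) v b) = x1
          generalize f2 (add2 (W1.erase v) v c) = x2
          generalize f2 (add2 (W1.erase v) b d) = x3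
          generalize f2 (add2 (W1.erase v) c d) = x4
          generalize f1 (insert a Z1) = x5
          generalize f1 (insert v Z1) = x6
          revert x1 x2 x3 x4 x5 x6
          decide
        · right
          revert h
          generalize f2 (add2 (W1.erase v) b c) = x1
          generalize f2 (add2 (W1.erase v) v c) = x2
          generalize f2 (add2 (W1.erase v) b d) = x3
          generalize f2 (add2 (W1.erase v) v d) = x4
          generalize f1 (insert a Z1) = x5
          generalize f1 (insert v Z1) = x6
          revert x1 x2 x3 x4 x5 x6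
          decide
      · have hav' : pos v < pos a := lt_of_le_of_ne hav (Ne.symm (ne_v a haz ha))
        rw [evHH a b haz hbz hab hav', evHH c d hcz hdz hcd hcv,
          evHH a c haz hcz (hab.trans hbc) hav', evHH b d hbz hdz (hbc.trans hcd) hbv',
          evHH a d haz hdz ((hab.trans hbc).trans hcd) hav', evHH b c hbz hcz hbc hbv']
        rcases h2 (W1.erase v) a b c d hW0E (memH a ha hav') (memH b hb hbv') (memH c hc hcv)
          (memH d hd hdv) (notW0 a haz) (notW0 b hbz) (notW0 c hcz) (notW0 d hdz)
          (by rw [hW0card]; omega) hab hbc hcd with h | h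
        · left
          revert h
          generalize f2 (add2 (W1.erase v) a b) = x1
          generalize f2 (add2 (W1.erase v) a c) = x2
          generalize f2 (add2 (W1.erase v) b d) = x3
          generalize f2 (add2 (W1.erase v) c d) = x4
          generalize f1 (insert v Z1) = x6
          revert x1 x2 x3 x4 x6
          decide
        · right
          revert h
          generalize f2 (add2 (W1.erase v) b c) = x1
          generalize f2 (add2 (W1.erase v) a c) = x2
          generalize f2 (add2 (W1.erase v) b d) = x3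
          generalize f2 (add2 (W1.erase v) a d) = x4
          generalize f1 (insert v Z1) = x6
          revert x1 x2 x3 x4 x6
          decide

end Pool.Agent.Simplex
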