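import Mathlib
import Pool.Agent.Work.MP_f99e36_co.Defs
import Pool.Agent.Work.MP_f99e36_co.Comp

/-!
The p x q array of blocks: closed rank-matching formula, and the proof that it satisfies the
three-term relations.
-/

set_option autoImplicit false

namespace Pool.Agent.Simplex

open Finset

variable {α : Type*} [DecidableEq α]

/-! ## Basic operations -/

theorem add2_comm_aux (z : Finset α) (a b : α) : add2 z a b = add2 z b a := by
  unfold add2; exact Finset.insert_comm _ _ _

theorem GP3_congr {pos : α → ℕ} {E : Finset α} {r : ℕ} {f f' : Finset α → Bool}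
    (h : ∀ B, B ⊆ E → B.card = r → f B = f' B) (hf : GP3 pos E r f) : GP3 pos E r f' := by
  intro z a b c d hz ha hb hc hd haz hbz hcz hdz hcard hab hbc hcd
  have key : ∀ x y, x ∈ E → y ∈ E → x ∉ z → y ∉ z → pos x < pos y →
      f' (add2 z x y) = f (add2 z x y) := by
    intro x y hx hy hxz hyz hxy
    refine (h _ ?_ ?_).symm
    · unfold add2
      exact insert_subset hx (insert_subset hy hz)
    · have hne : x ∉ insert y z := by
        rw [mem_insert, not_or]
        exact ⟨fun e => by rw [e] at hxy; exact lt_irrefl _ hxy, hxz⟩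
      rw [add2, card_insert_of_notMem hne, card_insert_of_notMem hyz]
      omega
  rw [key a c ha hc haz hcz (hab.trans hbc), key b d hb hd hbz hdz (hbc.trans hcd),
    key a b ha hb haz hbz hab, key c d hc hd hcz hdz hcd,
    key a d ha hd haz hdz ((hab.trans hbc).trans hcd), key b c hb hc hbz hcz hbc]
  exact hf z a b c d hz ha hb hc hd haz hbz hcz hdz hcard hab hbc hcd

/-- rotation of the order: `A'` is moved from the end to the beginning -/
theorem GP3_rotate {pos pos' : α → ℕ} {E A A' : Finset α} {r : ℕ} {f : Finset α → Bool}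
    (hE : E = A ∪ A') (h1 : ∀ x ∈ A, ∀ y ∈ A', pos x < pos y)
    (h2 : ∀ x ∈ A, ∀ y ∈ A', pos' y < pos' x)
    (h3 : ∀ x ∈ A, ∀ y ∈ A, pos' x < pos' y → pos x < pos y)
    (h4 : ∀ x ∈ A', ∀ y ∈ A', pos' x < pos' y → pos x < pos y)
    (hf : GP3 pos E r f) : GP3 pos' E r f := by
  intro z a b c d hz ha hb hc hd haz hbz hcz hdz hcard hab hbc hcd
  have hA : ∀ x y, x ∈ E → y ∈ E → pos' x < pos' y → x ∈ A → y ∈ A := by
    intro x y _ hy hxy hx
    rw [hE, mem_union] at hy
    rcases hy with hy | hy
    · exact hy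
    · exact absurd hxy (not_lt.2 (h2 x hx y hy).le)
  have hA' : ∀ x, x ∈ E → x ∉ A → x ∈ A' := by
    intro x hx hxA
    rw [hE, mem_union] at hx
    exact hx.resolve_left hxA
  by_cases haA : a ∈ A
  · have hbA := hA a b ha hb hab haA
    have hcA := hA b c hb hc hbc hbA
    have hdA := hA c d hc hd hcd hcA
    exact hf z a b c d hz ha hb hc hd haz hbz hcz hdz hcard (h3 a haA b hbA hab)
      (h3 b hbA c hcA hbc) (h3 c hcA d hdA hcd)
  have haA' := hA' a ha haA
  by_cases hbA : b ∈ A
  · have hcA := hA b c hb hc hbc hbA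
    have hdA := hA c d hc hd hcd hcA
    have h := hf z b c d a hz hb hc hd ha hbz hcz hdz haz hcard
      (h3 b hbA c hcA hbc) (h3 c hcA d hdA hcd) (h1 d hdA a haA')
    rw [add2_comm_aux z c a, add2_comm_aux z d a, add2_comm_aux z b a] at h
    rcases h with h | h
    · right; rw [Bool.xor_comm, h, Bool.xor_comm]
    · left; rw [Bool.xor_comm, h]
  have hbA' := hA' b hb hbA
  by_cases hcA : c ∈ A
  · have hdA := hA c d hc hd hcd hcA
    have h := hf z c d a b hz hc hd ha hb hcz hdz haz hbz hcard
      (h3 c hcA d hdA hcd) (h1 d hdA a haA') (h4 a haA' b hbA' hab)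
    rw [add2_comm_aux z c a, add2_comm_aux z d b, add2_comm_aux z c b, add2_comm_aux z d a] at h
    rcases h with h | h
    · left; rw [h, Bool.xor_comm]
    · right; rw [h, Bool.xor_comm]
  have hcA' := hA' c hc hcA
  by_cases hdA : d ∈ A
  · have h := hf z d a b c hz hd ha hb hc hdz haz hbz hcz hcard
      (h1 d hdA a haA') (h4 a haA' b hbA' hab) (h4 b hbA' c hcA' hbc)
    rw [add2_comm_aux z d b, add2_comm_aux z d a, add2_comm_aux z d c] at h
    rcases h with h | h
    · right; rw [Bool.xor_comm, h]
    · left; rw [Bool.xor_comm, h, Bool.xor_comm]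
  have hdA' := hA' d hd hdA
  exact hf z a b c d hz ha hb hc hd haz hbz hcz hdz hcard (h4 a haA' b hbA' hab)
    (h4 b hbA' c hcA' hbc) (h4 c hcA' d hdA' hcd)

/-- complements -/
theorem GP3_compl {pos : α → ℕ} {E : Finset α} {r : ℕ} {f : Finset α → Bool}
    (hf : GP3 pos E r f) : GP3 pos E (E.card - r) (fun B => f (E \ B)) := by
  intro z a b c d hz ha hb hc hd haz hbz hcz hdz hcard hab hbc hcd
  have nab : a ≠ b := fun e => by rw [e] at hab; exact lt_irrefl _ hab
  have nbc : b ≠ c := fun e => by rw [e] at hbc; exact lt_irrefl _ hbc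
  have ncd : c ≠ d := fun e => by rw [e] at hcd; exact lt_irrefl _ hcd
  have nac : a ≠ c := fun e => by have := hab.trans hbc; rw [e] at this; exact lt_irrefl _ this
  have nbd : b ≠ d := fun e => by have := hbc.trans hcd; rw [e] at this; exact lt_irrefl _ this
  have nad : a ≠ d := fun e => by
    have := (hab.trans hbc).trans hcd; rw [e] at this; exact lt_irrefl _ this
  set w : Finset α := E \ (insert a (insert b (insert c (insert d z)))) with hw
  have hsub : insert a (insert b (insert c (insert d z))) ⊆ E :=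
    insert_subset ha (insert_subset hb (insert_subset hc (insert_subset hd hz)))
  have hcard4 : (insert a (insert b (insert c (insert d z)))).card = z.card + 4 := by
    rw [card_insert_of_notMem (by simp [nab, nac, nad, haz]),
      card_insert_of_notMem (by simp [nbc, nbd, hbz]),
      card_insert_of_notMem (by simp [ncd, hcz]), card_insert_of_notMem hdz]
  have hle := card_le_card hsub
  have hwcard : w.card + 2 = r := by
    rw [hw, card_sdiff_of_subset hsub, hcard4]
    omega
  have hwE : w ⊆ E := sdiff_subset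
  have naw : a ∉ w := by simp [hw]
  have nbw : b ∉ w := by simp [hw]
  have ncw : c ∉ w := by simp [hw]
  have ndw : d ∉ w := by simp [hw]
  have e1 : E \ add2 z a c = add2 w b d := by
    ext x
    simp only [add2, hw, mem_sdiff, mem_insert, not_or]
    constructor
    · rintro ⟨hx, h1, h2, h3⟩
      by_cases hxb : x = b
      · exact Or.inl hxb
      by_cases hxd : x = d
      · exact Or.inr (Or.inl hxd)
      exact Or.inr (Or.inr ⟨hx, h1, hxb, h2, hxd, h3⟩)
    · rintro (rfl | rfl | ⟨hx, h1, h2, h3, h4, h5⟩)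
      · exact ⟨hb, Ne.symm nab, nbc, hbz⟩
      · exact ⟨hd, Ne.symm nad, Ne.symm ncd, hdz⟩
      · exact ⟨hx, h1, h3, h5⟩
  have e2 : E \ add2 z b d = add2 w a c := by
    ext x
    simp only [add2, hw, mem_sdiff, mem_insert, not_or]
    constructor
    · rintro ⟨hx, h1, h2, h3⟩
      by_cases hxb : x = a
      · exact Or.inl hxb
      by_cases hxd : x = c
      · exact Or.inr (Or.inl hxd)
      exact Or.inr (Or.inr ⟨hx, hxb, h1, hxd, h2, h3⟩)
    · rintro (rfl | rfl | ⟨hx, h1, h2, h3, h4, h5⟩)
      · exact ⟨ha, nab, nad, haz⟩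
      · exact ⟨hc, Ne.symm nbc, ncd, hcz⟩
      · exact ⟨hx, h2, h4, h5⟩
  have e3 : E \ add2 z a b = add2 w c d := by
    ext x
    simp only [add2, hw, mem_sdiff, mem_insert, not_or]
    constructor
    · rintro ⟨hx, h1, h2, h3⟩
      by_cases hxb : x = c
      · exact Or.inl hxb
      by_cases hxd : x = d
      · exact Or.inr (Or.inl hxd)
      exact Or.inr (Or.inr ⟨hx, h1, h2, hxb, hxd, h3⟩)
    · rintro (rfl | rfl | ⟨hx, h1, h2, h3, h4, h5⟩)
      · exact ⟨hc, Ne.symm nac, Ne.symm nbc, hcz⟩
      · exact ⟨hd, Ne.symm nad, Ne.symm nbd, hdz⟩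
      · exact ⟨hx, h1, h2, h5⟩
  have e4 : E \ add2 z c d = add2 w a b := by
    ext x
    simp only [add2, hw, mem_sdiff, mem_insert, not_or]
    constructor
    · rintro ⟨hx, h1, h2, h3⟩
      by_cases hxb : x = a
      · exact Or.inl hxb
      by_cases hxd : x = b
      · exact Or.inr (Or.inl hxd)
      exact Or.inr (Or.inr ⟨hx, hxb, hxd, h1, h2, h3⟩)
    · rintro (rfl | rfl | ⟨hx, h1, h2, h3, h4, h5⟩)
      · exact ⟨ha, nac, nad, haz⟩
      · exact ⟨hb, nbc, nbd, hbz⟩
      · exact ⟨hx, h3, h4, h5⟩
  have e5 : E \ add2 z a d = add2 w b c := by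
    ext x
    simp only [add2, hw, mem_sdiff, mem_insert, not_or]
    constructor
    · rintro ⟨hx, h1, h2, h3⟩
      by_cases hxb : x = b
      · exact Or.inl hxb
      by_cases hxd : x = c
      · exact Or.inr (Or.inl hxd)
      exact Or.inr (Or.inr ⟨hx, h1, hxb, hxd, h2, h3⟩)
    · rintro (rfl | rfl | ⟨hx, h1, h2, h3, h4, h5⟩)
      · exact ⟨hb, Ne.symm nab, nbd, hbz⟩
      · exact ⟨hc, Ne.symm nac, ncd, hcz⟩
      · exact ⟨hx, h1, h4, h5⟩
  have e6 : E \ add2 z b c = add2 w a d := by
    ext x
    simp only [add2, hw, mem_sdiff, mem_insert, not_or]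
    constructor
    · rintro ⟨hx, h1, h2, h3⟩
      by_cases hxb : x = a
      · exact Or.inl hxb
      by_cases hxd : x = d
      · exact Or.inr (Or.inl hxd)
      exact Or.inr (Or.inr ⟨hx, hxb, h1, h2, hxd, h3⟩)
    · rintro (rfl | rfl | ⟨hx, h1, h2, h3, h4, h5⟩)
      · exact ⟨ha, nab, nac, haz⟩
      · exact ⟨hd, Ne.symm nbd, Ne.symm ncd, hdz⟩
      · exact ⟨hx, h2, h3, h5⟩
  have h := hf w a b c d hwE ha hb hc hd naw nbw ncw ndw hwcard hab hbc hcd
  simp only [e1, e2, e3, e4, e5, e6]
  rcases h with h | h
  · left; rw [Bool.xor_comm, h, Bool.xor_comm]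
  · right; rw [Bool.xor_comm, h, Bool.xor_comm]

/-! ## Ranks and the matching -/

/-- rank of `i` in `I`, counted from the top -/
def rkI (pos : α → ℕ) (I : Finset α) (i : α) : ℕ := (I.filter (fun i' => pos i < pos i')).card

/-- rank of `j` in `J`, counted from the bottom -/
def rkJ (pos : α → ℕ) (J : Finset α) (j : α) : ℕ := (J.filter (fun j' => pos j' < pos j)).card

/-- `i` and `j` have the same rank -/
def Mt (pos : α → ℕ) (I J : Finset α) (i j : α) : Prop :=
  i ∈ I ∧ j ∈ J ∧ rkI pos I i = rkJ pos J j

/-- the matched rows of the block `(A, K)` -/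
def mI (pos : α → ℕ) (I J A K : Finset α) : Finset α :=
  (I ∩ A).filter (fun i => ∃ j ∈ J ∩ K, rkI pos I i = rkJ pos J j)

/-- the matched columns of the block `(A, K)` -/
def mJ (pos : α → ℕ) (I J A K : Finset α) : Finset α :=
  (J ∩ K).filter (fun j => ∃ i ∈ I ∩ A, rkI pos I i = rkJ pos J j)

theorem mem_mI {pos : α → ℕ} {I J A K : Finset α} {i : α} :
    i ∈ mI pos I J A K ↔ i ∈ A ∧ ∃ j ∈ K, Mt pos I J i j := by
  simp only [mI, mem_filter, mem_inter, Mt]
  constructor
  · rintro ⟨⟨h1, h2⟩, j, ⟨h3, h4⟩, h5⟩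
    exact ⟨h2, j, h4, h1, h3, h5⟩
  · rintro ⟨h2, j, h4, h1, h3, h5⟩
    exact ⟨⟨h1, h2⟩, j, ⟨h3, h4⟩, h5⟩

theorem mem_mJ {pos : α → ℕ} {I J A K : Finset α} {j : α} :
    j ∈ mJ pos I J A K ↔ j ∈ K ∧ ∃ i ∈ A, Mt pos I J i j := by
  simp only [mJ, mem_filter, mem_inter, Mt]
  constructor
  · rintro ⟨⟨h1, h2⟩, i, ⟨h3, h4⟩, h5⟩
    exact ⟨h2, i, h4, h3, h1, h5⟩
  · rintro ⟨h2, i, h4, h3, h1, h5⟩
    exact ⟨⟨h1, h2⟩, i, ⟨h3, h4⟩, h5⟩

theorem rkI_left {pos : α → ℕ} {I' I'' : Finset α} (h : ∀ x ∈ I', ∀ y ∈ I'', pos y < pos x)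
    {i : α} (hi : i ∈ I') : rkI pos (I' ∪ I'') i = rkI pos I' i := by
  unfold rkI
  congr 1
  ext x
  simp only [mem_filter, mem_union]
  constructor
  · rintro ⟨h1 | h1, h2⟩
    · exact ⟨h1, h2⟩
    · exact absurd h2 (not_lt.2 (h i hi x h1).le)
  · rintro ⟨h1, h2⟩
    exact ⟨Or.inl h1, h2⟩

theorem rkI_right {pos : α → ℕ} {I' I'' : Finset α} (h : ∀ x ∈ I', ∀ y ∈ I'', pos y < pos x)
    {i : α} (hi : i ∈ I'') : rkI pos (I' ∪ I'') i = I'.card + rkI pos I'' i := by
  unfold rkI
  rw [filter_union, card_union_of_disjoint]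
  · congr 2
    rw [filter_true_of_mem]
    exact fun x hx => h x hx i hi
  · rw [disjoint_left]
    intro x hx hx'
    exact lt_irrefl _ (h x (mem_filter.1 hx).1 x (mem_filter.1 hx').1)

theorem rkI_lt {pos : α → ℕ} {I : Finset α} {i : α} (hi : i ∈ I) : rkI pos I i < I.card := by
  unfold rkI
  refine card_lt_card ?_
  rw [ssubset_iff_of_subset (filter_subset _ _)]
  exact ⟨i, hi, fun h => lt_irrefl _ (mem_filter.1 h).2⟩

theorem rkJ_left {pos : α → ℕ} {J' J'' : Finset α} (h : ∀ x ∈ J', ∀ y ∈ J'', pos x < pos y)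
    {j : α} (hj : j ∈ J') : rkJ pos (J' ∪ J'') j = rkJ pos J' j := by
  unfold rkJ
  congr 1
  ext x
  simp only [mem_filter, mem_union]
  constructor
  · rintro ⟨h1 | h1, h2⟩
    · exact ⟨h1, h2⟩
    · exact absurd h2 (not_lt.2 (h j hj x h1).le)
  · rintro ⟨h1, h2⟩
    exact ⟨Or.inl h1, h2⟩

theorem rkJ_right {pos : α → ℕ} {J' J'' : Finset α} (h : ∀ x ∈ J', ∀ y ∈ J'', pos x < pos y)
    {j : α} (hj : j ∈ J'') : rkJ pos (J' ∪ J'') j = J'.card + rkJ pos J'' j := by
  unfold rkJ
  rw [filter_union, card_union_of_disjoint]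
  · congr 2
    rw [filter_true_of_mem]
    exact fun x hx => h x hx j hj
  · rw [disjoint_left]
    intro x hx hx'
    exact lt_irrefl _ (h x (mem_filter.1 hx).1 x (mem_filter.1 hx').1)

theorem rkJ_lt {pos : α → ℕ} {J : Finset α} {j : α} (hj : j ∈ J) : rkJ pos J j < J.card := by
  unfold rkJ
  refine card_lt_card ?_
  rw [ssubset_iff_of_subset (filter_subset _ _)]
  exact ⟨j, hj, fun h => lt_irrefl _ (mem_filter.1 h).2⟩

theorem Mt_split {pos : α → ℕ} {I' I'' J' J'' : Finset α}
    (hI : ∀ x ∈ I', ∀ y ∈ I'', pos y < pos x) (hJ : ∀ x ∈ J', ∀ y ∈ J'', pos x < pos y)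
    (hc : I'.card = J'.card) (i j : α) :
    Mt pos (I' ∪ I'') (J' ∪ J'') i j ↔ Mt pos I' J' i j ∨ Mt pos I'' J'' i j := by
  unfold Mt
  constructor
  · rintro ⟨hi, hj, he⟩
    rw [mem_union] at hi hj
    rcases hi with hi | hi
    · rcases hj with hj | hj
      · rw [rkI_left hI hi, rkJ_left hJ hj] at he
        exact Or.inl ⟨hi, hj, he⟩
      · rw [rkI_left hI hi, rkJ_right hJ hj] at he
        have := rkI_lt (pos := pos) hi
        omega
    · rcases hj with hj | hj
      · rw [rkI_right hI hi, rkJ_left hJ hj] at he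
        have := rkJ_lt (pos := pos) hj
        omega
      · rw [rkI_right hI hi, rkJ_right hJ hj] at he
        exact Or.inr ⟨hi, hj, by omega⟩
  · rintro (⟨hi, hj, he⟩ | ⟨hi, hj, he⟩)
    · exact ⟨mem_union_left _ hi, mem_union_left _ hj, by rw [rkI_left hI hi, rkJ_left hJ hj, he]⟩
    · exact ⟨mem_union_right _ hi, mem_union_right _ hj, by
        rw [rkI_right hI hi, rkJ_right hJ hj, hc, he]⟩

theorem image_rkI {pos : α → ℕ} {I : Finset α} (hinj : ∀ x ∈ I, ∀ y ∈ I, pos x = pos y → x = y) :
    I.image (rkI pos I) = range I.card := by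
  refine eq_of_subset_of_card_le ?_ ?_
  · intro n hn
    rw [mem_image] at hn
    obtain ⟨i, hi, rfl⟩ := hn
    exact mem_range.2 (rkI_lt hi)
  · rw [card_range, card_image_of_injOn]
    intro x hx y hy hxy
    by_contra hne
    have hne' : pos x ≠ pos y := fun e => hne (hinj x hx y hy e)
    have key : ∀ x ∈ I, ∀ y ∈ I, pos x < pos y → rkI pos I y < rkI pos I x := by
      intro x _ y hy hlt
      unfold rkI
      refine card_lt_card ?_
      rw [ssubset_iff_of_subset]
      · exact ⟨y, mem_filter.2 ⟨hy, hlt⟩, fun h => lt_irrefl _ (mem_filter.1 h).2⟩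
      · intro w hw
        rw [mem_filter] at hw ⊢
        exact ⟨hw.1, hlt.trans hw.2⟩
    rcases lt_or_gt_of_ne hne' with h | h
    · have := key x hx y hy h
      omega
    · have := key y hy x hx h
      omega

theorem image_rkJ {pos : α → ℕ} {J : Finset α} (hinj : ∀ x ∈ J, ∀ y ∈ J, pos x = pos y → x = y) :
    J.image (rkJ pos J) = range J.card := by
  refine eq_of_subset_of_card_le ?_ ?_
  · intro n hn
    rw [mem_image] at hn
    obtain ⟨i, hi, rfl⟩ := hn
    exact mem_range.2 (rkJ_lt hi)
  · rw [card_range, card_image_of_injOn]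
    intro x hx y hy hxy
    by_contra hne
    have hne' : pos x ≠ pos y := fun e => hne (hinj x hx y hy e)
    have key : ∀ x ∈ J, ∀ y ∈ J, pos x < pos y → rkJ pos J x < rkJ pos J y := by
      intro x hx y _ hlt
      unfold rkJ
      refine card_lt_card ?_
      rw [ssubset_iff_of_subset]
      · exact ⟨x, mem_filter.2 ⟨hx, hlt⟩, fun h => lt_irrefl _ (mem_filter.1 h).2⟩
      · intro w hw
        rw [mem_filter] at hw ⊢
        exact ⟨hw.1, hw.2.trans hlt⟩
    rcases lt_or_gt_of_ne hne' with h | h
    · have := key x hx y hy h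
      omega
    · have := key y hy x hx h
      omega

theorem exists_Mt_left {pos : α → ℕ} {I J : Finset α}
    (hJ : ∀ x ∈ J, ∀ y ∈ J, pos x = pos y → x = y) (hc : I.card = J.card) {i : α} (hi : i ∈ I) :
    ∃ j ∈ J, Mt pos I J i j := by
  have h1 : rkI pos I i ∈ range J.card := mem_range.2 (by rw [← hc]; exact rkI_lt hi)
  rw [← image_rkJ hJ, mem_image] at h1
  obtain ⟨j, hj, he⟩ := h1
  exact ⟨j, hj, hi, hj, he.symm⟩

theorem exists_Mt_right {pos : α → ℕ} {I J : Finset α}
    (hI : ∀ x ∈ I, ∀ y ∈ I, pos x = pos y → x = y) (hc : I.card = J.card) {j : α} (hj : j ∈ J) :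
    ∃ i ∈ I, Mt pos I J i j := by
  have h1 : rkJ pos J j ∈ range I.card := mem_range.2 (by rw [hc]; exact rkJ_lt hj)
  rw [← image_rkI hI, mem_image] at h1
  obtain ⟨i, hi, he⟩ := h1
  exact ⟨i, hi, hi, hj, he⟩

/-! ## Evaluation of a block -/

/-- value of the block `(A, K)` with local sign function `g` on the pair `(I, J)` -/
def evB (pos : α → ℕ) (g : Finset α → Bool) (A K I J : Finset α) : Bool :=
  g ((A \ mI pos I J A K) ∪ mJ pos I J A K)

theorem evB_congr {pos : α → ℕ} {g : Finset α → Bool} {A K I J I' J' : Finset α}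
    (h : ∀ i ∈ A, ∀ j ∈ K, Mt pos I J i j ↔ Mt pos I' J' i j) :
    evB pos g A K I J = evB pos g A K I' J' := by
  have e1 : mI pos I J A K = mI pos I' J' A K := by
    ext i
    rw [mem_mI, mem_mI]
    constructor
    · rintro ⟨h1, j, h2, h3⟩
      exact ⟨h1, j, h2, (h i h1 j h2).1 h3⟩
    · rintro ⟨h1, j, h2, h3⟩
      exact ⟨h1, j, h2, (h i h1 j h2).2 h3⟩
  have e2 : mJ pos I J A K = mJ pos I' J' A K := by
    ext j
    rw [mem_mJ, mem_mJ]
    constructor
    · rintro ⟨h1, i, h2, h3⟩
      exact ⟨h1, i, h2, (h i h2 j h1).1 h3⟩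
    · rintro ⟨h1, i, h2, h3⟩
      exact ⟨h1, i, h2, (h i h2 j h1).2 h3⟩
  rw [evB, evB, e1, e2]

theorem evB_full {pos : α → ℕ} {g : Finset α → Bool} {A K I J : Finset α} (hIA : I ⊆ A)
    (hJK : J ⊆ K) (hI : ∀ x ∈ I, ∀ y ∈ I, pos x = pos y → x = y)
    (hJ : ∀ x ∈ J, ∀ y ∈ J, pos x = pos y → x = y) (hc : I.card = J.card) :
    evB pos g A K I J = g ((A \ I) ∪ J) := by
  have e1 : mI pos I J A K = I := by
    ext i
    rw [mem_mI]
    constructor
    · rintro ⟨_, j, _, h3⟩
      exact h3.1
    · intro hi
      obtain ⟨j, hj, hm⟩ := exists_Mt_left hJ hc hi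
      exact ⟨hIA hi, j, hJK hj, hm⟩
  have e2 : mJ pos I J A K = J := by
    ext j
    rw [mem_mJ]
    constructor
    · rintro ⟨_, i, _, h3⟩
      exact h3.2.1
    · intro hj
      obtain ⟨i, hi, hm⟩ := exists_Mt_right hI hc hj
      exact ⟨hJK hj, i, hIA hi, hm⟩
  rw [evB, e1, e2]

/-- exclusive or of the first `n` values -/
def xs : ℕ → (ℕ → Bool) → Bool
  | 0, _ => false
  | (n + 1), F => xs n F ^^ F n

theorem xs_congr {n : ℕ} {F G : ℕ → Bool} (h : ∀ k, k < n → F k = G k) : xs n F = xs n G := by
  induction n with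
  | zero => rfl
  | succ n ih =>
    simp only [xs]
    rw [ih (fun k hk => h k (Nat.lt_succ_of_lt hk)), h n (Nat.lt_succ_self n)]

/-- union of the first `n` sets -/
def UU (C : ℕ → Finset α) (n : ℕ) : Finset α := (range n).biUnion C

theorem mem_UU {C : ℕ → Finset α} {n : ℕ} {x : α} : x ∈ UU C n ↔ ∃ b, b < n ∧ x ∈ C b := by
  simp [UU]

theorem UU_succ (C : ℕ → Finset α) (n : ℕ) : UU C (n + 1) = UU C n ∪ C n := by
  ext x
  rw [mem_union, mem_UU, mem_UU]
  constructor
  · rintro ⟨b, hb, hx⟩
    rcases Nat.lt_succ_iff_lt_or_eq.1 hb with h | rfl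
    · exact Or.inl ⟨b, h, hx⟩
    · exact Or.inr hx
  · rintro (⟨b, hb, hx⟩ | hx)
    · exact ⟨b, Nat.lt_succ_of_lt hb, hx⟩
    · exact ⟨n, Nat.lt_succ_self n, hx⟩

theorem UU_one (C : ℕ → Finset α) : UU C 1 = C 0 := by
  simp [UU]

/-! ## Some identities of sets -/

theorem ar_E1 {R U K : Finset α} : R ∪ (U ∪ K) = K ∪ (R ∪ U) := by
  ext x
  simp only [mem_union]
  tauto

theorem ar_XY1 {R U K B I1 I2 : Finset α} (hI : I2 ∪ I1 = R \ B) :
    (R ∪ (U ∪ K)) \ B = ((K \ B) ∪ I2) ∪ (I1 ∪ (U \ B)) := by
  ext x
  have hx1 : x ∈ R \ B ↔ x ∈ I2 ∨ x ∈ I1 := by rw [← hI, mem_union]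
  rw [mem_sdiff] at hx1
  simp only [mem_sdiff, mem_union]
  tauto

theorem ar_s1 {R K B I2 : Finset α} (hI : I2 ⊆ R) (hRK : ∀ x ∈ R, x ∉ K) :
    (R ∪ K) \ ((K \ B) ∪ I2) = (R \ I2) ∪ (K ∩ B) := by
  ext x
  have h1 : x ∈ I2 → x ∈ R := fun h => hI h
  have h2 : x ∈ R → x ∉ K := hRK x
  simp only [mem_sdiff, mem_union, mem_inter, not_or, not_and, not_not]
  tauto

theorem ar_s2 {R U B I1 : Finset α} (hI : I1 ⊆ R) (hRU : ∀ x ∈ R, x ∉ U) :
    (R ∪ U) \ (I1 ∪ (U \ B)) = (R \ I1) ∪ (U ∩ B) := by
  ext x
  have h1 : x ∈ I1 → x ∈ R := fun h => hI h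
  have h2 : x ∈ R → x ∉ U := hRU x
  simp only [mem_sdiff, mem_union, mem_inter, not_or, not_and, not_not]
  tauto

theorem ar_t1 {R U B I1 : Finset α} (hI : I1 ⊆ R) (hRU : ∀ x ∈ R, x ∉ U) :
    R \ ((R \ I1) ∪ (U ∩ B)) = I1 := by
  ext x
  have h1 : x ∈ I1 → x ∈ R := fun h => hI h
  have h2 : x ∈ R → x ∉ U := hRU x
  simp only [mem_sdiff, mem_union, mem_inter, not_or, not_and, not_not]
  tauto

theorem ar_t2 {R U B I1 : Finset α} (hRU : ∀ x ∈ R, x ∉ U) :
    U ∩ ((R \ I1) ∪ (U ∩ B)) = U ∩ B := by
  ext x
  have h2 : x ∈ U → x ∉ R := fun h h' => hRU x h' h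
  simp only [mem_sdiff, mem_union, mem_inter]
  tauto

theorem ar_E2 {T P K : Finset α} : (T ∪ P) ∪ K = (T ∪ K) ∪ P := by
  ext x
  simp only [mem_union]
  tauto

theorem ar_XY2 {T P K B J1 J2 : Finset α} (hJ : J1 ∪ J2 = K ∩ B) (hB : B ⊆ (T ∪ P) ∪ K) :
    B = ((T ∩ B) ∪ J1) ∪ (J2 ∪ (P ∩ B)) := by
  ext x
  have hx1 : x ∈ K ∩ B ↔ x ∈ J1 ∨ x ∈ J2 := by rw [← hJ, mem_union]
  rw [mem_inter] at hx1
  have hx2 : x ∈ B → (x ∈ T ∨ x ∈ P) ∨ x ∈ K := fun h => by
    have := hB h
    rw [mem_union, mem_union] at this
    exact this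
  simp only [mem_inter, mem_union]
  tauto

theorem ar_u1 {T B J1 : Finset α} (h : ∀ x ∈ T, x ∉ J1) : T \ ((T ∩ B) ∪ J1) = T \ B := by
  ext x
  have h2 : x ∈ T → x ∉ J1 := h x
  simp only [mem_sdiff, mem_union, mem_inter]
  tauto

theorem ar_u2 {T K B J1 : Finset α} (h : ∀ x ∈ K, x ∉ T) (hJ : J1 ⊆ K) :
    K ∩ ((T ∩ B) ∪ J1) = J1 := by
  ext x
  have h2 : x ∈ K → x ∉ T := h x
  have h3 : x ∈ J1 → x ∈ K := fun h => hJ h
  simp only [mem_union, mem_inter]
  tauto

theorem ar_u3 {P B J2 : Finset α} (h : ∀ x ∈ P, x ∉ J2) : P \ (J2 ∪ (P ∩ B)) = P \ B := by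
  ext x
  have h2 : x ∈ P → x ∉ J2 := h x
  simp only [mem_sdiff, mem_union, mem_inter]
  tauto

theorem ar_u4 {P K B J2 : Finset α} (h : ∀ x ∈ K, x ∉ P) (hJ : J2 ⊆ K) :
    K ∩ (J2 ∪ (P ∩ B)) = J2 := by
  ext x
  have h2 : x ∈ K → x ∉ P := h x
  have h3 : x ∈ J2 → x ∈ K := fun h => hJ h
  simp only [mem_union, mem_inter]
  tauto

/-! ## One row of blocks -/

/-- one row of blocks -/
def strip (pos : α → ℕ) (R : Finset α) (C : ℕ → Finset α) (g : ℕ → Finset α → Bool) (q : ℕ)
    (B : Finset α) : Bool :=
  xs q (fun b => evB pos (g b) R (C b) (R \ B) (UU C q ∩ B))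

theorem strip_GP3 {pos : α → ℕ} (R : Finset α) (C : ℕ → Finset α) (g : ℕ → Finset α → Bool) :
    ∀ q, 1 ≤ q → (∀ x ∈ R ∪ UU C q, ∀ y ∈ R ∪ UU C q, pos x = pos y → x = y) →
      (∀ x ∈ R, ∀ b, b < q → ∀ y ∈ C b, pos x < pos y) →
      (∀ b b', b < b' → b' < q → ∀ x ∈ C b, ∀ y ∈ C b', pos x < pos y) →
      (∀ b, b < q → 2 ≤ (C b).card) →
      (∀ b, b < q → GP3 pos (R ∪ C b) R.card (g b)) →
      GP3 pos (R ∪ UU C q) R.card (strip pos R C g q) := by
  intro q hq
  induction q, hq using Nat.le_induction with
  | base =>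
    intro hinj hRC _ _ hg
    rw [UU_one] at hinj ⊢
    refine GP3_congr (f := g 0) ?_ (hg 0 one_pos)
    intro B hB hcard
    have hdis : Disjoint R (C 0) := disjoint_left.2 fun x hx hx' =>
      lt_irrefl _ (hRC x hx 0 one_pos x hx')
    have hBeq : B = (R ∩ B) ∪ (C 0 ∩ B) := by
      rw [← union_inter_distrib_right]
      exact (inter_eq_right.2 hB).symm
    have hdis2 : Disjoint (R ∩ B) (C 0 ∩ B) :=
      hdis.mono inter_subset_left inter_subset_left
    have hc1 : (R ∩ B).card + (C 0 ∩ B).card = R.card := by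
      rw [← card_union_of_disjoint hdis2, ← hBeq, hcard]
    have hc2 : (R ∩ B).card + (R \ B).card = R.card := card_inter_add_card_sdiff R B
    have h := evB_full (pos := pos) (g := g 0) (A := R) (K := C 0) (I := R \ B) (J := C 0 ∩ B)
      sdiff_subset inter_subset_left
      (fun x hx y hy => hinj x (mem_union_left _ (sdiff_subset hx)) y
        (mem_union_left _ (sdiff_subset hy)))
      (fun x hx y hy => hinj x (mem_union_right _ (inter_subset_left hx)) y
        (mem_union_right _ (inter_subset_left hy)))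
      (by omega)
    have e : strip pos R C g 1 B = evB pos (g 0) R (C 0) (R \ B) (C 0 ∩ B) := by
      simp only [strip, xs, UU_one, Bool.false_xor]
    rw [e, h, sdiff_sdiff_right_self]
    conv_lhs => rw [hBeq]
    rfl
  | succ q hq ih =>
    intro hinj hRC hCC hCcard hg
    rw [UU_succ] at hinj ⊢
    have ih' := ih (fun x hx y hy => hinj x (by
          rw [mem_union] at hx ⊢
          rcases hx with hx | hx
          · exact Or.inl hx
          · exact Or.inr (mem_union_left _ hx)) y (by
          rw [mem_union] at hy ⊢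
          rcases hy with hy | hy
          · exact Or.inl hy
          · exact Or.inr (mem_union_left _ hy)))
      (fun x hx b hb => hRC x hx b (Nat.lt_succ_of_lt hb))
      (fun b b' hbb hb' => hCC b b' hbb (Nat.lt_succ_of_lt hb'))
      (fun b hb => hCcard b (Nat.lt_succ_of_lt hb))
      (fun b hb => hg b (Nat.lt_succ_of_lt hb))
    set U : Finset α := UU C q with hU
    set K : Finset α := C q with hK
    set E : Finset α := R ∪ (U ∪ K) with hE
    have hUK : ∀ x ∈ U, ∀ y ∈ K, pos x < pos y := by
      intro x hx y hy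
      rw [hU, mem_UU] at hx
      obtain ⟨b, hb, hxb⟩ := hx
      exact hCC b q hb (Nat.lt_succ_self q) x hxb y hy
    have hRU : ∀ x ∈ R, ∀ y ∈ U, pos x < pos y := by
      intro x hx y hy
      rw [hU, mem_UU] at hy
      obtain ⟨b, hb, hyb⟩ := hy
      exact hRC x hx b (Nat.lt_succ_of_lt hb) y hyb
    have hRK : ∀ x ∈ R, ∀ y ∈ K, pos x < pos y := fun x hx y hy =>
      hRC x hx q (Nat.lt_succ_self q) y hy
    have dRU : Disjoint R U := disjoint_left.2 fun x hx hx' => lt_irrefl _ (hRU x hx x hx')
    have dRK : Disjoint R K := disjoint_left.2 fun x hx hx' => lt_irrefl _ (hRK x hx x hx')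
    have dUK : Disjoint U K := disjoint_left.2 fun x hx hx' => lt_irrefl _ (hUK x hx x hx')
    have hKc : 2 ≤ K.card := hCcard q (Nat.lt_succ_self q)
    have hUc : 2 ≤ U.card := by
      have h0 : C 0 ⊆ U := by
        intro x hx
        rw [hU, mem_UU]
        exact ⟨0, by omega, hx⟩
      exact (hCcard 0 (by omega)).trans (card_le_card h0)
    -- rotated order
    set N : ℕ := E.sup pos + 1 with hN
    have hposN : ∀ x ∈ E, pos x < N := fun x hx => Nat.lt_succ_of_le (le_sup hx)
    set pos' : α → ℕ := fun x => if x ∈ K then pos x else pos x + N with hpos'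
    have pK : ∀ x ∈ K, pos' x = pos x := fun x hx => by simp only [hpos', if_pos hx]
    have pnK : ∀ x, x ∉ K → pos' x = pos x + N := fun x hx => by simp only [hpos', if_neg hx]
    have hRnK : ∀ x ∈ R, x ∉ K := fun x hx => disjoint_left.1 dRK hx
    have hUnK : ∀ x ∈ U, x ∉ K := fun x hx => disjoint_left.1 dUK hx
    have hKE : ∀ x ∈ K, x ∈ E := fun x hx => mem_union_right _ (mem_union_right _ hx)
    have hUE : ∀ x ∈ U, x ∈ E := fun x hx => mem_union_right _ (mem_union_left _ hx)
    have hRE : ∀ x ∈ R, x ∈ E := fun x hx => mem_union_left _ hx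
    -- the two pieces in the rotated order
    have g1 : GP3 pos' (R ∪ K) K.card (fun X => g q ((R ∪ K) \ X)) := by
      have h1 : GP3 pos' (R ∪ K) R.card (g q) :=
        GP3_rotate (A := R) (A' := K) rfl hRK
          (fun x hx y hy => by
            rw [pK y hy, pnK x (hRnK x hx)]
            have := hposN y (hKE y hy)
            omega)
          (fun x hx y hy h => by
            rw [pnK x (hRnK x hx), pnK y (hRnK y hy)] at h
            omega)
          (fun x hx y hy h => by
            rw [pK x hx, pK y hy] at h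
            exact h) (hg q (Nat.lt_succ_self q))
      have h2 := GP3_compl h1
      rw [card_union_of_disjoint dRK, Nat.add_sub_cancel_left] at h2
      exact h2
    have g2 : GP3 pos' (R ∪ U) U.card (fun X => strip pos R C g q ((R ∪ U) \ X)) := by
      have h1 : GP3 pos' (R ∪ U) R.card (strip pos R C g q) :=
        GP3_rotate (A := R ∪ U) (A' := ∅) (by rw [union_empty]) (by simp) (by simp)
          (fun x hx y hy h => by
            have hx' : x ∉ K := by
              rw [mem_union] at hx
              rcases hx with hx | hx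
              · exact hRnK x hx
              · exact hUnK x hx
            have hy' : y ∉ K := by
              rw [mem_union] at hy
              rcases hy with hy | hy
              · exact hRnK y hy
              · exact hUnK y hy
            rw [pnK x hx', pnK y hy'] at h
            omega) (by simp) ih'
      have h2 := GP3_compl h1
      rw [card_union_of_disjoint dRU, Nat.add_sub_cancel_left] at h2
      exact h2
    have hE1 : E \ (R ∪ K) = U := by
      ext x
      simp only [hE, mem_sdiff, mem_union, not_or]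
      constructor
      · rintro ⟨h1 | h1 | h1, h2, h3⟩
        · exact absurd h1 h2
        · exact h1
        · exact absurd h1 h3
      · intro hx
        exact ⟨Or.inr (Or.inl hx), fun h => disjoint_left.1 dRU h hx, hUnK x hx⟩
    have hE2 : E \ (R ∪ U) = K := by
      ext x
      simp only [hE, mem_sdiff, mem_union, not_or]
      constructor
      · rintro ⟨h1 | h1 | h1, h2, h3⟩
        · exact absurd h1 h2
        · exact absurd h1 h3
        · exact h1
      · intro hx
        exact ⟨Or.inr (Or.inr hx), fun h => disjoint_left.1 dRK h hx,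
          fun h => disjoint_left.1 dUK h hx⟩
    have hinj' : ∀ x ∈ E, ∀ y ∈ E, pos' x = pos' y → x = y := by
      intro x hx y hy he
      by_cases hxK : x ∈ K
      · by_cases hyK : y ∈ K
        · rw [pK x hxK, pK y hyK] at he
          exact hinj x hx y hy he
        · rw [pK x hxK, pnK y hyK] at he
          have := hposN x hx
          omega
      · by_cases hyK : y ∈ K
        · rw [pnK x hxK, pK y hyK] at he
          have := hposN y hy
          omega
        · rw [pnK x hxK, pnK y hyK] at he
          exact hinj x hx y hy (by omega)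
    have hcomp := comp_GP3 (pos := pos') (E := E) (E1 := R ∪ K) (E2 := R ∪ U) (r1 := K.card)
      (r2 := U.card) hinj'
      (fun x hx y hy h => by
        have hxU : x ∉ U := by
          rw [mem_union] at hx
          rcases hx with hx | hx
          · exact disjoint_left.1 dRU hx
          · exact fun h => disjoint_left.1 dUK h hx
        by_contra hyn
        have hyU : y ∈ U := by
          rw [← hE1, mem_sdiff]; exact ⟨hy, hyn⟩
        rw [pnK y (hUnK y hyU)] at h
        rw [mem_union] at hx
        rcases hx with hx | hx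
        · rw [pnK x (hRnK x hx)] at h
          have := hRU x hx y hyU
          omega
        · rw [pK x hx] at h
          have := hposN x (hKE x hx)
          omega)
      (fun x hx y hy h => by
        by_contra hyn
        have hyK : y ∈ K := by
          rw [← hE2, mem_sdiff]; exact ⟨hy, hyn⟩
        have hxK : x ∉ K := by
          rw [mem_union] at hx
          rcases hx with hx | hx
          · exact hRnK x hx
          · exact hUnK x hx
        rw [pK y hyK, pnK x hxK] at h
        have := hposN y hy
        omega)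
      (by rw [hE1]) (by rw [hE2]) hKc hUc g1 g2
    have hcomp2 := GP3_compl hcomp
    have hEcard : E.card = R.card + (U.card + K.card) := by
      rw [hE, card_union_of_disjoint, card_union_of_disjoint dUK]
      rw [disjoint_union_right]
      exact ⟨dRU, dRK⟩
    have hrank : E.card - (K.card + U.card) = R.card := by omega
    rw [hrank] at hcomp2
    -- rotate back
    have hback := GP3_rotate (pos := pos') (pos' := pos) (A := K) (A' := R ∪ U) (E := E)
      ar_E1
      (fun x hx y hy => by
        have hyK : y ∉ K := by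
          rw [mem_union] at hy
          rcases hy with hy | hy
          · exact hRnK y hy
          · exact hUnK y hy
        rw [pK x hx, pnK y hyK]
        have := hposN x (hKE x hx)
        omega)
      (fun x hx y hy => by
        rw [mem_union] at hy
        rcases hy with hy | hy
        · exact hRK y hy x hx
        · exact hUK y hy x hx)
      (fun x hx y hy h => by
        rw [pK x hx, pK y hy]
        exact h)
      (fun x hx y hy h => by
        have hx' : x ∉ K := by
          rw [mem_union] at hx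
          rcases hx with hx | hx
          · exact hRnK x hx
          · exact hUnK x hx
        have hy' : y ∉ K := by
          rw [mem_union] at hy
          rcases hy with hy | hy
          · exact hRnK y hy
          · exact hUnK y hy
        rw [pnK x hx', pnK y hy']
        omega) hcomp2
    refine GP3_congr ?_ hback
    -- evaluation
    intro B hB hcard
    obtain ⟨I2, I1, hI, hId, hI2c, hIlt⟩ := exists_split (pos := pos) (R \ B)
      (fun x hx y hy => hinj x (hRE x (sdiff_subset hx)) y (hRE y (sdiff_subset hy)))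
      (K ∩ B).card (by
        have h1 : (R ∩ B).card + (R \ B).card = R.card := card_inter_add_card_sdiff R B
        have h2 : (R ∩ B).card + (K ∩ B).card ≤ B.card := by
          rw [← card_union_of_disjoint (dRK.mono inter_subset_left inter_subset_left)]
          exact card_le_card (union_subset inter_subset_right inter_subset_right)
        omega)
    have hcount : (R ∩ B).card + ((U ∩ B).card + (K ∩ B).card) = R.card := by
      rw [← hcard, ← card_union_of_disjoint (dUK.mono inter_subset_left inter_subset_left),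
        ← card_union_of_disjoint]
      · congr 1
        rw [← union_inter_distrib_right, ← union_inter_distrib_right]
        exact inter_eq_right.2 hB
      · rw [disjoint_union_right]
        exact ⟨dRU.mono inter_subset_left inter_subset_left,
          dRK.mono inter_subset_left inter_subset_left⟩
    have hRB : (R ∩ B).card + (R \ B).card = R.card := card_inter_add_card_sdiff R B
    have hIc : I2.card + I1.card = (R \ B).card := by
      rw [← card_union_of_disjoint hId, hI]
    have hI1c : I1.card = (U ∩ B).card := by omega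
    have hI2R : I2 ⊆ R \ B := by rw [← hI]; exact subset_union_left
    have hI1R : I1 ⊆ R \ B := by rw [← hI]; exact subset_union_right
    have hKB : (K ∩ B).card + (K \ B).card = K.card := card_inter_add_card_sdiff K B
    have hUB : (U ∩ B).card + (U \ B).card = U.card := card_inter_add_card_sdiff U B
    have hXY : E \ B = ((K \ B) ∪ I2) ∪ (I1 ∪ (U \ B)) := ar_XY1 hI
    have hval := comp_union (pos := pos') (r1 := K.card) (r2 := U.card)
      (f1 := fun X => g q ((R ∪ K) \ X)) (f2 := fun X => strip pos R C g q ((R ∪ U) \ X))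
      (X := (K \ B) ∪ I2) (Y := I1 ∪ (U \ B))
      (fun x hx y hy => by
        rw [mem_union] at hx hy
        have hyK : y ∉ K := by
          rcases hy with hy | hy
          · exact hRnK y (sdiff_subset (hI1R hy))
          · exact hUnK y (sdiff_subset hy)
        rw [pnK y hyK]
        rcases hx with hx | hx
        · rw [pK x (sdiff_subset hx)]
          have := hposN x (hKE x (sdiff_subset hx))
          omega
        · have hxR : x ∈ R := sdiff_subset (hI2R hx)
          rw [pnK x (hRnK x hxR)]
          rcases hy with hy | hy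
          · have := hIlt x hx y hy
            omega
          · have := hRU x hxR y (sdiff_subset hy)
            omega)
      (by
        rw [card_union_of_disjoint (disjoint_left.2 fun x hx hx' =>
          hRnK x (sdiff_subset (hI2R hx')) (sdiff_subset hx))]
        omega)
      (by
        rw [card_union_of_disjoint (disjoint_left.2 fun x hx hx' =>
          disjoint_left.1 dRU (sdiff_subset (hI1R hx)) (sdiff_subset hx'))]
        omega)
    have hI2R' : I2 ⊆ R := hI2R.trans sdiff_subset
    have hI1R' : I1 ⊆ R := hI1R.trans sdiff_subset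
    have hRnU : ∀ x ∈ R, x ∉ U := fun x h => disjoint_left.1 dRU h
    have s1 : (R ∪ K) \ ((K \ B) ∪ I2) = (R \ I2) ∪ (K ∩ B) := ar_s1 hI2R' hRnK
    have s2 : (R ∪ U) \ (I1 ∪ (U \ B)) = (R \ I1) ∪ (U ∩ B) := ar_s2 hI1R' hRnU
    rw [hXY, hval, s1, s2]
    -- the value of the strip on the reduced set
    have t1 : R \ ((R \ I1) ∪ (U ∩ B)) = I1 := ar_t1 hI1R' hRnU
    have t2 : UU C q ∩ ((R \ I1) ∪ (U ∩ B)) = U ∩ B := ar_t2 hRnU
    have hJ : UU C (q + 1) ∩ B = (U ∩ B) ∪ (K ∩ B) := by
      rw [UU_succ, ← hU, ← hK, union_inter_distrib_right]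
    have hIun : R \ B = I1 ∪ I2 := by rw [← hI, union_comm]
    have hsplit : ∀ i j, Mt pos (R \ B) (UU C (q + 1) ∩ B) i j ↔
        Mt pos I1 (U ∩ B) i j ∨ Mt pos I2 (K ∩ B) i j := by
      intro i j
      rw [hJ, hIun]
      exact Mt_split (fun x hx y hy => hIlt y hy x hx)
        (fun x hx y hy => hUK x (inter_subset_left hx) y (inter_subset_left hy)) hI1c i j
    have v1 : strip pos R C g q ((R \ I1) ∪ (U ∩ B)) =
        xs q (fun b => evB pos (g b) R (C b) (R \ B) (UU C (q + 1) ∩ B)) := by
      unfold strip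
      rw [t1, t2]
      refine xs_congr fun b hb => ?_
      refine evB_congr fun i _ j hj => ?_
      rw [hsplit]
      constructor
      · exact Or.inl
      · rintro (h | h)
        · exact h
        · exfalso
          have h1 : j ∈ K := inter_subset_left h.2.1
          exact lt_irrefl _ (hCC b q hb (Nat.lt_succ_self q) j hj j h1)
    have v2 : evB pos (g q) R (C q) (R \ B) (UU C (q + 1) ∩ B) = g q ((R \ I2) ∪ (K ∩ B)) := by
      have h1 : evB pos (g q) R (C q) (R \ B) (UU C (q + 1) ∩ B) =
          evB pos (g q) R (C q) I2 (K ∩ B) := by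
        refine evB_congr fun i _ j hj => ?_
        rw [hsplit]
        constructor
        · rintro (h | h)
          · exfalso
            exact disjoint_left.1 dUK (inter_subset_left h.2.1) hj
          · exact h
        · exact Or.inr
      rw [h1]
      refine evB_full (hI2R.trans sdiff_subset) inter_subset_left
        (fun x hx y hy => hinj x (hRE x (sdiff_subset (hI2R hx))) y
          (hRE y (sdiff_subset (hI2R hy))))
        (fun x hx y hy => hinj x (hKE x (inter_subset_left hx)) y
          (hKE y (inter_subset_left hy))) hI2c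
    show (g q ((R \ I2) ∪ (K ∩ B)) ^^ strip pos R C g q ((R \ I1) ∪ (U ∩ B))) =
      strip pos R C g (q + 1) B
    have v3 : strip pos R C g (q + 1) B =
        (xs q (fun b => evB pos (g b) R (C b) (R \ B) (UU C (q + 1) ∩ B)) ^^
          evB pos (g q) R (C q) (R \ B) (UU C (q + 1) ∩ B)) := rfl
    rw [v3, v1, v2, Bool.xor_comm]

/-! ## The array -/

/-- the array of blocks -/
def arr (pos : α → ℕ) (p q : ℕ) (R C : ℕ → Finset α) (g : ℕ → ℕ → Finset α → Bool)
    (B : Finset α) : Bool :=
  xs p (fun a => xs q (fun b => evB pos (g a b) (R a) (C b) (UU R p \ B) (UU C q ∩ B)))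

theorem arr_GP3 {pos : α → ℕ} (R C : ℕ → Finset α) (g : ℕ → ℕ → Finset α → Bool) (q : ℕ)
    (hq : 1 ≤ q) :
    ∀ p, 1 ≤ p → (∀ x ∈ UU R p ∪ UU C q, ∀ y ∈ UU R p ∪ UU C q, pos x = pos y → x = y) →
      (∀ a, a < p → ∀ x ∈ R a, ∀ b, b < q → ∀ y ∈ C b, pos x < pos y) →
      (∀ a a', a < a' → a' < p → ∀ x ∈ R a, ∀ y ∈ R a', pos y < pos x) →
      (∀ b b', b < b' → b' < q → ∀ x ∈ C b, ∀ y ∈ C b', pos x < pos y) →
      (∀ a, a < p → 2 ≤ (R a).card) →
      (∀ b, b < q → 2 ≤ (C b).card) →
      (∀ a b, a < p → b < q → GP3 pos (R a ∪ C b) (R a).card (g a b)) →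
      GP3 pos (UU R p ∪ UU C q) (UU R p).card (arr pos p q R C g) := by
  intro p hp
  induction p, hp using Nat.le_induction with
  | base =>
    intro hinj hRC _ hCC _ hCcard hg
    have h := strip_GP3 (pos := pos) (R 0) C (g 0) q hq
      (by rw [UU_one] at hinj; exact hinj) (fun x hx b hb => hRC 0 one_pos x hx b hb) hCC hCcard
      (fun b hb => hg 0 b one_pos hb)
    rw [UU_one]
    have e : arr pos 1 q R C g = strip pos (R 0) C (g 0) q := by
      funext B
      simp only [arr, strip, xs, UU_one, Bool.false_xor]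
    rw [e]
    exact h
  | succ p hp ih =>
    intro hinj hRC hRR hCC hRcard hCcard hg
    have hUR : UU R (p + 1) = UU R p ∪ R p := UU_succ R p
    set T : Finset α := UU R p with hT
    set P : Finset α := R p with hP
    set K : Finset α := UU C q with hK
    rw [hUR] at hinj ⊢
    set E : Finset α := (T ∪ P) ∪ K with hE
    have hTE : ∀ x ∈ T, x ∈ E := fun x hx => mem_union_left _ (mem_union_left _ hx)
    have hPE : ∀ x ∈ P, x ∈ E := fun x hx => mem_union_left _ (mem_union_right _ hx)
    have hKE : ∀ x ∈ K, x ∈ E := fun x hx => mem_union_right _ hx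
    have ih' := ih (fun x hx y hy => hinj x (by
          rw [mem_union] at hx
          rcases hx with hx | hx
          · exact hTE x hx
          · exact hKE x hx) y (by
          rw [mem_union] at hy
          rcases hy with hy | hy
          · exact hTE y hy
          · exact hKE y hy))
      (fun a ha => hRC a (Nat.lt_succ_of_lt ha))
      (fun a a' haa ha' => hRR a a' haa (Nat.lt_succ_of_lt ha')) hCC
      (fun a ha => hRcard a (Nat.lt_succ_of_lt ha)) hCcard
      (fun a b ha hb => hg a b (Nat.lt_succ_of_lt ha) hb)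
    have hst := strip_GP3 (pos := pos) P C (g p) q hq
      (fun x hx y hy => hinj x (by
          rw [mem_union] at hx
          rcases hx with hx | hx
          · exact hPE x hx
          · exact hKE x hx) y (by
          rw [mem_union] at hy
          rcases hy with hy | hy
          · exact hPE y hy
          · exact hKE y hy))
      (fun x hx b hb => hRC p (Nat.lt_succ_self p) x hx b hb) hCC hCcard
      (fun b hb => hg p b (Nat.lt_succ_self p) hb)
    have hPT : ∀ x ∈ P, ∀ y ∈ T, pos x < pos y := by
      intro x hx y hy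
      rw [hT, mem_UU] at hy
      obtain ⟨a, ha, hya⟩ := hy
      exact hRR a p ha (Nat.lt_succ_self p) y hya x hx
    have hPK : ∀ x ∈ P, ∀ y ∈ K, pos x < pos y := by
      intro x hx y hy
      rw [hK, mem_UU] at hy
      obtain ⟨b, hb, hyb⟩ := hy
      exact hRC p (Nat.lt_succ_self p) x hx b hb y hyb
    have hTK : ∀ x ∈ T, ∀ y ∈ K, pos x < pos y := by
      intro x hx y hy
      rw [hK, mem_UU] at hy
      obtain ⟨b, hb, hyb⟩ := hy
      rw [hT, mem_UU] at hx
      obtain ⟨a, ha, hxa⟩ := hx
      exact hRC a (Nat.lt_succ_of_lt ha) x hxa b hb y hyb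
    have dPT : Disjoint P T := disjoint_left.2 fun x hx hx' => lt_irrefl _ (hPT x hx x hx')
    have dPK : Disjoint P K := disjoint_left.2 fun x hx hx' => lt_irrefl _ (hPK x hx x hx')
    have dTK : Disjoint T K := disjoint_left.2 fun x hx hx' => lt_irrefl _ (hTK x hx x hx')
    have hPc : 2 ≤ P.card := hRcard p (Nat.lt_succ_self p)
    have hTc : 2 ≤ T.card := by
      have h0 : R 0 ⊆ T := by
        intro x hx
        rw [hT, mem_UU]
        exact ⟨0, by omega, hx⟩
      exact (hRcard 0 (by omega)).trans (card_le_card h0)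
    set N : ℕ := E.sup pos + 1 with hN
    have hposN : ∀ x ∈ E, pos x < N := fun x hx => Nat.lt_succ_of_le (le_sup hx)
    set pos' : α → ℕ := fun x => if x ∈ P then pos x + N else pos x with hpos'
    have pP : ∀ x ∈ P, pos' x = pos x + N := fun x hx => by simp only [hpos', if_pos hx]
    have pnP : ∀ x, x ∉ P → pos' x = pos x := fun x hx => by simp only [hpos', if_neg hx]
    have hTnP : ∀ x ∈ T, x ∉ P := fun x hx h => disjoint_left.1 dPT h hx
    have hKnP : ∀ x ∈ K, x ∉ P := fun x hx h => disjoint_left.1 dPK h hx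
    have g1 : GP3 pos' (T ∪ K) T.card (arr pos p q R C g) :=
      GP3_rotate (A := T ∪ K) (A' := ∅) (by rw [union_empty]) (by simp) (by simp)
        (fun x hx y hy h => by
          have hx' : x ∉ P := by
            rw [mem_union] at hx
            rcases hx with hx | hx
            · exact hTnP x hx
            · exact hKnP x hx
          have hy' : y ∉ P := by
            rw [mem_union] at hy
            rcases hy with hy | hy
            · exact hTnP y hy
            · exact hKnP y hy
          rw [pnP x hx', pnP y hy'] at h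
          exact h) (by simp) ih'
    have g2 : GP3 pos' (P ∪ K) P.card (strip pos P C (g p) q) :=
      GP3_rotate (A := P) (A' := K) rfl hPK
        (fun x hx y hy => by
          rw [pP x hx, pnP y (hKnP y hy)]
          have := hposN y (hKE y hy)
          omega)
        (fun x hx y hy h => by
          rw [pP x hx, pP y hy] at h
          omega)
        (fun x hx y hy h => by
          rw [pnP x (hKnP x hx), pnP y (hKnP y hy)] at h
          exact h) hst
    have hE1 : E \ (T ∪ K) = P := by
      ext x
      simp only [hE, mem_sdiff, mem_union, not_or]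
      constructor
      · rintro ⟨(h1 | h1) | h1, h2, h3⟩
        · exact absurd h1 h2
        · exact h1
        · exact absurd h1 h3
      · intro hx
        exact ⟨Or.inl (Or.inr hx), fun h => hTnP x h hx, fun h => hKnP x h hx⟩
    have hE2 : E \ (P ∪ K) = T := by
      ext x
      simp only [hE, mem_sdiff, mem_union, not_or]
      constructor
      · rintro ⟨(h1 | h1) | h1, h2, h3⟩
        · exact h1
        · exact absurd h1 h2
        · exact absurd h1 h3
      · intro hx
        exact ⟨Or.inl (Or.inl hx), hTnP x hx, disjoint_left.1 dTK hx⟩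
    have hinj' : ∀ x ∈ E, ∀ y ∈ E, pos' x = pos' y → x = y := by
      intro x hx y hy he
      by_cases hxP : x ∈ P
      · by_cases hyP : y ∈ P
        · rw [pP x hxP, pP y hyP] at he
          exact hinj x hx y hy (by omega)
        · rw [pP x hxP, pnP y hyP] at he
          have := hposN y hy
          omega
      · by_cases hyP : y ∈ P
        · rw [pnP x hxP, pP y hyP] at he
          have := hposN x hx
          omega
        · rw [pnP x hxP, pnP y hyP] at he
          exact hinj x hx y hy he
    have hcomp := comp_GP3 (pos := pos') (E := E) (E1 := T ∪ K) (E2 := P ∪ K) (r1 := T.card)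
      (r2 := P.card) hinj'
      (fun x hx y hy h => by
        by_contra hyn
        have hyP : y ∈ P := by
          rw [← hE1, mem_sdiff]; exact ⟨hy, hyn⟩
        have hx' : x ∉ P := by
          rw [mem_union] at hx
          rcases hx with hx | hx
          · exact hTnP x hx
          · exact hKnP x hx
        have hxE : x ∈ E := by
          rw [mem_union] at hx
          rcases hx with hx | hx
          · exact hTE x hx
          · exact hKE x hx
        rw [pP y hyP, pnP x hx'] at h
        have := hposN x hxE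
        omega)
      (fun x hx y hy h => by
        by_contra hyn
        have hyT : y ∈ T := by
          rw [← hE2, mem_sdiff]; exact ⟨hy, hyn⟩
        rw [pnP y (hTnP y hyT)] at h
        rw [mem_union] at hx
        rcases hx with hx | hx
        · rw [pP x hx] at h
          have := hposN y hy
          omega
        · rw [pnP x (hKnP x hx)] at h
          have := hTK y hyT x hx
          omega)
      (by rw [hE1]) (by rw [hE2]) hTc hPc g1 g2
    have hback := GP3_rotate (pos := pos') (pos' := pos) (A := T ∪ K) (A' := P) (E := E)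
      ar_E2
      (fun x hx y hy => by
        have hx' : x ∉ P := by
          rw [mem_union] at hx
          rcases hx with hx | hx
          · exact hTnP x hx
          · exact hKnP x hx
        have hxE : x ∈ E := by
          rw [mem_union] at hx
          rcases hx with hx | hx
          · exact hTE x hx
          · exact hKE x hx
        rw [pnP x hx', pP y hy]
        have := hposN x hxE
        omega)
      (fun x hx y hy => by
        rw [mem_union] at hx
        rcases hx with hx | hx
        · exact hPT y hy x hx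
        · exact hPK y hy x hx)
      (fun x hx y hy h => by
        have hx' : x ∉ P := by
          rw [mem_union] at hx
          rcases hx with hx | hx
          · exact hTnP x hx
          · exact hKnP x hx
        have hy' : y ∉ P := by
          rw [mem_union] at hy
          rcases hy with hy | hy
          · exact hTnP y hy
          · exact hKnP y hy
        rw [pnP x hx', pnP y hy']
        exact h)
      (fun x hx y hy h => by
        rw [pP x hx, pP y hy]
        omega) hcomp
    have hcardT : (T ∪ P).card = T.card + P.card := card_union_of_disjoint dPT.symm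
    rw [hcardT]
    refine GP3_congr ?_ hback
    intro B hB hcard
    have hTB : (T ∩ B).card + (T \ B).card = T.card := card_inter_add_card_sdiff T B
    have hPB : (P ∩ B).card + (P \ B).card = P.card := card_inter_add_card_sdiff P B
    have hcount : ((T ∩ B).card + (P ∩ B).card) + (K ∩ B).card = T.card + P.card := by
      rw [← hcard, ← card_union_of_disjoint (dPT.symm.mono inter_subset_left inter_subset_left),
        ← card_union_of_disjoint]
      · congr 1
        rw [← union_inter_distrib_right, ← union_inter_distrib_right]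
        exact inter_eq_right.2 hB
      · rw [disjoint_union_left]
        exact ⟨dTK.mono inter_subset_left inter_subset_left,
          dPK.mono inter_subset_left inter_subset_left⟩
    obtain ⟨J1, J2, hJ, hJd, hJ1c, hJlt⟩ := exists_split (pos := pos) (K ∩ B)
      (fun x hx y hy => hinj x (hKE x (inter_subset_left hx)) y (hKE y (inter_subset_left hy)))
      (T \ B).card (by omega)
    have hJc : J1.card + J2.card = (K ∩ B).card := by
      rw [← card_union_of_disjoint hJd, hJ]
    have hJ1K : J1 ⊆ K ∩ B := by rw [← hJ]; exact subset_union_left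
    have hJ2K : J2 ⊆ K ∩ B := by rw [← hJ]; exact subset_union_right
    have hXY : B = ((T ∩ B) ∪ J1) ∪ (J2 ∪ (P ∩ B)) := ar_XY2 hJ hB
    have hval := comp_union (pos := pos') (r1 := T.card) (r2 := P.card)
      (f1 := arr pos p q R C g) (f2 := strip pos P C (g p) q)
      (X := (T ∩ B) ∪ J1) (Y := J2 ∪ (P ∩ B))
      (fun x hx y hy => by
        rw [mem_union] at hx hy
        have hx' : x ∉ P := by
          rcases hx with hx | hx
          · exact hTnP x (inter_subset_left hx)
          · exact hKnP x (inter_subset_left (hJ1K hx))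
        have hxE : x ∈ E := by
          rcases hx with hx | hx
          · exact hTE x (inter_subset_left hx)
          · exact hKE x (inter_subset_left (hJ1K hx))
        rw [pnP x hx']
        rcases hy with hy | hy
        · have hyK : y ∈ K := inter_subset_left (hJ2K hy)
          rw [pnP y (hKnP y hyK)]
          rcases hx with hx | hx
          · exact hTK x (inter_subset_left hx) y hyK
          · exact hJlt x hx y hy
        · rw [pP y (inter_subset_left hy)]
          have := hposN x hxE
          omega)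
      (by
        rw [card_union_of_disjoint (disjoint_left.2 fun x hx hx' =>
          disjoint_left.1 dTK (inter_subset_left hx) (inter_subset_left (hJ1K hx')))]
        omega)
      (by
        rw [card_union_of_disjoint (disjoint_left.2 fun x hx hx' =>
          hKnP x (inter_subset_left (hJ2K hx)) (inter_subset_left hx'))]
        omega)
    have t1 : UU R p \ ((T ∩ B) ∪ J1) = T \ B := ar_u1 (fun x h h' =>
        disjoint_left.1 dTK h (inter_subset_left (hJ1K h')))
    have t2 : UU C q ∩ ((T ∩ B) ∪ J1) = J1 := ar_u2 (fun x h h' => disjoint_left.1 dTK h' h)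
      (hJ1K.trans inter_subset_left)
    have t3 : P \ (J2 ∪ (P ∩ B)) = P \ B :=
      ar_u3 (fun x h h' => hKnP x (inter_subset_left (hJ2K h')) h)
    have t4 : UU C q ∩ (J2 ∪ (P ∩ B)) = J2 := ar_u4 hKnP (hJ2K.trans inter_subset_left)
    have hIun : UU R (p + 1) \ B = (T \ B) ∪ (P \ B) := by
      rw [hUR, union_sdiff_distrib]
    have hsplit : ∀ i j, Mt pos (UU R (p + 1) \ B) (UU C q ∩ B) i j ↔
        Mt pos (T \ B) J1 i j ∨ Mt pos (P \ B) J2 i j := by
      intro i j
      rw [hIun, ← hK, ← hJ]
      exact Mt_split (fun x hx y hy => hPT y (sdiff_subset hy) x (sdiff_subset hx))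
        hJlt hJ1c.symm i j
    have v1 : arr pos p q R C g ((T ∩ B) ∪ J1) =
        xs p (fun a => xs q (fun b => evB pos (g a b) (R a) (C b) (UU R (p + 1) \ B)
          (UU C q ∩ B))) := by
      unfold arr
      rw [t1, t2]
      refine xs_congr fun a ha => xs_congr fun b _ => ?_
      refine evB_congr fun i hi j _ => ?_
      rw [hsplit]
      constructor
      · exact Or.inl
      · rintro (h | h)
        · exact h
        · exfalso
          have h1 : i ∈ P := sdiff_subset h.1
          exact lt_irrefl _ (hRR a p ha (Nat.lt_succ_self p) i hi i h1)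
    have v2 : strip pos P C (g p) q (J2 ∪ (P ∩ B)) =
        xs q (fun b => evB pos (g p b) (R p) (C b) (UU R (p + 1) \ B) (UU C q ∩ B)) := by
      unfold strip
      rw [t3, t4]
      refine xs_congr fun b _ => ?_
      refine evB_congr fun i hi j _ => ?_
      rw [hsplit]
      constructor
      · exact Or.inr
      · rintro (h | h)
        · exfalso
          exact hTnP i (sdiff_subset h.1) hi
        · exact h
    have v3 : arr pos (p + 1) q R C g B =
        (xs p (fun a => xs q (fun b => evB pos (g a b) (R a) (C b) (UU R (p + 1) \ B)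
          (UU C q ∩ B))) ^^
          xs q (fun b => evB pos (g p b) (R p) (C b) (UU R (p + 1) \ B) (UU C q ∩ B))) := rfl
    rw [v3, ← v1, ← v2, ← hval, ← hXY]

end Pool.Agent.Simplex
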