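import Mathlib

/-!
Block arrays and window tests: definitions.

Rows 0, ..., m-1 and columns 0, ..., N-1 carry monotone block indices rb, cb.  A basis of the
composite is a list L of matched (row, column) pairs, strictly increasing in both coordinates; its
sign is the product (xor) over the blocks of g a b (pairs of L in block (a, b)).

Ground set {0, ..., m+N-1}: the element e < m is the row m-1-e (rows reversed), the element m+j is
the column j.  A row element is in the basis iff the row is not matched, a column element is in the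
basis iff the column is matched.
-/

set_option autoImplicit false

namespace Pool.Agent.Simplex

/-- A block array. -/
structure Arr where
  m : ℕ
  N : ℕ
  rb : ℕ → ℕ
  cb : ℕ → ℕ
  bl : List (ℕ × ℕ)
  g : ℕ → ℕ → List (ℕ × ℕ) → Bool

namespace Arr

variable (A : Arr)

/-- well formed -/
structure WF : Prop where
  rb_mono : ∀ i j, i ≤ j → A.rb i ≤ A.rb j
  cb_mono : ∀ i j, i ≤ j → A.cb i ≤ A.cb j
  g_nil : ∀ a b, A.g a b [] = false

/-- the block of a pair -/
def blk (p : ℕ × ℕ) : ℕ × ℕ := (A.rb p.1, A.cb p.2)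

/-- the pairs of L in block (a, b) -/
def part (a b : ℕ) (L : List (ℕ × ℕ)) : List (ℕ × ℕ) :=
  L.filter (fun p => A.rb p.1 == a && A.cb p.2 == b)

/-- the sign of a list of pairs -/
def val (L : List (ℕ × ℕ)) : Bool :=
  A.bl.foldr (fun ab s => A.g ab.1 ab.2 (A.part ab.1 ab.2 L) ^^ s) false

/-- rows of a basis -/
def rowsOf (B : Finset ℕ) : List ℕ := (List.range A.m).filter (fun i => decide (A.m - 1 - i ∉ B))

/-- columns of a basis -/
def colsOf (B : Finset ℕ) : List ℕ := (List.range A.N).filter (fun j => decide (A.m + j ∈ B))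

/-- matched pairs of a basis -/
def pairs (B : Finset ℕ) : List (ℕ × ℕ) := (A.rowsOf B).zip (A.colsOf B)

/-- the sign of a basis -/
def f (B : Finset ℕ) : Bool := A.val (A.pairs B)

/-- strictly increasing in both coordinates -/
def Inc (L : List (ℕ × ℕ)) : Prop := L.Pairwise (fun p q => p.1 < q.1 ∧ p.2 < q.2)

/-- valid list of pairs -/
def Valid (L : List (ℕ × ℕ)) : Prop := Inc L ∧ ∀ p ∈ L, p.1 < A.m ∧ p.2 < A.N

/-- toggle the row elements among e, x in the list of rows R -/
def togR (R : List ℕ) (e x : ℕ) : List ℕ :=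
  (List.range A.m).filter
    (fun i => decide (i ∈ R) ^^ (decide (A.m - 1 - i = e) ^^ decide (A.m - 1 - i = x)))

/-- toggle the column elements among e, x in the list of columns C -/
def togC (C : List ℕ) (e x : ℕ) : List ℕ :=
  (List.range A.N).filter
    (fun j => decide (j ∈ C) ^^ (decide (A.m + j = e) ^^ decide (A.m + j = x)))

/-- the sign of the basis of M after exchanging e by x (with the order factor) -/
def T (M : List (ℕ × ℕ)) (e x : ℕ) : Bool :=
  A.val ((A.togR (M.map Prod.fst) e x).zip (A.togC (M.map Prod.snd) e x)) ^^ decide (e < x)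

/-- the element e is in the basis of M -/
def Bas (M : List (ℕ × ℕ)) (e : ℕ) : Prop :=
  (e < A.m ∧ A.m - 1 - e ∉ M.map Prod.fst) ∨
    (A.m ≤ e ∧ e < A.m + A.N ∧ e - A.m ∈ M.map Prod.snd)

/-- the element x is not in the basis of M -/
def Non (M : List (ℕ × ℕ)) (x : ℕ) : Prop :=
  (x < A.m ∧ A.m - 1 - x ∈ M.map Prod.fst) ∨
    (A.m ≤ x ∧ x < A.m + A.N ∧ x - A.m ∉ M.map Prod.snd)

/-- the element e lies in the window -/
def Win (rlo rhi clo chi e : ℕ) : Prop :=
  (e < A.m → rlo ≤ A.m - 1 - e ∧ A.m - 1 - e ≤ rhi) ∧ (A.m ≤ e → clo ≤ e - A.m ∧ e - A.m ≤ chi)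

/-- window test of M: some 2 by 2 test inside the window blocks the basis -/
def WT (M : List (ℕ × ℕ)) (rlo rhi clo chi : ℕ) : Prop :=
  ∃ e e' x x' : ℕ, A.Win rlo rhi clo chi e ∧ A.Win rlo rhi clo chi e' ∧
    A.Win rlo rhi clo chi x ∧ A.Win rlo rhi clo chi x' ∧
    A.Bas M e ∧ A.Bas M e' ∧ A.Non M x ∧ A.Non M x' ∧
    (A.T M e x ^^ A.T M e' x ^^ A.T M e x' ^^ A.T M e' x') = true

/-- lower end of the window -/
def loR (G1 : List (ℕ × ℕ)) : ℕ := (G1.getLastD (0, 0)).1
def loC (G1 : List (ℕ × ℕ)) : ℕ := (G1.getLastD (0, 0)).2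
/-- upper end of the window -/
def hiR (G3 : List (ℕ × ℕ)) : ℕ := (G3.headD (A.m - 1, A.N - 1)).1
def hiC (G3 : List (ℕ × ℕ)) : ℕ := (G3.headD (A.m - 1, A.N - 1)).2

/-- three consecutive groups: the middle one is blocked inside the window between the last pair of
G1 and the first pair of G3 -/
def testW (G1 G2 G3 : List (ℕ × ℕ)) : Prop :=
  A.WT (G1 ++ G2 ++ G3) (loR G1) (A.hiR G3) (loC G1) (A.hiC G3)

/-- the group G2 after G1 is blocked inside the window up to the last pair of G2 -/
def prefT (G1 G2 : List (ℕ × ℕ)) : Prop :=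
  A.WT (G1 ++ G2) (loR G1) (loR G2) (loC G1) (loC G2)

/-- the group G2 is blocked inside the window from its first to its last pair -/
def coreT (G : List (ℕ × ℕ)) : Prop :=
  A.WT G (A.hiR G) (loR G) (A.hiC G) (loC G)

/-- the group G2 before G3 is blocked inside the window from the first pair of G2 to the first
pair of G3 -/
def sufT (G2 G3 : List (ℕ × ℕ)) : Prop :=
  A.WT (G2 ++ G3) (A.hiR G2) (A.hiR G3) (A.hiC G2) (A.hiC G3)

/-- a group: a nonempty valid list of pairs in one block -/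
def IsGrp (G : List (ℕ × ℕ)) : Prop :=
  G ≠ [] ∧ A.Valid G ∧ ∀ p ∈ G, ∀ q ∈ G, A.blk p = A.blk q

/-- some 2 by 2 test blocks the basis L -/
def Full (L : List (ℕ × ℕ)) : Prop := A.WT L 0 (A.m - 1) 0 (A.N - 1)

/-- X ++ M ++ Z is a basis in which the blocks met by M are met neither by X nor by Z -/
def Ctx (X M Z : List (ℕ × ℕ)) : Prop :=
  A.Valid (X ++ M ++ Z) ∧ (∀ p ∈ X, ∀ q ∈ M, A.blk p ≠ A.blk q) ∧
    (∀ q ∈ M, ∀ z ∈ Z, A.blk q ≠ A.blk z)

/-- every basis with the consecutive groups G1, G2, G3 is blocked; G1 = [] (G3 = []) means that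
G2 is the first (last) group -/
def Blk3 (G1 G2 G3 : List (ℕ × ℕ)) : Prop :=
  ∀ X Z, (G1 = [] → X = []) → (G3 = [] → Z = []) → A.Ctx X (G1 ++ G2 ++ G3) Z →
    A.Full (X ++ (G1 ++ G2 ++ G3) ++ Z)

/-- G' comes after G, in a different block -/
def After (G G' : List (ℕ × ℕ)) : Prop :=
  ∀ p ∈ G, ∀ q ∈ G', p.1 < q.1 ∧ p.2 < q.2 ∧ A.blk p ≠ A.blk q

end Arr

end Pool.Agent.Simplex
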