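import Mathlib
import Pool.Agent.Work.MP_f99e36_co.Arr
import Pool.Agent.Work.MP_f99e36_co.PathDefs

/-!
The array on natural numbers: row `i` is the element `m - 1 - i`, column `j` is the element `m + j`.
-/

set_option autoImplicit false

namespace Pool.Agent.Simplex

open Finset

/-! ## Lists -/

theorem mem_zip_iff_of_sorted : ∀ {l l' : List ℕ}, l.Pairwise (· < ·) → l'.Pairwise (· < ·) →
    ∀ i j : ℕ, (i, j) ∈ l.zip l' ↔ i ∈ l ∧ j ∈ l' ∧
      (l.filter (fun x => decide (x < i))).length = (l'.filter (fun x => decide (x < j))).length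
  | [], l', _, _, i, j => by simp
  | (a :: t), [], _, _, i, j => by simp
  | (a :: t), (b :: t'), h, h', i, j => by
    rw [List.pairwise_cons] at h h'
    have ih := mem_zip_iff_of_sorted h.2 h'.2 i j
    have fa : ∀ x ∈ t, ¬ x < a := fun x hx => not_lt.2 (h.1 x hx).le
    have fb : ∀ x ∈ t', ¬ x < b := fun x hx => not_lt.2 (h'.1 x hx).le
    have ea : t.filter (fun x => decide (x < a)) = [] := by
      rw [List.filter_eq_nil_iff]
      intro x hx
      simpa using fa x hx
    have eb : t'.filter (fun x => decide (x < b)) = [] := by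
      rw [List.filter_eq_nil_iff]
      intro x hx
      simpa using fb x hx
    simp only [List.zip_cons_cons, List.mem_cons, Prod.mk.injEq]
    constructor
    · rintro (⟨rfl, rfl⟩ | hm)
      · refine ⟨Or.inl rfl, Or.inl rfl, ?_⟩
        simp only [List.filter_cons, lt_irrefl, decide_false, Bool.false_eq_true, if_false]
        rw [ea, eb]
      · obtain ⟨h1, h2, h3⟩ := ih.1 hm
        have hai : a < i := h.1 i h1
        have hbj : b < j := h'.1 j h2
        refine ⟨Or.inr h1, Or.inr h2, ?_⟩
        simp only [List.filter_cons, hai, hbj, decide_true, if_true, List.length_cons]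
        rw [h3]
    · rintro ⟨h1, h2, h3⟩
      by_cases hia : i = a
      · subst hia
        by_cases hjb : j = b
        · exact Or.inl ⟨rfl, hjb⟩
        · exfalso
          have hj : j ∈ t' := h2.resolve_left hjb
          have hbj : b < j := h'.1 j hj
          simp only [List.filter_cons, lt_irrefl, decide_false, Bool.false_eq_true, if_false, hbj,
            decide_true, if_true, List.length_cons] at h3
          rw [ea] at h3
          simp at h3
      · have hi : i ∈ t := h1.resolve_left hia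
        have hai : a < i := h.1 i hi
        by_cases hjb : j = b
        · exfalso
          subst hjb
          simp only [List.filter_cons, lt_irrefl, decide_false, Bool.false_eq_true, if_false, hai,
            decide_true, if_true, List.length_cons] at h3
          rw [eb] at h3
          simp at h3
        · have hj : j ∈ t' := h2.resolve_left hjb
          have hbj : b < j := h'.1 j hj
          simp only [List.filter_cons, hai, hbj, decide_true, if_true, List.length_cons] at h3
          exact Or.inr (ih.2 ⟨hi, hj, by omega⟩)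

theorem zip_filter (P Q : ℕ → Bool) : ∀ {l l' : List ℕ}, l.Nodup → l'.Nodup →
    ∀ (P' Q' : ℕ → Bool),
      (∀ i ∈ l, P' i = true ↔ P i = true ∧ ∃ j, Q j = true ∧ (i, j) ∈ l.zip l') →
      (∀ j ∈ l', Q' j = true ↔ Q j = true ∧ ∃ i, P i = true ∧ (i, j) ∈ l.zip l') →
      (l.zip l').filter (fun x => P x.1 && Q x.2) = (l.filter P').zip (l'.filter Q')
  | [], l', _, _, P', Q', _, _ => by simp
  | (a :: t), [], _, _, P', Q', _, _ => by simp
  | (a :: t), (b :: t'), h, h', P', Q', h1, h2 => by
    rw [List.nodup_cons] at h h'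
    have ha := h1 a (List.mem_cons_self ..)
    have hb := h2 b (List.mem_cons_self ..)
    have zl : ∀ {i j : ℕ}, (i, j) ∈ t.zip t' → i ∈ t := fun hm => (List.of_mem_zip hm).1
    have zr : ∀ {i j : ℕ}, (i, j) ∈ t.zip t' → j ∈ t' := fun hm => (List.of_mem_zip hm).2
    have ha' : P' a = true ↔ P a = true ∧ Q b = true := by
      rw [ha]
      simp only [List.zip_cons_cons, List.mem_cons, Prod.mk.injEq]
      constructor
      · rintro ⟨hP, j, hQ, ⟨_, rfl⟩ | hm⟩
        · exact ⟨hP, hQ⟩
        · exact absurd (zl hm) h.1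
      · rintro ⟨hP, hQ⟩
        exact ⟨hP, b, hQ, Or.inl ⟨trivial, rfl⟩⟩
    have hb' : Q' b = true ↔ P a = true ∧ Q b = true := by
      rw [hb]
      simp only [List.zip_cons_cons, List.mem_cons, Prod.mk.injEq]
      constructor
      · rintro ⟨hQ, i, hP, ⟨rfl, _⟩ | hm⟩
        · exact ⟨hP, hQ⟩
        · exact absurd (zr hm) h'.1
      · rintro ⟨hP, hQ⟩
        exact ⟨hQ, a, hP, Or.inl ⟨rfl, trivial⟩⟩
    have ih := zip_filter P Q h.2 h'.2 P' Q'
      (fun i hi => by
        rw [h1 i (List.mem_cons_of_mem _ hi)]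
        simp only [List.zip_cons_cons, List.mem_cons, Prod.mk.injEq]
        constructor
        · rintro ⟨hP, j, hQ, ⟨rfl, _⟩ | hm⟩
          · exact absurd hi h.1
          · exact ⟨hP, j, hQ, hm⟩
        · rintro ⟨hP, j, hQ, hm⟩
          exact ⟨hP, j, hQ, Or.inr hm⟩)
      (fun j hj => by
        rw [h2 j (List.mem_cons_of_mem _ hj)]
        simp only [List.zip_cons_cons, List.mem_cons, Prod.mk.injEq]
        constructor
        · rintro ⟨hQ, i, hP, ⟨_, rfl⟩ | hm⟩
          · exact absurd hj h'.1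
          · exact ⟨hQ, i, hP, hm⟩
        · rintro ⟨hQ, i, hP, hm⟩
          exact ⟨hQ, i, hP, Or.inr hm⟩)
    rw [List.zip_cons_cons, List.filter_cons, List.filter_cons, List.filter_cons]
    by_cases hc : P a = true ∧ Q b = true
    · rw [if_pos (ha'.2 hc), if_pos (hb'.2 hc), if_pos (by simp [hc.1, hc.2]), List.zip_cons_cons,
        ih]
    · have c1 : ¬ P' a = true := fun h3 => hc (ha'.1 h3)
      have c2 : ¬ Q' b = true := fun h3 => hc (hb'.1 h3)
      rw [if_neg c1, if_neg c2, if_neg (by simpa using hc), ih]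

/-! ## Rows, columns, nPairs -/

/-- the rows not in `B`, increasing -/
def nRows (m : ℕ) (B : Finset ℕ) : List ℕ := (List.range m).filter (fun i => decide (m - 1 - i ∉ B))

/-- the columns in `B`, increasing -/
def nCols (m N : ℕ) (B : Finset ℕ) : List ℕ := (List.range N).filter (fun j => decide (m + j ∈ B))

/-- the matching -/
def nPairs (m N : ℕ) (B : Finset ℕ) : List (ℕ × ℕ) := (nRows m B).zip (nCols m N B)

/-- the pairs in the block `(a, b)` -/
def nPart (rb cb : ℕ → ℕ) (a b : ℕ) (L : List (ℕ × ℕ)) : List (ℕ × ℕ) :=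
  L.filter (fun x => decide (rb x.1 = a) && decide (cb x.2 = b))

/-- the value of a matching -/
def nVal (p q : ℕ) (rb cb : ℕ → ℕ) (g : ℕ → ℕ → List (ℕ × ℕ) → Bool) (L : List (ℕ × ℕ)) : Bool :=
  xs p (fun a => xs q (fun b => g a b (nPart rb cb a b L)))

/-- the array sign function on natural numbers -/
def fN (m N p q : ℕ) (rb cb : ℕ → ℕ) (g : ℕ → ℕ → List (ℕ × ℕ) → Bool) (B : Finset ℕ) : Bool :=
  nVal p q rb cb g (nPairs m N B)

/-- elements of the row block `a` -/
def Rset (m : ℕ) (rb : ℕ → ℕ) (a : ℕ) : Finset ℕ :=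
  ((range m).filter (fun i => rb i = a)).image (fun i => m - 1 - i)

/-- elements of the column block `b` -/
def Cset (m N : ℕ) (cb : ℕ → ℕ) (b : ℕ) : Finset ℕ :=
  ((range N).filter (fun j => cb j = b)).image (fun j => m + j)

/-- local pairs of a subset `S` of the block `(a, b)` -/
def lpairs (m N : ℕ) (rb cb : ℕ → ℕ) (a b : ℕ) (S : Finset ℕ) : List (ℕ × ℕ) :=
  ((List.range m).filter (fun i => decide (rb i = a ∧ m - 1 - i ∉ S))).zip
    ((List.range N).filter (fun j => decide (cb j = b ∧ m + j ∈ S)))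

/-- the local sign function as a function on sets -/
def gset (m N : ℕ) (rb cb : ℕ → ℕ) (g : ℕ → ℕ → List (ℕ × ℕ) → Bool) (a b : ℕ)
    (S : Finset ℕ) : Bool := g a b (lpairs m N rb cb a b S)

theorem mem_Rset {m : ℕ} {rb : ℕ → ℕ} {a x : ℕ} :
    x ∈ Rset m rb a ↔ x < m ∧ rb (m - 1 - x) = a := by
  simp only [Rset, mem_image, mem_filter, mem_range]
  constructor
  · rintro ⟨i, ⟨h1, h2⟩, rfl⟩
    refine ⟨by omega, ?_⟩
    rw [show m - 1 - (m - 1 - i) = i by omega]
    exact h2
  · rintro ⟨h1, h2⟩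
    exact ⟨m - 1 - x, ⟨by omega, h2⟩, by omega⟩

theorem mem_Cset {m N : ℕ} {cb : ℕ → ℕ} {b x : ℕ} :
    x ∈ Cset m N cb b ↔ m ≤ x ∧ x < m + N ∧ cb (x - m) = b := by
  simp only [Cset, mem_image, mem_filter, mem_range]
  constructor
  · rintro ⟨i, ⟨h1, h2⟩, rfl⟩
    refine ⟨by omega, by omega, ?_⟩
    rw [show m + i - m = i by omega]
    exact h2
  · rintro ⟨h1, h2, h3⟩
    exact ⟨x - m, ⟨by omega, h3⟩, by omega⟩

theorem UU_Rset {m p : ℕ} {rb : ℕ → ℕ} (h : ∀ i, i < m → rb i < p) :
    UU (Rset m rb) p = range m := by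
  ext x
  rw [mem_UU, mem_range]
  constructor
  · rintro ⟨a, _, hx⟩
    exact (mem_Rset.1 hx).1
  · intro hx
    exact ⟨rb (m - 1 - x), h _ (by omega), mem_Rset.2 ⟨hx, rfl⟩⟩

theorem UU_Cset {m N q : ℕ} {cb : ℕ → ℕ} (h : ∀ j, j < N → cb j < q) :
    UU (Cset m N cb) q = Ico m (m + N) := by
  ext x
  rw [mem_UU, mem_Ico]
  constructor
  · rintro ⟨a, _, hx⟩
    exact ⟨(mem_Cset.1 hx).1, (mem_Cset.1 hx).2.1⟩
  · rintro ⟨h1, h2⟩
    exact ⟨cb (x - m), h _ (by omega), mem_Cset.2 ⟨h1, h2, rfl⟩⟩

theorem rows_rank {m : ℕ} {B : Finset ℕ} {i : ℕ} (hi : i < m) :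
    rkI id (range m \ B) (m - 1 - i) =
      ((nRows m B).filter (fun x => decide (x < i))).length := by
  have h1 : ((nRows m B).filter (fun x => decide (x < i))).Nodup :=
    (List.nodup_range.filter _).filter _
  rw [← List.toFinset_card_of_nodup h1]
  unfold rkI
  refine card_nbij' (fun x => m - 1 - x) (fun x => m - 1 - x) ?_ ?_ ?_ ?_
  · intro x hx
    simp only [id, coe_filter, mem_sdiff, mem_range, Set.mem_ofPred_eq, List.coe_toFinset,
      List.mem_filter, nRows, List.mem_range, decide_eq_true_eq] at hx ⊢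
    refine ⟨⟨by omega, ?_⟩, by omega⟩
    rw [show m - 1 - (m - 1 - x) = x by omega]
    exact hx.1.2
  · intro x hx
    simp only [id, coe_filter, mem_sdiff, mem_range, Set.mem_ofPred_eq, List.coe_toFinset,
      List.mem_filter, nRows, List.mem_range, decide_eq_true_eq] at hx ⊢
    exact ⟨⟨by omega, hx.1.2⟩, by omega⟩
  · intro x hx
    simp only [id, coe_filter, mem_sdiff, mem_range, Set.mem_ofPred_eq] at hx
    show m - 1 - (m - 1 - x) = x
    omega
  · intro x hx
    simp only [Set.mem_ofPred_eq, List.coe_toFinset,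
      List.mem_filter, nRows, List.mem_range, decide_eq_true_eq] at hx
    show m - 1 - (m - 1 - x) = x
    omega

theorem cols_rank {m N : ℕ} {B : Finset ℕ} {j : ℕ} (hj : j < N) :
    rkJ id (Ico m (m + N) ∩ B) (m + j) =
      ((nCols m N B).filter (fun x => decide (x < j))).length := by
  have h1 : ((nCols m N B).filter (fun x => decide (x < j))).Nodup :=
    (List.nodup_range.filter _).filter _
  rw [← List.toFinset_card_of_nodup h1]
  unfold rkJ
  refine card_nbij' (fun x => x - m) (fun x => m + x) ?_ ?_ ?_ ?_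
  · intro x hx
    simp only [id, coe_filter, mem_inter, mem_Ico, Set.mem_ofPred_eq, List.coe_toFinset,
      List.mem_filter, nCols, List.mem_range, decide_eq_true_eq] at hx ⊢
    refine ⟨⟨by omega, ?_⟩, by omega⟩
    rw [show m + (x - m) = x by omega]
    exact hx.1.2
  · intro x hx
    simp only [id, coe_filter, mem_inter, mem_Ico, Set.mem_ofPred_eq, List.coe_toFinset,
      List.mem_filter, nCols, List.mem_range, decide_eq_true_eq] at hx ⊢
    exact ⟨⟨⟨by omega, by omega⟩, hx.1.2⟩, by omega⟩
  · intro x hx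
    simp only [id, coe_filter, mem_inter, mem_Ico, Set.mem_ofPred_eq] at hx
    show m + (x - m) = x
    omega
  · intro x _
    show m + x - m = x
    omega

theorem nRows_sorted (m : ℕ) (B : Finset ℕ) : (nRows m B).Pairwise (· < ·) :=
  List.pairwise_lt_range.filter _

theorem nCols_sorted (m N : ℕ) (B : Finset ℕ) : (nCols m N B).Pairwise (· < ·) :=
  List.pairwise_lt_range.filter _

theorem mem_nRows {m : ℕ} {B : Finset ℕ} {i : ℕ} : i ∈ nRows m B ↔ i < m ∧ m - 1 - i ∉ B := by
  simp only [nRows, List.mem_filter, List.mem_range, decide_eq_true_eq]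

theorem mem_nCols {m N : ℕ} {B : Finset ℕ} {j : ℕ} : j ∈ nCols m N B ↔ j < N ∧ m + j ∈ B := by
  simp only [nCols, List.mem_filter, List.mem_range, decide_eq_true_eq]

theorem Mt_iff_nPairs {m N : ℕ} {B : Finset ℕ} {i j : ℕ} (hi : i < m) (hj : j < N) :
    Mt id (range m \ B) (Ico m (m + N) ∩ B) (m - 1 - i) (m + j) ↔ (i, j) ∈ nPairs m N B := by
  rw [nPairs, mem_zip_iff_of_sorted (nRows_sorted m B) (nCols_sorted m N B), mem_nRows,
    mem_nCols, Mt, rows_rank hi, cols_rank hj]
  simp only [mem_sdiff, mem_range, mem_inter, mem_Ico]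
  constructor
  · rintro ⟨⟨_, h2⟩, ⟨_, h4⟩, h5⟩
    exact ⟨⟨hi, h2⟩, ⟨hj, h4⟩, h5⟩
  · rintro ⟨⟨_, h2⟩, ⟨_, h4⟩, h5⟩
    exact ⟨⟨by omega, h2⟩, ⟨⟨by omega, by omega⟩, h4⟩, h5⟩

theorem lpairs_eq_nPart {m N : ℕ} {rb cb : ℕ → ℕ} {B : Finset ℕ} {a b : ℕ} :
    lpairs m N rb cb a b ((Rset m rb a \
        mI id (range m \ B) (Ico m (m + N) ∩ B) (Rset m rb a) (Cset m N cb b)) ∪
      mJ id (range m \ B) (Ico m (m + N) ∩ B) (Rset m rb a) (Cset m N cb b)) =
      nPart rb cb a b (nPairs m N B) := by
  set I : Finset ℕ := range m \ B with hI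
  set J : Finset ℕ := Ico m (m + N) ∩ B with hJ
  set S : Finset ℕ := (Rset m rb a \ mI id I J (Rset m rb a) (Cset m N cb b)) ∪
      mJ id I J (Rset m rb a) (Cset m N cb b) with hS
  -- membership in `S`
  have hrow : ∀ i, i < m → (rb i = a ∧ m - 1 - i ∉ S ↔
      rb i = a ∧ ∃ j, cb j = b ∧ (i, j) ∈ nPairs m N B) := by
    intro i hi
    constructor
    · rintro ⟨h1, h2⟩
      refine ⟨h1, ?_⟩
      have hR : m - 1 - i ∈ Rset m rb a := mem_Rset.2 ⟨by omega, by
        rw [show m - 1 - (m - 1 - i) = i by omega]; exact h1⟩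
      have h3 : m - 1 - i ∈ mI id I J (Rset m rb a) (Cset m N cb b) := by
        by_contra h4
        exact h2 (mem_union_left _ (mem_sdiff.2 ⟨hR, h4⟩))
      rw [mem_mI] at h3
      obtain ⟨_, j, hj, hm⟩ := h3
      obtain ⟨j1, j2, j3⟩ := mem_Cset.1 hj
      refine ⟨j - m, j3, (Mt_iff_nPairs hi (by omega)).1 ?_⟩
      rw [show m + (j - m) = j by omega]
      exact hm
    · rintro ⟨h1, j, h2, h3⟩
      refine ⟨h1, fun h4 => ?_⟩
      have hz := List.of_mem_zip h3
      have hj : j < N := (mem_nCols.1 hz.2).1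
      rw [hS, mem_union] at h4
      rcases h4 with h4 | h4
      · rw [mem_sdiff] at h4
        refine h4.2 (mem_mI.2 ⟨h4.1, m + j, mem_Cset.2 ⟨by omega, by omega, by
          rw [show m + j - m = j by omega]; exact h2⟩, (Mt_iff_nPairs hi hj).2 h3⟩)
      · rw [mem_mJ] at h4
        have := (mem_Cset.1 h4.1).1
        omega
  have hcol : ∀ j, j < N → (cb j = b ∧ m + j ∈ S ↔
      cb j = b ∧ ∃ i, rb i = a ∧ (i, j) ∈ nPairs m N B) := by
    intro j hj
    constructor
    · rintro ⟨h1, h2⟩
      refine ⟨h1, ?_⟩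
      rw [hS, mem_union] at h2
      rcases h2 with h2 | h2
      · rw [mem_sdiff] at h2
        have := (mem_Rset.1 h2.1).1
        omega
      · rw [mem_mJ] at h2
        obtain ⟨_, i, hi, hm⟩ := h2
        obtain ⟨i1, i2⟩ := mem_Rset.1 hi
        refine ⟨m - 1 - i, i2, (Mt_iff_nPairs (by omega) hj).1 ?_⟩
        rw [show m - 1 - (m - 1 - i) = i by omega]
        exact hm
    · rintro ⟨h1, i, h2, h3⟩
      refine ⟨h1, ?_⟩
      have hz := List.of_mem_zip h3
      have hi : i < m := (mem_nRows.1 hz.1).1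
      rw [hS, mem_union]
      right
      exact mem_mJ.2 ⟨mem_Cset.2 ⟨by omega, by omega, by
          rw [show m + j - m = j by omega]; exact h1⟩, m - 1 - i, mem_Rset.2 ⟨by omega, by
          rw [show m - 1 - (m - 1 - i) = i by omega]; exact h2⟩, (Mt_iff_nPairs hi hj).2 h3⟩
  have hz := zip_filter (fun i => decide (rb i = a)) (fun j => decide (cb j = b))
    (l := nRows m B) (l' := nCols m N B) (List.nodup_range.filter _) (List.nodup_range.filter _)
    (fun i => decide (rb i = a ∧ m - 1 - i ∉ S)) (fun j => decide (cb j = b ∧ m + j ∈ S))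
    (fun i hi => by
      simp only [decide_eq_true_eq]
      exact hrow i (mem_nRows.1 hi).1)
    (fun j hj => by
      simp only [decide_eq_true_eq]
      exact hcol j (mem_nCols.1 hj).1)
  have e1 : (nRows m B).filter (fun i => decide (rb i = a ∧ m - 1 - i ∉ S)) =
      (List.range m).filter (fun i => decide (rb i = a ∧ m - 1 - i ∉ S)) := by
    rw [nRows, List.filter_filter]
    refine List.filter_congr fun i hi => ?_
    have hi' : i < m := List.mem_range.1 hi
    rw [Bool.eq_iff_iff]
    simp only [Bool.and_eq_true, decide_eq_true_eq]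
    constructor
    · exact fun h => h.1
    · intro h
      refine ⟨h, ?_⟩
      obtain ⟨_, j, _, h3⟩ := (hrow i hi').1 h
      exact (mem_nRows.1 (List.of_mem_zip h3).1).2
  have e2 : (nCols m N B).filter (fun j => decide (cb j = b ∧ m + j ∈ S)) =
      (List.range N).filter (fun j => decide (cb j = b ∧ m + j ∈ S)) := by
    rw [nCols, List.filter_filter]
    refine List.filter_congr fun j hj => ?_
    have hj' : j < N := List.mem_range.1 hj
    rw [Bool.eq_iff_iff]
    simp only [Bool.and_eq_true, decide_eq_true_eq]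
    constructor
    · exact fun h => h.1
    · intro h
      refine ⟨h, ?_⟩
      obtain ⟨_, i, _, h3⟩ := (hcol j hj').1 h
      exact (mem_nCols.1 (List.of_mem_zip h3).2).2
  rw [e1, e2] at hz
  rw [lpairs, nPart, nPairs, hz]

theorem arr_eq_fN {m N p q : ℕ} {rb cb : ℕ → ℕ} {g : ℕ → ℕ → List (ℕ × ℕ) → Bool}
    (hrb : ∀ i, i < m → rb i < p) (hcb : ∀ j, j < N → cb j < q) (B : Finset ℕ) :
    arr id p q (Rset m rb) (Cset m N cb) (gset m N rb cb g) B = fN m N p q rb cb g B := by
  unfold arr fN nVal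
  rw [UU_Rset hrb, UU_Cset hcb]
  refine xs_congr fun a _ => xs_congr fun b _ => ?_
  unfold evB gset
  rw [lpairs_eq_nPart]

/-- **The array on natural numbers satisfies the three-term relations.** -/
theorem fN_GP3 {m N p q : ℕ} {rb cb : ℕ → ℕ} {g : ℕ → ℕ → List (ℕ × ℕ) → Bool}
    (hp : 1 ≤ p) (hq : 1 ≤ q)
    (hrb : ∀ i, i < m → rb i < p) (hcb : ∀ j, j < N → cb j < q)
    (mrb : ∀ i i', i < i' → i' < m → rb i ≤ rb i')
    (mcb : ∀ j j', j < j' → j' < N → cb j ≤ cb j')
    (hR : ∀ a, a < p → 2 ≤ ((range m).filter (fun i => rb i = a)).card)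
    (hC : ∀ b, b < q → 2 ≤ ((range N).filter (fun j => cb j = b)).card)
    (hg : ∀ a b, a < p → b < q →
      GP3 id (Rset m rb a ∪ Cset m N cb b) (Rset m rb a).card (gset m N rb cb g a b)) :
    GP3 id (range (m + N)) m (fN m N p q rb cb g) := by
  have h := arr_GP3 (pos := id) (Rset m rb) (Cset m N cb) (gset m N rb cb g) q hq p hp
    (fun x _ y _ h => h)
    (fun a _ x hx b _ y hy => by
      have h1 := (mem_Rset.1 hx).1
      have h2 := (mem_Cset.1 hy).1
      exact lt_of_lt_of_le h1 h2)
    (fun a a' haa _ x hx y hy => by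
      obtain ⟨h1, h2⟩ := mem_Rset.1 hx
      obtain ⟨h3, h4⟩ := mem_Rset.1 hy
      by_contra hn
      have hn' : x ≤ y := not_lt.1 hn
      rcases hn'.lt_or_eq with h5 | h5
      · have := mrb (m - 1 - y) (m - 1 - x) (by omega) (by omega)
        omega
      · subst h5; omega)
    (fun b b' hbb _ x hx y hy => by
      obtain ⟨h1, h2, h3⟩ := mem_Cset.1 hx
      obtain ⟨h4, h5, h6⟩ := mem_Cset.1 hy
      by_contra hn
      have hn' : y ≤ x := not_lt.1 hn
      rcases hn'.lt_or_eq with h7 | h7
      · have := mcb (y - m) (x - m) (by omega) (by omega)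
        omega
      · subst h7; omega)
    (fun a ha => by
      rw [Rset, card_image_of_injOn]
      · exact hR a ha
      · intro x hx y hy hxy
        simp only [coe_filter, mem_range, Set.mem_ofPred_eq] at hx hy
        have : m - 1 - x = m - 1 - y := hxy
        omega)
    (fun b hb => by
      rw [Cset, card_image_of_injOn]
      · exact hC b hb
      · intro x _ y _ hxy
        have : m + x = m + y := hxy
        omega)
    hg
  rw [UU_Rset hrb, UU_Cset hcb, card_range] at h
  have e : range m ∪ Ico m (m + N) = range (m + N) := by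
    ext x
    simp only [mem_union, mem_range, mem_Ico]
    omega
  rw [e] at h
  exact GP3_congr (fun B _ _ => arr_eq_fN hrb hcb B) h

/-! ## The structure of path definitions -/

theorem foldr_xor_perm {α : Type*} (F : α → Bool) {l l' : List α} (h : l.Perm l') :
    l.foldr (fun x s => F x ^^ s) false = l'.foldr (fun x s => F x ^^ s) false := by
  induction h with
  | nil => rfl
  | cons x _ ih => simp only [List.foldr_cons, ih]
  | swap x y l =>
    simp only [List.foldr_cons]
    generalize F x = u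
    generalize F y = v
    generalize List.foldr (fun x s => F x ^^ s) false l = w
    revert u v w
    decide
  | trans _ _ ih1 ih2 => exact ih1.trans ih2

theorem foldr_xor_append {α : Type*} (F : α → Bool) (l l' : List α) :
    (l ++ l').foldr (fun x s => F x ^^ s) false =
      (l.foldr (fun x s => F x ^^ s) false ^^ l'.foldr (fun x s => F x ^^ s) false) := by
  induction l with
  | nil => simp
  | cons x l ih => simp only [List.cons_append, List.foldr_cons, ih, Bool.xor_assoc]

theorem foldr_xor_range (F : ℕ → Bool) (q : ℕ) :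
    (List.range q).foldr (fun x s => F x ^^ s) false = xs q F := by
  induction q with
  | zero => rfl
  | succ q ih => rw [List.range_succ, foldr_xor_append, ih]; simp [xs]

theorem foldr_xor_product (F : ℕ × ℕ → Bool) (p q : ℕ) :
    ((List.range p).flatMap (fun a => (List.range q).map (fun b => (a, b)))).foldr
      (fun x s => F x ^^ s) false = xs p (fun a => xs q (fun b => F (a, b))) := by
  induction p with
  | zero => rfl
  | succ p ih =>
    rw [List.range_succ, List.flatMap_append, foldr_xor_append, ih]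
    simp only [List.flatMap_cons, List.flatMap_nil, List.append_nil, List.foldr_map]
    rw [foldr_xor_range (fun b => F (p, b)) q]
    rfl

theorem foldr_xor_blocks (F : ℕ × ℕ → Bool) {l : List (ℕ × ℕ)} {p q : ℕ} (hl : l.Nodup)
    (hm : ∀ x, x ∈ l ↔ x.1 < p ∧ x.2 < q) :
    l.foldr (fun x s => F x ^^ s) false = xs p (fun a => xs q (fun b => F (a, b))) := by
  rw [← foldr_xor_product]
  refine foldr_xor_perm F ?_
  refine (List.perm_ext_iff_of_nodup hl ?_).2 ?_
  · exact List.Nodup.product List.nodup_range List.nodup_range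
  · intro x
    rw [hm]
    simp only [List.mem_flatMap, List.mem_map, List.mem_range]
    constructor
    · rintro ⟨h1, h2⟩
      exact ⟨x.1, h1, x.2, h2, rfl⟩
    · rintro ⟨a, h1, b, h2, rfl⟩
      exact ⟨h1, h2⟩

namespace Arr

variable (A : Arr)

/-- elements of the row block `a` -/
abbrev RS (a : ℕ) : Finset ℕ := Rset A.m A.rb a

/-- elements of the column block `b` -/
abbrev CS (b : ℕ) : Finset ℕ := Cset A.m A.N A.cb b

/-- the sign function of the block `(a, b)` -/
abbrev GS (a b : ℕ) : Finset ℕ → Bool := gset A.m A.N A.rb A.cb A.g a b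

theorem part_eq (a b : ℕ) (L : List (ℕ × ℕ)) : A.part a b L = nPart A.rb A.cb a b L := by
  unfold part nPart
  refine List.filter_congr fun x _ => ?_
  simp only [beq_eq_decide]

theorem f_eq {p q : ℕ} (hnd : A.bl.Nodup) (hbl : ∀ x, x ∈ A.bl ↔ x.1 < p ∧ x.2 < q)
    (B : Finset ℕ) : A.f B = fN A.m A.N p q A.rb A.cb A.g B := by
  unfold f val
  rw [foldr_xor_blocks (fun ab => A.g ab.1 ab.2 (A.part ab.1 ab.2 (A.pairs B))) hnd hbl]
  unfold fN nVal
  refine xs_congr fun a _ => xs_congr fun b _ => ?_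
  rw [part_eq]
  rfl

/-- **The block array satisfies the three-term relations if all its blocks do.** -/
theorem f_GP3 {p q : ℕ} (hA : A.WF) (hp : 1 ≤ p) (hq : 1 ≤ q)
    (hnd : A.bl.Nodup) (hbl : ∀ x, x ∈ A.bl ↔ x.1 < p ∧ x.2 < q)
    (hrb : ∀ i, i < A.m → A.rb i < p) (hcb : ∀ j, j < A.N → A.cb j < q)
    (hR : ∀ a, a < p → 2 ≤ ((range A.m).filter (fun i => A.rb i = a)).card)
    (hC : ∀ b, b < q → 2 ≤ ((range A.N).filter (fun j => A.cb j = b)).card)
    (hg : ∀ a b, a < p → b < q → GP3 id (A.RS a ∪ A.CS b) (A.RS a).card (A.GS a b)) :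
    GP3 id (range (A.m + A.N)) A.m A.f := by
  have h := fN_GP3 (m := A.m) (N := A.N) (g := A.g) hp hq hrb hcb
    (fun i i' h _ => hA.rb_mono i i' h.le) (fun j j' h _ => hA.cb_mono j j' h.le) hR hC hg
  exact GP3_congr (fun B _ _ => (A.f_eq hnd hbl B).symm) h

end Arr

end Pool.Agent.Simplex
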