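import Pool.Agent.Work.MP_f99e36_co.Defs

/-!
Blocked bases: a certificate that reversing the sign of B destroys the chirotope axioms.
-/

set_option autoImplicit false
set_option linter.unusedSimpArgs false

namespace Pool.Agent.Simplex

variable {α : Type*} [DecidableEq α]

/-- Sign of the exchange of e in B for x outside B, corrected by the order of e and x. -/
def xch (pos : α → ℕ) (f : Finset α → Bool) (B : Finset α) (e x : α) : Bool :=
  f (insert x (B.erase e)) ^^ decide (pos e < pos x)

/-- B is blocked (not a mutation): the corrected exchange signs are not of the form u(e) v(x). -/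
def Blocked (pos : α → ℕ) (E : Finset α) (f : Finset α → Bool) (B : Finset α) : Prop :=
  ∃ e ∈ B, ∃ e' ∈ B, ∃ x ∈ E \ B, ∃ x' ∈ E \ B,
    (xch pos f B e x ^^ xch pos f B e x' ^^ xch pos f B e' x ^^ xch pos f B e' x') = true

theorem add2_comm (z : Finset α) (a b : α) : add2 z a b = add2 z b a := by
  unfold add2; exact Finset.insert_comm a b z

theorem mem_add2 {z : Finset α} {a b x : α} : x ∈ add2 z a b ↔ x = a ∨ x = b ∨ x ∈ z := by
  simp [add2]

theorem flip_self (f : Finset α → Bool) (B : Finset α) : flip f B B = !f B := by
  simp [flip]

theorem flip_ne (f : Finset α → Bool) {B X : Finset α} (h : X ≠ B) : flip f B X = f X := by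
  simp [flip, h]


/-- Reversing the sign of a blocked basis destroys the three-term relations. -/
theorem Blocked.not_GP3 {pos : α → ℕ} {E : Finset α} {r : ℕ} {f : Finset α → Bool}
    {B : Finset α} (hpos : Set.InjOn pos (E : Set α)) (h : GP3 pos E r f) (hB : B ⊆ E)
    (hBr : B.card = r) (hb : Blocked pos E f B) : ¬ GP3 pos E r (flip f B) := by
  classical
  obtain ⟨e, he, e', he', x, hx, x', hx', hs⟩ := hb
  intro h'
  have hee : e ≠ e' := by
    rintro rfl
    revert hs
    cases xch pos f B e x <;> cases xch pos f B e x' <;> simp
  have hxx : x ≠ x' := by
    rintro rfl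
    revert hs
    cases xch pos f B e x <;> cases xch pos f B e' x <;> simp
  wlog h1 : pos e < pos e' generalizing e e'
  · have hne : pos e ≠ pos e' := fun hh => hee (hpos (hB he) (hB he') hh)
    refine this e' he' e he ?_ hee.symm (by omega)
    rw [← hs]
    cases xch pos f B e x <;> cases xch pos f B e x' <;> cases xch pos f B e' x <;>
      cases xch pos f B e' x' <;> rfl
  wlog h2 : pos x < pos x' generalizing x x'
  · have hne : pos x ≠ pos x' := fun hh =>
      hxx (hpos (Finset.mem_sdiff.mp hx).1 (Finset.mem_sdiff.mp hx').1 hh)
    refine this x' hx' x hx hxx.symm ?_ (by omega)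
    rw [← hs]
    cases xch pos f B e x <;> cases xch pos f B e x' <;> cases xch pos f B e' x <;>
      cases xch pos f B e' x' <;> rfl
  obtain ⟨hxE, hxB⟩ := Finset.mem_sdiff.mp hx
  obtain ⟨hxE', hxB'⟩ := Finset.mem_sdiff.mp hx'
  have heE := hB he
  have heE' := hB he'
  have hex : pos e ≠ pos x := fun hh => hxB (by rw [← hpos heE hxE hh]; exact he)
  have hex' : pos e ≠ pos x' := fun hh => hxB' (by rw [← hpos heE hxE' hh]; exact he)
  have he'x : pos e' ≠ pos x := fun hh => hxB (by rw [← hpos heE' hxE hh]; exact he')
  have he'x' : pos e' ≠ pos x' := fun hh => hxB' (by rw [← hpos heE' hxE' hh]; exact he')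
  set z : Finset α := (B.erase e).erase e' with hzdef
  have hez : e ∉ z := by simp [hzdef]
  have hez' : e' ∉ z := by simp [hzdef]
  have hxz : x ∉ z := fun hh => hxB (Finset.mem_of_mem_erase (Finset.mem_of_mem_erase hh))
  have hxz' : x' ∉ z := fun hh => hxB' (Finset.mem_of_mem_erase (Finset.mem_of_mem_erase hh))
  have hzE : z ⊆ E := fun y hy => hB (Finset.mem_of_mem_erase (Finset.mem_of_mem_erase hy))
  have he'B : e' ∈ B.erase e := Finset.mem_erase.mpr ⟨hee.symm, he'⟩
  have heB' : e ∈ B.erase e' := Finset.mem_erase.mpr ⟨hee, he⟩
  have hze : B.erase e = insert e' z := (Finset.insert_erase he'B).symm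
  have hze' : B.erase e' = insert e z := by
    rw [hzdef, Finset.erase_right_comm, Finset.insert_erase heB']
  have hBz : B = add2 z e e' := by
    unfold add2
    rw [← hze, Finset.insert_erase he]
  have hzr : z.card + 2 = r := by
    rw [← hBr, hBz]
    unfold add2
    rw [Finset.card_insert_of_notMem, Finset.card_insert_of_notMem hez']
    simp only [Finset.mem_insert, not_or]
    exact ⟨hee, hez⟩
  have c1 : insert x (B.erase e) = add2 z x e' := by rw [hze]; rfl
  have c2 : insert x' (B.erase e) = add2 z x' e' := by rw [hze]; rfl
  have c3 : insert x (B.erase e') = add2 z x e := by rw [hze']; rfl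
  have c4 : insert x' (B.erase e') = add2 z x' e := by rw [hze']; rfl
  unfold xch at hs
  rw [c1, c2, c3, c4] at hs
  -- the values of the flipped function
  have fB : flip f B (add2 z e e') = !f (add2 z e e') := by rw [← hBz, flip_self]
  have f1 : flip f B (add2 z x e') = f (add2 z x e') :=
    flip_ne f (fun hh => hxB (by rw [← hh, mem_add2]; exact Or.inl rfl))
  have f2 : flip f B (add2 z x' e') = f (add2 z x' e') :=
    flip_ne f (fun hh => hxB' (by rw [← hh, mem_add2]; exact Or.inl rfl))
  have f3 : flip f B (add2 z x e) = f (add2 z x e) :=
    flip_ne f (fun hh => hxB (by rw [← hh, mem_add2]; exact Or.inl rfl))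
  have f4 : flip f B (add2 z x' e) = f (add2 z x' e) :=
    flip_ne f (fun hh => hxB' (by rw [← hh, mem_add2]; exact Or.inl rfl))
  have f5 : flip f B (add2 z x x') = f (add2 z x x') :=
    flip_ne f (fun hh => hxB (by rw [← hh, mem_add2]; exact Or.inl rfl))
  have s1 := add2_comm z e' e
  have s2 := add2_comm z e x
  have s3 := add2_comm z e x'
  have s4 := add2_comm z e' x
  have s5 := add2_comm z e' x'
  have s6 := add2_comm z x' x
  rcases lt_or_gt_of_ne hex with g1 | g1 <;> rcases lt_or_gt_of_ne hex' with g2 | g2 <;>
    rcases lt_or_gt_of_ne he'x with g3 | g3 <;> rcases lt_or_gt_of_ne he'x' with g4 | g4 <;>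
    first
      | (exfalso; omega)
      | (first
          | (have k1 := h z e e' x x' hzE heE heE' hxE hxE' hez hez' hxz hxz' hzr h1 g3 h2
             have k2 := h' z e e' x x' hzE heE heE' hxE hxE' hez hez' hxz hxz' hzr h1 g3 h2
             simp only [s1, s2, s3, s4, s5, s6, fB, f1, f2, f3, f4, f5] at k1 k2
             simp only [g1, g2, g3, g4, not_lt_of_gt, decide_true, decide_false] at hs
             revert hs k1 k2
             generalize f (add2 z e e') = p
             generalize f (add2 z x x') = q
             generalize f (add2 z x e) = s
             generalize f (add2 z x' e) = t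
             generalize f (add2 z x e') = u
             generalize f (add2 z x' e') = v
             revert p q s t u v
             decide)
          | (have k1 := h z e x e' x' hzE heE hxE heE' hxE' hez hxz hez' hxz' hzr g1 g3 g4
             have k2 := h' z e x e' x' hzE heE hxE heE' hxE' hez hxz hez' hxz' hzr g1 g3 g4
             simp only [s1, s2, s3, s4, s5, s6, fB, f1, f2, f3, f4, f5] at k1 k2
             simp only [g1, g2, g3, g4, not_lt_of_gt, decide_true, decide_false] at hs
             revert hs k1 k2
             generalize f (add2 z e e') = p
             generalize f (add2 z x x') = q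
             generalize f (add2 z x e) = s
             generalize f (add2 z x' e) = t
             generalize f (add2 z x e') = u
             generalize f (add2 z x' e') = v
             revert p q s t u v
             decide)
          | (have k1 := h z e x x' e' hzE heE hxE hxE' heE' hez hxz hxz' hez' hzr g1 h2 g4
             have k2 := h' z e x x' e' hzE heE hxE hxE' heE' hez hxz hxz' hez' hzr g1 h2 g4
             simp only [s1, s2, s3, s4, s5, s6, fB, f1, f2, f3, f4, f5] at k1 k2
             simp only [g1, g2, g3, g4, not_lt_of_gt, decide_true, decide_false] at hs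
             revert hs k1 k2
             generalize f (add2 z e e') = p
             generalize f (add2 z x x') = q
             generalize f (add2 z x e) = s
             generalize f (add2 z x' e) = t
             generalize f (add2 z x e') = u
             generalize f (add2 z x' e') = v
             revert p q s t u v
             decide)
          | (have k1 := h z x e e' x' hzE hxE heE heE' hxE' hxz hez hez' hxz' hzr g1 h1 g4
             have k2 := h' z x e e' x' hzE hxE heE heE' hxE' hxz hez hez' hxz' hzr g1 h1 g4
             simp only [s1, s2, s3, s4, s5, s6, fB, f1, f2, f3, f4, f5] at k1 k2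
             simp only [g1, g2, g3, g4, not_lt_of_gt, decide_true, decide_false] at hs
             revert hs k1 k2
             generalize f (add2 z e e') = p
             generalize f (add2 z x x') = q
             generalize f (add2 z x e) = s
             generalize f (add2 z x' e) = t
             generalize f (add2 z x e') = u
             generalize f (add2 z x' e') = v
             revert p q s t u v
             decide)
          | (have k1 := h z x e x' e' hzE hxE heE hxE' heE' hxz hez hxz' hez' hzr g1 g2 g4
             have k2 := h' z x e x' e' hzE hxE heE hxE' heE' hxz hez hxz' hez' hzr g1 g2 g4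
             simp only [s1, s2, s3, s4, s5, s6, fB, f1, f2, f3, f4, f5] at k1 k2
             simp only [g1, g2, g3, g4, not_lt_of_gt, decide_true, decide_false] at hs
             revert hs k1 k2
             generalize f (add2 z e e') = p
             generalize f (add2 z x x') = q
             generalize f (add2 z x e) = s
             generalize f (add2 z x' e) = t
             generalize f (add2 z x e') = u
             generalize f (add2 z x' e') = v
             revert p q s t u v
             decide)
          | (have k1 := h z x x' e e' hzE hxE hxE' heE heE' hxz hxz' hez hez' hzr h2 g2 h1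
             have k2 := h' z x x' e e' hzE hxE hxE' heE heE' hxz hxz' hez hez' hzr h2 g2 h1
             simp only [s1, s2, s3, s4, s5, s6, fB, f1, f2, f3, f4, f5] at k1 k2
             simp only [g1, g2, g3, g4, not_lt_of_gt, decide_true, decide_false] at hs
             revert hs k1 k2
             generalize f (add2 z e e') = p
             generalize f (add2 z x x') = q
             generalize f (add2 z x e) = s
             generalize f (add2 z x' e) = t
             generalize f (add2 z x e') = u
             generalize f (add2 z x' e') = v
             revert p q s t u v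
             decide))

end Pool.Agent.Simplex
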