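import Pool.Agent.Work.MP_f99e36_co.Blk

/-!
Moves of set-level chirotopes: rotation and reversal of the order, complement (dual), relabelling,
restriction (deletion) and contraction; for GP3 and for Blocked.
-/

set_option autoImplicit false
set_option linter.unusedSimpArgs false

namespace Pool.Agent.Simplex

variable {α β : Type*} [DecidableEq α] [DecidableEq β]

/-! ### Congruence -/

/-- GP3 only depends on the values of f on the r-subsets of E. -/
theorem GP3.congr {pos : α → ℕ} {E : Finset α} {r : ℕ} {f g : Finset α → Bool}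
    (h : GP3 pos E r f) (hfg : ∀ B : Finset α, B ⊆ E → B.card = r → f B = g B) :
    GP3 pos E r g := by
  intro z a b c d hz ha hb hc hd haz hbz hcz hdz hzr hab hbc hcd
  have hne : ∀ {u v : α}, pos u < pos v → u ≠ v := fun huv he => by
    rw [he] at huv; exact lt_irrefl _ huv
  have key : ∀ u v : α, u ∈ E → v ∈ E → u ∉ z → v ∉ z → u ≠ v → f (add2 z u v) = g (add2 z u v) := by
    intro u v hu hv huz hvz huv
    apply hfg
    · intro y hy
      rcases mem_add2.mp hy with rfl | rfl | hy
      · exact hu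
      · exact hv
      · exact hz hy
    · unfold add2
      rw [Finset.card_insert_of_notMem, Finset.card_insert_of_notMem hvz, ← hzr]
      simp only [Finset.mem_insert, not_or]
      exact ⟨huv, huz⟩
  rw [← key a c ha hc haz hcz (hne (by omega)), ← key b d hb hd hbz hdz (hne (by omega)),
    ← key a b ha hb haz hbz (hne (by omega)), ← key c d hc hd hcz hdz (hne (by omega)),
    ← key a d ha hd haz hdz (hne (by omega)), ← key b c hb hc hbz hcz (hne (by omega))]
  exact h z a b c d hz ha hb hc hd haz hbz hcz hdz hzr hab hbc hcd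

/-- Blocked only depends on the values of f on the subsets of E of the size of B. -/
theorem Blocked.congr {pos : α → ℕ} {E : Finset α} {f g : Finset α → Bool} {B : Finset α}
    (h : Blocked pos E f B) (hB : B ⊆ E)
    (hfg : ∀ X : Finset α, X ⊆ E → X.card = B.card → f X = g X) : Blocked pos E g B := by
  obtain ⟨e, he, e', he', x, hx, x', hx', hs⟩ := h
  refine ⟨e, he, e', he', x, hx, x', hx', ?_⟩
  have key : ∀ u ∈ B, ∀ v ∈ E \ B, xch pos g B u v = xch pos f B u v := by
    intro u hu v hv
    obtain ⟨hvE, hvB⟩ := Finset.mem_sdiff.mp hv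
    unfold xch
    rw [hfg]
    · intro y hy
      rcases Finset.mem_insert.mp hy with rfl | hy
      · exact hvE
      · exact hB (Finset.mem_of_mem_erase hy)
    · rw [Finset.card_insert_of_notMem (fun hh => hvB (Finset.mem_of_mem_erase hh)),
        Finset.card_erase_of_mem hu]
      have : 0 < B.card := Finset.card_pos.mpr ⟨u, hu⟩
      omega
  rw [key e he x hx, key e he x' hx', key e' he' x hx, key e' he' x' hx']
  exact hs

/-! ### Change of the key function -/

/-- GP3 only depends on the order of E given by the key. -/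
theorem GP3.of_order {pos pos' : α → ℕ} {E : Finset α} {r : ℕ} {f : Finset α → Bool}
    (h : GP3 pos E r f) (ho : ∀ a ∈ E, ∀ b ∈ E, pos' a < pos' b → pos a < pos b) :
    GP3 pos' E r f := by
  intro z a b c d hz ha hb hc hd haz hbz hcz hdz hzr hab hbc hcd
  exact h z a b c d hz ha hb hc hd haz hbz hcz hdz hzr (ho a ha b hb hab) (ho b hb c hc hbc)
    (ho c hc d hd hcd)

/-- Blocked only depends on the order of E given by the key. -/
theorem Blocked.of_order {pos pos' : α → ℕ} {E : Finset α} {f : Finset α → Bool} {B : Finset α}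
    (h : Blocked pos E f B) (hB : B ⊆ E)
    (ho : ∀ a ∈ E, ∀ b ∈ E, (pos' a < pos' b ↔ pos a < pos b)) : Blocked pos' E f B := by
  obtain ⟨e, he, e', he', x, hx, x', hx', hs⟩ := h
  refine ⟨e, he, e', he', x, hx, x', hx', ?_⟩
  have key : ∀ u ∈ B, ∀ v ∈ E \ B, xch pos' f B u v = xch pos f B u v := by
    intro u hu v hv
    unfold xch
    simp only [ho u (hB hu) v (Finset.mem_sdiff.mp hv).1]
  rw [key e he x hx, key e he x' hx', key e' he' x hx, key e' he' x' hx']
  exact hs

/-- Rotation: pos' is obtained from pos by moving the part S of E (an initial segment)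
to the end: inside S and outside S the order is unchanged, across the cut it is reversed. -/
theorem GP3.rot {pos pos' : α → ℕ} {E : Finset α} {r : ℕ} {f : Finset α → Bool} (S : Finset α)
    (h : GP3 pos E r f)
    (hin : ∀ a ∈ E, ∀ b ∈ E, (a ∈ S ↔ b ∈ S) → pos' a < pos' b → pos a < pos b)
    (hS : ∀ a ∈ E, ∀ b ∈ E, a ∈ S → b ∉ S → pos a < pos b)
    (hS' : ∀ a ∈ E, ∀ b ∈ E, a ∈ S → b ∉ S → pos' b < pos' a) :
    GP3 pos' E r f := by
  intro z a b c d hz ha hb hc hd haz hbz hcz hdz hzr hab hbc hcd
  have hb1 : a ∈ S → b ∈ S := fun h1 => by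
    by_contra h2; have := hS' a ha b hb h1 h2; omega
  have hc1 : b ∈ S → c ∈ S := fun h1 => by
    by_contra h2; have := hS' b hb c hc h1 h2; omega
  have hd1 : c ∈ S → d ∈ S := fun h1 => by
    by_contra h2; have := hS' c hc d hd h1 h2; omega
  have s1 := add2_comm z b a
  have s2 := add2_comm z c a
  have s3 := add2_comm z d a
  have s4 := add2_comm z c b
  have s5 := add2_comm z d b
  have s6 := add2_comm z d c
  by_cases hdS : d ∈ S
  swap
  · have hcS : c ∉ S := fun h1 => hdS (hd1 h1)
    have hbS : b ∉ S := fun h1 => hcS (hc1 h1)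
    have haS : a ∉ S := fun h1 => hbS (hb1 h1)
    exact h z a b c d hz ha hb hc hd haz hbz hcz hdz hzr (hin a ha b hb (by tauto) hab)
      (hin b hb c hc (by tauto) hbc) (hin c hc d hd (by tauto) hcd)
  by_cases hcS : c ∈ S
  swap
  · have hbS : b ∉ S := fun h1 => hcS (hc1 h1)
    have haS : a ∉ S := fun h1 => hbS (hb1 h1)
    have k := h z d a b c hz hd ha hb hc hdz haz hbz hcz hzr (hS d hd a ha hdS haS)
      (hin a ha b hb (by tauto) hab) (hin b hb c hc (by tauto) hbc)
    simp only [s1, s2, s3, s4, s5, s6] at k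
    revert k
    generalize f (add2 z a b) = v1
    generalize f (add2 z a c) = v2
    generalize f (add2 z a d) = v3
    generalize f (add2 z b c) = v4
    generalize f (add2 z b d) = v5
    generalize f (add2 z c d) = v6
    revert v1 v2 v3 v4 v5 v6
    decide
  by_cases hbS : b ∈ S
  swap
  · have haS : a ∉ S := fun h1 => hbS (hb1 h1)
    have k := h z c d a b hz hc hd ha hb hcz hdz haz hbz hzr (hin c hc d hd (by tauto) hcd)
      (hS d hd a ha hdS haS) (hin a ha b hb (by tauto) hab)
    simp only [s1, s2, s3, s4, s5, s6] at k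
    revert k
    generalize f (add2 z a b) = v1
    generalize f (add2 z a c) = v2
    generalize f (add2 z a d) = v3
    generalize f (add2 z b c) = v4
    generalize f (add2 z b d) = v5
    generalize f (add2 z c d) = v6
    revert v1 v2 v3 v4 v5 v6
    decide
  by_cases haS : a ∈ S
  swap
  · have k := h z b c d a hz hb hc hd ha hbz hcz hdz haz hzr (hin b hb c hc (by tauto) hbc)
      (hin c hc d hd (by tauto) hcd) (hS d hd a ha hdS haS)
    simp only [s1, s2, s3, s4, s5, s6] at k
    revert k
    generalize f (add2 z a b) = v1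
    generalize f (add2 z a c) = v2
    generalize f (add2 z a d) = v3
    generalize f (add2 z b c) = v4
    generalize f (add2 z b d) = v5
    generalize f (add2 z c d) = v6
    revert v1 v2 v3 v4 v5 v6
    decide
  exact h z a b c d hz ha hb hc hd haz hbz hcz hdz hzr (hin a ha b hb (by tauto) hab)
    (hin b hb c hc (by tauto) hbc) (hin c hc d hd (by tauto) hcd)

/-- Rotation for blocked bases. -/
theorem Blocked.rot {pos pos' : α → ℕ} {E : Finset α} {f : Finset α → Bool} {B : Finset α}
    (S : Finset α) (h : Blocked pos E f B) (hB : B ⊆ E)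
    (hin : ∀ a ∈ E, ∀ b ∈ E, (a ∈ S ↔ b ∈ S) → (pos' a < pos' b ↔ pos a < pos b))
    (hS : ∀ a ∈ E, ∀ b ∈ E, a ∈ S → b ∉ S → pos a < pos b)
    (hS' : ∀ a ∈ E, ∀ b ∈ E, a ∈ S → b ∉ S → pos' b < pos' a) :
    Blocked pos' E f B := by
  obtain ⟨e, he, e', he', x, hx, x', hx', hs⟩ := h
  refine ⟨e, he, e', he', x, hx, x', hx', ?_⟩
  have key : ∀ u ∈ B, ∀ v ∈ E \ B, xch pos' f B u v =
      (xch pos f B u v ^^ decide (u ∈ S) ^^ decide (v ∈ S)) := by
    intro u hu v hv
    have huE := hB hu
    have hvE := (Finset.mem_sdiff.mp hv).1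
    unfold xch
    by_cases h1 : u ∈ S <;> by_cases h2 : v ∈ S
    · simp only [hin u huE v hvE (by tauto), h1, h2, decide_true]
      simp
    · have k1 := hS u huE v hvE h1 h2
      have k2 := hS' u huE v hvE h1 h2
      simp only [h1, h2, k1, not_lt_of_gt k2, decide_true, decide_false]
      simp
    · have k1 := hS v hvE u huE h2 h1
      have k2 := hS' v hvE u huE h2 h1
      simp only [h1, h2, k2, not_lt_of_gt k1, decide_true, decide_false]
      simp
    · simp only [hin u huE v hvE (by tauto), h1, h2, decide_false]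
      simp
  rw [key e he x hx, key e he x' hx', key e' he' x hx, key e' he' x' hx', ← hs]
  generalize xch pos f B e x = v1
  generalize xch pos f B e x' = v2
  generalize xch pos f B e' x = v3
  generalize xch pos f B e' x' = v4
  generalize decide (e ∈ S) = w1
  generalize decide (e' ∈ S) = w2
  generalize decide (x ∈ S) = w3
  generalize decide (x' ∈ S) = w4
  revert v1 v2 v3 v4 w1 w2 w3 w4
  decide

/-- The order can be reversed. -/
theorem GP3.reverse {pos pos' : α → ℕ} {E : Finset α} {r : ℕ} {f : Finset α → Bool}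
    (h : GP3 pos E r f) (ho : ∀ a ∈ E, ∀ b ∈ E, pos' a < pos' b → pos b < pos a) :
    GP3 pos' E r f := by
  intro z a b c d hz ha hb hc hd haz hbz hcz hdz hzr hab hbc hcd
  have k := h z d c b a hz hd hc hb ha hdz hcz hbz haz hzr (ho c hc d hd hcd) (ho b hb c hc hbc)
    (ho a ha b hb hab)
  simp only [add2_comm z b a, add2_comm z c a, add2_comm z d a, add2_comm z c b,
    add2_comm z d b, add2_comm z d c] at k
  revert k
  generalize f (add2 z a b) = v1
  generalize f (add2 z a c) = v2
  generalize f (add2 z a d) = v3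
  generalize f (add2 z b c) = v4
  generalize f (add2 z b d) = v5
  generalize f (add2 z c d) = v6
  revert v1 v2 v3 v4 v5 v6
  decide

/-- The order can be reversed (blocked bases). -/
theorem Blocked.reverse {pos pos' : α → ℕ} {E : Finset α} {f : Finset α → Bool} {B : Finset α}
    (h : Blocked pos E f B) (hB : B ⊆ E)
    (ho : ∀ a ∈ E, ∀ b ∈ E, a ≠ b → (pos' a < pos' b ↔ ¬ pos a < pos b)) :
    Blocked pos' E f B := by
  obtain ⟨e, he, e', he', x, hx, x', hx', hs⟩ := h
  refine ⟨e, he, e', he', x, hx, x', hx', ?_⟩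
  have key : ∀ u ∈ B, ∀ v ∈ E \ B, xch pos' f B u v = !(xch pos f B u v) := by
    intro u hu v hv
    obtain ⟨hvE, hvB⟩ := Finset.mem_sdiff.mp hv
    have hne : u ≠ v := fun hh => hvB (hh ▸ hu)
    unfold xch
    have k := ho u (hB hu) v hvE hne
    by_cases h1 : pos u < pos v
    · simp [h1, k]
    · simp [h1, k]
  rw [key e he x hx, key e he x' hx', key e' he' x hx, key e' he' x' hx', ← hs]
  generalize xch pos f B e x = v1
  generalize xch pos f B e x' = v2
  generalize xch pos f B e' x = v3
  generalize xch pos f B e' x' = v4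
  revert v1 v2 v3 v4
  decide

/-! ### Complement (dual) -/

/-- The dual sign function. -/
def dual (E : Finset α) (f : Finset α → Bool) : Finset α → Bool := fun A => f (E \ A)

theorem dual_dual_apply {E : Finset α} {f : Finset α → Bool} {A : Finset α} (hA : A ⊆ E) :
    dual E (dual E f) A = f A := by
  unfold dual
  rw [Finset.sdiff_sdiff_eq_self hA]

/-- Complement of a two element extension. -/
theorem sdiff_add2 {E z : Finset α} {a b c d : α}
    (hc : c ∈ E) (hd : d ∈ E) (hcz : c ∉ z) (hdz : d ∉ z)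
    (hac : a ≠ c) (had : a ≠ d) (hbc : b ≠ c) (hbd : b ≠ d) :
    E \ add2 z a b = add2 (E \ (add2 (add2 z a b) c d)) c d := by
  ext y
  simp only [Finset.mem_sdiff, mem_add2]
  constructor
  · rintro ⟨h1, h2⟩
    by_cases hyc : y = c
    · exact Or.inl hyc
    by_cases hyd : y = d
    · exact Or.inr (Or.inl hyd)
    exact Or.inr (Or.inr ⟨h1, by tauto⟩)
  · rintro (rfl | rfl | ⟨h1, h2⟩)
    · exact ⟨hc, by rintro (h | h | h); exacts [hac h.symm, hbc h.symm, hcz h]⟩
    · exact ⟨hd, by rintro (h | h | h); exacts [had h.symm, hbd h.symm, hdz h]⟩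
    · exact ⟨h1, by tauto⟩

/-- The dual of a chirotope is a chirotope. -/
theorem GP3.dual {pos : α → ℕ} {E : Finset α} {r s : ℕ} {f : Finset α → Bool}
    (h : GP3 pos E r f) (hs : s + r = E.card) : GP3 pos E s (dual E f) := by
  intro z a b c d hz ha hb hc hd haz hbz hcz hdz hzr hab hbc hcd
  have nab : a ≠ b := fun hh => by rw [hh] at hab; omega
  have nbc : b ≠ c := fun hh => by rw [hh] at hbc; omega
  have ncd : c ≠ d := fun hh => by rw [hh] at hcd; omega
  have nac : a ≠ c := fun hh => by rw [hh] at hab; omega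
  have nad : a ≠ d := fun hh => by rw [hh] at hab; omega
  have nbd : b ≠ d := fun hh => by rw [hh] at hbc; omega
  set w : Finset α := E \ (add2 (add2 z a b) c d) with hw
  have m : ∀ y, y ∈ w ↔ y ∈ E ∧ y ≠ a ∧ y ≠ b ∧ y ≠ c ∧ y ≠ d ∧ y ∉ z := by
    intro y
    simp only [hw, Finset.mem_sdiff, mem_add2]
    tauto
  have k : ∀ p q s t : α, s ∈ E → t ∈ E → s ∉ z → t ∉ z →
      p ≠ s → p ≠ t → q ≠ s → q ≠ t →
      (∀ y, (y = a ∨ y = b ∨ y = c ∨ y = d) ↔ (y = p ∨ y = q ∨ y = s ∨ y = t)) →
      E \ add2 z p q = add2 w s t := by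
    intro p q s t hs' ht hsz htz h1 h2 h3 h4 hy
    rw [sdiff_add2 hs' ht hsz htz h1 h2 h3 h4]
    have hset : add2 (add2 z p q) s t = add2 (add2 z a b) c d := by
      ext y
      have := hy y
      simp only [mem_add2]
      clear * - this
      tauto
    rw [hset]
  have hwE : w ⊆ E := fun y hy => ((m y).mp hy).1
  have hcard : (add2 (add2 z a b) c d).card = z.card + 4 := by
    unfold add2
    rw [Finset.card_insert_of_notMem, Finset.card_insert_of_notMem,
      Finset.card_insert_of_notMem, Finset.card_insert_of_notMem hbz]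
    · simp only [Finset.mem_insert, not_or]; exact ⟨nab, haz⟩
    · simp only [Finset.mem_insert, not_or]; exact ⟨nad.symm, nbd.symm, hdz⟩
    · simp only [Finset.mem_insert, not_or]; exact ⟨ncd, nac.symm, nbc.symm, hcz⟩
  have hsub : add2 (add2 z a b) c d ⊆ E := by
    intro y hy
    rcases mem_add2.mp hy with rfl | rfl | hy
    · exact hc
    · exact hd
    rcases mem_add2.mp hy with rfl | rfl | hy
    · exact ha
    · exact hb
    · exact hz hy
  have hwr : w.card + 2 = r := by
    have h1 := Finset.card_sdiff_of_subset hsub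
    have h2 := Finset.card_le_card hsub
    rw [hcard] at h1 h2
    rw [← hw] at h1
    omega
  have q := h w a b c d hwE ha hb hc hd (by simp [m]) (by simp [m]) (by simp [m]) (by simp [m])
    hwr hab hbc hcd
  unfold Simplex.dual
  rw [k a c b d hb hd hbz hdz nab nad nbc.symm ncd (by clear * -; intro y; tauto),
    k b d a c ha hc haz hcz nab.symm nbc nad.symm ncd.symm (by clear * -; intro y; tauto),
    k a b c d hc hd hcz hdz nac nad nbc nbd (by clear * -; intro y; tauto),
    k c d a b ha hb haz hbz nac.symm nbc.symm nad.symm nbd.symm (by clear * -; intro y; tauto),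
    k a d b c hb hc hbz hcz nab nac nbd.symm ncd.symm (by clear * -; intro y; tauto),
    k b c a d ha hd haz hdz nab.symm nbd nac.symm ncd (by clear * -; intro y; tauto)]
  revert q
  generalize f (add2 w a b) = v1
  generalize f (add2 w a c) = v2
  generalize f (add2 w a d) = v3
  generalize f (add2 w b c) = v4
  generalize f (add2 w b d) = v5
  generalize f (add2 w c d) = v6
  revert v1 v2 v3 v4 v5 v6
  decide

/-- Blocked bases of the dual are the complements of blocked bases. -/
theorem Blocked.dual {pos : α → ℕ} {E : Finset α} {f : Finset α → Bool} {B : Finset α}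
    (hpos : Set.InjOn pos (E : Set α)) (h : Blocked pos E f B) (hB : B ⊆ E) :
    Blocked pos E (dual E f) (E \ B) := by
  obtain ⟨e, he, e', he', x, hx, x', hx', hs⟩ := h
  have hmem : ∀ u ∈ B, u ∈ E \ (E \ B) := fun u hu => by
    rw [Finset.sdiff_sdiff_eq_self hB]; exact hu
  refine ⟨x, hx, x', hx', e, hmem e he, e', hmem e' he', ?_⟩
  have key : ∀ u ∈ B, ∀ v ∈ E \ B,
      xch pos (Simplex.dual E f) (E \ B) v u = !(xch pos f B u v) := by
    intro u hu v hv
    obtain ⟨hvE, hvB⟩ := Finset.mem_sdiff.mp hv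
    have hne : u ≠ v := fun hh => hvB (hh ▸ hu)
    have hpne : pos u ≠ pos v := fun hh => hne (hpos (hB hu) hvE hh)
    have hset : E \ insert u ((E \ B).erase v) = insert v (B.erase u) := by
      ext y
      simp only [Finset.mem_sdiff, Finset.mem_insert, Finset.mem_erase]
      constructor
      · rintro ⟨h1, h2⟩
        by_cases hyv : y = v
        · exact Or.inl hyv
        · exact Or.inr ⟨by tauto, by tauto⟩
      · rintro (rfl | ⟨h1, h2⟩)
        · exact ⟨hvE, by rintro (h | h); exacts [hne h.symm, h.1 rfl]⟩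
        · exact ⟨hB h2, by tauto⟩
    unfold xch Simplex.dual
    rw [hset]
    by_cases h1 : pos u < pos v
    · simp [h1, not_lt_of_gt h1]
    · have h2 : pos v < pos u := by omega
      simp [h1, h2]
  rw [key e he x hx, key e' he' x hx, key e he x' hx', key e' he' x' hx', ← hs]
  generalize xch pos f B e x = v1
  generalize xch pos f B e x' = v2
  generalize xch pos f B e' x = v3
  generalize xch pos f B e' x' = v4
  revert v1 v2 v3 v4
  decide

/-! ### Restriction (deletion) and contraction -/

/-- Deletion. -/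
theorem GP3.mono {pos : α → ℕ} {E E' : Finset α} {r : ℕ} {f : Finset α → Bool}
    (h : GP3 pos E r f) (hE : E' ⊆ E) : GP3 pos E' r f := by
  intro z a b c d hz ha hb hc hd
  exact h z a b c d (hz.trans hE) (hE ha) (hE hb) (hE hc) (hE hd)

theorem Blocked.mono {pos : α → ℕ} {E E' : Finset α} {f : Finset α → Bool} {B : Finset α}
    (h : Blocked pos E' f B) (hE : E' ⊆ E) : Blocked pos E f B := by
  obtain ⟨e, he, e', he', x, hx, x', hx', hs⟩ := h
  exact ⟨e, he, e', he', x, Finset.sdiff_subset_sdiff hE (le_refl _) hx, x',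
    Finset.sdiff_subset_sdiff hE (le_refl _) hx', hs⟩

/-- Contraction of Y. -/
def contr (Y : Finset α) (f : Finset α → Bool) : Finset α → Bool := fun A => f (A ∪ Y)

theorem GP3.contr {pos : α → ℕ} {E Y : Finset α} {r s : ℕ} {f : Finset α → Bool}
    (h : GP3 pos E r f) (hY : Y ⊆ E) (hs : s + Y.card = r) :
    GP3 pos (E \ Y) s (contr Y f) := by
  intro z a b c d hz ha hb hc hd haz hbz hcz hdz hzr hab hbc hcd
  have hdisj : Disjoint z Y := by
    rw [Finset.disjoint_left]
    intro y hy
    exact (Finset.mem_sdiff.mp (hz hy)).2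
  have k : ∀ u v : α, add2 z u v ∪ Y = add2 (z ∪ Y) u v := by
    intro u v
    ext y
    simp only [Finset.mem_union, mem_add2]
    tauto
  have hm : ∀ u, u ∈ E \ Y → u ∉ z → u ∉ z ∪ Y := by
    intro u hu huz
    rw [Finset.mem_union, not_or]
    exact ⟨huz, (Finset.mem_sdiff.mp hu).2⟩
  unfold Simplex.contr
  simp only [k]
  exact h (z ∪ Y) a b c d (Finset.union_subset (hz.trans Finset.sdiff_subset) hY)
    (Finset.sdiff_subset ha) (Finset.sdiff_subset hb) (Finset.sdiff_subset hc)
    (Finset.sdiff_subset hd) (hm a ha haz) (hm b hb hbz) (hm c hc hcz) (hm d hd hdz)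
    (by rw [Finset.card_union_of_disjoint hdisj]; omega) hab hbc hcd

/-- A basis blocked in a contraction is blocked. -/
theorem Blocked.of_contr {pos : α → ℕ} {E Y : Finset α} {f : Finset α → Bool} {B : Finset α}
    (h : Blocked pos (E \ Y) (contr Y f) B) (hB : B ⊆ E \ Y) : Blocked pos E f (B ∪ Y) := by
  obtain ⟨e, he, e', he', x, hx, x', hx', hs⟩ := h
  have hm : ∀ v, v ∈ (E \ Y) \ B → v ∈ E \ (B ∪ Y) := by
    intro v hv
    simp only [Finset.mem_sdiff, Finset.mem_union] at hv ⊢
    tauto
  refine ⟨e, Finset.mem_union_left _ he, e', Finset.mem_union_left _ he', x, hm x hx, x',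
    hm x' hx', ?_⟩
  have key : ∀ u ∈ B, ∀ v : α, xch pos f (B ∪ Y) u v = xch pos (Simplex.contr Y f) B u v := by
    intro u hu v
    have huY : u ∉ Y := (Finset.mem_sdiff.mp (hB hu)).2
    unfold xch Simplex.contr
    have : insert v ((B ∪ Y).erase u) = insert v (B.erase u) ∪ Y := by
      ext y
      simp only [Finset.mem_union, Finset.mem_insert, Finset.mem_erase]
      by_cases hyu : y = u
      · subst hyu; tauto
      · tauto
    rw [this]
  rw [key e he x, key e he x', key e' he' x, key e' he' x']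
  exact hs

/-- Local form: a basis B is blocked as soon as the exchanges with e in B1 and x in E1 are
blocked, where f agrees on these exchanges with a local sign function f1 up to a constant. -/
theorem Blocked.of_local {pos : α → ℕ} {E E1 : Finset α} {f f1 : Finset α → Bool}
    {B B1 : Finset α} (h : Blocked pos E1 f1 B1) (hB1 : B1 ⊆ B) (hE1 : E1 \ B1 ⊆ E \ B)
    (t : Bool)
    (hf : ∀ e ∈ B1, ∀ x ∈ E1 \ B1,
      f (insert x (B.erase e)) = (f1 (insert x (B1.erase e)) ^^ t)) : Blocked pos E f B := by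
  obtain ⟨e, he, e', he', x, hx, x', hx', hs⟩ := h
  refine ⟨e, hB1 he, e', hB1 he', x, hE1 hx, x', hE1 hx', ?_⟩
  have key : ∀ u ∈ B1, ∀ v ∈ E1 \ B1, xch pos f B u v = (xch pos f1 B1 u v ^^ t) := by
    intro u hu v hv
    unfold xch
    rw [hf u hu v hv]
    generalize f1 (insert v (B1.erase u)) = v1
    generalize decide (pos u < pos v) = v2
    clear * -
    revert v1 v2 t
    decide
  rw [key e he x hx, key e he x' hx', key e' he' x hx, key e' he' x' hx', ← hs]
  generalize xch pos f1 B1 e x = v1
  generalize xch pos f1 B1 e x' = v2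
  generalize xch pos f1 B1 e' x = v3
  generalize xch pos f1 B1 e' x' = v4
  clear * -
  revert v1 v2 v3 v4 t
  decide

/-! ### Relabelling -/

/-- Pull back along an embedding. -/
def pull (φ : α ↪ β) (f : Finset β → Bool) : Finset α → Bool := fun A => f (A.map φ)

theorem map_add2 (φ : α ↪ β) (z : Finset α) (a b : α) :
    (add2 z a b).map φ = add2 (z.map φ) (φ a) (φ b) := by
  unfold add2
  rw [Finset.map_insert, Finset.map_insert]

/-- Relabelling: pull back. -/
theorem GP3.pull {pos : β → ℕ} {E : Finset α} {r : ℕ} {f : Finset β → Bool} (φ : α ↪ β)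
    (h : GP3 pos (E.map φ) r f) : GP3 (fun a => pos (φ a)) E r (pull φ f) := by
  intro z a b c d hz ha hb hc hd haz hbz hcz hdz hzr hab hbc hcd
  unfold Simplex.pull
  simp only [map_add2]
  exact h (z.map φ) (φ a) (φ b) (φ c) (φ d) (Finset.map_subset_map.mpr hz)
    (Finset.mem_map_of_mem φ ha) (Finset.mem_map_of_mem φ hb) (Finset.mem_map_of_mem φ hc)
    (Finset.mem_map_of_mem φ hd) (by rw [Finset.mem_map']; exact haz)
    (by rw [Finset.mem_map']; exact hbz) (by rw [Finset.mem_map']; exact hcz)
    (by rw [Finset.mem_map']; exact hdz) (by rw [Finset.card_map]; exact hzr) hab hbc hcd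

/-- Relabelling: push forward. -/
theorem GP3.push {pos : β → ℕ} {E : Finset α} {r : ℕ} {f : Finset β → Bool} (φ : α ↪ β)
    (h : GP3 (fun a => pos (φ a)) E r (Simplex.pull φ f)) : GP3 pos (E.map φ) r f := by
  intro z a b c d hz ha0 hb0 hc0 hd0 haz hbz hcz hdz hzr hab hbc hcd
  obtain ⟨a, ha, rfl⟩ := Finset.mem_map.mp ha0
  obtain ⟨b, hb, rfl⟩ := Finset.mem_map.mp hb0
  obtain ⟨c, hc, rfl⟩ := Finset.mem_map.mp hc0
  obtain ⟨d, hd, rfl⟩ := Finset.mem_map.mp hd0
  obtain ⟨w, hw, rfl⟩ := Finset.subset_map_iff.mp hz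
  rw [Finset.mem_map'] at haz hbz hcz hdz
  rw [Finset.card_map] at hzr
  have := h w a b c d hw ha hb hc hd haz hbz hcz hdz hzr hab hbc hcd
  unfold Simplex.pull at this
  simp only [map_add2] at this
  exact this

/-- Relabelling blocked bases. -/
theorem Blocked.push {pos : β → ℕ} {E : Finset α} {f : Finset β → Bool} {B : Finset α}
    (φ : α ↪ β) (h : Blocked (fun a => pos (φ a)) E (Simplex.pull φ f) B) :
    Blocked pos (E.map φ) f (B.map φ) := by
  obtain ⟨e, he, e', he', x, hx, x', hx', hs⟩ := h
  have hm : ∀ v, v ∈ E \ B → φ v ∈ E.map φ \ B.map φ := by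
    intro v hv
    rw [Finset.mem_sdiff, Finset.mem_map', Finset.mem_map', ← Finset.mem_sdiff]
    exact hv
  refine ⟨φ e, Finset.mem_map_of_mem φ he, φ e', Finset.mem_map_of_mem φ he', φ x, hm x hx,
    φ x', hm x' hx', ?_⟩
  have key : ∀ u v : α, xch pos f (B.map φ) (φ u) (φ v) =
      xch (fun a => pos (φ a)) (Simplex.pull φ f) B u v := by
    intro u v
    unfold xch Simplex.pull
    rw [Finset.map_insert, Finset.map_erase]
  rw [key, key, key, key]
  exact hs

/-- Relabelling blocked bases, pull back. -/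
theorem Blocked.pull {pos : β → ℕ} {E : Finset α} {f : Finset β → Bool} {B : Finset α}
    (φ : α ↪ β) (h : Blocked pos (E.map φ) f (B.map φ)) :
    Blocked (fun a => pos (φ a)) E (Simplex.pull φ f) B := by
  obtain ⟨e, he0, e', he0', x, hx, x', hx', hs⟩ := h
  obtain ⟨e, he, rfl⟩ := Finset.mem_map.mp he0
  obtain ⟨e', he', rfl⟩ := Finset.mem_map.mp he0'
  obtain ⟨hxE, hxB⟩ := Finset.mem_sdiff.mp hx
  obtain ⟨hxE', hxB'⟩ := Finset.mem_sdiff.mp hx'
  obtain ⟨x, hx1, rfl⟩ := Finset.mem_map.mp hxE
  obtain ⟨x', hx1', rfl⟩ := Finset.mem_map.mp hxE'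
  rw [Finset.mem_map'] at hxB hxB'
  refine ⟨e, he, e', he', x, Finset.mem_sdiff.mpr ⟨hx1, hxB⟩, x',
    Finset.mem_sdiff.mpr ⟨hx1', hxB'⟩, ?_⟩
  have key : ∀ u v : α, xch pos f (B.map φ) (φ u) (φ v) =
      xch (fun a => pos (φ a)) (Simplex.pull φ f) B u v := by
    intro u v
    unfold xch Simplex.pull
    rw [Finset.map_insert, Finset.map_erase]
  rw [key, key, key, key] at hs
  exact hs

end Pool.Agent.Simplex
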