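import Pool.Agent.Work.MP_f99e36_co.Bridge
import Pool.Agent.Work.MP_f99e36_co.Blk
import Pool.Agent.Work.MP_f99e36_co.Moves

/-!
From a mutation-free set-level chirotope on {0, ..., n-1} (subsets of the natural numbers) to the
negated simplex conjecture in its exact form.
-/

set_option autoImplicit false

namespace Pool.Agent.Simplex

open Finset

theorem map_val_univ (n : ℕ) : (univ : Finset (Fin n)).map Fin.valEmbedding = range n := by
  rw [Fin.map_valEmbedding_univ, Nat.Iio_eq_range]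

theorem GP3_fin {n r : ℕ} {f : Finset ℕ → Bool} (hf : GP3 id (range n) r f) :
    GP3 (fun i : Fin n => (i : ℕ)) univ r (pull Fin.valEmbedding f) := by
  have h : GP3 id ((univ : Finset (Fin n)).map Fin.valEmbedding) r f := by
    rw [map_val_univ]; exact hf
  exact h.pull Fin.valEmbedding

theorem Blocked_fin {n : ℕ} {f : Finset ℕ → Bool} {B : Finset (Fin n)}
    (h : Blocked id (range n) f (B.map Fin.valEmbedding)) :
    Blocked (fun i : Fin n => (i : ℕ)) univ (pull Fin.valEmbedding f) B := by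
  have h' : Blocked id ((univ : Finset (Fin n)).map Fin.valEmbedding) f
      (B.map Fin.valEmbedding) := by
    rw [map_val_univ]; exact h
  exact h'.pull Fin.valEmbedding

/-- A set-level chirotope of rank r on {0, ..., n-1} all of whose bases are blocked refutes the
simplex conjecture. -/
theorem not_simplex {n r : ℕ} (hr : 1 ≤ r) (hrn : r ≤ n) {f : Finset ℕ → Bool}
    (hf : GP3 id (range n) r f)
    (hb : ∀ B : Finset ℕ, B ⊆ range n → B.card = r → Blocked id (range n) f B) :
    ¬ (∀ k n : ℕ, k + 1 ≤ n →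
    ∀ χ : (Fin (k + 1) → Fin n) → ℤ,
      (∀ x, χ x = 1 ∨ χ x = -1 ∨ χ x = 0) →
      (∀ x, χ x ≠ 0 ↔ Function.Injective x) →
      (∀ σ : Equiv.Perm (Fin (k + 1)), ∀ x : Fin (k + 1) → Fin n,
          χ (x ∘ σ) = (Equiv.Perm.sign σ : ℤ) * χ x) →
      (∀ x : Fin (k + 2) → Fin n, ∀ y : Fin k → Fin n,
          (∀ i : Fin (k + 2),
              (-1 : ℤ) ^ (i : ℕ) * χ (x ∘ Fin.succAbove i) * χ (Matrix.vecCons (x i) y) = 0) ∨
          ((∃ i : Fin (k + 2),
              (-1 : ℤ) ^ (i : ℕ) * χ (x ∘ Fin.succAbove i) * χ (Matrix.vecCons (x i) y) = 1) ∧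
           (∃ i : Fin (k + 2),
              (-1 : ℤ) ^ (i : ℕ) * χ (x ∘ Fin.succAbove i) * χ (Matrix.vecCons (x i) y) = -1))) →
      ∃ I : Finset (Fin n), I.card = k + 1 ∧
        ∀ χ' : (Fin (k + 1) → Fin n) → ℤ,
          (∀ z : Fin (k + 1) → Fin n,
              χ' z = if Finset.univ.image z = I then -χ z else χ z) →
          ∀ x : Fin (k + 2) → Fin n, ∀ y : Fin k → Fin n,
            (∀ i : Fin (k + 2),
                (-1 : ℤ) ^ (i : ℕ) * χ' (x ∘ Fin.succAbove i) * χ' (Matrix.vecCons (x i) y) = 0) ∨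
            ((∃ i : Fin (k + 2),
                (-1 : ℤ) ^ (i : ℕ) * χ' (x ∘ Fin.succAbove i) * χ' (Matrix.vecCons (x i) y) = 1) ∧
             (∃ i : Fin (k + 2),
                (-1 : ℤ) ^ (i : ℕ) * χ' (x ∘ Fin.succAbove i) * χ' (Matrix.vecCons (x i) y) = -1))) := by
  obtain ⟨k, rfl⟩ : ∃ k, r = k + 1 := ⟨r - 1, by omega⟩
  have hf' := GP3_fin hf
  refine of_GP3 (N := n) (k := k) (f := pull Fin.valEmbedding f) hrn hf' ?_
  intro B hB
  have hsub : B.map Fin.valEmbedding ⊆ range n := by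
    rw [← map_val_univ n]
    exact map_subset_map.mpr (subset_univ B)
  have h := Blocked_fin (hb (B.map Fin.valEmbedding) hsub (by rw [card_map]; exact hB))
  exact h.not_GP3 (fun i _ j _ hij => Fin.ext hij) hf' (subset_univ B) hB

end Pool.Agent.Simplex
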