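import Pool.Agent.Work.MP_f99e36_co.Inst
import Pool.Agent.Work.MP_f99e36_co.Link

/-!
Assembly: the certificates of the base, of the stages and of the pairs of exceptional bases give
a uniform chirotope of rank 24 on 92 elements without mutation.
-/

set_option autoImplicit false

namespace Pool.Agent.Simplex

open Finset

/-- the condition on pairs of exceptional bases, hypothesis H4 of the nested composition -/
def PairOK (eps : Finset ℕ) (Exc : Finset ℕ → Prop) : Prop :=
  ∀ X1 X2, Exc X1 → Exc X2 → ∃ x ∈ X1, ∃ y ∈ X2,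
    ∃ e ∈ Ico (12 + 32) (12 + 32 + 4), ∃ f ∈ Ico (12 + 32) (12 + 32 + 4),
      (f1F (insert e (X1.erase x)) ^^ f1F (insert f (X1.erase x)) ^^
        f1F (insert (2 * 12 + 68 - 1 - e) (X2.erase y)) ^^
        f1F (insert (2 * 12 + 68 - 1 - f) (X2.erase y)) ^^ decide (e ∈ eps) ^^
        decide (f ∈ eps)) = true

theorem final_of {pt bt al0 ng0 cc0 : ℕ} {T0 : GTb} {eps : Finset ℕ} (hl : LinkOK pt bt)
    (hb : BaseCert pt bt al0 ng0 cc0 T0) (hs : ∀ i, 44 ≤ i → i < 80 → StageCert pt bt i)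
    (h4 : PairOK eps (ExcF (datP pt bt al0 ng0 cc0) T0)) :
    GP3 id (range 92) 24 (nestF 12 68 eps f1F) ∧
      ∀ B, B ⊆ range 92 → B.card = 24 → Blocked id (range 92) (nestF 12 68 eps f1F) B :=
  nested_main (r := 12) (N := 68) (q0 := 32) (D := 4) (eps := eps) (f1 := f1F) (by norm_num)
    (by norm_num) (ExcF (datP pt bt al0 ng0 cc0) T0) f1F_GP3
    (fun X b hX hc hb0 hb1 => hyp_H1 hl hb hs X b hX hc hb0 hb1)
    (fun X hX hc => hyp_H2 hl hb hs X hX hc)
    (fun _ h => h.sub) h4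

end Pool.Agent.Simplex
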