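import Pool.Agent.Work.MP_f99e36_co.Moves

/-!
Kernel-fast verification that a table (a natural number) is a set-level chirotope.

The bit of the table at position (mask of S) xor R is the sign of the basis S; the mask of S is the
xor of the powers 2 ^ i, i in S.
-/

set_option autoImplicit false

namespace Pool.Agent.Simplex

/-! ### Masks -/

instance : Std.Commutative (fun a b : ℕ => a ^^^ b) := ⟨Nat.xor_comm⟩
instance : Std.Associative (fun a b : ℕ => a ^^^ b) := ⟨Nat.xor_assoc⟩

/-- The mask of a finite set: the xor of 2 ^ i, i in S. -/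
def mask (S : Finset ℕ) : ℕ := S.fold (fun a b => a ^^^ b) 0 (fun i => 2 ^ i)

theorem mask_empty : mask ∅ = 0 := rfl

theorem mask_insert {S : Finset ℕ} {i : ℕ} (hi : i ∉ S) : mask (insert i S) = 2 ^ i ^^^ mask S :=
  Finset.fold_insert hi

theorem mask_add2 {z : Finset ℕ} {a b : ℕ} (ha : a ∉ z) (hb : b ∉ z) (hab : a ≠ b) :
    mask (add2 z a b) = 2 ^ a ^^^ (2 ^ b ^^^ mask z) := by
  unfold add2
  rw [mask_insert, mask_insert hb]
  simp only [Finset.mem_insert, not_or]
  exact ⟨hab, ha⟩

/-- The sign function of a table. -/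
def tabF (R tab : ℕ) (S : Finset ℕ) : Bool := tab.testBit (R ^^^ mask S)

/-! ### The checker -/

/-- one three-term relation -/
def tst (tab s a b c d : ℕ) : Bool :=
  let p1 := tab.testBit (s ^^^ (a ^^^ b)) ^^ tab.testBit (s ^^^ (c ^^^ d))
  let p2 := tab.testBit (s ^^^ (a ^^^ c)) ^^ tab.testBit (s ^^^ (b ^^^ d))
  (p2 == p1) || (p2 == (tab.testBit (s ^^^ (a ^^^ d)) ^^ tab.testBit (s ^^^ (b ^^^ c))))

def l4 (tab s a b c : ℕ) : List ℕ → Bool
  | [] => true
  | d :: l => tst tab s a b c d && l4 tab s a b c l

def l3 (tab s a b : ℕ) : List ℕ → Bool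
  | [] => true
  | c :: l => l4 tab s a b c l && l3 tab s a b l

def l2 (tab s a : ℕ) : List ℕ → Bool
  | [] => true
  | b :: l => l3 tab s a b l && l2 tab s a l

def l1 (tab s : ℕ) : List ℕ → Bool
  | [] => true
  | a :: l => l2 tab s a l && l1 tab s l

/-- Go through all sets z with kz more elements from the list; out collects the other elements. -/
def zrec (tab : ℕ) : List ℕ → ℕ → ℕ → List ℕ → Bool
  | [], 0, s, out => l1 tab s out
  | [], _ + 1, _, _ => true
  | w :: l, 0, s, out => zrec tab l 0 s (w :: out)
  | w :: l, k + 1, s, out => zrec tab l k (s ^^^ w) out && zrec tab l (k + 1) s (w :: out)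

/-- The check of a table: n elements, rank r (at least 2), offset R; bits is the list
2 ^ (n-1), ..., 2, 1. -/
def chkTab (bits : List ℕ) (r R tab : ℕ) : Bool := zrec tab bits (r - 2) R []

theorem l4_spec {tab s a b c d : ℕ} {l : List ℕ} (h : l4 tab s a b c l = true) (hd : d ∈ l) :
    tst tab s a b c d = true := by
  induction l with
  | nil => simp at hd
  | cons x l ih =>
    simp only [l4, Bool.and_eq_true] at h
    rcases List.mem_cons.mp hd with rfl | hd
    · exact h.1
    · exact ih h.2 hd

theorem l3_spec {tab s a b c d : ℕ} {l : List ℕ} (h : l3 tab s a b l = true)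
    (hcd : List.Sublist [c, d] l) : tst tab s a b c d = true := by
  induction l with
  | nil => simp at hcd
  | cons x l ih =>
    simp only [l3, Bool.and_eq_true] at h
    rcases List.sublist_cons_iff.mp hcd with h1 | ⟨r, hr, h1⟩
    · exact ih h.2 h1
    · obtain ⟨rfl, rfl⟩ := List.cons.inj hr
      exact l4_spec h.1 (List.singleton_sublist.mp h1)

theorem l2_spec {tab s a b c d : ℕ} {l : List ℕ} (h : l2 tab s a l = true)
    (hcd : List.Sublist [b, c, d] l) : tst tab s a b c d = true := by
  induction l with
  | nil => simp at hcd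
  | cons x l ih =>
    simp only [l2, Bool.and_eq_true] at h
    rcases List.sublist_cons_iff.mp hcd with h1 | ⟨r, hr, h1⟩
    · exact ih h.2 h1
    · obtain ⟨rfl, rfl⟩ := List.cons.inj hr
      exact l3_spec h.1 h1

theorem l1_spec {tab s a b c d : ℕ} {l : List ℕ} (h : l1 tab s l = true)
    (hcd : List.Sublist [a, b, c, d] l) : tst tab s a b c d = true := by
  induction l with
  | nil => simp at hcd
  | cons x l ih =>
    simp only [l1, Bool.and_eq_true] at h
    rcases List.sublist_cons_iff.mp hcd with h1 | ⟨r, hr, h1⟩
    · exact ih h.2 h1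
    · obtain ⟨rfl, rfl⟩ := List.cons.inj hr
      exact l2_spec h.1 h1

theorem zrec_spec {tab : ℕ} (p : ℕ → Bool) : ∀ (l : List ℕ) (kz s : ℕ) (out : List ℕ),
    zrec tab l kz s out = true → (l.filter p).length = kz →
      l1 tab (s ^^^ (l.filter p).foldr (fun a b => a ^^^ b) 0)
        ((l.filter (fun x => !p x)).reverse ++ out) = true
  | [], 0, s, out, h, _ => by simpa [zrec] using h
  | [], k + 1, s, out, _, hk => by simp at hk
  | w :: l, 0, s, out, h, hk => by
    simp only [zrec] at h
    have hpw : p w = false := by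
      by_contra hp
      rw [Bool.not_eq_false] at hp
      rw [List.filter_cons_of_pos hp] at hk
      simp at hk
    rw [List.filter_cons_of_neg (by simp [hpw])] at hk
    have ih := zrec_spec p l 0 s (w :: out) h hk
    rw [List.filter_cons_of_neg (by simp [hpw]), List.filter_cons_of_pos (by simp [hpw]),
      List.reverse_cons, List.append_assoc]
    exact ih
  | w :: l, k + 1, s, out, h, hk => by
    simp only [zrec, Bool.and_eq_true] at h
    by_cases hp : p w = true
    · rw [List.filter_cons_of_pos hp, List.length_cons] at hk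
      have ih := zrec_spec p l k (s ^^^ w) out h.1 (by omega)
      rw [List.filter_cons_of_pos hp, List.filter_cons_of_neg (by simp [hp]), List.foldr_cons,
        ← Nat.xor_assoc]
      exact ih
    · rw [List.filter_cons_of_neg hp] at hk
      have ih := zrec_spec p l (k + 1) s (w :: out) h.2 hk
      rw [List.filter_cons_of_neg hp, List.filter_cons_of_pos (by simp [hp]),
        List.reverse_cons, List.append_assoc]
      exact ih

/-- the list 2 ^ (n-1), ..., 2, 1 -/
def pows (n : ℕ) : List ℕ := ((List.range n).reverse).map (fun i => 2 ^ i)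

theorem foldr_map_eq_mask (l : List ℕ) (h : l.Nodup) :
    (l.map (fun i => 2 ^ i)).foldr (fun a b => a ^^^ b) 0 = mask l.toFinset := by
  induction l with
  | nil => rfl
  | cons x l ih =>
    rw [List.map_cons, List.foldr_cons, List.toFinset_cons, mask_insert, ih (List.nodup_cons.mp h).2]
    rw [List.mem_toFinset]
    exact (List.nodup_cons.mp h).1

theorem tst_eq {tab R : ℕ} {z : Finset ℕ} {a b c d : ℕ} (ha : a ∉ z) (hb : b ∉ z) (hc : c ∉ z)
    (hd : d ∉ z) (hab : a < b) (hbc : b < c) (hcd : c < d)
    (h : tst tab (R ^^^ mask z) (2 ^ a) (2 ^ b) (2 ^ c) (2 ^ d) = true) :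
    (tabF R tab (add2 z a c) ^^ tabF R tab (add2 z b d)) =
        (tabF R tab (add2 z a b) ^^ tabF R tab (add2 z c d)) ∨
      (tabF R tab (add2 z a c) ^^ tabF R tab (add2 z b d)) =
        (tabF R tab (add2 z a d) ^^ tabF R tab (add2 z b c)) := by
  have key : ∀ u v : ℕ, u ∉ z → v ∉ z → u ≠ v →
      tabF R tab (add2 z u v) = tab.testBit (R ^^^ mask z ^^^ (2 ^ u ^^^ 2 ^ v)) := by
    intro u v hu hv huv
    unfold tabF
    rw [mask_add2 hu hv huv]
    congr 1
    rw [← Nat.xor_assoc (2 ^ u), Nat.xor_comm (2 ^ u ^^^ 2 ^ v), Nat.xor_assoc]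
  rw [key a c ha hc (by omega), key b d hb hd (by omega), key a b ha hb (by omega),
    key c d hc hd (by omega), key a d ha hd (by omega), key b c hb hc (by omega)]
  simp only [tst, Bool.or_eq_true, beq_iff_eq] at h
  exact h

/-- Soundness of the table check. -/
theorem chkTab_sound {n r R tab : ℕ} (h : chkTab (pows n) r R tab = true) :
    GP3 id (Finset.range n) r (tabF R tab) := by
  intro z a b c d hz ha hb hc hd haz hbz hcz hdz hzr hab hbc hcd
  simp only [id] at hab hbc hcd
  rw [Finset.mem_range] at ha hb hc hd
  apply tst_eq haz hbz hcz hdz hab hbc hcd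
  unfold chkTab at h
  have hinj : ∀ i j : ℕ, 2 ^ i = 2 ^ j → i = j := fun i j hij => Nat.pow_right_injective (le_refl 2) hij
  set p : ℕ → Bool := fun w => decide (∃ i ∈ z, w = 2 ^ i) with hp
  have hpi : ∀ i : ℕ, p (2 ^ i) = decide (i ∈ z) := by
    intro i
    simp only [hp]
    congr 1
    apply propext
    constructor
    · rintro ⟨j, hj, hij⟩
      rw [hinj i j hij]; exact hj
    · intro hi
      exact ⟨i, hi, rfl⟩
  have hf1 : (pows n).filter p =
      (((List.range n).reverse).filter (fun i => decide (i ∈ z))).map (fun i => 2 ^ i) := by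
    unfold pows
    rw [List.filter_map]
    congr 1
    apply List.filter_congr
    intro i _
    exact hpi i
  have hf2 : (pows n).filter (fun x => !p x) =
      (((List.range n).reverse).filter (fun i => decide (i ∉ z))).map (fun i => 2 ^ i) := by
    unfold pows
    rw [List.filter_map]
    congr 1
    apply List.filter_congr
    intro i _
    simp only [Function.comp, hpi i]
    by_cases hi : i ∈ z <;> simp [hi]
  have hnd : (((List.range n).reverse).filter (fun i => decide (i ∈ z))).Nodup :=
    (List.nodup_reverse.mpr List.nodup_range).filter _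
  have hfin : (((List.range n).reverse).filter (fun i => decide (i ∈ z))).toFinset = z := by
    ext i
    rw [List.mem_toFinset, List.mem_filter, List.mem_reverse, List.mem_range]
    constructor
    · rintro ⟨_, hi⟩
      exact of_decide_eq_true hi
    · intro hi
      exact ⟨Finset.mem_range.mp (hz hi), decide_eq_true hi⟩
  have hlen : ((pows n).filter p).length = r - 2 := by
    rw [hf1, List.length_map, ← List.toFinset_card_of_nodup hnd, hfin]
    omega
  have hs := zrec_spec p (pows n) (r - 2) R [] h hlen
  rw [hf1, foldr_map_eq_mask _ hnd, hfin, hf2, List.append_nil, ← List.map_reverse,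
    ← List.filter_reverse, List.reverse_reverse] at hs
  refine l1_spec hs ?_
  have hsub : List.Sublist [a, b, c, d] ((List.range n).filter (fun i => decide (i ∉ z))) := by
    have hmem : ∀ x ∈ [a, b, c, d], x ∈ (List.range n).filter (fun i => decide (i ∉ z)) := by
      intro x hx
      simp only [List.mem_cons, List.not_mem_nil, or_false] at hx
      rw [List.mem_filter, List.mem_range]
      rcases hx with rfl | rfl | rfl | rfl
      · exact ⟨ha, by simpa using haz⟩
      · exact ⟨hb, by simpa using hbz⟩
      · exact ⟨hc, by simpa using hcz⟩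
      · exact ⟨hd, by simpa using hdz⟩
    have hs1 : [a, b, c, d].Pairwise (· < ·) := by
      simp only [List.pairwise_cons, List.mem_cons, List.not_mem_nil, or_false,
        forall_eq_or_imp, forall_eq, List.Pairwise.nil, IsEmpty.forall_iff, implies_true, and_true]
      refine ⟨⟨hab, by omega, by omega⟩, ⟨hbc, by omega⟩, hcd⟩
    have hs2 : ((List.range n).filter (fun i => decide (i ∉ z))).Pairwise (· < ·) :=
      List.pairwise_lt_range.filter _
    have hnd1 : [a, b, c, d].Nodup := hs1.imp (fun h => ne_of_lt h)
    exact List.sublist_of_subperm_of_pairwise (hnd1.subperm hmem) hs1 hs2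
  exact hsub.map (fun i => 2 ^ i)

end Pool.Agent.Simplex
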