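import Pool.Agent.Work.MP_f99e36_co.Defs

/-!
From set-level three-term relations to the full Grassmann-Pluecker relations on tuples.
-/

set_option autoImplicit false

namespace Pool.Agent.Simplex

open Finset

/-- Sign of a boolean as an integer. -/
def us (b : Bool) : ℤ := if b then 1 else -1

theorem us_eq (b : Bool) : us b = 1 ∨ us b = -1 := by cases b <;> simp [us]

theorem us_xor_eq {x y p q : Bool} : ((x ^^ y) = (p ^^ q)) ↔ us x * us y = us p * us q := by
  cases x <;> cases y <;> cases p <;> cases q <;> simp [us]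

theorem us_not (x : Bool) : us (!x) = - us x := by cases x <;> simp [us]

/-- order sign -/
def os {N : ℕ} (a b : Fin N) : ℤ := if a < b then 1 else -1

theorem os_eq {N : ℕ} (a b : Fin N) : os a b = 1 ∨ os a b = -1 := by
  unfold os; split_ifs <;> simp

theorem os_antisymm {N : ℕ} {a b : Fin N} (h : a ≠ b) : os a b = - os b a := by
  unfold os
  rcases lt_or_gt_of_ne h with h1 | h1
  · rw [if_pos h1, if_neg (not_lt.mpr h1.le)]; simp
  · rw [if_neg (not_lt.mpr h1.le), if_pos h1]

section sym

variable {N : ℕ} (f : Finset (Fin N) → Bool) (z : Finset (Fin N))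

theorem add2_comm' (a b : Fin N) : add2 z a b = add2 z b a := by
  unfold add2; exact Finset.insert_comm _ _ _

/-- symmetric form of the three-term relation -/
def S3 (a b c d : Fin N) : Prop :=
  ¬ (os a b * os c d * (us (f (add2 z a b)) * us (f (add2 z c d))) =
      -(os a c * os b d * (us (f (add2 z a c)) * us (f (add2 z b d)))) ∧
     os a b * os c d * (us (f (add2 z a b)) * us (f (add2 z c d))) =
      os a d * os b c * (us (f (add2 z a d)) * us (f (add2 z b c))))

variable {f z}

theorem S3_swap12 {a b c d : Fin N} (h : a ≠ b) (hS : S3 f z a b c d) : S3 f z b a c d := by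
  unfold S3 at *
  rw [add2_comm' z b a, os_antisymm h.symm]
  rintro ⟨h1, h2⟩
  exact hS ⟨by linear_combination -h2, by linear_combination -h1⟩

theorem S3_swap23 {a b c d : Fin N} (h : b ≠ c) (hS : S3 f z a b c d) : S3 f z a c b d := by
  unfold S3 at *
  rw [add2_comm' z c b, os_antisymm h.symm]
  rintro ⟨h1, h2⟩
  exact hS ⟨by linear_combination h1, by linear_combination h1 - h2⟩

theorem S3_swap34 {a b c d : Fin N} (h : c ≠ d) (hS : S3 f z a b c d) : S3 f z a b d c := by
  unfold S3 at *
  rw [add2_comm' z d c, os_antisymm h.symm]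
  rintro ⟨h1, h2⟩
  exact hS ⟨by linear_combination -h2, by linear_combination -h1⟩

theorem S3_of_GP3 {E : Finset (Fin N)} {r : ℕ} (hf : GP3 (fun i : Fin N => (i : ℕ)) E r f)
    {a b c d : Fin N} (hz : z ⊆ E) (ha : a ∈ E) (hb : b ∈ E) (hc : c ∈ E) (hd : d ∈ E)
    (ha' : a ∉ z) (hb' : b ∉ z) (hc' : c ∉ z) (hd' : d ∉ z) (hcard : z.card + 2 = r)
    (hab : a < b) (hbc : b < c) (hcd : c < d) : S3 f z a b c d := by
  have h := hf z a b c d hz ha hb hc hd ha' hb' hc' hd' hcard hab hbc hcd
  rw [us_xor_eq, us_xor_eq] at h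
  unfold S3
  have h1 : os a b = 1 := if_pos hab
  have h2 : os c d = 1 := if_pos hcd
  have h3 : os a c = 1 := if_pos (hab.trans hbc)
  have h4 : os b d = 1 := if_pos (hbc.trans hcd)
  have h5 : os a d = 1 := if_pos ((hab.trans hbc).trans hcd)
  have h6 : os b c = 1 := if_pos hbc
  rw [h1, h2, h3, h4, h5, h6]
  rintro ⟨g1, g2⟩
  rcases us_eq (f (add2 z a c)) with e1 | e1 <;> rcases us_eq (f (add2 z b d)) with e2 | e2 <;>
  rw [e1, e2] at h g1 <;> rcases h with h | h <;> omega

theorem S3_all {E : Finset (Fin N)} {r : ℕ} (hf : GP3 (fun i : Fin N => (i : ℕ)) E r f)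
    (a b c d : Fin N) (hz : z ⊆ E) (ha : a ∈ E) (hb : b ∈ E) (hc : c ∈ E) (hd : d ∈ E)
    (ha' : a ∉ z) (hb' : b ∉ z) (hc' : c ∉ z) (hd' : d ∉ z) (hcard : z.card + 2 = r)
    (hab : a ≠ b) (hac : a ≠ c) (had : a ≠ d) (hbc : b ≠ c) (hbd : b ≠ d) (hcd : c ≠ d) :
    S3 f z a b c d := by
  -- first case: a is smallest etc. we sort by adjacent swaps
  have key : ∀ a b c d : Fin N, a ∈ E → b ∈ E → c ∈ E → d ∈ E → a ∉ z → b ∉ z → c ∉ z → d ∉ z →
      a < b → b < c → c ≠ d → b ≠ d → a ≠ d → S3 f z a b c d := by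
    intro a b c d ha hb hc hd ha' hb' hc' hd' hab hbc hcd hbd had
    rcases lt_or_gt_of_ne hcd with h | h
    · exact S3_of_GP3 hf hz ha hb hc hd ha' hb' hc' hd' hcard hab hbc h
    · rcases lt_or_gt_of_ne hbd with h' | h'
      · exact S3_swap34 hcd.symm (S3_of_GP3 hf hz ha hb hd hc ha' hb' hd' hc' hcard hab h' h)
      · rcases lt_or_gt_of_ne had with h'' | h''
        · exact S3_swap34 hcd.symm (S3_swap23 hbd.symm
            (S3_of_GP3 hf hz ha hd hb hc ha' hd' hb' hc' hcard h'' h' hbc))
        · exact S3_swap34 hcd.symm (S3_swap23 hbd.symm (S3_swap12 had.symm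
            (S3_of_GP3 hf hz hd ha hb hc hd' ha' hb' hc' hcard h'' hab hbc)))
  rcases lt_or_gt_of_ne hab with h1 | h1
  · rcases lt_or_gt_of_ne hbc with h2 | h2
    · exact key a b c d ha hb hc hd ha' hb' hc' hd' h1 h2 hcd hbd had
    · rcases lt_or_gt_of_ne hac with h3 | h3
      · exact S3_swap23 hbc.symm (key a c b d ha hc hb hd ha' hc' hb' hd' h3 h2 hbd hcd had)
      · exact S3_swap23 hbc.symm (S3_swap12 hac.symm
          (key c a b d hc ha hb hd hc' ha' hb' hd' h3 h1 hbd had hcd))
  · rcases lt_or_gt_of_ne hac with h2 | h2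
    · exact S3_swap12 hab.symm (key b a c d hb ha hc hd hb' ha' hc' hd' h1 h2 hcd had hbd)
    · rcases lt_or_gt_of_ne hbc with h3 | h3
      · exact S3_swap12 hab.symm (S3_swap23 hac.symm
          (key b c a d hb hc ha hd hb' hc' ha' hd' h3 h2 had hcd hbd))
      · exact S3_swap12 hab.symm (S3_swap23 hac.symm (S3_swap12 hbc.symm
          (key c b a d hc hb ha hd hc' hb' ha' hd' h3 h1 had hbd hcd)))

end sym

/-- A finite nonempty set with a transitive total relation has a source. -/
theorem exists_source {α : Type*} [DecidableEq α] (S : Finset α) (R : α → α → Prop)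
    (htot : ∀ a ∈ S, ∀ b ∈ S, a ≠ b → R a b ∨ R b a)
    (htr : ∀ a ∈ S, ∀ b ∈ S, ∀ c ∈ S, a ≠ b → b ≠ c → a ≠ c → R a b → R b c → R a c)
    (hS : S.Nonempty) : ∃ e ∈ S, ∀ g ∈ S, g ≠ e → R e g := by
  induction S using Finset.induction_on with
  | empty => exact absurd hS (by simp)
  | @insert a T haT ih =>
    rcases T.eq_empty_or_nonempty with hT | hT
    · subst hT
      exact ⟨a, by simp, fun g hg hne => absurd (by simpa using hg) hne⟩
    · obtain ⟨e, heT, he⟩ := ih
        (fun a ha b hb => htot a (mem_insert_of_mem ha) b (mem_insert_of_mem hb))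
        (fun a ha b hb c hc => htr a (mem_insert_of_mem ha) b (mem_insert_of_mem hb) c
          (mem_insert_of_mem hc)) hT
      have hae : a ≠ e := fun h => haT (h ▸ heT)
      rcases htot a (mem_insert_self _ _) e (mem_insert_of_mem heT) hae with h | h
      · refine ⟨a, mem_insert_self _ _, fun g hg hne => ?_⟩
        rcases mem_insert.mp hg with rfl | hgT
        · exact absurd rfl hne
        · by_cases hge : g = e
          · subst hge; exact h
          · exact htr a (mem_insert_self _ _) e (mem_insert_of_mem heT) g hg hae (Ne.symm hge)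
              hne.symm h (he g hgT hge)
      · refine ⟨e, mem_insert_of_mem heT, fun g hg hne => ?_⟩
        rcases mem_insert.mp hg with rfl | hgT
        · exact h
        · exact he g hgT hne

section full

variable {N : ℕ} (f : Finset (Fin N) → Bool)

/-- sign of an element c with respect to e: minus if c is below e -/
def lo {N : ℕ} (c e : Fin N) : ℤ := if c < e then -1 else 1

theorem lo_eq {N : ℕ} (a b : Fin N) : lo a b = 1 ∨ lo a b = -1 := by
  unfold lo; split_ifs <;> simp

theorem lo_self {N : ℕ} (a : Fin N) : lo a a = 1 := by unfold lo; simp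

theorem lo_eq_neg_os {N : ℕ} {a b : Fin N} (h : a ≠ b) : lo a b = - os a b := by
  unfold lo os; split_ifs <;> simp

theorem lo_antisymm {N : ℕ} {a b : Fin N} (h : a ≠ b) : lo a b = - lo b a := by
  rw [lo_eq_neg_os h, lo_eq_neg_os h.symm, os_antisymm h]

/-- The term of the Grassmann-Pluecker relation of X and Y at e. -/
def T (X Y : Finset (Fin N)) (e : Fin N) : ℤ :=
  (∏ c ∈ X, lo c e) * (∏ c ∈ Y, lo c e) * (us (f (X.erase e)) * us (f (insert e Y)))

theorem prod_lo_eq (X : Finset (Fin N)) (e : Fin N) :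
    (∏ c ∈ X, lo c e) = 1 ∨ (∏ c ∈ X, lo c e) = -1 := by
  induction X using Finset.induction_on with
  | empty => simp
  | @insert a T haT ih =>
    rw [prod_insert haT]
    rcases lo_eq a e with h | h <;> rcases ih with h' | h' <;> rw [h, h'] <;> simp

theorem T_eq (X Y : Finset (Fin N)) (e : Fin N) : T f X Y e = 1 ∨ T f X Y e = -1 := by
  unfold T
  rcases prod_lo_eq X e with h | h <;> rcases prod_lo_eq Y e with h' | h' <;>
  rcases us_eq (f (X.erase e)) with h1 | h1 <;> rcases us_eq (f (insert e Y)) with h2 | h2 <;>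
  rw [h, h', h1, h2] <;> simp

variable {f}

/-- Full Grassmann-Pluecker relations at the level of sets. -/
theorem full_set {r : ℕ} (hf : GP3 (fun i : Fin N => (i : ℕ)) univ r f) :
    ∀ (m : ℕ) (X Y : Finset (Fin N)), (X \ Y).card = m + 2 → X.card = r + 1 → Y.card + 1 = r →
      ∃ e ∈ X \ Y, ∃ e' ∈ X \ Y, T f X Y e ≠ T f X Y e' := by
  intro m
  induction m with
  | zero =>
    intro X Y hm hX hY
    have hsub : Y ⊆ X := by
      have h1 := Finset.card_sdiff_add_card_inter X Y
      have h2 : (X ∩ Y).card = Y.card := by omega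
      have h3 : X ∩ Y = Y := Finset.eq_of_subset_of_card_le inter_subset_right (by omega)
      rw [← h3]; exact inter_subset_left
    obtain ⟨a, b, hab, hXY⟩ := Finset.card_eq_two.mp hm
    -- WLOG a < b
    wlog hlt : a < b generalizing a b
    · exact this b a hab.symm (by rw [hXY, Finset.pair_comm])
        (lt_of_le_of_ne (not_lt.mp hlt) hab.symm)
    have ha : a ∈ X \ Y := by rw [hXY]; simp
    have hb : b ∈ X \ Y := by rw [hXY]; simp
    have haY : a ∉ Y := (mem_sdiff.mp ha).2
    have hbY : b ∉ Y := (mem_sdiff.mp hb).2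
    have hXe : X = insert a (insert b Y) := by
      ext t
      have : t ∈ X \ Y ↔ t ∈ ({a, b} : Finset (Fin N)) := by rw [hXY]
      simp only [mem_sdiff, mem_insert, mem_singleton] at this ⊢
      constructor
      · intro ht
        by_cases htY : t ∈ Y
        · exact Or.inr (Or.inr htY)
        · rcases this.mp ⟨ht, htY⟩ with h | h
          · exact Or.inl h
          · exact Or.inr (Or.inl h)
      · rintro (h | h | h)
        · exact (this.mpr (Or.inl h)).1
        · exact (this.mpr (Or.inr h)).1
        · exact hsub h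
    refine ⟨a, ha, b, hb, ?_⟩
    have hbY' : a ∉ insert b Y := by simp [hab, haY]
    have e1 : X.erase a = insert b Y := by
      rw [hXe, erase_insert hbY']
    have e2 : X.erase b = insert a Y := by
      rw [hXe, Finset.insert_comm, erase_insert (by simp [hab.symm, hbY])]
    unfold T
    rw [e1, e2, hXe, prod_insert hbY', prod_insert hbY, prod_insert hbY', prod_insert hbY,
      lo_self, lo_self]
    have l1 : lo b a = 1 := by unfold lo; rw [if_neg (not_lt.mpr hlt.le)]
    have l2 : lo a b = -1 := by unfold lo; rw [if_pos hlt]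
    rw [l1, l2]
    rcases prod_lo_eq Y a with h | h <;> rcases prod_lo_eq Y b with h' | h' <;>
    rcases us_eq (f (insert b Y)) with h1 | h1 <;> rcases us_eq (f (insert a Y)) with h2 | h2 <;>
    rw [h, h', h1, h2] <;> norm_num
  | succ m ih =>
    intro X Y hm hX hY
    by_contra hcon
    push Not at hcon
    -- pick h in Y \ X
    have hYX : (Y \ X).Nonempty := by
      rw [← Finset.card_pos]
      have h1 := Finset.card_sdiff_add_card_inter X Y
      have h2 := Finset.card_sdiff_add_card_inter Y X
      rw [inter_comm] at h2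
      omega
    obtain ⟨h, hh⟩ := hYX
    have hhY : h ∈ Y := (mem_sdiff.mp hh).1
    have hhX : h ∉ X := (mem_sdiff.mp hh).2
    set S := X \ Y with hS
    have hSX : ∀ e ∈ S, e ∈ X := fun e he => (mem_sdiff.mp he).1
    have hSY : ∀ e ∈ S, e ∉ Y := fun e he => (mem_sdiff.mp he).2
    have hne : ∀ e ∈ S, h ≠ e := fun e he hx => hhX (hx ▸ hSX e he)
    -- tau and D
    let g : Fin N → Fin N → ℤ := fun e e' => us (f (insert h ((X.erase e).erase e')))
    let τ : Fin N → ℤ := fun e => lo h e * us (f (X.erase e))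
    let D : Fin N → Fin N → ℤ := fun e e' => lo e e' * g e e' * (τ e * τ e')
    have hgs : ∀ e e', g e e' = g e' e := fun e e' => by simp only [g]; rw [erase_right_comm]
    have hτ : ∀ e, τ e = 1 ∨ τ e = -1 := fun e => by
      simp only [τ]
      rcases lo_eq h e with a | a <;> rcases us_eq (f (X.erase e)) with b | b <;> rw [a, b] <;> simp
    have hg : ∀ e e', g e e' = 1 ∨ g e e' = -1 := fun e e' => us_eq _
    have hDeq : ∀ e e', D e e' = 1 ∨ D e e' = -1 := fun e e' => by
      simp only [D]
      rcases lo_eq e e' with a | a <;> rcases hg e e' with b | b <;> rcases hτ e with c | c <;>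
      rcases hτ e' with d | d <;> rw [a, b, c, d] <;> simp
    have hDanti : ∀ e e', e ≠ e' → D e e' = - D e' e := fun e e' hee => by
      simp only [D]; rw [lo_antisymm hee, hgs e e']; ring
    have hτ2 : ∀ e, τ e * τ e = 1 := fun e => by
      rcases hτ e with a | a <;> rw [a] <;> norm_num
    have htr : ∀ a ∈ S, ∀ b ∈ S, ∀ c ∈ S, a ≠ b → b ≠ c → a ≠ c →
        D a b = 1 → D b c = 1 → D a c = 1 := by
      intro a ha b hb c hc hab hbc hac h1 h2
      by_contra h3
      have h3' : D a c = -1 := (hDeq a c).resolve_left h3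
      set z := ((X.erase a).erase b).erase c with hz
      have haX := hSX a ha
      have hbX := hSX b hb
      have hcX := hSX c hc
      have hcard : z.card + 2 = r := by
        have hYpos : 0 < Y.card := Finset.card_pos.mpr ⟨h, hhY⟩
        rw [hz, card_erase_of_mem, card_erase_of_mem, card_erase_of_mem haX]
        · omega
        · exact mem_erase.mpr ⟨hab.symm, hbX⟩
        · exact mem_erase.mpr ⟨hbc.symm, mem_erase.mpr ⟨hac.symm, hcX⟩⟩
      have hS3 := S3_all (z := z) hf h a b c (subset_univ _) (mem_univ _) (mem_univ _) (mem_univ _)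
        (mem_univ _) (by rw [hz]; simp [hhX]) (by rw [hz]; simp) (by rw [hz]; simp)
        (by rw [hz]; simp) hcard (hne a ha) (hne b hb) (hne c hc) hab hac hbc
      have A1 : add2 z h a = insert h ((X.erase b).erase c) := by
        unfold add2; congr 1; ext t; simp only [hz, mem_insert, mem_erase]
        constructor
        · rintro (rfl | ⟨u1, u2, u3, u4⟩)
          · exact ⟨hac, hab, haX⟩
          · exact ⟨u1, u2, u4⟩
        · rintro ⟨u1, u2, u3⟩
          by_cases hta : t = a
          · exact Or.inl hta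
          · exact Or.inr ⟨u1, u2, hta, u3⟩
      have A2 : add2 z h b = insert h ((X.erase a).erase c) := by
        unfold add2; congr 1; ext t; simp only [hz, mem_insert, mem_erase]
        constructor
        · rintro (rfl | ⟨u1, u2, u3, u4⟩)
          · exact ⟨hbc, hab.symm, hbX⟩
          · exact ⟨u1, u3, u4⟩
        · rintro ⟨u1, u2, u3⟩
          by_cases hta : t = b
          · exact Or.inl hta
          · exact Or.inr ⟨u1, hta, u2, u3⟩
      have A3 : add2 z h c = insert h ((X.erase a).erase b) := by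
        unfold add2; congr 1; ext t; simp only [hz, mem_insert, mem_erase]
        constructor
        · rintro (rfl | ⟨u1, u2, u3, u4⟩)
          · exact ⟨hbc.symm, hac.symm, hcX⟩
          · exact ⟨u2, u3, u4⟩
        · rintro ⟨u1, u2, u3⟩
          by_cases hta : t = c
          · exact Or.inl hta
          · exact Or.inr ⟨hta, u1, u2, u3⟩
      have A4 : add2 z a b = X.erase c := by
        unfold add2; ext t; simp only [hz, mem_insert, mem_erase]
        constructor
        · rintro (rfl | rfl | ⟨u1, u2, u3, u4⟩)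
          · exact ⟨hac, haX⟩
          · exact ⟨hbc, hbX⟩
          · exact ⟨u1, u4⟩
        · rintro ⟨u1, u2⟩
          by_cases hta : t = a
          · exact Or.inl hta
          · by_cases htb : t = b
            · exact Or.inr (Or.inl htb)
            · exact Or.inr (Or.inr ⟨u1, htb, hta, u2⟩)
      have A5 : add2 z a c = X.erase b := by
        unfold add2; ext t; simp only [hz, mem_insert, mem_erase]
        constructor
        · rintro (rfl | rfl | ⟨u1, u2, u3, u4⟩)
          · exact ⟨hab, haX⟩
          · exact ⟨hbc.symm, hcX⟩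
          · exact ⟨u2, u4⟩
        · rintro ⟨u1, u2⟩
          by_cases hta : t = a
          · exact Or.inl hta
          · by_cases htb : t = c
            · exact Or.inr (Or.inl htb)
            · exact Or.inr (Or.inr ⟨htb, u1, hta, u2⟩)
      have A6 : add2 z b c = X.erase a := by
        unfold add2; ext t; simp only [hz, mem_insert, mem_erase]
        constructor
        · rintro (rfl | rfl | ⟨u1, u2, u3, u4⟩)
          · exact ⟨hab.symm, hbX⟩
          · exact ⟨hac.symm, hcX⟩
          · exact ⟨u3, u4⟩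
        · rintro ⟨u1, u2⟩
          by_cases hta : t = b
          · exact Or.inl hta
          · by_cases htb : t = c
            · exact Or.inr (Or.inl htb)
            · exact Or.inr (Or.inr ⟨htb, hta, u1, u2⟩)
      unfold S3 at hS3
      rw [A1, A2, A3, A4, A5, A6] at hS3
      have hos : ∀ p ∈ S, os h p * us (f (X.erase p)) = - τ p := fun p hp => by
        simp only [τ]; rw [lo_eq_neg_os (hne p hp)]; ring
      have k1 : os b c * g b c = - (D b c * (τ b * τ c)) := by
        simp only [D]; rw [lo_eq_neg_os hbc]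
        linear_combination (-(os b c * g b c)) * (hτ2 b * (τ c * τ c) + hτ2 c)
      have k2 : os a c * g a c = - (D a c * (τ a * τ c)) := by
        simp only [D]; rw [lo_eq_neg_os hac]
        linear_combination (-(os a c * g a c)) * (hτ2 a * (τ c * τ c) + hτ2 c)
      have k3 : os a b * g a b = - (D a b * (τ a * τ b)) := by
        simp only [D]; rw [lo_eq_neg_os hab]
        linear_combination (-(os a b * g a b)) * (hτ2 a * (τ b * τ b) + hτ2 b)
      rw [h2] at k1
      rw [h3'] at k2
      rw [h1] at k3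
      have T1 : os h a * os b c * (us (f (insert h ((X.erase b).erase c))) * us (f (X.erase a))) =
          τ a * τ b * τ c := by
        have : os h a * os b c * (us (f (insert h ((X.erase b).erase c))) * us (f (X.erase a))) =
          (os h a * us (f (X.erase a))) * (os b c * g b c) := by simp only [g]; ring
        rw [this, hos a ha, k1]; ring
      have T2 : os h b * os a c * (us (f (insert h ((X.erase a).erase c))) * us (f (X.erase b))) =
          - (τ a * τ b * τ c) := by
        have : os h b * os a c * (us (f (insert h ((X.erase a).erase c))) * us (f (X.erase b))) =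
          (os h b * us (f (X.erase b))) * (os a c * g a c) := by simp only [g]; ring
        rw [this, hos b hb, k2]; ring
      have T3 : os h c * os a b * (us (f (insert h ((X.erase a).erase b))) * us (f (X.erase c))) =
          τ a * τ b * τ c := by
        have : os h c * os a b * (us (f (insert h ((X.erase a).erase b))) * us (f (X.erase c))) =
          (os h c * us (f (X.erase c))) * (os a b * g a b) := by simp only [g]; ring
        rw [this, hos c hc, k3]; ring
      apply hS3
      rw [T1, T2, T3]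
      exact ⟨by ring, rfl⟩
    obtain ⟨e, heS, he⟩ := exists_source S (fun a b => D a b = 1)
      (fun a ha b hb hab => by
        rcases hDeq a b with h1 | h1
        · exact Or.inl h1
        · right; show D b a = 1; rw [hDanti b a hab.symm, h1]; norm_num)
      htr (by rw [← Finset.card_pos]; omega)
    have heX := hSX e heS
    -- the exchanged set
    have hX' : (insert h (X.erase e)) \ Y = S.erase e := by
      ext t; simp only [hS, mem_sdiff, mem_insert, mem_erase]
      constructor
      · rintro ⟨rfl | ⟨u1, u2⟩, u3⟩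
        · exact absurd hhY u3
        · exact ⟨u1, u2, u3⟩
      · rintro ⟨u1, u2, u3⟩
        exact ⟨Or.inr ⟨u1, u2⟩, u3⟩
    have hhXe : h ∉ X.erase e := fun hx => hhX (mem_of_mem_erase hx)
    obtain ⟨p, hp, p', hp', hpp⟩ := ih (insert h (X.erase e)) Y
      (by rw [hX', card_erase_of_mem heS]; omega)
      (by rw [card_insert_of_notMem hhXe, card_erase_of_mem heX]; omega) hY
    rw [hX'] at hp hp'
    have key : ∀ q ∈ S.erase e, T f (insert h (X.erase e)) Y q = T f X Y q * τ e := by
      intro q hq
      have hqe : q ≠ e := (mem_erase.mp hq).1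
      have hqS : q ∈ S := (mem_erase.mp hq).2
      have hD := he q hqS hqe
      have e1 : (insert h (X.erase e)).erase q = insert h ((X.erase e).erase q) := by
        ext t; simp only [mem_insert, mem_erase]
        constructor
        · rintro ⟨u1, u2 | u2⟩
          · exact Or.inl u2
          · exact Or.inr ⟨u1, u2⟩
        · rintro (u1 | u1)
          · exact ⟨fun hx => hne q hqS (u1 ▸ hx), Or.inl u1⟩
          · exact ⟨u1.1, Or.inr u1.2⟩
      have e2 : ∏ c ∈ X, lo c q = lo e q * ∏ c ∈ X.erase e, lo c q :=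
        (Finset.mul_prod_erase X _ heX).symm
      unfold T
      rw [e1, prod_insert hhXe, e2]
      have hD' : lo e q * g e q * (τ e * τ q) = 1 := hD
      have hG : g e q * g e q = 1 := by rcases hg e q with a | a <;> rw [a] <;> norm_num
      simp only [g, τ] at hD' hG ⊢
      generalize (∏ c ∈ X.erase e, lo c q) = P at *
      generalize (∏ c ∈ Y, lo c q) = Q at *
      generalize us (f (insert h ((X.erase e).erase q))) = G at *
      generalize us (f (X.erase q)) = Fq at *
      generalize us (f (insert q Y)) = W at *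
      generalize us (f (X.erase e)) = Fe at *
      have hl1 : lo h q * lo h q = 1 := by rcases lo_eq h q with a | a <;> rw [a] <;> norm_num
      linear_combination (P * Q * W) * (-(G * lo h q)) * hD' +
        P * Q * W * (lo e q * lo h e * Fe * Fq) * (lo h q * lo h q) * hG +
        P * Q * W * (lo e q * lo h e * Fe * Fq) * hl1
    exact hpp (by rw [key p hp, key p' hp', hcon p (mem_of_mem_erase hp) p' (mem_of_mem_erase hp')])

end full

section tuples

variable {N : ℕ}

/-- Vandermonde determinant of a tuple. -/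
def vd {r : ℕ} (x : Fin r → Fin N) : ℤ := (Matrix.vandermonde fun i => ((x i : ℕ) : ℤ)).det

/-- Vandermonde sign of a tuple: the sign of the sorting permutation, 0 if not injective. -/
def vs {r : ℕ} (x : Fin r → Fin N) : ℤ := Int.sign (vd x)

/-- The chirotope on tuples given by a sign function on sets. -/
def chi {r : ℕ} (f : Finset (Fin N) → Bool) (x : Fin r → Fin N) : ℤ :=
  vs x * us (f (univ.image x))

theorem vd_ne_zero {r : ℕ} (x : Fin r → Fin N) : vd x ≠ 0 ↔ Function.Injective x := by
  unfold vd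
  rw [Matrix.det_vandermonde_ne_zero_iff]
  constructor
  · intro h a b hab
    exact h (by simp [hab])
  · intro h a b hab
    apply h
    have : ((x a : ℕ) : ℤ) = ((x b : ℕ) : ℤ) := hab
    exact Fin.ext (by exact_mod_cast this)

theorem vs_cases {r : ℕ} (x : Fin r → Fin N) : vs x = 1 ∨ vs x = -1 ∨ vs x = 0 := by
  unfold vs
  rcases lt_trichotomy (vd x) 0 with h | h | h
  · rw [Int.sign_eq_neg_one_of_neg h]; simp
  · rw [h]; simp
  · rw [Int.sign_eq_one_of_pos h]; simp

theorem vs_ne_zero {r : ℕ} (x : Fin r → Fin N) : vs x ≠ 0 ↔ Function.Injective x := by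
  rw [← vd_ne_zero]; unfold vs
  rw [Ne, Int.sign_eq_zero_iff_zero]

theorem vs_sq {r : ℕ} {x : Fin r → Fin N} (h : Function.Injective x) : vs x * vs x = 1 := by
  have h1 := (vs_ne_zero x).mpr h
  rcases vs_cases x with a | a | a
  · rw [a]; norm_num
  · rw [a]; norm_num
  · exact absurd a h1

theorem vs_perm {r : ℕ} (σ : Equiv.Perm (Fin r)) (x : Fin r → Fin N) :
    vs (x ∘ σ) = (Equiv.Perm.sign σ : ℤ) * vs x := by
  unfold vs vd
  have h1 : (Matrix.vandermonde fun i => (((x ∘ σ) i : ℕ) : ℤ)) =
      (Matrix.vandermonde fun i => ((x i : ℕ) : ℤ)).submatrix σ id := by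
    ext i j; simp [Matrix.vandermonde_apply]
  rw [h1, Matrix.det_permute, Int.sign_mul]
  congr 1
  rcases Int.units_eq_one_or (Equiv.Perm.sign σ) with h | h <;> rw [h] <;> simp

theorem isign_prod {ι : Type*} (s : Finset ι) (g : ι → ℤ) :
    Int.sign (∏ i ∈ s, g i) = ∏ i ∈ s, Int.sign (g i) := by
  classical
  induction s using Finset.induction_on with
  | empty => simp
  | @insert a T haT ih => rw [prod_insert haT, prod_insert haT, Int.sign_mul, ih]

theorem vs_cons {r : ℕ} (a : Fin N) (w : Fin r → Fin N) :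
    vs (Fin.cons a w : Fin (r + 1) → Fin N) =
      (∏ j, Int.sign (((w j : ℕ) : ℤ) - ((a : ℕ) : ℤ))) * vs w := by
  unfold vs vd
  rw [Matrix.det_vandermonde, Matrix.det_vandermonde, Fin.prod_univ_succ, Int.sign_mul]
  congr 1
  · rw [Fin.prod_Ioi_zero, isign_prod]
    simp
  · congr 1
    apply Finset.prod_congr rfl
    intro i _
    rw [Fin.prod_Ioi_succ]
    simp

theorem isign_lo {c e : Fin N} (h : c ≠ e) :
    Int.sign (((c : ℕ) : ℤ) - ((e : ℕ) : ℤ)) = lo c e := by
  unfold lo
  rcases lt_or_gt_of_ne h with h1 | h1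
  · rw [if_pos h1]
    apply Int.sign_eq_neg_one_of_neg
    have : (c : ℕ) < (e : ℕ) := h1
    omega
  · rw [if_neg (not_lt.mpr h1.le)]
    apply Int.sign_eq_one_of_pos
    have : (e : ℕ) < (c : ℕ) := h1
    omega

theorem vs_cons' {r : ℕ} (a : Fin N) (w : Fin r → Fin N) (hw : Function.Injective w)
    (ha : a ∉ univ.image w) :
    vs (Fin.cons a w : Fin (r + 1) → Fin N) = (∏ c ∈ univ.image w, lo c a) * vs w := by
  rw [vs_cons, Finset.prod_image (fun i _ j _ h => hw h)]
  congr 1
  apply Finset.prod_congr rfl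
  intro j _
  exact isign_lo (fun h => ha (mem_image.mpr ⟨j, mem_univ _, h⟩))

theorem prod_lo_sq (X : Finset (Fin N)) (e : Fin N) :
    (∏ c ∈ X, lo c e) * (∏ c ∈ X, lo c e) = 1 := by
  rcases prod_lo_eq X e with h | h <;> rw [h] <;> norm_num

theorem image_succAbove {k : ℕ} {x : Fin (k + 2) → Fin N} (hx : Function.Injective x)
    (i : Fin (k + 2)) : univ.image (x ∘ Fin.succAbove i) = (univ.image x).erase (x i) := by
  ext t
  simp only [mem_image, mem_univ, true_and, mem_erase, Function.comp]
  constructor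
  · rintro ⟨j, rfl⟩
    exact ⟨fun h => Fin.succAbove_ne i j (hx h), ⟨_, rfl⟩⟩
  · rintro ⟨h1, j, rfl⟩
    have hji : j ≠ i := fun h => h1 (by rw [h])
    obtain ⟨j', rfl⟩ := Fin.exists_succAbove_eq hji
    exact ⟨j', rfl⟩

theorem vs_succAbove {k : ℕ} {x : Fin (k + 2) → Fin N} (hx : Function.Injective x)
    (i : Fin (k + 2)) :
    (-1 : ℤ) ^ (i : ℕ) * vs (x ∘ Fin.succAbove i) = vs x * ∏ c ∈ univ.image x, lo c (x i) := by
  have h1 : (Fin.cons (x i) (x ∘ Fin.succAbove i) : Fin (k + 2) → Fin N) =
      x ∘ (i.cycleRange.symm : Equiv.Perm (Fin (k + 2))) := by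
    ext j
    refine Fin.cases ?_ (fun j' => ?_) j
    · simp [Fin.cycleRange_symm_zero]
    · simp [Fin.cycleRange_symm_succ]
  have h2 := vs_cons' (x i) (x ∘ Fin.succAbove i) (hx.comp Fin.succAbove_right_injective)
    (by rw [image_succAbove hx]; simp)
  rw [h1, vs_perm, Equiv.Perm.sign_symm, Fin.sign_cycleRange, image_succAbove hx] at h2
  have h3 : ∏ c ∈ univ.image x, lo c (x i) = ∏ c ∈ (univ.image x).erase (x i), lo c (x i) := by
    rw [← Finset.mul_prod_erase (univ.image x) _ (mem_image.mpr ⟨i, mem_univ _, rfl⟩), lo_self,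
      one_mul]
  rw [h3]
  have h4 := prod_lo_sq ((univ.image x).erase (x i)) (x i)
  have h5 : ((-1 : ℤ) ^ (i : ℕ)) * ((-1 : ℤ) ^ (i : ℕ)) = 1 := by
    rw [← pow_add, ← two_mul, pow_mul]; norm_num
  push_cast at h2
  generalize (∏ c ∈ (univ.image x).erase (x i), lo c (x i)) = P at *
  generalize ((-1 : ℤ) ^ (i : ℕ)) = s at *
  linear_combination (-(s * vs (x ∘ i.succAbove))) * h4 - s * P * h2 + vs x * P * h5

end tuples

section gp

variable {N : ℕ} (f : Finset (Fin N) → Bool)

theorem us_ne_zero (b : Bool) : us b ≠ 0 := by cases b <;> simp [us]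

theorem chi_cases {r : ℕ} (x : Fin r → Fin N) : chi f x = 1 ∨ chi f x = -1 ∨ chi f x = 0 := by
  unfold chi
  rcases vs_cases x with h | h | h <;> rcases us_eq (f (univ.image x)) with h' | h' <;>
  rw [h, h'] <;> simp

theorem chi_ne_zero {r : ℕ} (x : Fin r → Fin N) : chi f x ≠ 0 ↔ Function.Injective x := by
  unfold chi
  rw [← vs_ne_zero]
  constructor
  · intro h h'; exact h (by rw [h']; simp)
  · intro h; exact mul_ne_zero h (us_ne_zero _)

theorem chi_eq_zero {r : ℕ} {x : Fin r → Fin N} (h : ¬ Function.Injective x) : chi f x = 0 := by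
  by_contra h'; exact h ((chi_ne_zero f x).mp h')

theorem chi_perm {r : ℕ} (σ : Equiv.Perm (Fin r)) (x : Fin r → Fin N) :
    chi f (x ∘ σ) = (Equiv.Perm.sign σ : ℤ) * chi f x := by
  unfold chi
  rw [vs_perm]
  have : univ.image (x ∘ σ) = univ.image x := by
    ext t; simp only [mem_image, mem_univ, true_and, Function.comp]
    constructor
    · rintro ⟨j, rfl⟩; exact ⟨_, rfl⟩
    · rintro ⟨j, rfl⟩; exact ⟨σ.symm j, by simp⟩
  rw [this]; ring

/-- The i-th term of the Grassmann-Pluecker relation of x and y. -/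
def term {k : ℕ} (χ : (Fin (k + 1) → Fin N) → ℤ) (x : Fin (k + 2) → Fin N) (y : Fin k → Fin N)
    (i : Fin (k + 2)) : ℤ :=
  (-1 : ℤ) ^ (i : ℕ) * χ (x ∘ Fin.succAbove i) * χ (Matrix.vecCons (x i) y)

theorem vecCons_eq {k : ℕ} (a : Fin N) (y : Fin k → Fin N) :
    (Matrix.vecCons a y : Fin (k + 1) → Fin N) = Fin.cons a y := rfl

theorem image_cons {k : ℕ} (a : Fin N) (y : Fin k → Fin N) :
    univ.image (Fin.cons a y : Fin (k + 1) → Fin N) = insert a (univ.image y) := by
  ext t
  simp only [mem_image, mem_univ, true_and, mem_insert]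
  constructor
  · rintro ⟨j, rfl⟩
    refine Fin.cases ?_ (fun j' => ?_) j
    · simp
    · right; exact ⟨j', by simp⟩
  · rintro (rfl | ⟨j, rfl⟩)
    · exact ⟨0, by simp⟩
    · exact ⟨j.succ, by simp⟩

theorem cons_inj {k : ℕ} {a : Fin N} {y : Fin k → Fin N} (hy : Function.Injective y)
    (ha : a ∉ univ.image y) : Function.Injective (Fin.cons a y : Fin (k + 1) → Fin N) := by
  rw [Fin.cons_injective_iff]
  refine ⟨?_, hy⟩
  rintro ⟨j, hj⟩
  exact ha (mem_image.mpr ⟨j, mem_univ _, hj⟩)

theorem term_eq {k : ℕ} {x : Fin (k + 2) → Fin N} {y : Fin k → Fin N}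
    (hx : Function.Injective x) (hy : Function.Injective y) (i : Fin (k + 2))
    (hi : x i ∉ univ.image y) :
    term (chi f) x y i = vs x * vs y * T f (univ.image x) (univ.image y) (x i) := by
  unfold term chi T
  rw [vecCons_eq, vs_cons' _ _ hy hi, image_cons, image_succAbove hx]
  have h := vs_succAbove hx i
  linear_combination ((∏ c ∈ univ.image y, lo c (x i)) * vs y * us (f ((univ.image x).erase (x i))) *
    us (f (insert (x i) (univ.image y)))) * h

theorem term_zero {k : ℕ} {x : Fin (k + 2) → Fin N} {y : Fin k → Fin N} (i : Fin (k + 2))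
    (hi : x i ∈ univ.image y) : term (chi f) x y i = 0 := by
  unfold term
  rw [vecCons_eq, chi_eq_zero f (x := Fin.cons (x i) y), mul_zero]
  intro h
  rw [Fin.cons_injective_iff] at h
  apply h.1
  obtain ⟨j, _, hj⟩ := mem_image.mp hi
  exact ⟨j, hj⟩

theorem neg_one_pow_cases (n : ℕ) : ((-1 : ℤ) ^ n = 1) ∨ ((-1 : ℤ) ^ n = -1) :=
  neg_one_pow_eq_or ℤ n

theorem term_cases {k : ℕ} (x : Fin (k + 2) → Fin N) (y : Fin k → Fin N) (i : Fin (k + 2)) :
    term (chi f) x y i = 1 ∨ term (chi f) x y i = -1 ∨ term (chi f) x y i = 0 := by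
  unfold term
  rcases neg_one_pow_cases (i : ℕ) with h | h <;>
  rcases chi_cases f (x ∘ Fin.succAbove i) with h1 | h1 | h1 <;>
  rcases chi_cases f (Matrix.vecCons (x i) y) with h2 | h2 | h2 <;>
  rw [h, h1, h2] <;> simp

/-- the Grassmann-Pluecker condition -/
def GPc {k : ℕ} (χ : (Fin (k + 1) → Fin N) → ℤ) (x : Fin (k + 2) → Fin N) (y : Fin k → Fin N) :
    Prop :=
  (∀ i : Fin (k + 2), (-1 : ℤ) ^ (i : ℕ) * χ (x ∘ Fin.succAbove i) *
      χ (Matrix.vecCons (x i) y) = 0) ∨
  ((∃ i : Fin (k + 2), (-1 : ℤ) ^ (i : ℕ) * χ (x ∘ Fin.succAbove i) *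
      χ (Matrix.vecCons (x i) y) = 1) ∧
   (∃ i : Fin (k + 2), (-1 : ℤ) ^ (i : ℕ) * χ (x ∘ Fin.succAbove i) *
      χ (Matrix.vecCons (x i) y) = -1))

theorem vd_two {k : ℕ} {x : Fin (k + 2) → Fin N} {a b : Fin (k + 2)} (hab : a ≠ b)
    (hxab : x a = x b) (hinj : Function.Injective (x ∘ Fin.succAbove a)) :
    (-1 : ℤ) ^ (a : ℕ) * vd (x ∘ Fin.succAbove a) + (-1 : ℤ) ^ (b : ℕ) * vd (x ∘ Fin.succAbove b)
      = 0 := by
  classical
  let A : Matrix (Fin (k + 2)) (Fin (k + 2)) ℤ := fun i =>
    Fin.cons (if x i = x a then (1 : ℤ) else 0) (fun j' : Fin (k + 1) => ((x i : ℕ) : ℤ) ^ (j' : ℕ))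
  have h0 : A.det = 0 := Matrix.det_zero_of_row_eq hab (by simp only [A, hxab])
  rw [Matrix.det_succ_column_zero] at h0
  have hsub : ∀ i, (A.submatrix i.succAbove Fin.succ).det = vd (x ∘ Fin.succAbove i) := by
    intro i
    unfold vd
    congr 1
  have hz : ∀ i ∈ (univ : Finset (Fin (k + 2))), i ≠ a ∧ i ≠ b →
      (-1 : ℤ) ^ (i : ℕ) * A i 0 * (A.submatrix i.succAbove Fin.succ).det = 0 := by
    intro i _ ⟨hia, hib⟩
    have hne : x i ≠ x a := by
      intro hh
      obtain ⟨i', hi'⟩ := Fin.exists_succAbove_eq hia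
      obtain ⟨b', hb'⟩ := Fin.exists_succAbove_eq hab.symm
      have : i' = b' := hinj (by simp only [Function.comp, hi', hb']; rw [hh, hxab])
      apply hib
      rw [← hi', ← hb', this]
    have : A i 0 = 0 := by simp only [A, Fin.cons_zero]; rw [if_neg hne]
    rw [this]; ring
  rw [Finset.sum_eq_add a b hab hz (fun h => absurd (mem_univ _) h)
    (fun h => absurd (mem_univ _) h), hsub, hsub] at h0
  have e1 : A a 0 = 1 := by simp [A]
  have e2 : A b 0 = 1 := by simp [A, hxab]
  rw [e1, e2] at h0
  linarith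

theorem image_succAbove_dup {k : ℕ} {x : Fin (k + 2) → Fin N} {a b : Fin (k + 2)} (hab : a ≠ b)
    (hxab : x a = x b) : univ.image (x ∘ Fin.succAbove a) = univ.image x := by
  ext t
  simp only [mem_image, mem_univ, true_and, Function.comp]
  constructor
  · rintro ⟨j, rfl⟩; exact ⟨_, rfl⟩
  · rintro ⟨j, rfl⟩
    by_cases hja : j = a
    · obtain ⟨b', hb'⟩ := Fin.exists_succAbove_eq hab.symm
      exact ⟨b', by rw [hb', hja, hxab]⟩
    · obtain ⟨j', hj'⟩ := Fin.exists_succAbove_eq hja
      exact ⟨j', by rw [hj']⟩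

theorem isign_pow (i : ℕ) (v : ℤ) : Int.sign ((-1 : ℤ) ^ i * v) = (-1 : ℤ) ^ i * Int.sign v := by
  rcases neg_one_pow_cases i with h | h <;> rw [h] <;> simp

theorem term_dup {k : ℕ} {x : Fin (k + 2) → Fin N} (y : Fin k → Fin N) {a b : Fin (k + 2)}
    (hab : a ≠ b) (hxab : x a = x b) (hinj : Function.Injective (x ∘ Fin.succAbove a)) :
    term (chi f) x y b = - term (chi f) x y a := by
  have h := vd_two hab hxab hinj
  have h1 : (-1 : ℤ) ^ (b : ℕ) * vs (x ∘ Fin.succAbove b) =
      - ((-1 : ℤ) ^ (a : ℕ) * vs (x ∘ Fin.succAbove a)) := by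
    unfold vs
    rw [← isign_pow, ← isign_pow, ← Int.sign_neg]
    congr 1
    linarith
  unfold term chi
  rw [image_succAbove_dup hab hxab, image_succAbove_dup hab.symm hxab.symm, hxab]
  linear_combination (us (f (univ.image x)) *
    (vs (Matrix.vecCons (x b) y) * us (f (univ.image (Matrix.vecCons (x b) y))))) * h1

variable {f}

theorem gp_of_GP3 {k : ℕ} (hf : GP3 (fun i : Fin N => (i : ℕ)) univ (k + 1) f)
    (x : Fin (k + 2) → Fin N) (y : Fin k → Fin N) : GPc (chi f) x y := by
  show (∀ i, term (chi f) x y i = 0) ∨ ((∃ i, term (chi f) x y i = 1) ∧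
    (∃ i, term (chi f) x y i = -1))
  by_cases hall : ∀ i, term (chi f) x y i = 0
  · exact Or.inl hall
  · right
    push Not at hall
    obtain ⟨a, ha⟩ := hall
    by_cases hx : Function.Injective x
    · by_cases hy : Function.Injective y
      · have hXc : (univ.image x).card = k + 1 + 1 := by
          rw [Finset.card_image_of_injective _ hx]; simp
        have hYc : (univ.image y).card + 1 = k + 1 := by
          rw [Finset.card_image_of_injective _ hy]; simp
        have hm : 2 ≤ (univ.image x \ univ.image y).card := by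
          have := Finset.le_card_sdiff (univ.image y) (univ.image x)
          omega
        obtain ⟨e, he, e', he', hT⟩ := full_set hf ((univ.image x \ univ.image y).card - 2)
          (univ.image x) (univ.image y) (by omega) hXc hYc
        obtain ⟨heX, heY⟩ := mem_sdiff.mp he
        obtain ⟨heX', heY'⟩ := mem_sdiff.mp he'
        obtain ⟨i, _, rfl⟩ := mem_image.mp heX
        obtain ⟨i', _, rfl⟩ := mem_image.mp heX'
        have t1 := term_eq f hx hy i heY
        have t2 := term_eq f hx hy i' heY'
        have hc : vs x * vs y = 1 ∨ vs x * vs y = -1 := by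
          have h1 := vs_sq hx
          have h2 := vs_sq hy
          have h3 : (vs x * vs y) * (vs x * vs y) = 1 := by linear_combination vs y * vs y * h1 + h2
          rcases Int.mul_eq_one_iff_eq_one_or_neg_one.mp h3 with h | h
          · exact Or.inl h.1
          · exact Or.inr h.1
        rcases T_eq f (univ.image x) (univ.image y) (x i) with u | u <;>
        rcases T_eq f (univ.image x) (univ.image y) (x i') with u' | u' <;>
        rcases hc with c | c <;> rw [c, u] at t1 <;> rw [c, u'] at t2
        · exact absurd (u.trans u'.symm) hT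
        · exact absurd (u.trans u'.symm) hT
        · exact ⟨⟨i, by rw [t1]; norm_num⟩, ⟨i', by rw [t2]; norm_num⟩⟩
        · exact ⟨⟨i', by rw [t2]; norm_num⟩, ⟨i, by rw [t1]; norm_num⟩⟩
        · exact ⟨⟨i', by rw [t2]; norm_num⟩, ⟨i, by rw [t1]; norm_num⟩⟩
        · exact ⟨⟨i, by rw [t1]; norm_num⟩, ⟨i', by rw [t2]; norm_num⟩⟩
        · exact absurd (u.trans u'.symm) hT
        · exact absurd (u.trans u'.symm) hT
      · exfalso
        apply ha
        unfold term
        rw [vecCons_eq, chi_eq_zero f (x := Fin.cons (x a) y), mul_zero]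
        intro h
        rw [Fin.cons_injective_iff] at h
        exact hy h.2
    · -- x is not injective
      have hinj : Function.Injective (x ∘ Fin.succAbove a) := by
        by_contra h
        apply ha
        unfold term
        rw [chi_eq_zero f h]; ring
      have hex : ∃ p q, x p = x q ∧ p ≠ q := by
        unfold Function.Injective at hx
        push Not at hx
        exact hx
      obtain ⟨p, q, hpq, hne⟩ := hex
      have hb : ∃ b, a ≠ b ∧ x a = x b := by
        by_cases hpa : p = a
        · subst hpa; exact ⟨q, hne, hpq⟩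
        · by_cases hqa : q = a
          · subst hqa; exact ⟨p, hne.symm, hpq.symm⟩
          · exfalso
            obtain ⟨p', hp'⟩ := Fin.exists_succAbove_eq hpa
            obtain ⟨q', hq'⟩ := Fin.exists_succAbove_eq hqa
            have : p' = q' := hinj (by simp only [Function.comp, hp', hq']; exact hpq)
            exact hne (by rw [← hp', ← hq', this])
      obtain ⟨b, hab, hxab⟩ := hb
      have hd := term_dup f y hab hxab hinj
      rcases term_cases f x y a with h | h | h
      · exact ⟨⟨a, h⟩, ⟨b, by rw [hd, h]⟩⟩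
      · exact ⟨⟨b, by rw [hd, h]; norm_num⟩, ⟨a, h⟩⟩
      · exact absurd h ha

end gp

section bridge

variable {N : ℕ} {f : Finset (Fin N) → Bool}

theorem flip_chi {k : ℕ} (I : Finset (Fin N)) (z : Fin (k + 1) → Fin N) :
    chi (flip f I) z = if univ.image z = I then - chi f z else chi f z := by
  unfold chi flip
  by_cases h : univ.image z = I
  · rw [if_pos h, if_pos h, us_not]; ring
  · rw [if_neg h, if_neg h]

/-- a violated three-term relation violates a Grassmann-Pluecker relation on tuples -/
theorem not_gp_of_not_GP3 {k : ℕ} (h : ¬ GP3 (fun i : Fin N => (i : ℕ)) univ (k + 1) f) :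
    ∃ (x : Fin (k + 2) → Fin N) (y : Fin k → Fin N), ¬ GPc (chi f) x y := by
  unfold GP3 at h
  push Not at h
  obtain ⟨z, a, b, c, d, -, -, -, -, -, ha, hb, hc, hd, hz, hab, hbc, hcd, hne1, hne2⟩ := h
  have hab : a < b := hab
  have hbc : b < c := hbc
  have hcd : c < d := hcd
  have hac := hab.trans hbc
  have hbd := hbc.trans hcd
  have had := hac.trans hcd
  set X : Finset (Fin N) := insert b (insert c (insert d z)) with hX
  set Y : Finset (Fin N) := insert a z with hY
  have n1 : c ∉ insert d z := by simp [hcd.ne, hc]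
  have n2 : b ∉ insert c (insert d z) := by simp [hbc.ne, hbd.ne, hb]
  have hXc : X.card = k + 2 := by
    rw [hX, card_insert_of_notMem n2, card_insert_of_notMem n1, card_insert_of_notMem hd]; omega
  have hYc : Y.card = k := by rw [hY, card_insert_of_notMem ha]; omega
  let x : Fin (k + 2) → Fin N := X.orderEmbOfFin hXc
  let y : Fin k → Fin N := Y.orderEmbOfFin hYc
  have hx : Function.Injective x := (X.orderEmbOfFin hXc).injective
  have hy : Function.Injective y := (Y.orderEmbOfFin hYc).injective
  have hxi : univ.image x = X := Finset.image_orderEmbOfFin_univ X hXc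
  have hyi : univ.image y = Y := Finset.image_orderEmbOfFin_univ Y hYc
  refine ⟨x, y, ?_⟩
  -- values of T
  have eb : X.erase b = add2 z c d := by rw [hX, erase_insert n2]; rfl
  have ec : X.erase c = add2 z b d := by
    rw [hX, Finset.insert_comm, erase_insert (by simp [hbc.ne', hcd.ne, hc])]; rfl
  have ed : X.erase d = add2 z b c := by
    ext t; simp only [hX, add2, mem_erase, mem_insert]
    constructor
    · rintro ⟨u, rfl | rfl | rfl | v⟩
      · exact Or.inl rfl
      · exact Or.inr (Or.inl rfl)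
      · exact absurd rfl u
      · exact Or.inr (Or.inr v)
    · rintro (rfl | rfl | v)
      · exact ⟨hbd.ne, Or.inl rfl⟩
      · exact ⟨hcd.ne, Or.inr (Or.inl rfl)⟩
      · exact ⟨fun hh => hd (hh ▸ v), Or.inr (Or.inr (Or.inr v))⟩
  have ib : insert b Y = add2 z a b := by rw [hY, Finset.insert_comm]; rfl
  have ic : insert c Y = add2 z a c := by rw [hY, Finset.insert_comm]; rfl
  have id' : insert d Y = add2 z a d := by rw [hY, Finset.insert_comm]; rfl
  have lt1 : ∀ {p q : Fin N}, p < q → lo p q = -1 := fun h => if_pos h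
  have gt1 : ∀ {p q : Fin N}, q < p → lo p q = 1 := fun h => if_neg (not_lt.mpr h.le)
  have Tb : T f X Y b = - (us (f (add2 z a b)) * us (f (add2 z c d))) := by
    unfold T
    rw [eb, ib, hX, hY, prod_insert n2, prod_insert n1, prod_insert hd, prod_insert ha,
      lo_self, gt1 hbc, gt1 hbd, lt1 hab]
    have := prod_lo_sq z b
    linear_combination (-(us (f (add2 z a b)) * us (f (add2 z c d)))) * this
  have Tc : T f X Y c = us (f (add2 z a c)) * us (f (add2 z b d)) := by
    unfold T
    rw [ec, ic, hX, hY, prod_insert n2, prod_insert n1, prod_insert hd, prod_insert ha,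
      lo_self, lt1 hbc, gt1 hcd, lt1 hac]
    have := prod_lo_sq z c
    linear_combination (us (f (add2 z a c)) * us (f (add2 z b d))) * this
  have Td : T f X Y d = - (us (f (add2 z a d)) * us (f (add2 z b c))) := by
    unfold T
    rw [ed, id', hX, hY, prod_insert n2, prod_insert n1, prod_insert hd, prod_insert ha,
      lo_self, lt1 hbd, lt1 hcd, lt1 had]
    have := prod_lo_sq z d
    linear_combination (-(us (f (add2 z a d)) * us (f (add2 z b c)))) * this
  -- all three are equal
  have hTc : ∀ e ∈ X \ Y, T f X Y e = T f X Y c := by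
    intro e he
    obtain ⟨he1, he2⟩ := mem_sdiff.mp he
    rw [Ne, us_xor_eq] at hne1 hne2
    have hez : e = b ∨ e = c ∨ e = d := by
      rw [hX] at he1
      simp only [mem_insert] at he1
      rcases he1 with h | h | h | h
      · exact Or.inl h
      · exact Or.inr (Or.inl h)
      · exact Or.inr (Or.inr h)
      · exact absurd (mem_insert_of_mem h) he2
    rcases hez with rfl | rfl | rfl
    · rw [Tb, Tc]
      rcases us_eq (f (add2 z a e)) with u1 | u1 <;> rcases us_eq (f (add2 z c d)) with u2 | u2 <;>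
      rcases us_eq (f (add2 z a c)) with u3 | u3 <;> rcases us_eq (f (add2 z e d)) with u4 | u4 <;>
      rw [u1, u2, u3, u4] at hne1 <;> rw [u1, u2, u3, u4] <;> omega
    · rfl
    · rw [Td, Tc]
      rcases us_eq (f (add2 z a e)) with u1 | u1 <;> rcases us_eq (f (add2 z b c)) with u2 | u2 <;>
      rcases us_eq (f (add2 z a c)) with u3 | u3 <;> rcases us_eq (f (add2 z b e)) with u4 | u4 <;>
      rw [u1, u2, u3, u4] at hne2 <;> rw [u1, u2, u3, u4] <;> omega
  have hterm : ∀ i, x i ∉ Y → term (chi f) x y i = vs x * vs y * T f X Y c := by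
    intro i hi
    rw [term_eq f hx hy i (by rw [hyi]; exact hi), hxi, hyi, hTc (x i)]
    exact mem_sdiff.mpr ⟨by rw [← hxi]; exact mem_image.mpr ⟨i, mem_univ _, rfl⟩, hi⟩
  have hterm0 : ∀ i, x i ∈ Y → term (chi f) x y i = 0 := by
    intro i hi
    exact term_zero f i (by rw [hyi]; exact hi)
  show ¬ ((∀ i, term (chi f) x y i = 0) ∨ ((∃ i, term (chi f) x y i = 1) ∧
    (∃ i, term (chi f) x y i = -1)))
  have hK : vs x * vs y * T f X Y c ≠ 0 := by
    refine mul_ne_zero (mul_ne_zero ((vs_ne_zero x).mpr hx) ((vs_ne_zero y).mpr hy)) ?_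
    rcases T_eq f X Y c with u | u <;> rw [u] <;> norm_num
  rintro (h0 | ⟨⟨i, hi⟩, ⟨j, hj⟩⟩)
  · have hbX : b ∈ univ.image x := by rw [hxi, hX]; exact mem_insert_self _ _
    obtain ⟨i, _, hib⟩ := mem_image.mp hbX
    have hbY : b ∉ Y := by rw [hY]; simp [hab.ne', hb]
    have := hterm i (by rw [hib]; exact hbY)
    rw [h0 i] at this
    exact hK this.symm
  · have h1 : x i ∉ Y := fun hh => by rw [hterm0 i hh] at hi; norm_num at hi
    have h2 : x j ∉ Y := fun hh => by rw [hterm0 j hh] at hj; norm_num at hj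
    rw [hterm i h1] at hi
    rw [hterm j h2, hi] at hj
    norm_num at hj

/-- MAIN BRIDGE: a mutation-free set-level chirotope refutes the simplex conjecture, in the exact
form of the negated statement. -/
theorem of_GP3 {k : ℕ} (hk : k + 1 ≤ N) (hf : GP3 (fun i : Fin N => (i : ℕ)) univ (k + 1) f)
    (hm : ∀ B : Finset (Fin N), B.card = k + 1 →
      ¬ GP3 (fun i : Fin N => (i : ℕ)) univ (k + 1) (flip f B)) :
    ¬ (∀ k n : ℕ, k + 1 ≤ n →
    ∀ χ : (Fin (k + 1) → Fin n) → ℤ,
      (∀ x, χ x = 1 ∨ χ x = -1 ∨ χ x = 0) →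
      (∀ x, χ x ≠ 0 ↔ Function.Injective x) →
      (∀ σ : Equiv.Perm (Fin (k + 1)), ∀ x : Fin (k + 1) → Fin n,
          χ (x ∘ σ) = (Equiv.Perm.sign σ : ℤ) * χ x) →
      (∀ x : Fin (k + 2) → Fin n, ∀ y : Fin k → Fin n,
          (∀ i : Fin (k + 2),
              (-1 : ℤ) ^ (i : ℕ) * χ (x ∘ Fin.succAbove i) * χ (Matrix.vecCons (x i) y) = 0) ∨
          ((∃ i : Fin (k + 2),
              (-1 : ℤ) ^ (i : ℕ) * χ (x ∘ Fin.succAbove i) * χ (Matrix.vecCons (x i) y) = 1) ∧
           (∃ i : Fin (k + 2),
              (-1 : ℤ) ^ (i : ℕ) * χ (x ∘ Fin.succAbove i) * χ (Matrix.vecCons (x i) y) = -1))) →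
      ∃ I : Finset (Fin n), I.card = k + 1 ∧
        ∀ χ' : (Fin (k + 1) → Fin n) → ℤ,
          (∀ z : Fin (k + 1) → Fin n,
              χ' z = if Finset.univ.image z = I then -χ z else χ z) →
          ∀ x : Fin (k + 2) → Fin n, ∀ y : Fin k → Fin n,
            (∀ i : Fin (k + 2),
                (-1 : ℤ) ^ (i : ℕ) * χ' (x ∘ Fin.succAbove i) * χ' (Matrix.vecCons (x i) y) = 0) ∨
            ((∃ i : Fin (k + 2),
                (-1 : ℤ) ^ (i : ℕ) * χ' (x ∘ Fin.succAbove i) * χ' (Matrix.vecCons (x i) y) = 1) ∧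
             (∃ i : Fin (k + 2),
                (-1 : ℤ) ^ (i : ℕ) * χ' (x ∘ Fin.succAbove i) * χ' (Matrix.vecCons (x i) y) = -1))) := by
  intro H
  obtain ⟨I, hI, hI'⟩ := H k N hk (chi f) (chi_cases f) (chi_ne_zero f) (chi_perm f)
    (fun x y => gp_of_GP3 hf x y)
  obtain ⟨x, y, hxy⟩ := not_gp_of_not_GP3 (hm I hI)
  exact hxy (hI' (chi (flip f I)) (fun z => flip_chi I z) x y)

end bridge

end Pool.Agent.Simplex
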