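import Pool.Agent.Work.MP_f99e36_co.MaskEval
import Pool.Agent.Work.MP_f99e36_co.PathThm

/-!
Kernel-friendly checker, part 1: data of an array as numerals, fast sign evaluation.
-/

set_option autoImplicit false

namespace Pool.Agent.Simplex

/-- evaluation to a numeral before continuing -/
def sq {α : Type} (n : ℕ) (f : ℕ → α) : α :=
  Nat.rec (motive := fun _ => α) (f 0) (fun k _ => f k) (Nat.succ n)

theorem sq_eq {α : Type} (n : ℕ) (f : ℕ → α) : sq n f = f n := by
  unfold sq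
  rfl

/-- field of width 32 -/
def fld (t i : ℕ) : ℕ := Nat.land (Nat.shiftRight t (Nat.mul 32 i)) 4294967295

/-- field of width 32 of a power of two -/
def fldp (t i : ℕ) : ℕ :=
  Nat.land (Nat.shiftRight t (Nat.mul 32 (Nat.mod (Nat.pow 2 i) 37))) 4294967295

/-- xor of s with bit k of tab -/
def fl (tab k : ℕ) (s : Bool) : Bool :=
  cond (Nat.beq (Nat.land (Nat.shiftRight tab k) 1) 1) (not s) s

theorem fl_eq (tab k : ℕ) (s : Bool) : fl tab k s = (s ^^ tab.testBit k) := by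
  unfold fl
  have : Nat.beq (Nat.land (Nat.shiftRight tab k) 1) 1 = tab.testBit k := by
    rw [Nat.testBit_eq_decide_div_mod_eq]
    show Nat.beq ((tab >>> k) &&& 1) 1 = _
    rw [Nat.and_one_is_mod, Nat.shiftRight_eq_div_pow]
    by_cases h : tab / 2 ^ k % 2 = 1
    · rw [h]; rfl
    · have h0 : tab / 2 ^ k % 2 = 0 := by omega
      rw [h0]; rfl
  rw [this]
  cases tab.testBit k <;> cases s <;> rfl

theorem beq_false' {a b : ℕ} (h : a ≠ b) : Nat.beq a b = false := by
  rcases h' : Nat.beq a b with _ | _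
  · rfl
  · exact absurd (Nat.eq_of_beq_eq_true h') h

/-- one step of the evaluation -/
def evStep (ut vt tab : ℕ) (ih : ℕ → ℕ → ℕ → Bool → Bool) (X Y acc : ℕ) (s : Bool) : Bool :=
    cond (Nat.beq X 0) (fl tab acc s)
      (sq (Nat.land X (Nat.sub X 1)) fun X' =>
       sq (Nat.land Y (Nat.sub Y 1)) fun Y' =>
       sq (Nat.land (Nat.add (Nat.shiftRight ut (Nat.mul 32 (Nat.mod (Nat.xor X X') 37)))
        (Nat.shiftRight vt (Nat.mul 32 (Nat.mod (Nat.xor Y Y') 37)))) 4294967295) fun W =>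
       cond (Nat.ble (Nat.xor W acc) 4095)
        (sq (Nat.add acc (Nat.land W 4095)) fun acc' => ih X' Y' acc' s)
        (ih X' Y' W (fl tab acc s)))

/-- fast evaluation: pairs are read from the lowest bits of X and Y, acc is the table index of the
current run -/
def ev (ut vt tab : ℕ) (fuel : ℕ) : ℕ → ℕ → ℕ → Bool → Bool :=
  Nat.rec (motive := fun _ => ℕ → ℕ → ℕ → Bool → Bool)
   (fun _ _ acc s => fl tab acc s)
   (fun _ ih X Y acc s =>
    cond (Nat.beq X 0) (fl tab acc s)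
      (sq (Nat.land X (Nat.sub X 1)) fun X' =>
       sq (Nat.land Y (Nat.sub Y 1)) fun Y' =>
       sq (Nat.land (Nat.add (Nat.shiftRight ut (Nat.mul 32 (Nat.mod (Nat.xor X X') 37)))
        (Nat.shiftRight vt (Nat.mul 32 (Nat.mod (Nat.xor Y Y') 37)))) 4294967295) fun W =>
       cond (Nat.ble (Nat.xor W acc) 4095)
        (sq (Nat.add acc (Nat.land W 4095)) fun acc' => ih X' Y' acc' s)
        (ih X' Y' W (fl tab acc s)))) fuel

theorem ev_zero (ut vt tab X Y acc : ℕ) (s : Bool) :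
    ev ut vt tab 0 X Y acc s = (s ^^ tab.testBit acc) := fl_eq _ _ _

theorem ble_xor (W acc : ℕ) : Nat.ble (Nat.xor W acc) 4095 = decide (W >>> 12 = acc >>> 12) := by
  rw [Bool.eq_iff_iff, decide_eq_true_iff]
  have h : W >>> 12 = acc >>> 12 ↔ (W ^^^ acc) ≤ 4095 := by
    rw [← Nat.xor_eq_zero_iff, ← Nat.shiftRight_xor_distrib, Nat.shiftRight_eq_div_pow]
    omega
  rw [h]
  exact ⟨Nat.le_of_ble_eq_true, Nat.ble_eq_true_of_le⟩

/-- the sum of the fields of the lowest bits -/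
def wsum (ut vt X Y : ℕ) : ℕ :=
  ((ut >>> (32 * ((X ^^^ (X &&& (X - 1))) % 37))) +
    (vt >>> (32 * ((Y ^^^ (Y &&& (Y - 1))) % 37)))) &&& 4294967295

theorem evStep_eq (ut vt tab : ℕ) (ih : ℕ → ℕ → ℕ → Bool → Bool) (X Y acc : ℕ) (s : Bool) :
    evStep ut vt tab ih X Y acc s =
      if X = 0 then (s ^^ tab.testBit acc)
      else if wsum ut vt X Y >>> 12 = acc >>> 12 then
        ih (X &&& (X - 1)) (Y &&& (Y - 1)) (acc + (wsum ut vt X Y &&& 4095)) s
      else ih (X &&& (X - 1)) (Y &&& (Y - 1)) (wsum ut vt X Y) (s ^^ tab.testBit acc) := by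
  unfold evStep
  simp only [sq_eq, fl_eq]
  by_cases hX : X = 0
  · subst hX; rfl
  · rw [if_neg hX, beq_false' hX, cond_false, ble_xor]
    show cond (decide (wsum ut vt X Y >>> 12 = acc >>> 12)) _ _ = _
    by_cases h2 : wsum ut vt X Y >>> 12 = acc >>> 12
    · rw [if_pos h2, decide_eq_true h2]; rfl
    · rw [if_neg h2, decide_eq_false h2]; rfl

theorem ev_succ (ut vt tab n X Y acc : ℕ) (s : Bool) :
    ev ut vt tab (n + 1) X Y acc s =
      if X = 0 then (s ^^ tab.testBit acc)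
      else if wsum ut vt X Y >>> 12 = acc >>> 12 then
        ev ut vt tab n (X &&& (X - 1)) (Y &&& (Y - 1)) (acc + (wsum ut vt X Y &&& 4095)) s
      else ev ut vt tab n (X &&& (X - 1)) (Y &&& (Y - 1)) (wsum ut vt X Y)
        (s ^^ tab.testBit acc) := by
  rw [← evStep_eq]
  rfl

/-- data of an array -/
structure Dat where
  m : ℕ
  N : ℕ
  p : ℕ
  q : ℕ
  ut : ℕ
  vt : ℕ
  tab : ℕ

namespace Dat

variable (D : Dat)

/-- block row of the row with bit index e -/
def ra (e : ℕ) : ℕ := fldp D.ut e / 32768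
/-- local bit of the row with bit index e -/
def ub (e : ℕ) : ℕ := fldp D.ut e % 32768
/-- block column of the column with bit index y -/
def ca (y : ℕ) : ℕ := fldp D.vt y / 4096
/-- local bit of the column with bit index y -/
def vb (y : ℕ) : ℕ := fldp D.vt y % 4096

/-- local bits of a pair -/
def pb (p : ℕ × ℕ) : ℕ := D.ub (D.m - 1 - p.1) + D.vb (D.N - 1 - p.2)

/-- sum of the local bits of a list of pairs -/
def bsum (L : List (ℕ × ℕ)) : ℕ := (L.map D.pb).sum

/-- the array of the data -/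
def arr : Arr where
  m := D.m
  N := D.N
  rb := fun i => D.ra (D.m - 1 - i)
  cb := fun j => D.ca (D.N - 1 - j)
  bl := (List.range D.p) ×ˢ (List.range D.q)
  g := fun a b L => !L.isEmpty && D.tab.testBit ((8 * a + b) * 4096 + D.bsum L)

/-- the data is consistent -/
structure Good : Prop where
  m_le : D.m ≤ 32
  N_le : D.N ≤ 32
  m_pos : 0 < D.m
  N_pos : 0 < D.N
  p_pos : 0 < D.p
  q_pos : 0 < D.q
  p_le : D.p ≤ 8
  q_le : D.q ≤ 8
  tab_zero : D.tab.testBit 0 = false
  ra_lt : ∀ e, e < D.m → D.ra e < D.p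
  ca_lt : ∀ y, y < D.N → D.ca y < D.q
  ub_pow : ∀ e, e < D.m → D.ub e = 2 ^ (D.ub e).log2 ∧ D.ub e < 64
  vb_pow : ∀ y, y < D.N → D.vb y = 64 * 2 ^ (D.vb y / 64).log2 ∧ D.vb y < 4096
  ra_mono : ∀ e', e' < D.m → ∀ e, e < e' + 1 → D.ra e' ≤ D.ra e
  ca_mono : ∀ y', y' < D.N → ∀ y, y < y' + 1 → D.ca y' ≤ D.ca y
  ub_step : ∀ e', e' < D.m → ∀ e, e < e' + 1 → D.ra e = D.ra e' →
    (D.ub e).log2 + (e' - e) = (D.ub e').log2
  vb_step : ∀ y', y' < D.N → ∀ y, y < y' + 1 → D.ca y = D.ca y' →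
    (D.vb y / 64).log2 + (y' - y) = (D.vb y' / 64).log2
  ub_base : ∀ e', e' < D.m → ∀ e, e < e' + 1 → e' - e ≤ (D.ub e').log2 → D.ra e = D.ra e'
  vb_base : ∀ y', y' < D.N → ∀ y, y < y' + 1 → y' - y ≤ (D.vb y' / 64).log2 → D.ca y = D.ca y'

variable {D}

theorem wf (hG : D.Good) : D.arr.WF where
  rb_mono := by
    intro i j hij
    show D.ra (D.m - 1 - i) ≤ D.ra (D.m - 1 - j)
    exact hG.ra_mono _ (by have := hG.m_pos; omega) _ (by omega)
  cb_mono := by
    intro i j hij
    show D.ca (D.N - 1 - i) ≤ D.ca (D.N - 1 - j)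
    exact hG.ca_mono _ (by have := hG.N_pos; omega) _ (by omega)
  g_nil := by intro a b; rfl

theorem sum_pow_lt : ∀ (l : List ℕ) (k : ℕ), l.Pairwise (· > ·) → (∀ x ∈ l, ∃ j, x = 2 ^ j) →
    (∀ x ∈ l, x < 2 ^ k) → l.sum < 2 ^ k
  | [], k, _, _, _ => by simp
  | x :: t, k, h, hp, hk => by
    rw [List.pairwise_cons] at h
    obtain ⟨j, hj⟩ := hp x (by simp)
    have h1 : t.sum < 2 ^ j := sum_pow_lt t j h.2 (fun y hy => hp y (by simp [hy]))
      (fun y hy => by rw [← hj]; exact h.1 y hy)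
    have h2 : j < k := by
      have := hk x (by simp)
      rw [hj] at this
      exact (Nat.pow_lt_pow_iff_right (by norm_num)).mp this
    have h3 : 2 ^ (j + 1) ≤ 2 ^ k := Nat.pow_le_pow_right (by norm_num) h2
    rw [List.sum_cons, hj]
    rw [pow_succ] at h3
    omega

theorem bsum_lt (hG : D.Good) {P : List (ℕ × ℕ)} (hI : Arr.Inc P)
    (hv : ∀ p ∈ P, p.1 < D.m ∧ p.2 < D.N) {a b : ℕ}
    (hb : ∀ p ∈ P, D.ra (D.m - 1 - p.1) = a ∧ D.ca (D.N - 1 - p.2) = b) : D.bsum P < 4096 := by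
  have hsplit : D.bsum P = (P.map (fun p => D.ub (D.m - 1 - p.1))).sum +
      64 * (P.map (fun p => D.vb (D.N - 1 - p.2) / 64)).sum := by
    clear hI hb
    induction P with
    | nil => rfl
    | cons p t ih =>
      have h1 := ih (fun x hx => hv x (by simp [hx]))
      have h2 := (hG.vb_pow (D.N - 1 - p.2) (by have := hG.N_pos; omega)).1
      show D.pb p + D.bsum t = _
      rw [h1, List.map_cons, List.map_cons, List.sum_cons, List.sum_cons]
      unfold pb
      have h3 : D.vb (D.N - 1 - p.2) = 64 * (D.vb (D.N - 1 - p.2) / 64) := by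
        rw [h2]
        generalize 2 ^ (D.vb (D.N - 1 - p.2) / 64).log2 = z
        omega
      omega
  have h1 : (P.map (fun p => D.ub (D.m - 1 - p.1))).sum < 2 ^ 6 := by
    apply sum_pow_lt
    · rw [List.pairwise_map]
      refine List.Pairwise.imp_of_mem ?_ hI
      intro x y hx hy hxy
      have hs := hG.ub_step (D.m - 1 - x.1) (by have := hG.m_pos; omega) (D.m - 1 - y.1)
        (by omega) (by rw [(hb x hx).1, (hb y hy).1])
      have hx' := hv x hx
      have hy' := hv y hy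
      rw [(hG.ub_pow (D.m - 1 - x.1) (by omega)).1, (hG.ub_pow (D.m - 1 - y.1) (by omega)).1]
      exact Nat.pow_lt_pow_right (by norm_num) (by omega)
    · intro x hx
      obtain ⟨p, hp, rfl⟩ := List.mem_map.mp hx
      exact ⟨_, (hG.ub_pow (D.m - 1 - p.1) (by have := hG.m_pos; omega)).1⟩
    · intro x hx
      obtain ⟨p, hp, rfl⟩ := List.mem_map.mp hx
      exact (hG.ub_pow (D.m - 1 - p.1) (by have := hG.m_pos; omega)).2
  have h2 : (P.map (fun p => D.vb (D.N - 1 - p.2) / 64)).sum < 2 ^ 6 := by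
    have hdiv : ∀ y, y < D.N → D.vb y / 64 = 2 ^ (D.vb y / 64).log2 := by
      intro y hy
      have := (hG.vb_pow y hy).1
      generalize 2 ^ (D.vb y / 64).log2 = z at this ⊢
      omega
    apply sum_pow_lt
    · rw [List.pairwise_map]
      refine List.Pairwise.imp_of_mem ?_ hI
      intro x y hx hy hxy
      have hs := hG.vb_step (D.N - 1 - x.2) (by have := hG.N_pos; omega) (D.N - 1 - y.2)
        (by omega) (by rw [(hb x hx).2, (hb y hy).2])
      have hx' := hv x hx
      have hy' := hv y hy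
      rw [hdiv (D.N - 1 - x.2) (by omega), hdiv (D.N - 1 - y.2) (by omega)]
      exact Nat.pow_lt_pow_right (by norm_num) (by omega)
    · intro x hx
      obtain ⟨p, hp, rfl⟩ := List.mem_map.mp hx
      exact ⟨_, hdiv (D.N - 1 - p.2) (by have := hG.N_pos; omega)⟩
    · intro x hx
      obtain ⟨p, hp, rfl⟩ := List.mem_map.mp hx
      have := (hG.vb_pow (D.N - 1 - p.2) (by have := hG.N_pos; omega)).2
      show D.vb (D.N - 1 - p.2) / 64 < 64
      omega
  rw [hsplit]
  omega

end Dat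

end Pool.Agent.Simplex
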