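import Pool.Agent.Work.MP_f99e36_co.Chk1

/-!
Kernel-friendly checker, part 2: the fast evaluation computes the value of a list of pairs.
-/

set_option autoImplicit false

namespace Pool.Agent.Simplex

namespace Dat

variable {D : Dat}

theorem wsum_eq (hG : D.Good) {X Y : ℕ} (hX : X ≠ 0) (hY : Y ≠ 0) (hXl : lob X < D.m)
    (hYl : lob Y < D.N) : wsum D.ut D.vt X Y =
      (8 * D.ra (lob X) + D.ca (lob Y)) * 4096 + (D.ub (lob X) + D.vb (lob Y)) := by
  unfold wsum
  rw [xor_land_pred hX, xor_land_pred hY]
  have h1 : fldp D.ut (lob X) = (D.ut >>> (32 * (2 ^ lob X % 37))) % 2 ^ 32 := by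
    rw [← Nat.and_two_pow_sub_one_eq_mod]
    rfl
  have h2 : fldp D.vt (lob Y) = (D.vt >>> (32 * (2 ^ lob Y % 37))) % 2 ^ 32 := by
    rw [← Nat.and_two_pow_sub_one_eq_mod]
    rfl
  have h3 : (4294967295 : ℕ) = 2 ^ 32 - 1 := rfl
  rw [h3, Nat.and_two_pow_sub_one_eq_mod, Nat.add_mod, ← h1, ← h2]
  have e1 := hG.ra_lt _ hXl
  have e2 := hG.ca_lt _ hYl
  have e3 := hG.p_le
  have e4 := hG.q_le
  have a1 : fldp D.ut (lob X) = 32768 * D.ra (lob X) + D.ub (lob X) := by
    unfold ra ub
    omega
  have a2 : fldp D.vt (lob Y) = 4096 * D.ca (lob Y) + D.vb (lob Y) := by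
    unfold ca vb
    omega
  have b1 : D.ub (lob X) < 32768 := by
    unfold ub
    omega
  have b2 : D.vb (lob Y) < 4096 := by
    unfold vb
    omega
  rw [a1, a2, Nat.mod_eq_of_lt (by omega)]
  omega

theorem bsum_reverse (P : List (ℕ × ℕ)) : D.bsum P.reverse = D.bsum P := by
  unfold bsum
  rw [List.map_reverse, List.sum_reverse]

theorem g_reverse (a b : ℕ) (P : List (ℕ × ℕ)) : D.arr.g a b P.reverse = D.arr.g a b P := by
  show (!P.reverse.isEmpty && D.tab.testBit ((8 * a + b) * 4096 + D.bsum P.reverse)) =
    (!P.isEmpty && D.tab.testBit ((8 * a + b) * 4096 + D.bsum P))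
  rw [bsum_reverse, List.isEmpty_reverse]

theorem ev_eq (hG : D.Good) : ∀ (fuel : ℕ) (L : List (ℕ × ℕ)) (X Y acc a b : ℕ)
    (P : List (ℕ × ℕ)) (s : Bool), L.length ≤ fuel → X < 2 ^ D.m → Y < 2 ^ D.N →
    dec D.m X = (L.map Prod.fst).reverse → dec D.N Y = (L.map Prod.snd).reverse →
    Arr.Inc (P ++ L).reverse → (∀ p ∈ P ++ L, p.1 < D.m ∧ p.2 < D.N) →
    (∀ p ∈ P, D.ra (D.m - 1 - p.1) = a ∧ D.ca (D.N - 1 - p.2) = b) →
    (P = [] → a = 0 ∧ b = 0) → b < 8 →
    acc = (8 * a + b) * 4096 + D.bsum P →
    ev D.ut D.vt D.tab fuel X Y acc s = D.arr.rvl L a b P s := by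
  intro fuel
  induction fuel with
  | zero =>
    intro L X Y acc a b P s hl hX hY hdX hdY hI hv hb hP hb8 hacc
    have hL : L = [] := List.eq_nil_of_length_eq_zero (by omega)
    subst hL
    rw [ev_zero]
    show _ = (s ^^ D.arr.g a b P)
    congr 1
    show _ = (!P.isEmpty && D.tab.testBit ((8 * a + b) * 4096 + D.bsum P))
    rw [← hacc]
    by_cases hP0 : P = []
    · obtain ⟨rfl, rfl⟩ := hP hP0
      subst hP0
      rw [hacc]
      exact hG.tab_zero
    · cases P with
      | nil => exact absurd rfl hP0
      | cons x t => rfl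
  | succ fuel ih =>
    intro L X Y acc a b P s hl hX hY hdX hdY hI hv hb hP hb8 hacc
    rw [ev_succ]
    have hflush : D.tab.testBit acc = D.arr.g a b P := by
      show _ = (!P.isEmpty && D.tab.testBit ((8 * a + b) * 4096 + D.bsum P))
      rw [← hacc]
      by_cases hP0 : P = []
      · obtain ⟨rfl, rfl⟩ := hP hP0
        subst hP0
        rw [hacc]
        exact hG.tab_zero
      · cases P with
        | nil => exact absurd rfl hP0
        | cons x t => rfl
    cases L with
    | nil =>
      have hX0 : X = 0 := by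
        by_contra h0
        rw [dec_snoc h0 hX] at hdX
        simp at hdX
      rw [if_pos hX0, hflush]
      rfl
    | cons p L =>
      have hX0 : X ≠ 0 := by
        rintro rfl
        rw [dec_zero] at hdX
        simp at hdX
      have hY0 : Y ≠ 0 := by
        rintro rfl
        rw [dec_zero] at hdY
        simp at hdY
      rw [if_neg hX0]
      rw [dec_snoc hX0 hX, List.map_cons, List.reverse_cons] at hdX
      rw [dec_snoc hY0 hY, List.map_cons, List.reverse_cons] at hdY
      obtain ⟨hdX1, hdX2⟩ := List.append_inj' hdX rfl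
      obtain ⟨hdY1, hdY2⟩ := List.append_inj' hdY rfl
      have hX2 : D.m - 1 - lob X = p.1 := by simpa using hdX2
      have hY2 : D.N - 1 - lob Y = p.2 := by simpa using hdY2
      have hXl : lob X < D.m := lob_lt hX0 hX
      have hYl : lob Y < D.N := lob_lt hY0 hY
      have hXe : lob X = D.m - 1 - p.1 := by omega
      have hYe : lob Y = D.N - 1 - p.2 := by omega
      have hc8 : D.ca (lob Y) < 8 := lt_of_lt_of_le (hG.ca_lt _ hYl) hG.q_le
      have hIP : Arr.Inc P.reverse := by
        rw [List.reverse_append] at hI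
        exact (List.pairwise_append.mp hI).2.1
      have hbs : D.bsum P < 4096 := by
        rw [← bsum_reverse]
        exact bsum_lt hG hIP (fun x hx => hv x (by simp [List.mem_reverse.mp hx]))
          (fun x hx => hb x (List.mem_reverse.mp hx))
      have hsum1 : D.bsum [p] = D.ub (lob X) + D.vb (lob Y) := by
        rw [hXe, hYe]
        show D.pb p + 0 = _
        rfl
      have hs1 : D.ub (lob X) + D.vb (lob Y) < 4096 := by
        rw [← hsum1]
        exact bsum_lt hG (P := [p]) (List.pairwise_singleton _ _)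
          (fun x hx => by
            rw [List.mem_singleton] at hx
            subst hx
            exact hv x (by simp)) (a := D.ra (D.m - 1 - p.1)) (b := D.ca (D.N - 1 - p.2))
          (fun x hx => by
            rw [List.mem_singleton] at hx
            subst hx
            exact ⟨rfl, rfl⟩)
      have hfe := wsum_eq hG hX0 hY0 hXl hYl
      have hshift : wsum D.ut D.vt X Y >>> 12 = 8 * D.ra (lob X) + D.ca (lob Y) := by
        rw [hfe, Nat.shiftRight_eq_div_pow]
        omega
      have hand : wsum D.ut D.vt X Y &&& 4095 = D.ub (lob X) + D.vb (lob Y) := by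
        rw [hfe]
        have : (4095 : ℕ) = 2 ^ 12 - 1 := rfl
        rw [this, Nat.and_two_pow_sub_one_eq_mod]
        omega
      have hashift : acc >>> 12 = 8 * a + b := by
        rw [hacc, Nat.shiftRight_eq_div_pow]
        omega
      have hrbp : D.arr.rb p.1 = D.ra (lob X) := by rw [hXe]; rfl
      have hcbp : D.arr.cb p.2 = D.ca (lob Y) := by rw [hYe]; rfl
      rw [hshift, hashift, hand]
      show _ = D.arr.rvl (p :: L) a b P s
      unfold Arr.rvl
      rw [hrbp, hcbp]
      have hX' := land_pred_lt hX
      have hY' := land_pred_lt hY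
      have hl' : L.length ≤ fuel := by
        simp only [List.length_cons] at hl
        omega
      by_cases hc : 8 * D.ra (lob X) + D.ca (lob Y) = 8 * a + b
      · have hab : D.ra (lob X) = a ∧ D.ca (lob Y) = b := by omega
        rw [if_pos hc, if_pos hab]
        refine ih L _ _ _ a b (P ++ [p]) s hl' hX' hY' hdX1 hdY1 ?_ ?_ ?_ ?_ hb8 ?_
        · simpa [List.append_assoc] using hI
        · simpa [List.append_assoc] using hv
        · intro x hx
          rcases List.mem_append.mp hx with h | h
          · exact hb x h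
          · rw [List.mem_singleton] at h
            subst h
            rw [← hXe, ← hYe]
            exact hab
        · intro h
          simp at h
        · rw [hacc]
          have : D.bsum (P ++ [p]) = D.bsum P + D.bsum [p] := by
            unfold bsum
            rw [List.map_append, List.sum_append]
          rw [this, hsum1]
          omega
      · have hab : ¬ (D.ra (lob X) = a ∧ D.ca (lob Y) = b) := by omega
        rw [if_neg hc, if_neg hab, hflush]
        refine ih L _ _ _ _ _ [p] _ hl' hX' hY' hdX1 hdY1 ?_ ?_ ?_ ?_ hc8 ?_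
        · rw [List.reverse_append] at hI
          exact (List.pairwise_append.mp hI).1
        · intro x hx
          exact hv x (by
            rw [List.mem_append]
            exact Or.inr hx)
        · intro x hx
          rw [List.mem_singleton] at hx
          subst hx
          rw [← hXe, ← hYe]
          exact ⟨rfl, rfl⟩
        · intro h
          simp at h
        · rw [hfe, hsum1]

theorem dec_length_le (n X : ℕ) : (dec n X).length ≤ n := by
  unfold dec
  have := List.length_filter_le (fun i => X.testBit (n - 1 - i)) (List.range n)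
  rwa [List.length_range] at this

/-- the value of a matching given by masks -/
theorem val_ev (hG : D.Good) {X Y : ℕ} (hX : X < 2 ^ D.m) (hY : Y < 2 ^ D.N)
    (hlen : (dec D.m X).length = (dec D.N Y).length) (s : Bool) :
    ev D.ut D.vt D.tab 32 X Y 0 s = (s ^^ D.arr.val ((dec D.m X).zip (dec D.N Y))) := by
  set L := (dec D.m X).zip (dec D.N Y) with hL
  have hI : Arr.Inc L := Arr.inc_zip (dec_sorted _ _) (dec_sorted _ _)
  have hv : ∀ p ∈ L, p.1 < D.m ∧ p.2 < D.N := fun p hp =>
    ⟨(mem_dec.mp (Arr.mem_zip_fst hp)).1, (mem_dec.mp (Arr.mem_zip_snd hp)).1⟩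
  have hf : L.map Prod.fst = dec D.m X := by
    rw [hL, List.map_fst_zip hlen.le]
  have hs : L.map Prod.snd = dec D.N Y := by
    rw [hL, List.map_snd_zip hlen.ge]
  have hll : L.reverse.length ≤ 32 := by
    have h1 : L.length = (dec D.m X).length := by rw [← hf, List.length_map]
    have := dec_length_le D.m X
    have := hG.m_le
    rw [List.length_reverse]
    omega
  have hmem : ∀ p ∈ L.reverse, (D.arr.rb p.1, D.arr.cb p.2) ∈ D.arr.bl := by
    intro p hp
    have := hv p (List.mem_reverse.mp hp)
    show (D.ra (D.m - 1 - p.1), D.ca (D.N - 1 - p.2)) ∈ (List.range D.p) ×ˢ (List.range D.q)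
    exact List.pair_mem_product.mpr ⟨List.mem_range.mpr (hG.ra_lt _ (by omega)),
      List.mem_range.mpr (hG.ca_lt _ (by omega))⟩
  have hbl : D.arr.bl.Nodup := List.Nodup.product List.nodup_range List.nodup_range
  have h0 : (0, 0) ∈ D.arr.bl := by
    show (0, 0) ∈ (List.range D.p) ×ˢ (List.range D.q)
    exact List.pair_mem_product.mpr ⟨List.mem_range.mpr hG.p_pos, List.mem_range.mpr hG.q_pos⟩
  rw [ev_eq hG 32 L.reverse X Y 0 0 0 [] s hll hX hY
    (by rw [List.map_reverse, List.reverse_reverse, hf])
    (by rw [List.map_reverse, List.reverse_reverse, hs]) (by simpa using hI)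
    (by simpa using hv) (by simp) (fun _ => ⟨rfl, rfl⟩) (by norm_num) (by simp [bsum])]
  rw [Arr.val_eq_rvl_rev (wf hG) hbl h0 g_reverse (List.pairwise_reverse.mpr hI) hmem,
    List.reverse_reverse]

end Dat

end Pool.Agent.Simplex
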