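import Pool.Agent.Work.MP_f99e36_co.Chk3

/-!
Kernel-friendly checker, part 4: masks of groups, windows.
-/

set_option autoImplicit false

namespace Pool.Agent.Simplex

namespace Dat

variable {D : Dat}

/-- row part and column part of a mask -/
theorem land_low (Z : ℕ) : Nat.land Z 4294967295 = Z % 4294967296 := by
  have : (4294967295 : ℕ) = 2 ^ 32 - 1 := rfl
  show Z &&& 4294967295 = _
  rw [this, Nat.and_two_pow_sub_one_eq_mod]

theorem shift_high (Z : ℕ) : Nat.shiftRight Z 32 = Z / 4294967296 := by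
  show Z >>> 32 = _
  rw [Nat.shiftRight_eq_div_pow]

/-- the first pair of a nonempty matching -/
theorem Rep.hi {Z : ℕ} {M : List (ℕ × ℕ)} (hr : D.Rep Z M) (hM : D.arr.Valid M) (hn : M ≠ []) :
    Z % 4294967296 ≠ 0 ∧ Z / 4294967296 ≠ 0 ∧
    ∃ p ∈ M, (∀ q ∈ M, p.1 ≤ q.1 ∧ p.2 ≤ q.2) ∧ p.1 < D.m ∧ p.2 < D.N ∧
      (Z % 4294967296).log2 = D.m - 1 - p.1 ∧ (Z / 4294967296).log2 = D.N - 1 - p.2 ∧
      D.arr.hiR M = p.1 ∧ D.arr.hiC M = p.2 := by
  cases M with
  | nil => exact absurd rfl hn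
  | cons p t =>
    have hX0 : Z % 4294967296 ≠ 0 := by
      intro h
      have := hr.fst
      rw [h, dec_zero] at this
      simp at this
    have hY0 : Z / 4294967296 ≠ 0 := by
      intro h
      have := hr.snd
      rw [h, dec_zero] at this
      simp at this
    have h1 := hr.fst
    have h2 := hr.snd
    rw [dec_cons hX0 hr.x_lt, List.map_cons, List.cons.injEq] at h1
    rw [dec_cons hY0 hr.y_lt, List.map_cons, List.cons.injEq] at h2
    have hXl := (Nat.log2_lt hX0).mpr hr.x_lt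
    have hYl := (Nat.log2_lt hY0).mpr hr.y_lt
    have hp : p.1 < D.m ∧ p.2 < D.N := hM.2 p (by simp)
    refine ⟨hX0, hY0, p, by simp, ?_, hp.1, hp.2, by omega, by omega, rfl, rfl⟩
    intro q hq
    rw [List.mem_cons] at hq
    rcases hq with rfl | hq
    · exact ⟨le_refl _, le_refl _⟩
    · have := (List.pairwise_cons.mp hM.1).1 q hq
      exact ⟨this.1.le, this.2.le⟩

/-- the last pair of a nonempty matching -/
theorem Rep.lo {Z : ℕ} {M : List (ℕ × ℕ)} (hr : D.Rep Z M) (hM : D.arr.Valid M)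
    (hn : M ≠ []) :
    ∃ p ∈ M, (∀ q ∈ M, q.1 ≤ p.1 ∧ q.2 ≤ p.2) ∧ p.1 < D.m ∧ p.2 < D.N ∧
      lob (Z % 4294967296) = D.m - 1 - p.1 ∧ lob (Z / 4294967296) = D.N - 1 - p.2 ∧
      Arr.loR M = p.1 ∧ Arr.loC M = p.2 := by
  obtain ⟨hX0, hY0, -⟩ := hr.hi hM hn
  obtain ⟨p, hp, hp1, hp2, hp'⟩ := Arr.lo_spec hM.1 hn
  have hpv : p.1 < D.m ∧ p.2 < D.N := hM.2 p hp
  obtain ⟨a1, a2⟩ := lob_spec _ hX0
  obtain ⟨b1, b2⟩ := lob_spec _ hY0
  have hpf : p.1 ∈ dec D.m (Z % 4294967296) := by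
    rw [hr.fst]
    exact List.mem_map.mpr ⟨p, hp, rfl⟩
  have hps : p.2 ∈ dec D.N (Z / 4294967296) := by
    rw [hr.snd]
    exact List.mem_map.mpr ⟨p, hp, rfl⟩
  have hlt1 : lob (Z % 4294967296) < D.m := by
    by_contra h
    have : (Z % 4294967296).testBit (lob (Z % 4294967296)) = false :=
      Nat.testBit_lt_two_pow (lt_of_lt_of_le hr.x_lt (Nat.pow_le_pow_right (by norm_num) (by omega)))
    rw [a1] at this
    exact absurd this (by simp)
  have hlt2 : lob (Z / 4294967296) < D.N := by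
    by_contra h
    have : (Z / 4294967296).testBit (lob (Z / 4294967296)) = false :=
      Nat.testBit_lt_two_pow (lt_of_lt_of_le hr.y_lt (Nat.pow_le_pow_right (by norm_num) (by omega)))
    rw [b1] at this
    exact absurd this (by simp)
  refine ⟨p, hp, hp', hpv.1, hpv.2, ?_, ?_, hp1, hp2⟩
  · have h1 : ¬ (D.m - 1 - p.1 < lob (Z % 4294967296)) := by
      intro h
      have := a2 _ h
      rw [(mem_dec.mp hpf).2] at this
      exact absurd this (by simp)
    have h2 : D.m - 1 - lob (Z % 4294967296) ∈ dec D.m (Z % 4294967296) := by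
      rw [mem_dec]
      refine ⟨by omega, ?_⟩
      have : D.m - 1 - (D.m - 1 - lob (Z % 4294967296)) = lob (Z % 4294967296) := by omega
      rw [this]
      exact a1
    rw [hr.fst] at h2
    obtain ⟨q, hq, hqe⟩ := List.mem_map.mp h2
    have := (hp' q hq).1
    omega
  · have h1 : ¬ (D.N - 1 - p.2 < lob (Z / 4294967296)) := by
      intro h
      have := b2 _ h
      rw [(mem_dec.mp hps).2] at this
      exact absurd this (by simp)
    have h2 : D.N - 1 - lob (Z / 4294967296) ∈ dec D.N (Z / 4294967296) := by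
      rw [mem_dec]
      refine ⟨by omega, ?_⟩
      have : D.N - 1 - (D.N - 1 - lob (Z / 4294967296)) = lob (Z / 4294967296) := by omega
      rw [this]
      exact b1
    rw [hr.snd] at h2
    obtain ⟨q, hq, hqe⟩ := List.mem_map.mp h2
    have := (hp' q hq).2
    omega

theorem Rep.zero : D.Rep 0 [] where
  x_lt := Nat.two_pow_pos _
  y_lt := Nat.two_pow_pos _
  fst := dec_zero _
  snd := dec_zero _

theorem or_mod (a b : ℕ) : (a ||| b) % 4294967296 = (a % 4294967296) ||| (b % 4294967296) := by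
  have : (4294967296 : ℕ) = 2 ^ 32 := rfl
  rw [this]
  exact Nat.or_mod_two_pow

theorem or_div (a b : ℕ) : (a ||| b) / 4294967296 = (a / 4294967296) ||| (b / 4294967296) := by
  have : (4294967296 : ℕ) = 2 ^ 32 := rfl
  rw [this]
  exact Nat.or_div_two_pow

theorem Rep.append {Z1 Z2 : ℕ} {M1 M2 : List (ℕ × ℕ)} (h1 : D.Rep Z1 M1) (h2 : D.Rep Z2 M2)
    (hM : D.arr.Valid (M1 ++ M2)) : D.Rep (Z1 ||| Z2) (M1 ++ M2) where
  x_lt := by
    rw [or_mod]
    exact Nat.or_lt_two_pow h1.x_lt h2.x_lt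
  y_lt := by
    rw [or_div]
    exact Nat.or_lt_two_pow h1.y_lt h2.y_lt
  fst := by
    apply eq_of_sorted_of_mem (dec_sorted _ _) hM.1.fst
    intro i
    rw [List.map_append, List.mem_append, ← h1.fst, ← h2.fst, mem_dec, mem_dec, mem_dec, or_mod,
      Nat.testBit_or, Bool.or_eq_true]
    tauto
  snd := by
    apply eq_of_sorted_of_mem (dec_sorted _ _) hM.1.snd
    intro i
    rw [List.map_append, List.mem_append, ← h1.snd, ← h2.snd, mem_dec, mem_dec, mem_dec, or_div,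
      Nat.testBit_or, Bool.or_eq_true]
    tauto

/-! ### windows -/

variable (D)

/-- all positions -/
def hmF : ℕ := Nat.lor (Nat.sub (Nat.pow 2 D.m) 1)
  (Nat.shiftLeft (Nat.sub (Nat.pow 2 D.N) 1) 32)

/-- positions from the first pair on -/
def hm (Z : ℕ) : ℕ :=
  cond (Nat.beq Z 0) D.hmF
    (Nat.lor (Nat.sub (Nat.pow 2 (Nat.succ (Nat.log2 (Nat.land Z 4294967295)))) 1)
      (Nat.shiftLeft (Nat.sub (Nat.pow 2 (Nat.succ (Nat.log2 (Nat.shiftRight Z 32)))) 1) 32))

/-- positions up to the row bit el and the column bit yl -/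
def lmk (el yl : ℕ) : ℕ :=
  Nat.xor 18446744073709551615
    (Nat.lor (Nat.sub (Nat.pow 2 el) 1) (Nat.shiftLeft (Nat.sub (Nat.pow 2 yl) 1) 32))

/-- positions up to the last pair -/
def lm (Z : ℕ) : ℕ := lmk (lob (Nat.land Z 4294967295)) (lob (Nat.shiftRight Z 32))

variable {D}

theorem testBit_pair {a b t : ℕ} :
    ((2 ^ a - 1) ||| ((2 ^ b - 1) <<< 32)).testBit t = true ↔ (t < a ∨ (32 ≤ t ∧ t < 32 + b)) := by
  rw [Nat.testBit_or, Nat.testBit_shiftLeft, Nat.testBit_two_pow_sub_one,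
    Nat.testBit_two_pow_sub_one, Bool.or_eq_true, Bool.and_eq_true, decide_eq_true_iff,
    decide_eq_true_iff, decide_eq_true_iff]
  omega

theorem testBit_hmF {t : ℕ} :
    D.hmF.testBit t = true ↔ (t < D.m ∨ (32 ≤ t ∧ t < 32 + D.N)) :=
  testBit_pair

theorem testBit_hm (hG : D.Good) {Z t : ℕ} {M : List (ℕ × ℕ)} (hr : D.Rep Z M)
    (hM : D.arr.Valid M) (hn : M ≠ []) : (D.hm Z).testBit t = true ↔
      (t ≤ (Z % 4294967296).log2 ∨ (32 ≤ t ∧ t ≤ 32 + (Z / 4294967296).log2)) := by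
  obtain ⟨hX0, hY0, p, hp, -, hp1, hp2, hl1, hl2, -⟩ := hr.hi hM hn
  have hm' := hG.m_le
  have hN' := hG.N_le
  have hZ : Z ≠ 0 := by
    rintro rfl
    exact hX0 rfl
  unfold hm
  rw [beq_false' hZ, cond_false, land_low, shift_high]
  have := testBit_pair (t := t) (a := (Z % 4294967296).log2 + 1)
    (b := (Z / 4294967296).log2 + 1)
  refine this.trans ?_
  omega

theorem testBit_lmk {el yl t : ℕ} (ht : t < 64) :
    (lmk el yl).testBit t = true ↔ ¬ (t < el ∨ (32 ≤ t ∧ t < 32 + yl)) := by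
  unfold lmk
  show ((18446744073709551615 : ℕ) ^^^ ((2 ^ el - 1) ||| ((2 ^ yl - 1) <<< 32))).testBit t = true ↔ _
  rw [← testBit_pair, Nat.testBit_xor]
  have : (18446744073709551615 : ℕ) = 2 ^ 64 - 1 := rfl
  rw [this, Nat.testBit_two_pow_sub_one, decide_eq_true ht, Bool.true_xor, Bool.not_eq_true',
    Bool.not_eq_true]

/-- the window from the first pair of M1 to el, yl -/
theorem winM_lmk (hG : D.Good) {Z1 el yl : ℕ} {M1 : List (ℕ × ℕ)} (hr : D.Rep Z1 M1)
    (hM : D.arr.Valid M1) (hz : M1 = [] → Z1 = 0) :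
    WinM D (D.hm Z1 &&& lmk el yl) (if M1 = [] then 0 else D.arr.hiR M1) (D.m - 1 - el)
      (if M1 = [] then 0 else D.arr.hiC M1) (D.N - 1 - yl) := by
  intro t ht
  rw [Nat.testBit_and, Bool.and_eq_true] at ht
  have hm := hG.m_le
  have hN := hG.N_le
  by_cases hn : M1 = []
  · have hh : D.hm Z1 = D.hmF := by rw [hz hn]; rfl
    rw [hh, testBit_hmF] at ht
    have h64 : t < 64 := by omega
    rw [testBit_lmk h64] at ht
    rw [if_pos hn, if_pos hn]
    omega
  · rw [testBit_hm hG hr hM hn] at ht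
    obtain ⟨hX0, hY0, p, hp, -, hp1, hp2, hl1, hl2, hp3, hp4⟩ := hr.hi hM hn
    have h64 : t < 64 := by omega
    rw [testBit_lmk h64] at ht
    rw [if_neg hn, if_neg hn, hp3, hp4]
    omega

end Dat

end Pool.Agent.Simplex
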