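import Pool.Agent.Work.MP_f99e36_co.Chk4

/-!
Kernel-friendly checker, part 5: blocked bases from window tests; masks of classes.
-/

set_option autoImplicit false

namespace Pool.Agent.Simplex

namespace Dat

variable {D : Dat}

/-- a successful window test blocks every basis containing M in the given context -/
theorem full_of_win (hG : D.Good) {X M Z F L : List (ℕ × ℕ)} (hc : D.arr.Ctx X M Z)
    {ZF ZL ZM h : ℕ} (hrF : D.Rep ZF F) (hrL : D.Rep ZL L) (hF : ∃ R, M = F ++ R)
    (hL : ∃ R, M = R ++ L) (hX : F = [] → X = []) (hZ : L = [] → Z = []) (hzF : F = [] → ZF = 0)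
    (hrM : D.Rep ZM M) (ht : D.tst ZM (Nat.land (D.hm ZF) (lm ZL)) h = true) :
    D.arr.Full (X ++ M ++ Z) := by
  have hvM : D.arr.Valid M := hc.1.append.1.append.2.1
  obtain ⟨R1, hR1⟩ := hF
  obtain ⟨R2, hR2⟩ := hL
  have hvF : D.arr.Valid F := by
    rw [hR1] at hvM
    exact hvM.append.1
  have hvL : D.arr.Valid L := by
    rw [hR2] at hvM
    exact hvM.append.2.1
  have hW := winM_lmk hG (el := lob (Nat.land ZL 4294967295)) (yl := lob (Nat.shiftRight ZL 32))
    hrF hvF hzF
  have hWT := tst_sound hG hrM hvM hW ht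
  by_cases hM : M = []
  · have hF0 : F = [] := by
      rw [hM] at hR1
      exact (List.append_eq_nil_iff.mp hR1.symm).1
    have hL0 : L = [] := by
      rw [hM] at hR2
      exact (List.append_eq_nil_iff.mp hR2.symm).2
    rw [hX hF0, hZ hL0]
    simpa using hWT.full
  · refine Arr.WT.ctx (wf hG) hc hM ?_ ?_ hWT
    · intro hX'
      have hF0 : F ≠ [] := fun h => hX' (hX h)
      rw [if_neg hF0, if_neg hF0]
      obtain ⟨-, -, p, hp, hp', -, -, -, -, h1, h2⟩ := hrF.hi hvF hF0
      refine ⟨p, by rw [hR1]; simp [hp], ?_, by rw [h1], by rw [h2]⟩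
      intro q hq
      rw [hR1] at hq hvM
      rcases List.mem_append.mp hq with h | h
      · exact hp' q h
      · have := hvM.append.2.2 p hp q h
        exact ⟨this.1.le, this.2.le⟩
    · intro hZ'
      have hL0 : L ≠ [] := fun h => hZ' (hZ h)
      obtain ⟨p, hp, hp', hp1, hp2, h1, h2, -⟩ := hrL.lo hvL hL0
      rw [land_low, shift_high, h1, h2]
      refine ⟨p, by rw [hR2]; simp [hp], ?_, by omega, by omega⟩
      intro q hq
      rw [hR2] at hq hvM
      rcases List.mem_append.mp hq with h | h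
      · have := hvM.append.2.2 q h p hp
        exact ⟨this.1.le, this.2.le⟩
      · exact hp' q h

/-- exclusive windows -/
theorem full_of_excl (hG : D.Good) {X M Z : List (ℕ × ℕ)} (hc : D.arr.Ctx X M Z)
    {ZM h el yl : ℕ} (hrM : D.Rep ZM M) (hX : M = [] → X = []) (hz : M = [] → ZM = 0)
    (he : el < D.m) (hy : yl < D.N)
    (hlo : M ≠ [] → el ≤ lob (ZM % 4294967296) ∧ yl ≤ lob (ZM / 4294967296))
    {g : ℕ × ℕ} (hg : ∀ q ∈ Z, g.1 ≤ q.1 ∧ g.2 ≤ q.2) (hgm : g.1 < D.m) (hgN : g.2 < D.N)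
    (hge : D.m - 1 - g.1 < el) (hgy : D.N - 1 - g.2 < yl)
    (hb : D.ra (D.m - 1 - g.1) ≠ D.ra el ∨ D.ca (D.N - 1 - g.2) ≠ D.ca yl)
    (ht : D.tst ZM (Nat.land (D.hm ZM) (lmk el yl)) h = true) :
    D.arr.Full (X ++ M ++ Z) := by
  have hvM : D.arr.Valid M := hc.1.append.1.append.2.1
  have hW := winM_lmk hG (el := el) (yl := yl) hrM hvM hz
  have hWT := tst_sound hG hrM hvM hW ht
  have hup : ∀ p ∈ Z, D.m - 1 - el < p.1 ∧ D.N - 1 - yl < p.2 ∧
      D.arr.blk (D.m - 1 - el, D.N - 1 - yl) ≠ D.arr.blk p := by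
    intro p hp
    have h1 := hg p hp
    refine ⟨by omega, by omega, ?_⟩
    intro hbe
    have h2 := (Arr.blk_lt (wf hG) (p := (D.m - 1 - el, D.N - 1 - yl)) (q := g) (r := p)
      (by show D.m - 1 - el ≤ g.1; omega) (by show D.N - 1 - yl ≤ g.2; omega) h1.1 h1.2 hbe).1
    have h3 : D.ra (D.m - 1 - (D.m - 1 - el)) = D.ra (D.m - 1 - g.1) := congrArg Prod.fst h2
    have h4 : D.ca (D.N - 1 - (D.N - 1 - yl)) = D.ca (D.N - 1 - g.2) := congrArg Prod.snd h2
    have e1 : D.m - 1 - (D.m - 1 - el) = el := by omega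
    have e2 : D.N - 1 - (D.N - 1 - yl) = yl := by omega
    rw [e1] at h3
    rw [e2] at h4
    rcases hb with h | h
    · exact h h3.symm
    · exact h h4.symm
  by_cases hM : M = []
  · rw [if_pos hM, if_pos hM] at hWT
    have hX0 := hX hM
    refine (Arr.WT.window (wf hG) hc.1 (lo := (0, 0)) (up := (D.m - 1 - el, D.N - 1 - yl)) ?_ hup
      ?_ ⟨Nat.zero_le _, Nat.zero_le _⟩ (Nat.zero_le _) (le_refl _) (Nat.zero_le _) (le_refl _)
      hWT).full
    · rw [hX0]
      simp
    · rw [hM]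
      simp
  · rw [if_neg hM, if_neg hM] at hWT
    obtain ⟨-, -, p, hp, hp', hpm, hpN, -, -, h1, h2⟩ := hrM.hi hvM hM
    obtain ⟨r, hr, hr', hrm, hrN, h3, h4, -⟩ := hrM.lo hvM hM
    rw [h1, h2] at hWT
    obtain ⟨l1, l2⟩ := hlo hM
    have hpr := hp' r hr
    have hle : ∀ q ∈ M, q.1 ≤ D.m - 1 - el ∧ q.2 ≤ D.N - 1 - yl := by
      intro q hq
      have := hr' q hq
      omega
    refine (Arr.WT.window (wf hG) hc.1 (lo := p) (up := (D.m - 1 - el, D.N - 1 - yl)) ?_ hup
      ?_ ⟨(hle p hp).1, (hle p hp).2⟩ (le_refl _) (le_refl _) (le_refl _) (le_refl _)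
      hWT).full
    · intro x hx
      have a := hc.1.append.1.append.2.2 x hx p hp
      exact ⟨a.1, a.2, hc.2.1 x hx p hp⟩
    · intro q hq
      exact ⟨⟨(hp' q hq).1, (hle q hq).1⟩, (hp' q hq).2, (hle q hq).2⟩

/-! ### masks of classes -/

/-- repeated ones -/
def rep : ℕ → ℕ
  | 0 => 0
  | k + 1 => 2 ^ 32 * rep k + 1

theorem rep_mul_testBit {y : ℕ} (hy : y ≤ 32) : ∀ (k e j : ℕ), j < 32 →
    (rep k * (2 ^ y - 1)).testBit (32 * e + j) = (decide (e < k) && decide (j < y)) := by
  intro k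
  induction k with
  | zero =>
    intro e j hj
    show (0 * (2 ^ y - 1)).testBit _ = _
    simp
  | succ k ih =>
    intro e j hj
    have h1 : rep (k + 1) * (2 ^ y - 1) = 2 ^ 32 * (rep k * (2 ^ y - 1)) + (2 ^ y - 1) := by
      show (2 ^ 32 * rep k + 1) * (2 ^ y - 1) = _
      ring
    have h2 : 2 ^ y - 1 < 2 ^ 32 := by
      have : 2 ^ y ≤ 2 ^ 32 := Nat.pow_le_pow_right (by norm_num) hy
      have : 0 < 2 ^ y := Nat.two_pow_pos y
      omega
    rw [h1, Nat.testBit_two_pow_mul_add _ h2]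
    cases e with
    | zero =>
      rw [if_pos (by omega), Nat.testBit_two_pow_sub_one]
      simp
    | succ e =>
      rw [if_neg (by omega)]
      have : 32 * (e + 1) + j - 32 = 32 * e + j := by omega
      rw [this, ih e j hj]
      congr 1
      rw [decide_eq_decide]
      omega

/-- 32 repeated ones -/
def repm : ℕ := 0x0000000100000001000000010000000100000001000000010000000100000001000000010000000100000001000000010000000100000001000000010000000100000001000000010000000100000001000000010000000100000001000000010000000100000001000000010000000100000001000000010000000100000001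

theorem repm_eq : repm = rep 32 := by decide +kernel

variable (D)

/-- lowest row bit of the block of the row bit e -/
def be (e : ℕ) : ℕ := Nat.sub e (Nat.log2 (Nat.land (fldp D.ut e) 32767))

/-- lowest column bit of the block of the column bit y -/
def bey (y : ℕ) : ℕ := Nat.sub y (Nat.log2 (Nat.shiftRight (Nat.land (fldp D.vt y) 4095) 6))

/-- the classes after the position (el, yl) in another block -/
def cov (el yl : ℕ) : ℕ :=
  Nat.lor (Nat.land (Nat.sub (Nat.pow 2 (Nat.mul 32 (D.be el))) 1)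
      (Nat.mul repm (Nat.sub (Nat.pow 2 yl) 1)))
    (Nat.land (Nat.sub (Nat.pow 2 (Nat.mul 32 el)) 1)
      (Nat.mul repm (Nat.sub (Nat.pow 2 (D.bey yl)) 1)))

variable {D}

theorem be_eq (e : ℕ) : D.be e = e - (D.ub e).log2 := by
  have : Nat.land (fldp D.ut e) 32767 = D.ub e := by
    have h : (32767 : ℕ) = 2 ^ 15 - 1 := rfl
    show fldp D.ut e &&& 32767 = _
    rw [h, Nat.and_two_pow_sub_one_eq_mod]
    rfl
  unfold be
  rw [this]
  rfl

theorem bey_eq (y : ℕ) : D.bey y = y - (D.vb y / 64).log2 := by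
  have : Nat.shiftRight (Nat.land (fldp D.vt y) 4095) 6 = D.vb y / 64 := by
    have h : (4095 : ℕ) = 2 ^ 12 - 1 := rfl
    show (fldp D.vt y &&& 4095) >>> 6 = _
    rw [h, Nat.and_two_pow_sub_one_eq_mod, Nat.shiftRight_eq_div_pow]
    rfl
  unfold bey
  rw [this]
  rfl

theorem cov_testBit {el yl er yc : ℕ} (hyl : yl ≤ 32) (her : er < 32) (hyc : yc < 32) :
    (D.cov el yl).testBit (32 * er + yc) = true ↔
      ((er < D.be el ∧ yc < yl) ∨ (er < el ∧ yc < D.bey yl)) := by
  have hb : D.bey yl ≤ 32 := by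
    rw [bey_eq]
    omega
  have key : ∀ a y : ℕ, y ≤ 32 → ((Nat.land (Nat.sub (Nat.pow 2 (Nat.mul 32 a)) 1)
      (Nat.mul repm (Nat.sub (Nat.pow 2 y) 1))).testBit (32 * er + yc) = true ↔
      (er < a ∧ yc < y)) := by
    intro a y hy
    show ((2 ^ (32 * a) - 1) &&& (repm * (2 ^ y - 1))).testBit (32 * er + yc) = true ↔ _
    rw [repm_eq, Nat.testBit_and, rep_mul_testBit hy _ _ _ hyc, Nat.testBit_two_pow_sub_one,
      Bool.and_eq_true, Bool.and_eq_true, decide_eq_true_iff, decide_eq_true_iff,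
      decide_eq_true_iff]
    omega
  have h1 := key (D.be el) yl hyl
  have h2 := key el (D.bey yl) hb
  unfold cov
  show (_ ||| _ : ℕ).testBit _ = true ↔ _
  rw [Nat.testBit_or, Bool.or_eq_true]
  exact or_congr h1 h2

/-- positions before the base are in another block row -/
theorem be_iff (hG : D.Good) {er el : ℕ} (hel : el < D.m) (h : er < el) :
    er < D.be el ↔ D.ra er ≠ D.ra el := by
  rw [be_eq]
  constructor
  · intro h1 h2
    have := hG.ub_step el hel er (by omega) h2
    omega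
  · intro h1
    by_contra h2
    exact h1 (hG.ub_base el hel er (by omega) (by omega))

theorem bey_iff (hG : D.Good) {yc yl : ℕ} (hyl : yl < D.N) (h : yc < yl) :
    yc < D.bey yl ↔ D.ca yc ≠ D.ca yl := by
  rw [bey_eq]
  constructor
  · intro h1 h2
    have := hG.vb_step yl hyl yc (by omega) h2
    omega
  · intro h1
    by_contra h2
    exact h1 (hG.vb_base yl hyl yc (by omega) (by omega))

theorem cov_iff (hG : D.Good) {el yl er yc : ℕ} (hel : el < D.m) (hyl : yl < D.N) (her : er < D.m)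
    (hyc : yc < D.N) : (D.cov el yl).testBit (32 * er + yc) = true ↔
      (er < el ∧ yc < yl ∧ (D.ra er ≠ D.ra el ∨ D.ca yc ≠ D.ca yl)) := by
  have hm' := hG.m_le
  have hN' := hG.N_le
  rw [cov_testBit (by omega) (by omega) (by omega)]
  have hb1 : D.be el ≤ el := by rw [be_eq]; omega
  have hb2 : D.bey yl ≤ yl := by rw [bey_eq]; omega
  constructor
  · rintro (⟨h1, h2⟩ | ⟨h1, h2⟩)
    · have h3 : er < el := by omega
      exact ⟨h3, h2, Or.inl ((be_iff hG hel h3).mp h1)⟩
    · have h3 : yc < yl := by omega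
      exact ⟨h1, h3, Or.inr ((bey_iff hG hyl h3).mp h2)⟩
  · rintro ⟨h1, h2, h3 | h3⟩
    · exact Or.inl ⟨(be_iff hG hel h1).mpr h3, h2⟩
    · exact Or.inr ⟨h1, (bey_iff hG hyl h2).mpr h3⟩

end Dat

end Pool.Agent.Simplex
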