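import Pool.Agent.Work.MP_f99e36_co.Chk5

/-!
Kernel-friendly checker, part 6: loops with a stream of hints; the table of groups.
-/

set_option autoImplicit false

namespace Pool.Agent.Simplex

/-- a check with a stream of hints and a continuation -/
abbrev Chk := ℕ → (ℕ → Bool) → Bool

/-- soundness of a check -/
def Snd (c : Chk) (Q : Prop) : Prop := ∀ s k, c s k = true → Q ∧ ∃ s', k s' = true

/-- read a hint of w bits (M = 2 ^ w - 1) -/
def rd (w M : ℕ) (f : ℕ → Chk) : Chk := fun s k =>
  sq (Nat.land s M) fun h => sq (Nat.shiftRight s w) fun s' => f h s' k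

theorem Snd.rd {w M : ℕ} {f : ℕ → Chk} {Q : Prop} (h : ∀ x, Snd (f x) Q) : Snd (rd w M f) Q := by
  intro s k hk
  unfold Simplex.rd at hk
  simp only [sq_eq] at hk
  exact h _ _ _ hk

/-- a plain condition -/
def ckb (b : Bool) : Chk := fun s k => cond b (k s) false

theorem Snd.ckb {b : Bool} {Q : Prop} (h : b = true → Q) : Snd (ckb b) Q := by
  intro s k hk
  unfold Simplex.ckb at hk
  cases b with
  | false => exact absurd hk (by simp)
  | true => exact ⟨h rfl, s, hk⟩

theorem Snd.cnd {b : Bool} {c1 c2 : Chk} {Q : Prop} (h1 : b = true → Snd c1 Q)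
    (h2 : b = false → Snd c2 Q) : Snd (cond b c1 c2) Q := by
  cases b with
  | false => exact h2 rfl
  | true => exact h1 rfl

/-- loop over i, i+1, ..., i+n-1 -/
def rl (body : ℕ → Chk) (n : ℕ) : ℕ → Chk :=
  Nat.rec (motive := fun _ => ℕ → Chk) (fun _ s k => k s)
    (fun _ ih i s k => body i s (fun s' => sq (Nat.succ i) fun i' => ih i' s' k)) n

theorem Snd.rl {body : ℕ → Chk} {Q : ℕ → Prop} (hb : ∀ i, Snd (body i) (Q i)) :
    ∀ n i, Snd (rl body n i) (∀ j, i ≤ j → j < i + n → Q j) := by
  intro n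
  induction n with
  | zero =>
    intro i s k hk
    exact ⟨fun j h1 h2 => by omega, s, hk⟩
  | succ n ih =>
    intro i s k hk
    have hk' : body i s (fun s' => sq (Nat.succ i) fun i' => Simplex.rl body n i' s' k) = true := hk
    obtain ⟨h1, s', h2⟩ := hb i s _ hk'
    rw [sq_eq] at h2
    obtain ⟨h3, h4⟩ := ih (i + 1) s' k h2
    refine ⟨fun j hj1 hj2 => ?_, h4⟩
    by_cases hj : j = i
    · rw [hj]
      exact h1
    · exact h3 j (by omega) (by omega)

/-- loop over the set bits of X; the bits are read from the stream -/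
def bl (body : ℕ → Chk) (fuel : ℕ) : ℕ → Chk :=
  Nat.rec (motive := fun _ => ℕ → Chk) (fun _ _ _ => false)
    (fun _ ih X s k => cond (Nat.beq X 0) (k s)
      (sq (Nat.land s 4095) fun c => sq (Nat.shiftRight s 12) fun s1 => body c s1 (fun s' =>
        sq (Nat.xor X (Nat.pow 2 c)) fun X' => ih X' s' k))) fuel

theorem Snd.bl {body : ℕ → Chk} {Q : ℕ → Prop} (hb : ∀ i, Snd (body i) (Q i)) :
    ∀ n X, Snd (bl body n X) (∀ j, X.testBit j = true → Q j) := by
  intro n
  induction n with
  | zero =>
    intro X s k hk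
    exact absurd hk (by simp [Simplex.bl])
  | succ n ih =>
    intro X s k hk
    by_cases hX : X = 0
    · subst hX
      exact ⟨fun j h => absurd h (by simp), s, hk⟩
    · have hk' : cond (Nat.beq X 0) (k s) (sq (Nat.land s 4095) fun c =>
        sq (Nat.shiftRight s 12) fun s1 => body c s1 (fun s' =>
        sq (Nat.xor X (Nat.pow 2 c)) fun X' => Simplex.bl body n X' s' k)) = true := hk
      rw [beq_false' hX, cond_false, sq_eq, sq_eq] at hk'
      obtain ⟨h1, s', h2⟩ := hb _ _ _ hk'
      rw [sq_eq] at h2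
      obtain ⟨h3, h4⟩ := ih _ s' k h2
      refine ⟨fun j hj => ?_, h4⟩
      by_cases hjl : j = Nat.land s 4095
      · rw [hjl]
        exact h1
      · apply h3
        show (X ^^^ 2 ^ (Nat.land s 4095)).testBit j = true
        rw [Nat.testBit_xor, Nat.testBit_two_pow, hj]
        have : ¬ (Nat.land s 4095 = j) := fun h => hjl h.symm
        rw [decide_eq_false this]
        rfl

/-- the numbers of set bits of X and Y differ -/
def dl (fuel : ℕ) : ℕ → ℕ → Bool :=
  Nat.rec (motive := fun _ => ℕ → ℕ → Bool) (fun _ _ => false)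
    (fun _ ih X Y => cond (Nat.beq X 0) (cond (Nat.beq Y 0) false true)
      (cond (Nat.beq Y 0) true
        (sq (Nat.land X (Nat.sub X 1)) fun X' =>
          sq (Nat.land Y (Nat.sub Y 1)) fun Y' => ih X' Y'))) fuel

theorem dl_sound {m N : ℕ} : ∀ (n X Y : ℕ), X < 2 ^ m → Y < 2 ^ N → dl n X Y = true →
    (dec m X).length ≠ (dec N Y).length := by
  intro n
  induction n with
  | zero =>
    intro X Y _ _ h
    exact absurd h (by simp [dl])
  | succ n ih =>
    intro X Y hX hY h
    have h' : cond (Nat.beq X 0) (cond (Nat.beq Y 0) false true)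
      (cond (Nat.beq Y 0) true
        (sq (Nat.land X (Nat.sub X 1)) fun X' =>
          sq (Nat.land Y (Nat.sub Y 1)) fun Y' => dl n X' Y')) = true := h
    by_cases hX0 : X = 0
    · subst hX0
      by_cases hY0 : Y = 0
      · subst hY0
        exact absurd h' (by simp)
      · rw [dec_zero, dec_snoc hY0 hY]
        simp
    · rw [beq_false' hX0, cond_false] at h'
      by_cases hY0 : Y = 0
      · subst hY0
        rw [dec_zero, dec_snoc hX0 hX]
        simp
      · rw [beq_false' hY0, cond_false, sq_eq, sq_eq] at h'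
        have := ih _ _ (land_pred_lt hX) (land_pred_lt hY) h'
        rw [dec_snoc hX0 hX, dec_snoc hY0 hY, List.length_append, List.length_append]
        intro h1
        apply this
        exact Nat.add_right_cancel h1

/-! ### encoding -/

/-- mask of a list -/
def encl (n : ℕ) (l : List ℕ) : ℕ := l.foldr (fun i acc => 2 ^ (n - 1 - i) ||| acc) 0

theorem encl_testBit {n : ℕ} {l : List ℕ} {j : ℕ} :
    (encl n l).testBit j = true ↔ ∃ i ∈ l, n - 1 - i = j := by
  induction l with
  | nil => simp [encl]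
  | cons a t ih =>
    show (2 ^ (n - 1 - a) ||| encl n t).testBit j = true ↔ _
    rw [Nat.testBit_or, Bool.or_eq_true, ih, Nat.testBit_two_pow, decide_eq_true_iff]
    simp

theorem encl_lt {n : ℕ} {l : List ℕ} (h : ∀ i ∈ l, i < n) : encl n l < 2 ^ n := by
  apply Nat.lt_pow_two_of_testBit
  intro j hj
  rcases hb : (encl n l).testBit j with _ | _
  · rfl
  · obtain ⟨i, hi, hij⟩ := encl_testBit.mp hb
    have := h i hi
    omega

theorem dec_encl {n : ℕ} {l : List ℕ} (hs : l.Pairwise (· < ·)) (h : ∀ i ∈ l, i < n) :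
    dec n (encl n l) = l := by
  apply eq_of_sorted_of_mem (dec_sorted _ _) hs
  intro i
  rw [mem_dec, encl_testBit]
  constructor
  · rintro ⟨h1, j, hj, hji⟩
    have := h j hj
    have : j = i := by omega
    rwa [← this]
  · intro hi
    exact ⟨h i hi, i, hi, rfl⟩

/-- masks with lowest and highest bit bounds -/
theorem mask_split {X er b : ℕ} (h0 : X ≠ 0) (hlog : X.log2 = er)
    (hb : ∀ j, X.testBit j = true → b ≤ j) :
    X = 2 ^ er ||| (((X >>> b) % 2 ^ (er - b)) <<< b) := by
  have hber : b ≤ er := by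
    apply hb
    rw [← hlog]
    exact testBit_log2 h0
  apply Nat.eq_of_testBit_eq
  intro j
  rw [Nat.testBit_or, Nat.testBit_two_pow, Nat.testBit_shiftLeft, Nat.testBit_mod_two_pow,
    Nat.testBit_shiftRight]
  rcases Nat.lt_trichotomy j er with h | h | h
  · have h1 : ¬ (er = j) := by omega
    by_cases hj : b ≤ j
    · have h2 : j - b < er - b := by omega
      have h3 : b + (j - b) = j := by omega
      simp [h1, hj, h2, h3]
    · have h2 : X.testBit j = false := by
        rcases hx : X.testBit j with _ | _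
        · rfl
        · exact absurd (hb j hx) hj
      simp [h1, hj, h2]
  · subst h
    rw [← hlog, testBit_log2 h0]
    simp
  · have h1 : ¬ (er = j) := by omega
    have h2 : X.testBit j = false := testBit_above (by omega)
    have h3 : ¬ (j - b < er - b) := by omega
    simp [h1, h2, h3]

/-- field of width 64 -/
def fld64 (t i : ℕ) : ℕ := Nat.land (Nat.shiftRight t (Nat.mul 64 i)) 18446744073709551615

/-- tables of groups and classes -/
structure Tb where
  gz : ℕ
  gh : ℕ
  gl : ℕ
  ct : ℕ
  ne : ℕ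
  rr : ℕ
  st : ℕ
  nn : ℕ

namespace Dat

variable {D : Dat}

theorem exists_rep (hG : D.Good) {M : List (ℕ × ℕ)} (hM : D.arr.Valid M) : ∃ Z, D.Rep Z M := by
  have hf : ∀ i ∈ M.map Prod.fst, i < D.m := by
    intro i hi
    obtain ⟨p, hp, rfl⟩ := List.mem_map.mp hi
    exact (hM.2 p hp).1
  have hs : ∀ i ∈ M.map Prod.snd, i < D.N := by
    intro i hi
    obtain ⟨p, hp, rfl⟩ := List.mem_map.mp hi
    exact (hM.2 p hp).2
  have h1 := encl_lt hf
  have h2 := encl_lt hs
  have h3 : encl D.m (M.map Prod.fst) < 4294967296 := by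
    have : (4294967296 : ℕ) = 2 ^ 32 := rfl
    rw [this]
    exact lt_of_lt_of_le h1 (Nat.pow_le_pow_right (by norm_num) hG.m_le)
  have e1 : (encl D.m (M.map Prod.fst) + 4294967296 * encl D.N (M.map Prod.snd)) % 4294967296 =
      encl D.m (M.map Prod.fst) := by omega
  have e2 : (encl D.m (M.map Prod.fst) + 4294967296 * encl D.N (M.map Prod.snd)) / 4294967296 =
      encl D.N (M.map Prod.snd) := by omega
  refine ⟨encl D.m (M.map Prod.fst) + 4294967296 * encl D.N (M.map Prod.snd), ?_, ?_, ?_, ?_⟩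
  · rw [e1]; exact h1
  · rw [e2]; exact h2
  · rw [e1]; exact dec_encl hM.1.fst hf
  · rw [e2]; exact dec_encl hM.1.snd hs

/-- every basis containing the group G is blocked -/
def CB (D : Dat) (G : List (ℕ × ℕ)) : Prop := ∀ X Z, D.arr.Ctx X G Z → D.arr.Full (X ++ G ++ Z)

/-- first id of a class -/
def cs (T : Tb) (c : ℕ) : ℕ := Nat.land (fld T.ct c) 65535
/-- size of a class -/
def cn (T : Tb) (c : ℕ) : ℕ := Nat.shiftRight (fld T.ct c) 16

/-- G is in the table -/
def InT (D : Dat) (T : Tb) (c : ℕ) (G : List (ℕ × ℕ)) : Prop :=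
  ∃ id, cs T c ≤ id ∧ id < cs T c + cn T c ∧ D.Rep (fld64 T.gz id) G

/-- the check of one group, given by its mask -/
def cz (D : Dat) (T : Tb) (c Z : ℕ) : Chk :=
  rd 1 1 (fun md => cond (Nat.beq md 0)
    (rd 24 16777215 (fun h => ckb (D.tst Z (Nat.land (D.hm Z) (lm Z)) h)))
    (rd 12 4095 (fun id => ckb (cond (Nat.beq (fld64 T.gz id) Z)
      (cond (Nat.ble (cs T c) id) (Nat.blt id (Nat.add (cs T c) (cn T c))) false) false))))

/-- the check of one group -/
def cbody (D : Dat) (T : Tb) (c er yc b by' u v : ℕ) : Chk := fun s k =>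
  sq (Nat.lor (Nat.pow 2 er) (Nat.shiftLeft u b)) fun X =>
  sq (Nat.lor (Nat.pow 2 yc) (Nat.shiftLeft v by')) fun Y =>
  cond (dl 8 X Y) (k s) (sq (Nat.lor X (Nat.shiftLeft Y 32)) fun Z => cz D T c Z s k)

/-- the check of one class -/
def ccls (D : Dat) (T : Tb) (er yc : ℕ) : Chk := fun s k =>
  sq (Nat.add (Nat.mul 32 er) yc) fun c =>
  cond (cond (Nat.beq (cn T c) 0) true
    (cond (bt T.ne c) (Nat.ble (Nat.add (cs T c) (cn T c)) T.nn) false))
    (sq (D.be er) fun b => sq (D.bey yc) fun b' =>
      sq (Nat.pow 2 (Nat.sub er b)) fun nu => sq (Nat.pow 2 (Nat.sub yc b')) fun nv =>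
      rl (fun u => rl (fun v => cbody D T c er yc b b' u v) nv 0) nu 0 s k) false

/-- the check of the rows er, ..., er+n-1 of classes -/
def crow (D : Dat) (T : Tb) (n er : ℕ) : Chk :=
  rl (fun e => rl (fun y => ccls D T e y) D.N 0) n er

/-- what the check of a class proves -/
def QC (D : Dat) (T : Tb) (er yc : ℕ) : Prop :=
  (cn T (32 * er + yc) ≠ 0 → T.ne.testBit (32 * er + yc) = true ∧
    cs T (32 * er + yc) + cn T (32 * er + yc) ≤ T.nn) ∧
  ∀ G, D.arr.IsGrp G → D.arr.hiR G = D.m - 1 - er → D.arr.hiC G = D.N - 1 - yc → er < D.m →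
    yc < D.N → D.CB G ∨ D.InT T (32 * er + yc) G

theorem snd_cz (hG : D.Good) {T : Tb} {c Z : ℕ} :
    Snd (cz D T c Z) (∀ G, D.arr.IsGrp G → D.Rep Z G → D.CB G ∨ D.InT T c G) := by
  apply Snd.rd
  intro md
  apply Snd.cnd
  · intro _
    apply Snd.rd
    intro h
    apply Snd.ckb
    intro ht G hGr hrep
    left
    intro X W hc
    exact full_of_win hG hc hrep hrep ⟨[], by simp⟩ ⟨[], by simp⟩
      (fun h => absurd h hGr.1) (fun h => absurd h hGr.1) (fun h => absurd h hGr.1) hrep ht
  · intro _
    apply Snd.rd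
    intro id
    apply Snd.ckb
    intro h G hGr hrep
    right
    rcases h1 : Nat.beq (fld64 T.gz id) Z with _ | _
    · rw [h1] at h
      exact absurd h (by simp)
    · rcases h2 : Nat.ble (cs T c) id with _ | _
      · rw [h1, h2] at h
        exact absurd h (by simp)
      · rw [h1, h2, cond_true, cond_true] at h
        refine ⟨id, Nat.le_of_ble_eq_true h2, ?_, ?_⟩
        · rw [Nat.blt_eq] at h
          exact h
        · rw [Nat.eq_of_beq_eq_true h1]
          exact hrep

theorem snd_cbody (hG : D.Good) {T : Tb} {c er yc b b' u v : ℕ} :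
    Snd (cbody D T c er yc b b' u v) (∀ G, D.arr.IsGrp G →
      2 ^ er ||| (u <<< b) < 2 ^ 32 →
      D.Rep ((2 ^ er ||| (u <<< b)) ||| ((2 ^ yc ||| (v <<< b')) <<< 32)) G →
      D.CB G ∨ D.InT T c G) := by
  intro s k hk
  unfold cbody at hk
  rw [sq_eq, sq_eq] at hk
  rcases hd : dl 8 (Nat.lor (Nat.pow 2 er) (Nat.shiftLeft u b))
    (Nat.lor (Nat.pow 2 yc) (Nat.shiftLeft v b')) with _ | _
  · rw [hd, cond_false, sq_eq] at hk
    obtain ⟨h1, h2⟩ := snd_cz hG s k hk
    exact ⟨fun G a _ b => h1 G a b, h2⟩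
  · rw [hd, cond_true] at hk
    refine ⟨?_, s, hk⟩
    intro G hGr hlt hrep
    exfalso
    have hmod : ((2 ^ er ||| (u <<< b)) ||| ((2 ^ yc ||| (v <<< b')) <<< 32)) % 4294967296 =
        2 ^ er ||| (u <<< b) := by
      rw [or_mod]
      have h1 : ((2 ^ yc ||| (v <<< b')) <<< 32) % 4294967296 = 0 := by
        rw [Nat.shiftLeft_eq]
        exact Nat.mul_mod_left _ _
      rw [h1, Nat.or_zero]
      exact Nat.mod_eq_of_lt hlt
    have hdiv : ((2 ^ er ||| (u <<< b)) ||| ((2 ^ yc ||| (v <<< b')) <<< 32)) / 4294967296 =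
        2 ^ yc ||| (v <<< b') := by
      rw [or_div]
      have h1 : ((2 ^ yc ||| (v <<< b')) <<< 32) / 4294967296 = 2 ^ yc ||| (v <<< b') := by
        rw [Nat.shiftLeft_eq]
        exact Nat.mul_div_cancel _ (by norm_num)
      have h2 : (2 ^ er ||| (u <<< b)) / 4294967296 = 0 := Nat.div_eq_of_lt hlt
      rw [h1, h2, Nat.zero_or]
    have hx := hrep.x_lt
    have hy := hrep.y_lt
    have h1 := hrep.fst
    have h2 := hrep.snd
    rw [hmod] at hx h1
    rw [hdiv] at hy h2
    have := dl_sound 8 _ _ hx hy hd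
    apply this
    show (dec D.m (2 ^ er ||| (u <<< b))).length = (dec D.N (2 ^ yc ||| (v <<< b'))).length
    rw [h1, h2, List.length_map, List.length_map]

theorem snd_ccls (hG : D.Good) {T : Tb} {er yc : ℕ} : Snd (ccls D T er yc) (QC D T er yc) := by
  intro s k hk
  unfold ccls at hk
  rw [sq_eq] at hk
  have hce : Nat.add (Nat.mul 32 er) yc = 32 * er + yc := rfl
  rw [hce] at hk
  have hne : (cond (Nat.beq (cn T (32 * er + yc)) 0) true
      (cond (bt T.ne (32 * er + yc))
        (Nat.ble (Nat.add (cs T (32 * er + yc)) (cn T (32 * er + yc))) T.nn) false)) = true →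
      (cn T (32 * er + yc) ≠ 0 → T.ne.testBit (32 * er + yc) = true ∧
        cs T (32 * er + yc) + cn T (32 * er + yc) ≤ T.nn) := by
    intro h0 h1
    rw [beq_false' h1, cond_false] at h0
    rcases h2 : bt T.ne (32 * er + yc) with _ | _
    · rw [h2] at h0
      exact absurd h0 (by simp)
    · rw [h2, cond_true] at h0
      rw [bt_eq] at h2
      exact ⟨h2, Nat.le_of_ble_eq_true h0⟩
  rcases hcond : (cond (Nat.beq (cn T (32 * er + yc)) 0) true
      (cond (bt T.ne (32 * er + yc))
        (Nat.ble (Nat.add (cs T (32 * er + yc)) (cn T (32 * er + yc))) T.nn) false)) with _ | _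
  · rw [hcond] at hk
    exact absurd hk (by simp)
  rw [hcond, cond_true, sq_eq, sq_eq, sq_eq, sq_eq] at hk
  · obtain ⟨h1, h2⟩ := Snd.rl (fun u => Snd.rl (fun v => snd_cbody (T := T) (c := 32 * er + yc)
      (er := er) (yc := yc) (b := D.be er) (b' := D.bey yc) (u := u) (v := v) hG)
      (Nat.pow 2 (Nat.sub yc (D.bey yc))) 0) (Nat.pow 2 (Nat.sub er (D.be er))) 0 s k hk
    refine ⟨⟨hne hcond, ?_⟩, h2⟩
    intro G hGr hhr hhc her hyc
    obtain ⟨Z, hrep⟩ := exists_rep hG hGr.2.1
    obtain ⟨hX0, hY0, p, hp, hp', hpm, hpN, hl1, hl2, hp3, hp4⟩ := hrep.hi hGr.2.1 hGr.1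
    have hle : (Z % 4294967296).log2 = er := by omega
    have hly : (Z / 4294967296).log2 = yc := by omega
    -- bits in the block
    have hbX : ∀ j, (Z % 4294967296).testBit j = true → D.be er ≤ j := by
      intro j hj
      have hjm : j < D.m := by
        by_contra h
        have : (Z % 4294967296).testBit j = false :=
          Nat.testBit_lt_two_pow (lt_of_lt_of_le hrep.x_lt (Nat.pow_le_pow_right (by norm_num) (by omega)))
        rw [hj] at this
        exact absurd this (by simp)
      have h3 : D.m - 1 - j ∈ dec D.m (Z % 4294967296) := by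
        rw [mem_dec]
        refine ⟨by omega, ?_⟩
        have : D.m - 1 - (D.m - 1 - j) = j := by omega
        rw [this]
        exact hj
      rw [hrep.fst] at h3
      obtain ⟨q, hq, hqe⟩ := List.mem_map.mp h3
      have h4 := hGr.2.2 p hp q hq
      have h5 : D.ra (D.m - 1 - p.1) = D.ra (D.m - 1 - q.1) := congrArg Prod.fst h4
      have h6 := hp' q hq
      have e1 : D.m - 1 - p.1 = er := by omega
      have e2 : D.m - 1 - q.1 = j := by omega
      rw [e1, e2] at h5
      by_contra hlt
      have hbe : D.be er ≤ er := by rw [be_eq]; omega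
      exact (be_iff hG her (by omega)).mp (by omega) h5.symm
    have hbY : ∀ j, (Z / 4294967296).testBit j = true → D.bey yc ≤ j := by
      intro j hj
      have hjm : j < D.N := by
        by_contra h
        have : (Z / 4294967296).testBit j = false :=
          Nat.testBit_lt_two_pow (lt_of_lt_of_le hrep.y_lt (Nat.pow_le_pow_right (by norm_num) (by omega)))
        rw [hj] at this
        exact absurd this (by simp)
      have h3 : D.N - 1 - j ∈ dec D.N (Z / 4294967296) := by
        rw [mem_dec]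
        refine ⟨by omega, ?_⟩
        have : D.N - 1 - (D.N - 1 - j) = j := by omega
        rw [this]
        exact hj
      rw [hrep.snd] at h3
      obtain ⟨q, hq, hqe⟩ := List.mem_map.mp h3
      have h4 := hGr.2.2 p hp q hq
      have h5 : D.ca (D.N - 1 - p.2) = D.ca (D.N - 1 - q.2) := congrArg Prod.snd h4
      have h6 := hp' q hq
      have e1 : D.N - 1 - p.2 = yc := by omega
      have e2 : D.N - 1 - q.2 = j := by omega
      rw [e1, e2] at h5
      by_contra hlt
      have hbe : D.bey yc ≤ yc := by rw [bey_eq]; omega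
      exact (bey_iff hG hyc (by omega)).mp (by omega) h5.symm
    have hXs := mask_split hX0 hle hbX
    have hYs := mask_split hY0 hly hbY
    set u := ((Z % 4294967296) >>> D.be er) % 2 ^ (er - D.be er) with hu
    set v := ((Z / 4294967296) >>> D.bey yc) % 2 ^ (yc - D.bey yc) with hv
    have hXlt : Z % 4294967296 < 4294967296 := Nat.mod_lt _ (by norm_num)
    have hZe : Z = (2 ^ er ||| (u <<< D.be er)) ||| ((2 ^ yc ||| (v <<< D.bey yc)) <<< 32) := by
      rw [← hXs, ← hYs]
      apply Nat.eq_of_testBit_eq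
      intro j
      rw [Nat.testBit_or, Nat.testBit_shiftLeft, div_testBit]
      by_cases hj : j < 32
      · rw [mod_testBit hj]
        have : ¬ (32 ≤ j) := by omega
        simp [this]
      · have h5 : (Z % 4294967296).testBit j = false := by
          apply Nat.testBit_lt_two_pow
          calc Z % 4294967296 < 2 ^ 32 := hXlt
            _ ≤ 2 ^ j := Nat.pow_le_pow_right (by norm_num) (by omega)
        have h6 : 32 + (j - 32) = j := by omega
        have h7 : 32 ≤ j := by omega
        rw [h5, h6]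
        simp [h7]
    have hu' : u < 0 + 2 ^ (er - D.be er) := by
      rw [zero_add]
      exact Nat.mod_lt _ (Nat.two_pow_pos _)
    have hv' : v < 0 + 2 ^ (yc - D.bey yc) := by
      rw [zero_add]
      exact Nat.mod_lt _ (Nat.two_pow_pos _)
    refine h1 u (Nat.zero_le _) hu' v (Nat.zero_le _) hv' G hGr ?_ ?_
    · rw [← hXs]
      exact hXlt
    · rw [← hZe]
      exact hrep

theorem snd_crow (hG : D.Good) {T : Tb} {n er : ℕ} :
    Snd (crow D T n er) (∀ e, er ≤ e → e < er + n → ∀ y, 0 ≤ y → y < 0 + D.N → QC D T e y) :=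
  Snd.rl (fun _ => Snd.rl (fun _ => snd_ccls hG) _ _) _ _

end Dat

end Pool.Agent.Simplex
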