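import Pool.Agent.Work.MP_f99e36_co.Chk6

/-!
Kernel-friendly checker, part 7: the closure check and the main theorem.
-/

set_option autoImplicit false

namespace Pool.Agent.Simplex

/-- predecessors of a group -/
def row (T : Tb) (id : ℕ) : ℕ :=
  Nat.land (Nat.shiftRight T.rr (Nat.mul T.st id)) (Nat.sub (Nat.pow 2 T.st) 1)

theorem row_testBit {T : Tb} {id id1 : ℕ} (h : id1 < T.st)
    (h' : T.rr.testBit (T.st * id + id1) = true) : (row T id).testBit id1 = true := by
  show ((T.rr >>> (T.st * id)) &&& (2 ^ T.st - 1)).testBit id1 = true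
  rw [Nat.testBit_and, Nat.testBit_shiftRight, Nat.testBit_two_pow_sub_one, h', Bool.true_and,
    decide_eq_true_iff]
  exact h

namespace Dat

/-- blocked: one test of the last two groups, or a test for every predecessor -/
def bchk (D : Dat) (T : Tb) (Z2 H2 rw' Z3 L3 : ℕ) : Chk := fun s k =>
  sq (Nat.lor Z2 Z3) fun Z23 =>
  rd 1 1 (fun md => cond (Nat.beq md 0)
    (rd 24 16777215 (fun h => ckb (D.tst Z23 (Nat.land H2 L3) h)))
    (bl (fun id1 => fun s k => sq (Nat.lor (fld64 T.gz id1) Z23) fun Z123 =>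
      rd 24 16777215 (fun h => ckb (D.tst Z123 (Nat.land (fld64 T.gh id1) L3) h)) s k) 4096 rw')) s k

/-- exclusive tests -/
def exl (D : Dat) (Z2 H2 e2 y2 : ℕ) (f : ℕ → Chk) (n : ℕ) : ℕ → Chk :=
  Nat.rec (motive := fun _ => ℕ → Chk) (fun acc => f acc)
    (fun _ ih acc => rd 5 31 (fun el => rd 5 31 (fun yl => rd 24 16777215 (fun h s k =>
      cond (Nat.ble el e2) (cond (Nat.ble yl y2)
        (cond (D.tst Z2 (Nat.land H2 (lmk el yl)) h)
          (sq (Nat.lor acc (D.cov el yl)) fun acc' => ih acc' s k) false) false) false)))) n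

/-- check of the group id3 after id2 -/
def pbody (D : Dat) (T : Tb) (id2 Z2 H2 rw' id3 : ℕ) : Chk :=
  rd 1 1 (fun md => cond (Nat.beq md 0)
    (fun s k => sq (fld64 T.gz id3) fun Z3 => sq (fld64 T.gl id3) fun L3 =>
      bchk D T Z2 H2 rw' Z3 L3 s k)
    (ckb (bt T.rr (Nat.add (Nat.mul T.st id3) id2))))

/-- check of the classes after id2 -/
def cbody2 (D : Dat) (T : Tb) (id2 Z2 H2 rw' c : ℕ) : Chk := fun s k =>
  sq (cs T c) fun a => sq (cn T c) fun n => rl (pbody D T id2 Z2 H2 rw') n a s k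

/-- last row bit, or the first position -/
def e2f (D : Dat) (Z2 : ℕ) : ℕ :=
  cond (Nat.beq Z2 0) (Nat.sub D.m 1) (lob (Nat.land Z2 4294967295))
def y2f (D : Dat) (Z2 : ℕ) : ℕ :=
  cond (Nat.beq Z2 0) (Nat.sub D.N 1) (lob (Nat.shiftRight Z2 32))

/-- check of the classes not covered by acc -/
def fin2 (D : Dat) (T : Tb) (id2 Z2 H2 rw' e2 y2 acc : ℕ) : Chk := fun s k =>
  sq (cond (Nat.beq Z2 0) T.ne (Nat.land T.ne (D.cov e2 y2))) fun aft =>
  sq (Nat.xor aft (Nat.land aft acc)) fun rem => bl (cbody2 D T id2 Z2 H2 rw') 4096 rem s k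

/-- the closure check of the group id2 -/
def stp (D : Dat) (T : Tb) (id2 : ℕ) : Chk := fun s k =>
  sq (row T id2) fun rw' =>
  cond (Nat.beq rw' 0) (k s)
    (sq (fld64 T.gz id2) fun Z2 => sq (fld64 T.gh id2) fun H2 =>
      sq (D.e2f Z2) fun e2 => sq (D.y2f Z2) fun y2 =>
      bchk D T Z2 H2 rw' 0 18446744073709551615 s fun s' =>
        rd 5 31 (fun n => exl D Z2 H2 e2 y2 (fin2 D T id2 Z2 H2 rw' e2 y2) n 0) s' k)

/-- the tables of windows are correct for the group id -/
def HTi (D : Dat) (T : Tb) (id : ℕ) : Prop :=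
  fld64 T.gh id = D.hm (fld64 T.gz id) ∧ fld64 T.gl id = lm (fld64 T.gz id)

/-- the tables of windows are correct -/
def HT (D : Dat) (T : Tb) : Prop := ∀ id, id < T.nn → HTi D T id

/-- check of the tables of windows -/
def wck (D : Dat) (T : Tb) (n id : ℕ) : Chk :=
  rl (fun id => ckb (cond (Nat.beq (fld64 T.gh id) (D.hm (fld64 T.gz id)))
    (Nat.beq (fld64 T.gl id) (lm (fld64 T.gz id))) false)) n id

theorem snd_wck {D : Dat} {T : Tb} {n id : ℕ} :
    Snd (wck D T n id) (∀ j, id ≤ j → j < id + n → HTi D T j) := by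
  refine Snd.rl (fun j => Snd.ckb ?_) _ _
  intro h
  rcases h1 : Nat.beq (fld64 T.gh j) (D.hm (fld64 T.gz j)) with _ | _
  · rw [h1] at h
    exact absurd h (by simp)
  · rw [h1, cond_true] at h
    exact ⟨Nat.eq_of_beq_eq_true h1, Nat.eq_of_beq_eq_true h⟩

variable {D : Dat}

theorem Rep.nil_zero {Z : ℕ} (h : D.Rep Z []) : Z = 0 := by
  have h1 : Z % 4294967296 = 0 := by
    by_contra h0
    have := h.fst
    rw [dec_cons h0 h.x_lt] at this
    simp at this
  have h2 : Z / 4294967296 = 0 := by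
    by_contra h0
    have := h.snd
    rw [dec_cons h0 h.y_lt] at this
    simp at this
  omega

theorem Rep.zero_nil {M : List (ℕ × ℕ)} (h : D.Rep 0 M) : M = [] := by
  have h1 := h.fst
  rw [Nat.zero_mod, dec_zero] at h1
  cases M with
  | nil => rfl
  | cons a t => simp at h1

theorem lm_zero : lm 0 = 18446744073709551615 := by decide +kernel

/-- what a blocking check proves -/
def BQ (D : Dat) (T : Tb) (Z2 rw' Z3 : ℕ) : Prop :=
  ∀ id1 G1 G2 G3, id1 < T.nn → rw'.testBit id1 = true → D.Rep (fld64 T.gz id1) G1 → D.Rep Z2 G2 →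
    D.Rep Z3 G3 → (G2 = [] → G1 = []) → D.arr.After G1 (G2 ++ G3) → D.arr.Blk3 G1 G2 G3

theorem snd_bchk (hG : D.Good) {T : Tb} (hT : HT D T) {Z2 H2 rw' Z3 L3 : ℕ} :
    Snd (bchk D T Z2 H2 rw' Z3 L3) (H2 = D.hm Z2 → L3 = lm Z3 → D.BQ T Z2 rw' Z3) := by
  intro s k hk
  unfold bchk at hk
  rw [sq_eq] at hk
  refine Snd.rd (w := 1) (f := _) (Q := H2 = D.hm Z2 → L3 = lm Z3 → D.BQ T Z2 rw' Z3) ?_ s k hk
  intro md
  apply Snd.cnd
  · intro _
    apply Snd.rd
    intro h
    apply Snd.ckb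
    intro ht hH hL id1 G1 G2 G3 _ hid h1 h2 h3 h12 haf X Z hX hZ hc
    subst hH
    subst hL
    have hc' : D.arr.Ctx X (G1 ++ (G2 ++ G3)) Z := by rwa [← List.append_assoc]
    have hc2 := hc'.assoc haf
    have hv := hc2.1.append.1.append.2.1
    have := full_of_win hG hc2 (F := G2) (L := G3) h2 h3 ⟨G3, rfl⟩ ⟨G2, rfl⟩
      (fun h => by rw [h12 h, hX (h12 h)]; rfl) hZ
      (fun h => (h ▸ h2).nil_zero) (h2.append h3 hv) ht
    simpa [List.append_assoc] using this
  · intro _
    have hb : ∀ id1, Snd (fun s k => sq (Nat.lor (fld64 T.gz id1) (Nat.lor Z2 Z3)) fun Z123 =>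
      rd 24 16777215 (fun h => ckb (D.tst Z123 (Nat.land (fld64 T.gh id1) L3) h)) s k)
        (id1 < T.nn → L3 = lm Z3 → ∀ G1 G2 G3, D.Rep (fld64 T.gz id1) G1 → D.Rep Z2 G2 →
          D.Rep Z3 G3 → (G2 = [] → G1 = []) → D.arr.After G1 (G2 ++ G3) → D.arr.Blk3 G1 G2 G3) := by
      intro id1 s k hk
      beta_reduce at hk
      rw [sq_eq] at hk
      refine Snd.rd (w := 24) (f := _) ?_ s k hk
      intro h
      apply Snd.ckb
      intro ht hid1 hL G1 G2 G3 h1 h2 h3 h12 haf X Z hX hZ hc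
      rw [(hT id1 hid1).1, hL] at ht
      have hc' : D.arr.Ctx X (G1 ++ (G2 ++ G3)) Z := by rwa [← List.append_assoc]
      have hv := hc'.1.append.1.append.2.1
      have := full_of_win hG hc' (F := G1) (L := G3) h1 h3 ⟨G2 ++ G3, rfl⟩
        ⟨G1 ++ G2, by rw [List.append_assoc]⟩ hX hZ
        (fun h => (h ▸ h1).nil_zero) (h1.append (h2.append h3 hv.append.2.1) hv) ht
      simpa [List.append_assoc] using this
    have := Snd.bl hb 4096 rw'
    intro s k hk
    obtain ⟨a, b⟩ := this s k hk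
    exact ⟨fun _ hL id1 G1 G2 G3 hn hid h1 => a id1 hid hn hL G1 G2 G3 h1, b⟩

/-- the classes in acc are excluded -/
def EQ (D : Dat) (Z2 H2 acc : ℕ) : Prop := H2 = D.hm Z2 →
  ∀ er yc, er < D.m → yc < D.N → acc.testBit (32 * er + yc) = true →
    ∀ G2 X Z (g : ℕ × ℕ), D.Rep Z2 G2 → D.arr.Ctx X G2 Z → (G2 = [] → X = []) →
      (∀ q ∈ Z, g.1 ≤ q.1 ∧ g.2 ≤ q.2) → g.1 < D.m → g.2 < D.N → D.m - 1 - g.1 = er →
      D.N - 1 - g.2 = yc → D.arr.Full (X ++ G2 ++ Z)

theorem e2f_zero : D.e2f 0 = D.m - 1 := rfl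
theorem y2f_zero : D.y2f 0 = D.N - 1 := rfl

theorem e2f_eq {Z : ℕ} (h : Z ≠ 0) : D.e2f Z = lob (Z % 4294967296) := by
  unfold e2f
  rw [beq_false' h, cond_false, land_low]

theorem y2f_eq {Z : ℕ} (h : Z ≠ 0) : D.y2f Z = lob (Z / 4294967296) := by
  unfold y2f
  rw [beq_false' h, cond_false, shift_high]

theorem exl_sound (hG : D.Good) {Z2 H2 : ℕ} {f : ℕ → Chk} {k : ℕ → Bool} :
    ∀ (n acc s : ℕ), D.EQ Z2 H2 acc →
      exl D Z2 H2 (D.e2f Z2) (D.y2f Z2) f n acc s k = true →
      ∃ acc' s', D.EQ Z2 H2 acc' ∧ f acc' s' k = true := by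
  intro n
  induction n with
  | zero =>
    intro acc s h hk
    exact ⟨acc, s, h, hk⟩
  | succ n ih =>
    intro acc s hE hk
    have hk' : rd 5 31 (fun el => rd 5 31 (fun yl => rd 24 16777215 (fun h s k =>
      cond (Nat.ble el (D.e2f Z2)) (cond (Nat.ble yl (D.y2f Z2))
        (cond (D.tst Z2 (Nat.land H2 (lmk el yl)) h)
          (sq (Nat.lor acc (D.cov el yl)) fun acc' =>
            exl D Z2 H2 (D.e2f Z2) (D.y2f Z2) f n acc' s k) false) false) false)))
        s k = true := hk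
    unfold rd at hk'
    simp only [sq_eq] at hk'
    generalize Nat.land s 31 = el at hk'
    generalize hs1 : Nat.shiftRight s 5 = s1 at hk'
    generalize Nat.land s1 31 = yl at hk'
    generalize hs2 : Nat.shiftRight s1 5 = s2 at hk'
    generalize Nat.land s2 16777215 = h at hk'
    generalize Nat.shiftRight s2 24 = s3 at hk'
    rcases c1 : Nat.ble el (D.e2f Z2) with _ | _
    · rw [c1] at hk'
      exact absurd hk' (by simp)
    rcases c2 : Nat.ble yl (D.y2f Z2) with _ | _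
    · rw [c1, c2] at hk'
      exact absurd hk' (by simp)
    rcases c3 : D.tst Z2 (Nat.land H2 (lmk el yl)) h with _ | _
    · rw [c1, c2, c3] at hk'
      exact absurd hk' (by simp)
    rw [c1, c2, c3] at hk'
    simp only [cond_true] at hk'
    refine ih _ _ ?_ hk'
    have hel := Nat.le_of_ble_eq_true c1
    have hyl := Nat.le_of_ble_eq_true c2
    intro hH er yc her hyc hbit G2 X Z g hr hc hX hg hg1 hg2 hge hgy
    rw [hH] at c3
    have hbit' : (acc ||| D.cov el yl).testBit (32 * er + yc) = true := hbit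
    rw [Nat.testBit_or, Bool.or_eq_true] at hbit'
    rcases hbit' with hb | hb
    · exact hE hH er yc her hyc hb G2 X Z g hr hc hX hg hg1 hg2 hge hgy
    · have hv : D.arr.Valid G2 := hc.1.append.1.append.2.1
      have hlo : G2 ≠ [] → el ≤ lob (Z2 % 4294967296) ∧ yl ≤ lob (Z2 / 4294967296) := by
        intro hn
        have hZ : Z2 ≠ 0 := by
          rintro rfl
          exact hn hr.zero_nil
        rw [e2f_eq hZ] at hel
        rw [y2f_eq hZ] at hyl
        exact ⟨hel, hyl⟩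
      have hel' : el < D.m ∧ yl < D.N := by
        by_cases hn : G2 = []
        · have hZ := (hn ▸ hr).nil_zero
          rw [hZ, e2f_zero] at hel
          rw [hZ, y2f_zero] at hyl
          have := hG.m_pos
          have := hG.N_pos
          omega
        · obtain ⟨p, -, -, hp1, hp2, h3, h4, -⟩ := hr.lo hv hn
          have := hlo hn
          omega
      rw [cov_iff hG hel'.1 hel'.2 her hyc] at hb
      exact full_of_excl hG hc hr hX (fun h => (h ▸ hr).nil_zero) hel'.1 hel'.2 hlo hg hg1 hg2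
        (by omega) (by omega) (by rw [hge, hgy]; exact hb.2.2) c3

/-- the class of a group -/
def clsOf (D : Dat) (G : List (ℕ × ℕ)) : ℕ :=
  32 * (D.m - 1 - D.arr.hiR G) + (D.N - 1 - D.arr.hiC G)

/-- what the check of a pair proves -/
def PQ (D : Dat) (T : Tb) (id2 Z2 H2 rw' id3 : ℕ) : Prop :=
  id3 < T.nn → H2 = D.hm Z2 →
    D.BQ T Z2 rw' (fld64 T.gz id3) ∨ T.rr.testBit (T.st * id3 + id2) = true

theorem snd_pbody (hG : D.Good) {T : Tb} (hT : HT D T) {id2 Z2 H2 rw' id3 : ℕ} :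
    Snd (pbody D T id2 Z2 H2 rw' id3) (D.PQ T id2 Z2 H2 rw' id3) := by
  apply Snd.rd
  intro md
  apply Snd.cnd
  · intro _ s k hk
    beta_reduce at hk
    rw [sq_eq, sq_eq] at hk
    obtain ⟨a, b⟩ := snd_bchk hG hT s k hk
    exact ⟨fun hn hH => Or.inl (a hH (hT id3 hn).2), b⟩
  · intro _
    apply Snd.ckb
    intro h _ _
    right
    rw [bt_eq] at h
    exact h

theorem snd_cbody2 (hG : D.Good) {T : Tb} (hT : HT D T) {id2 Z2 H2 rw' c : ℕ} :
    Snd (cbody2 D T id2 Z2 H2 rw' c)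
      (∀ id3, cs T c ≤ id3 → id3 < cs T c + cn T c → D.PQ T id2 Z2 H2 rw' id3) := by
  intro s k hk
  unfold cbody2 at hk
  rw [sq_eq, sq_eq] at hk
  exact Snd.rl (fun _ => snd_pbody hG hT) _ _ s k hk

/-- what the closure check of id2 proves -/
def Q2 (D : Dat) (T : Tb) (id2 : ℕ) : Prop := id2 < T.nn →
  ∀ id1 G1 G2, id1 < T.nn → T.rr.testBit (T.st * id2 + id1) = true →
    D.Rep (fld64 T.gz id1) G1 → D.Rep (fld64 T.gz id2) G2 → D.arr.Valid G2 →
    (G2 = [] → G1 = []) → D.arr.After G1 G2 →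
    D.arr.Blk3 G1 G2 [] ∧
    ∀ id3 G3, D.arr.IsGrp G3 → D.arr.After G1 G3 → D.arr.After G2 G3 →
      cs T (D.clsOf G3) ≤ id3 → id3 < cs T (D.clsOf G3) + cn T (D.clsOf G3) → id3 < T.nn →
      T.ne.testBit (D.clsOf G3) = true → D.Rep (fld64 T.gz id3) G3 →
      D.arr.Blk3 G1 G2 G3 ∨ T.rr.testBit (T.st * id3 + id2) = true

theorem snd_stp (hG : D.Good) {T : Tb} (hT : HT D T) (hst : T.nn ≤ T.st) {id2 : ℕ} :
    Snd (stp D T id2) (D.Q2 T id2) := by
  intro s k hk
  unfold stp at hk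
  rw [sq_eq] at hk
  by_cases h0 : row T id2 = 0
  · rw [h0] at hk
    refine ⟨?_, s, hk⟩
    intro _ id1 G1 G2 h1 h2
    have := row_testBit (lt_of_lt_of_le h1 hst) h2
    rw [h0] at this
    exact absurd this (by simp)
  · rw [beq_false' h0, cond_false, sq_eq, sq_eq, sq_eq, sq_eq] at hk
    obtain ⟨hB, s1, hk1⟩ := snd_bchk hG hT s _ hk
    unfold rd at hk1
    simp only [sq_eq] at hk1
    obtain ⟨acc, s2, hE, hk2⟩ := exl_sound hG _ _ _ (by
      intro _ er yc _ _ h
      exact absurd h (by simp)) hk1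
    unfold fin2 at hk2
    rw [sq_eq, sq_eq] at hk2
    obtain ⟨hP, hend⟩ := Snd.bl (fun c => snd_cbody2 hG hT (id2 := id2)
      (Z2 := fld64 T.gz id2) (H2 := fld64 T.gh id2) (rw' := row T id2) (c := c)) 4096 _ s2 k hk2
    refine ⟨?_, hend⟩
    intro hn2 id1 G1 G2 hid1 hbit hr1 hr2 hv2 h12 haf
    have hH := (hT id2 hn2).1
    have hrow := row_testBit (lt_of_lt_of_le hid1 hst) hbit
    refine ⟨?_, ?_⟩
    · refine hB hH lm_zero.symm id1 G1 G2 [] hid1 hrow hr1 hr2 Rep.zero h12 ?_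
      rw [List.append_nil]
      exact haf
    · intro id3 G3 hG3 haf13 haf23 hc1 hc2 hn3 hne hr3
      obtain ⟨-, -, g, hg, hg', hgm, hgN, hl1, hl2, hh1, hh2⟩ := hr3.hi hG3.2.1 hG3.1
      have her : D.m - 1 - D.arr.hiR G3 < D.m := by have := hG.m_pos; omega
      have hyc : D.N - 1 - D.arr.hiC G3 < D.N := by have := hG.N_pos; omega
      by_cases hacc : acc.testBit (D.clsOf G3) = true
      · left
        intro X Z hX hZ hc
        have hc' := Arr.Ctx.assoc' hc (Arr.After.append_left haf13 haf23)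
        have hc2' := hc'.assoc haf
        have := hE hH _ _ her hyc hacc G2 (X ++ G1) (G3 ++ Z) g hr2 hc2'
          (fun h => by rw [h12 h, hX (h12 h)]; rfl) ?_ hgm hgN (by rw [hh1]) (by rw [hh2])
        · simpa [List.append_assoc] using this
        · intro q hq
          rcases List.mem_append.mp hq with h | h
          · exact hg' q h
          · have := hc.1.append.2.2 g (by simp [hg]) q h
            exact ⟨this.1.le, this.2.le⟩
      · have haft : (cond (Nat.beq (fld64 T.gz id2) 0) T.ne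
            (Nat.land T.ne (D.cov (D.e2f (fld64 T.gz id2)) (D.y2f (fld64 T.gz id2))))).testBit
            (D.clsOf G3) = true := by
          by_cases hz : fld64 T.gz id2 = 0
          · rw [hz]
            exact hne
          · rw [beq_false' hz, cond_false]
            show (_ &&& _ : ℕ).testBit _ = true
            rw [Nat.testBit_and, hne, Bool.true_and]
            have hn2 : G2 ≠ [] := by
              intro h
              exact hz (h ▸ hr2).nil_zero
            obtain ⟨p, hp, hp', hp1, hp2, h3, h4, -⟩ := hr2.lo hv2 hn2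
            rw [e2f_eq hz, y2f_eq hz, h3, h4]
            unfold clsOf
            rw [cov_iff hG (by omega) (by omega) her hyc]
            have ha := haf23 p hp g hg
            refine ⟨by omega, by omega, ?_⟩
            by_contra hcon
            push Not at hcon
            apply ha.2.2
            unfold Arr.blk
            rw [Prod.mk.injEq]
            rw [hh1, hh2] at hcon
            exact ⟨hcon.1.symm, hcon.2.symm⟩
        have hrem := hP (D.clsOf G3) (by
          show (_ ^^^ (_ &&& _) : ℕ).testBit _ = true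
          rw [Nat.testBit_xor, Nat.testBit_and, haft]
          simp only [Bool.not_eq_true] at hacc
          rw [hacc]
          rfl) id3 hc1 hc2 hn3 hH
        rcases hrem with hb | hb
        · left
          exact hb id1 G1 G2 G3 hid1 hrow hr1 hr2 hr3 h12 (Arr.After.append haf haf13)
        · exact Or.inr hb

/-- loop over the groups id, ..., id+n-1 -/
def clo (D : Dat) (T : Tb) (n id : ℕ) : Chk := rl (stp D T) n id

theorem snd_clo (hG : D.Good) {T : Tb} (hT : HT D T) (hst : T.nn ≤ T.st) {n id : ℕ} :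
    Snd (clo D T n id) (∀ j, id ≤ j → j < id + n → D.Q2 T j) :=
  Snd.rl (fun _ => snd_stp hG hT hst) _ _

/-- force the data -/
def frc (D : Dat) (T : Tb) (f : Dat → Tb → Bool) : Bool :=
  sq D.m fun m => sq D.N fun N => sq D.p fun p => sq D.q fun q => sq D.ut fun ut =>
  sq D.vt fun vt => sq D.tab fun tab =>
  sq T.gz fun gz => sq T.gh fun gh => sq T.gl fun gl => sq T.ct fun ct => sq T.ne fun ne =>
  sq T.rr fun rr => sq T.st fun st => sq T.nn fun nn =>
  f ⟨m, N, p, q, ut, vt, tab⟩ ⟨gz, gh, gl, ct, ne, rr, st, nn⟩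

theorem frc_eq (D : Dat) (T : Tb) (f : Dat → Tb → Bool) : frc D T f = f D T := by
  unfold frc
  simp only [sq_eq]

/-- the check of classes, in kernel form -/
def kcrow (D : Dat) (T : Tb) (n er s : ℕ) : Bool :=
  frc D T fun D T => crow D T n er s (fun _ => true)

/-- the check of windows, in kernel form -/
def kwck (D : Dat) (T : Tb) (n id : ℕ) : Bool :=
  frc D T fun D T => wck D T n id 0 (fun _ => true)

/-- the closure check, in kernel form -/
def kclo (D : Dat) (T : Tb) (n id s : ℕ) : Bool :=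
  frc D T fun D T => clo D T n id s (fun _ => true)

theorem of_kcrow (hG : D.Good) {T : Tb} {n er s : ℕ} (h : kcrow D T n er s = true) :
    ∀ e, er ≤ e → e < er + n → ∀ y, y < D.N → D.QC T e y := by
  unfold kcrow at h
  rw [frc_eq] at h
  intro e h1 h2 y hy
  exact (snd_crow hG _ _ h).1 e h1 h2 y (Nat.zero_le _) (by omega)

theorem of_kwck {T : Tb} {n id : ℕ} (h : kwck D T n id = true) :
    ∀ j, id ≤ j → j < id + n → HTi D T j := by
  unfold kwck at h
  rw [frc_eq] at h
  exact (snd_wck _ _ h).1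

theorem of_kclo (hG : D.Good) {T : Tb} (hT : HT D T) (hst : T.nn ≤ T.st) {n id s : ℕ}
    (h : kclo D T n id s = true) : ∀ j, id ≤ j → j < id + n → D.Q2 T j := by
  unfold kclo at h
  rw [frc_eq] at h
  exact (snd_clo hG hT hst _ _ h).1

/-- **Main theorem of the checker.** -/
theorem all_full (hG : D.Good) {T : Tb} (hpos : 0 < T.nn)
    (h00 : T.rr.testBit 0 = true) (hz : fld64 T.gz 0 = 0)
    (hQC : ∀ er, er < D.m → ∀ yc, yc < D.N → D.QC T er yc) (hQ2 : ∀ id, id < T.nn → D.Q2 T id) :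
    ∀ L, D.arr.Valid L → D.arr.Full L := by
  have hcomp : ∀ G, D.arr.IsGrp G → D.CB G ∨
      (T.ne.testBit (D.clsOf G) = true ∧ cs T (D.clsOf G) + cn T (D.clsOf G) ≤ T.nn ∧
        D.InT T (D.clsOf G) G) := by
    intro G hGr
    obtain ⟨Z, hrep⟩ := exists_rep hG hGr.2.1
    obtain ⟨-, -, p, hp, hp', hpm, hpN, hl1, hl2, hp3, hp4⟩ := hrep.hi hGr.2.1 hGr.1
    have her : D.m - 1 - D.arr.hiR G < D.m := by have := hG.m_pos; omega
    have hyc : D.N - 1 - D.arr.hiC G < D.N := by have := hG.N_pos; omega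
    obtain ⟨h1, h2⟩ := hQC _ her _ hyc
    rcases h2 G hGr (by omega) (by omega) her hyc with h | h
    · exact Or.inl h
    · right
      obtain ⟨a, b⟩ := h1 (by
        obtain ⟨id, ha, hb, -⟩ := h
        omega)
      exact ⟨a, b, h⟩
  have h00' : T.rr.testBit (T.st * 0 + 0) = true := by simpa using h00
  have hAf : ∀ G, D.arr.After [] G := by
    intro G p hp
    simp at hp
  have hR0 : D.Rep (fld64 T.gz 0) [] := by
    rw [hz]
    exact Rep.zero
  have hv0 : D.arr.Valid [] := ⟨Arr.Inc.nil, by simp⟩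
  refine Arr.all_blocked' (wf hG) (fun G1 G2 => ∃ id1 id2, id1 < T.nn ∧ id2 < T.nn ∧
    D.Rep (fld64 T.gz id1) G1 ∧ D.Rep (fld64 T.gz id2) G2 ∧
    T.rr.testBit (T.st * id2 + id1) = true) ?_ ?_ ?_ ?_
  · have := (hQ2 0 hpos hpos 0 [] [] hpos h00' hR0 hR0 hv0 (fun _ => rfl) (hAf _)).1 [] []
      (fun _ => rfl) (fun _ => rfl) ⟨by simpa using hv0, by simp, by simp⟩
    simpa using this
  · intro G hGr
    rcases hcomp G hGr with h | ⟨hne, hle, id, ha, hb, hrep⟩
    · left
      intro X Z _ _ hc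
      have := h X Z (by simpa using hc)
      simpa using this
    · rcases (hQ2 0 hpos hpos 0 [] [] hpos h00' hR0 hR0 hv0 (fun _ => rfl) (hAf _)).2 id G hGr
        (hAf _) (hAf _) ha hb (by omega) hne hrep with h | h
      · exact Or.inl h
      · exact Or.inr ⟨0, id, hpos, by omega, hR0, hrep, h⟩
  · rintro G1 G2 G3 ⟨id1, id2, hi1, hi2, hr1, hr2, hbit⟩ hG1 hG2 hG3 haf12 haf23 haf13
    rcases hcomp G3 hG3 with h | ⟨hne, hle, id, ha, hb, hrep⟩
    · left
      intro X Z _ _ hc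
      have hc' := hc.assoc (Arr.After.append_left haf13 haf23)
      have := h _ Z hc'
      simpa [List.append_assoc] using this
    · rcases (hQ2 id2 hi2 hi2 id1 G1 G2 hi1 hbit hr1 hr2 hG2.2.1 (fun h => absurd h hG2.1)
        haf12).2 id G3 hG3 haf13 haf23 ha hb (by omega) hne hrep with h | h
      · exact Or.inl h
      · exact Or.inr ⟨id2, id, hi2, by omega, hr2, hrep, h⟩
  · rintro G1 G2 ⟨id1, id2, hi1, hi2, hr1, hr2, hbit⟩ hG1 hG2 haf12
    exact (hQ2 id2 hi2 hi2 id1 G1 G2 hi1 hbit hr1 hr2 hG2.2.1 (fun h => absurd h hG2.1)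
      haf12).1

end Dat

end Pool.Agent.Simplex
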