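import Pool.Agent.Work.MP_f99e36_co.Inst

/-!
The pair table and the block table of the final object (generated).
-/

set_option autoImplicit false

namespace Pool.Agent.Simplex

noncomputable def ptF_0 : ℕ := 0x4000400040008000c00080003000100000000000b00010002000800030002000000000000000000010008000b0002000c000100010001000600080003000400000000000000000005000400000000000900010000000100070001000b000400000000000c000200020002000100020006000200050001000800040003000800080001000000000000000000000000000f000400050008000000000000000000000000000900020000000000000002000d000100070002000e0001000b0008000000000000000000040002000c000400000000000200040000000000010004000d0008000600040000000000050002000a000800080008000000000002000100060001000800020009000800000000000f0002000000000000000000000000000e0008000f000800000008000400010000000000000000000d000400000000000a0004000000000007000800090004000f000100000000000e00040000000400000000000d0002000a00020007000400100008000e000200000000000a00010010000400000000001000020010000100000000000000000000000000000000100000000011000020000000200000000000000000000000001100004000000000000000400000000000000000000000000000000000000000000000000000000011000080110000100000000000000000000000800000000000000000000000000000000022000080000000000000000000000000220000400000000022000020220000100000000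

/-- pair table -/
noncomputable def ptF : ℕ := ptF_0

/-- block table -/
noncomputable def btF : ℕ := 0x30003000000020007040300000002000b080300000002000f0c030000000200131003000000020017140300000002001b180300000002001f1c030000000200232003000000020027240300000002002b280300000002002f2c030000000200333003000000020037340300000002003b380300000002003f3c0300000002004340030000000200030007040000010007040704000001000b080704000001000f0c070400000100131007040000010017140704000001001b180704000001001f1c070400000100232007040000010027240704000001002b280704000001002f2c070400000100333007040000010037340704000001003b380704000001003f3c070400000100434007040000010003000b080000000007040b08000000000b080b08000000000f0c0b080000000013100b080000000017140b08000000001b180b08000000001f1c0b080000000023200b080000000027240b08000000002b280b08000000002f2c0b080000000033300b080000000037340b08000000003b380b08000000003f3c0b080000000043400b0800000000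

theorem linkOK_F : LinkOK ptF btF where
  bid := by decide +kernel
  loc := by decide +kernel
  bas := by decide +kernel

theorem datF_rect : ∀ b, b < 51 → ∀ e, e < 12 → ∀ y, y < 68 →
    ((datP ptF btF 0 0 0).r0 b ≤ e ∧ e ≤ (datP ptF btF 0 0 0).r1 b ∧
      (datP ptF btF 0 0 0).c0 b ≤ y ∧ y ≤ (datP ptF btF 0 0 0).c1 b) →
    (datP ptF btF 0 0 0).bid e y = b := by decide +kernel

theorem datF_good0 : (datP ptF btF 0 0 0).Good where
  m_le := by decide
  N_le := by decide
  m_pos := by decide
  N_pos := by decide
  nb_pos := by decide
  tab_zero := by decide +kernel
  cell := by decide +kernel
  rect := fun b hb e he y hy h1 h2 h3 h4 => datF_rect b hb e he y hy ⟨h1, h2, h3, h4⟩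
  size := by decide +kernel

/-- the data is consistent at all stages -/
theorem datF_good (al ng cc : ℕ) : (datP ptF btF al ng cc).Good where
  m_le := datF_good0.m_le
  N_le := datF_good0.N_le
  m_pos := datF_good0.m_pos
  N_pos := datF_good0.N_pos
  nb_pos := datF_good0.nb_pos
  tab_zero := datF_good0.tab_zero
  cell := datF_good0.cell
  rect := datF_good0.rect
  size := datF_good0.size

theorem nv_sub {T : GTb} (h : Nat.beq (Nat.land T.nv T.ne) T.nv = true) :
    ∀ c, T.nv.testBit c = true → T.ne.testBit c = true := by
  intro c hc
  have h1 : T.nv &&& T.ne = T.nv := Nat.eq_of_beq_eq_true h
  rw [← h1, Nat.testBit_and, Bool.and_eq_true] at hc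
  exact hc.2

end Pool.Agent.Simplex
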