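import Pool.Agent.Work.MP_f99e36_co.BlockTab
import Pool.Agent.Work.MP_f99e36_co.ArrNat
import Pool.Agent.Work.MP_f99e36_co.Link
import Pool.Agent.Work.MP_f99e36_co.Chk7

/-!
From kernel checks of the blocks of the numerical data to the three-term relations for the sign
function of the array.
-/

set_option autoImplicit false

namespace Pool.Agent.Simplex

open Finset

/-! ### Masks with weights -/

/-- The mask of a finite set with respect to weights. -/
def maskW (w : ℕ → ℕ) (S : Finset ℕ) : ℕ := S.fold (fun a b => a ^^^ b) 0 w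

theorem maskW_empty (w : ℕ → ℕ) : maskW w ∅ = 0 := rfl

theorem maskW_insert {w : ℕ → ℕ} {S : Finset ℕ} {i : ℕ} (hi : i ∉ S) :
    maskW w (insert i S) = w i ^^^ maskW w S := Finset.fold_insert hi

theorem maskW_add2 {w : ℕ → ℕ} {z : Finset ℕ} {a b : ℕ} (ha : a ∉ z) (hb : b ∉ z) (hab : a ≠ b) :
    maskW w (add2 z a b) = w a ^^^ (w b ^^^ maskW w z) := by
  unfold add2
  rw [maskW_insert, maskW_insert hb]
  simp only [Finset.mem_insert, not_or]
  exact ⟨hab, ha⟩

theorem maskW_union {w : ℕ → ℕ} {S T : Finset ℕ} (h : Disjoint S T) :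
    maskW w (S ∪ T) = maskW w S ^^^ maskW w T := by
  induction S using Finset.induction_on with
  | empty => rw [empty_union, maskW_empty, Nat.zero_xor]
  | insert a s ha ih =>
    rw [disjoint_insert_left] at h
    have h1 : a ∉ s ∪ T := by
      rw [mem_union]
      rintro (h1 | h1)
      · exact ha h1
      · exact h.1 h1
    rw [insert_union, maskW_insert h1, maskW_insert ha, ih h.2, Nat.xor_assoc]

theorem two_pow_xor (e : ℕ) : ∀ M : ℕ, M.testBit e = false → 2 ^ e ^^^ M = 2 ^ e + M := by
  induction e with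
  | zero =>
    intro M hM
    have h2 : (2 ^ 0 ^^^ M) / 2 = 2 ^ 0 / 2 ^^^ M / 2 := Nat.xor_div_two
    have h3 : ((2 ^ 0 ^^^ M) % 2 = 1) ↔ ¬ (((2 ^ 0 : ℕ) % 2 = 1) ↔ (M % 2 = 1)) :=
      Nat.xor_mod_two_eq_one
    have h4 : M % 2 = 0 := by
      rw [Nat.testBit_zero] at hM
      have := of_decide_eq_false hM
      omega
    have h5 : (2 ^ 0 : ℕ) / 2 = 0 := by norm_num
    rw [h5, Nat.zero_xor] at h2
    have h6 : (2 ^ 0 : ℕ) = 1 := rfl
    rw [h6] at h2 h3 ⊢
    rw [h4] at h3
    omega
  | succ e ih =>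
    intro M hM
    have h2 : (2 ^ (e + 1) ^^^ M) / 2 = 2 ^ (e + 1) / 2 ^^^ M / 2 := Nat.xor_div_two
    have h3 : ((2 ^ (e + 1) ^^^ M) % 2 = 1) ↔ ¬ (((2 ^ (e + 1) : ℕ) % 2 = 1) ↔ (M % 2 = 1)) :=
      Nat.xor_mod_two_eq_one
    have h5 : (2 ^ (e + 1) : ℕ) / 2 = 2 ^ e := by rw [pow_succ]; omega
    have h6 : (2 ^ (e + 1) : ℕ) % 2 = 0 := by rw [pow_succ]; omega
    rw [Nat.testBit_add_one] at hM
    rw [h5, ih _ hM] at h2
    rw [h6] at h3
    have h7 : (2 ^ (e + 1) : ℕ) = 2 * 2 ^ e := by rw [pow_succ]; omega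
    generalize (2 ^ (e + 1) ^^^ M) = Z at *
    omega

/-- for distinct powers of two the mask is the sum -/
theorem maskW_eq_sum {w lg : ℕ → ℕ} (S : Finset ℕ) (hw : ∀ x ∈ S, w x = 2 ^ lg x)
    (hinj : ∀ x ∈ S, ∀ y ∈ S, lg x = lg y → x = y) :
    maskW w S = ∑ x ∈ S, w x ∧ ∀ i, (maskW w S).testBit i = decide (∃ x ∈ S, lg x = i) := by
  induction S using Finset.induction_on with
  | empty => exact ⟨rfl, fun i => by simp [maskW_empty]⟩
  | insert a s ha ih =>
    obtain ⟨h1, h2⟩ := ih (fun x hx => hw x (mem_insert_of_mem hx))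
      (fun x hx y hy => hinj x (mem_insert_of_mem hx) y (mem_insert_of_mem hy))
    have hna : ¬ ∃ x ∈ s, lg x = lg a := by
      rintro ⟨x, hx, hxa⟩
      exact ha (hinj x (mem_insert_of_mem hx) a (mem_insert_self a s) hxa ▸ hx)
    have h3 : (maskW w s).testBit (lg a) = false := by
      rw [h2, decide_eq_false hna]
    have hwa := hw a (mem_insert_self a s)
    constructor
    · rw [maskW_insert ha, sum_insert ha, ← h1, hwa, two_pow_xor _ _ h3]
    · intro i
      rw [maskW_insert ha, Nat.testBit_xor, h2, hwa, Nat.testBit_two_pow]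
      by_cases hi : lg a = i
      · subst hi
        have : ∃ x ∈ insert a s, lg x = lg a := ⟨a, mem_insert_self a s, rfl⟩
        simp [hna]
      · have : (∃ x ∈ insert a s, lg x = i) ↔ (∃ x ∈ s, lg x = i) := by
          constructor
          · rintro ⟨x, hx, hxi⟩
            rcases mem_insert.mp hx with h | h
            · exact absurd (h ▸ hxi) hi
            · exact ⟨x, h, hxi⟩
          · rintro ⟨x, hx, hxi⟩
            exact ⟨x, mem_insert_of_mem hx, hxi⟩
        simp only [this, hi, decide_false, Bool.false_xor]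

theorem foldr_map_eq_maskW (w : ℕ → ℕ) (l : List ℕ) (h : l.Nodup) :
    (l.map w).foldr (fun a b => a ^^^ b) 0 = maskW w l.toFinset := by
  induction l with
  | nil => rfl
  | cons x l ih =>
    rw [List.map_cons, List.foldr_cons, List.toFinset_cons, maskW_insert, ih (List.nodup_cons.mp h).2]
    rw [List.mem_toFinset]
    exact (List.nodup_cons.mp h).1

/-- Soundness of the check with weights: els is the increasing list of the elements. -/
theorem zrec_sound {els : List ℕ} {w : ℕ → ℕ} {r R tab : ℕ} (hs : els.Pairwise (· < ·))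
    (hw : ∀ i ∈ els, ∀ j ∈ els, w i = w j → i = j)
    (h : zrec tab (els.reverse.map w) (r - 2) R [] = true) :
    GP3 id els.toFinset r (fun S => tab.testBit (R ^^^ maskW w S)) := by
  intro z a b c d hz ha hb hc hd haz hbz hcz hdz hzr hab hbc hcd
  simp only [id] at hab hbc hcd
  have key : ∀ u v : ℕ, u ∉ z → v ∉ z → u ≠ v →
      tab.testBit (R ^^^ maskW w (add2 z u v)) =
        tab.testBit (R ^^^ maskW w z ^^^ (w u ^^^ w v)) := by
    intro u v hu hv huv
    rw [maskW_add2 hu hv huv]
    congr 1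
    rw [← Nat.xor_assoc (w u), Nat.xor_comm (w u ^^^ w v), Nat.xor_assoc]
  show ((tab.testBit (R ^^^ maskW w (add2 z a c)) ^^ tab.testBit (R ^^^ maskW w (add2 z b d))) =
      (tab.testBit (R ^^^ maskW w (add2 z a b)) ^^ tab.testBit (R ^^^ maskW w (add2 z c d))) ∨
    (tab.testBit (R ^^^ maskW w (add2 z a c)) ^^ tab.testBit (R ^^^ maskW w (add2 z b d))) =
      (tab.testBit (R ^^^ maskW w (add2 z a d)) ^^ tab.testBit (R ^^^ maskW w (add2 z b c))))
  rw [key a c haz hcz (by omega), key b d hbz hdz (by omega), key a b haz hbz (by omega),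
    key c d hcz hdz (by omega), key a d haz hdz (by omega), key b c hbz hcz (by omega)]
  suffices ht : tst tab (R ^^^ maskW w z) (w a) (w b) (w c) (w d) = true by
    simp only [tst, Bool.or_eq_true, beq_iff_eq] at ht
    exact ht
  rw [List.mem_toFinset] at ha hb hc hd
  have hzl : ∀ x ∈ z, x ∈ els := fun x hx => List.mem_toFinset.mp (hz hx)
  have hndE : els.Nodup := hs.imp (fun h => ne_of_lt h)
  set p : ℕ → Bool := fun v => decide (∃ i ∈ z, v = w i) with hp
  have hpi : ∀ i ∈ els, p (w i) = decide (i ∈ z) := by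
    intro i hi
    simp only [hp]
    congr 1
    apply propext
    constructor
    · rintro ⟨j, hj, hij⟩
      rw [hw i hi j (hzl j hj) hij]; exact hj
    · intro hi
      exact ⟨i, hi, rfl⟩
  have hf1 : (els.reverse.map w).filter p =
      (els.reverse.filter (fun i => decide (i ∈ z))).map w := by
    rw [List.filter_map]
    congr 1
    apply List.filter_congr
    intro i hi
    exact hpi i (List.mem_reverse.mp hi)
  have hf2 : (els.reverse.map w).filter (fun x => !p x) =
      (els.reverse.filter (fun i => decide (i ∉ z))).map w := by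
    rw [List.filter_map]
    congr 1
    apply List.filter_congr
    intro i hi
    simp only [Function.comp, hpi i (List.mem_reverse.mp hi)]
    by_cases hi : i ∈ z <;> simp [hi]
  have hnd : (els.reverse.filter (fun i => decide (i ∈ z))).Nodup :=
    (List.nodup_reverse.mpr hndE).filter _
  have hfin : (els.reverse.filter (fun i => decide (i ∈ z))).toFinset = z := by
    ext i
    rw [List.mem_toFinset, List.mem_filter, List.mem_reverse]
    constructor
    · rintro ⟨_, hi⟩
      exact of_decide_eq_true hi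
    · intro hi
      exact ⟨hzl i hi, decide_eq_true hi⟩
  have hlen : ((els.reverse.map w).filter p).length = r - 2 := by
    rw [hf1, List.length_map, ← List.toFinset_card_of_nodup hnd, hfin]
    omega
  have hz1 := zrec_spec p (els.reverse.map w) (r - 2) R [] h hlen
  rw [hf1, foldr_map_eq_maskW _ _ hnd, hfin, hf2, List.append_nil, ← List.map_reverse,
    ← List.filter_reverse, List.reverse_reverse] at hz1
  refine l1_spec hz1 ?_
  have hsub : List.Sublist [a, b, c, d] (els.filter (fun i => decide (i ∉ z))) := by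
    have hmem : ∀ x ∈ [a, b, c, d], x ∈ els.filter (fun i => decide (i ∉ z)) := by
      intro x hx
      simp only [List.mem_cons, List.not_mem_nil, or_false] at hx
      rw [List.mem_filter]
      rcases hx with rfl | rfl | rfl | rfl
      · exact ⟨ha, by simpa using haz⟩
      · exact ⟨hb, by simpa using hbz⟩
      · exact ⟨hc, by simpa using hcz⟩
      · exact ⟨hd, by simpa using hdz⟩
    have hs1 : [a, b, c, d].Pairwise (· < ·) := by
      simp only [List.pairwise_cons, List.mem_cons, List.not_mem_nil, or_false,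
        forall_eq_or_imp, forall_eq, List.Pairwise.nil, IsEmpty.forall_iff, implies_true, and_true]
      refine ⟨⟨hab, by omega, by omega⟩, ⟨hbc, by omega⟩, hcd⟩
    have hs2 : (els.filter (fun i => decide (i ∉ z))).Pairwise (· < ·) := hs.filter _
    have hnd1 : [a, b, c, d].Nodup := hs1.imp (fun h => ne_of_lt h)
    exact List.sublist_of_subperm_of_pairwise (hnd1.subperm hmem) hs1 hs2
  exact hsub.map w

namespace Dat

variable (D : Dat)

/-- weight of an element -/
def wt (x : ℕ) : ℕ := if x < D.m then D.ub x else D.vb (D.m + D.N - 1 - x)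

/-- membership in the block (a, b) -/
def inB (a b x : ℕ) : Bool := if x < D.m then D.ra x == a else D.ca (D.m + D.N - 1 - x) == b

/-- the elements of the block (a, b), increasing -/
def els (a b : ℕ) : List ℕ := (List.range (D.m + D.N)).filter (D.inB a b)

/-- the row elements of the block row a, increasing -/
def relts (a : ℕ) : List ℕ := (List.range D.m).filter (fun x => D.ra x == a)

/-- logarithm of the weight -/
def lg (x : ℕ) : ℕ :=
  if x < D.m then (D.ub x).log2 else 6 + (D.vb (D.m + D.N - 1 - x) / 64).log2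

variable {D}

theorem mem_RS {a x : ℕ} : x ∈ D.arr.RS a ↔ x < D.m ∧ D.ra x = a := by
  show x ∈ Rset D.arr.m D.arr.rb a ↔ _
  rw [mem_Rset]
  show (x < D.m ∧ D.ra (D.m - 1 - (D.m - 1 - x)) = a) ↔ _
  constructor
  · rintro ⟨h1, h2⟩
    rw [show D.m - 1 - (D.m - 1 - x) = x by omega] at h2
    exact ⟨h1, h2⟩
  · rintro ⟨h1, h2⟩
    rw [show D.m - 1 - (D.m - 1 - x) = x by omega]
    exact ⟨h1, h2⟩

theorem mem_CS {b x : ℕ} : x ∈ D.arr.CS b ↔ D.m ≤ x ∧ x < D.m + D.N ∧
    D.ca (D.m + D.N - 1 - x) = b := by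
  show x ∈ Cset D.arr.m D.arr.N D.arr.cb b ↔ _
  rw [mem_Cset]
  show (D.m ≤ x ∧ x < D.m + D.N ∧ D.ca (D.N - 1 - (x - D.m)) = b) ↔ _
  constructor
  · rintro ⟨h1, h2, h3⟩
    rw [show D.N - 1 - (x - D.m) = D.m + D.N - 1 - x by omega] at h3
    exact ⟨h1, h2, h3⟩
  · rintro ⟨h1, h2, h3⟩
    rw [show D.N - 1 - (x - D.m) = D.m + D.N - 1 - x by omega]
    exact ⟨h1, h2, h3⟩

theorem toFinset_els (a b : ℕ) : (D.els a b).toFinset = D.arr.RS a ∪ D.arr.CS b := by
  ext x
  rw [List.mem_toFinset, mem_union, mem_RS, mem_CS]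
  unfold els inB
  rw [List.mem_filter, List.mem_range]
  by_cases hx : x < D.m
  · simp only [hx, if_true, beq_iff_eq]
    constructor
    · rintro ⟨_, h2⟩
      exact Or.inl ⟨trivial, h2⟩
    · rintro (⟨_, h2⟩ | ⟨h1, _⟩)
      · exact ⟨by omega, h2⟩
      · omega
  · simp only [hx, if_false, beq_iff_eq, false_and, false_or]
    constructor
    · rintro ⟨h1, h2⟩
      exact ⟨by omega, h1, h2⟩
    · rintro ⟨_, h1, h2⟩
      exact ⟨h1, h2⟩

theorem toFinset_relts (a : ℕ) : (D.relts a).toFinset = D.arr.RS a := by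
  ext x
  rw [List.mem_toFinset, mem_RS]
  unfold relts
  rw [List.mem_filter, List.mem_range, beq_iff_eq]

theorem els_sorted (a b : ℕ) : (D.els a b).Pairwise (· < ·) :=
  (List.pairwise_lt_range (n := D.m + D.N)).filter _

theorem relts_nodup (a : ℕ) : (D.relts a).Nodup := List.nodup_range.filter _

theorem vdiv (hG : D.Good) {y : ℕ} (hy : y < D.N) :
    D.vb y = 64 * (D.vb y / 64) ∧ D.vb y / 64 = 2 ^ (D.vb y / 64).log2 := by
  have := (hG.vb_pow y hy).1
  generalize 2 ^ (D.vb y / 64).log2 = z at this ⊢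
  omega

theorem wt_eq (hG : D.Good) {x : ℕ} (hx : x < D.m + D.N) : D.wt x = 2 ^ D.lg x := by
  unfold wt lg
  by_cases h : x < D.m
  · rw [if_pos h, if_pos h]
    exact (hG.ub_pow x h).1
  · rw [if_neg h, if_neg h, pow_add]
    obtain ⟨h1, h2⟩ := vdiv hG (y := D.m + D.N - 1 - x) (by omega)
    rw [← h2]
    exact h1

theorem wt_lt (hG : D.Good) {x : ℕ} (hx : x < D.m + D.N) : D.wt x < 2 ^ 12 := by
  unfold wt
  by_cases h : x < D.m
  · rw [if_pos h]
    have := (hG.ub_pow x h).2
    omega
  · rw [if_neg h]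
    have := (hG.vb_pow (D.m + D.N - 1 - x) (by omega)).2
    omega

theorem ub_lg_lt (hG : D.Good) {x : ℕ} (hx : x < D.m) : (D.ub x).log2 < 6 := by
  have h := hG.ub_pow x hx
  have h1 : 2 ^ (D.ub x).log2 < 2 ^ 6 := by rw [← h.1]; exact h.2
  exact (Nat.pow_lt_pow_iff_right (by norm_num)).mp h1

theorem lg_inj (hG : D.Good) {a b x y : ℕ} (hx : x ∈ D.arr.RS a ∪ D.arr.CS b)
    (hy : y ∈ D.arr.RS a ∪ D.arr.CS b) (h : D.lg x = D.lg y) : x = y := by
  rw [mem_union, mem_RS, mem_CS] at hx hy
  unfold lg at h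
  rcases hx with ⟨hx1, hx2⟩ | ⟨hx1, hx2, hx3⟩
  · rw [if_pos hx1] at h
    rcases hy with ⟨hy1, hy2⟩ | ⟨hy1, hy2, hy3⟩
    · rw [if_pos hy1] at h
      rcases Nat.le_total x y with hxy | hxy
      · have := hG.ub_step y hy1 x (by omega) (by rw [hx2, hy2])
        omega
      · have := hG.ub_step x hx1 y (by omega) (by rw [hx2, hy2])
        omega
    · rw [if_neg (by omega)] at h
      have := ub_lg_lt hG hx1
      omega
  · rw [if_neg (by omega)] at h
    rcases hy with ⟨hy1, hy2⟩ | ⟨hy1, hy2, hy3⟩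
    · rw [if_pos hy1] at h
      have := ub_lg_lt hG hy1
      omega
    · rw [if_neg (by omega)] at h
      rcases Nat.le_total x y with hxy | hxy
      · have := hG.vb_step (D.m + D.N - 1 - x) (by omega) (D.m + D.N - 1 - y) (by omega)
          (by rw [hx3, hy3])
        omega
      · have := hG.vb_step (D.m + D.N - 1 - y) (by omega) (D.m + D.N - 1 - x) (by omega)
          (by rw [hx3, hy3])
        omega

theorem mem_lt {a b x : ℕ} (hx : x ∈ D.arr.RS a ∪ D.arr.CS b) : x < D.m + D.N := by
  rw [mem_union, mem_RS, mem_CS] at hx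
  omega

theorem zip_sum (F G : ℕ → ℕ) : ∀ {l l' : List ℕ}, l.length = l'.length →
    ((l.zip l').map (fun x => F x.1 + G x.2)).sum = (l.map F).sum + (l'.map G).sum
  | [], [], _ => rfl
  | [], b :: l', h => by simp at h
  | a :: l, [], h => by simp at h
  | a :: l, b :: l', h => by
    have ih := zip_sum F G (l := l) (l' := l') (by simpa using h)
    rw [List.zip_cons_cons, List.map_cons, List.sum_cons, ih, List.map_cons, List.map_cons,
      List.sum_cons, List.sum_cons]
    show F a + G b + _ = _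
    omega

/-- the local sign function of the block (a, b) as a function on sets -/
theorem GS_eq (hG : D.Good) {a b : ℕ} (hz : D.tab.testBit ((8 * a + b) * 4096) = false)
    {S : Finset ℕ} (hS : S ⊆ D.arr.RS a ∪ D.arr.CS b) (hc : S.card = (D.arr.RS a).card) :
    D.arr.GS a b S = D.tab.testBit ((8 * a + b) * 4096 +
      (maskW D.wt (D.arr.RS a) ^^^ maskW D.wt S)) := by
  set RR := D.arr.RS a with hRR
  set CC := D.arr.CS b with hCC
  have hdis : Disjoint RR CC := by
    rw [disjoint_left]
    intro x hx hx'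
    rw [hRR, mem_RS] at hx
    rw [hCC, mem_CS] at hx'
    omega
  -- the mask as a sum
  have hSeq : S = (RR ∩ S) ∪ (CC ∩ S) := by
    rw [← union_inter_distrib_right]
    exact (inter_eq_right.2 hS).symm
  have hReq : RR = (RR ∩ S) ∪ (RR \ S) := by
    ext x
    rw [mem_union, mem_inter, mem_sdiff]
    by_cases h : x ∈ S <;> simp [h]
  have hd1 : Disjoint (RR ∩ S) (CC ∩ S) := hdis.mono inter_subset_left inter_subset_left
  have hd2 : Disjoint (RR ∩ S) (RR \ S) := by
    rw [disjoint_left]
    intro x hx hx'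
    exact (mem_sdiff.mp hx').2 (mem_inter.mp hx).2
  have hd3 : Disjoint (RR \ S) (CC ∩ S) := hdis.mono sdiff_subset inter_subset_left
  have hmask : maskW D.wt RR ^^^ maskW D.wt S = ∑ x ∈ (RR \ S), D.wt x + ∑ x ∈ (CC ∩ S), D.wt x := by
    have h1 : maskW D.wt RR = maskW D.wt (RR ∩ S) ^^^ maskW D.wt (RR \ S) := by
      conv_lhs => rw [hReq]
      exact maskW_union hd2
    have h2 : maskW D.wt S = maskW D.wt (RR ∩ S) ^^^ maskW D.wt (CC ∩ S) := by
      conv_lhs => rw [hSeq]
      exact maskW_union hd1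
    have h3 : maskW D.wt RR ^^^ maskW D.wt S = maskW D.wt ((RR \ S) ∪ (CC ∩ S)) := by
      rw [h1, h2, maskW_union hd3]
      generalize maskW D.wt (RR ∩ S) = u
      generalize maskW D.wt (RR \ S) = v
      generalize maskW D.wt (CC ∩ S) = t
      rw [Nat.xor_comm u v, Nat.xor_assoc, ← Nat.xor_assoc u u t, Nat.xor_self, Nat.zero_xor]
    rw [h3, ← sum_union hd3]
    have hsub : (RR \ S) ∪ (CC ∩ S) ⊆ RR ∪ CC :=
      union_subset_union sdiff_subset inter_subset_left
    exact (maskW_eq_sum (lg := D.lg) _ (fun x hx => wt_eq hG (mem_lt (hsub hx)))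
      (fun x hx y hy => lg_inj hG (hsub hx) (hsub hy))).1
  -- the list of pairs
  set LR : List ℕ := (List.range D.m).filter
    (fun i => decide (D.ra (D.m - 1 - i) = a ∧ D.m - 1 - i ∉ S)) with hLR
  set LC : List ℕ := (List.range D.N).filter
    (fun j => decide (D.ca (D.N - 1 - j) = b ∧ D.m + j ∈ S)) with hLC
  have hLRmem : ∀ i, i ∈ LR ↔ i < D.m ∧ D.ra (D.m - 1 - i) = a ∧ D.m - 1 - i ∉ S := by
    intro i
    rw [hLR, List.mem_filter, List.mem_range, decide_eq_true_iff]
  have hLCmem : ∀ j, j ∈ LC ↔ j < D.N ∧ D.ca (D.N - 1 - j) = b ∧ D.m + j ∈ S := by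
    intro i
    rw [hLC, List.mem_filter, List.mem_range, decide_eq_true_iff]
  have hLRnd : LR.Nodup := List.nodup_range.filter _
  have hLCnd : LC.Nodup := List.nodup_range.filter _
  have hLRinj : Set.InjOn (fun i => D.m - 1 - i) (LR.toFinset : Set ℕ) := by
    intro x hx y hy hxy
    rw [List.coe_toFinset] at hx hy
    have h1 := (hLRmem x).1 hx
    have h2 := (hLRmem y).1 hy
    have h3 : D.m - 1 - x = D.m - 1 - y := hxy
    omega
  have hLCinj : Set.InjOn (fun j => D.m + j) (LC.toFinset : Set ℕ) := by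
    intro x _ y _ hxy
    have : D.m + x = D.m + y := hxy
    omega
  have hLRim : LR.toFinset.image (fun i => D.m - 1 - i) = RR \ S := by
    ext x
    rw [mem_image, mem_sdiff, hRR, mem_RS]
    constructor
    · rintro ⟨i, hi, rfl⟩
      rw [List.mem_toFinset, hLRmem] at hi
      exact ⟨⟨by omega, hi.2.1⟩, hi.2.2⟩
    · rintro ⟨⟨h1, h2⟩, h3⟩
      refine ⟨D.m - 1 - x, ?_, by omega⟩
      rw [List.mem_toFinset, hLRmem, show D.m - 1 - (D.m - 1 - x) = x by omega]
      exact ⟨by omega, h2, h3⟩
  have hLCim : LC.toFinset.image (fun j => D.m + j) = CC ∩ S := by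
    ext x
    rw [mem_image, mem_inter, hCC, mem_CS]
    constructor
    · rintro ⟨i, hi, rfl⟩
      rw [List.mem_toFinset, hLCmem] at hi
      refine ⟨⟨by omega, by omega, ?_⟩, hi.2.2⟩
      rw [show D.m + D.N - 1 - (D.m + i) = D.N - 1 - i by omega]
      exact hi.2.1
    · rintro ⟨⟨h1, h2, h3⟩, h4⟩
      refine ⟨x - D.m, ?_, by omega⟩
      rw [List.mem_toFinset, hLCmem, show D.N - 1 - (x - D.m) = D.m + D.N - 1 - x by omega,
        show D.m + (x - D.m) = x by omega]
      exact ⟨by omega, h3, h4⟩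
  have hlenR : LR.length = (RR \ S).card := by
    rw [← hLRim, card_image_of_injOn hLRinj, List.toFinset_card_of_nodup hLRnd]
  have hlenC : LC.length = (CC ∩ S).card := by
    rw [← hLCim, card_image_of_injOn hLCinj, List.toFinset_card_of_nodup hLCnd]
  have hlen : LR.length = LC.length := by
    have h1 : (RR ∩ S).card + (RR \ S).card = RR.card := card_inter_add_card_sdiff RR S
    have h2 : (RR ∩ S).card + (CC ∩ S).card = S.card := by
      rw [← card_union_of_disjoint hd1, ← hSeq]
    omega
  have hsumR : (LR.map (fun i => D.ub (D.m - 1 - i))).sum = ∑ x ∈ (RR \ S), D.wt x := by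
    rw [← hLRim, sum_image hLRinj, ← List.sum_toFinset _ hLRnd]
    apply sum_congr rfl
    intro i hi
    rw [List.mem_toFinset, hLRmem] at hi
    unfold wt
    rw [if_pos (by omega)]
  have hsumC : (LC.map (fun j => D.vb (D.N - 1 - j))).sum = ∑ x ∈ (CC ∩ S), D.wt x := by
    rw [← hLCim, sum_image hLCinj, ← List.sum_toFinset _ hLCnd]
    apply sum_congr rfl
    intro i hi
    rw [List.mem_toFinset, hLCmem] at hi
    unfold wt
    rw [if_neg (by omega), show D.m + D.N - 1 - (D.m + i) = D.N - 1 - i by omega]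
  have hGS : D.arr.GS a b S = (!(LR.zip LC).isEmpty &&
      D.tab.testBit ((8 * a + b) * 4096 + D.bsum (LR.zip LC))) := rfl
  have hbs : D.bsum (LR.zip LC) = maskW D.wt RR ^^^ maskW D.wt S := by
    rw [hmask, ← hsumR, ← hsumC, ← zip_sum _ _ hlen]
    rfl
  rw [hGS, hbs]
  rcases hl : LR.zip LC with _ | ⟨x, l⟩
  · have h0 : D.bsum (LR.zip LC) = 0 := by rw [hl]; rfl
    rw [← hbs, h0, Nat.add_zero, hz]
    rfl
  · rfl

/-- **Check of a block.**  W: the weights of the elements of the block (a, b) in decreasing order of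
the elements; k: the number of rows; R: the mask of the rows; t: the table of the block. -/
theorem GP3_blk (hG : D.Good) (a b : ℕ) (W : List ℕ) (k R t : ℕ)
    (hW : (D.els a b).reverse.map D.wt = W) (hk : (D.relts a).length = k)
    (hR : ((D.relts a).map D.wt).foldr (fun x y => x ^^^ y) 0 = R)
    (ht : (D.tab >>> ((8 * a + b) * 4096)) % 2 ^ 4096 = t)
    (h0 : t.testBit 0 = false) (hchk : zrec t W (k - 2) R [] = true) :
    GP3 id (D.arr.RS a ∪ D.arr.CS b) (D.arr.RS a).card (D.arr.GS a b) := by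
  have hbit : ∀ i, i < 4096 → t.testBit i = D.tab.testBit ((8 * a + b) * 4096 + i) := by
    intro i hi
    rw [← ht, Nat.testBit_mod_two_pow, Nat.testBit_shiftRight]
    simp [hi]
  have hk' : (D.arr.RS a).card = k := by
    rw [← toFinset_relts, List.toFinset_card_of_nodup (relts_nodup a), hk]
  have hR' : maskW D.wt (D.arr.RS a) = R := by
    rw [← toFinset_relts, ← foldr_map_eq_maskW _ _ (relts_nodup a), hR]
  have hlt : ∀ S : Finset ℕ, S ⊆ D.arr.RS a ∪ D.arr.CS b → maskW D.wt S < 2 ^ 12 := by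
    intro S
    induction S using Finset.induction_on with
    | empty => intro _; rw [maskW_empty]; norm_num
    | insert x s hx ih =>
      intro h
      rw [maskW_insert hx]
      exact Nat.xor_lt_two_pow (wt_lt hG (mem_lt (h (mem_insert_self x s))))
        (ih (fun y hy => h (mem_insert_of_mem hy)))
  have hz : D.tab.testBit ((8 * a + b) * 4096) = false := by
    have := hbit 0 (by norm_num)
    rw [Nat.add_zero] at this
    rw [← this, h0]
  have hmain : GP3 id (D.els a b).toFinset k (fun S => t.testBit (R ^^^ maskW D.wt S)) := by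
    apply zrec_sound (els_sorted a b)
    · intro x hx y hy hxy
      rw [← List.mem_toFinset, toFinset_els] at hx hy
      rw [wt_eq hG (mem_lt hx), wt_eq hG (mem_lt hy)] at hxy
      exact lg_inj hG hx hy (Nat.pow_right_injective (le_refl 2) hxy)
    · rw [hW]; exact hchk
  rw [toFinset_els, ← hk'] at hmain
  refine GP3_congr (fun S hS hc => ?_) hmain
  show t.testBit (R ^^^ maskW D.wt S) = D.arr.GS a b S
  rw [GS_eq hG hz hS hc, ← hR']
  apply hbit
  exact Nat.xor_lt_two_pow (n := 12) (hlt _ subset_union_left) (hlt _ hS)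

/-- **The sign function of the data satisfies the three-term relations.** -/
theorem f_GP3 (hG : D.Good)
    (hR : ∀ a, a < D.p → 2 ≤ (D.relts a).length)
    (hC : ∀ b, b < D.q → 2 ≤ ((List.range D.N).filter (fun j => D.ca (D.N - 1 - j) == b)).length)
    (hg : ∀ a, a < D.p → ∀ b, b < D.q →
      GP3 id (D.arr.RS a ∪ D.arr.CS b) (D.arr.RS a).card (D.arr.GS a b)) :
    GP3 id (range (D.m + D.N)) D.m D.arr.f := by
  refine Arr.f_GP3 (A := D.arr) (p := D.p) (q := D.q) (wf hG) hG.p_pos hG.q_pos ?_ ?_ ?_ ?_ ?_ ?_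
    (fun a b ha hb => hg a ha b hb)
  · exact List.nodup_range.product List.nodup_range
  · intro x
    show x ∈ (List.range D.p) ×ˢ (List.range D.q) ↔ _
    rw [List.mem_product, List.mem_range, List.mem_range]
  · intro i hi
    exact hG.ra_lt _ (by have : D.arr.m = D.m := rfl; omega)
  · intro j hj
    exact hG.ca_lt _ (by have : D.arr.N = D.N := rfl; omega)
  · intro a ha
    have h1 : ((range D.arr.m).filter (fun i => D.arr.rb i = a)).card = (D.arr.RS a).card := by
      show _ = (Rset D.arr.m D.arr.rb a).card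
      unfold Rset
      rw [card_image_of_injOn]
      intro x hx y hy hxy
      simp only [coe_filter, mem_range, Set.mem_ofPred_eq] at hx hy
      have : D.arr.m - 1 - x = D.arr.m - 1 - y := hxy
      omega
    rw [h1, ← toFinset_relts, List.toFinset_card_of_nodup (relts_nodup a)]
    exact hR a ha
  · intro b hb
    have h1 : ((range D.arr.N).filter (fun j => D.arr.cb j = b)).card =
        ((List.range D.N).filter (fun j => D.ca (D.N - 1 - j) == b)).length := by
      rw [← List.toFinset_card_of_nodup (List.nodup_range.filter _)]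
      congr 1
      ext j
      rw [mem_filter, mem_range, List.mem_toFinset, List.mem_filter, List.mem_range, beq_iff_eq]
      rfl
    rw [h1]
    exact hC b hb

end Dat

end Pool.Agent.Simplex
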