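import Pool.Agent.Work.MP_f99e36_co.DatF

/-!
All blocks of a row of blocks are equal, so the sign function does not change when the columns are
moved by an increasing map that respects the blocks.  Blocked bases go to blocked bases.
-/

set_option autoImplicit false

namespace Pool.Agent.Simplex

open GArr

/-- the inner array with the set W of allowed elements -/
noncomputable def arrW (W : ℕ → Bool) : GArr :=
  { (datP ptF btF 0 0 0).arr with al := W }

/-- an increasing map of columns that respects the blocks -/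
structure Shift (φ : ℕ → ℕ) (S : ℕ → Prop) : Prop where
  lt : ∀ j, S j → j < 68 ∧ φ j < 68
  mono : ∀ j1 j2, S j1 → S j2 → j1 < j2 → φ j1 < φ j2
  blk : ∀ j1 j2, S j1 → S j2 → (j1 / 4 = j2 / 4 ↔ φ j1 / 4 = φ j2 / 4)
  md : ∀ j, S j → φ j % 4 = j % 4

/-- the map of pairs -/
def mp (φ : ℕ → ℕ) (p : ℕ × ℕ) : ℕ × ℕ := (p.1, φ p.2)

variable {φ : ℕ → ℕ} {S : ℕ → Prop} {W W' : ℕ → Bool}

theorem arrW_wf : (arrW W).WF where
  conv := (GDat.wf (datF_good 0 0 0)).conv
  g_nil := (GDat.wf (datF_good 0 0 0)).g_nil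

theorem arrW_bk {i j : ℕ} (hi : i < 12) (hj : j < 68) :
    (arrW W).bk i j = 17 * (i / 4) + j / 4 := by
  show (pf ptF (12 - 1 - i) (68 - 1 - j)) >>> 20 = _
  rw [linkOK_F.bid _ (by omega) _ (by omega)]
  have e1 : 11 - (12 - 1 - i) = i := by omega
  have e2 : 67 - (68 - 1 - j) = j := by omega
  rw [e1, e2]

theorem arrW_loc {i j : ℕ} (hi : i < 12) (hj : j < 68) :
    (datP ptF btF 0 0 0).loc (12 - 1 - i) (68 - 1 - j) =
      2 ^ ((11 - i) % 4) + 16 * 2 ^ ((67 - j) % 4) := by
  have := linkOK_F.loc (11 - i) (by omega) (67 - j) (by omega)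
  exact this

theorem Shift.inj (h : Shift φ S) {j1 j2 : ℕ} (h1 : S j1) (h2 : S j2) (he : φ j1 = φ j2) :
    j1 = j2 := by
  rcases Nat.lt_trichotomy j1 j2 with h3 | h3 | h3
  · have := h.mono _ _ h1 h2 h3
    omega
  · exact h3
  · have := h.mono _ _ h2 h1 h3
    omega

theorem bk_map (h : Shift φ S) {p q : ℕ × ℕ} (hp : p.1 < 12 ∧ S p.2) (hq : q.1 < 12 ∧ S q.2) :
    ((arrW W).bk (mp φ p).1 (mp φ p).2 = (arrW W).bk (mp φ q).1 (mp φ q).2) ↔
      (arrW W).bk p.1 p.2 = (arrW W).bk q.1 q.2 := by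
  have a := h.lt _ hp.2
  have b := h.lt _ hq.2
  have c := h.blk _ _ hp.2 hq.2
  show (arrW W).bk p.1 (φ p.2) = (arrW W).bk q.1 (φ q.2) ↔ _
  rw [arrW_bk hp.1 a.2, arrW_bk hq.1 b.2, arrW_bk hp.1 a.1, arrW_bk hq.1 b.1]
  have h1 : p.2 / 4 < 17 := by omega
  have h2 : q.2 / 4 < 17 := by omega
  have h3 : φ p.2 / 4 < 17 := by omega
  have h4 : φ q.2 / 4 < 17 := by omega
  constructor
  · intro h5
    have : p.1 / 4 = q.1 / 4 ∧ φ p.2 / 4 = φ q.2 / 4 := by omega
    rw [this.1, c.mpr this.2]
  · intro h5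
    have : p.1 / 4 = q.1 / 4 ∧ p.2 / 4 = q.2 / 4 := by omega
    rw [this.1, c.mp this.2]

theorem lsum_map (h : Shift φ S) {P : List (ℕ × ℕ)} (hP : ∀ p ∈ P, p.1 < 12 ∧ S p.2) :
    (datP ptF btF 0 0 0).lsum (P.map (mp φ)) = (datP ptF btF 0 0 0).lsum P := by
  unfold GDat.lsum
  rw [List.map_map]
  congr 1
  apply List.map_congr_left
  intro p hp
  obtain ⟨h1, h2⟩ := hP p hp
  have a := h.lt _ h2
  have m := h.md _ h2
  show (datP ptF btF 0 0 0).loc (12 - 1 - p.1) (68 - 1 - φ p.2) =
    (datP ptF btF 0 0 0).loc (12 - 1 - p.1) (68 - 1 - p.2)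
  rw [arrW_loc h1 a.2, arrW_loc h1 a.1]
  have : (67 - φ p.2) % 4 = (67 - p.2) % 4 := by omega
  rw [this]

theorem g_map (h : Shift φ S) {p0 : ℕ × ℕ} (h0 : p0.1 < 12 ∧ S p0.2) {P : List (ℕ × ℕ)}
    (hP : ∀ p ∈ P, p.1 < 12 ∧ S p.2) :
    (arrW W).g ((arrW W).bk (mp φ p0).1 (mp φ p0).2) (P.map (mp φ)) =
      (arrW W).g ((arrW W).bk p0.1 p0.2) P := by
  have a := h.lt _ h0.2
  show (!(P.map (mp φ)).isEmpty && tab17.testBit
    (bas btF ((arrW W).bk p0.1 (φ p0.2)) + (datP ptF btF 0 0 0).lsum (P.map (mp φ)))) =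
    (!P.isEmpty && tab17.testBit
    (bas btF ((arrW W).bk p0.1 p0.2) + (datP ptF btF 0 0 0).lsum P))
  rw [lsum_map h hP, arrW_bk h0.1 a.1, arrW_bk h0.1 a.2, linkOK_F.bas _ (by omega),
    linkOK_F.bas _ (by omega)]
  have e1 : (17 * (p0.1 / 4) + φ p0.2 / 4) / 17 = p0.1 / 4 := by omega
  have e2 : (17 * (p0.1 / 4) + p0.2 / 4) / 17 = p0.1 / 4 := by omega
  rw [e1, e2]
  cases P with
  | nil => rfl
  | cons x t => rfl

theorem rvl_map (h : Shift φ S) : ∀ (K P : List (ℕ × ℕ)) (p0 : ℕ × ℕ) (s : Bool),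
    (∀ p ∈ K, p.1 < 12 ∧ S p.2) → (∀ p ∈ P, p.1 < 12 ∧ S p.2) → (p0.1 < 12 ∧ S p0.2) →
    (arrW W).rvl (K.map (mp φ)) ((arrW W).bk (mp φ p0).1 (mp φ p0).2) (P.map (mp φ)) s =
      (arrW W).rvl K ((arrW W).bk p0.1 p0.2) P s := by
  intro K
  induction K with
  | nil =>
    intro P p0 s _ hP h0
    show (s ^^ _) = (s ^^ _)
    rw [g_map h h0 hP]
  | cons q K ih =>
    intro P p0 s hK hP h0
    have hq := hK q (by simp)
    have hK' : ∀ p ∈ K, p.1 < 12 ∧ S p.2 := fun p hp => hK p (by simp [hp])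
    rw [List.map_cons]
    unfold rvl
    by_cases hb : (arrW W).bk q.1 q.2 = (arrW W).bk p0.1 p0.2
    · rw [if_pos hb, if_pos ((bk_map h hq h0).mpr hb)]
      have : P.map (mp φ) ++ [mp φ q] = (P ++ [q]).map (mp φ) := by simp
      rw [this]
      apply ih _ _ _ hK' _ h0
      intro p hp
      rcases List.mem_append.mp hp with h1 | h1
      · exact hP p h1
      · rw [List.mem_singleton] at h1
        rw [h1]
        exact hq
    · rw [if_neg hb, if_neg (fun h1 => hb ((bk_map h hq h0).mp h1)), g_map h h0 hP]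
      have := ih [q] q (s ^^ (arrW W).g ((arrW W).bk p0.1 p0.2) P) hK'
        (by intro p hp; rw [List.mem_singleton] at hp; rw [hp]; exact hq) hq
      exact this

theorem rvl_start {A : GArr} (hA : A.WF) (p : ℕ × ℕ) (t : List (ℕ × ℕ)) (s : Bool) :
    A.rvl (p :: t) 0 [] s = A.rvl t (A.bk p.1 p.2) [p] s := by
  unfold rvl
  by_cases hp : A.bk p.1 p.2 = 0
  · rw [if_pos hp, hp]
    cases t <;> rfl
  · rw [if_neg hp, hA.g_nil]
    simp only [Bool.xor_false]
    cases t <;> rfl

theorem inc_map (h : Shift φ S) {M : List (ℕ × ℕ)} (hM : Inc M) (hS : ∀ p ∈ M, S p.2) :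
    Inc (M.map (mp φ)) := by
  unfold Inc
  rw [List.pairwise_map]
  refine List.Pairwise.imp_of_mem ?_ hM
  intro a b ha hb hab
  exact ⟨hab.1, h.mono _ _ (hS a ha) (hS b hb) hab.2⟩

theorem val_rvl {M : List (ℕ × ℕ)} (hM : Inc M) (hv : ∀ p ∈ M, p.1 < 12 ∧ p.2 < 68) :
    (arrW W).rvl M.reverse 0 [] false = (arrW W).val M := by
  have h1 := GArr.val_eq_rvl_rev (A := arrW W) arrW_wf (List.nodup_range : (List.range 51).Nodup)
    (List.mem_range.mpr (show 0 < 51 by norm_num)) (fun b P => GDat.g_reverse (D := datP ptF btF 0 0 0) b P)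
    (L := M.reverse) (by rw [List.pairwise_reverse]; exact hM)
    (fun p hp => by
      have := hv p (by simpa using hp)
      rw [arrW_bk this.1 this.2]
      exact List.mem_range.mpr (show _ < 51 by omega)) false
  rw [h1, List.reverse_reverse]
  simp

theorem val_map (h : Shift φ S) {M : List (ℕ × ℕ)} (hM : Inc M)
    (hS : ∀ p ∈ M, p.1 < 12 ∧ S p.2) : (arrW W).val (M.map (mp φ)) = (arrW W).val M := by
  rw [← val_rvl (inc_map h hM fun p hp => (hS p hp).2) (by
      intro p hp
      obtain ⟨q, hq, rfl⟩ := List.mem_map.mp hp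
      exact ⟨(hS q hq).1, (h.lt _ (hS q hq).2).2⟩),
    ← val_rvl hM (fun p hp => ⟨(hS p hp).1, (h.lt _ (hS p hp).2).1⟩), ← List.map_reverse]
  have hS' : ∀ p ∈ M.reverse, p.1 < 12 ∧ S p.2 := fun p hp => hS p (by simpa using hp)
  generalize M.reverse = K at hS'
  cases K with
  | nil => rfl
  | cons p t =>
    rw [List.map_cons, rvl_start arrW_wf, rvl_start arrW_wf]
    have hp := hS' p (by simp)
    exact rvl_map h t [p] p false (fun q hq => hS' q (by simp [hq]))
      (by intro q hq; rw [List.mem_singleton] at hq; rw [hq]; exact hp) hp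

/-! ### elements -/

/-- the map of elements -/
def el (φ : ℕ → ℕ) (e : ℕ) : ℕ := if e < 12 then e else 12 + φ (e - 12)

/-- the element e is a row or a column of S -/
def ES (S : ℕ → Prop) (e : ℕ) : Prop := 12 ≤ e → S (e - 12)

theorem el_row {e : ℕ} (h : e < 12) : el φ e = e := if_pos h
theorem el_col {e : ℕ} (h : 12 ≤ e) : el φ e = 12 + φ (e - 12) := if_neg (by omega)

theorem el_lt_iff (h : Shift φ S) {e x : ℕ} (he : ES S e) (hx : ES S x) :
    el φ e < el φ x ↔ e < x := by
  by_cases h1 : e < 12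
  · rw [el_row h1]
    by_cases h2 : x < 12
    · rw [el_row h2]
    · rw [el_col (by omega)]
      omega
  · by_cases h2 : x < 12
    · rw [el_row h2, el_col (by omega)]
      omega
    · rw [el_col (by omega), el_col (by omega)]
      have he' := he (by omega)
      have hx' := hx (by omega)
      constructor
      · intro h3
        by_contra h4
        rcases Nat.lt_or_ge (x - 12) (e - 12) with h5 | h5
        · have := h.mono _ _ hx' he' h5
          omega
        · have : x - 12 = e - 12 := by omega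
          rw [this] at h3
          omega
      · intro h3
        have := h.mono _ _ he' hx' (by omega)
        omega

theorem el_eq_iff (h : Shift φ S) {j e : ℕ} (hj : S j) (he : ES S e) :
    12 + φ j = el φ e ↔ 12 + j = e := by
  by_cases h1 : e < 12
  · rw [el_row h1]
    omega
  · rw [el_col (by omega)]
    have he' := he (by omega)
    constructor
    · intro h2
      have := h.inj hj he' (by omega)
      omega
    · rintro rfl
      have : 12 + j - 12 = j := by omega
      rw [this]

theorem togR_map {R : List ℕ} {e x : ℕ} :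
    (arrW W).togR R (el φ e) (el φ x) = (arrW W).togR R e x := by
  have key : ∀ i, i < 12 → ∀ e : ℕ, decide (11 - i = el φ e) = decide (11 - i = e) := by
    intro i hi e
    rw [decide_eq_decide]
    by_cases h1 : e < 12
    · rw [el_row h1]
    · rw [el_col (by omega)]
      omega
  unfold togR
  apply List.filter_congr
  intro i hi
  have hi' : i < 12 := List.mem_range.mp hi
  show (decide (i ∈ R) ^^ (decide (11 - i = el φ e) ^^ decide (11 - i = el φ x))) =
    (decide (i ∈ R) ^^ (decide (11 - i = e) ^^ decide (11 - i = x)))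
  rw [key i hi', key i hi']

theorem togC_S {C : List ℕ} {e x : ℕ} (hC : ∀ j ∈ C, S j) (he : ES S e) (hx : ES S x) :
    ∀ j ∈ (arrW W).togC C e x, S j := by
  intro j hj
  rw [mem_togC] at hj
  have h2 : (decide (j ∈ C) ^^ (decide (12 + j = e) ^^ decide (12 + j = x))) = true := hj.2
  by_cases h3 : j ∈ C
  · exact hC j h3
  · by_cases h4 : 12 + j = e
    · have := he (by omega)
      rwa [← h4, show 12 + j - 12 = j by omega] at this
    · by_cases h5 : 12 + j = x
      · have := hx (by omega)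
        rwa [← h5, show 12 + j - 12 = j by omega] at this
      · rw [decide_eq_false h3, decide_eq_false h4, decide_eq_false h5] at h2
        exact absurd h2 (by simp)

theorem togC_map (h : Shift φ S) {C : List ℕ} (hC : ∀ j ∈ C, S j) {e x : ℕ} (he : ES S e)
    (hx : ES S x) :
    (arrW W).togC (C.map φ) (el φ e) (el φ x) = ((arrW W).togC C e x).map φ := by
  apply eq_of_sorted_of_mem (togC_sorted _ _ _)
  · rw [List.pairwise_map]
    refine List.Pairwise.imp_of_mem ?_ (togC_sorted _ _ _)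
    intro a b ha hb hab
    exact h.mono _ _ (togC_S hC he hx a ha) (togC_S hC he hx b hb) hab
  · have key : ∀ j, S j → (decide (φ j ∈ C.map φ) ^^
        (decide (12 + φ j = el φ e) ^^ decide (12 + φ j = el φ x))) =
        (decide (j ∈ C) ^^ (decide (12 + j = e) ^^ decide (12 + j = x))) := by
      intro j hj
      have a1 : decide (φ j ∈ C.map φ) = decide (j ∈ C) := by
        rw [decide_eq_decide, List.mem_map]
        constructor
        · rintro ⟨k, hk, hk'⟩
          rw [← h.inj (hC k hk) hj hk']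
          exact hk
        · intro hk
          exact ⟨j, hk, rfl⟩
      have a2 : decide (12 + φ j = el φ e) = decide (12 + j = e) := by
        rw [decide_eq_decide]
        exact el_eq_iff h hj he
      have a3 : decide (12 + φ j = el φ x) = decide (12 + j = x) := by
        rw [decide_eq_decide]
        exact el_eq_iff h hj hx
      rw [a1, a2, a3]
    intro i
    constructor
    · intro hi
      rw [mem_togC] at hi
      have h2 : (decide (i ∈ C.map φ) ^^ (decide (12 + i = el φ e) ^^
        decide (12 + i = el φ x))) = true := hi.2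
      have : ∃ j, S j ∧ φ j = i := by
        by_cases h3 : i ∈ C.map φ
        · obtain ⟨j, hj, hj'⟩ := List.mem_map.mp h3
          exact ⟨j, hC j hj, hj'⟩
        · have colc : ∀ y, ES S y → 12 + i = el φ y → ∃ j, S j ∧ φ j = i := by
            intro y hy h4
            by_cases h5 : y < 12
            · rw [el_row h5] at h4
              omega
            · rw [el_col (by omega)] at h4
              exact ⟨y - 12, hy (by omega), by omega⟩
          by_cases h4 : 12 + i = el φ e
          · exact colc e he h4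
          · by_cases h5 : 12 + i = el φ x
            · exact colc x hx h5
            · rw [decide_eq_false h3, decide_eq_false h4, decide_eq_false h5] at h2
              exact absurd h2 (by simp)
      obtain ⟨j, hj, rfl⟩ := this
      rw [key j hj] at h2
      exact List.mem_map.mpr ⟨j, mem_togC.mpr ⟨(h.lt j hj).1, h2⟩, rfl⟩
    · intro hi
      obtain ⟨j, hj, rfl⟩ := List.mem_map.mp hi
      have hS := togC_S hC he hx j hj
      rw [mem_togC] at hj ⊢
      refine ⟨(h.lt j hS).2, ?_⟩
      exact (key j hS).trans hj.2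

theorem T_map (h : Shift φ S) {L : List (ℕ × ℕ)} (hL : (arrW W').Valid L)
    (hS : ∀ p ∈ L, S p.2) {e x : ℕ} (he : ES S e) (hx : ES S x) :
    (arrW W).T (L.map (mp φ)) (el φ e) (el φ x) = (arrW W').T L e x := by
  have e1 : (L.map (mp φ)).map Prod.fst = L.map Prod.fst := by
    rw [List.map_map]
    rfl
  have e2 : (L.map (mp φ)).map Prod.snd = (L.map Prod.snd).map φ := by
    rw [List.map_map, List.map_map]
    rfl
  have hC : ∀ j ∈ L.map Prod.snd, S j := by
    intro j hj
    obtain ⟨p, hp, rfl⟩ := List.mem_map.mp hj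
    exact hS p hp
  have e3 : decide (el φ e < el φ x) = decide (e < x) := by
    rw [decide_eq_decide]
    exact el_lt_iff h he hx
  unfold GArr.T
  rw [e1, e2, togR_map, togC_map h hC he hx, e3]
  congr 1
  have e4 : (((arrW W).togR (L.map Prod.fst) e x).zip
      (((arrW W).togC (L.map Prod.snd) e x).map φ)) =
      (((arrW W).togR (L.map Prod.fst) e x).zip
      ((arrW W).togC (L.map Prod.snd) e x)).map (mp φ) := by
    rw [List.zip_map_right]
    rfl
  rw [e4]
  have hinc : Inc (((arrW W).togR (L.map Prod.fst) e x).zip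
      ((arrW W).togC (L.map Prod.snd) e x)) := inc_zip (togR_sorted _ _ _) (togC_sorted _ _ _)
  rw [val_map h hinc]
  · rfl
  · intro p hp
    refine ⟨(mem_togR.mp (mem_zip_fst hp)).1, togC_S hC he hx _ (mem_zip_snd hp)⟩

/-- **Transport**: a blocked basis goes to a blocked basis. -/
theorem full_map (h : Shift φ S) {L : List (ℕ × ℕ)} (hL : (arrW W').Valid L)
    (hS : ∀ p ∈ L, S p.2) (hr : ∀ e, e < 12 → W e = true)
    (hW : ∀ j, j < 68 → W' (12 + j) = true → S j ∧ W (12 + φ j) = true)
    (hF : (arrW W').Full L) : (arrW W).Full (L.map (mp φ)) := by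
  obtain ⟨e, e', x, x', -, -, -, -, b1, b2, n1, n2, a1, a2, ht⟩ := hF
  have e1 : (L.map (mp φ)).map Prod.fst = L.map Prod.fst := by
    rw [List.map_map]
    rfl
  have e2 : (L.map (mp φ)).map Prod.snd = (L.map Prod.snd).map φ := by
    rw [List.map_map, List.map_map]
    rfl
  have hC : ∀ j ∈ L.map Prod.snd, S j := by
    intro j hj
    obtain ⟨p, hp, rfl⟩ := List.mem_map.mp hj
    exact hS p hp
  have ebas : ∀ e, (arrW W').Bas L e → ES S e ∧ (arrW W).Bas (L.map (mp φ)) (el φ e) := by
    intro e he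
    rcases he with ⟨h1, h2⟩ | ⟨h1, h2, h3⟩
    · have h1' : e < 12 := h1
      refine ⟨fun h => absurd h1' (by omega), Or.inl ?_⟩
      rw [el_row h1', e1]
      exact ⟨h1, h2⟩
    · have h1' : 12 ≤ e := h1
      have h3' : e - 12 ∈ L.map Prod.snd := h3
      have hs := hC _ h3'
      have := h.lt _ hs
      refine ⟨fun _ => hs, Or.inr ?_⟩
      rw [el_col h1', e2]
      refine ⟨?_, ?_, ?_⟩
      · show 12 ≤ _
        omega
      · show _ < 12 + 68
        omega
      · show 12 + φ (e - 12) - 12 ∈ _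
        rw [show 12 + φ (e - 12) - 12 = φ (e - 12) by omega]
        exact List.mem_map.mpr ⟨_, h3', rfl⟩
  have enon : ∀ x, (arrW W').Non L x → W' x = true →
      ES S x ∧ (arrW W).Non (L.map (mp φ)) (el φ x) ∧ W (el φ x) = true := by
    intro x hx ha
    rcases hx with ⟨h1, h2⟩ | ⟨h1, h2, h3⟩
    · have h1' : x < 12 := h1
      refine ⟨fun h => absurd h1' (by omega), Or.inl ?_, ?_⟩
      · rw [el_row h1', e1]
        exact ⟨h1, h2⟩
      · rw [el_row h1']
        exact hr x h1'
    · have h1' : 12 ≤ x := h1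
      have h2' : x < 80 := h2
      have h3' : x - 12 ∉ L.map Prod.snd := h3
      have h4 := hW (x - 12) (by omega) (by rw [show 12 + (x - 12) = x by omega]; exact ha)
      have := h.lt _ h4.1
      refine ⟨fun _ => h4.1, Or.inr ?_, ?_⟩
      · rw [el_col h1', e2]
        refine ⟨?_, ?_, ?_⟩
        · show 12 ≤ _
          omega
        · show _ < 12 + 68
          omega
        · show 12 + φ (x - 12) - 12 ∉ _
          rw [show 12 + φ (x - 12) - 12 = φ (x - 12) by omega]
          intro hm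
          obtain ⟨k, hk, hk'⟩ := List.mem_map.mp hm
          rw [h.inj (hC k hk) h4.1 hk'] at hk
          exact h3' hk
      · rw [el_col h1']
        exact h4.2
  have win : ∀ y, y < 80 → (arrW W).Win 0 ((arrW W).m - 1) 0 ((arrW W).N - 1) y := by
    intro y hy
    refine ⟨fun h => ⟨Nat.zero_le _, ?_⟩, fun h => ⟨Nat.zero_le _, ?_⟩⟩
    · show 12 - 1 - y ≤ 12 - 1
      omega
    · show y - 12 ≤ 68 - 1
      omega
  have bel : ∀ L' e, (arrW W).Bas L' e → e < 80 := by
    intro L' e he
    rcases he with ⟨h1, -⟩ | ⟨-, h2, -⟩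
    · have : e < 12 := h1
      omega
    · exact h2
  have nel : ∀ L' e, (arrW W).Non L' e → e < 80 := by
    intro L' e he
    rcases he with ⟨h1, -⟩ | ⟨-, h2, -⟩
    · have : e < 12 := h1
      omega
    · exact h2
  obtain ⟨s1, b1'⟩ := ebas e b1
  obtain ⟨s2, b2'⟩ := ebas e' b2
  obtain ⟨s3, n1', a1'⟩ := enon x n1 a1
  obtain ⟨s4, n2', a2'⟩ := enon x' n2 a2
  refine ⟨el φ e, el φ e', el φ x, el φ x', win _ (bel _ _ b1'), win _ (bel _ _ b2'),
    win _ (nel _ _ n1'), win _ (nel _ _ n2'), b1', b2', n1', n2', a1', a2', ?_⟩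
  rw [T_map h hL hS s1 s3, T_map h hL hS s2 s3, T_map h hL hS s1 s4, T_map h hL hS s2 s4]
  exact ht

end Pool.Agent.Simplex
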