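import Pool.Agent.Work.MP_f99e36_co.GPaths

/-!
Block arrays: the path theorem.
-/

set_option autoImplicit false

namespace Pool.Agent.Simplex

namespace GArr

variable {A : GArr}

theorem WT.full {M : List (ℕ × ℕ)} {rlo rhi clo chi : ℕ} (h : A.WT M rlo rhi clo chi) :
    A.Full M := by
  obtain ⟨e, e', x, x', -, -, -, -, b1, b2, n1, n2, a1, a2, ht⟩ := h
  have hb : ∀ e, A.Bas M e → A.Win 0 (A.m - 1) 0 (A.N - 1) e := by
    intro e he
    refine ⟨fun h => ⟨by omega, by omega⟩, fun h => ⟨by omega, ?_⟩⟩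
    rcases he with he | he <;> omega
  have hn : ∀ e, A.Non M e → A.Win 0 (A.m - 1) 0 (A.N - 1) e := by
    intro e he
    refine ⟨fun h => ⟨by omega, by omega⟩, fun h => ⟨by omega, ?_⟩⟩
    rcases he with he | he <;> omega
  exact ⟨e, e', x, x', hb e b1, hb e' b2, hn x n1, hn x' n2, b1, b2, n1, n2, a1, a2, ht⟩

theorem Inc.nil : Inc [] := List.Pairwise.nil

theorem Inc.append {X Y : List (ℕ × ℕ)} (h : Inc (X ++ Y)) :
    Inc X ∧ Inc Y ∧ ∀ p ∈ X, ∀ q ∈ Y, p.1 < q.1 ∧ p.2 < q.2 :=
  List.pairwise_append.mp h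

theorem Valid.append {X Y : List (ℕ × ℕ)} (h : A.Valid (X ++ Y)) :
    A.Valid X ∧ A.Valid Y ∧ ∀ p ∈ X, ∀ q ∈ Y, p.1 < q.1 ∧ p.2 < q.2 :=
  ⟨⟨h.1.append.1, fun p hp => h.2 p (by simp [hp])⟩,
    ⟨h.1.append.2.1, fun p hp => h.2 p (by simp [hp])⟩, h.1.append.2.2⟩

theorem blk_lt (hA : A.WF) {p q r : ℕ × ℕ} (h1 : p.1 ≤ q.1) (h2 : p.2 ≤ q.2) (h3 : q.1 ≤ r.1)
    (h4 : q.2 ≤ r.2) (h : A.blk p = A.blk r) : A.blk p = A.blk q ∧ A.blk q = A.blk r := by
  have h5 := hA.conv _ _ _ _ _ _ h1 h3 h2 h4 h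
  exact ⟨h5, h5.symm.trans h⟩

/-- window tests of M in a context -/
theorem WT.ctx (hA : A.WF) {X M Z : List (ℕ × ℕ)} (hc : A.Ctx X M Z) (hM : M ≠ [])
    {rlo rhi clo chi : ℕ}
    (h1 : X ≠ [] → ∃ p ∈ M, (∀ q ∈ M, p.1 ≤ q.1 ∧ p.2 ≤ q.2) ∧ p.1 ≤ rlo ∧ p.2 ≤ clo)
    (h2 : Z ≠ [] → ∃ p ∈ M, (∀ q ∈ M, q.1 ≤ p.1 ∧ q.2 ≤ p.2) ∧ rhi ≤ p.1 ∧ chi ≤ p.2)
    (h : A.WT M rlo rhi clo chi) : A.Full (X ++ M ++ Z) := by
  obtain ⟨hL, hs1, hs2⟩ := hc
  have hXM := hL.append.1.append.2.2
  have hMZ : ∀ p ∈ M, ∀ q ∈ Z, p.1 < q.1 ∧ p.2 < q.2 := fun p hp q hq =>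
    hL.append.2.2 p (List.mem_append_right _ hp) q hq
  obtain ⟨a, ha⟩ := List.exists_mem_of_ne_nil M hM
  have hav := hL.2 a (by simp [ha])
  -- lower bound
  obtain ⟨lo, l1, l2, l3, l4⟩ : ∃ lo : ℕ × ℕ, (∀ p ∈ X, p.1 < lo.1 ∧ p.2 < lo.2 ∧
      A.blk p ≠ A.blk lo) ∧ (∀ q ∈ M, lo.1 ≤ q.1 ∧ lo.2 ≤ q.2) ∧ lo.1 ≤ rlo ∧ lo.2 ≤ clo := by
    by_cases hX : X = []
    · exact ⟨(0, 0), by simp [hX], fun q _ => ⟨Nat.zero_le _, Nat.zero_le _⟩, Nat.zero_le _,
        Nat.zero_le _⟩
    · obtain ⟨p, hp, hp1, hp2, hp3⟩ := h1 hX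
      exact ⟨p, fun x hx => ⟨(hXM x hx p hp).1, (hXM x hx p hp).2, hs1 x hx p hp⟩, hp1, hp2, hp3⟩
  obtain ⟨up, u1, u2, u3, u4⟩ : ∃ up : ℕ × ℕ, (∀ p ∈ Z, up.1 < p.1 ∧ up.2 < p.2 ∧
      A.blk up ≠ A.blk p) ∧ (∀ q ∈ M, q.1 ≤ up.1 ∧ q.2 ≤ up.2) ∧ rhi ≤ up.1 ∧ chi ≤ up.2 := by
    by_cases hZ : Z = []
    · refine ⟨(max rhi (A.m - 1), max chi (A.N - 1)), by simp [hZ], fun q hq => ?_,
        le_max_left _ _, le_max_left _ _⟩
      have := hL.2 q (by simp [hq])
      constructor
      · exact le_trans (by omega) (le_max_right _ _)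
      · exact le_trans (by omega) (le_max_right _ _)
    · obtain ⟨p, hp, hp1, hp2, hp3⟩ := h2 hZ
      exact ⟨p, fun x hx => ⟨(hMZ p hp x hx).1, (hMZ p hp x hx).2, hs2 p hp x hx⟩, hp1, hp2, hp3⟩
  exact (WT.window hA hL l1 u1 (fun p hp => ⟨⟨(l2 p hp).1, (u2 p hp).1⟩, (l2 p hp).2, (u2 p hp).2⟩)
    ⟨(l2 a ha).1.trans (u2 a ha).1, (l2 a ha).2.trans (u2 a ha).2⟩ l3 u3 l4 u4 h).full

theorem lo_spec {G : List (ℕ × ℕ)} (hG : Inc G) (hn : G ≠ []) :
    ∃ p ∈ G, loR G = p.1 ∧ loC G = p.2 ∧ ∀ q ∈ G, q.1 ≤ p.1 ∧ q.2 ≤ p.2 := by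
  refine ⟨G.getLast hn, List.getLast_mem hn, ?_, ?_, ?_⟩
  · rw [loR, List.getLastD_eq_getLast?, List.getLast?_eq_some_getLast hn]
    rfl
  · rw [loC, List.getLastD_eq_getLast?, List.getLast?_eq_some_getLast hn]
    rfl
  · intro q hq
    have hG' : Inc (G.dropLast ++ [G.getLast hn]) := by
      rw [List.dropLast_append_getLast]; exact hG
    have hq' : q ∈ G.dropLast ++ [G.getLast hn] := by
      rw [List.dropLast_append_getLast]; exact hq
    rcases List.mem_append.mp hq' with h | h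
    · have := hG'.append.2.2 q h (G.getLast hn) (by simp)
      exact ⟨this.1.le, this.2.le⟩
    · rw [List.mem_singleton] at h
      rw [h]
      exact ⟨le_refl _, le_refl _⟩

theorem hi_spec {G : List (ℕ × ℕ)} (hG : Inc G) (hn : G ≠ []) :
    ∃ p ∈ G, A.hiR G = p.1 ∧ A.hiC G = p.2 ∧ ∀ q ∈ G, p.1 ≤ q.1 ∧ p.2 ≤ q.2 := by
  cases G with
  | nil => exact absurd rfl hn
  | cons a t =>
    refine ⟨a, by simp, rfl, rfl, ?_⟩
    intro q hq
    rw [List.mem_cons] at hq
    rcases hq with rfl | hq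
    · exact ⟨le_refl _, le_refl _⟩
    · have := (List.pairwise_cons.mp hG).1 q hq
      exact ⟨this.1.le, this.2.le⟩

theorem After.append {X G G' : List (ℕ × ℕ)} (h1 : A.After X G) (h2 : A.After X G') :
    A.After X (G ++ G') := by
  intro p hp q hq
  rcases List.mem_append.mp hq with h | h
  · exact h1 p hp q h
  · exact h2 p hp q h

theorem After.append_left {X G G' : List (ℕ × ℕ)} (h1 : A.After X G') (h2 : A.After G G') :
    A.After (X ++ G) G' := by
  intro p hp q hq
  rcases List.mem_append.mp hp with h | h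
  · exact h1 p h q hq
  · exact h2 p h q hq

theorem After.of_append {X G G' : List (ℕ × ℕ)} (h : A.After X (G ++ G')) :
    A.After X G ∧ A.After X G' :=
  ⟨fun p hp q hq => h p hp q (by simp [hq]), fun p hp q hq => h p hp q (by simp [hq])⟩

theorem After.trans (hA : A.WF) {G G' G'' : List (ℕ × ℕ)} (h1 : A.After G G')
    (h2 : A.After G' G'') (hn : G' ≠ []) : A.After G G'' := by
  intro p hp r hr
  obtain ⟨q, hq⟩ := List.exists_mem_of_ne_nil G' hn
  have a := h1 p hp q hq
  have b := h2 q hq r hr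
  refine ⟨a.1.trans b.1, a.2.1.trans b.2.1, fun hc => a.2.2 ?_⟩
  exact (blk_lt hA a.1.le a.2.1.le b.1.le b.2.1.le hc).1

/-- the test of three consecutive groups -/
theorem blk3_of_testW (hA : A.WF) {G1 G2 G3 : List (ℕ × ℕ)} (h : A.testW G1 G2 G3) :
    A.Blk3 G1 G2 G3 := by
  intro X Z hX hZ hc
  by_cases hM : G1 ++ G2 ++ G3 = []
  · have h1 : G1 = [] := by
      simp only [List.append_eq_nil_iff] at hM; exact hM.1.1
    have h3 : G3 = [] := by
      simp only [List.append_eq_nil_iff] at hM; exact hM.2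
    rw [hX h1, hZ h3]
    simpa using h.full
  · refine WT.ctx hA hc hM ?_ ?_ h
    · intro hX'
      have hG1 : G1 ≠ [] := fun h => hX' (hX h)
      have hv := hc.1.1.append.1.append.2.1
      have hv1 := hv.append.1.append.1
      obtain ⟨p, hp, -, -, hp'⟩ := hi_spec (A := A) hv1 hG1
      obtain ⟨q, hq, hq1, hq2, -⟩ := lo_spec hv1 hG1
      refine ⟨p, by simp [hp], ?_, ?_, ?_⟩
      · intro r hr
        rw [List.append_assoc] at hr hv
        rcases List.mem_append.mp hr with h | h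
        · exact hp' r h
        · have := hv.append.2.2 p hp r h
          exact ⟨this.1.le, this.2.le⟩
      · rw [hq1]; exact (hp' q hq).1
      · rw [hq2]; exact (hp' q hq).2
    · intro hZ'
      have hG3 : G3 ≠ [] := fun h => hZ' (hZ h)
      have hv := hc.1.1.append.1.append.2.1
      have hv3 := hv.append.2.1
      obtain ⟨p, hp, hp1, hp2, -⟩ := hi_spec (A := A) hv3 hG3
      obtain ⟨q, hq, -, -, hq'⟩ := lo_spec hv3 hG3
      refine ⟨q, by simp [hq], ?_, ?_, ?_⟩
      · intro r hr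
        rcases List.mem_append.mp hr with h | h
        · have := hv.append.2.2 r h q hq
          exact ⟨this.1.le, this.2.le⟩
        · exact hq' r h
      · rw [hp1]; exact (hq' p hp).1
      · rw [hp2]; exact (hq' p hp).2

/-! ### other sufficient tests -/

/-- regroup a context -/
theorem Ctx.assoc {X M1 M2 Z : List (ℕ × ℕ)} (h : A.Ctx X (M1 ++ M2) Z) (hs : A.After M1 M2) :
    A.Ctx (X ++ M1) M2 Z := by
  obtain ⟨h1, h2, h3⟩ := h
  refine ⟨by simpa [List.append_assoc] using h1, ?_, ?_⟩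
  · intro p hp q hq
    rcases List.mem_append.mp hp with h | h
    · exact h2 p h q (by simp [hq])
    · exact (hs p h q hq).2.2
  · intro p hp q hq
    exact h3 p (by simp [hp]) q hq

theorem Ctx.assoc' {X M1 M2 Z : List (ℕ × ℕ)} (h : A.Ctx X (M1 ++ M2) Z) (hs : A.After M1 M2) :
    A.Ctx X M1 (M2 ++ Z) := by
  obtain ⟨h1, h2, h3⟩ := h
  refine ⟨by simpa [List.append_assoc] using h1, ?_, ?_⟩
  · intro p hp q hq
    exact h2 p hp q (by simp [hq])
  · intro p hp q hq
    rcases List.mem_append.mp hq with h | h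
    · exact (hs p hp q h).2.2
    · exact h3 p (by simp [hp]) q h

/-- the two groups G2, G3, tested in the window up to the last pair of G3 -/
theorem blk3_of_prefT (hA : A.WF) {G1 G2 G3 : List (ℕ × ℕ)} (hs : A.After G1 (G2 ++ G3))
    (h3 : G3 ≠ []) (h12 : G2 = [] → G1 = []) (h : A.prefT G2 G3) : A.Blk3 G1 G2 G3 := by
  intro X Z hX hZ hc
  rw [List.append_assoc] at hc ⊢
  have hc' := hc.assoc hs
  have hv := hc'.1.append.1.append.2.1
  have := WT.ctx hA hc' (by simp [h3]) (rlo := loR G2) (rhi := loR G3) (clo := loC G2)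
    (chi := loC G3) ?_ ?_ h
  · simpa [List.append_assoc] using this
  · intro hX'
    have hG2 : G2 ≠ [] := by
      intro h2
      apply hX'
      rw [h12 h2, hX (h12 h2)]
      rfl
    have hv2 := hv.append.1.1
    obtain ⟨p, hp, -, -, hp'⟩ := hi_spec (A := A) hv2 hG2
    obtain ⟨q, hq, hq1, hq2, -⟩ := lo_spec hv2 hG2
    refine ⟨p, by simp [hp], ?_, ?_, ?_⟩
    · intro r hr
      rcases List.mem_append.mp hr with h | h
      · exact hp' r h
      · have := hv.append.2.2 p hp r h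
        exact ⟨this.1.le, this.2.le⟩
    · rw [hq1]; exact (hp' q hq).1
    · rw [hq2]; exact (hp' q hq).2
  · intro _
    have hv3 := hv.append.2.1.1
    obtain ⟨q, hq, hq1, hq2, hq'⟩ := lo_spec hv3 h3
    refine ⟨q, by simp [hq], ?_, by rw [hq1], by rw [hq2]⟩
    intro r hr
    rcases List.mem_append.mp hr with h | h
    · have := hv.append.2.2 r h q hq
      exact ⟨this.1.le, this.2.le⟩
    · exact hq' r h

/-- the groups G1, G2, tested in the window up to the last pair of G2 -/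
theorem blk3_of_prefT' (hA : A.WF) {G1 G2 G3 : List (ℕ × ℕ)} (hs : A.After (G1 ++ G2) G3)
    (h2 : G2 ≠ []) (h : A.prefT G1 G2) : A.Blk3 G1 G2 G3 := by
  intro X Z hX hZ hc
  have hc' := hc.assoc' hs
  have hv := hc'.1.append.1.append.2.1
  have := WT.ctx hA hc' (by simp [h2]) (rlo := loR G1) (rhi := loR G2) (clo := loC G1)
    (chi := loC G2) ?_ ?_ h
  · simpa [List.append_assoc] using this
  · intro hX'
    have hG1 : G1 ≠ [] := fun h => hX' (hX h)
    have hv1 := hv.append.1.1
    obtain ⟨p, hp, -, -, hp'⟩ := hi_spec (A := A) hv1 hG1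
    obtain ⟨q, hq, hq1, hq2, -⟩ := lo_spec hv1 hG1
    refine ⟨p, by simp [hp], ?_, ?_, ?_⟩
    · intro r hr
      rcases List.mem_append.mp hr with h | h
      · exact hp' r h
      · have := hv.append.2.2 p hp r h
        exact ⟨this.1.le, this.2.le⟩
    · rw [hq1]; exact (hp' q hq).1
    · rw [hq2]; exact (hp' q hq).2
  · intro _
    have hv3 := hv.append.2.1.1
    obtain ⟨q, hq, hq1, hq2, hq'⟩ := lo_spec hv3 h2
    refine ⟨q, by simp [hq], ?_, by rw [hq1], by rw [hq2]⟩
    intro r hr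
    rcases List.mem_append.mp hr with h | h
    · have := hv.append.2.2 r h q hq
      exact ⟨this.1.le, this.2.le⟩
    · exact hq' r h

/-- the core of a group: every basis containing the group (as a maximal group) is blocked -/
theorem full_of_coreT (hA : A.WF) {X G Z : List (ℕ × ℕ)} (hc : A.Ctx X G Z) (hG : G ≠ [])
    (h : A.coreT G) : A.Full (X ++ G ++ Z) := by
  have hv := hc.1.append.1.append.2.1.1
  obtain ⟨p, hp, hp1, hp2, hp'⟩ := hi_spec (A := A) hv hG
  obtain ⟨q, hq, hq1, hq2, hq'⟩ := lo_spec hv hG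
  exact WT.ctx hA hc hG (fun _ => ⟨p, hp, hp', by rw [hp1], by rw [hp2]⟩)
    (fun _ => ⟨q, hq, hq', by rw [hq1], by rw [hq2]⟩) h

theorem blk3_of_coreT3 (hA : A.WF) {G1 G2 G3 : List (ℕ × ℕ)} (hs : A.After (G1 ++ G2) G3)
    (h3 : G3 ≠ []) (h : A.coreT G3) : A.Blk3 G1 G2 G3 := by
  intro X Z _ _ hc
  have := full_of_coreT hA (hc.assoc hs) h3 h
  simpa [List.append_assoc] using this

theorem blk3_of_coreT2 (hA : A.WF) {G1 G2 G3 : List (ℕ × ℕ)} (hs : A.After (G1 ++ G2) G3)
    (hs' : A.After G1 G2) (h2 : G2 ≠ []) (h : A.coreT G2) : A.Blk3 G1 G2 G3 := by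
  intro X Z _ _ hc
  have := full_of_coreT hA ((hc.assoc' hs).assoc hs') h2 h
  simpa [List.append_assoc] using this

/-- the groups G2, G3, tested in the window from the first pair of G2 to the first pair of G3 -/
theorem blk3_of_sufT (hA : A.WF) {G1 G2 G3 : List (ℕ × ℕ)} (hs : A.After G1 (G2 ++ G3))
    (h2 : G2 ≠ []) (h : A.sufT G2 G3) : A.Blk3 G1 G2 G3 := by
  intro X Z _ hZ hc
  rw [List.append_assoc] at hc ⊢
  have hc' := hc.assoc hs
  have hv := hc'.1.append.1.append.2.1
  have := WT.ctx hA hc' (by simp [h2]) (rlo := A.hiR G2) (rhi := A.hiR G3) (clo := A.hiC G2)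
    (chi := A.hiC G3) ?_ ?_ h
  · simpa [List.append_assoc] using this
  · intro _
    obtain ⟨p, hp, hp1, hp2, hp'⟩ := hi_spec (A := A) hv.append.1.1 h2
    refine ⟨p, by simp [hp], ?_, by rw [hp1], by rw [hp2]⟩
    intro r hr
    rcases List.mem_append.mp hr with h | h
    · exact hp' r h
    · have := hv.append.2.2 p hp r h
      exact ⟨this.1.le, this.2.le⟩
  · intro hZ'
    have hG3 : G3 ≠ [] := fun h => hZ' (hZ h)
    have hv3 := hv.append.2.1.1
    obtain ⟨p, hp, hp1, hp2, -⟩ := hi_spec (A := A) hv3 hG3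
    obtain ⟨q, hq, -, -, hq'⟩ := lo_spec hv3 hG3
    refine ⟨q, by simp [hq], ?_, ?_, ?_⟩
    · intro r hr
      rcases List.mem_append.mp hr with h | h
      · have := hv.append.2.2 r h q hq
        exact ⟨this.1.le, this.2.le⟩
      · exact hq' r h
    · rw [hp1]; exact (hq' p hp).1
    · rw [hp2]; exact (hq' p hp).2

/-- exclusive window: the test of G1, G2 in a window ending before the first pair of G3 and not
meeting the block of G3 -/
theorem blk3_of_excl (hA : A.WF) {G1 G2 G3 : List (ℕ × ℕ)} (hs : A.After (G1 ++ G2) G3)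
    (h2 : G2 ≠ []) (h3 : G3 ≠ []) {rhi chi : ℕ} (hr : rhi < A.hiR G3) (hc : chi < A.hiC G3)
    (hr' : loR G2 ≤ rhi) (hc' : loC G2 ≤ chi)
    (hb : A.bk rhi chi ≠ A.bk (A.hiR G3) (A.hiC G3))
    (h : A.WT (G1 ++ G2) (loR G1) rhi (loC G1) chi) : A.Blk3 G1 G2 G3 := by
  intro X Z hX hZ hctx
  have hcx := hctx.assoc' hs
  have hv := hcx.1.append.1.append.2.1
  have hv3 := hctx.1.append.1.append.2.1.append.2.1.1
  obtain ⟨g, hg, hg1, hg2, hg'⟩ := hi_spec (A := A) hv3 h3
  obtain ⟨l, hl, hl1, hl2, hl'⟩ := lo_spec hv.append.2.1.1 h2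
  rw [hg1] at hr hb
  rw [hg2] at hc hb
  rw [hl1] at hr'
  rw [hl2] at hc'
  have hXM := hcx.1.append.1.append.2.2
  have hle : ∀ q ∈ G1 ++ G2, q.1 ≤ rhi ∧ q.2 ≤ chi := by
    intro q hq
    rcases List.mem_append.mp hq with h | h
    · have := hv.append.2.2 q h l hl
      exact ⟨this.1.le.trans hr', this.2.le.trans hc'⟩
    · exact ⟨(hl' q h).1.trans hr', (hl' q h).2.trans hc'⟩
  have hall : ∀ z ∈ G3 ++ Z, g.1 ≤ z.1 ∧ g.2 ≤ z.2 := by
    intro z hz
    rcases List.mem_append.mp hz with h | h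
    · exact hg' z h
    · have := hctx.1.append.2.2 g (by simp [hg]) z h
      exact ⟨this.1.le, this.2.le⟩
  obtain ⟨lo, l1, l2, l3, l4⟩ : ∃ lo : ℕ × ℕ, (∀ p ∈ X, p.1 < lo.1 ∧ p.2 < lo.2 ∧
      A.blk p ≠ A.blk lo) ∧ (∀ q ∈ G1 ++ G2, lo.1 ≤ q.1 ∧ lo.2 ≤ q.2) ∧ lo.1 ≤ loR G1 ∧
      lo.2 ≤ loC G1 := by
    by_cases hX' : X = []
    · exact ⟨(0, 0), by simp [hX'], fun q _ => ⟨Nat.zero_le _, Nat.zero_le _⟩, Nat.zero_le _,
        Nat.zero_le _⟩
    · have hG1 : G1 ≠ [] := fun h => hX' (hX h)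
      have hv1 := hv.append.1.1
      obtain ⟨p, hp, -, -, hp'⟩ := hi_spec (A := A) hv1 hG1
      obtain ⟨q, hq, hq1, hq2, -⟩ := lo_spec hv1 hG1
      have hpM : p ∈ G1 ++ G2 := by simp [hp]
      refine ⟨p, fun x hx => ⟨(hXM x hx p hpM).1, (hXM x hx p hpM).2, hcx.2.1 x hx p hpM⟩,
        ?_, ?_, ?_⟩
      · intro r hr
        rcases List.mem_append.mp hr with h | h
        · exact hp' r h
        · have := hv.append.2.2 p hp r h
          exact ⟨this.1.le, this.2.le⟩
      · rw [hq1]; exact (hp' q hq).1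
      · rw [hq2]; exact (hp' q hq).2
  have hlm : l ∈ G1 ++ G2 := by simp [hl]
  have key := WT.window hA (X := X) (M := G1 ++ G2) (Z := G3 ++ Z) (lo := lo)
    (up := (rhi, chi)) hcx.1 l1 ?_ ?_ ?_ (rlo := loR G1) (rhi := rhi)
    (clo := loC G1) (chi := chi) l3 (le_refl _) l4 (le_refl _) h
  · have := key.full
    simpa [List.append_assoc] using this
  · intro z hz
    have hz' := hall z hz
    refine ⟨lt_of_lt_of_le hr hz'.1, lt_of_lt_of_le hc hz'.2, ?_⟩
    intro hcc
    have h5 := (blk_lt hA (p := (rhi, chi)) (q := g) (r := z) hr.le hc.le hz'.1 hz'.2 hcc).1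
    exact hb h5
  · intro q hq
    exact ⟨⟨(l2 q hq).1, (hle q hq).1⟩, (l2 q hq).2, (hle q hq).2⟩
  · exact ⟨(l2 l hlm).1.trans hr', (l2 l hlm).2.trans hc'⟩

/-- mirror image: a window starting after the last pair of G1 and not meeting the block of G1 -/
theorem blk3_of_excl' (hA : A.WF) {G1 G2 G3 : List (ℕ × ℕ)} (hs : A.After G1 (G2 ++ G3))
    (h1 : G1 ≠ []) (h2 : G2 ≠ []) {rlo clo : ℕ} (hr : loR G1 < rlo) (hc : loC G1 < clo)
    (hr' : rlo ≤ A.hiR G2) (hc' : clo ≤ A.hiC G2)
    (hb : A.bk rlo clo ≠ A.bk (loR G1) (loC G1))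
    (h : A.WT (G2 ++ G3) rlo (A.hiR G3) clo (A.hiC G3)) : A.Blk3 G1 G2 G3 := by
  intro X Z hX hZ hctx
  rw [List.append_assoc] at hctx ⊢
  have hcx := hctx.assoc hs
  have hv := hcx.1.append.1.append.2.1
  have hv1 := hctx.1.append.1.append.2.1.append.1.1
  obtain ⟨l, hl, hl1, hl2, hl'⟩ := lo_spec hv1 h1
  obtain ⟨g, hg, hg1, hg2, hg'⟩ := hi_spec (A := A) hv.append.1.1 h2
  rw [hg1] at hr'
  rw [hg2] at hc'
  rw [hl1] at hr hb
  rw [hl2] at hc hb
  have hge : ∀ q ∈ G2 ++ G3, rlo ≤ q.1 ∧ clo ≤ q.2 := by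
    intro q hq
    rcases List.mem_append.mp hq with h | h
    · exact ⟨hr'.trans (hg' q h).1, hc'.trans (hg' q h).2⟩
    · have := hv.append.2.2 g hg q h
      exact ⟨hr'.trans this.1.le, hc'.trans this.2.le⟩
  have hall : ∀ z ∈ X ++ G1, z.1 ≤ l.1 ∧ z.2 ≤ l.2 := by
    intro z hz
    rcases List.mem_append.mp hz with h | h
    · have := hctx.1.append.1.append.2.2 z h l (by simp [hl])
      exact ⟨this.1.le, this.2.le⟩
    · exact hl' z h
  have hMZ := hcx.1.append.2.2
  obtain ⟨up, u1, u2, u3, u4⟩ : ∃ up : ℕ × ℕ, (∀ p ∈ Z, up.1 < p.1 ∧ up.2 < p.2 ∧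
      A.blk up ≠ A.blk p) ∧ (∀ q ∈ G2 ++ G3, q.1 ≤ up.1 ∧ q.2 ≤ up.2) ∧ A.hiR G3 ≤ up.1 ∧
      A.hiC G3 ≤ up.2 := by
    by_cases hZ' : Z = []
    · refine ⟨(max (A.hiR G3) (A.m - 1), max (A.hiC G3) (A.N - 1)), by simp [hZ'],
        fun q hq => ?_, le_max_left _ _, le_max_left _ _⟩
      have := hv.2 q hq
      constructor
      · exact le_trans (by omega) (le_max_right _ _)
      · exact le_trans (by omega) (le_max_right _ _)
    · have hG3 : G3 ≠ [] := fun h => hZ' (hZ h)
      have hv3 := hv.append.2.1.1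
      obtain ⟨p, hp, hp1, hp2, -⟩ := hi_spec (A := A) hv3 hG3
      obtain ⟨q, hq, -, -, hq'⟩ := lo_spec hv3 hG3
      have hqM : q ∈ G2 ++ G3 := by simp [hq]
      refine ⟨q, fun x hx => ⟨(hMZ q (by simp [hq]) x hx).1, (hMZ q (by simp [hq]) x hx).2,
        hcx.2.2 q hqM x hx⟩, ?_, ?_, ?_⟩
      · intro r hr
        rcases List.mem_append.mp hr with h | h
        · have := hv.append.2.2 r h q hq
          exact ⟨this.1.le, this.2.le⟩
        · exact hq' r h
      · rw [hp1]; exact (hq' p hp).1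
      · rw [hp2]; exact (hq' p hp).2
  have hgm : g ∈ G2 ++ G3 := by simp [hg]
  have key := WT.window hA (X := X ++ G1) (M := G2 ++ G3) (Z := Z) (lo := (rlo, clo))
    (up := up) hcx.1 ?_ u1 ?_ ?_ (rlo := rlo) (rhi := A.hiR G3)
    (clo := clo) (chi := A.hiC G3) (le_refl _) u3 (le_refl _) u4 h
  · have := key.full
    simpa [List.append_assoc] using this
  · intro z hz
    have hz' := hall z hz
    refine ⟨lt_of_le_of_lt hz'.1 hr, lt_of_le_of_lt hz'.2 hc, ?_⟩
    intro hcc
    have h5 := (blk_lt hA (p := z) (q := l) (r := (rlo, clo)) hz'.1 hz'.2 hr.le hc.le hcc).2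
    exact hb h5.symm
  · intro q hq
    exact ⟨⟨(hge q hq).1, (u2 q hq).1⟩, (hge q hq).2, (u2 q hq).2⟩
  · exact ⟨hr'.trans (u2 g hgm).1, hc'.trans (u2 g hgm).2⟩

/-! ### decomposition into groups -/

theorem exists_group (hA : A.WF) : ∀ L : List (ℕ × ℕ), L ≠ [] → A.Valid L →
    ∃ G R, L = G ++ R ∧ A.IsGrp G ∧ A.After G R ∧ L.head? = G.head?
  | [], h, _ => absurd rfl h
  | [a], _, hv => ⟨[a], [], rfl, ⟨by simp, hv, by
      intro p hp q hq
      rw [List.mem_singleton] at hp hq
      rw [hp, hq]⟩, by intro p _ q hq; simp at hq, rfl⟩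
  | a :: b :: t, _, hv => by
    have hv' : A.Valid (b :: t) := ⟨(List.pairwise_cons.mp hv.1).2, fun p hp => hv.2 p (by
      simp only [List.mem_cons] at hp ⊢
      exact Or.inr hp)⟩
    have hab := (List.pairwise_cons.mp hv.1).1
    obtain ⟨G, R, hGR, hG, hs, hh⟩ := exists_group hA (b :: t) (by simp) hv'
    have hbG : b ∈ G := by
      cases G with
      | nil => exact absurd rfl hG.1
      | cons c G' =>
        simp only [List.head?_cons, Option.some.injEq] at hh
        rw [hh]; simp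
    by_cases hbl : A.blk a = A.blk b
    · refine ⟨a :: G, R, by rw [hGR]; rfl, ⟨by simp, ⟨?_, ?_⟩, ?_⟩, ?_, rfl⟩
      · refine List.pairwise_cons.mpr ⟨fun q hq => hab q ?_, hG.2.1.1⟩
        rw [hGR]; simp [hq]
      · intro p hp
        rcases List.mem_cons.mp hp with rfl | hp
        · exact hv.2 _ (by simp)
        · exact hG.2.1.2 p hp
      · have hall : ∀ p ∈ a :: G, A.blk p = A.blk b := by
          intro p hp
          rcases List.mem_cons.mp hp with rfl | hp
          · exact hbl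
          · exact hG.2.2 p hp b hbG
        intro p hp q hq
        rw [hall p hp, hall q hq]
      · intro p hp q hq
        rcases List.mem_cons.mp hp with rfl | hp
        · have h1 := hab q (by rw [hGR]; simp [hq])
          have h2 := hs b hbG q hq
          exact ⟨h1.1, h1.2, by rw [hbl]; exact h2.2.2⟩
        · exact hs p hp q hq
    · refine ⟨[a], b :: t, rfl, ⟨by simp, ⟨List.pairwise_singleton _ _, ?_⟩, ?_⟩, ?_, rfl⟩
      · intro p hp
        rw [List.mem_singleton] at hp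
        rw [hp]; exact hv.2 a (by simp)
      · intro p hp q hq
        rw [List.mem_singleton] at hp hq
        rw [hp, hq]
      · intro p hp q hq
        rw [List.mem_singleton] at hp
        subst hp
        have h1 := hab q hq
        refine ⟨h1.1, h1.2, fun hc => hbl ?_⟩
        have h2 := hab b (by simp)
        have h3 : b.1 ≤ q.1 ∧ b.2 ≤ q.2 := by
          rcases List.mem_cons.mp hq with rfl | hq
          · exact ⟨le_refl _, le_refl _⟩
          · have := (List.pairwise_cons.mp hv'.1).1 q hq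
            exact ⟨this.1.le, this.2.le⟩
        exact (blk_lt hA h2.1.le h2.2.le h3.1 h3.2 hc).1

/-! ### the path theorem -/

/-- **Path theorem.**  P is the claimed property of the lists of pairs all of which satisfy U. -/
theorem all_P (hA : A.WF) (U : ℕ × ℕ → Prop) (P : List (ℕ × ℕ) → Prop)
    (Reach : List (ℕ × ℕ) → List (ℕ × ℕ) → List (ℕ × ℕ) → Prop) (h0 : P [])
    (hstart : ∀ G, A.IsGrp G → (∀ p ∈ G, U p) →
      (∀ Z, A.Ctx [] G Z → P (G ++ Z)) ∨ Reach [] [] G)
    (hstep : ∀ X G1 G2 G3, Reach X G1 G2 → (G1 = [] → X = []) → (G1 = [] ∨ A.IsGrp G1) →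
      A.IsGrp G2 → A.IsGrp G3 → (∀ p ∈ G3, U p) → A.Valid (X ++ (G1 ++ (G2 ++ G3))) →
      A.After X (G1 ++ (G2 ++ G3)) →
      A.After G1 G2 → A.After G2 G3 → A.After G1 G3 →
      (∀ Z, A.Ctx X (G1 ++ (G2 ++ G3)) Z → P (X ++ (G1 ++ (G2 ++ G3)) ++ Z)) ∨
        Reach (X ++ G1) G2 G3)
    (hend : ∀ X G1 G2, Reach X G1 G2 → (G1 = [] → X = []) → (G1 = [] ∨ A.IsGrp G1) →
      A.IsGrp G2 → A.Valid (X ++ (G1 ++ G2)) → A.After X (G1 ++ G2) → A.After G1 G2 →
      P (X ++ (G1 ++ G2))) :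
    ∀ L, A.Valid L → (∀ p ∈ L, U p) → P L := by
  have main : ∀ n : ℕ, ∀ R : List (ℕ × ℕ), R.length ≤ n → (∀ p ∈ R, U p) →
      ∀ X G1 G2, Reach X G1 G2 →
      (G1 = [] → X = []) → (G1 = [] ∨ A.IsGrp G1) → A.IsGrp G2 →
      A.Valid (X ++ (G1 ++ (G2 ++ R))) → A.After X (G1 ++ (G2 ++ R)) → A.After G1 (G2 ++ R) →
      A.After G2 R → P (X ++ (G1 ++ (G2 ++ R))) := by
    intro n
    induction n with
    | zero =>
      intro R hR hU X G1 G2 hreach hX hG1 hG2 hv ha1 ha2 ha3
      have hR0 : R = [] := List.eq_nil_of_length_eq_zero (by omega)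
      subst hR0
      have := hend X G1 G2 hreach hX hG1 hG2 (by simpa using hv) (by simpa using ha1)
        (by simpa using ha2)
      simpa [List.append_assoc] using this
    | succ n ih =>
      intro R hR hU X G1 G2 hreach hX hG1 hG2 hv ha1 ha2 ha3
      by_cases hR0 : R = []
      · subst hR0
        have := hend X G1 G2 hreach hX hG1 hG2 (by simpa using hv) (by simpa using ha1)
          (by simpa using ha2)
        simpa [List.append_assoc] using this
      · have hvR : A.Valid R := hv.append.2.1.append.2.1.append.2.1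
        obtain ⟨G3, R', hRe, hG3, hs, -⟩ := exists_group hA R hR0 hvR
        subst hRe
        have ha23 := ha3.of_append
        have ha12 := ha2.of_append
        have ha13 := ha12.2.of_append
        have haX := ha1.of_append
        have haX2 := haX.2.of_append
        have haX3 := haX2.2.of_append
        have hv3 : A.Valid (X ++ (G1 ++ (G2 ++ G3))) := by
          have : A.Valid ((X ++ (G1 ++ (G2 ++ G3))) ++ R') := by
            simpa [List.append_assoc] using hv
          exact this.append.1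
        rcases hstep X G1 G2 G3 hreach hX hG1 hG2 hG3 (fun p hp => hU p (by simp [hp])) hv3
          (After.append haX.1 (After.append haX2.1 haX3.1)) ha12.1 ha23.1 ha13.1 with hb | hr
        · have := hb R' ⟨by
            simpa [List.append_assoc] using hv, by
            intro p hp q hq
            exact (ha1 p hp q (by
              simp only [List.mem_append] at hq ⊢
              tauto)).2.2, by
            intro q hq z hz
            simp only [List.mem_append] at hq
            rcases hq with hq | hq | hq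
            · exact (ha13.2 q hq z hz).2.2
            · exact (ha23.2 q hq z hz).2.2
            · exact (hs q hq z hz).2.2⟩
          simpa [List.append_assoc] using this
        · have hlen : R'.length ≤ n := by
            have h1 : (G3 ++ R').length = G3.length + R'.length := List.length_append
            have h2 : 0 < G3.length := List.length_pos_of_ne_nil hG3.1
            omega
          have := ih R' hlen (fun p hp => hU p (by simp [hp])) (X ++ G1) G2 G3 hr
            (fun h => absurd h hG2.1) (Or.inr hG2) hG3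
            (by simpa [List.append_assoc] using hv)
            (After.append_left haX.2 ha2) ha3 hs
          simpa [List.append_assoc] using this
  intro L hv hU
  by_cases hL : L = []
  · rw [hL]; exact h0
  · obtain ⟨G, R, hLe, hG, hs, -⟩ := exists_group hA L hL hv
    subst hLe
    rcases hstart G hG (fun p hp => hU p (by simp [hp])) with hb | hr
    · exact hb R ⟨by simpa using hv, by
        intro p hp; simp at hp, by
        intro q hq z hz
        exact (hs q (by simpa using hq) z hz).2.2⟩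
    · have := main R.length R (le_refl _) (fun p hp => hU p (by simp [hp])) [] [] G hr
        (fun _ => rfl) (Or.inl rfl) hG
        (by simpa using hv) (by intro p hp; simp at hp) (by intro p hp; simp at hp) hs
      simpa using this

/-! ### bases and lists of pairs -/

theorem rowsOf_length (B : Finset ℕ) :
    (A.rowsOf B).length + ((Finset.range A.m).filter (fun e => e ∈ B)).card = A.m := by
  classical
  have h1 : (A.rowsOf B).Pairwise (· < ·) := List.Pairwise.filter _ List.pairwise_lt_range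
  rw [length_eq_card h1]
  have h2 : (A.rowsOf B).toFinset.card = ((Finset.range A.m).filter (fun e => ¬ e ∈ B)).card := by
    refine Finset.card_nbij' (fun i => A.m - 1 - i) (fun i => A.m - 1 - i) ?_ ?_ ?_ ?_
    · intro i hi
      simp only [rowsOf, List.coe_toFinset, List.mem_filter, List.mem_range,
        decide_eq_true_eq, Set.mem_ofPred_eq] at hi
      simp only [Finset.coe_filter, Finset.mem_range, Set.mem_ofPred_eq]
      exact ⟨by omega, hi.2⟩
    · intro i hi
      simp only [Finset.coe_filter, Finset.mem_range, Set.mem_ofPred_eq] at hi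
      simp only [rowsOf, List.coe_toFinset, List.mem_filter, List.mem_range,
        decide_eq_true_eq, Set.mem_ofPred_eq]
      refine ⟨by omega, ?_⟩
      have : A.m - 1 - (A.m - 1 - i) = i := by omega
      rw [this]; exact hi.2
    · intro i hi
      simp only [rowsOf, List.coe_toFinset, List.mem_filter, List.mem_range,
        decide_eq_true_eq, Set.mem_ofPred_eq] at hi
      simp only
      omega
    · intro i hi
      simp only [Finset.coe_filter, Finset.mem_range, Set.mem_ofPred_eq] at hi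
      simp only
      omega
  rw [h2]
  have h3 := Finset.card_filter_add_card_filter_not (s := Finset.range A.m) (fun e => e ∈ B)
  rw [Finset.card_range] at h3
  omega

theorem colsOf_length {B : Finset ℕ} (hB : B ⊆ Finset.range (A.m + A.N)) :
    (A.colsOf B).length + ((Finset.range A.m).filter (fun e => e ∈ B)).card = B.card := by
  classical
  have h1 : (A.colsOf B).Pairwise (· < ·) := List.Pairwise.filter _ List.pairwise_lt_range
  rw [length_eq_card h1]
  have h2 : (A.colsOf B).toFinset.card = (B.filter (fun e => ¬ e < A.m)).card := by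
    refine Finset.card_nbij' (fun i => A.m + i) (fun i => i - A.m) ?_ ?_ ?_ ?_
    · intro i hi
      simp only [colsOf, List.coe_toFinset, List.mem_filter, List.mem_range,
        decide_eq_true_eq, Set.mem_ofPred_eq] at hi
      simp only [Finset.coe_filter, Set.mem_ofPred_eq]
      exact ⟨hi.2, by omega⟩
    · intro i hi
      simp only [Finset.coe_filter, Set.mem_ofPred_eq] at hi
      have h5 := Finset.mem_range.mp (hB hi.1)
      simp only [colsOf, List.coe_toFinset, List.mem_filter, List.mem_range,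
        decide_eq_true_eq, Set.mem_ofPred_eq]
      refine ⟨by omega, ?_⟩
      have : A.m + (i - A.m) = i := by omega
      rw [this]; exact hi.1
    · intro i hi
      simp only
      omega
    · intro i hi
      simp only [Finset.coe_filter, Set.mem_ofPred_eq] at hi
      simp only
      omega
  have h3 : ((Finset.range A.m).filter (fun e => e ∈ B)).card =
      (B.filter (fun e => e < A.m)).card := by
    congr 1
    ext e
    simp only [Finset.mem_filter, Finset.mem_range]
    tauto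
  rw [h2, h3]
  have h4 := Finset.card_filter_add_card_filter_not (s := B) (fun e => e < A.m)
  omega

theorem inc_zip : ∀ {R C : List ℕ}, R.Pairwise (· < ·) → C.Pairwise (· < ·) → Inc (R.zip C)
  | [], _, _, _ => by simp [Inc]
  | _ :: _, [], _, _ => by simp [Inc]
  | a :: t, b :: t', h, h' => by
    rw [List.pairwise_cons] at h h'
    rw [List.zip_cons_cons]
    refine List.pairwise_cons.mpr ⟨fun p hp => ⟨h.1 _ (mem_zip_fst hp), h'.1 _ (mem_zip_snd hp)⟩,
      inc_zip h.2 h'.2⟩

theorem mem_rowsOf {B : Finset ℕ} {i : ℕ} : i ∈ A.rowsOf B ↔ i < A.m ∧ A.m - 1 - i ∉ B := by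
  simp [rowsOf]

theorem mem_colsOf {B : Finset ℕ} {j : ℕ} : j ∈ A.colsOf B ↔ j < A.N ∧ A.m + j ∈ B := by
  simp [colsOf]

theorem valid_pairs (B : Finset ℕ) : A.Valid (A.pairs B) := by
  refine ⟨inc_zip (List.Pairwise.filter _ List.pairwise_lt_range)
    (List.Pairwise.filter _ List.pairwise_lt_range), fun p hp => ?_⟩
  exact ⟨(mem_rowsOf.mp (mem_zip_fst hp)).1, (mem_colsOf.mp (mem_zip_snd hp)).1⟩

theorem rowsOf_exchange {B : Finset ℕ} {e x : ℕ} (he : e ∈ B) (hx : x ∉ B) :
    A.rowsOf (insert x (B.erase e)) = A.togR (A.rowsOf B) e x := by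
  have hex : e ≠ x := fun h => hx (h ▸ he)
  unfold togR
  rw [rowsOf]
  apply List.filter_congr
  intro i hi
  have him := List.mem_range.mp hi
  have h1 : decide (i ∈ A.rowsOf B) = decide (A.m - 1 - i ∉ B) := by
    rw [decide_eq_decide, mem_rowsOf]
    exact ⟨fun h => h.2, fun h => ⟨him, h⟩⟩
  rw [h1]
  generalize A.m - 1 - i = y
  by_cases h2 : y = e
  · subst h2; simp [he, hex]
  · by_cases h3 : y = x
    · subst h3; simp [hx, h2]
    · simp [h2, h3]

theorem colsOf_exchange {B : Finset ℕ} {e x : ℕ} (he : e ∈ B) (hx : x ∉ B) :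
    A.colsOf (insert x (B.erase e)) = A.togC (A.colsOf B) e x := by
  have hex : e ≠ x := fun h => hx (h ▸ he)
  unfold togC
  rw [colsOf]
  apply List.filter_congr
  intro i hi
  have him := List.mem_range.mp hi
  have h1 : decide (i ∈ A.colsOf B) = decide (A.m + i ∈ B) := by
    rw [decide_eq_decide, mem_colsOf]
    exact ⟨fun h => h.2, fun h => ⟨him, h⟩⟩
  rw [h1]
  generalize A.m + i = y
  by_cases h2 : y = e
  · subst h2; simp [he, hex]
  · by_cases h3 : y = x
    · subst h3; simp [hx, h2]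
    · simp [h2, h3]

theorem blocked_of_full {B E : Finset ℕ} (hB : B ⊆ Finset.range (A.m + A.N)) (hc : B.card = A.m)
    (hE : ∀ e, e < A.m + A.N → A.al e = true → e ∈ E)
    (h : A.Full (A.pairs B)) : Blocked id E A.f B := by
  have hlen : (A.rowsOf B).length = (A.colsOf B).length := by
    have h1 := rowsOf_length (A := A) B
    have h2 := colsOf_length (A := A) hB
    omega
  have hf : (A.pairs B).map Prod.fst = A.rowsOf B := List.map_fst_zip (by omega)
  have hs : (A.pairs B).map Prod.snd = A.colsOf B := List.map_snd_zip (by omega)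
  have hbas : ∀ e, A.Bas (A.pairs B) e → e ∈ B := by
    intro e he
    rcases he with ⟨h1, h2⟩ | ⟨h1, h2, h3⟩
    · rw [hf, mem_rowsOf] at h2
      by_contra hc
      apply h2
      refine ⟨by omega, ?_⟩
      have : A.m - 1 - (A.m - 1 - e) = e := by omega
      rw [this]; exact hc
    · rw [hs, mem_colsOf] at h3
      have : A.m + (e - A.m) = e := by omega
      rw [this] at h3
      exact h3.2
  have hnon : ∀ e, A.Non (A.pairs B) e → e ∈ Finset.range (A.m + A.N) \ B := by
    intro e he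
    rw [Finset.mem_sdiff, Finset.mem_range]
    rcases he with ⟨h1, h2⟩ | ⟨h1, h2, h3⟩
    · rw [hf, mem_rowsOf] at h2
      have : A.m - 1 - (A.m - 1 - e) = e := by omega
      rw [this] at h2
      exact ⟨by omega, h2.2⟩
    · rw [hs, mem_colsOf] at h3
      refine ⟨h2, fun hc => h3 ⟨by omega, ?_⟩⟩
      have : A.m + (e - A.m) = e := by omega
      rw [this]; exact hc
  have hT : ∀ e x, A.Bas (A.pairs B) e → A.Non (A.pairs B) x →
      xch id A.f B e x = A.T (A.pairs B) e x := by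
    intro e x he hx
    have he' := hbas e he
    have hx' := (Finset.mem_sdiff.mp (hnon x hx)).2
    unfold xch T f
    rw [hf, hs, pairs, rowsOf_exchange he' hx', colsOf_exchange he' hx']
    rfl
  obtain ⟨e, e', x, x', -, -, -, -, b1, b2, n1, n2, a1, a2, ht⟩ := h
  have hEx : ∀ x, A.Non (A.pairs B) x → A.al x = true → x ∈ E \ B := by
    intro x hx ha
    have := Finset.mem_sdiff.mp (hnon x hx)
    exact Finset.mem_sdiff.mpr ⟨hE x (Finset.mem_range.mp this.1) ha, this.2⟩
  refine ⟨e, hbas e b1, e', hbas e' b2, x, hEx x n1 a1, x', hEx x' n2 a2, ?_⟩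
  rw [hT e x b1 n1, hT e x' b1 n2, hT e' x b2 n1, hT e' x' b2 n2, ← ht]
  generalize A.T (A.pairs B) e x = a
  generalize A.T (A.pairs B) e' x = b
  generalize A.T (A.pairs B) e x' = c
  generalize A.T (A.pairs B) e' x' = d
  cases a <;> cases b <;> cases c <;> cases d <;> rfl

end GArr

end Pool.Agent.Simplex
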