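import Pool.Agent.Work.MP_f99e36_co.MaskEval
import Pool.Agent.Work.MP_f99e36_co.GPathThm

/-!
Evaluation of general block arrays run by run.
-/

set_option autoImplicit false

namespace Pool.Agent.Simplex

/-- xor of h over a list -/
def xrg (bl : List ℕ) (h : ℕ → Bool) : Bool := bl.foldr (fun b s => h b ^^ s) false

theorem xrg_congr {bl : List ℕ} {h h' : ℕ → Bool} (H : ∀ c ∈ bl, h c = h' c) :
    xrg bl h = xrg bl h' := by
  induction bl with
  | nil => rfl
  | cons a l ih =>
    show (h a ^^ xrg l h) = (h' a ^^ xrg l h')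
    rw [H a (by simp), ih (fun c hc => H c (by simp [hc]))]

/-- changing h at one point of the list -/
theorem xrg_change {bl : List ℕ} (hn : bl.Nodup) {c : ℕ} (hc : c ∈ bl)
    {h h' : ℕ → Bool} (H : ∀ d ∈ bl, d ≠ c → h d = h' d) :
    xrg bl h = (h c ^^ h' c ^^ xrg bl h') := by
  induction bl with
  | nil => simp at hc
  | cons a l ih =>
    show (h a ^^ xrg l h) = (h c ^^ h' c ^^ (h' a ^^ xrg l h'))
    rw [List.nodup_cons] at hn
    by_cases hac : c = a
    · subst hac
      have : xrg l h = xrg l h' := xrg_congr (fun d hd => H d (by simp [hd])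
        (fun he => hn.1 (he ▸ hd)))
      rw [this]
      cases h c <;> cases h' c <;> simp
    · have hcl : c ∈ l := by
        rcases List.mem_cons.mp hc with h1 | h1
        · exact absurd h1 hac
        · exact h1
      rw [ih hn.2 hcl (fun d hd hne => H d (by simp [hd]) hne), H a (by simp) (Ne.symm hac)]
      cases h c <;> cases h' c <;> cases h' a <;> simp

theorem xrg_single {bl : List ℕ} (hn : bl.Nodup) {c : ℕ} (hc : c ∈ bl)
    {h : ℕ → Bool} (H : ∀ d ∈ bl, d ≠ c → h d = false) : xrg bl h = h c := by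
  have h0 : xrg bl (fun _ => false) = false := by
    clear hn hc H
    induction bl with
    | nil => rfl
    | cons a l ih => show (false ^^ xrg l _) = false; rw [ih]; rfl
  rw [xrg_change hn hc (h' := fun _ => false) H, h0]
  simp

namespace GArr

variable (A : GArr)

/-- evaluation of a list of pairs run by run -/
def rvl : List (ℕ × ℕ) → ℕ → List (ℕ × ℕ) → Bool → Bool
  | [], b, P, s => s ^^ A.g b P
  | p :: L, b, P, s =>
    if A.bk p.1 p.2 = b then rvl L b (P ++ [p]) s
    else rvl L (A.bk p.1 p.2) [p] (s ^^ A.g b P)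

theorem val_eq_xr (L : List (ℕ × ℕ)) : A.val L = xrg A.bl (fun b => A.g b (A.part b L)) := rfl

variable {A}

theorem part_cons_pos {b : ℕ} {p : ℕ × ℕ} (L : List (ℕ × ℕ)) (h : A.bk p.1 p.2 = b) :
    A.part b (p :: L) = p :: A.part b L := by
  unfold part
  rw [List.filter_cons_of_pos]
  simp [h]

theorem part_cons_neg {b : ℕ} {p : ℕ × ℕ} (L : List (ℕ × ℕ)) (h : ¬ (A.bk p.1 p.2 = b)) :
    A.part b (p :: L) = A.part b L := by
  unfold part
  rw [List.filter_cons_of_neg]
  simpa using h

/-- no block is left and entered again -/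
def Sep (A : GArr) (b : ℕ) : List (ℕ × ℕ) → Prop
  | [] => True
  | p :: L => (A.bk p.1 p.2 ≠ b → ∀ q ∈ p :: L, A.bk q.1 q.2 ≠ b) ∧ Sep A (A.bk p.1 p.2) L

theorem rvl_eq (hA : A.WF) (hbl : A.bl.Nodup) :
    ∀ (L : List (ℕ × ℕ)) (b : ℕ) (P : List (ℕ × ℕ)) (s : Bool), Sep A b L →
      (∀ p ∈ L, A.bk p.1 p.2 ∈ A.bl) → b ∈ A.bl →
      A.rvl L b P s = (s ^^ xrg A.bl (fun c => A.g c ((if c = b then P else []) ++ A.part c L))) := by
  intro L
  induction L with
  | nil =>
    intro b P s _ _ hab
    show (s ^^ A.g b P) = _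
    rw [xrg_single hbl hab]
    · simp [part]
    · intro d _ hd
      simp [part, hd, hA.g_nil]
  | cons p L ih =>
    intro b P s hsep hmem hab
    unfold rvl
    by_cases hp : A.bk p.1 p.2 = b
    · rw [if_pos hp, ih b (P ++ [p]) s (hp ▸ hsep.2) (fun x hx => hmem x (by simp [hx])) hab]
      congr 1
      apply xrg_congr
      intro c _
      by_cases hc : c = b
      · subst hc
        rw [if_pos rfl, if_pos rfl, part_cons_pos L hp]
        simp
      · rw [if_neg hc, if_neg hc, part_cons_neg L (fun h => hc (h.symm.trans hp))]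
    · rw [if_neg hp]
      have hpm : A.bk p.1 p.2 ∈ A.bl := hmem p (by simp)
      rw [ih _ [p] _ hsep.2 (fun x hx => hmem x (by simp [hx])) hpm]
      have hnot := hsep.1 hp
      have hpart : A.part b (p :: L) = [] := by
        unfold part
        rw [List.filter_eq_nil_iff]
        intro x hx
        simpa using hnot x hx
      have hpart' : A.part b L = [] := by
        unfold part
        rw [List.filter_eq_nil_iff]
        intro x hx
        simpa using hnot x (by simp [hx])
      rw [xrg_change hbl hab (h := fun c =>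
          A.g c ((if c = b then P else []) ++ A.part c (p :: L)))
        (h' := fun c => A.g c
          ((if c = A.bk p.1 p.2 then [p] else []) ++ A.part c L))]
      · have hne : ¬ (b = A.bk p.1 p.2) := fun h => hp h.symm
        simp only [if_true, hpart, hpart', hne, if_false, List.append_nil, hA.g_nil]
        cases s <;> cases A.g b P <;> simp
      · intro d _ hd
        rw [if_neg hd]
        by_cases hdp : d = A.bk p.1 p.2
        · subst hdp
          rw [if_pos rfl, part_cons_pos L rfl]
          simp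
        · rw [if_neg hdp, part_cons_neg L (fun h => hdp h.symm)]

theorem sep_of_dec (hA : A.WF) : ∀ (L : List (ℕ × ℕ)) (p : ℕ × ℕ),
    (p :: L).Pairwise (fun p q => q.1 < p.1 ∧ q.2 < p.2) → Sep A (A.bk p.1 p.2) L := by
  intro L
  induction L with
  | nil => intro p _; trivial
  | cons q L ih =>
    intro p hp
    rw [List.pairwise_cons] at hp
    refine ⟨?_, ih q hp.2⟩
    intro hne r hr hc
    apply hne
    have hpq := hp.1 q (by simp)
    have hqr : r.1 ≤ q.1 ∧ r.2 ≤ q.2 := by
      rcases List.mem_cons.mp hr with h | h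
      · rw [h]
        exact ⟨le_refl _, le_refl _⟩
      · have := (List.pairwise_cons.mp hp.2).1 r h
        exact ⟨this.1.le, this.2.le⟩
    have h1 := hA.conv _ _ _ _ _ _ hqr.1 hpq.1.le hqr.2 hpq.2.le hc
    rw [← h1]
    exact hc

/-- evaluation from the last pair, when g does not depend on the order of the pairs -/
theorem val_eq_rvl_rev (hA : A.WF) (hbl : A.bl.Nodup) (h0 : 0 ∈ A.bl)
    (hsym : ∀ b P, A.g b P.reverse = A.g b P) {L : List (ℕ × ℕ)}
    (hL : L.Pairwise (fun p q => q.1 < p.1 ∧ q.2 < p.2))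
    (hmem : ∀ p ∈ L, A.bk p.1 p.2 ∈ A.bl) (s : Bool) :
    A.rvl L 0 [] s = (s ^^ A.val L.reverse) := by
  have hval : A.val L.reverse = xrg A.bl (fun c => A.g c (A.part c L)) := by
    rw [val_eq_xr]
    apply xrg_congr
    intro c _
    have : A.part c L.reverse = (A.part c L).reverse := by
      unfold part
      rw [List.filter_reverse]
    rw [this, hsym]
  cases L with
  | nil =>
    show (s ^^ A.g 0 []) = _
    rw [hA.g_nil]
    congr 1
    rw [hval]
    symm
    rw [xrg_single hbl h0 (h := fun c => A.g c (A.part c []))]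
    · exact hA.g_nil 0
    · intro d _ _
      exact hA.g_nil _
  | cons p t =>
    have hpm := hmem p (by simp)
    have hsep := sep_of_dec hA t p hL
    have h1 := rvl_eq hA hbl (p :: t) (A.bk p.1 p.2) [] s ⟨fun h => absurd rfl h, hsep⟩ hmem hpm
    have h2 : A.rvl (p :: t) 0 [] s = A.rvl (p :: t) (A.bk p.1 p.2) [] s := by
      unfold rvl
      rw [if_pos (c := A.bk p.1 p.2 = A.bk p.1 p.2) rfl]
      by_cases hp : A.bk p.1 p.2 = 0
      · rw [if_pos hp, hp]
      · rw [if_neg hp, hA.g_nil]
        simp
    rw [h2, h1, hval]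
    simp

end GArr

end Pool.Agent.Simplex
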