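import Pool.Agent.Work.MP_f99e36_co.Chk1
import Pool.Agent.Work.MP_f99e36_co.GEval

/-!
Kernel-friendly checker for general block arrays, part 1: data, fast sign evaluation.

Row i is the bit e = m-1-i, column j is the bit y = N-1-j.  The table pt has a field for every row
e at the place 2 ^ e mod 37 and a field for every column y at the place 37 + (2 ^ y mod 101); their
sum is 2 ^ 20 times the block of the pair plus the local bits of the row and of the column.
-/

set_option autoImplicit false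

namespace Pool.Agent.Simplex

/-- xor of s with the bit of the local index in tab -/
def flg (bt tab acc : ℕ) (s : Bool) : Bool :=
  cond (Nat.beq (Nat.land (Nat.shiftRight tab
    (Nat.add (Nat.land (Nat.shiftRight bt (Nat.mul 64 (Nat.shiftRight acc 20))) 4294967295)
      (Nat.land acc 1048575))) 1) 1) (not s) s

/-- base of the table of a block -/
def bas (bt b : ℕ) : ℕ := Nat.land (Nat.shiftRight bt (Nat.mul 64 b)) 4294967295

theorem flg_eq (bt tab acc : ℕ) (s : Bool) :
    flg bt tab acc s = (s ^^ tab.testBit (bas bt (acc >>> 20) + acc % 1048576)) := by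
  have h : Nat.land acc 1048575 = acc % 1048576 := by
    have : (1048575 : ℕ) = 2 ^ 20 - 1 := rfl
    show acc &&& 1048575 = _
    rw [this, Nat.and_two_pow_sub_one_eq_mod]
  unfold flg
  rw [h]
  exact fl_eq tab _ s

/-- one step of the evaluation -/
def evgStep (pt bt tab : ℕ) (ih : ℕ → ℕ → ℕ → Bool → Bool) (X Y acc : ℕ) (s : Bool) : Bool :=
    cond (Nat.beq X 0) (flg bt tab acc s)
      (sq (Nat.land X (Nat.sub X 1)) fun X' =>
       sq (Nat.land Y (Nat.sub Y 1)) fun Y' =>
       sq (Nat.add (Nat.land (Nat.shiftRight pt (Nat.mul 32 (Nat.mod (Nat.xor X X') 37))) 4294967295)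
        (Nat.land (Nat.shiftRight pt (Nat.mul 32 (Nat.add 37 (Nat.mod (Nat.xor Y Y') 101))))
          4294967295)) fun W =>
       cond (Nat.ble (Nat.xor W acc) 1048575)
        (sq (Nat.add acc (Nat.land W 1048575)) fun acc' => ih X' Y' acc' s)
        (ih X' Y' W (flg bt tab acc s)))

/-- fast evaluation: pairs are read from the lowest bits of X and Y -/
def evg (pt bt tab : ℕ) (fuel : ℕ) : ℕ → ℕ → ℕ → Bool → Bool :=
  Nat.rec (motive := fun _ => ℕ → ℕ → ℕ → Bool → Bool)
   (fun _ _ acc s => flg bt tab acc s)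
   (fun _ ih X Y acc s =>
    cond (Nat.beq X 0) (flg bt tab acc s)
      (sq (Nat.land X (Nat.sub X 1)) fun X' =>
       sq (Nat.land Y (Nat.sub Y 1)) fun Y' =>
       sq (Nat.add (Nat.land (Nat.shiftRight pt (Nat.mul 32 (Nat.mod (Nat.xor X X') 37))) 4294967295)
        (Nat.land (Nat.shiftRight pt (Nat.mul 32 (Nat.add 37 (Nat.mod (Nat.xor Y Y') 101))))
          4294967295)) fun W =>
       cond (Nat.ble (Nat.xor W acc) 1048575)
        (sq (Nat.add acc (Nat.land W 1048575)) fun acc' => ih X' Y' acc' s)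
        (ih X' Y' W (flg bt tab acc s)))) fuel

/-- the field of a pair -/
def pf (pt e y : ℕ) : ℕ :=
  Nat.add (Nat.land (Nat.shiftRight pt (Nat.mul 32 (Nat.mod (Nat.pow 2 e) 37))) 4294967295)
    (Nat.land (Nat.shiftRight pt (Nat.mul 32 (Nat.add 37 (Nat.mod (Nat.pow 2 y) 101))))
      4294967295)

theorem ble_xor20 (W acc : ℕ) :
    Nat.ble (Nat.xor W acc) 1048575 = decide (W >>> 20 = acc >>> 20) := by
  rw [Bool.eq_iff_iff, decide_eq_true_iff]
  have h : W >>> 20 = acc >>> 20 ↔ (W ^^^ acc) ≤ 1048575 := by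
    rw [← Nat.xor_eq_zero_iff, ← Nat.shiftRight_xor_distrib, Nat.shiftRight_eq_div_pow]
    omega
  rw [h]
  exact ⟨Nat.le_of_ble_eq_true, Nat.ble_eq_true_of_le⟩

theorem evg_zero (pt bt tab X Y acc : ℕ) (s : Bool) :
    evg pt bt tab 0 X Y acc s = (s ^^ tab.testBit (bas bt (acc >>> 20) + acc % 1048576)) :=
  flg_eq _ _ _ _

theorem evgStep_eq (pt bt tab : ℕ) (ih : ℕ → ℕ → ℕ → Bool → Bool) (X Y acc : ℕ) (s : Bool)
    (hY : Y ≠ 0) :
    evgStep pt bt tab ih X Y acc s =
      if X = 0 then (s ^^ tab.testBit (bas bt (acc >>> 20) + acc % 1048576))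
      else if pf pt (lob X) (lob Y) >>> 20 = acc >>> 20 then
        ih (X &&& (X - 1)) (Y &&& (Y - 1)) (acc + pf pt (lob X) (lob Y) % 1048576) s
      else ih (X &&& (X - 1)) (Y &&& (Y - 1)) (pf pt (lob X) (lob Y))
        (s ^^ tab.testBit (bas bt (acc >>> 20) + acc % 1048576)) := by
  unfold evgStep
  simp only [sq_eq, flg_eq]
  by_cases hX : X = 0
  · subst hX; rfl
  · rw [if_neg hX, beq_false' hX, cond_false, ble_xor20]
    have e1 : Nat.xor X (Nat.land X (Nat.sub X 1)) = 2 ^ lob X := xor_land_pred hX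
    have e2 : Nat.xor Y (Nat.land Y (Nat.sub Y 1)) = 2 ^ lob Y := xor_land_pred hY
    rw [e1, e2]
    have e3 : Nat.add (Nat.land (Nat.shiftRight pt (Nat.mul 32 (Nat.mod (2 ^ lob X) 37)))
      4294967295) (Nat.land (Nat.shiftRight pt (Nat.mul 32 (Nat.add 37 (Nat.mod (2 ^ lob Y) 101))))
        4294967295) = pf pt (lob X) (lob Y) := rfl
    rw [e3]
    have e4 : Nat.land (pf pt (lob X) (lob Y)) 1048575 = pf pt (lob X) (lob Y) % 1048576 := by
      have : (1048575 : ℕ) = 2 ^ 20 - 1 := rfl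
      show _ &&& 1048575 = _
      rw [this, Nat.and_two_pow_sub_one_eq_mod]
    rw [e4]
    by_cases h2 : pf pt (lob X) (lob Y) >>> 20 = acc >>> 20
    · rw [if_pos h2, decide_eq_true h2]; rfl
    · rw [if_neg h2, decide_eq_false h2]; rfl

theorem evg_succ (pt bt tab n X Y acc : ℕ) (s : Bool) (hY : Y ≠ 0) :
    evg pt bt tab (n + 1) X Y acc s =
      if X = 0 then (s ^^ tab.testBit (bas bt (acc >>> 20) + acc % 1048576))
      else if pf pt (lob X) (lob Y) >>> 20 = acc >>> 20 then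
        evg pt bt tab n (X &&& (X - 1)) (Y &&& (Y - 1))
          (acc + pf pt (lob X) (lob Y) % 1048576) s
      else evg pt bt tab n (X &&& (X - 1)) (Y &&& (Y - 1)) (pf pt (lob X) (lob Y))
        (s ^^ tab.testBit (bas bt (acc >>> 20) + acc % 1048576)) := by
  rw [← evgStep_eq _ _ _ _ _ _ _ _ hY]
  rfl

theorem evg_succ_zero (pt bt tab n Y acc : ℕ) (s : Bool) :
    evg pt bt tab (n + 1) 0 Y acc s =
      (s ^^ tab.testBit (bas bt (acc >>> 20) + acc % 1048576)) := flg_eq _ _ _ _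

/-- data of a general array -/
structure GDat where
  m : ℕ
  N : ℕ
  nb : ℕ
  pt : ℕ
  bt : ℕ
  tab : ℕ
  /-- allowed positions -/
  al : ℕ
  /-- column bits that a basis may not use -/
  ng : ℕ
  /-- column bit that a basis must use (none if it is at least N) -/
  cc : ℕ

namespace GDat

variable (D : GDat)

/-- block of the pair of bits (e, y) -/
def bid (e y : ℕ) : ℕ := Nat.shiftRight (pf D.pt e y) 20
/-- local bits of the pair (e, y) -/
def loc (e y : ℕ) : ℕ := pf D.pt e y % 1048576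
/-- second word of the block table -/
def bw (b : ℕ) : ℕ := Nat.shiftRight D.bt (Nat.add (Nat.mul 64 b) 32)
/-- lowest row bit of a block -/
def r0 (b : ℕ) : ℕ := Nat.land (D.bw b) 255
/-- highest row bit of a block -/
def r1 (b : ℕ) : ℕ := Nat.land (Nat.shiftRight (D.bw b) 8) 255
/-- lowest column bit of a block -/
def c0 (b : ℕ) : ℕ := Nat.land (Nat.shiftRight (D.bw b) 16) 255
/-- highest column bit of a block -/
def c1 (b : ℕ) : ℕ := Nat.land (Nat.shiftRight (D.bw b) 24) 255

/-- sum of the local bits of a list of pairs -/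
def lsum (L : List (ℕ × ℕ)) : ℕ := (L.map (fun p => D.loc (D.m - 1 - p.1) (D.N - 1 - p.2))).sum

/-- the position of an element -/
def pos (e : ℕ) : ℕ := if e < D.m then e else D.m + D.N + 31 - e

/-- the array of the data -/
def arr : GArr where
  m := D.m
  N := D.N
  bk := fun i j => D.bid (D.m - 1 - i) (D.N - 1 - j)
  bl := List.range D.nb
  g := fun b L => !L.isEmpty && D.tab.testBit (bas D.bt b + D.lsum L)
  al := fun e => D.al.testBit (D.pos e)

/-- the data is consistent -/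
structure Good : Prop where
  m_le : D.m ≤ 32
  N_le : D.N ≤ 96
  m_pos : 0 < D.m
  N_pos : 0 < D.N
  nb_pos : 0 < D.nb
  tab_zero : D.tab.testBit (bas D.bt 0) = false
  cell : ∀ e, e < D.m → ∀ y, y < D.N → D.bid e y < D.nb ∧ D.r0 (D.bid e y) ≤ e ∧
    e ≤ D.r1 (D.bid e y) ∧ D.c0 (D.bid e y) ≤ y ∧ y ≤ D.c1 (D.bid e y) ∧
    D.loc e y = 2 ^ (e - D.r0 (D.bid e y)) +
      2 ^ (D.r1 (D.bid e y) + 1 - D.r0 (D.bid e y)) * 2 ^ (y - D.c0 (D.bid e y))
  rect : ∀ b, b < D.nb → ∀ e, e < D.m → ∀ y, y < D.N → D.r0 b ≤ e → e ≤ D.r1 b → D.c0 b ≤ y →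
    y ≤ D.c1 b → D.bid e y = b
  size : ∀ b, b < D.nb → (D.r1 b + 1 - D.r0 b) + (D.c1 b + 1 - D.c0 b) ≤ 20

variable {D}

theorem conv (hG : D.Good) {e e' e'' y y' y'' : ℕ} (he : e < D.m) (hy : y < D.N) (h1 : e' ≤ e)
    (h2 : e'' ≤ e') (h3 : y' ≤ y) (h4 : y'' ≤ y') (h : D.bid e y = D.bid e'' y'') :
    D.bid e y = D.bid e' y' := by
  have a := hG.cell e he y hy
  have b := hG.cell e'' (by omega) y'' (by omega)
  rw [← h] at b
  exact (hG.rect _ a.1 e' (by omega) y' (by omega) (by omega) (by omega) (by omega)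
    (by omega)).symm

theorem wf (hG : D.Good) : D.arr.WF where
  conv := by
    intro i i' i'' j j' j'' h1 h2 h3 h4 h
    have := hG.m_pos
    have := hG.N_pos
    exact conv hG (by omega) (by omega) (by omega) (by omega) (by omega) (by omega) h
  g_nil := by intro b; rfl

theorem lsum_lt (hG : D.Good) {P : List (ℕ × ℕ)} (hI : GArr.Inc P)
    (hv : ∀ p ∈ P, p.1 < D.m ∧ p.2 < D.N) {b : ℕ}
    (hb : ∀ p ∈ P, D.bid (D.m - 1 - p.1) (D.N - 1 - p.2) = b) : D.lsum P < 1048576 := by
  by_cases hP : P = []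
  · subst hP
    show (0 : ℕ) < _
    norm_num
  obtain ⟨p0, hp0⟩ := List.exists_mem_of_ne_nil P hP
  have hm := hG.m_pos
  have hN := hG.N_pos
  have hb0 : b < D.nb := by
    rw [← hb p0 hp0]
    exact (hG.cell _ (by omega) _ (by omega)).1
  have hcell : ∀ p ∈ P, D.r0 b ≤ D.m - 1 - p.1 ∧ D.m - 1 - p.1 ≤ D.r1 b ∧ D.c0 b ≤ D.N - 1 - p.2 ∧
      D.N - 1 - p.2 ≤ D.c1 b ∧ D.loc (D.m - 1 - p.1) (D.N - 1 - p.2) =
        2 ^ (D.m - 1 - p.1 - D.r0 b) +
          2 ^ (D.r1 b + 1 - D.r0 b) * 2 ^ (D.N - 1 - p.2 - D.c0 b) := by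
    intro p hp
    have := (hG.cell (D.m - 1 - p.1) (by omega) (D.N - 1 - p.2) (by omega)).2
    rwa [hb p hp] at this
  have hsplit : D.lsum P = (P.map (fun p => 2 ^ (D.m - 1 - p.1 - D.r0 b))).sum +
      2 ^ (D.r1 b + 1 - D.r0 b) * (P.map (fun p => 2 ^ (D.N - 1 - p.2 - D.c0 b))).sum := by
    clear hI hP hp0 hv hb
    induction P with
    | nil => rfl
    | cons p t ih =>
      have h1 := ih (fun x hx => hcell x (by simp [hx]))
      show D.loc (D.m - 1 - p.1) (D.N - 1 - p.2) + D.lsum t = _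
      rw [h1, List.map_cons, List.map_cons, List.sum_cons, List.sum_cons,
        (hcell p (by simp)).2.2.2.2]
      ring
  have h1 : (P.map (fun p => 2 ^ (D.m - 1 - p.1 - D.r0 b))).sum < 2 ^ (D.r1 b + 1 - D.r0 b) := by
    apply Dat.sum_pow_lt
    · rw [List.pairwise_map]
      refine List.Pairwise.imp_of_mem ?_ hI
      intro x y hx hy hxy
      have hx' := hcell x hx
      have hy' := hcell y hy
      have hx2 := hv x hx
      have hy2 := hv y hy
      exact Nat.pow_lt_pow_right (by norm_num) (by omega)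
    · intro x hx
      obtain ⟨p, hp, rfl⟩ := List.mem_map.mp hx
      exact ⟨_, rfl⟩
    · intro x hx
      obtain ⟨p, hp, rfl⟩ := List.mem_map.mp hx
      have := hcell p hp
      exact Nat.pow_lt_pow_right (by norm_num) (by omega)
  have h2 : (P.map (fun p => 2 ^ (D.N - 1 - p.2 - D.c0 b))).sum < 2 ^ (D.c1 b + 1 - D.c0 b) := by
    apply Dat.sum_pow_lt
    · rw [List.pairwise_map]
      refine List.Pairwise.imp_of_mem ?_ hI
      intro x y hx hy hxy
      have hx' := hcell x hx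
      have hy' := hcell y hy
      have hx2 := hv x hx
      have hy2 := hv y hy
      exact Nat.pow_lt_pow_right (by norm_num) (by omega)
    · intro x hx
      obtain ⟨p, hp, rfl⟩ := List.mem_map.mp hx
      exact ⟨_, rfl⟩
    · intro x hx
      obtain ⟨p, hp, rfl⟩ := List.mem_map.mp hx
      have := hcell p hp
      exact Nat.pow_lt_pow_right (by norm_num) (by omega)
  have hsz := hG.size b hb0
  have hpow : 2 ^ (D.r1 b + 1 - D.r0 b) * 2 ^ (D.c1 b + 1 - D.c0 b) ≤ 2 ^ 20 := by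
    rw [← pow_add]
    exact Nat.pow_le_pow_right (by norm_num) hsz
  rw [hsplit]
  generalize 2 ^ (D.r1 b + 1 - D.r0 b) = A at *
  generalize 2 ^ (D.c1 b + 1 - D.c0 b) = C at *
  generalize (P.map (fun p => 2 ^ (D.m - 1 - p.1 - D.r0 b))).sum = x at *
  generalize (P.map (fun p => 2 ^ (D.N - 1 - p.2 - D.c0 b))).sum = z at *
  have : A * (z + 1) ≤ A * C := Nat.mul_le_mul_left A h2
  have h3 : A * (z + 1) = A * z + A := by ring
  norm_num at hpow
  omega

end GDat

end Pool.Agent.Simplex
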