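import Pool.Agent.Work.MP_f99e36_co.GChk1

/-!
Kernel-friendly checker for general block arrays, part 2: the fast evaluation computes the value
of a list of pairs.
-/

set_option autoImplicit false

namespace Pool.Agent.Simplex

namespace GDat

variable {D : GDat}

theorem pf_eq (e y : ℕ) : pf D.pt e y = D.bid e y * 1048576 + D.loc e y := by
  unfold bid loc
  show _ = (pf D.pt e y >>> 20) * 1048576 + _
  rw [Nat.shiftRight_eq_div_pow]
  omega

theorem lsum_reverse (P : List (ℕ × ℕ)) : D.lsum P.reverse = D.lsum P := by
  unfold lsum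
  rw [List.map_reverse, List.sum_reverse]

theorem g_reverse (b : ℕ) (P : List (ℕ × ℕ)) : D.arr.g b P.reverse = D.arr.g b P := by
  show (!P.reverse.isEmpty && D.tab.testBit (bas D.bt b + D.lsum P.reverse)) =
    (!P.isEmpty && D.tab.testBit (bas D.bt b + D.lsum P))
  rw [lsum_reverse, List.isEmpty_reverse]

theorem flush (hG : D.Good) {b acc : ℕ} {P : List (ℕ × ℕ)} (hP : P = [] → b = 0)
    (hacc : acc = b * 1048576 + D.lsum P) (hs : D.lsum P < 1048576) :
    D.tab.testBit (bas D.bt (acc >>> 20) + acc % 1048576) = D.arr.g b P := by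
  have e1 : acc >>> 20 = b := by
    rw [hacc, Nat.shiftRight_eq_div_pow]
    omega
  have e2 : acc % 1048576 = D.lsum P := by
    rw [hacc]
    omega
  rw [e1, e2]
  show _ = (!P.isEmpty && D.tab.testBit (bas D.bt b + D.lsum P))
  by_cases hP0 : P = []
  · have := hP hP0
    subst hP0
    rw [this]
    exact hG.tab_zero
  · cases P with
    | nil => exact absurd rfl hP0
    | cons x t => rfl

theorem ev_eq (hG : D.Good) : ∀ (fuel : ℕ) (L : List (ℕ × ℕ)) (X Y acc b : ℕ)
    (P : List (ℕ × ℕ)) (s : Bool), L.length ≤ fuel → X < 2 ^ D.m → Y < 2 ^ D.N →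
    dec D.m X = (L.map Prod.fst).reverse → dec D.N Y = (L.map Prod.snd).reverse →
    GArr.Inc (P ++ L).reverse → (∀ p ∈ P ++ L, p.1 < D.m ∧ p.2 < D.N) →
    (∀ p ∈ P, D.bid (D.m - 1 - p.1) (D.N - 1 - p.2) = b) →
    (P = [] → b = 0) → acc = b * 1048576 + D.lsum P →
    evg D.pt D.bt D.tab fuel X Y acc s = D.arr.rvl L b P s := by
  intro fuel
  induction fuel with
  | zero =>
    intro L X Y acc b P s hl hX hY hdX hdY hI hv hb hP hacc
    have hL : L = [] := List.eq_nil_of_length_eq_zero (by omega)
    subst hL
    have hIP : GArr.Inc P.reverse := by simpa using hI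
    have hbs : D.lsum P < 1048576 := by
      rw [← lsum_reverse]
      exact lsum_lt hG hIP (fun x hx => hv x (by simp [List.mem_reverse.mp hx]))
        (fun x hx => hb x (List.mem_reverse.mp hx))
    rw [evg_zero, flush hG hP hacc hbs]
    rfl
  | succ fuel ih =>
    intro L X Y acc b P s hl hX hY hdX hdY hI hv hb hP hacc
    have hIP : GArr.Inc P.reverse := by
      rw [List.reverse_append] at hI
      exact (List.pairwise_append.mp hI).2.1
    have hbs : D.lsum P < 1048576 := by
      rw [← lsum_reverse]
      exact lsum_lt hG hIP (fun x hx => hv x (by simp [List.mem_reverse.mp hx]))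
        (fun x hx => hb x (List.mem_reverse.mp hx))
    have hflush := flush hG hP hacc hbs
    cases L with
    | nil =>
      have hX0 : X = 0 := by
        by_contra h0
        rw [dec_snoc h0 hX] at hdX
        simp at hdX
      rw [hX0, evg_succ_zero, hflush]
      rfl
    | cons p L =>
      have hX0 : X ≠ 0 := by
        rintro rfl
        rw [dec_zero] at hdX
        simp at hdX
      have hY0 : Y ≠ 0 := by
        rintro rfl
        rw [dec_zero] at hdY
        simp at hdY
      rw [evg_succ _ _ _ _ _ _ _ _ hY0, if_neg hX0, hflush]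
      rw [dec_snoc hX0 hX, List.map_cons, List.reverse_cons] at hdX
      rw [dec_snoc hY0 hY, List.map_cons, List.reverse_cons] at hdY
      obtain ⟨hdX1, hdX2⟩ := List.append_inj' hdX rfl
      obtain ⟨hdY1, hdY2⟩ := List.append_inj' hdY rfl
      have hX2 : D.m - 1 - lob X = p.1 := by simpa using hdX2
      have hY2 : D.N - 1 - lob Y = p.2 := by simpa using hdY2
      have hXl : lob X < D.m := lob_lt hX0 hX
      have hYl : lob Y < D.N := lob_lt hY0 hY
      have hXe : lob X = D.m - 1 - p.1 := by omega
      have hYe : lob Y = D.N - 1 - p.2 := by omega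
      have hsum1 : D.lsum [p] = D.loc (lob X) (lob Y) := by
        rw [hXe, hYe]
        show D.loc _ _ + 0 = _
        rfl
      have hlt : D.loc (lob X) (lob Y) < 1048576 := by
        unfold loc
        omega
      have hfe := pf_eq (D := D) (lob X) (lob Y)
      have hshift : pf D.pt (lob X) (lob Y) >>> 20 = D.bid (lob X) (lob Y) := rfl
      have hmod : pf D.pt (lob X) (lob Y) % 1048576 = D.loc (lob X) (lob Y) := rfl
      have hashift : acc >>> 20 = b := by
        rw [hacc, Nat.shiftRight_eq_div_pow]
        omega
      have hbk : D.arr.bk p.1 p.2 = D.bid (lob X) (lob Y) := by rw [hXe, hYe]; rfl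
      rw [hshift, hashift, hmod]
      show _ = D.arr.rvl (p :: L) b P s
      unfold GArr.rvl
      rw [hbk]
      have hX' := land_pred_lt hX
      have hY' := land_pred_lt hY
      have hl' : L.length ≤ fuel := by
        simp only [List.length_cons] at hl
        omega
      by_cases hc : D.bid (lob X) (lob Y) = b
      · rw [if_pos hc, if_pos hc]
        refine ih L _ _ _ b (P ++ [p]) s hl' hX' hY' hdX1 hdY1 ?_ ?_ ?_ ?_ ?_
        · simpa [List.append_assoc] using hI
        · simpa [List.append_assoc] using hv
        · intro x hx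
          rcases List.mem_append.mp hx with h | h
          · exact hb x h
          · rw [List.mem_singleton] at h
            subst h
            rw [← hXe, ← hYe]
            exact hc
        · intro h
          simp at h
        · rw [hacc]
          have : D.lsum (P ++ [p]) = D.lsum P + D.lsum [p] := by
            unfold lsum
            rw [List.map_append, List.sum_append]
          rw [this, hsum1]
          omega
      · rw [if_neg hc, if_neg hc]
        refine ih L _ _ _ _ [p] _ hl' hX' hY' hdX1 hdY1 ?_ ?_ ?_ ?_ ?_
        · rw [List.reverse_append] at hI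
          exact (List.pairwise_append.mp hI).1
        · intro x hx
          exact hv x (by
            rw [List.mem_append]
            exact Or.inr hx)
        · intro x hx
          rw [List.mem_singleton] at hx
          subst hx
          rw [← hXe, ← hYe]
        · intro h
          simp at h
        · rw [hfe, hsum1]

/-- the value of a matching given by masks -/
theorem val_ev (hG : D.Good) {X Y : ℕ} (hX : X < 2 ^ D.m) (hY : Y < 2 ^ D.N)
    (hlen : (dec D.m X).length = (dec D.N Y).length) (s : Bool) :
    evg D.pt D.bt D.tab 32 X Y 0 s = (s ^^ D.arr.val ((dec D.m X).zip (dec D.N Y))) := by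
  set L := (dec D.m X).zip (dec D.N Y) with hL
  have hI : GArr.Inc L := GArr.inc_zip (dec_sorted _ _) (dec_sorted _ _)
  have hv : ∀ p ∈ L, p.1 < D.m ∧ p.2 < D.N := fun p hp =>
    ⟨(mem_dec.mp (GArr.mem_zip_fst hp)).1, (mem_dec.mp (GArr.mem_zip_snd hp)).1⟩
  have hf : L.map Prod.fst = dec D.m X := by
    rw [hL, List.map_fst_zip hlen.le]
  have hs : L.map Prod.snd = dec D.N Y := by
    rw [hL, List.map_snd_zip hlen.ge]
  have hll : L.reverse.length ≤ 32 := by
    have h1 : L.length = (dec D.m X).length := by rw [← hf, List.length_map]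
    have h2 : (dec D.m X).length ≤ D.m := by
      unfold dec
      have := List.length_filter_le (fun i => X.testBit (D.m - 1 - i)) (List.range D.m)
      rwa [List.length_range] at this
    have := hG.m_le
    rw [List.length_reverse]
    omega
  have hmem : ∀ p ∈ L.reverse, D.arr.bk p.1 p.2 ∈ D.arr.bl := by
    intro p hp
    have := hv p (List.mem_reverse.mp hp)
    exact List.mem_range.mpr (hG.cell _ (by omega) _ (by omega)).1
  have hbl : D.arr.bl.Nodup := List.nodup_range
  have h0 : 0 ∈ D.arr.bl := List.mem_range.mpr hG.nb_pos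
  rw [ev_eq hG 32 L.reverse X Y 0 0 [] s hll hX hY
    (by rw [List.map_reverse, List.reverse_reverse, hf])
    (by rw [List.map_reverse, List.reverse_reverse, hs]) (by simpa using hI)
    (by simpa using hv) (by simp) (fun _ => rfl) (by simp [lsum])]
  rw [GArr.val_eq_rvl_rev (wf hG) hbl h0 g_reverse (List.pairwise_reverse.mpr hI) hmem,
    List.reverse_reverse]

end GDat

end Pool.Agent.Simplex
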