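import Pool.Agent.Work.MP_f99e36_co.GChk2
import Pool.Agent.Work.MP_f99e36_co.Chk3

/-!
Kernel-friendly checker, part 3: one window test.

A matching is a mask Z: bit t < 32 is the row m-1-t, bit t >= 32 is the column N-1-(t-32).
-/

set_option autoImplicit false

namespace Pool.Agent.Simplex

namespace GDat

variable (D : GDat)

/-- Z represents the matching M -/
structure Rep (Z : ℕ) (M : List (ℕ × ℕ)) : Prop where
  x_lt : Z % 4294967296 < 2 ^ D.m
  y_lt : Z / 4294967296 < 2 ^ D.N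
  fst : dec D.m (Z % 4294967296) = M.map Prod.fst
  snd : dec D.N (Z / 4294967296) = M.map Prod.snd

/-- evaluation of a mask -/
def evz (pt bt tab Z : ℕ) (s : Bool) : Bool :=
  sq (Nat.land Z 4294967295) fun X => sq (Nat.shiftRight Z 32) fun Y => evg pt bt tab 32 X Y 0 s

/-- the ground set element of a bit -/
def ord (t : ℕ) : ℕ := cond (Nat.blt t 32) t (Nat.sub (Nat.add (Nat.add D.m D.N) 31) t)

/-- order factor -/
def olt (t u : ℕ) (s : Bool) : Bool := cond (Nat.blt (D.ord t) (D.ord u)) (not s) s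

/-- the 2 by 2 test of t, t', u, u' at Z -/
def tst4 (Z t t' u u' : ℕ) : Bool :=
  sq D.pt fun pt => sq D.bt fun bt => sq D.tab fun tab =>
  sq (Nat.xor Z (Nat.pow 2 t)) fun Z1 =>
  sq (Nat.xor Z (Nat.pow 2 t')) fun Z2 =>
  sq (Nat.pow 2 u) fun U => sq (Nat.pow 2 u') fun U' =>
  sq (Nat.xor Z1 U) fun A1 => sq (Nat.xor Z2 U) fun A2 =>
  sq (Nat.xor Z1 U') fun A3 => sq (Nat.xor Z2 U') fun A4 =>
  evz pt bt tab A1 (evz pt bt tab A2 (evz pt bt tab A3 (evz pt bt tab A4
    (D.olt t u (D.olt t' u (D.olt t u' (D.olt t' u' false)))))))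

/-- window test with a hint -/
def tst (Z W h : ℕ) : Bool :=
  sq W fun W =>
  sq (Nat.land W (Nat.xor Z 4294967295)) fun B =>
  sq (Nat.land W (Nat.xor Z 340282366920938463463374607427473244160)) fun C =>
  sq (Nat.land h 127) fun t => sq (Nat.land (Nat.shiftRight h 7) 127) fun t' =>
  sq (Nat.land (Nat.shiftRight h 14) 127) fun u => sq (Nat.land (Nat.shiftRight h 21) 127) fun u' =>
  cond (Simplex.bt B t) (cond (Simplex.bt B t') (cond (Simplex.bt C u) (cond (Simplex.bt C u') (D.tst4 Z t t' u u') false) false)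
    false) false

variable {D}

theorem evz_eq (hG : D.Good) {Z : ℕ} {s : Bool} (hX : Z % 4294967296 < 2 ^ D.m)
    (hY : Z / 4294967296 < 2 ^ D.N)
    (hlen : (dec D.m (Z % 4294967296)).length = (dec D.N (Z / 4294967296)).length) :
    evz D.pt D.bt D.tab Z s =
      (s ^^ D.arr.val ((dec D.m (Z % 4294967296)).zip (dec D.N (Z / 4294967296)))) := by
  unfold evz
  rw [sq_eq, sq_eq]
  have h1 : Nat.land Z 4294967295 = Z % 4294967296 := by
    have : (4294967295 : ℕ) = 2 ^ 32 - 1 := rfl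
    show Z &&& 4294967295 = _
    rw [this, Nat.and_two_pow_sub_one_eq_mod]
  have h2 : Nat.shiftRight Z 32 = Z / 4294967296 := by
    show Z >>> 32 = _
    rw [Nat.shiftRight_eq_div_pow]
  rw [h1, h2]
  exact val_ev hG hX hY hlen s

theorem olt_eq (t u : ℕ) (s : Bool) : D.olt t u s = (s ^^ decide (D.ord t < D.ord u)) := by
  unfold olt
  have : Nat.blt (D.ord t) (D.ord u) = decide (D.ord t < D.ord u) := by
    rw [Bool.eq_iff_iff, decide_eq_true_iff, Nat.blt_eq]
  rw [this]
  cases decide (D.ord t < D.ord u) <;> cases s <;> rfl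

theorem ord_row {t : ℕ} (h : t < 32) : D.ord t = t := by
  unfold ord
  have : Nat.blt t 32 = true := Nat.blt_eq.mpr h
  rw [this]
  rfl

theorem ord_col {t : ℕ} (h : 32 ≤ t) : D.ord t = D.m + D.N + 31 - t := by
  unfold ord
  have : Nat.blt t 32 = false := by
    rcases h' : Nat.blt t 32 with _ | _
    · rfl
    · have := Nat.blt_eq.mp h'
      omega
  rw [this]
  rfl

/-- admissible bits -/
def Adm (D : GDat) (t : ℕ) : Prop := t < D.m ∨ (32 ≤ t ∧ t < 32 + D.N)

theorem mod_testBit {Z j : ℕ} (hj : j < 32) : (Z % 4294967296).testBit j = Z.testBit j := by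
  have : (4294967296 : ℕ) = 2 ^ 32 := rfl
  rw [this, Nat.testBit_mod_two_pow]
  simp [hj]

theorem div_testBit {Z j : ℕ} : (Z / 4294967296).testBit j = Z.testBit (32 + j) := by
  have : (4294967296 : ℕ) = 2 ^ 32 := rfl
  rw [this, Nat.testBit_div_two_pow]
  congr 1
  omega

theorem togR_dec (hG : D.Good) {Z t u : ℕ} (ht : D.Adm t) (hu : D.Adm u) :
    D.arr.togR (dec D.m (Z % 4294967296)) (D.ord t) (D.ord u) =
      dec D.m ((Z ^^^ 2 ^ t ^^^ 2 ^ u) % 4294967296) := by
  apply eq_of_sorted_of_mem (GArr.togR_sorted _ _ _) (dec_sorted _ _)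
  intro i
  rw [GArr.mem_togR, mem_dec (X := (Z ^^^ 2 ^ t ^^^ 2 ^ u) % 4294967296)]
  show (i < D.m ∧ (decide (i ∈ dec D.m (Z % 4294967296)) ^^
    (decide (D.m - 1 - i = D.ord t) ^^ decide (D.m - 1 - i = D.ord u))) = true) ↔ _
  apply and_congr_right
  intro hi
  have hm := hG.m_le
  rw [mod_testBit (by omega), Nat.testBit_xor, Nat.testBit_xor, Nat.testBit_two_pow,
    Nat.testBit_two_pow]
  have h1 : decide (i ∈ dec D.m (Z % 4294967296)) = Z.testBit (D.m - 1 - i) := by
    rw [Bool.eq_iff_iff, decide_eq_true_iff, mem_dec, mod_testBit (by omega)]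
    exact and_iff_right hi
  have h2 : ∀ v, D.Adm v → decide (D.m - 1 - i = D.ord v) = decide (v = D.m - 1 - i) := by
    intro v hv
    rw [decide_eq_decide]
    rcases hv with hv | hv
    · rw [ord_row (by omega)]
      exact eq_comm
    · rw [ord_col hv.1]
      omega
  rw [h1, h2 t ht, h2 u hu, Bool.xor_assoc]

theorem togC_dec (hG : D.Good) {Z t u : ℕ} (ht : D.Adm t) (hu : D.Adm u) :
    D.arr.togC (dec D.N (Z / 4294967296)) (D.ord t) (D.ord u) =
      dec D.N ((Z ^^^ 2 ^ t ^^^ 2 ^ u) / 4294967296) := by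
  apply eq_of_sorted_of_mem (GArr.togC_sorted _ _ _) (dec_sorted _ _)
  intro i
  rw [GArr.mem_togC, mem_dec (X := (Z ^^^ 2 ^ t ^^^ 2 ^ u) / 4294967296)]
  show (i < D.N ∧ (decide (i ∈ dec D.N (Z / 4294967296)) ^^
    (decide (D.m + i = D.ord t) ^^ decide (D.m + i = D.ord u))) = true) ↔ _
  apply and_congr_right
  intro hi
  have hm := hG.m_le
  have hN := hG.N_le
  rw [div_testBit, Nat.testBit_xor, Nat.testBit_xor, Nat.testBit_two_pow,
    Nat.testBit_two_pow]
  have h1 : decide (i ∈ dec D.N (Z / 4294967296)) = Z.testBit (32 + (D.N - 1 - i)) := by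
    rw [Bool.eq_iff_iff, decide_eq_true_iff, mem_dec, div_testBit]
    exact and_iff_right hi
  have h2 : ∀ v, D.Adm v → decide (D.m + i = D.ord v) = decide (v = 32 + (D.N - 1 - i)) := by
    intro v hv
    rw [decide_eq_decide]
    rcases hv with hv | hv
    · rw [ord_row (by omega)]
      omega
    · rw [ord_col hv.1]
      omega
  rw [h1, h2 t ht, h2 u hu, Bool.xor_assoc]

theorem adm_xor_lt (hG : D.Good) {Z t : ℕ} (hX : Z % 4294967296 < 2 ^ D.m)
    (hY : Z / 4294967296 < 2 ^ D.N) (ht : D.Adm t) :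
    (Z ^^^ 2 ^ t) % 4294967296 < 2 ^ D.m ∧ (Z ^^^ 2 ^ t) / 4294967296 < 2 ^ D.N := by
  have hm := hG.m_le
  have hN := hG.N_le
  constructor
  · apply Nat.lt_pow_two_of_testBit
    intro j hj
    by_cases hj32 : j < 32
    · rw [mod_testBit hj32, Nat.testBit_xor, Nat.testBit_two_pow]
      have h1 : Z.testBit j = false := by
        rw [← mod_testBit hj32]
        exact Nat.testBit_lt_two_pow (lt_of_lt_of_le hX (Nat.pow_le_pow_right (by norm_num) hj))
      have h2 : ¬ (t = j) := by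
        rcases ht with ht | ht <;> omega
      rw [h1]
      simp [h2]
    · apply Nat.testBit_lt_two_pow
      calc (Z ^^^ 2 ^ t) % 4294967296 < 2 ^ 32 := Nat.mod_lt _ (by norm_num)
        _ ≤ 2 ^ j := Nat.pow_le_pow_right (by norm_num) (by omega)
  · apply Nat.lt_pow_two_of_testBit
    intro j hj
    rw [div_testBit, Nat.testBit_xor, Nat.testBit_two_pow]
    have h1 : Z.testBit (32 + j) = false := by
      rw [← div_testBit]
      exact Nat.testBit_lt_two_pow (lt_of_lt_of_le hY (Nat.pow_le_pow_right (by norm_num) hj))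
    have h2 : ¬ (t = 32 + j) := by
      rcases ht with ht | ht <;> omega
    rw [h1]
    simp [h2]

theorem T_eq (hG : D.Good) {Z t u : ℕ} {M : List (ℕ × ℕ)} (hr : D.Rep Z M) (hM : D.arr.Valid M)
    (ht : D.Adm t) (hu : D.Adm u) (hb : D.arr.Bas M (D.ord t)) (hn : D.arr.Non M (D.ord u))
    (s : Bool) :
    evz D.pt D.bt D.tab (Z ^^^ 2 ^ t ^^^ 2 ^ u) s =
      (s ^^ (D.arr.T M (D.ord t) (D.ord u) ^^ decide (D.ord t < D.ord u))) := by
  have h1 := adm_xor_lt hG hr.x_lt hr.y_lt ht
  have h2 := adm_xor_lt hG h1.1 h1.2 hu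
  have hl := GArr.tog_length hM hb hn
  rw [← hr.fst, ← hr.snd, togR_dec hG ht hu, togC_dec hG ht hu] at hl
  rw [evz_eq hG h2.1 h2.2 hl]
  unfold GArr.T
  rw [← hr.fst, ← hr.snd, togR_dec hG ht hu, togC_dec hG ht hu]
  rw [Bool.xor_assoc]
  simp

theorem testBit_low {j : ℕ} : (4294967295 : ℕ).testBit j = decide (j < 32) := by
  have : (4294967295 : ℕ) = 2 ^ 32 - 1 := rfl
  rw [this, Nat.testBit_two_pow_sub_one]

theorem testBit_high {j : ℕ} : (340282366920938463463374607427473244160 : ℕ).testBit j =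
    (decide (32 ≤ j) && decide (j - 32 < 96)) := by
  have : (340282366920938463463374607427473244160 : ℕ) = (2 ^ 96 - 1) <<< 32 := rfl
  rw [this, Nat.testBit_shiftLeft, Nat.testBit_two_pow_sub_one]

theorem bas_of (hG : D.Good) {Z t : ℕ} {M : List (ℕ × ℕ)} (hr : D.Rep Z M) (ht : D.Adm t)
    (h : (Z ^^^ 4294967295).testBit t = true) : D.arr.Bas M (D.ord t) := by
  have hm := hG.m_le
  rw [Nat.testBit_xor, testBit_low] at h
  rcases ht with ht | ht
  · left
    rw [ord_row (by omega)]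
    refine ⟨ht, ?_⟩
    rw [← hr.fst, mem_dec]
    rintro ⟨-, h2⟩
    have h3 : D.m - 1 - (D.arr.m - 1 - t) = t := by
      show D.m - 1 - (D.m - 1 - t) = t
      omega
    rw [h3, mod_testBit (by omega)] at h2
    have : t < 32 := by omega
    simp [this, h2] at h
  · right
    rw [ord_col ht.1]
    refine ⟨?_, ?_, ?_⟩
    · show D.m ≤ _
      omega
    · show _ < D.m + D.N
      omega
    · rw [← hr.snd, mem_dec]
      show D.m + D.N + 31 - t - D.m < D.N ∧ _
      refine ⟨by omega, ?_⟩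
      rw [div_testBit]
      show Z.testBit (32 + (D.N - 1 - (D.m + D.N + 31 - t - D.m))) = true
      have h3 : 32 + (D.N - 1 - (D.m + D.N + 31 - t - D.m)) = t := by omega
      rw [h3]
      have : ¬ t < 32 := by omega
      simpa [this] using h

theorem non_of (hG : D.Good) {Z t : ℕ} {M : List (ℕ × ℕ)} (hr : D.Rep Z M) (ht : D.Adm t)
    (h : (Z ^^^ 340282366920938463463374607427473244160).testBit t = true) : D.arr.Non M (D.ord t) := by
  have hm := hG.m_le
  have hN := hG.N_le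
  rw [Nat.testBit_xor, testBit_high] at h
  rcases ht with ht | ht
  · left
    rw [ord_row (by omega)]
    refine ⟨ht, ?_⟩
    rw [← hr.fst, mem_dec]
    show D.m - 1 - t < D.m ∧ _
    refine ⟨by omega, ?_⟩
    have h3 : D.m - 1 - (D.arr.m - 1 - t) = t := by
      show D.m - 1 - (D.m - 1 - t) = t
      omega
    rw [h3, mod_testBit (by omega)]
    have : ¬ 32 ≤ t := by omega
    simpa [this] using h
  · right
    rw [ord_col ht.1]
    refine ⟨?_, ?_, ?_⟩
    · show D.m ≤ _
      omega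
    · show _ < D.m + D.N
      omega
    · rw [← hr.snd, mem_dec]
      rintro ⟨-, h2⟩
      rw [div_testBit] at h2
      have h3 : 32 + (D.N - 1 - (D.m + D.N + 31 - t - D.arr.m)) = t := by
        show 32 + (D.N - 1 - (D.m + D.N + 31 - t - D.m)) = t
        omega
      rw [h3] at h2
      have h4 : 32 ≤ t := ht.1
      have h5 : t - 32 < 96 := by omega
      rw [h2] at h
      simp [h4, h5] at h

/-- the meaning of a window mask -/
def WinM (D : GDat) (W rlo rhi clo chi : ℕ) : Prop :=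
  ∀ t, W.testBit t = true → ((t < D.m ∧ rlo ≤ D.m - 1 - t ∧ D.m - 1 - t ≤ rhi) ∨
    (32 ≤ t ∧ t < 32 + D.N ∧ clo ≤ D.N + 31 - t ∧ D.N + 31 - t ≤ chi)) ∧ D.al.testBit t = true

theorem WinM.adm {W rlo rhi clo chi t : ℕ} (h : WinM D W rlo rhi clo chi)
    (ht : W.testBit t = true) : D.Adm t := by
  rcases (h t ht).1 with h | h
  · exact Or.inl h.1
  · exact Or.inr ⟨h.1, h.2.1⟩

theorem pos_ord {t : ℕ} (hm : D.m ≤ 32) (h : D.Adm t) : D.pos (D.ord t) = t := by
  unfold pos
  rcases h with h | h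
  · rw [ord_row (by omega), if_pos h]
  · rw [ord_col h.1, if_neg (by omega)]
    omega

theorem WinM.al (hG : D.Good) {W rlo rhi clo chi t : ℕ} (h : WinM D W rlo rhi clo chi)
    (ht : W.testBit t = true) : D.arr.al (D.ord t) = true := by
  show D.al.testBit (D.pos (D.ord t)) = true
  rw [pos_ord hG.m_le (h.adm ht)]
  exact (h t ht).2

theorem WinM.win (hG : D.Good) {W rlo rhi clo chi t : ℕ} (h : WinM D W rlo rhi clo chi)
    (ht : W.testBit t = true) : D.arr.Win rlo rhi clo chi (D.ord t) := by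
  have hm := hG.m_le
  rcases (h t ht).1 with h | h
  · rw [ord_row (by omega)]
    refine ⟨fun _ => h.2, fun h' => ?_⟩
    have : D.m ≤ t := h'
    omega
  · rw [ord_col h.1]
    refine ⟨fun h' => ?_, fun _ => ?_⟩
    · have : D.m + D.N + 31 - t < D.m := h'
      omega
    · show clo ≤ D.m + D.N + 31 - t - D.m ∧ D.m + D.N + 31 - t - D.m ≤ chi
      omega

theorem tst_sound (hG : D.Good) {Z W h : ℕ} {M : List (ℕ × ℕ)} (hr : D.Rep Z M)
    (hM : D.arr.Valid M) {rlo rhi clo chi : ℕ} (hW : WinM D W rlo rhi clo chi)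
    (ht : D.tst Z W h = true) : D.arr.WT M rlo rhi clo chi := by
  unfold tst at ht
  simp only [sq_eq, bt_eq] at ht
  generalize h63 : Nat.land h 127 = t at ht
  generalize Nat.land (Nat.shiftRight h 7) 127 = t' at ht
  generalize Nat.land (Nat.shiftRight h 14) 127 = u at ht
  generalize Nat.land (Nat.shiftRight h 21) 127 = u' at ht
  clear h63
  have e1 : Nat.land W (Nat.xor Z 4294967295) = W &&& (Z ^^^ 4294967295) := rfl
  have e2 : Nat.land W (Nat.xor Z 340282366920938463463374607427473244160) = W &&& (Z ^^^ 340282366920938463463374607427473244160) := rfl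
  rw [e1, e2] at ht
  simp only [Nat.testBit_and] at ht
  rcases c1 : (W.testBit t && (Z ^^^ 4294967295).testBit t) with _ | _
  · rw [c1] at ht; exact absurd ht (by simp)
  rcases c2 : (W.testBit t' && (Z ^^^ 4294967295).testBit t') with _ | _
  · rw [c1, c2] at ht; exact absurd ht (by simp)
  rcases c3 : (W.testBit u && (Z ^^^ 340282366920938463463374607427473244160).testBit u) with _ | _
  · rw [c1, c2, c3] at ht; exact absurd ht (by simp)
  rcases c4 : (W.testBit u' && (Z ^^^ 340282366920938463463374607427473244160).testBit u') with _ | _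
  · rw [c1, c2, c3, c4] at ht; exact absurd ht (by simp)
  rw [c1, c2, c3, c4] at ht
  simp only [cond_true] at ht
  rw [Bool.and_eq_true] at c1 c2 c3 c4
  have b1 := bas_of hG hr (hW.adm c1.1) c1.2
  have b2 := bas_of hG hr (hW.adm c2.1) c2.2
  have n1 := non_of hG hr (hW.adm c3.1) c3.2
  have n2 := non_of hG hr (hW.adm c4.1) c4.2
  refine ⟨D.ord t, D.ord t', D.ord u, D.ord u', hW.win hG c1.1, hW.win hG c2.1, hW.win hG c3.1,
    hW.win hG c4.1, b1, b2, n1, n2, hW.al hG c3.1, hW.al hG c4.1, ?_⟩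
  unfold tst4 at ht
  simp only [sq_eq] at ht
  have f1 : ∀ a b, Nat.xor (Nat.xor Z (Nat.pow 2 a)) (Nat.pow 2 b) = Z ^^^ 2 ^ a ^^^ 2 ^ b :=
    fun _ _ => rfl
  rw [f1, f1, f1, f1] at ht
  rw [T_eq hG hr hM (hW.adm c1.1) (hW.adm c3.1) b1 n1,
    T_eq hG hr hM (hW.adm c2.1) (hW.adm c3.1) b2 n1,
    T_eq hG hr hM (hW.adm c1.1) (hW.adm c4.1) b1 n2,
    T_eq hG hr hM (hW.adm c2.1) (hW.adm c4.1) b2 n2] at ht
  simp only [olt_eq] at ht
  revert ht
  generalize D.arr.T M (D.ord t) (D.ord u) = T1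
  generalize D.arr.T M (D.ord t') (D.ord u) = T2
  generalize D.arr.T M (D.ord t) (D.ord u') = T3
  generalize D.arr.T M (D.ord t') (D.ord u') = T4
  generalize decide (D.ord t < D.ord u) = o1
  generalize decide (D.ord t' < D.ord u) = o2
  generalize decide (D.ord t < D.ord u') = o3
  generalize decide (D.ord t' < D.ord u') = o4
  intro ht
  cases T1 <;> cases T2 <;> cases T3 <;> cases T4 <;> cases o1 <;> cases o2 <;> cases o3 <;>
    cases o4 <;> simp at ht ⊢

end GDat

end Pool.Agent.Simplex
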