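import Pool.Agent.Work.MP_f99e36_co.GChk4
import Pool.Agent.Work.MP_f99e36_co.Chk5

/-!
Kernel-friendly checker, part 5: blocked bases from window tests; masks of classes.
-/

set_option autoImplicit false

namespace Pool.Agent.Simplex

namespace GDat

variable {D : GDat}

/-- a successful window test blocks every basis containing M in the given context -/
theorem full_of_win (hG : D.Good) {X M Z F L : List (ℕ × ℕ)} (hc : D.arr.Ctx X M Z)
    {ZF ZL ZM h : ℕ} (hrF : D.Rep ZF F) (hrL : D.Rep ZL L) (hF : ∃ R, M = F ++ R)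
    (hL : ∃ R, M = R ++ L) (hX : F = [] → X = []) (hZ : L = [] → Z = []) (hzF : F = [] → ZF = 0)
    (hrM : D.Rep ZM M) (ht : D.tst ZM (Nat.land (D.hm ZF) (lm ZL)) h = true) :
    D.arr.Full (X ++ M ++ Z) := by
  have hvM : D.arr.Valid M := hc.1.append.1.append.2.1
  obtain ⟨R1, hR1⟩ := hF
  obtain ⟨R2, hR2⟩ := hL
  have hvF : D.arr.Valid F := by
    rw [hR1] at hvM
    exact hvM.append.1
  have hvL : D.arr.Valid L := by
    rw [hR2] at hvM
    exact hvM.append.2.1
  have hW := winM_lmk hG (el := lob (Nat.land ZL 4294967295)) (yl := lob (Nat.shiftRight ZL 32))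
    hrF hvF hzF
  have hWT := tst_sound hG hrM hvM hW ht
  by_cases hM : M = []
  · have hF0 : F = [] := by
      rw [hM] at hR1
      exact (List.append_eq_nil_iff.mp hR1.symm).1
    have hL0 : L = [] := by
      rw [hM] at hR2
      exact (List.append_eq_nil_iff.mp hR2.symm).2
    rw [hX hF0, hZ hL0]
    simpa using hWT.full
  · refine GArr.WT.ctx (wf hG) hc hM ?_ ?_ hWT
    · intro hX'
      have hF0 : F ≠ [] := fun h => hX' (hX h)
      rw [if_neg hF0, if_neg hF0]
      obtain ⟨-, -, p, hp, hp', -, -, -, -, h1, h2⟩ := hrF.hi hvF hF0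
      refine ⟨p, by rw [hR1]; simp [hp], ?_, by rw [h1], by rw [h2]⟩
      intro q hq
      rw [hR1] at hq hvM
      rcases List.mem_append.mp hq with h | h
      · exact hp' q h
      · have := hvM.append.2.2 p hp q h
        exact ⟨this.1.le, this.2.le⟩
    · intro hZ'
      have hL0 : L ≠ [] := fun h => hZ' (hZ h)
      obtain ⟨p, hp, hp', hp1, hp2, h1, h2, -⟩ := hrL.lo hvL hL0
      rw [land_low, shift_high, h1, h2]
      refine ⟨p, by rw [hR2]; simp [hp], ?_, by omega, by omega⟩
      intro q hq
      rw [hR2] at hq hvM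
      rcases List.mem_append.mp hq with h | h
      · have := hvM.append.2.2 q h p hp
        exact ⟨this.1.le, this.2.le⟩
      · exact hp' q h

/-- exclusive windows -/
theorem full_of_excl (hG : D.Good) {X M Z : List (ℕ × ℕ)} (hc : D.arr.Ctx X M Z)
    {ZM h el yl : ℕ} (hrM : D.Rep ZM M) (hX : M = [] → X = []) (hz : M = [] → ZM = 0)
    (he : el < D.m) (hy : yl < D.N)
    (hlo : M ≠ [] → el ≤ lob (ZM % 4294967296) ∧ yl ≤ lob (ZM / 4294967296))
    {g : ℕ × ℕ} (hg : ∀ q ∈ Z, g.1 ≤ q.1 ∧ g.2 ≤ q.2) (hgm : g.1 < D.m) (hgN : g.2 < D.N)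
    (hge : D.m - 1 - g.1 < el) (hgy : D.N - 1 - g.2 < yl)
    (hb : D.bid (D.m - 1 - g.1) (D.N - 1 - g.2) ≠ D.bid el yl)
    (ht : D.tst ZM (Nat.land (D.hm ZM) (lmk el yl)) h = true) :
    D.arr.Full (X ++ M ++ Z) := by
  have hvM : D.arr.Valid M := hc.1.append.1.append.2.1
  have hW := winM_lmk hG (el := el) (yl := yl) hrM hvM hz
  have hWT := tst_sound hG hrM hvM hW ht
  have hup : ∀ p ∈ Z, D.m - 1 - el < p.1 ∧ D.N - 1 - yl < p.2 ∧
      D.arr.blk (D.m - 1 - el, D.N - 1 - yl) ≠ D.arr.blk p := by
    intro p hp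
    have h1 := hg p hp
    refine ⟨by omega, by omega, ?_⟩
    intro hbe
    have h2 := (GArr.blk_lt (wf hG) (p := (D.m - 1 - el, D.N - 1 - yl)) (q := g) (r := p)
      (by show D.m - 1 - el ≤ g.1; omega) (by show D.N - 1 - yl ≤ g.2; omega) h1.1 h1.2 hbe).1
    have h3 : D.bid (D.m - 1 - (D.m - 1 - el)) (D.N - 1 - (D.N - 1 - yl)) =
      D.bid (D.m - 1 - g.1) (D.N - 1 - g.2) := h2
    have e1 : D.m - 1 - (D.m - 1 - el) = el := by omega
    have e2 : D.N - 1 - (D.N - 1 - yl) = yl := by omega
    rw [e1, e2] at h3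
    exact hb h3.symm
  by_cases hM : M = []
  · rw [if_pos hM, if_pos hM] at hWT
    have hX0 := hX hM
    refine (GArr.WT.window (wf hG) hc.1 (lo := (0, 0)) (up := (D.m - 1 - el, D.N - 1 - yl)) ?_ hup
      ?_ ⟨Nat.zero_le _, Nat.zero_le _⟩ (Nat.zero_le _) (le_refl _) (Nat.zero_le _) (le_refl _)
      hWT).full
    · rw [hX0]
      simp
    · rw [hM]
      simp
  · rw [if_neg hM, if_neg hM] at hWT
    obtain ⟨-, -, p, hp, hp', hpm, hpN, -, -, h1, h2⟩ := hrM.hi hvM hM
    obtain ⟨r, hr, hr', hrm, hrN, h3, h4, -⟩ := hrM.lo hvM hM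
    rw [h1, h2] at hWT
    obtain ⟨l1, l2⟩ := hlo hM
    have hpr := hp' r hr
    have hle : ∀ q ∈ M, q.1 ≤ D.m - 1 - el ∧ q.2 ≤ D.N - 1 - yl := by
      intro q hq
      have := hr' q hq
      omega
    refine (GArr.WT.window (wf hG) hc.1 (lo := p) (up := (D.m - 1 - el, D.N - 1 - yl)) ?_ hup
      ?_ ⟨(hle p hp).1, (hle p hp).2⟩ (le_refl _) (le_refl _) (le_refl _) (le_refl _)
      hWT).full
    · intro x hx
      have a := hc.1.append.1.append.2.2 x hx p hp
      exact ⟨a.1, a.2, hc.2.1 x hx p hp⟩
    · intro q hq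
      exact ⟨⟨(hp' q hq).1, (hle q hq).1⟩, (hp' q hq).2, (hle q hq).2⟩

/-! ### masks of classes -/

/-- repeated ones at distance 128 -/
def grep : ℕ → ℕ
  | 0 => 0
  | k + 1 => 2 ^ 128 * grep k + 1

theorem grep_mul_testBit {y : ℕ} (hy : y ≤ 128) : ∀ (k e j : ℕ), j < 128 →
    (grep k * (2 ^ y - 1)).testBit (128 * e + j) = (decide (e < k) && decide (j < y)) := by
  intro k
  induction k with
  | zero =>
    intro e j hj
    show (0 * (2 ^ y - 1)).testBit _ = _
    simp
  | succ k ih =>
    intro e j hj
    have h1 : grep (k + 1) * (2 ^ y - 1) = 2 ^ 128 * (grep k * (2 ^ y - 1)) + (2 ^ y - 1) := by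
      show (2 ^ 128 * grep k + 1) * (2 ^ y - 1) = _
      ring
    have h2 : 2 ^ y - 1 < 2 ^ 128 := by
      have : 2 ^ y ≤ 2 ^ 128 := Nat.pow_le_pow_right (by norm_num) hy
      have : 0 < 2 ^ y := Nat.two_pow_pos y
      omega
    rw [h1, Nat.testBit_two_pow_mul_add _ h2]
    cases e with
    | zero =>
      rw [if_pos (by omega), Nat.testBit_two_pow_sub_one]
      simp
    | succ e =>
      rw [if_neg (by omega)]
      have : 128 * (e + 1) + j - 128 = 128 * e + j := by omega
      have h4 : decide (e < k) = decide (e + 1 < k + 1) := by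
        rw [decide_eq_decide]
        omega
      rw [this, ih e j hj, h4]

/-- 32 repeated ones at distance 128 -/
def repg : ℕ := 0x100000000000000000000000000000001000000000000000000000000000000010000000000000000000000000000000100000000000000000000000000000001000000000000000000000000000000010000000000000000000000000000000100000000000000000000000000000001000000000000000000000000000000010000000000000000000000000000000100000000000000000000000000000001000000000000000000000000000000010000000000000000000000000000000100000000000000000000000000000001000000000000000000000000000000010000000000000000000000000000000100000000000000000000000000000001000000000000000000000000000000010000000000000000000000000000000100000000000000000000000000000001000000000000000000000000000000010000000000000000000000000000000100000000000000000000000000000001000000000000000000000000000000010000000000000000000000000000000100000000000000000000000000000001000000000000000000000000000000010000000000000000000000000000000100000000000000000000000000000001000000000000000000000000000000010000000000000000000000000000000100000000000000000000000000000001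

theorem repg_eq : repg = grep 32 := by decide +kernel

variable (D)

/-- lowest row bit of the block of the position -/
def be (e y : ℕ) : ℕ := D.r0 (D.bid e y)

/-- lowest column bit of the block of the position -/
def bey (e y : ℕ) : ℕ := D.c0 (D.bid e y)

/-- the classes after the position (el, yl) in another block -/
def cov (el yl : ℕ) : ℕ :=
  sq (D.bid el yl) fun b =>
  Nat.lor (Nat.land (Nat.sub (Nat.pow 2 (Nat.mul 128 (D.r0 b))) 1)
      (Nat.mul repg (Nat.sub (Nat.pow 2 yl) 1)))
    (Nat.land (Nat.sub (Nat.pow 2 (Nat.mul 128 el)) 1)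
      (Nat.mul repg (Nat.sub (Nat.pow 2 (D.c0 b)) 1)))

variable {D}

theorem key_iff {a y er yc : ℕ} (hy : y ≤ 128) (her : er < 32) (hyc : yc < 128) :
    (Nat.land (Nat.sub (Nat.pow 2 (Nat.mul 128 a)) 1)
      (Nat.mul repg (Nat.sub (Nat.pow 2 y) 1))).testBit (128 * er + yc) = true ↔
      (er < a ∧ yc < y) := by
  show ((2 ^ (128 * a) - 1) &&& (repg * (2 ^ y - 1))).testBit (128 * er + yc) = true ↔ _
  rw [repg_eq, Nat.testBit_and, grep_mul_testBit hy _ _ _ hyc,
    Nat.testBit_two_pow_sub_one, Bool.and_eq_true, Bool.and_eq_true, decide_eq_true_iff,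
    decide_eq_true_iff, decide_eq_true_iff]
  omega

theorem cov_iff (hG : D.Good) {el yl er yc : ℕ} (hel : el < D.m) (hyl : yl < D.N) (her : er < D.m)
    (hyc : yc < D.N) : (D.cov el yl).testBit (128 * er + yc) = true ↔
      (er < el ∧ yc < yl ∧ D.bid er yc ≠ D.bid el yl) := by
  have hm' := hG.m_le
  have hN' := hG.N_le
  have hc := hG.cell el hel yl hyl
  have h1 := key_iff (a := D.r0 (D.bid el yl)) (y := yl) (er := er) (yc := yc) (by omega)
    (by omega) (by omega)
  have h2 := key_iff (a := el) (y := D.c0 (D.bid el yl)) (er := er) (yc := yc) (by omega)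
    (by omega) (by omega)
  have h3 : (D.cov el yl).testBit (128 * er + yc) = true ↔
      ((er < D.r0 (D.bid el yl) ∧ yc < yl) ∨ (er < el ∧ yc < D.c0 (D.bid el yl))) := by
    unfold cov
    rw [sq_eq]
    show (_ ||| _ : ℕ).testBit _ = true ↔ _
    rw [Nat.testBit_or, Bool.or_eq_true]
    exact or_congr h1 h2
  rw [h3]
  constructor
  · rintro (⟨a1, a2⟩ | ⟨a1, a2⟩)
    · refine ⟨by omega, a2, fun h => ?_⟩
      have := hG.cell er her yc hyc
      rw [h] at this
      omega
    · refine ⟨a1, by omega, fun h => ?_⟩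
      have := hG.cell er her yc hyc
      rw [h] at this
      omega
  · rintro ⟨a1, a2, a3⟩
    by_contra hcon
    exact a3 (hG.rect _ hc.1 er her yc hyc (by omega) (by omega) (by omega) (by omega))

end GDat

end Pool.Agent.Simplex
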