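import Pool.Agent.Work.MP_f99e36_co.GChk5
import Pool.Agent.Work.MP_f99e36_co.Chk6

/-!
Kernel-friendly checker for general block arrays, part 6: the table of groups.
-/

set_option autoImplicit false

namespace Pool.Agent.Simplex

/-- loop over the set bits of X; the bits are read from the stream (16 bits each) -/
def blg (body : ℕ → Chk) (fuel : ℕ) : ℕ → Chk :=
  Nat.rec (motive := fun _ => ℕ → Chk) (fun _ _ _ => false)
    (fun _ ih X s k => cond (Nat.beq X 0) (k s)
      (sq (Nat.land s 65535) fun c => sq (Nat.shiftRight s 16) fun s1 => body c s1 (fun s' =>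
        sq (Nat.xor X (Nat.pow 2 c)) fun X' => ih X' s' k))) fuel

theorem Snd.blg {body : ℕ → Chk} {Q : ℕ → Prop} (hb : ∀ i, Snd (body i) (Q i)) :
    ∀ n X, Snd (blg body n X) (∀ j, X.testBit j = true → Q j) := by
  intro n
  induction n with
  | zero =>
    intro X s k hk
    exact absurd hk (by simp [Simplex.blg])
  | succ n ih =>
    intro X s k hk
    by_cases hX : X = 0
    · subst hX
      exact ⟨fun j h => absurd h (by simp), s, hk⟩
    · have hk' : cond (Nat.beq X 0) (k s) (sq (Nat.land s 65535) fun c =>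
        sq (Nat.shiftRight s 16) fun s1 => body c s1 (fun s' =>
        sq (Nat.xor X (Nat.pow 2 c)) fun X' => Simplex.blg body n X' s' k)) = true := hk
      rw [beq_false' hX, cond_false, sq_eq, sq_eq] at hk'
      obtain ⟨h1, s', h2⟩ := hb _ _ _ hk'
      rw [sq_eq] at h2
      obtain ⟨h3, h4⟩ := ih _ s' k h2
      refine ⟨fun j hj => ?_, h4⟩
      by_cases hjl : j = Nat.land s 65535
      · rw [hjl]
        exact h1
      · apply h3
        show (X ^^^ 2 ^ (Nat.land s 65535)).testBit j = true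
        rw [Nat.testBit_xor, Nat.testBit_two_pow, hj]
        have : ¬ (Nat.land s 65535 = j) := fun h => hjl h.symm
        rw [decide_eq_false this]
        rfl

/-- field of width 128 -/
def fld128 (t i : ℕ) : ℕ :=
  Nat.land (Nat.shiftRight t (Nat.mul 128 i)) 340282366920938463463374607431768211455

/-- tables: masks gz, windows gh and gl of the groups, classes ct, nonempty classes ne, unverified
classes nv, predecessors ps and pl, number nn of groups, pairs dd without known prefixes, prefixes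
lo and lq of the other pairs, exceptional bases ex, number en of exceptional bases -/
structure GTb where
  gz : ℕ
  gh : ℕ
  gl : ℕ
  ct : ℕ
  ne : ℕ
  nv : ℕ
  ps : ℕ
  pl : ℕ
  nn : ℕ
  dd : ℕ
  lo : ℕ
  lq : ℕ
  ex : ℕ
  en : ℕ

namespace GDat

variable {D : GDat}

theorem exists_rep (hG : D.Good) {M : List (ℕ × ℕ)} (hM : D.arr.Valid M) : ∃ Z, D.Rep Z M := by
  have hf : ∀ i ∈ M.map Prod.fst, i < D.m := by
    intro i hi
    obtain ⟨p, hp, rfl⟩ := List.mem_map.mp hi
    exact (hM.2 p hp).1
  have hs : ∀ i ∈ M.map Prod.snd, i < D.N := by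
    intro i hi
    obtain ⟨p, hp, rfl⟩ := List.mem_map.mp hi
    exact (hM.2 p hp).2
  have h1 := encl_lt hf
  have h2 := encl_lt hs
  have h3 : encl D.m (M.map Prod.fst) < 4294967296 := by
    have : (4294967296 : ℕ) = 2 ^ 32 := rfl
    rw [this]
    exact lt_of_lt_of_le h1 (Nat.pow_le_pow_right (by norm_num) hG.m_le)
  have e1 : (encl D.m (M.map Prod.fst) + 4294967296 * encl D.N (M.map Prod.snd)) % 4294967296 =
      encl D.m (M.map Prod.fst) := by omega
  have e2 : (encl D.m (M.map Prod.fst) + 4294967296 * encl D.N (M.map Prod.snd)) / 4294967296 =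
      encl D.N (M.map Prod.snd) := by omega
  refine ⟨encl D.m (M.map Prod.fst) + 4294967296 * encl D.N (M.map Prod.snd), ?_, ?_, ?_, ?_⟩
  · rw [e1]; exact h1
  · rw [e2]; exact h2
  · rw [e1]; exact dec_encl hM.1.fst hf
  · rw [e2]; exact dec_encl hM.1.snd hs

/-- the exceptional bases -/
def Exc (D : GDat) (T : GTb) (L : List (ℕ × ℕ)) : Prop :=
  ∃ i, i < T.en ∧ D.Rep (fld128 T.ex i) L

/-- the claim: the basis L is blocked or exceptional, if it uses the column cc -/
def Tgt (D : GDat) (T : GTb) (L : List (ℕ × ℕ)) : Prop :=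
  (D.cc < D.N → ∃ p ∈ L, D.N - 1 - p.2 = D.cc) → D.arr.Full L ∨ D.Exc T L

theorem Tgt.of_full {T : GTb} {L : List (ℕ × ℕ)} (h : D.arr.Full L) : D.Tgt T L :=
  fun _ => Or.inl h

/-- the claim holds for every basis containing the group G -/
def CB (D : GDat) (T : GTb) (G : List (ℕ × ℕ)) : Prop :=
  ∀ X Z, D.arr.Ctx X G Z → D.Tgt T (X ++ G ++ Z)

/-- G uses only columns that a basis may use -/
def Free (D : GDat) (G : List (ℕ × ℕ)) : Prop :=
  ∀ p ∈ G, D.ng.testBit (D.N - 1 - p.2) = false

/-- first id of a class -/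
def cs (T : GTb) (c : ℕ) : ℕ := Nat.land (fld T.ct c) 65535
/-- size of a class -/
def cn (T : GTb) (c : ℕ) : ℕ := Nat.shiftRight (fld T.ct c) 16

/-- G is in the table -/
def InT (D : GDat) (T : GTb) (c : ℕ) (G : List (ℕ × ℕ)) : Prop :=
  ∃ id, cs T c ≤ id ∧ id < cs T c + cn T c ∧ D.Rep (fld128 T.gz id) G

/-- the check of one group, given by its mask -/
def cz (D : GDat) (T : GTb) (c Z : ℕ) : Chk :=
  rd 1 1 (fun md => cond (Nat.beq md 0)
    (rd 28 268435455 (fun h => ckb (D.tst Z (Nat.land (D.hm Z) (lm Z)) h)))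
    (rd 16 65535 (fun id => ckb (cond (Nat.beq (fld128 T.gz id) Z)
      (cond (Nat.ble (cs T c) id) (Nat.blt id (Nat.add (cs T c) (cn T c))) false) false))))

/-- the column cc lies between two columns of Y and is not in Y -/
def spn (D : GDat) (yc Y : ℕ) : Bool :=
  cond (Nat.blt D.cc yc) (cond (Simplex.bt Y D.cc) false
    (cond (Nat.beq (Nat.land Y (Nat.sub (Nat.pow 2 D.cc) 1)) 0) false true)) false

/-- the check of one group -/
def cbody (D : GDat) (T : GTb) (c er yc b by' u v : ℕ) : Chk := fun s k =>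
  sq (Nat.lor (Nat.pow 2 er) (Nat.shiftLeft u b)) fun X =>
  sq (Nat.lor (Nat.pow 2 yc) (Nat.shiftLeft v by')) fun Y =>
  cond (dl 12 X Y) (k s)
    (cond (Nat.beq (Nat.land Y D.ng) 0)
      (cond (D.spn yc Y) (k s) (sq (Nat.lor X (Nat.shiftLeft Y 32)) fun Z => cz D T c Z s k))
      (k s))

/-- the check of one class -/
def ccls (D : GDat) (T : GTb) (er yc : ℕ) : Chk := fun s k =>
  sq (Nat.add (Nat.mul 128 er) yc) fun c =>
  cond (cond (Nat.beq (cn T c) 0) true
    (cond (Simplex.bt T.ne c) (Nat.ble (Nat.add (cs T c) (cn T c)) T.nn) false))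
    (sq (D.be er yc) fun b => sq (D.bey er yc) fun b' =>
      sq (Nat.pow 2 (Nat.sub er b)) fun nu => sq (Nat.pow 2 (Nat.sub yc b')) fun nv =>
      rl (fun u => rl (fun v => cbody D T c er yc b b' u v) nv 0) nu 0 s k) false

/-- the check of the rows er, ..., er+n-1 of classes -/
def crow (D : GDat) (T : GTb) (n er : ℕ) : Chk :=
  rl (fun e => rl (fun y => fun s k => cond (Simplex.bt T.nv (Nat.add (Nat.mul 128 e) y)) (k s)
    (ccls D T e y s k)) D.N 0) n er

/-- what the check of a class proves -/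
def QC (D : GDat) (T : GTb) (er yc : ℕ) : Prop :=
  (cn T (128 * er + yc) ≠ 0 → T.ne.testBit (128 * er + yc) = true ∧
    cs T (128 * er + yc) + cn T (128 * er + yc) ≤ T.nn) ∧
  ∀ G, D.arr.IsGrp G → D.Free G → D.arr.hiR G = D.m - 1 - er → D.arr.hiC G = D.N - 1 - yc →
    er < D.m → yc < D.N → D.CB T G ∨ D.InT T (128 * er + yc) G

theorem snd_cz (hG : D.Good) {T : GTb} {c Z : ℕ} :
    Snd (cz D T c Z) (∀ G, D.arr.IsGrp G → D.Rep Z G → D.CB T G ∨ D.InT T c G) := by
  apply Snd.rd
  intro md
  apply Snd.cnd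
  · intro _
    apply Snd.rd
    intro h
    apply Snd.ckb
    intro ht G hGr hrep
    left
    intro X W hc
    exact Tgt.of_full (full_of_win hG hc hrep hrep ⟨[], by simp⟩ ⟨[], by simp⟩
      (fun h => absurd h hGr.1) (fun h => absurd h hGr.1) (fun h => absurd h hGr.1) hrep ht)
  · intro _
    apply Snd.rd
    intro id
    apply Snd.ckb
    intro h G hGr hrep
    right
    rcases h1 : Nat.beq (fld128 T.gz id) Z with _ | _
    · rw [h1] at h
      exact absurd h (by simp)
    · rcases h2 : Nat.ble (cs T c) id with _ | _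
      · rw [h1, h2] at h
        exact absurd h (by simp)
      · rw [h1, h2, cond_true, cond_true] at h
        refine ⟨id, Nat.le_of_ble_eq_true h2, ?_, ?_⟩
        · rw [Nat.blt_eq] at h
          exact h
        · rw [Nat.eq_of_beq_eq_true h1]
          exact hrep

/-- a basis containing the group G which jumps over the column cc does not use cc -/
theorem cb_of_spn {T : GTb} {Y Z : ℕ} {G : List (ℕ × ℕ)} (hGr : D.arr.IsGrp G)
    (hrep : D.Rep Z G) (hY : Z / 4294967296 = Y) (h : D.spn Y.log2 Y = true) : D.CB T G := by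
  intro X W hc hcc
  exfalso
  obtain ⟨hX0, hY0, p, hp, hp', hpm, hpN, hl1, hl2, hp3, hp4⟩ := hrep.hi hGr.2.1 hGr.1
  unfold spn at h
  rcases h1 : Nat.blt D.cc Y.log2 with _ | _
  · rw [h1] at h
    exact absurd h (by simp)
  rcases h2 : Simplex.bt Y D.cc with _ | _
  swap
  · rw [h1, h2] at h
    exact absurd h (by simp)
  rcases h3 : Nat.beq (Nat.land Y (Nat.sub (Nat.pow 2 D.cc) 1)) 0 with _ | _
  swap
  · rw [h1, h2, h3] at h
    exact absurd h (by simp)
  rw [Nat.blt_eq] at h1
  rw [bt_eq] at h2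
  have hYlt : Y < 2 ^ D.N := hY ▸ hrep.y_lt
  have hlog : Y.log2 < D.N := (Nat.log2_lt (hY ▸ hY0)).mpr hYlt
  obtain ⟨q, hq, hqc⟩ := hcc (by omega)
  have h4 : Nat.land Y (Nat.sub (Nat.pow 2 D.cc) 1) ≠ 0 := by
    intro h0
    rw [h0] at h3
    exact absurd h3 (by decide)
  -- a column of G after cc
  have h5 : (Y &&& (2 ^ D.cc - 1)) ≠ 0 := h4
  obtain ⟨a1, -⟩ := lob_spec _ h5
  rw [Nat.testBit_and, Nat.testBit_two_pow_sub_one, Bool.and_eq_true, decide_eq_true_iff] at a1
  have h6 : D.N - 1 - lob (Y &&& (2 ^ D.cc - 1)) ∈ G.map Prod.snd := by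
    rw [← hrep.snd, mem_dec, hY]
    have h7 : D.N - 1 - (D.N - 1 - lob (Y &&& (2 ^ D.cc - 1))) = lob (Y &&& (2 ^ D.cc - 1)) := by
      omega
    refine ⟨by omega, ?_⟩
    rw [h7]
    exact a1.1
  obtain ⟨r, hr, hre⟩ := List.mem_map.mp h6
  have hqv : q.2 < D.N := by
    have := hc.1.2 q hq
    exact this.2
  rw [hY] at hl2
  rcases List.mem_append.mp hq with hq' | hq'
  · rcases List.mem_append.mp hq' with h8 | h8
    · have := (hc.1.append.1.append.2.2 q h8 p hp).2
      omega
    · have h9 : q.2 ∈ G.map Prod.snd := List.mem_map.mpr ⟨q, h8, rfl⟩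
      rw [← hrep.snd, mem_dec, hY, hqc, h2] at h9
      exact absurd h9.2 (by simp)
  · have := (hc.1.append.2.2 r (by simp [hr]) q hq').2
    omega

theorem snd_cbody (hG : D.Good) {T : GTb} {c er yc b b' u v : ℕ} :
    Snd (cbody D T c er yc b b' u v) (v < 2 ^ (yc - b') → b' ≤ yc → ∀ G, D.arr.IsGrp G →
      D.Free G → 2 ^ er ||| (u <<< b) < 2 ^ 32 →
      D.Rep ((2 ^ er ||| (u <<< b)) ||| ((2 ^ yc ||| (v <<< b')) <<< 32)) G →
      D.CB T G ∨ D.InT T c G) := by
  intro s k hk
  unfold cbody at hk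
  rw [sq_eq, sq_eq] at hk
  have hmod : 2 ^ er ||| (u <<< b) < 2 ^ 32 →
      ((2 ^ er ||| (u <<< b)) ||| ((2 ^ yc ||| (v <<< b')) <<< 32)) % 4294967296 =
      2 ^ er ||| (u <<< b) := by
    intro hlt
    rw [or_mod]
    have h1 : ((2 ^ yc ||| (v <<< b')) <<< 32) % 4294967296 = 0 := by
      rw [Nat.shiftLeft_eq]
      exact Nat.mul_mod_left _ _
    rw [h1, Nat.or_zero]
    exact Nat.mod_eq_of_lt hlt
  have hdiv : 2 ^ er ||| (u <<< b) < 2 ^ 32 →
      ((2 ^ er ||| (u <<< b)) ||| ((2 ^ yc ||| (v <<< b')) <<< 32)) / 4294967296 =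
      2 ^ yc ||| (v <<< b') := by
    intro hlt
    rw [or_div]
    have h1 : ((2 ^ yc ||| (v <<< b')) <<< 32) / 4294967296 = 2 ^ yc ||| (v <<< b') := by
      rw [Nat.shiftLeft_eq]
      exact Nat.mul_div_cancel _ (by norm_num)
    have h2 : (2 ^ er ||| (u <<< b)) / 4294967296 = 0 := Nat.div_eq_of_lt hlt
    rw [h1, h2, Nat.zero_or]
  rcases hd : dl 12 (Nat.lor (Nat.pow 2 er) (Nat.shiftLeft u b))
    (Nat.lor (Nat.pow 2 yc) (Nat.shiftLeft v b')) with _ | _
  · rw [hd, cond_false] at hk
    rcases hn : Nat.beq (Nat.land (Nat.lor (Nat.pow 2 yc) (Nat.shiftLeft v b')) D.ng) 0 with _ | _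
    · rw [hn, cond_false] at hk
      refine ⟨?_, s, hk⟩
      intro _ _ G hGr hfree hlt hrep
      exfalso
      have h0 : ((2 ^ yc ||| (v <<< b')) &&& D.ng) ≠ 0 := by
        intro h
        have : Nat.land (Nat.lor (Nat.pow 2 yc) (Nat.shiftLeft v b')) D.ng = 0 := h
        rw [this] at hn
        exact absurd hn (by decide)
      obtain ⟨a1, -⟩ := lob_spec _ h0
      rw [Nat.testBit_and, Bool.and_eq_true] at a1
      set y := lob ((2 ^ yc ||| (v <<< b')) &&& D.ng) with hy
      have hyN : y < D.N := by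
        by_contra hge
        have h1 := hrep.y_lt
        rw [hdiv hlt] at h1
        have : (2 ^ yc ||| (v <<< b')).testBit y = false :=
          Nat.testBit_lt_two_pow (lt_of_lt_of_le h1 (Nat.pow_le_pow_right (by norm_num) (by omega)))
        rw [this] at a1
        exact absurd a1.1 (by simp)
      have h2 : D.N - 1 - y ∈ G.map Prod.snd := by
        rw [← hrep.snd, mem_dec, hdiv hlt]
        have h7 : D.N - 1 - (D.N - 1 - y) = y := by omega
        refine ⟨by omega, ?_⟩
        rw [h7]
        exact a1.1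
      obtain ⟨r, hr, hre⟩ := List.mem_map.mp h2
      have h3 := hfree r hr
      have h4 : D.N - 1 - r.2 = y := by omega
      rw [h4, a1.2] at h3
      exact absurd h3 (by simp)
    · rw [hn, cond_true] at hk
      rcases hs : D.spn yc (Nat.lor (Nat.pow 2 yc) (Nat.shiftLeft v b')) with _ | _
      · rw [hs, cond_false, sq_eq] at hk
        obtain ⟨h1, h2⟩ := snd_cz hG s k hk
        exact ⟨fun _ _ G a _ _ b => h1 G a b, h2⟩
      · rw [hs, cond_true] at hk
        refine ⟨?_, s, hk⟩
        intro hv hb' G hGr hfree hlt hrep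
        left
        have hlog : (2 ^ yc ||| (v <<< b')).log2 = yc := by
          have h1 : v <<< b' < 2 ^ yc := by
            rw [Nat.shiftLeft_eq]
            calc v * 2 ^ b' < 2 ^ (yc - b') * 2 ^ b' :=
                  Nat.mul_lt_mul_of_pos_right hv (Nat.two_pow_pos _)
              _ = 2 ^ yc := by rw [← pow_add]; congr 1; omega
          have h2 : 2 ^ yc ||| (v <<< b') < 2 ^ (yc + 1) :=
            Nat.or_lt_two_pow (Nat.pow_lt_pow_right (by norm_num) (by omega))
              (lt_trans h1 (Nat.pow_lt_pow_right (by norm_num) (by omega)))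
          have h3 : (2 ^ yc ||| (v <<< b')).testBit yc = true := by
            rw [Nat.testBit_or, Nat.testBit_two_pow_self, Bool.true_or]
          have h4 : 2 ^ yc ||| (v <<< b') ≠ 0 := by
            intro h0
            rw [h0] at h3
            simp at h3
          have h5 := (Nat.log2_lt h4).mpr h2
          have h6 : 2 ^ yc ≤ 2 ^ yc ||| (v <<< b') := Nat.left_le_or
          have h7 := (Nat.le_log2 h4).mpr h6
          omega
        refine cb_of_spn hGr hrep (hdiv hlt) ?_
        rw [hlog]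
        exact hs
  · rw [hd, cond_true] at hk
    refine ⟨?_, s, hk⟩
    intro _ _ G hGr _ hlt hrep
    exfalso
    have hx := hrep.x_lt
    have hy := hrep.y_lt
    have h1 := hrep.fst
    have h2 := hrep.snd
    rw [hmod hlt] at hx h1
    rw [hdiv hlt] at hy h2
    have := dl_sound 12 _ _ hx hy hd
    apply this
    show (dec D.m (2 ^ er ||| (u <<< b))).length = (dec D.N (2 ^ yc ||| (v <<< b'))).length
    rw [h1, h2, List.length_map, List.length_map]

theorem snd_ccls (hG : D.Good) {T : GTb} {er yc : ℕ} : Snd (ccls D T er yc) (QC D T er yc) := by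
  intro s k hk
  unfold ccls at hk
  rw [sq_eq] at hk
  have hce : Nat.add (Nat.mul 128 er) yc = 128 * er + yc := rfl
  rw [hce] at hk
  have hne : (cond (Nat.beq (cn T (128 * er + yc)) 0) true
      (cond (Simplex.bt T.ne (128 * er + yc))
        (Nat.ble (Nat.add (cs T (128 * er + yc)) (cn T (128 * er + yc))) T.nn) false)) = true →
      (cn T (128 * er + yc) ≠ 0 → T.ne.testBit (128 * er + yc) = true ∧
        cs T (128 * er + yc) + cn T (128 * er + yc) ≤ T.nn) := by
    intro h0 h1
    rw [beq_false' h1, cond_false] at h0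
    rcases h2 : Simplex.bt T.ne (128 * er + yc) with _ | _
    · rw [h2] at h0
      exact absurd h0 (by simp)
    · rw [h2, cond_true] at h0
      rw [bt_eq] at h2
      exact ⟨h2, Nat.le_of_ble_eq_true h0⟩
  rcases hcond : (cond (Nat.beq (cn T (128 * er + yc)) 0) true
      (cond (Simplex.bt T.ne (128 * er + yc))
        (Nat.ble (Nat.add (cs T (128 * er + yc)) (cn T (128 * er + yc))) T.nn) false)) with _ | _
  · rw [hcond] at hk
    exact absurd hk (by simp)
  rw [hcond, cond_true, sq_eq, sq_eq, sq_eq, sq_eq] at hk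
  · obtain ⟨h1, h2⟩ := Snd.rl (fun u => Snd.rl (fun v => snd_cbody (T := T) (c := 128 * er + yc)
      (er := er) (yc := yc) (b := D.be er yc) (b' := D.bey er yc) (u := u) (v := v) hG)
      (Nat.pow 2 (Nat.sub yc (D.bey er yc))) 0) (Nat.pow 2 (Nat.sub er (D.be er yc))) 0 s k hk
    refine ⟨⟨hne hcond, ?_⟩, h2⟩
    intro G hGr hfree hhr hhc her hyc
    obtain ⟨Z, hrep⟩ := exists_rep hG hGr.2.1
    obtain ⟨hX0, hY0, p, hp, hp', hpm, hpN, hl1, hl2, hp3, hp4⟩ := hrep.hi hGr.2.1 hGr.1
    have hle : (Z % 4294967296).log2 = er := by omega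
    have hly : (Z / 4294967296).log2 = yc := by omega
    -- bits in the block
    have hbX : ∀ j, (Z % 4294967296).testBit j = true → D.be er yc ≤ j := by
      intro j hj
      have hjm : j < D.m := by
        by_contra h
        have : (Z % 4294967296).testBit j = false :=
          Nat.testBit_lt_two_pow (lt_of_lt_of_le hrep.x_lt (Nat.pow_le_pow_right (by norm_num) (by omega)))
        rw [hj] at this
        exact absurd this (by simp)
      have h3 : D.m - 1 - j ∈ dec D.m (Z % 4294967296) := by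
        rw [mem_dec]
        refine ⟨by omega, ?_⟩
        have : D.m - 1 - (D.m - 1 - j) = j := by omega
        rw [this]
        exact hj
      rw [hrep.fst] at h3
      obtain ⟨q, hq, hqe⟩ := List.mem_map.mp h3
      have h4 := hGr.2.2 p hp q hq
      have h5 : D.bid (D.m - 1 - p.1) (D.N - 1 - p.2) = D.bid (D.m - 1 - q.1) (D.N - 1 - q.2) := h4
      have hqv := hGr.2.1.2 q hq
      have hqN : q.2 < D.N := hqv.2
      have e1 : D.m - 1 - p.1 = er := by omega
      have e2 : D.m - 1 - q.1 = j := by omega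
      have e3 : D.N - 1 - p.2 = yc := by omega
      have hcell := (hG.cell (D.m - 1 - q.1) (by omega) (D.N - 1 - q.2) (by omega)).2.1
      rw [← h5, e1, e2, e3] at hcell
      exact hcell
    have hbY : ∀ j, (Z / 4294967296).testBit j = true → D.bey er yc ≤ j := by
      intro j hj
      have hjm : j < D.N := by
        by_contra h
        have : (Z / 4294967296).testBit j = false :=
          Nat.testBit_lt_two_pow (lt_of_lt_of_le hrep.y_lt (Nat.pow_le_pow_right (by norm_num) (by omega)))
        rw [hj] at this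
        exact absurd this (by simp)
      have h3 : D.N - 1 - j ∈ dec D.N (Z / 4294967296) := by
        rw [mem_dec]
        refine ⟨by omega, ?_⟩
        have : D.N - 1 - (D.N - 1 - j) = j := by omega
        rw [this]
        exact hj
      rw [hrep.snd] at h3
      obtain ⟨q, hq, hqe⟩ := List.mem_map.mp h3
      have h4 := hGr.2.2 p hp q hq
      have h5 : D.bid (D.m - 1 - p.1) (D.N - 1 - p.2) = D.bid (D.m - 1 - q.1) (D.N - 1 - q.2) := h4
      have hqv := hGr.2.1.2 q hq
      have hqm : q.1 < D.m := hqv.1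
      have e1 : D.m - 1 - p.1 = er := by omega
      have e2 : D.N - 1 - q.2 = j := by omega
      have e3 : D.N - 1 - p.2 = yc := by omega
      have hcell := (hG.cell (D.m - 1 - q.1) (by omega) (D.N - 1 - q.2) (by omega)).2.2.2.1
      rw [← h5, e1, e2, e3] at hcell
      exact hcell
    have hbl : D.bey er yc ≤ yc := (hG.cell er her yc hyc).2.2.2.1
    have hXs := mask_split hX0 hle hbX
    have hYs := mask_split hY0 hly hbY
    set u := ((Z % 4294967296) >>> D.be er yc) % 2 ^ (er - D.be er yc) with hu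
    set v := ((Z / 4294967296) >>> D.bey er yc) % 2 ^ (yc - D.bey er yc) with hv
    have hXlt : Z % 4294967296 < 4294967296 := Nat.mod_lt _ (by norm_num)
    have hZe : Z = (2 ^ er ||| (u <<< D.be er yc)) ||| ((2 ^ yc ||| (v <<< D.bey er yc)) <<< 32) := by
      rw [← hXs, ← hYs]
      apply Nat.eq_of_testBit_eq
      intro j
      rw [Nat.testBit_or, Nat.testBit_shiftLeft, div_testBit]
      by_cases hj : j < 32
      · rw [mod_testBit hj]
        have : ¬ (32 ≤ j) := by omega
        simp [this]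
      · have h5 : (Z % 4294967296).testBit j = false := by
          apply Nat.testBit_lt_two_pow
          calc Z % 4294967296 < 2 ^ 32 := hXlt
            _ ≤ 2 ^ j := Nat.pow_le_pow_right (by norm_num) (by omega)
        have h6 : 32 + (j - 32) = j := by omega
        have h7 : 32 ≤ j := by omega
        rw [h5, h6]
        simp [h7]
    have hu' : u < 0 + 2 ^ (er - D.be er yc) := by
      rw [zero_add]
      exact Nat.mod_lt _ (Nat.two_pow_pos _)
    have hv' : v < 0 + 2 ^ (yc - D.bey er yc) := by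
      rw [zero_add]
      exact Nat.mod_lt _ (Nat.two_pow_pos _)
    refine h1 u (Nat.zero_le _) hu' v (Nat.zero_le _) hv' (by rwa [zero_add] at hv') hbl G hGr hfree ?_ ?_
    · rw [← hXs]
      exact hXlt
    · rw [← hZe]
      exact hrep

/-- the check of the classes with row bits er, ..., er+n-1 -/
theorem snd_crow (hG : D.Good) {T : GTb} {n er : ℕ} :
    Snd (crow D T n er) (∀ e, er ≤ e → e < er + n → ∀ y, 0 ≤ y → y < 0 + D.N →
      T.nv.testBit (128 * e + y) = false → QC D T e y) := by
  refine Snd.rl (fun e => Snd.rl (fun y => ?_) _ _) _ _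
  intro s k hk
  beta_reduce at hk
  rw [bt_eq] at hk
  rcases h : T.nv.testBit (Nat.add (Nat.mul 128 e) y) with _ | _
  · rw [h, cond_false] at hk
    obtain ⟨h1, h2⟩ := snd_ccls hG s k hk
    exact ⟨fun _ => h1, h2⟩
  · rw [h, cond_true] at hk
    exact ⟨fun h' => absurd h' (by simp), s, hk⟩

end GDat

end Pool.Agent.Simplex
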