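import Pool.Agent.Work.MP_f99e36_co.GChk6

/-!
Kernel-friendly checker for general block arrays, part 7: the closure check and the main theorem.
-/

set_option autoImplicit false

namespace Pool.Agent.Simplex

/-- field of width 16 -/
def fld16 (t i : ℕ) : ℕ := Nat.land (Nat.shiftRight t (Nat.mul 16 i)) 65535

/-- check that id1 is the predecessor number j of id2 -/
def rck (T : GTb) (id1 id2 j : ℕ) : Bool :=
  cond (Nat.ble (fld T.ps id2) j) (cond (Nat.blt j (fld T.ps (Nat.succ id2)))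
    (Nat.beq (fld16 T.pl j) id1) false) false

theorem rck_sound {T : GTb} {id1 id2 j : ℕ} (h : rck T id1 id2 j = true) :
    fld T.ps id2 ≤ j ∧ j < fld T.ps (id2 + 1) ∧ fld16 T.pl j = id1 := by
  unfold rck at h
  rcases h1 : Nat.ble (fld T.ps id2) j with _ | _
  · rw [h1] at h
    exact absurd h (by simp)
  rcases h2 : Nat.blt j (fld T.ps (Nat.succ id2)) with _ | _
  · rw [h1, h2] at h
    exact absurd h (by simp)
  rw [h1, h2, cond_true, cond_true] at h
  refine ⟨Nat.le_of_ble_eq_true h1, ?_, Nat.eq_of_beq_eq_true h⟩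
  rw [Nat.blt_eq] at h2
  exact h2

/-- check that the entry number r of the table t is P, with a <= r < b -/
def ick (t a b P r : ℕ) : Bool :=
  cond (Nat.ble a r) (cond (Nat.blt r b) (Nat.beq (fld128 t r) P) false) false

theorem ick_sound {t a b P r : ℕ} (h : ick t a b P r = true) :
    a ≤ r ∧ r < b ∧ fld128 t r = P := by
  unfold ick at h
  rcases h1 : Nat.ble a r with _ | _
  · rw [h1] at h
    exact absurd h (by simp)
  rcases h2 : Nat.blt r b with _ | _
  · rw [h1, h2] at h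
    exact absurd h (by simp)
  rw [h1, h2, cond_true, cond_true] at h
  refine ⟨Nat.le_of_ble_eq_true h1, ?_, Nat.eq_of_beq_eq_true h⟩
  rw [Nat.blt_eq] at h2
  exact h2

namespace GDat

/-- window test with the predecessor number j -/
def wbody (D : GDat) (T : GTb) (Z23 L3 j : ℕ) : Chk := fun s k =>
  sq (fld16 T.pl j) fun id1 => sq (Nat.lor (fld128 T.gz id1) Z23) fun Z123 =>
  rd 28 268435455 (fun h => ckb (D.tst Z123 (Nat.land (fld128 T.gh id1) L3) h)) s k

/-- blocked: one test of the last two groups, or a test for every predecessor -/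
def bchk (D : GDat) (T : GTb) (Z2 H2 pa pn Z3 L3 : ℕ) : Chk := fun s k =>
  sq (Nat.lor Z2 Z3) fun Z23 =>
  rd 1 1 (fun md => cond (Nat.beq md 0)
    (rd 28 268435455 (fun h => ckb (D.tst Z23 (Nat.land H2 L3) h)))
    (rl (wbody D T Z23 L3) pn pa)) s k

/-- the known prefixes of the pair number j, enlarged by Z3, occur in the table t between a and
b -/
def lbody (T : GTb) (t Z3 a b j : ℕ) : Chk := fun s k =>
  cond (Simplex.bt T.dd j) false
    (sq (fld T.lo j) fun p => sq (Nat.sub (fld T.lo (Nat.succ j)) p) fun n =>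
      rl (fun q => fun s k => sq (Nat.lor (fld128 T.lq q) Z3) fun P =>
        rd 16 65535 (fun r => ckb (ick t a b P r)) s k) n p s k)

/-- one predecessor: window test or prefixes -/
def tbody (D : GDat) (T : GTb) (Z23 L3 t Z3 a b j : ℕ) : Chk :=
  rd 1 1 (fun md => cond (Nat.beq md 0) (wbody D T Z23 L3 j) (lbody T t Z3 a b j))

/-- the prefixes of the pair number j3 are complete -/
def tchk (D : GDat) (T : GTb) (Z2 pa pn Z3 L3 j3 : ℕ) : Chk := fun s k =>
  cond (Simplex.bt T.dd j3) (k s)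
    (sq (Nat.lor Z2 Z3) fun Z23 => sq (fld T.lo j3) fun a => sq (fld T.lo (Nat.succ j3)) fun b =>
      rl (tbody D T Z23 L3 T.lq Z3 a b) pn pa s k)

/-- check of the end of a basis -/
def echk (D : GDat) (T : GTb) (Z2 H2 pa pn : ℕ) : Chk :=
  rd 1 1 (fun md => cond (Nat.beq md 0)
    (bchk D T Z2 H2 pa pn 0 340282366920938463463374607431768211455)
    (rl (tbody D T (Nat.lor Z2 0) 340282366920938463463374607431768211455 T.ex 0 0 T.en) pn pa))

/-- exclusive tests -/
def exl (D : GDat) (Z2 H2 e2 y2 : ℕ) (f : ℕ → Chk) (n : ℕ) : ℕ → Chk :=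
  Nat.rec (motive := fun _ => ℕ → Chk) (fun acc => f acc)
    (fun _ ih acc => rd 5 31 (fun el => rd 7 127 (fun yl => rd 28 268435455 (fun h s k =>
      cond (Nat.ble el e2) (cond (Nat.ble yl y2)
        (cond (D.tst Z2 (Nat.land H2 (lmk el yl)) h)
          (sq (Nat.lor acc (D.cov el yl)) fun acc' => ih acc' s k) false) false) false)))) n

/-- check of the group id3 after id2; Z3 and L3 are its mask and its window -/
def pbody (D : GDat) (T : GTb) (id2 Z2 H2 pa pn id3 Z3 L3 : ℕ) : Chk :=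
  rd 1 1 (fun md => cond (Nat.beq md 0)
    (fun s k => sq Z3 fun Z3 => sq L3 fun L3 => bchk D T Z2 H2 pa pn Z3 L3 s k)
    (rd 24 16777215 (fun j3 => fun s k => cond (rck T id2 id3 j3)
      (sq Z3 fun Z3 => sq L3 fun L3 => tchk D T Z2 pa pn Z3 L3 j3 s k) false)))

/-- the entries a, ..., a+n-1 of a table -/
def sub128 (t a n : ℕ) : ℕ :=
  Nat.land (Nat.shiftRight t (Nat.mul 128 a)) (Nat.sub (Nat.pow 2 (Nat.mul 128 n)) 1)

/-- check of the classes after id2 -/
def cbody2 (D : GDat) (T : GTb) (id2 Z2 H2 pa pn c : ℕ) : Chk := fun s k =>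
  sq (cs T c) fun a => sq (cn T c) fun n =>
  sq (sub128 T.gz a n) fun gz => sq (sub128 T.gl a n) fun gl =>
  rl (fun i => pbody D T id2 Z2 H2 pa pn (Nat.add a i) (fld128 gz i) (fld128 gl i)) n 0 s k

/-- last row bit, or the first position -/
def e2f (D : GDat) (Z2 : ℕ) : ℕ :=
  cond (Nat.beq Z2 0) (Nat.sub D.m 1) (lob (Nat.land Z2 4294967295))
def y2f (D : GDat) (Z2 : ℕ) : ℕ :=
  cond (Nat.beq Z2 0) (Nat.sub D.N 1) (lob (Nat.shiftRight Z2 32))

/-- the basis has to use the column cc and the group is before this column -/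
def bfr (D : GDat) (Z2 y2 : ℕ) : Bool :=
  cond (Nat.blt D.cc D.N) (cond (Nat.beq Z2 0) true (Nat.blt D.cc y2)) false

/-- check of the classes not covered by acc -/
def fin2 (D : GDat) (T : GTb) (id2 Z2 H2 pa pn e2 y2 acc : ℕ) : Chk := fun s k =>
  sq (cond (Nat.beq Z2 0) T.ne (Nat.land T.ne (D.cov e2 y2))) fun aft =>
  sq (cond (D.bfr Z2 y2) (Nat.lor acc (Nat.mul repg (Nat.sub (Nat.pow 2 D.cc) 1))) acc) fun acc' =>
  sq (Nat.xor aft (Nat.land aft acc')) fun rem =>
  cond (Nat.beq (Nat.land rem T.nv) 0) (blg (cbody2 D T id2 Z2 H2 pa pn) 4096 rem s k) false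

/-- check of the end, if there is one -/
def ech2 (D : GDat) (T : GTb) (Z2 H2 y2 pa pn : ℕ) : Chk := fun s k =>
  cond (D.bfr Z2 y2) (k s) (echk D T Z2 H2 pa pn s k)

/-- the closure check of the group id2 -/
def stp (D : GDat) (T : GTb) (id2 : ℕ) : Chk := fun s k =>
  sq (fld T.ps id2) fun pa => sq (Nat.sub (fld T.ps (Nat.succ id2)) pa) fun pn =>
  cond (Nat.beq pn 0) (k s)
    (sq (fld128 T.gz id2) fun Z2 => sq (fld128 T.gh id2) fun H2 =>
      sq (D.e2f Z2) fun e2 => sq (D.y2f Z2) fun y2 =>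
      ech2 D T Z2 H2 y2 pa pn s fun s' =>
        rd 5 31 (fun n => exl D Z2 H2 e2 y2 (fin2 D T id2 Z2 H2 pa pn e2 y2) n 0) s' k)

/-- the tables of windows are correct for the group id -/
def HTi (D : GDat) (T : GTb) (id : ℕ) : Prop :=
  fld128 T.gh id = D.hm (fld128 T.gz id) ∧ fld128 T.gl id = lm (fld128 T.gz id)

/-- the tables of windows are correct -/
def HT (D : GDat) (T : GTb) : Prop := ∀ id, id < T.nn → HTi D T id

/-- check of the tables of windows -/
def wck (D : GDat) (T : GTb) (n id : ℕ) : Chk :=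
  rl (fun id => ckb (cond (Nat.beq (fld128 T.gh id) (D.hm (fld128 T.gz id)))
    (Nat.beq (fld128 T.gl id) (lm (fld128 T.gz id))) false)) n id

theorem snd_wck {D : GDat} {T : GTb} {n id : ℕ} :
    Snd (wck D T n id) (∀ j, id ≤ j → j < id + n → HTi D T j) := by
  refine Snd.rl (fun j => Snd.ckb ?_) _ _
  intro h
  rcases h1 : Nat.beq (fld128 T.gh j) (D.hm (fld128 T.gz j)) with _ | _
  · rw [h1] at h
    exact absurd h (by simp)
  · rw [h1, cond_true] at h
    exact ⟨Nat.eq_of_beq_eq_true h1, Nat.eq_of_beq_eq_true h⟩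

variable {D : GDat}

theorem Rep.nil_zero {Z : ℕ} (h : D.Rep Z []) : Z = 0 := by
  have h1 : Z % 4294967296 = 0 := by
    by_contra h0
    have := h.fst
    rw [dec_cons h0 h.x_lt] at this
    simp at this
  have h2 : Z / 4294967296 = 0 := by
    by_contra h0
    have := h.snd
    rw [dec_cons h0 h.y_lt] at this
    simp at this
  omega

theorem Rep.zero_nil {M : List (ℕ × ℕ)} (h : D.Rep 0 M) : M = [] := by
  have h1 := h.fst
  rw [Nat.zero_mod, dec_zero] at h1
  cases M with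
  | nil => rfl
  | cons a t => simp at h1

theorem lm_zero : lm 0 = 340282366920938463463374607431768211455 := by decide +kernel

/-- what a window test with the predecessor number j proves -/
def BQ1 (D : GDat) (T : GTb) (Z2 Z3 j : ℕ) : Prop :=
  ∀ G1 G2 G3, fld16 T.pl j < T.nn → D.Rep (fld128 T.gz (fld16 T.pl j)) G1 →
    D.Rep Z2 G2 → D.Rep Z3 G3 → (G2 = [] → G1 = []) → D.arr.After G1 (G2 ++ G3) →
    D.arr.Blk3 G1 G2 G3

/-- what a blocking check proves -/
def BQ (D : GDat) (T : GTb) (Z2 pa pn Z3 : ℕ) : Prop :=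
  ∀ j, pa ≤ j → j < pa + pn → D.BQ1 T Z2 Z3 j

theorem snd_wbody (hG : D.Good) {T : GTb} (hT : HT D T) {Z2 Z3 L3 j : ℕ} :
    Snd (wbody D T (Nat.lor Z2 Z3) L3 j) (L3 = lm Z3 → D.BQ1 T Z2 Z3 j) := by
  intro s k hk
  unfold wbody at hk
  rw [sq_eq, sq_eq] at hk
  refine Snd.rd (w := 28) (f := _) ?_ s k hk
  intro h
  apply Snd.ckb
  intro ht hL G1 G2 G3 hid1 h1 h2 h3 h12 haf X Z hX hZ hc
  rw [(hT _ hid1).1, hL] at ht
  have hc' : D.arr.Ctx X (G1 ++ (G2 ++ G3)) Z := by rwa [← List.append_assoc]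
  have hv := hc'.1.append.1.append.2.1
  have := full_of_win hG hc' (F := G1) (L := G3) h1 h3 ⟨G2 ++ G3, rfl⟩
    ⟨G1 ++ G2, by rw [List.append_assoc]⟩ hX hZ
    (fun h => (h ▸ h1).nil_zero) (h1.append (h2.append h3 hv.append.2.1) hv) ht
  simpa [List.append_assoc] using this

theorem snd_bchk (hG : D.Good) {T : GTb} (hT : HT D T) {Z2 H2 pa pn Z3 L3 : ℕ} :
    Snd (bchk D T Z2 H2 pa pn Z3 L3) (H2 = D.hm Z2 → L3 = lm Z3 → D.BQ T Z2 pa pn Z3) := by
  intro s k hk
  unfold bchk at hk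
  rw [sq_eq] at hk
  refine Snd.rd (w := 1) (f := _) (Q := H2 = D.hm Z2 → L3 = lm Z3 → D.BQ T Z2 pa pn Z3) ?_ s k hk
  intro md
  apply Snd.cnd
  · intro _
    apply Snd.rd
    intro h
    apply Snd.ckb
    intro ht hH hL j _ _ G1 G2 G3 _ h1 h2 h3 h12 haf X Z hX hZ hc
    subst hH
    subst hL
    have hc' : D.arr.Ctx X (G1 ++ (G2 ++ G3)) Z := by rwa [← List.append_assoc]
    have hc2 := hc'.assoc haf
    have hv := hc2.1.append.1.append.2.1
    have := full_of_win hG hc2 (F := G2) (L := G3) h2 h3 ⟨G3, rfl⟩ ⟨G2, rfl⟩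
      (fun h => by rw [h12 h, hX (h12 h)]; rfl) hZ
      (fun h => (h ▸ h2).nil_zero) (h2.append h3 hv) ht
    simpa [List.append_assoc] using this
  · intro _ s k hk
    obtain ⟨a, b⟩ := Snd.rl (fun j => snd_wbody hG hT (Z2 := Z2) (Z3 := Z3) (L3 := L3) (j := j))
      pn pa s k hk
    exact ⟨fun _ hL j h1 h2 => a j h1 h2 hL, b⟩

/-- what the check of the prefixes of a pair proves -/
def LQ (T : GTb) (t Z3 a b j : ℕ) : Prop :=
  T.dd.testBit j = false ∧ ∀ q, fld T.lo j ≤ q → q < fld T.lo (j + 1) →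
    ∃ r, a ≤ r ∧ r < b ∧ fld128 t r = fld128 T.lq q ||| Z3

theorem snd_lbody {T : GTb} {t Z3 a b j : ℕ} : Snd (lbody T t Z3 a b j) (LQ T t Z3 a b j) := by
  intro s k hk
  unfold lbody at hk
  rw [bt_eq] at hk
  rcases h : T.dd.testBit j with _ | _
  · rw [h, cond_false, sq_eq, sq_eq] at hk
    have hb : ∀ q, Snd (fun s k => sq (Nat.lor (fld128 T.lq q) Z3) fun P =>
        rd 16 65535 (fun r => ckb (ick t a b P r)) s k)
        (∃ r, a ≤ r ∧ r < b ∧ fld128 t r = fld128 T.lq q ||| Z3) := by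
      intro q s k hk
      beta_reduce at hk
      rw [sq_eq] at hk
      refine Snd.rd (w := 16) (f := _) ?_ s k hk
      intro r
      exact Snd.ckb (fun hr => ⟨r, ick_sound hr⟩)
    obtain ⟨h1, h2⟩ := Snd.rl hb _ _ s k hk
    refine ⟨⟨h, fun q hq1 hq2 => h1 q hq1 ?_⟩, h2⟩
    show q < fld T.lo j + (fld T.lo (j + 1) - fld T.lo j)
    omega
  · rw [h, cond_true] at hk
    exact absurd hk (by simp)

theorem snd_tbody (hG : D.Good) {T : GTb} (hT : HT D T) {Z2 Z3 L3 t a b j : ℕ} :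
    Snd (tbody D T (Nat.lor Z2 Z3) L3 t Z3 a b j)
      (L3 = lm Z3 → D.BQ1 T Z2 Z3 j ∨ LQ T t Z3 a b j) := by
  apply Snd.rd
  intro md
  apply Snd.cnd
  · intro _ s k hk
    obtain ⟨h1, h2⟩ := snd_wbody hG hT s k hk
    exact ⟨fun hL => Or.inl (h1 hL), h2⟩
  · intro _ s k hk
    obtain ⟨h1, h2⟩ := snd_lbody s k hk
    exact ⟨fun _ => Or.inr h1, h2⟩

theorem snd_tchk (hG : D.Good) {T : GTb} (hT : HT D T) {Z2 pa pn Z3 L3 j3 : ℕ} :
    Snd (tchk D T Z2 pa pn Z3 L3 j3) (L3 = lm Z3 → T.dd.testBit j3 = true ∨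
      ∀ j, pa ≤ j → j < pa + pn →
        D.BQ1 T Z2 Z3 j ∨ LQ T T.lq Z3 (fld T.lo j3) (fld T.lo (j3 + 1)) j) := by
  intro s k hk
  unfold tchk at hk
  rw [bt_eq] at hk
  rcases h : T.dd.testBit j3 with _ | _
  · rw [h, cond_false, sq_eq, sq_eq, sq_eq] at hk
    obtain ⟨h1, h2⟩ := Snd.rl (fun j => snd_tbody hG hT (Z2 := Z2) (Z3 := Z3) (L3 := L3)
      (t := T.lq) (a := fld T.lo j3) (b := fld T.lo (Nat.succ j3)) (j := j)) pn pa s k hk
    exact ⟨fun hL => Or.inr fun j hj1 hj2 => h1 j hj1 hj2 hL, h2⟩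
  · rw [h, cond_true] at hk
    exact ⟨fun _ => Or.inl rfl, s, hk⟩

theorem snd_echk (hG : D.Good) {T : GTb} (hT : HT D T) {Z2 H2 pa pn : ℕ} :
    Snd (echk D T Z2 H2 pa pn) (H2 = D.hm Z2 → ∀ j, pa ≤ j → j < pa + pn →
      D.BQ1 T Z2 0 j ∨ LQ T T.ex 0 0 T.en j) := by
  apply Snd.rd
  intro md
  apply Snd.cnd
  · intro _ s k hk
    obtain ⟨h1, h2⟩ := snd_bchk hG hT s k hk
    exact ⟨fun hH j hj1 hj2 => Or.inl (h1 hH lm_zero.symm j hj1 hj2), h2⟩
  · intro _ s k hk
    obtain ⟨h1, h2⟩ := Snd.rl (fun j => snd_tbody hG hT (Z2 := Z2) (Z3 := 0) (L3 := 340282366920938463463374607431768211455)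
      (t := T.ex) (a := 0) (b := T.en) (j := j)) pn pa s k hk
    exact ⟨fun _ j hj1 hj2 => h1 j hj1 hj2 lm_zero.symm, h2⟩

/-- the classes in acc are excluded -/
def EQ (D : GDat) (Z2 H2 acc : ℕ) : Prop := H2 = D.hm Z2 →
  ∀ er yc, er < D.m → yc < D.N → acc.testBit (128 * er + yc) = true →
    ∀ G2 X Z (g : ℕ × ℕ), D.Rep Z2 G2 → D.arr.Ctx X G2 Z → (G2 = [] → X = []) →
      (∀ q ∈ Z, g.1 ≤ q.1 ∧ g.2 ≤ q.2) → g.1 < D.m → g.2 < D.N → D.m - 1 - g.1 = er →
      D.N - 1 - g.2 = yc → D.arr.Full (X ++ G2 ++ Z)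

theorem e2f_zero : D.e2f 0 = D.m - 1 := rfl
theorem y2f_zero : D.y2f 0 = D.N - 1 := rfl

theorem e2f_eq {Z : ℕ} (h : Z ≠ 0) : D.e2f Z = lob (Z % 4294967296) := by
  unfold e2f
  rw [beq_false' h, cond_false, land_low]

theorem y2f_eq {Z : ℕ} (h : Z ≠ 0) : D.y2f Z = lob (Z / 4294967296) := by
  unfold y2f
  rw [beq_false' h, cond_false, shift_high]

theorem exl_sound (hG : D.Good) {Z2 H2 : ℕ} {f : ℕ → Chk} {k : ℕ → Bool} :
    ∀ (n acc s : ℕ), D.EQ Z2 H2 acc →
      exl D Z2 H2 (D.e2f Z2) (D.y2f Z2) f n acc s k = true →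
      ∃ acc' s', D.EQ Z2 H2 acc' ∧ f acc' s' k = true := by
  intro n
  induction n with
  | zero =>
    intro acc s h hk
    exact ⟨acc, s, h, hk⟩
  | succ n ih =>
    intro acc s hE hk
    have hk' : rd 5 31 (fun el => rd 7 127 (fun yl => rd 28 268435455 (fun h s k =>
      cond (Nat.ble el (D.e2f Z2)) (cond (Nat.ble yl (D.y2f Z2))
        (cond (D.tst Z2 (Nat.land H2 (lmk el yl)) h)
          (sq (Nat.lor acc (D.cov el yl)) fun acc' =>
            exl D Z2 H2 (D.e2f Z2) (D.y2f Z2) f n acc' s k) false) false) false)))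
        s k = true := hk
    unfold rd at hk'
    simp only [sq_eq] at hk'
    generalize Nat.land s 31 = el at hk'
    generalize hs1 : Nat.shiftRight s 5 = s1 at hk'
    generalize Nat.land s1 127 = yl at hk'
    generalize hs2 : Nat.shiftRight s1 7 = s2 at hk'
    generalize Nat.land s2 268435455 = h at hk'
    generalize Nat.shiftRight s2 28 = s3 at hk'
    rcases c1 : Nat.ble el (D.e2f Z2) with _ | _
    · rw [c1] at hk'
      exact absurd hk' (by simp)
    rcases c2 : Nat.ble yl (D.y2f Z2) with _ | _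
    · rw [c1, c2] at hk'
      exact absurd hk' (by simp)
    rcases c3 : D.tst Z2 (Nat.land H2 (lmk el yl)) h with _ | _
    · rw [c1, c2, c3] at hk'
      exact absurd hk' (by simp)
    rw [c1, c2, c3] at hk'
    simp only [cond_true] at hk'
    refine ih _ _ ?_ hk'
    have hel := Nat.le_of_ble_eq_true c1
    have hyl := Nat.le_of_ble_eq_true c2
    intro hH er yc her hyc hbit G2 X Z g hr hc hX hg hg1 hg2 hge hgy
    rw [hH] at c3
    have hbit' : (acc ||| D.cov el yl).testBit (128 * er + yc) = true := hbit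
    rw [Nat.testBit_or, Bool.or_eq_true] at hbit'
    rcases hbit' with hb | hb
    · exact hE hH er yc her hyc hb G2 X Z g hr hc hX hg hg1 hg2 hge hgy
    · have hv : D.arr.Valid G2 := hc.1.append.1.append.2.1
      have hlo : G2 ≠ [] → el ≤ lob (Z2 % 4294967296) ∧ yl ≤ lob (Z2 / 4294967296) := by
        intro hn
        have hZ : Z2 ≠ 0 := by
          rintro rfl
          exact hn hr.zero_nil
        rw [e2f_eq hZ] at hel
        rw [y2f_eq hZ] at hyl
        exact ⟨hel, hyl⟩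
      have hel' : el < D.m ∧ yl < D.N := by
        by_cases hn : G2 = []
        · have hZ := (hn ▸ hr).nil_zero
          rw [hZ, e2f_zero] at hel
          rw [hZ, y2f_zero] at hyl
          have := hG.m_pos
          have := hG.N_pos
          omega
        · obtain ⟨p, -, -, hp1, hp2, h3, h4, -⟩ := hr.lo hv hn
          have := hlo hn
          omega
      rw [cov_iff hG hel'.1 hel'.2 her hyc] at hb
      exact full_of_excl hG hc hr hX (fun h => (h ▸ hr).nil_zero) hel'.1 hel'.2 hlo hg hg1 hg2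
        (by omega) (by omega) (by rw [hge, hgy]; exact hb.2.2) c3

/-- the class of a group -/
def clsOf (D : GDat) (G : List (ℕ × ℕ)) : ℕ :=
  128 * (D.m - 1 - D.arr.hiR G) + (D.N - 1 - D.arr.hiC G)

/-- what the check of a pair proves -/
def PQ (D : GDat) (T : GTb) (id2 Z2 H2 pa pn id3 : ℕ) : Prop :=
  id3 < T.nn → H2 = D.hm Z2 →
    D.BQ T Z2 pa pn (fld128 T.gz id3) ∨
    ∃ j3, fld T.ps id3 ≤ j3 ∧ j3 < fld T.ps (id3 + 1) ∧ fld16 T.pl j3 = id2 ∧
      (T.dd.testBit j3 = true ∨ ∀ j, pa ≤ j → j < pa + pn →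
        D.BQ1 T Z2 (fld128 T.gz id3) j ∨
          LQ T T.lq (fld128 T.gz id3) (fld T.lo j3) (fld T.lo (j3 + 1)) j)

theorem snd_pbody (hG : D.Good) {T : GTb} (hT : HT D T) {id2 Z2 H2 pa pn id3 Z3 L3 : ℕ} :
    Snd (pbody D T id2 Z2 H2 pa pn id3 Z3 L3) (Z3 = fld128 T.gz id3 → L3 = fld128 T.gl id3 →
      D.PQ T id2 Z2 H2 pa pn id3) := by
  apply Snd.rd
  intro md
  apply Snd.cnd
  · intro _ s k hk
    beta_reduce at hk
    rw [sq_eq, sq_eq] at hk
    obtain ⟨a, b⟩ := snd_bchk hG hT s k hk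
    refine ⟨?_, b⟩
    rintro rfl rfl hn hH
    exact Or.inl (a hH (hT id3 hn).2)
  · intro _
    apply Snd.rd
    intro j3 s k hk
    beta_reduce at hk
    rcases hr : rck T id2 id3 j3 with _ | _
    · rw [hr] at hk
      exact absurd hk (by simp)
    · rw [hr, cond_true, sq_eq, sq_eq] at hk
      obtain ⟨a, b⟩ := snd_tchk hG hT s k hk
      obtain ⟨c1, c2, c3⟩ := rck_sound hr
      refine ⟨?_, b⟩
      rintro rfl rfl hn _
      exact Or.inr ⟨j3, c1, c2, c3, a (hT id3 hn).2⟩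

theorem fld128_sub {t a n i : ℕ} (h : i < n) : fld128 (sub128 t a n) i = fld128 t (a + i) := by
  have hM : (340282366920938463463374607431768211455 : ℕ) = 2 ^ 128 - 1 := rfl
  unfold fld128 sub128
  show ((((t >>> (128 * a)) &&& (2 ^ (128 * n) - 1)) >>> (128 * i)) &&& 340282366920938463463374607431768211455 : ℕ) =
    (t >>> (128 * (a + i))) &&& 340282366920938463463374607431768211455
  rw [hM]
  apply Nat.eq_of_testBit_eq
  intro j
  rw [Nat.testBit_and, Nat.testBit_shiftRight, Nat.testBit_and, Nat.testBit_shiftRight,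
    Nat.testBit_and, Nat.testBit_shiftRight, Nat.testBit_two_pow_sub_one,
    Nat.testBit_two_pow_sub_one]
  by_cases hj : j < 128
  · have h1 : 128 * i + j < 128 * n := by omega
    have h2 : 128 * a + (128 * i + j) = 128 * (a + i) + j := by ring
    rw [decide_eq_true h1, h2, Bool.and_true]
  · rw [decide_eq_false hj, Bool.and_false, Bool.and_false]

theorem snd_cbody2 (hG : D.Good) {T : GTb} (hT : HT D T) {id2 Z2 H2 pa pn c : ℕ} :
    Snd (cbody2 D T id2 Z2 H2 pa pn c)
      (∀ id3, cs T c ≤ id3 → id3 < cs T c + cn T c → D.PQ T id2 Z2 H2 pa pn id3) := by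
  intro s k hk
  unfold cbody2 at hk
  rw [sq_eq, sq_eq, sq_eq, sq_eq] at hk
  obtain ⟨h1, h2⟩ := Snd.rl (fun _ => snd_pbody hG hT) _ _ s k hk
  refine ⟨?_, h2⟩
  intro id3 ha hb
  have he : Nat.add (cs T c) (id3 - cs T c) = id3 := by
    show cs T c + (id3 - cs T c) = id3
    omega
  have h3 := h1 (id3 - cs T c) (Nat.zero_le _) (by omega)
  rw [he] at h3
  refine h3 ?_ ?_
  · rw [fld128_sub (by omega)]
    congr 1
  · rw [fld128_sub (by omega)]
    congr 1

/-- the basis M is a known prefix of the pair number j -/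
def Lv (D : GDat) (T : GTb) (M : List (ℕ × ℕ)) (j : ℕ) : Prop :=
  T.dd.testBit j = true ∨ ∃ q, fld T.lo j ≤ q ∧ q < fld T.lo (j + 1) ∧ D.Rep (fld128 T.lq q) M

theorem Lv.step {T : GTb} {M G3 : List (ℕ × ℕ)} {Z3 a b t j : ℕ} (h : D.Lv T M j)
    (hL : LQ T t Z3 a b j) (h3 : D.Rep Z3 G3) (hv : D.arr.Valid (M ++ G3)) :
    ∃ r, a ≤ r ∧ r < b ∧ D.Rep (fld128 t r) (M ++ G3) := by
  rcases h with h | ⟨q, hq1, hq2, hq⟩
  · rw [hL.1] at h
    exact absurd h (by simp)
  · obtain ⟨r, hr1, hr2, hr3⟩ := hL.2 q hq1 hq2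
    refine ⟨r, hr1, hr2, ?_⟩
    rw [hr3]
    exact hq.append h3 hv

/-- a basis which does not use the column cc -/
theorem tgt_of_skip {T : GTb} {M R : List (ℕ × ℕ)} (h1 : ∀ p ∈ M, D.cc < D.N - 1 - p.2)
    (h2 : ∀ p ∈ R, D.N - 1 - p.2 < D.cc) (hc : D.cc < D.N) : D.Tgt T (M ++ R) := by
  intro h
  exfalso
  obtain ⟨p, hp, hpc⟩ := h hc
  rcases List.mem_append.mp hp with h' | h'
  · have := h1 p h'
    omega
  · have := h2 p h'
    omega

/-- the columns before the column cc -/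
theorem bfr_cols {Z2 : ℕ} {X G1 G2 : List (ℕ × ℕ)} (hr2 : D.Rep Z2 G2)
    (hv2 : D.arr.Valid G2) (h12 : G2 = [] → G1 = []) (hX : G1 = [] → X = [])
    (ha : D.arr.After X (G1 ++ G2)) (ha' : D.arr.After G1 G2)
    (h : D.bfr Z2 (D.y2f Z2) = true) :
    D.cc < D.N ∧ ∀ p ∈ X ++ (G1 ++ G2), D.cc < D.N - 1 - p.2 := by
  unfold bfr at h
  rcases h1 : Nat.blt D.cc D.N with _ | _
  · rw [h1] at h
    exact absurd h (by simp)
  have hcc : D.cc < D.N := by
    rw [Nat.blt_eq] at h1
    exact h1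
  refine ⟨hcc, ?_⟩
  rw [h1, cond_true] at h
  by_cases hn : G2 = []
  · rw [hn, h12 hn, hX (h12 hn)]
    simp
  · have hz : Z2 ≠ 0 := by
      rintro rfl
      exact hn hr2.zero_nil
    rw [beq_false' hz, cond_false, Nat.blt_eq, y2f_eq hz] at h
    obtain ⟨p, hp, hp', hp1, hp2, h3, h4, -⟩ := hr2.lo hv2 hn
    rw [h4] at h
    intro q hq
    have hqp : q.2 ≤ p.2 := by
      rcases List.mem_append.mp hq with h5 | h5
      · exact (ha q h5 p (by simp [hp])).2.1.le
      · rcases List.mem_append.mp h5 with h6 | h6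
        · exact (ha' q h6 p hp).2.1.le
        · exact (hp' q h6).2
    omega

/-- what the closure check of id2 proves -/
def Q2 (D : GDat) (T : GTb) (id2 : ℕ) : Prop := id2 < T.nn →
  ∀ j2 X G1 G2, fld T.ps id2 ≤ j2 → j2 < fld T.ps (id2 + 1) → fld16 T.pl j2 < T.nn →
    D.Rep (fld128 T.gz (fld16 T.pl j2)) G1 → D.Rep (fld128 T.gz id2) G2 → D.arr.Valid G2 →
    (G2 = [] → G1 = []) → (G1 = [] → X = []) → D.arr.Valid (X ++ (G1 ++ G2)) →
    D.arr.After X (G1 ++ G2) → D.arr.After G1 G2 → D.Lv T (X ++ (G1 ++ G2)) j2 →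
    D.Tgt T (X ++ (G1 ++ G2)) ∧
    ∀ G3, D.arr.IsGrp G3 → D.arr.Valid (X ++ (G1 ++ (G2 ++ G3))) →
      D.arr.After X (G1 ++ (G2 ++ G3)) → D.arr.After G1 G3 →
      D.arr.After G2 G3 →
      (∀ Z, D.arr.Ctx X (G1 ++ (G2 ++ G3)) Z → D.Tgt T (X ++ (G1 ++ (G2 ++ G3)) ++ Z)) ∨
      T.ne.testBit (D.clsOf G3) = false ∨
      (T.nv.testBit (D.clsOf G3) = false ∧
        ∀ id3, cs T (D.clsOf G3) ≤ id3 → id3 < cs T (D.clsOf G3) + cn T (D.clsOf G3) →
          id3 < T.nn → D.Rep (fld128 T.gz id3) G3 →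
          (∀ Z, D.arr.Ctx X (G1 ++ (G2 ++ G3)) Z → D.Tgt T (X ++ (G1 ++ (G2 ++ G3)) ++ Z)) ∨
          ∃ j3, fld T.ps id3 ≤ j3 ∧ j3 < fld T.ps (id3 + 1) ∧ fld16 T.pl j3 = id2 ∧
            D.Lv T ((X ++ G1) ++ (G2 ++ G3)) j3)

theorem snd_stp (hG : D.Good) {T : GTb} (hT : HT D T) {id2 : ℕ} :
    Snd (stp D T id2) (D.Q2 T id2) := by
  intro s k hk
  unfold stp at hk
  rw [sq_eq, sq_eq] at hk
  by_cases h0 : Nat.sub (fld T.ps (Nat.succ id2)) (fld T.ps id2) = 0
  · rw [h0] at hk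
    refine ⟨?_, s, hk⟩
    intro _ j2 X G1 G2 hj1 hj2
    exfalso
    have h0' : fld T.ps (id2 + 1) - fld T.ps id2 = 0 := h0
    omega
  · rw [beq_false' h0, cond_false, sq_eq, sq_eq, sq_eq, sq_eq] at hk
    -- the end
    obtain ⟨s1, hE1, hk1⟩ : ∃ s1, (D.bfr (fld128 T.gz id2) (D.y2f (fld128 T.gz id2)) = true ∨
        (fld128 T.gh id2 = D.hm (fld128 T.gz id2) → ∀ j, fld T.ps id2 ≤ j →
          j < fld T.ps id2 + Nat.sub (fld T.ps (Nat.succ id2)) (fld T.ps id2) →
          D.BQ1 T (fld128 T.gz id2) 0 j ∨ LQ T T.ex 0 0 T.en j)) ∧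
        rd 5 31 (fun n => exl D (fld128 T.gz id2) (fld128 T.gh id2) (D.e2f (fld128 T.gz id2))
          (D.y2f (fld128 T.gz id2)) (fin2 D T id2 (fld128 T.gz id2) (fld128 T.gh id2)
            (fld T.ps id2) (Nat.sub (fld T.ps (Nat.succ id2)) (fld T.ps id2))
            (D.e2f (fld128 T.gz id2)) (D.y2f (fld128 T.gz id2))) n 0) s1 k = true := by
      unfold ech2 at hk
      rcases hb : D.bfr (fld128 T.gz id2) (D.y2f (fld128 T.gz id2)) with _ | _
      · rw [hb, cond_false] at hk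
        obtain ⟨h1, s1, h2⟩ := snd_echk hG hT s _ hk
        exact ⟨s1, Or.inr h1, h2⟩
      · rw [hb, cond_true] at hk
        exact ⟨s, Or.inl rfl, hk⟩
    unfold rd at hk1
    simp only [sq_eq] at hk1
    obtain ⟨acc, s2, hE, hk2⟩ := exl_sound hG _ _ _ (by
      intro _ er yc _ _ h
      exact absurd h (by simp)) hk1
    unfold fin2 at hk2
    rw [sq_eq, sq_eq, sq_eq] at hk2
    rcases hnv : Nat.beq (Nat.land (Nat.xor (cond (Nat.beq (fld128 T.gz id2) 0) T.ne
        (Nat.land T.ne (D.cov (D.e2f (fld128 T.gz id2)) (D.y2f (fld128 T.gz id2)))))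
        (Nat.land (cond (Nat.beq (fld128 T.gz id2) 0) T.ne
          (Nat.land T.ne (D.cov (D.e2f (fld128 T.gz id2)) (D.y2f (fld128 T.gz id2)))))
          (cond (D.bfr (fld128 T.gz id2) (D.y2f (fld128 T.gz id2)))
            (Nat.lor acc (Nat.mul repg (Nat.sub (Nat.pow 2 D.cc) 1))) acc))) T.nv) 0 with _ | _
    · rw [hnv] at hk2
      exact absurd hk2 (by simp)
    rw [hnv, cond_true] at hk2
    obtain ⟨hP, hend⟩ := Snd.blg (fun c => snd_cbody2 hG hT (id2 := id2)
      (Z2 := fld128 T.gz id2) (H2 := fld128 T.gh id2) (pa := fld T.ps id2)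
      (pn := Nat.sub (fld T.ps (Nat.succ id2)) (fld T.ps id2)) (c := c)) 4096 _ s2 k hk2
    refine ⟨?_, hend⟩
    intro hn2 j2 X G1 G2 hj1 hj2 hid1 hr1 hr2 hv2 h12 hX hvL haX haf hlv
    have hH := (hT id2 hn2).1
    have hj2' : j2 < fld T.ps id2 + Nat.sub (fld T.ps (Nat.succ id2)) (fld T.ps id2) := by
      show j2 < fld T.ps id2 + (fld T.ps (id2 + 1) - fld T.ps id2)
      omega
    refine ⟨?_, ?_⟩
    · rcases hE1 with hb | hE1
      · obtain ⟨hc1, hc2⟩ := bfr_cols hr2 hv2 h12 hX haX haf hb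
        have := tgt_of_skip (T := T) (R := []) hc2 (by simp) hc1
        simpa using this
      · rcases hE1 hH j2 hj1 hj2' with hB | hL
        · apply Tgt.of_full
          have := hB G1 G2 [] hid1 hr1 hr2 Rep.zero h12 (by simpa using haf) X [] hX
            (fun _ => rfl) ⟨by simpa [List.append_assoc] using hvL, by
              intro p hp q hq
              exact (haX p hp q (by simpa using hq)).2.2, by
              intro q _ z hz
              simp at hz⟩
          simpa [List.append_assoc] using this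
        · obtain ⟨r, -, hr, hrep⟩ := hlv.step hL Rep.zero (by simpa using hvL)
          intro _
          right
          rw [List.append_nil] at hrep
          exact ⟨r, hr, hrep⟩
    · intro G3 hG3 hvL3 haX3 haf13 haf23
      have her : D.m - 1 - D.arr.hiR G3 < D.m := by have := hG.m_pos; omega
      have hyc : D.N - 1 - D.arr.hiC G3 < D.N := by have := hG.N_pos; omega
      obtain ⟨Z3, hr3⟩ := exists_rep hG hG3.2.1
      obtain ⟨-, -, g, hg, hg', hgm, hgN, hl1, hl2, hh1, hh2⟩ := hr3.hi hG3.2.1 hG3.1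
      have hm' := hG.m_le
      have hN' := hG.N_le
      by_cases hne : T.ne.testBit (D.clsOf G3) = true
      swap
      · right; left
        simpa using hne
      by_cases hacc : acc.testBit (D.clsOf G3) = true
      · left
        intro Z hc
        apply Tgt.of_full
        have hc' := GArr.Ctx.assoc' (M1 := G1 ++ G2) (M2 := G3) (by
          simpa [List.append_assoc] using hc) (GArr.After.append_left haf13 haf23)
        have hc2' := hc'.assoc haf
        have := hE hH _ _ her hyc hacc G2 (X ++ G1) (G3 ++ Z) g hr2 hc2'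
          (fun h => by rw [h12 h, hX (h12 h)]; rfl) ?_ hgm hgN (by rw [hh1]) (by rw [hh2])
        · simpa [List.append_assoc] using this
        · intro q hq
          rcases List.mem_append.mp hq with h | h
          · exact hg' q h
          · have := hc.1.append.2.2 g (by simp [hg]) q h
            exact ⟨this.1.le, this.2.le⟩
      by_cases hsk : D.bfr (fld128 T.gz id2) (D.y2f (fld128 T.gz id2)) = true ∧
          D.N - 1 - D.arr.hiC G3 < D.cc
      · left
        intro Z hc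
        obtain ⟨hb, hlt⟩ := hsk
        obtain ⟨hc1, hc2⟩ := bfr_cols hr2 hv2 h12 hX haX haf hb
        have := tgt_of_skip (T := T) (M := X ++ (G1 ++ G2)) (R := G3 ++ Z) hc2 ?_ hc1
        · simpa [List.append_assoc] using this
        · intro q hq
          have hgq : g.2 ≤ q.2 := by
            rcases List.mem_append.mp hq with h | h
            · exact (hg' q h).2
            · exact (hc.1.append.2.2 g (by simp [hg]) q h).2.le
          omega
      right; right
      have haft : (cond (Nat.beq (fld128 T.gz id2) 0) T.ne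
          (Nat.land T.ne (D.cov (D.e2f (fld128 T.gz id2)) (D.y2f (fld128 T.gz id2))))).testBit
          (D.clsOf G3) = true := by
        by_cases hz : fld128 T.gz id2 = 0
        · rw [hz]
          exact hne
        · rw [beq_false' hz, cond_false]
          show (_ &&& _ : ℕ).testBit _ = true
          rw [Nat.testBit_and, hne, Bool.true_and]
          have hn2 : G2 ≠ [] := by
            intro h
            exact hz (h ▸ hr2).nil_zero
          obtain ⟨p, hp, hp', hp1, hp2, h3, h4, -⟩ := hr2.lo hv2 hn2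
          rw [e2f_eq hz, y2f_eq hz, h3, h4]
          unfold clsOf
          rw [cov_iff hG (by omega) (by omega) her hyc]
          have ha := haf23 p hp g hg
          refine ⟨by omega, by omega, ?_⟩
          intro hcon
          apply ha.2.2
          show D.bid (D.m - 1 - p.1) (D.N - 1 - p.2) = D.bid (D.m - 1 - g.1) (D.N - 1 - g.2)
          rw [← hcon, hh1, hh2]
      have hacc' : (cond (D.bfr (fld128 T.gz id2) (D.y2f (fld128 T.gz id2)))
          (Nat.lor acc (Nat.mul repg (Nat.sub (Nat.pow 2 D.cc) 1))) acc).testBit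
          (D.clsOf G3) = false := by
        simp only [Bool.not_eq_true] at hacc
        rcases hb : D.bfr (fld128 T.gz id2) (D.y2f (fld128 T.gz id2)) with _ | _
        · exact hacc
        · rw [cond_true]
          show (acc ||| (repg * (2 ^ D.cc - 1))).testBit (D.clsOf G3) = false
          rw [Nat.testBit_or, hacc, Bool.false_or]
          have hcc : D.cc < D.N := by
            unfold bfr at hb
            rcases h1 : Nat.blt D.cc D.N with _ | _
            · rw [h1] at hb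
              exact absurd hb (by simp)
            · rw [Nat.blt_eq] at h1
              exact h1
          unfold clsOf
          rw [repg_eq, grep_mul_testBit (by omega) _ _ _ (by omega), Bool.and_eq_false_iff]
          right
          rw [decide_eq_false_iff_not]
          intro hlt
          exact hsk ⟨hb, hlt⟩
      have hrem : (Nat.xor (cond (Nat.beq (fld128 T.gz id2) 0) T.ne
          (Nat.land T.ne (D.cov (D.e2f (fld128 T.gz id2)) (D.y2f (fld128 T.gz id2)))))
          (Nat.land (cond (Nat.beq (fld128 T.gz id2) 0) T.ne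
            (Nat.land T.ne (D.cov (D.e2f (fld128 T.gz id2)) (D.y2f (fld128 T.gz id2)))))
            (cond (D.bfr (fld128 T.gz id2) (D.y2f (fld128 T.gz id2)))
              (Nat.lor acc (Nat.mul repg (Nat.sub (Nat.pow 2 D.cc) 1))) acc))).testBit
          (D.clsOf G3) = true := by
        show (_ ^^^ (_ &&& _) : ℕ).testBit _ = true
        rw [Nat.testBit_xor, Nat.testBit_and, haft, hacc']
        rfl
      refine ⟨?_, ?_⟩
      · have h1 := Nat.eq_of_beq_eq_true hnv
        have h2 := congrArg (fun x => Nat.testBit x (D.clsOf G3)) h1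
        have h3 : ((Nat.xor _ _ : ℕ) &&& T.nv).testBit (D.clsOf G3) =
          Nat.testBit 0 (D.clsOf G3) := h2
        rw [Nat.testBit_and, hrem, Bool.true_and, Nat.zero_testBit] at h3
        exact h3
      · intro id3 hc1 hc2 hn3 hr3'
        rcases hP (D.clsOf G3) hrem id3 hc1 hc2 hn3 hH with hB | ⟨j3, a1, a2, a3, a4⟩
        · left
          intro Z hc
          apply Tgt.of_full
          have := hB j2 hj1 hj2' G1 G2 G3 hid1 hr1 hr2 hr3' h12 (GArr.After.append haf haf13) X Z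
            hX (fun h => absurd h hG3.1) (by simpa [List.append_assoc] using hc)
          simpa [List.append_assoc] using this
        · rcases a4 with a4 | a4
          · exact Or.inr ⟨j3, a1, a2, a3, Or.inl a4⟩
          · rcases a4 j2 hj1 hj2' with hB | hL
            · left
              intro Z hc
              apply Tgt.of_full
              have := hB G1 G2 G3 hid1 hr1 hr2 hr3' h12 (GArr.After.append haf haf13) X Z
                hX (fun h => absurd h hG3.1) (by simpa [List.append_assoc] using hc)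
              simpa [List.append_assoc] using this
            · obtain ⟨r, hr1', hr2', hrep⟩ := hlv.step hL hr3' (by
                simpa [List.append_assoc] using hvL3)
              refine Or.inr ⟨j3, a1, a2, a3, Or.inr ⟨r, hr1', hr2', ?_⟩⟩
              simpa [List.append_assoc] using hrep

/-- loop over the groups id, ..., id+n-1 -/
def clo (D : GDat) (T : GTb) (n id : ℕ) : Chk := rl (stp D T) n id

theorem snd_clo (hG : D.Good) {T : GTb} (hT : HT D T) {n id : ℕ} :
    Snd (clo D T n id) (∀ j, id ≤ j → j < id + n → D.Q2 T j) :=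
  Snd.rl (fun _ => snd_stp hG hT) _ _

/-- force the data -/
def frc (D : GDat) (T : GTb) (f : GDat → GTb → Bool) : Bool :=
  sq D.m fun m => sq D.N fun N => sq D.nb fun nb => sq D.pt fun pt => sq D.bt fun bt =>
  sq D.tab fun tab => sq D.al fun al => sq D.ng fun ng => sq D.cc fun cc =>
  sq T.gz fun gz => sq T.gh fun gh => sq T.gl fun gl => sq T.ct fun ct => sq T.ne fun ne =>
  sq T.nv fun nv => sq T.ps fun ps => sq T.pl fun pl => sq T.nn fun nn => sq T.dd fun dd =>
  sq T.lo fun lo => sq T.lq fun lq => sq T.ex fun ex => sq T.en fun en =>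
  f ⟨m, N, nb, pt, bt, tab, al, ng, cc⟩ ⟨gz, gh, gl, ct, ne, nv, ps, pl, nn, dd, lo, lq, ex, en⟩

theorem frc_eq (D : GDat) (T : GTb) (f : GDat → GTb → Bool) : frc D T f = f D T := by
  unfold frc
  simp only [sq_eq]

/-- the check of classes, in kernel form -/
def kcrow (D : GDat) (T : GTb) (n er s : ℕ) : Bool :=
  frc D T fun D T => crow D T n er s (fun _ => true)

/-- the check of windows, in kernel form -/
def kwck (D : GDat) (T : GTb) (n id : ℕ) : Bool :=
  frc D T fun D T => wck D T n id 0 (fun _ => true)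

/-- the closure check, in kernel form -/
def kclo (D : GDat) (T : GTb) (n id s : ℕ) : Bool :=
  frc D T fun D T => clo D T n id s (fun _ => true)

theorem of_kcrow (hG : D.Good) {T : GTb} {n er s : ℕ} (h : kcrow D T n er s = true) :
    ∀ e, er ≤ e → e < er + n → ∀ y, y < D.N → T.nv.testBit (128 * e + y) = false →
      D.QC T e y := by
  unfold kcrow at h
  rw [frc_eq] at h
  intro e h1 h2 y hy
  exact (snd_crow hG _ _ h).1 e h1 h2 y (Nat.zero_le _) (by omega)

theorem of_kwck {T : GTb} {n id : ℕ} (h : kwck D T n id = true) :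
    ∀ j, id ≤ j → j < id + n → HTi D T j := by
  unfold kwck at h
  rw [frc_eq] at h
  exact (snd_wck _ _ h).1

theorem of_kclo (hG : D.Good) {T : GTb} (hT : HT D T) {n id s : ℕ}
    (h : kclo D T n id s = true) : ∀ j, id ≤ j → j < id + n → D.Q2 T j := by
  unfold kclo at h
  rw [frc_eq] at h
  exact (snd_clo hG hT _ _ h).1

/-- the pair of the empty group with itself -/
def st0 (T : GTb) : Prop := fld T.ps 0 = 0 ∧ 0 < fld T.ps 1 ∧ fld16 T.pl 0 = 0 ∧
  (T.dd.testBit 0 = true ∨ (fld T.lo 0 = 0 ∧ 0 < fld T.lo 1 ∧ fld128 T.lq 0 = 0))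

/-- **Main theorem of the checker.** -/
theorem all_full (hG : D.Good) {T : GTb} (hpos : 0 < T.nn) (h00 : st0 T)
    (hz : fld128 T.gz 0 = 0) (hnv : ∀ c, T.nv.testBit c = true → T.ne.testBit c = true)
    (hQC : ∀ er, er < D.m → ∀ yc, yc < D.N → T.nv.testBit (128 * er + yc) = false →
      D.QC T er yc) (hQ2 : ∀ id, id < T.nn → D.Q2 T id) :
    ∀ L, D.arr.Valid L → D.Free L → D.Tgt T L := by
  have hcomp : ∀ G, D.arr.IsGrp G → D.Free G → T.nv.testBit (D.clsOf G) = false → D.CB T G ∨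
      (T.ne.testBit (D.clsOf G) = true ∧ cs T (D.clsOf G) + cn T (D.clsOf G) ≤ T.nn ∧
        D.InT T (D.clsOf G) G) := by
    intro G hGr hfree hv
    obtain ⟨Z, hrep⟩ := exists_rep hG hGr.2.1
    obtain ⟨-, -, p, hp, hp', hpm, hpN, hl1, hl2, hp3, hp4⟩ := hrep.hi hGr.2.1 hGr.1
    have her : D.m - 1 - D.arr.hiR G < D.m := by have := hG.m_pos; omega
    have hyc : D.N - 1 - D.arr.hiC G < D.N := by have := hG.N_pos; omega
    obtain ⟨h1, h2⟩ := hQC _ her _ hyc hv
    rcases h2 G hGr hfree (by omega) (by omega) her hyc with h | h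
    · exact Or.inl h
    · right
      obtain ⟨a, b⟩ := h1 (by
        obtain ⟨id, ha, hb, -⟩ := h
        omega)
      exact ⟨a, b, h⟩
  have hAf : ∀ G, D.arr.After [] G := by
    intro G p hp
    simp at hp
  have hR0 : D.Rep (fld128 T.gz 0) [] := by
    rw [hz]
    exact Rep.zero
  have hv0 : D.arr.Valid [] := ⟨GArr.Inc.nil, by simp⟩
  obtain ⟨s1, s2, s3, s4⟩ := h00
  have hlv0 : D.Lv T ([] ++ ([] ++ [])) 0 := by
    rcases s4 with s4 | ⟨s4, s5, s6⟩
    · exact Or.inl s4
    · refine Or.inr ⟨0, by omega, s5, ?_⟩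
      rw [s6]
      exact Rep.zero
  have h0 := hQ2 0 hpos hpos 0 [] [] [] (by omega) s2 (by rw [s3]; exact hpos)
    (by rw [s3]; exact hR0) hR0 hv0 (fun _ => rfl) (fun _ => rfl) hv0 (hAf _) (hAf _) hlv0
  have hcomb : ∀ X G1 G2 G3 id2, D.arr.IsGrp G3 → D.Free G3 →
      D.arr.After X (G1 ++ (G2 ++ G3)) → D.arr.After G1 G3 → D.arr.After G2 G3 →
      ((∀ Z, D.arr.Ctx X (G1 ++ (G2 ++ G3)) Z → D.Tgt T (X ++ (G1 ++ (G2 ++ G3)) ++ Z)) ∨
      T.ne.testBit (D.clsOf G3) = false ∨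
      (T.nv.testBit (D.clsOf G3) = false ∧
        ∀ id3, cs T (D.clsOf G3) ≤ id3 → id3 < cs T (D.clsOf G3) + cn T (D.clsOf G3) →
          id3 < T.nn → D.Rep (fld128 T.gz id3) G3 →
          (∀ Z, D.arr.Ctx X (G1 ++ (G2 ++ G3)) Z → D.Tgt T (X ++ (G1 ++ (G2 ++ G3)) ++ Z)) ∨
          ∃ j3, fld T.ps id3 ≤ j3 ∧ j3 < fld T.ps (id3 + 1) ∧ fld16 T.pl j3 = id2 ∧
            D.Lv T ((X ++ G1) ++ (G2 ++ G3)) j3)) →
      (∀ Z, D.arr.Ctx X (G1 ++ (G2 ++ G3)) Z → D.Tgt T (X ++ (G1 ++ (G2 ++ G3)) ++ Z)) ∨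
      ∃ id3 j3, id3 < T.nn ∧ D.Rep (fld128 T.gz id3) G3 ∧ fld T.ps id3 ≤ j3 ∧
        j3 < fld T.ps (id3 + 1) ∧ fld16 T.pl j3 = id2 ∧ D.Lv T ((X ++ G1) ++ (G2 ++ G3)) j3 := by
    intro X G1 G2 G3 id2 hG3 hf3 haX ha13 ha23 h
    have hcb : D.CB T G3 → ∀ Z, D.arr.Ctx X (G1 ++ (G2 ++ G3)) Z →
        D.Tgt T (X ++ (G1 ++ (G2 ++ G3)) ++ Z) := by
      intro hcb Z hc
      have hc' : D.arr.Ctx X ((G1 ++ G2) ++ G3) Z := by simpa [List.append_assoc] using hc
      have := hcb _ Z (hc'.assoc (GArr.After.append_left ha13 ha23))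
      simpa [List.append_assoc] using this
    rcases h with h | h | ⟨hv, h⟩
    · exact Or.inl h
    · left
      have hv : T.nv.testBit (D.clsOf G3) = false := by
        by_contra hc
        simp only [Bool.not_eq_false] at hc
        rw [hnv _ hc] at h
        exact absurd h (by simp)
      rcases hcomp G3 hG3 hf3 hv with h1 | ⟨h1, -⟩
      · exact hcb h1
      · rw [h] at h1
        exact absurd h1 (by simp)
    · rcases hcomp G3 hG3 hf3 hv with h1 | ⟨-, hle, id, ha, hb, hrep⟩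
      · exact Or.inl (hcb h1)
      · rcases h id ha hb (by omega) hrep with h2 | ⟨j3, b1, b2, b3, b4⟩
        · exact Or.inl h2
        · exact Or.inr ⟨id, j3, by omega, hrep, b1, b2, b3, b4⟩
  refine GArr.all_P (wf hG) (fun p => D.ng.testBit (D.N - 1 - p.2) = false) (D.Tgt T)
    (fun X G1 G2 => ∃ id2 j2, id2 < T.nn ∧ fld T.ps id2 ≤ j2 ∧ j2 < fld T.ps (id2 + 1) ∧
      fld16 T.pl j2 < T.nn ∧ D.Rep (fld128 T.gz (fld16 T.pl j2)) G1 ∧
      D.Rep (fld128 T.gz id2) G2 ∧ D.Lv T (X ++ (G1 ++ G2)) j2) ?_ ?_ ?_ ?_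
  · simpa using h0.1
  · intro G hGr hfree
    have h1 := hcomb [] [] [] G 0 hGr hfree (hAf _) (hAf _) (hAf _)
      (h0.2 G hGr (by simpa using hGr.2.1) (hAf _) (hAf _) (hAf _))
    rcases h1 with h1 | ⟨id3, j3, c1, c2, c3, c4, c5, c6⟩
    · left
      intro Z hc
      have := h1 Z (by simpa using hc)
      simpa using this
    · right
      refine ⟨id3, j3, c1, c3, c4, by rw [c5]; exact hpos, by rw [c5]; exact hR0, c2, ?_⟩
      simpa using c6
  · rintro X G1 G2 G3 ⟨id2, j2, c1, c2, c3, c4, c5, c6, c7⟩ hX hG1 hG2 hG3 hf3 hv haX ha12 ha23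
      ha13
    have haX2 : D.arr.After X (G1 ++ G2) := by
      intro p hp q hq
      exact haX p hp q (by
        rcases List.mem_append.mp hq with h | h
        · simp [h]
        · simp [h])
    have hv2 : D.arr.Valid (X ++ (G1 ++ G2)) := by
      have : D.arr.Valid ((X ++ (G1 ++ G2)) ++ G3) := by
        simpa [List.append_assoc] using hv
      exact this.append.1
    have h1 := (hQ2 id2 c1 c1 j2 X G1 G2 c2 c3 c4 c5 c6 hG2.2.1 (fun h => absurd h hG2.1) hX hv2
      haX2 ha12 c7).2 G3 hG3 hv haX ha13 ha23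
    rcases hcomb X G1 G2 G3 id2 hG3 hf3 haX ha13 ha23 h1 with h2 |
      ⟨id3, j3, d1, d2, d3, d4, d5, d6⟩
    · exact Or.inl h2
    · exact Or.inr ⟨id3, j3, d1, d3, d4, by rw [d5]; exact c1, by rw [d5]; exact c6, d2, d6⟩
  · rintro X G1 G2 ⟨id2, j2, c1, c2, c3, c4, c5, c6, c7⟩ hX hG1 hG2 hv haX ha12
    exact (hQ2 id2 c1 c1 j2 X G1 G2 c2 c3 c4 c5 c6 hG2.2.1 (fun h => absurd h hG2.1) hX hv
      haX ha12 c7).1

end GDat

end Pool.Agent.Simplex
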