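import Pool.Agent.Work.MP_f99e36_co.GChk7

/-!
Kernel-friendly checker for bases that use every one of the last six blocks of columns: only the
part in these blocks is examined, with window tests inside this part.
-/

set_option autoImplicit false

namespace Pool.Agent.Simplex

namespace GDat

/-- classes before the previous block of columns -/
def dmask (y2 : ℕ) : ℕ :=
  Nat.mul repg (Nat.sub (Nat.pow 2 (Nat.sub (Nat.mul 4 (Nat.div y2 4)) 4)) 1)

/-- blocked; st = true: nothing is known about the preceding group -/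
def dbl (D : GDat) (T : GTb) (st : Bool) (Z2 H2 pa pn Z3 L3 : ℕ) : Chk :=
  cond st (rd 28 268435455 (fun h => ckb (D.tst (Nat.lor Z2 Z3) (Nat.land H2 L3) h)))
    (bchk D T Z2 H2 pa pn Z3 L3)

/-- check of the group id3 after id2 -/
def dpair (D : GDat) (T : GTb) (st : Bool) (id2 Z2 H2 pa pn id3 Z3 L3 : ℕ) : Chk :=
  rd 1 1 (fun md => cond (Nat.beq md 0)
    (fun s k => sq Z3 fun Z3 => sq L3 fun L3 => dbl D T st Z2 H2 pa pn Z3 L3 s k)
    (rd 24 16777215 (fun j3 => fun s k => cond (rck T id2 id3 j3) (k s) false)))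

/-- check of a class after id2 -/
def dcls (D : GDat) (T : GTb) (st : Bool) (id2 Z2 H2 pa pn c : ℕ) : Chk := fun s k =>
  sq (cs T c) fun a => sq (cn T c) fun n =>
  sq (sub128 T.gz a n) fun gz => sq (sub128 T.gl a n) fun gl =>
  rl (fun i => dpair D T st id2 Z2 H2 pa pn (Nat.add a i) (fld128 gz i) (fld128 gl i)) n 0 s k

/-- check of all classes after id2 -/
def dfin (D : GDat) (T : GTb) (id2 Z2 H2 pa pn e2 y2 : ℕ) : Chk := fun s k =>
  cond (Nat.ble 4 y2)
    (sq (Nat.land T.ne (D.cov e2 y2)) fun aft =>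
      sq (Nat.xor aft (Nat.land aft (dmask y2))) fun rem =>
      blg (dcls D T (Nat.ble 20 y2) id2 Z2 H2 pa pn) 4096 rem s k) false

/-- the check of the group id2 -/
def dstp (D : GDat) (T : GTb) (id2 : ℕ) : Chk := fun s k =>
  sq (fld T.ps id2) fun pa => sq (Nat.sub (fld T.ps (Nat.succ id2)) pa) fun pn =>
  sq (fld128 T.gz id2) fun Z2 => sq (fld128 T.gh id2) fun H2 =>
  sq (lob (Nat.land Z2 4294967295)) fun e2 => sq (lob (Nat.shiftRight Z2 32)) fun y2 =>
  cond (cond (Nat.beq pn 0) (Nat.blt y2 20) false) (k s)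
    (dfin D T id2 Z2 H2 pa pn e2 y2 s k)

variable {D : GDat}

/-- every basis containing G2, G3 after X is blocked -/
def FullA (D : GDat) (X G2 G3 : List (ℕ × ℕ)) : Prop :=
  ∀ Z, D.arr.Ctx X (G2 ++ G3) Z → D.arr.Full (X ++ (G2 ++ G3) ++ Z)

/-- what the check of a pair proves -/
def DP (D : GDat) (T : GTb) (st : Bool) (id2 Z2 H2 pa pn id3 : ℕ) : Prop :=
  id3 < T.nn → H2 = D.hm Z2 →
    ((st = true ∧ ∀ X G2 G3, D.Rep Z2 G2 → D.Rep (fld128 T.gz id3) G3 → G2 ≠ [] → G3 ≠ [] →
        D.FullA X G2 G3) ∨ (st = false ∧ D.BQ T Z2 pa pn (fld128 T.gz id3))) ∨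
    ∃ j3, fld T.ps id3 ≤ j3 ∧ j3 < fld T.ps (id3 + 1) ∧ fld16 T.pl j3 = id2

theorem snd_dbl (hG : D.Good) {T : GTb} (hT : HT D T) {st : Bool} {Z2 H2 pa pn Z3 L3 : ℕ} :
    Snd (dbl D T st Z2 H2 pa pn Z3 L3) (H2 = D.hm Z2 → L3 = lm Z3 →
      (st = true ∧ ∀ X G2 G3, D.Rep Z2 G2 → D.Rep Z3 G3 → G2 ≠ [] → G3 ≠ [] →
        D.FullA X G2 G3) ∨ (st = false ∧ D.BQ T Z2 pa pn Z3)) := by
  cases st with
  | false =>
    intro s k hk
    obtain ⟨a, b⟩ := snd_bchk hG hT s k hk
    exact ⟨fun hH hL => Or.inr ⟨rfl, a hH hL⟩, b⟩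
  | true =>
    have e : dbl D T true Z2 H2 pa pn Z3 L3 = rd 28 268435455
      (fun h => ckb (D.tst (Nat.lor Z2 Z3) (Nat.land H2 L3) h)) := rfl
    rw [e]
    apply Snd.rd
    intro h
    apply Snd.ckb
    intro ht hH hL
    left
    refine ⟨rfl, ?_⟩
    intro X G2 G3 h2 h3 hn2 hn3 Z hc
    subst hH
    subst hL
    have hv := hc.1.append.1.append.2.1
    have := full_of_win hG hc (F := G2) (L := G3) h2 h3 ⟨G3, rfl⟩ ⟨G2, rfl⟩
      (fun h => absurd h hn2) (fun h => absurd h hn3)
      (fun h => absurd h hn2) (h2.append h3 hv) ht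
    exact this

theorem snd_dpair (hG : D.Good) {T : GTb} (hT : HT D T) {st : Bool}
    {id2 Z2 H2 pa pn id3 Z3 L3 : ℕ} :
    Snd (dpair D T st id2 Z2 H2 pa pn id3 Z3 L3) (Z3 = fld128 T.gz id3 → L3 = fld128 T.gl id3 →
      D.DP T st id2 Z2 H2 pa pn id3) := by
  apply Snd.rd
  intro md
  apply Snd.cnd
  · intro _ s k hk
    beta_reduce at hk
    rw [sq_eq, sq_eq] at hk
    obtain ⟨a, b⟩ := snd_dbl hG hT s k hk
    refine ⟨?_, b⟩
    rintro rfl rfl hn hH
    exact Or.inl (a hH (hT id3 hn).2)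
  · intro _
    apply Snd.rd
    intro j3 s k hk
    beta_reduce at hk
    rcases hr : rck T id2 id3 j3 with _ | _
    · rw [hr] at hk
      exact absurd hk (by simp)
    · rw [hr, cond_true] at hk
      obtain ⟨c1, c2, c3⟩ := rck_sound hr
      exact ⟨fun _ _ _ _ => Or.inr ⟨j3, c1, c2, c3⟩, s, hk⟩

theorem snd_dcls (hG : D.Good) {T : GTb} (hT : HT D T) {st : Bool} {id2 Z2 H2 pa pn c : ℕ} :
    Snd (dcls D T st id2 Z2 H2 pa pn c)
      (∀ id3, cs T c ≤ id3 → id3 < cs T c + cn T c → D.DP T st id2 Z2 H2 pa pn id3) := by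
  intro s k hk
  unfold dcls at hk
  rw [sq_eq, sq_eq, sq_eq, sq_eq] at hk
  obtain ⟨h1, h2⟩ := Snd.rl (fun _ => snd_dpair hG hT) _ _ s k hk
  refine ⟨?_, h2⟩
  intro id3 ha hb
  have he : Nat.add (cs T c) (id3 - cs T c) = id3 := by
    show cs T c + (id3 - cs T c) = id3
    omega
  have h3 := h1 (id3 - cs T c) (Nat.zero_le _) (by omega)
  rw [he] at h3
  refine h3 ?_ ?_
  · rw [fld128_sub (by omega)]
    congr 1
  · rw [fld128_sub (by omega)]
    congr 1

/-- the group G2 after X is reached with the id id2 -/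
def Rch (D : GDat) (T : GTb) (id2 : ℕ) (X G2 : List (ℕ × ℕ)) : Prop :=
  D.Rep (fld128 T.gz id2) G2 ∧ (20 ≤ lob (fld128 T.gz id2 / 4294967296) ∨
    ∃ j2 X' G1, X = X' ++ G1 ∧ fld T.ps id2 ≤ j2 ∧ j2 < fld T.ps (id2 + 1) ∧
      fld16 T.pl j2 < T.nn ∧ D.Rep (fld128 T.gz (fld16 T.pl j2)) G1 ∧ G1 ≠ [] ∧
      D.arr.After X' G1 ∧ D.arr.After G1 G2)

/-- what the check of the group id2 proves -/
def DQ (D : GDat) (T : GTb) (id2 : ℕ) : Prop := id2 < T.nn → ∀ X G2, D.arr.IsGrp G2 →
  D.Rch T id2 X G2 → 4 ≤ lob (fld128 T.gz id2 / 4294967296) ∧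
  ∀ G3, D.arr.IsGrp G3 → D.arr.After G2 G3 →
    4 * (lob (fld128 T.gz id2 / 4294967296) / 4) - 4 ≤ D.N - 1 - D.arr.hiC G3 →
    T.ne.testBit (D.clsOf G3) = false ∨
    ∀ id3, cs T (D.clsOf G3) ≤ id3 → id3 < cs T (D.clsOf G3) + cn T (D.clsOf G3) →
      id3 < T.nn → D.Rep (fld128 T.gz id3) G3 →
      D.FullA X G2 G3 ∨ ∃ j3, fld T.ps id3 ≤ j3 ∧ j3 < fld T.ps (id3 + 1) ∧ fld16 T.pl j3 = id2

theorem after_of_ctx {X G Z : List (ℕ × ℕ)} (h : D.arr.Ctx X G Z) : D.arr.After G Z := by
  intro p hp q hq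
  have := h.1.append.2.2 p (by simp [hp]) q hq
  exact ⟨this.1, this.2, h.2.2 p hp q hq⟩

theorem after_of_ctx' {X G Z : List (ℕ × ℕ)} (h : D.arr.Ctx X G Z) : D.arr.After X G := by
  intro p hp q hq
  have := h.1.append.1.append.2.2 p hp q hq
  exact ⟨this.1, this.2, h.2.1 p hp q hq⟩

theorem snd_dstp (hG : D.Good) {T : GTb} (hT : HT D T) {id2 : ℕ} :
    Snd (dstp D T id2) (D.DQ T id2) := by
  intro s k hk
  unfold dstp at hk
  rw [sq_eq, sq_eq, sq_eq, sq_eq, sq_eq, sq_eq, land_low, shift_high] at hk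
  rcases h0 : cond (Nat.beq (Nat.sub (fld T.ps (Nat.succ id2)) (fld T.ps id2)) 0)
      (Nat.blt (lob (fld128 T.gz id2 / 4294967296)) 20) false with _ | _
  swap
  · rw [h0, cond_true] at hk
    refine ⟨?_, s, hk⟩
    intro _ X G2 _ hr
    exfalso
    by_cases h1 : Nat.sub (fld T.ps (Nat.succ id2)) (fld T.ps id2) = 0
    · rw [h1] at h0
      have h2 : Nat.blt (lob (fld128 T.gz id2 / 4294967296)) 20 = true := h0
      rw [Nat.blt_eq] at h2
      rcases hr.2 with h3 | ⟨j2, X', G1, -, h3, h4, -⟩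
      · omega
      · have h1' : fld T.ps (id2 + 1) - fld T.ps id2 = 0 := h1
        omega
    · rw [beq_false' h1] at h0
      exact absurd h0 (by simp)
  rw [h0, cond_false] at hk
  unfold dfin at hk
  rcases h4 : Nat.ble 4 (lob (fld128 T.gz id2 / 4294967296)) with _ | _
  · rw [h4] at hk
    exact absurd hk (by simp)
  rw [h4, cond_true, sq_eq, sq_eq] at hk
  obtain ⟨hP, hend⟩ := Snd.blg (fun c => snd_dcls hG hT (id2 := id2)
    (st := Nat.ble 20 (lob (fld128 T.gz id2 / 4294967296)))
    (Z2 := fld128 T.gz id2) (H2 := fld128 T.gh id2) (pa := fld T.ps id2)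
    (pn := Nat.sub (fld T.ps (Nat.succ id2)) (fld T.ps id2)) (c := c)) 4096 _ s k hk
  refine ⟨?_, hend⟩
  intro hn2 X G2 hG2 hr
  refine ⟨Nat.le_of_ble_eq_true h4, ?_⟩
  intro G3 hG3 haf hdn
  have hH := (hT id2 hn2).1
  have her : D.m - 1 - D.arr.hiR G3 < D.m := by have := hG.m_pos; omega
  have hyc : D.N - 1 - D.arr.hiC G3 < D.N := by have := hG.N_pos; omega
  obtain ⟨Z3, hr3⟩ := exists_rep hG hG3.2.1
  obtain ⟨-, -, g, hg, hg', hgm, hgN, hl1, hl2, hh1, hh2⟩ := hr3.hi hG3.2.1 hG3.1
  have hm' := hG.m_le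
  have hN' := hG.N_le
  by_cases hne : T.ne.testBit (D.clsOf G3) = true
  swap
  · left
    simpa using hne
  right
  obtain ⟨p, hp, hp', hp1, hp2, h3, h5, -⟩ := hr.1.lo hG2.2.1 hG2.1
  have hrem : (Nat.xor (Nat.land T.ne (D.cov (lob (fld128 T.gz id2 % 4294967296))
      (lob (fld128 T.gz id2 / 4294967296))))
      (Nat.land (Nat.land T.ne (D.cov (lob (fld128 T.gz id2 % 4294967296))
        (lob (fld128 T.gz id2 / 4294967296))))
        (dmask (lob (fld128 T.gz id2 / 4294967296))))).testBit (D.clsOf G3) = true := by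
    have haft : (Nat.land T.ne (D.cov (lob (fld128 T.gz id2 % 4294967296))
        (lob (fld128 T.gz id2 / 4294967296)))).testBit (D.clsOf G3) = true := by
      show (_ &&& _ : ℕ).testBit _ = true
      rw [Nat.testBit_and, hne, Bool.true_and]
      rw [h3, h5]
      unfold clsOf
      rw [cov_iff hG (by omega) (by omega) her hyc]
      have ha := haf p hp g hg
      refine ⟨by omega, by omega, ?_⟩
      intro hcon
      apply ha.2.2
      show D.bid (D.m - 1 - p.1) (D.N - 1 - p.2) = D.bid (D.m - 1 - g.1) (D.N - 1 - g.2)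
      rw [← hcon, hh1, hh2]
    have hdm : (dmask (lob (fld128 T.gz id2 / 4294967296))).testBit (D.clsOf G3) = false := by
      unfold dmask
      show (repg * (2 ^ (4 * (lob (fld128 T.gz id2 / 4294967296) / 4) - 4) - 1)).testBit
        (D.clsOf G3) = false
      unfold clsOf
      rw [repg_eq, grep_mul_testBit (by omega) _ _ _ (by omega), Bool.and_eq_false_iff]
      right
      rw [decide_eq_false_iff_not]
      omega
    show (_ ^^^ (_ &&& _) : ℕ).testBit _ = true
    rw [Nat.testBit_xor, Nat.testBit_and, haft, hdm]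
    rfl
  intro id3 hc1 hc2 hn3 hr3'
  rcases hP (D.clsOf G3) hrem id3 hc1 hc2 hn3 hH with (⟨hst, hB⟩ | ⟨hst, hB⟩) | hj
  · exact Or.inl (hB X G2 G3 hr.1 hr3' hG2.1 hG3.1)
  · left
    rcases hr.2 with h20 | ⟨j2, X', G1, hX, hj1, hj2, hid1, hr1, hn1, haX', haf12⟩
    · exfalso
      have : Nat.ble 20 (lob (fld128 T.gz id2 / 4294967296)) = true :=
        Nat.ble_eq_true_of_le h20
      rw [this] at hst
      exact absurd hst (by simp)
    · intro Z hc
      have haf13 : D.arr.After G1 G3 := GArr.After.trans (wf hG) haf12 haf hG2.1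
      have hj2' : j2 < fld T.ps id2 + Nat.sub (fld T.ps (Nat.succ id2)) (fld T.ps id2) := by
        show j2 < fld T.ps id2 + (fld T.ps (id2 + 1) - fld T.ps id2)
        omega
      have hafZ := after_of_ctx hc
      have haXM := after_of_ctx' hc
      subst hX
      have haf1Z : D.arr.After G1 Z := by
        have hGZ : D.arr.After G2 Z := fun p hp q hq => hafZ p (by simp [hp]) q hq
        exact GArr.After.trans (wf hG) haf12 hGZ hG2.1
      have hc' : D.arr.Ctx X' (G1 ++ (G2 ++ G3)) Z := by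
        refine ⟨by simpa [List.append_assoc] using hc.1, ?_, ?_⟩
        · intro p hp q hq
          rcases List.mem_append.mp hq with h | h
          · exact (haX' p hp q h).2.2
          · exact (haXM p (by simp [hp]) q h).2.2
        · intro q hq z hz
          rcases List.mem_append.mp hq with h | h
          · exact (haf1Z q h z hz).2.2
          · exact (hafZ q h z hz).2.2
      have := hB j2 hj1 hj2' G1 G2 G3 hid1 hr1 hr.1 hr3' (fun h => absurd h hG2.1)
        (GArr.After.append haf12 haf13) X' Z (fun h => absurd h hn1)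
        (fun h => absurd h hG3.1) (by simpa [List.append_assoc] using hc')
      simpa [List.append_assoc] using this
  · exact Or.inr hj

/-- loop over the groups id, ..., id+n-1 -/
def dclo (D : GDat) (T : GTb) (n id : ℕ) : Chk := rl (dstp D T) n id

/-- the check, in kernel form -/
def kdclo (D : GDat) (T : GTb) (n id s : ℕ) : Bool :=
  frc D T fun D T => dclo D T n id s (fun _ => true)

theorem of_kdclo (hG : D.Good) {T : GTb} (hT : HT D T) {n id s : ℕ}
    (h : kdclo D T n id s = true) : ∀ j, id ≤ j → j < id + n → D.DQ T j := by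
  unfold kdclo at h
  rw [frc_eq] at h
  exact (Snd.rl (fun _ => snd_dstp hG hT) _ _ _ _ h).1

/-- **Main theorem.**  A basis that uses each of the last six blocks of columns and an earlier
column is blocked. -/
theorem dense_all (hG : D.Good) {T : GTb} (hen : T.en = 0) (hcc : D.N ≤ D.cc) (hng : D.ng = 0)
    (hm : D.m = 12) (hN : D.N = 68)
    (hbid : ∀ e, e < 12 → ∀ y, y < 68 → D.bid e y = 17 * ((11 - e) / 4) + (67 - y) / 4)
    (hQC : ∀ er, er < 11 → ∀ yc, yc < 24 → D.QC T er yc)
    (hDQ : ∀ id, id < T.nn → D.DQ T id) :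
    ∀ L, D.arr.Valid L → (∀ c, 11 ≤ c → c ≤ 16 → ∃ p ∈ L, p.2 / 4 = c) →
      (∃ p ∈ L, p.2 < 44) → D.arr.Full L := by
  have hblk : ∀ p : ℕ × ℕ, p.1 < 12 → p.2 < 68 → D.arr.blk p = 17 * (p.1 / 4) + p.2 / 4 := by
    intro p h1 h2
    show D.bid (D.m - 1 - p.1) (D.N - 1 - p.2) = _
    rw [hm, hN, hbid _ (by omega) _ (by omega)]
    have e1 : 11 - (12 - 1 - p.1) = p.1 := by omega
    have e2 : 67 - (68 - 1 - p.2) = p.2 := by omega
    rw [e1, e2]
  have hval : ∀ {L : List (ℕ × ℕ)}, D.arr.Valid L → ∀ p ∈ L, p.1 < 12 ∧ p.2 < 68 := by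
    intro L hv p hp
    have := hv.2 p hp
    have h1 : p.1 < D.m := this.1
    have h2 : p.2 < D.N := this.2
    omega
  -- full from CB
  have hCB : ∀ G, D.CB T G → ∀ X Z, D.arr.Ctx X G Z → D.arr.Full (X ++ G ++ Z) := by
    intro G h X Z hc
    rcases h X Z hc (fun hlt => absurd hlt (by omega)) with h1 | ⟨k, hk, -⟩
    · exact h1
    · rw [hen] at hk
      exact absurd hk (Nat.not_lt_zero _)
  -- a group of the region is blocked or in the table
  have hcomp : ∀ G, D.arr.IsGrp G → 1 ≤ D.arr.hiR G → 44 ≤ D.arr.hiC G →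
      (∀ X Z, D.arr.Ctx X G Z → D.arr.Full (X ++ G ++ Z)) ∨
      (T.ne.testBit (D.clsOf G) = true ∧ ∃ id, cs T (D.clsOf G) ≤ id ∧
        id < cs T (D.clsOf G) + cn T (D.clsOf G) ∧ id < T.nn ∧ D.Rep (fld128 T.gz id) G) := by
    intro G hGr h1 h2
    obtain ⟨Z, hrep⟩ := exists_rep hG hGr.2.1
    obtain ⟨-, -, p, hp, hp', hpm, hpN, hl1, hl2, hp3, hp4⟩ := hrep.hi hGr.2.1 hGr.1
    obtain ⟨a1, a2⟩ := hQC (D.m - 1 - D.arr.hiR G) (by omega) (D.N - 1 - D.arr.hiC G) (by omega)
    rcases a2 G hGr (by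
        intro q _
        rw [hng]
        exact Nat.zero_testBit _) (by omega) (by omega) (by omega) (by omega) with h | ⟨id, b1, b2, b3⟩
    · exact Or.inl (hCB G h)
    · right
      have hc0 : cn T (128 * (D.m - 1 - D.arr.hiR G) + (D.N - 1 - D.arr.hiC G)) ≠ 0 := by
        intro h0
        omega
      obtain ⟨c1, c2⟩ := a1 hc0
      exact ⟨c1, id, b1, b2, by omega, b3⟩
  -- the induction
  have main : ∀ n : ℕ, ∀ R : List (ℕ × ℕ), R.length ≤ n → ∀ X G2 id2, id2 < T.nn →
      D.Rch T id2 X G2 → D.arr.IsGrp G2 → 1 ≤ D.arr.hiR G2 → 44 ≤ D.arr.hiC G2 →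
      D.arr.Valid (X ++ (G2 ++ R)) → D.arr.After X (G2 ++ R) → D.arr.After G2 R →
      (∀ c, 11 ≤ c → c ≤ 16 → ∃ p ∈ X ++ (G2 ++ R), p.2 / 4 = c) →
      D.arr.Full (X ++ (G2 ++ R)) := by
    intro n
    induction n with
    | zero =>
      intro R hR X G2 id2 hid2 hr hG2 hr1 hc44 hv haX haR hvis
      have hR0 : R = [] := List.eq_nil_of_length_eq_zero (by omega)
      subst hR0
      exfalso
      obtain ⟨h4, -⟩ := hDQ id2 hid2 hid2 X G2 hG2 hr
      obtain ⟨p, hp, hp', hp1, hp2, h3, h5, -⟩ := hr.1.lo hG2.2.1 hG2.1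
      obtain ⟨q, hq, hq'⟩ := hvis 16 (by norm_num) (by norm_num)
      have hqp : q.2 ≤ p.2 := by
        rcases List.mem_append.mp hq with h | h
        · exact (haX q h p (by simp [hp])).2.1.le
        · rw [List.append_nil] at h
          exact (hp' q h).2
      omega
    | succ n ih =>
      intro R hR X G2 id2 hid2 hr hG2 hr1 hc44 hv haX haR hvis
      obtain ⟨h4, hstep⟩ := hDQ id2 hid2 hid2 X G2 hG2 hr
      obtain ⟨p, hp, hp', hp1, hp2, h3, h5, -⟩ := hr.1.lo hG2.2.1 hG2.1
      by_cases hR0 : R = []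
      · subst hR0
        exfalso
        obtain ⟨q, hq, hq'⟩ := hvis 16 (by norm_num) (by norm_num)
        have hqp : q.2 ≤ p.2 := by
          rcases List.mem_append.mp hq with h | h
          · exact (haX q h p (by simp [hp])).2.1.le
          · rw [List.append_nil] at h
            exact (hp' q h).2
        omega
      · have hvR : D.arr.Valid R := hv.append.2.1.append.2.1
        obtain ⟨G3, R', hRe, hG3, hs, -⟩ := GArr.exists_group (wf hG) R hR0 hvR
        subst hRe
        have haf23 := haR.of_append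
        have haX2 := haX.of_append
        have haX3 := haX2.2.of_append
        obtain ⟨Z3, hrep3⟩ := exists_rep hG hG3.2.1
        obtain ⟨-, -, g, hg, hg', hgm, hgN, hl1, hl2, hh1, hh2⟩ := hrep3.hi hG3.2.1 hG3.1
        have hpg := haf23.1 p hp g hg
        obtain ⟨p0, hp0, hp01, hp02, hp03⟩ := GArr.hi_spec (A := D.arr) hG2.2.1.1 hG2.1
        have hp0p := hp03 p hp
        -- the next group is in the same or in the next block of columns
        have hdn : 4 * (lob (fld128 T.gz id2 / 4294967296) / 4) - 4 ≤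
            D.N - 1 - D.arr.hiC G3 := by
          by_contra hcon
          obtain ⟨q, hq, hq'⟩ := hvis (p.2 / 4 + 1) (by omega) (by omega)
          rcases List.mem_append.mp hq with h | h
          · have := (haX q h p (by simp [hp])).2.1
            omega
          · rcases List.mem_append.mp h with h | h
            · have := (hp' q h).2
              omega
            · have : g.2 ≤ q.2 := by
                rcases List.mem_append.mp h with h | h
                · exact (hg' q h).2
                · exact (hs g hg q h).2.1.le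
              omega
        have hp0g := haf23.1 p0 hp0 g hg
        have hr13 : 1 ≤ D.arr.hiR G3 := by omega
        have hc443 : 44 ≤ D.arr.hiC G3 := by omega
        have hctx3 : D.arr.Ctx (X ++ G2) G3 R' := by
          refine ⟨by simpa [List.append_assoc] using hv, ?_, ?_⟩
          · intro a ha b hb
            rcases List.mem_append.mp ha with h | h
            · exact (haX3.1 a h b hb).2.2
            · exact (haf23.1 a h b hb).2.2
          · intro a ha b hb
            exact (hs a ha b hb).2.2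
        rcases hcomp G3 hG3 hr13 hc443 with hb | ⟨hne, id3, c1, c2, c3, c4⟩
        · have := hb _ _ hctx3
          simpa [List.append_assoc] using this
        · rcases hstep G3 hG3 haf23.1 hdn with h | h
          · rw [h] at hne
            exact absurd hne (by simp)
          · rcases h id3 c1 c2 c3 c4 with hF | ⟨j3, d1, d2, d3⟩
            · have hc : D.arr.Ctx X (G2 ++ G3) R' := by
                refine ⟨by simpa [List.append_assoc] using hv, ?_, ?_⟩
                · intro a ha b hb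
                  rcases List.mem_append.mp hb with h | h
                  · exact (haX2.1 a ha b h).2.2
                  · exact (haX3.1 a ha b h).2.2
                · intro a ha b hb
                  rcases List.mem_append.mp ha with h | h
                  · exact (haf23.2 a h b hb).2.2
                  · exact (hs a h b hb).2.2
              have := hF R' hc
              simpa [List.append_assoc] using this
            · have hlen : R'.length ≤ n := by
                have h1 : (G3 ++ R').length = G3.length + R'.length := List.length_append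
                have h2 : 0 < G3.length := List.length_pos_of_ne_nil hG3.1
                omega
              have := ih R' hlen (X ++ G2) G3 id3 c3 ⟨c4, Or.inr ⟨j3, X, G2, rfl, d1, d2,
                by rw [d3]; exact hid2, by rw [d3]; exact hr.1, hG2.1, haX2.1, haf23.1⟩⟩ hG3
                hr13 hc443 (by simpa [List.append_assoc] using hv)
                (GArr.After.append_left haX2.2 haR) hs
                (by simpa [List.append_assoc] using hvis)
              simpa [List.append_assoc] using this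
  -- the start
  intro L hv hvis hP
  obtain ⟨X, M, hLe, hX, hM⟩ : ∃ X M, L = X ++ M ∧ (∀ p ∈ X, p.2 < 44) ∧ (∀ p ∈ M, 44 ≤ p.2) := by
    clear hvis hP main hcomp hCB
    induction L with
    | nil => exact ⟨[], [], rfl, by simp, by simp⟩
    | cons a t ih =>
      by_cases ha : a.2 < 44
      · obtain ⟨X, M, h1, h2, h3⟩ := ih ⟨(List.pairwise_cons.mp hv.1).2, fun p hp =>
          hv.2 p (by simp [hp])⟩
        refine ⟨a :: X, M, by rw [h1]; rfl, ?_, h3⟩
        intro p hp
        rcases List.mem_cons.mp hp with rfl | h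
        · exact ha
        · exact h2 p h
      · refine ⟨[], a :: t, rfl, by simp, ?_⟩
        intro p hp
        rcases List.mem_cons.mp hp with rfl | h
        · omega
        · have := ((List.pairwise_cons.mp hv.1).1 p h).2
          omega
  subst hLe
  obtain ⟨q11, hq11, hq11'⟩ := hvis 11 (by norm_num) (by norm_num)
  have hq11M : q11 ∈ M := by
    rcases List.mem_append.mp hq11 with h | h
    · have := hX _ h
      omega
    · exact h
  have hM0 : M ≠ [] := List.ne_nil_of_mem hq11M
  have hvM : D.arr.Valid M := hv.append.2.1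
  obtain ⟨G2, R, hMe, hG2, hs, -⟩ := GArr.exists_group (wf hG) M hM0 hvM
  subst hMe
  obtain ⟨Z2, hrep2⟩ := exists_rep hG hG2.2.1
  obtain ⟨-, -, g, hg, hg', hgm, hgN, hl1, hl2, hh1, hh2⟩ := hrep2.hi hG2.2.1 hG2.1
  obtain ⟨x0, hx0, hx0'⟩ := hP
  have hx0X : x0 ∈ X := by
    rcases List.mem_append.mp hx0 with h | h
    · exact h
    · have := hM _ h
      omega
  have hxg := hv.append.2.2 x0 hx0X g (by simp [hg])
  have hr1 : 1 ≤ D.arr.hiR G2 := by omega
  have hc44 : 44 ≤ D.arr.hiC G2 := by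
    rw [hh2]
    exact hM g (by simp [hg])
  have hg48 : g.2 < 48 := by
    have : g.2 ≤ q11.2 := by
      rcases List.mem_append.mp hq11M with h | h
      · exact (hg' q11 h).2
      · exact (hs g hg q11 h).2.1.le
    omega
  have haX : D.arr.After X (G2 ++ R) := by
    intro a ha b hb
    have h1 := hv.append.2.2 a ha b hb
    refine ⟨h1.1, h1.2, ?_⟩
    have ha' := hval hv a (by simp [ha])
    have hb' := hval hv b (by
      rw [List.mem_append]
      exact Or.inr hb)
    rw [hblk a ha'.1 ha'.2, hblk b hb'.1 hb'.2]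
    have := hX a ha
    have := hM b hb
    omega
  have hctx : D.arr.Ctx X G2 R := by
    refine ⟨by simpa [List.append_assoc] using hv, ?_, ?_⟩
    · intro a ha b hb
      exact (haX a ha b (by simp [hb])).2.2
    · intro a ha b hb
      exact (hs a ha b hb).2.2
  rcases hcomp G2 hG2 hr1 hc44 with hb | ⟨hne, id2, c1, c2, c3, c4⟩
  · have := hb _ _ hctx
    simpa [List.append_assoc] using this
  · refine main R.length R le_rfl X G2 id2 c3 ⟨c4, Or.inl ?_⟩ hG2 hr1 hc44 hv haX hs hvis
    obtain ⟨p, hp, hp', hp1, hp2, h3, h5, -⟩ := c4.lo hG2.2.1 hG2.1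
    rw [h5]
    have h6 := hG2.2.2 p hp g hg
    have hp12 := hval hG2.2.1 p hp
    have hg12 := hval hG2.2.1 g hg
    rw [hblk p hp12.1 hp12.2, hblk g hg12.1 hg12.2] at h6
    omega

end GDat

end Pool.Agent.Simplex
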