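import Pool.Agent.Work.MP_f99e36_co.GPathDefs
import Pool.Agent.Work.MP_f99e36_co.Blk

/-!
Block arrays: window tests and the path theorem.
-/

set_option autoImplicit false

namespace Pool.Agent.Simplex

namespace GArr

variable {A : GArr}

/-! ### values -/

theorem part_append (b : ℕ) (X Y : List (ℕ × ℕ)) :
    A.part b (X ++ Y) = A.part b X ++ A.part b Y := by
  simp [part, List.filter_append]

theorem part_eq_nil {b : ℕ} {L : List (ℕ × ℕ)} (h : ∀ p ∈ L, A.blk p ≠ b) : A.part b L = [] := by
  rw [part, List.filter_eq_nil_iff]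
  intro p hp hc
  apply h p hp
  simp only [beq_iff_eq] at hc
  exact hc

theorem val_append (hA : A.WF) {X Y : List (ℕ × ℕ)} (h : ∀ p ∈ X, ∀ q ∈ Y, A.blk p ≠ A.blk q) :
    A.val (X ++ Y) = (A.val X ^^ A.val Y) := by
  unfold val
  induction A.bl with
  | nil => rfl
  | cons b t ih =>
    simp only [List.foldr_cons]
    rw [ih, part_append]
    by_cases hX : ∀ p ∈ X, A.blk p ≠ b
    · rw [part_eq_nil hX, List.nil_append, hA.g_nil]
      generalize A.g b (A.part b Y) = u
      generalize (List.foldr _ false t) = v
      generalize (List.foldr _ false t) = w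
      cases u <;> cases v <;> cases w <;> rfl
    · have hY : ∀ q ∈ Y, A.blk q ≠ b := by
        intro q hq hc
        apply hX
        intro p hp hc'
        exact h p hp q hq (hc'.trans hc.symm)
      rw [part_eq_nil hY, List.append_nil, hA.g_nil]
      generalize A.g b (A.part b X) = u
      generalize (List.foldr _ false t) = v
      generalize (List.foldr _ false t) = w
      cases u <;> cases v <;> cases w <;> rfl

/-! ### toggling -/

theorem mem_togR {R : List ℕ} {e x i : ℕ} : i ∈ A.togR R e x ↔
    i < A.m ∧ (decide (i ∈ R) ^^ (decide (A.m - 1 - i = e) ^^ decide (A.m - 1 - i = x))) = true := by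
  simp [togR]

theorem mem_togC {C : List ℕ} {e x j : ℕ} : j ∈ A.togC C e x ↔
    j < A.N ∧ (decide (j ∈ C) ^^ (decide (A.m + j = e) ^^ decide (A.m + j = x))) = true := by
  simp [togC]

theorem togR_sorted (R : List ℕ) (e x : ℕ) : (A.togR R e x).Pairwise (· < ·) :=
  List.Pairwise.filter _ List.pairwise_lt_range

theorem togC_sorted (C : List ℕ) (e x : ℕ) : (A.togC C e x).Pairwise (· < ·) :=
  List.Pairwise.filter _ List.pairwise_lt_range

theorem length_eq_card {l : List ℕ} (h : l.Pairwise (· < ·)) : l.length = l.toFinset.card := by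
  rw [List.toFinset_card_of_nodup]
  exact h.imp (fun hab => ne_of_lt hab)

theorem togR_length {R : List ℕ} {e x : ℕ} (hR : R.Pairwise (· < ·)) (hRm : ∀ i ∈ R, i < A.m)
    (hex : e ≠ x) (he : e < A.m → A.m - 1 - e ∉ R) (hx : x < A.m → A.m - 1 - x ∈ R) :
    (A.togR R e x).length + (if x < A.m then 1 else 0) =
      R.length + (if e < A.m then 1 else 0) := by
  classical
  rw [length_eq_card (togR_sorted R e x), length_eq_card hR]
  by_cases hem : e < A.m
  · by_cases hxm : x < A.m
    · have : (A.togR R e x).toFinset = insert (A.m - 1 - e) (R.toFinset.erase (A.m - 1 - x)) := by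
        ext i
        simp only [List.mem_toFinset, mem_togR, Finset.mem_insert, Finset.mem_erase]
        constructor
        · rintro ⟨him, hi⟩
          by_cases h1 : A.m - 1 - i = e
          · left; omega
          · by_cases h2 : A.m - 1 - i = x
            · exfalso
              have h3 : A.m - 1 - x = i := by omega
              have h4 := hx hxm
              rw [h3] at h4
              simp [h2, h4, hex.symm] at hi
            · right
              simp [h1, h2] at hi
              exact ⟨by omega, hi⟩
        · rintro (rfl | ⟨h1, h2⟩)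
          · refine ⟨by omega, ?_⟩
            have h3 : A.m - 1 - (A.m - 1 - e) = e := by omega
            have h4 := he hem
            rw [h3]
            simp [h4, hex]
          · have him := hRm i h2
            refine ⟨him, ?_⟩
            have h3 : A.m - 1 - i ≠ x := by omega
            have h4 : A.m - 1 - i ≠ e := by
              intro h5
              have h6 : A.m - 1 - e = i := by omega
              have h4 := he hem
              rw [h6] at h4
              exact h4 h2
            simp [h2, h3, h4]
      rw [this, Finset.card_insert_of_notMem, Finset.card_erase_of_mem]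
      · have : 0 < R.toFinset.card := Finset.card_pos.mpr ⟨_, List.mem_toFinset.mpr (hx hxm)⟩
        simp only [hem, hxm, if_true]
        omega
      · exact List.mem_toFinset.mpr (hx hxm)
      · intro hc
        exact he hem (List.mem_toFinset.mp (Finset.mem_of_mem_erase hc))
    · have : (A.togR R e x).toFinset = insert (A.m - 1 - e) R.toFinset := by
        ext i
        simp only [List.mem_toFinset, mem_togR, Finset.mem_insert]
        constructor
        · rintro ⟨him, hi⟩
          by_cases h1 : A.m - 1 - i = e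
          · left; omega
          · have h2 : A.m - 1 - i ≠ x := by omega
            right
            simpa [h1, h2] using hi
        · rintro (rfl | h2)
          · refine ⟨by omega, ?_⟩
            have h3 : A.m - 1 - (A.m - 1 - e) = e := by omega
            have h4 := he hem
            rw [h3]
            simp [h4, hex]
          · have him := hRm i h2
            refine ⟨him, ?_⟩
            have h3 : A.m - 1 - i ≠ x := by omega
            have h4 : A.m - 1 - i ≠ e := by
              intro h5
              have h6 : A.m - 1 - e = i := by omega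
              have h4 := he hem
              rw [h6] at h4
              exact h4 h2
            simp [h2, h3, h4]
      rw [this, Finset.card_insert_of_notMem]
      · simp [hem, hxm]
      · intro hc
        exact he hem (List.mem_toFinset.mp hc)
  · by_cases hxm : x < A.m
    · have : (A.togR R e x).toFinset = R.toFinset.erase (A.m - 1 - x) := by
        ext i
        simp only [List.mem_toFinset, mem_togR, Finset.mem_erase]
        constructor
        · rintro ⟨him, hi⟩
          have h1 : A.m - 1 - i ≠ e := by omega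
          by_cases h2 : A.m - 1 - i = x
          · exfalso
            have h3 : A.m - 1 - x = i := by omega
            have h4 := hx hxm
            rw [h3] at h4
            simp [h2, h4, hex.symm] at hi
          · simp [h1, h2] at hi
            exact ⟨by omega, hi⟩
        · rintro ⟨h1, h2⟩
          have him := hRm i h2
          refine ⟨him, ?_⟩
          have h3 : A.m - 1 - i ≠ x := by omega
          have h4 : A.m - 1 - i ≠ e := by omega
          simp [h2, h3, h4]
      rw [this, Finset.card_erase_of_mem]
      · have : 0 < R.toFinset.card := Finset.card_pos.mpr ⟨_, List.mem_toFinset.mpr (hx hxm)⟩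
        simp only [hem, hxm, if_true, if_false]
        omega
      · exact List.mem_toFinset.mpr (hx hxm)
    · have : (A.togR R e x).toFinset = R.toFinset := by
        ext i
        simp only [List.mem_toFinset, mem_togR]
        constructor
        · rintro ⟨him, hi⟩
          have h1 : A.m - 1 - i ≠ e := by omega
          have h2 : A.m - 1 - i ≠ x := by omega
          simpa [h1, h2] using hi
        · intro h2
          have him := hRm i h2
          refine ⟨him, ?_⟩
          have h3 : A.m - 1 - i ≠ x := by omega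
          have h4 : A.m - 1 - i ≠ e := by omega
          simp [h2, h3, h4]
      rw [this]
      simp [hem, hxm]

theorem togC_length {C : List ℕ} {e x : ℕ} (hC : C.Pairwise (· < ·)) (hCN : ∀ j ∈ C, j < A.N)
    (hex : e ≠ x) (he : A.m ≤ e → e - A.m ∈ C)
    (hx : A.m ≤ x → x - A.m ∉ C ∧ x < A.m + A.N) :
    (A.togC C e x).length + (if e < A.m then 0 else 1) =
      C.length + (if x < A.m then 0 else 1) := by
  classical
  rw [length_eq_card (togC_sorted C e x), length_eq_card hC]
  by_cases hxm : x < A.m
  · by_cases hem : e < A.m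
    · have : (A.togC C e x).toFinset = C.toFinset := by
        ext j
        simp only [List.mem_toFinset, mem_togC]
        have h1 : A.m + j ≠ e := by omega
        have h2 : A.m + j ≠ x := by omega
        simp only [h1, h2, decide_false, Bool.xor_false, decide_eq_true_eq]
        exact ⟨fun h => h.2, fun h => ⟨hCN j h, h⟩⟩
      rw [this]
      simp [hem, hxm]
    · have hem' : A.m ≤ e := by omega
      have : (A.togC C e x).toFinset = C.toFinset.erase (e - A.m) := by
        ext j
        simp only [List.mem_toFinset, mem_togC, Finset.mem_erase]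
        have h2 : A.m + j ≠ x := by omega
        by_cases h1 : A.m + j = e
        · have h3 : e - A.m = j := by omega
          have h4 := he hem'
          rw [h3] at h4
          simp [h1, h4, h3, hex]
        · have h3 : j ≠ e - A.m := by omega
          simp only [h1, h2, decide_false, Bool.xor_false, decide_eq_true_eq]
          exact ⟨fun h => ⟨h3, h.2⟩, fun h => ⟨hCN j h.2, h.2⟩⟩
      rw [this, Finset.card_erase_of_mem (List.mem_toFinset.mpr (he hem'))]
      have : 0 < C.toFinset.card := Finset.card_pos.mpr ⟨_, List.mem_toFinset.mpr (he hem')⟩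
      simp only [hem, hxm, if_true, if_false]
      omega
  · have hxm' : A.m ≤ x := by omega
    by_cases hem : e < A.m
    · have : (A.togC C e x).toFinset = insert (x - A.m) C.toFinset := by
        ext j
        simp only [List.mem_toFinset, mem_togC, Finset.mem_insert]
        have h1 : A.m + j ≠ e := by omega
        by_cases h2 : A.m + j = x
        · have h3 : x - A.m = j := by omega
          have h4 := hx hxm'
          rw [h3] at h4
          have h5 : j < A.N := by omega
          simp [h2, h3, h4.1, h5, hex.symm]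
        · have h3 : j ≠ x - A.m := by omega
          simp only [h1, h2, decide_false, Bool.xor_false, decide_eq_true_eq]
          constructor
          · intro h; exact Or.inr h.2
          · rintro (h | h)
            · exact absurd h h3
            · exact ⟨hCN j h, h⟩
      rw [this, Finset.card_insert_of_notMem (fun h => (hx hxm').1 (List.mem_toFinset.mp h))]
      simp [hem, hxm]
    · have hem' : A.m ≤ e := by omega
      have hne : e - A.m ≠ x - A.m := by omega
      have : (A.togC C e x).toFinset = insert (x - A.m) (C.toFinset.erase (e - A.m)) := by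
        ext j
        simp only [List.mem_toFinset, mem_togC, Finset.mem_insert, Finset.mem_erase]
        by_cases h1 : A.m + j = e
        · have h2 : A.m + j ≠ x := by omega
          have h3 : e - A.m = j := by omega
          have h3' : j ≠ x - A.m := by omega
          have h4 := he hem'
          rw [h3] at h4
          simp [h1, h4, h3, hex, h3']
        · by_cases h2 : A.m + j = x
          · have h3 : x - A.m = j := by omega
            have h4 := hx hxm'
            rw [h3] at h4
            have h5 : j < A.N := by omega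
            simp [h2, h3, h4.1, h5, hex.symm]
          · have h3 : j ≠ x - A.m := by omega
            have h3' : j ≠ e - A.m := by omega
            simp only [h1, h2, decide_false, Bool.xor_false, decide_eq_true_eq]
            constructor
            · intro h; exact Or.inr ⟨h3', h.2⟩
            · rintro (h | h)
              · exact absurd h h3
              · exact ⟨hCN j h.2, h.2⟩
      rw [this, Finset.card_insert_of_notMem
        (fun h => (hx hxm').1 (List.mem_toFinset.mp (Finset.mem_of_mem_erase h))),
        Finset.card_erase_of_mem (List.mem_toFinset.mpr (he hem'))]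
      have : 0 < C.toFinset.card := Finset.card_pos.mpr ⟨_, List.mem_toFinset.mpr (he hem')⟩
      simp only [hem, hxm, if_false]
      omega

/-! ### windows -/

theorem mem_togR_bound {M : List ℕ} {e x lo up i : ℕ} (hM : ∀ i ∈ M, lo ≤ i ∧ i ≤ up)
    (he : e < A.m → lo ≤ A.m - 1 - e ∧ A.m - 1 - e ≤ up)
    (hx : x < A.m → lo ≤ A.m - 1 - x ∧ A.m - 1 - x ≤ up) (hi : i ∈ A.togR M e x) :
    lo ≤ i ∧ i ≤ up := by
  rw [mem_togR] at hi
  obtain ⟨him, hi⟩ := hi
  by_cases hiM : i ∈ M
  · exact hM i hiM
  · by_cases h1 : A.m - 1 - i = e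
    · have h2 : A.m - 1 - e = i := by omega
      have h3 := he (by omega)
      rwa [h2] at h3
    · by_cases h1' : A.m - 1 - i = x
      · have h2 : A.m - 1 - x = i := by omega
        have h3 := hx (by omega)
        rwa [h2] at h3
      · simp [hiM, h1, h1'] at hi

theorem mem_togC_bound {M : List ℕ} {e x lo up j : ℕ} (hM : ∀ i ∈ M, lo ≤ i ∧ i ≤ up)
    (he : A.m ≤ e → lo ≤ e - A.m ∧ e - A.m ≤ up)
    (hx : A.m ≤ x → lo ≤ x - A.m ∧ x - A.m ≤ up) (hj : j ∈ A.togC M e x) :
    lo ≤ j ∧ j ≤ up := by
  rw [mem_togC] at hj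
  obtain ⟨hjN, hj⟩ := hj
  by_cases hjM : j ∈ M
  · exact hM j hjM
  · by_cases h1 : A.m + j = e
    · have h2 : e - A.m = j := by omega
      have h3 := he (by omega)
      rwa [h2] at h3
    · by_cases h1' : A.m + j = x
      · have h2 : x - A.m = j := by omega
        have h3 := hx (by omega)
        rwa [h2] at h3
      · simp [hjM, h1, h1'] at hj

theorem togR_split {X M Z : List ℕ} {e x lo up : ℕ} (hs : (X ++ M ++ Z).Pairwise (· < ·))
    (hm : ∀ i ∈ X ++ M ++ Z, i < A.m) (hX : ∀ i ∈ X, i < lo) (hZ : ∀ i ∈ Z, up < i)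
    (hM : ∀ i ∈ M, lo ≤ i ∧ i ≤ up)
    (he : e < A.m → lo ≤ A.m - 1 - e ∧ A.m - 1 - e ≤ up)
    (hx : x < A.m → lo ≤ A.m - 1 - x ∧ A.m - 1 - x ≤ up) :
    A.togR (X ++ M ++ Z) e x = X ++ A.togR M e x ++ Z := by
  have hXZ : ∀ i ∈ X, ∀ k ∈ Z, i < k := by
    intro i hi k hk
    rw [List.pairwise_append] at hs
    exact hs.2.2 i (List.mem_append_left _ hi) k hk
  have hsX : X.Pairwise (· < ·) := by
    rw [List.pairwise_append, List.pairwise_append] at hs
    exact hs.1.1
  have hsZ : Z.Pairwise (· < ·) := by
    rw [List.pairwise_append] at hs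
    exact hs.2.1
  apply (togR_sorted _ e x).eq_of_mem_iff
  · rw [List.pairwise_append, List.pairwise_append]
    refine ⟨⟨hsX, togR_sorted M e x, ?_⟩, hsZ, ?_⟩
    · intro i hi k hk
      exact lt_of_lt_of_le (hX i hi) (mem_togR_bound hM he hx hk).1
    · intro i hi k hk
      rcases List.mem_append.mp hi with h | h
      · exact hXZ i h k hk
      · exact lt_of_le_of_lt (mem_togR_bound hM he hx h).2 (hZ k hk)
  · intro i
    rw [mem_togR]
    simp only [List.mem_append]
    rw [mem_togR]
    by_cases hiX : i ∈ X
    · have him : i < A.m := hm i (by simp [hiX])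
      have h1 : A.m - 1 - i ≠ e := by
        intro h
        have h2 : A.m - 1 - e = i := by omega
        have h3 := he (by omega)
        rw [h2] at h3
        exact absurd (hX i hiX) (by omega)
      have h2 : A.m - 1 - i ≠ x := by
        intro h
        have h2 : A.m - 1 - x = i := by omega
        have h3 := hx (by omega)
        rw [h2] at h3
        exact absurd (hX i hiX) (by omega)
      simp [hiX, him, h1, h2]
    · by_cases hiZ : i ∈ Z
      · have him : i < A.m := hm i (by simp [hiZ])
        have h1 : A.m - 1 - i ≠ e := by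
          intro h
          have h2 : A.m - 1 - e = i := by omega
          have h3 := he (by omega)
          rw [h2] at h3
          exact absurd (hZ i hiZ) (by omega)
        have h2 : A.m - 1 - i ≠ x := by
          intro h
          have h2 : A.m - 1 - x = i := by omega
          have h3 := hx (by omega)
          rw [h2] at h3
          exact absurd (hZ i hiZ) (by omega)
        simp [hiZ, him, h1, h2]
      · simp [hiX, hiZ]

theorem togC_split {X M Z : List ℕ} {e x lo up : ℕ} (hs : (X ++ M ++ Z).Pairwise (· < ·))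
    (hm : ∀ i ∈ X ++ M ++ Z, i < A.N) (hX : ∀ i ∈ X, i < lo) (hZ : ∀ i ∈ Z, up < i)
    (hM : ∀ i ∈ M, lo ≤ i ∧ i ≤ up)
    (he : A.m ≤ e → lo ≤ e - A.m ∧ e - A.m ≤ up)
    (hx : A.m ≤ x → lo ≤ x - A.m ∧ x - A.m ≤ up) :
    A.togC (X ++ M ++ Z) e x = X ++ A.togC M e x ++ Z := by
  have hXZ : ∀ i ∈ X, ∀ k ∈ Z, i < k := by
    intro i hi k hk
    rw [List.pairwise_append] at hs
    exact hs.2.2 i (List.mem_append_left _ hi) k hk
  have hsX : X.Pairwise (· < ·) := by
    rw [List.pairwise_append, List.pairwise_append] at hs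
    exact hs.1.1
  have hsZ : Z.Pairwise (· < ·) := by
    rw [List.pairwise_append] at hs
    exact hs.2.1
  apply (togC_sorted _ e x).eq_of_mem_iff
  · rw [List.pairwise_append, List.pairwise_append]
    refine ⟨⟨hsX, togC_sorted M e x, ?_⟩, hsZ, ?_⟩
    · intro i hi k hk
      exact lt_of_lt_of_le (hX i hi) (mem_togC_bound hM he hx hk).1
    · intro i hi k hk
      rcases List.mem_append.mp hi with h | h
      · exact hXZ i h k hk
      · exact lt_of_le_of_lt (mem_togC_bound hM he hx h).2 (hZ k hk)
  · intro i
    rw [mem_togC]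
    simp only [List.mem_append]
    rw [mem_togC]
    by_cases hiX : i ∈ X
    · have him : i < A.N := hm i (by simp [hiX])
      have h1 : A.m + i ≠ e := by
        intro h
        have h2 : e - A.m = i := by omega
        have h3 := he (by omega)
        rw [h2] at h3
        exact absurd (hX i hiX) (by omega)
      have h2 : A.m + i ≠ x := by
        intro h
        have h2 : x - A.m = i := by omega
        have h3 := hx (by omega)
        rw [h2] at h3
        exact absurd (hX i hiX) (by omega)
      simp [hiX, him, h1, h2]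
    · by_cases hiZ : i ∈ Z
      · have him : i < A.N := hm i (by simp [hiZ])
        have h1 : A.m + i ≠ e := by
          intro h
          have h2 : e - A.m = i := by omega
          have h3 := he (by omega)
          rw [h2] at h3
          exact absurd (hZ i hiZ) (by omega)
        have h2 : A.m + i ≠ x := by
          intro h
          have h2 : x - A.m = i := by omega
          have h3 := hx (by omega)
          rw [h2] at h3
          exact absurd (hZ i hiZ) (by omega)
        simp [hiZ, him, h1, h2]
      · simp [hiX, hiZ]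

theorem zip_fst_snd : ∀ L : List (ℕ × ℕ), (L.map Prod.fst).zip (L.map Prod.snd) = L
  | [] => rfl
  | p :: t => by simp [zip_fst_snd t]

theorem mem_zip_fst {R C : List ℕ} {p : ℕ × ℕ} (h : p ∈ R.zip C) : p.1 ∈ R :=
  (List.of_mem_zip (a := p.1) (b := p.2) h).1

theorem mem_zip_snd {R C : List ℕ} {p : ℕ × ℕ} (h : p ∈ R.zip C) : p.2 ∈ C :=
  (List.of_mem_zip (a := p.1) (b := p.2) h).2

theorem Inc.fst {L : List (ℕ × ℕ)} (h : Inc L) : (L.map Prod.fst).Pairwise (· < ·) :=
  List.pairwise_map.mpr (h.imp fun h => h.1)

theorem Inc.snd {L : List (ℕ × ℕ)} (h : Inc L) : (L.map Prod.snd).Pairwise (· < ·) :=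
  List.pairwise_map.mpr (h.imp fun h => h.2)

theorem Bas.ne {M : List (ℕ × ℕ)} {e x : ℕ} (he : A.Bas M e) (hx : A.Non M x) : e ≠ x := by
  rintro rfl
  rcases he with ⟨h1, h2⟩ | ⟨h1, h2, h3⟩
  · rcases hx with ⟨h4, h5⟩ | ⟨h4, h5, h6⟩
    · exact h2 h5
    · omega
  · rcases hx with ⟨h4, h5⟩ | ⟨h4, h5, h6⟩
    · omega
    · exact h6 h3

theorem tog_length {M : List (ℕ × ℕ)} (hM : A.Valid M) {e x : ℕ} (he : A.Bas M e)
    (hx : A.Non M x) : (A.togR (M.map Prod.fst) e x).length =
      (A.togC (M.map Prod.snd) e x).length := by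
  have hex := he.ne hx
  have h1 := togR_length (A := A) (R := M.map Prod.fst) (e := e) (x := x) hM.1.fst
    (by
      intro i hi
      obtain ⟨p, hp, rfl⟩ := List.mem_map.mp hi
      exact (hM.2 p hp).1) hex
    (by
      intro h
      rcases he with h' | h'
      · exact h'.2
      · omega)
    (by
      intro h
      rcases hx with h' | h'
      · exact h'.2
      · omega)
  have h2 := togC_length (A := A) (C := M.map Prod.snd) (e := e) (x := x) hM.1.snd
    (by
      intro i hi
      obtain ⟨p, hp, rfl⟩ := List.mem_map.mp hi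
      exact (hM.2 p hp).2) hex
    (by
      intro h
      rcases he with h' | h'
      · omega
      · exact h'.2.2)
    (by
      intro h
      rcases hx with h' | h'
      · omega
      · exact ⟨h'.2.2, h'.2.1⟩)
  rw [List.length_map] at h1 h2
  split_ifs at h1 h2 <;> omega

/-- the value of a toggled list splits at the ends of a window -/
theorem T_window (hA : A.WF) {X M Z : List (ℕ × ℕ)} (hL : A.Valid (X ++ M ++ Z)) {lo up : ℕ × ℕ}
    (hlo : ∀ p ∈ X, p.1 < lo.1 ∧ p.2 < lo.2 ∧ A.blk p ≠ A.blk lo)
    (hup : ∀ p ∈ Z, up.1 < p.1 ∧ up.2 < p.2 ∧ A.blk up ≠ A.blk p)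
    (hM : ∀ p ∈ M, (lo.1 ≤ p.1 ∧ p.1 ≤ up.1) ∧ (lo.2 ≤ p.2 ∧ p.2 ≤ up.2))
    (hlu : lo.1 ≤ up.1 ∧ lo.2 ≤ up.2) {e x : ℕ} (hwe : A.Win lo.1 up.1 lo.2 up.2 e) (hwx : A.Win lo.1 up.1 lo.2 up.2 x)
    (he : A.Bas M e) (hx : A.Non M x) :
    A.T (X ++ M ++ Z) e x = (A.T M e x ^^ (A.val X ^^ A.val Z)) := by
  have hMv : A.Valid M := by
    refine ⟨?_, fun p hp => hL.2 p (by simp [hp])⟩
    have := hL.1
    unfold Inc at this
    rw [List.pairwise_append, List.pairwise_append] at this
    exact this.1.2.1
  have hR := togR_split (A := A) (X := X.map Prod.fst) (M := M.map Prod.fst)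
    (Z := Z.map Prod.fst) (e := e) (x := x) (lo := lo.1) (up := up.1)
    (by rw [← List.map_append, ← List.map_append]; exact hL.1.fst)
    (by
      rw [← List.map_append, ← List.map_append]
      intro i hi
      obtain ⟨p, hp, rfl⟩ := List.mem_map.mp hi
      exact (hL.2 p hp).1)
    (by intro i hi; obtain ⟨p, hp, rfl⟩ := List.mem_map.mp hi; exact (hlo p hp).1)
    (by intro i hi; obtain ⟨p, hp, rfl⟩ := List.mem_map.mp hi; exact (hup p hp).1)
    (by intro i hi; obtain ⟨p, hp, rfl⟩ := List.mem_map.mp hi; exact (hM p hp).1)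
    hwe.1 hwx.1
  have hC := togC_split (A := A) (X := X.map Prod.snd) (M := M.map Prod.snd)
    (Z := Z.map Prod.snd) (e := e) (x := x) (lo := lo.2) (up := up.2)
    (by rw [← List.map_append, ← List.map_append]; exact hL.1.snd)
    (by
      rw [← List.map_append, ← List.map_append]
      intro i hi
      obtain ⟨p, hp, rfl⟩ := List.mem_map.mp hi
      exact (hL.2 p hp).2)
    (by intro i hi; obtain ⟨p, hp, rfl⟩ := List.mem_map.mp hi; exact (hlo p hp).2.1)
    (by intro i hi; obtain ⟨p, hp, rfl⟩ := List.mem_map.mp hi; exact (hup p hp).2.1)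
    (by intro i hi; obtain ⟨p, hp, rfl⟩ := List.mem_map.mp hi; exact (hM p hp).2)
    hwe.2 hwx.2
  have hbR : ∀ i ∈ A.togR (M.map Prod.fst) e x, lo.1 ≤ i ∧ i ≤ up.1 := fun i hi =>
    mem_togR_bound (M := M.map Prod.fst) (lo := lo.1) (up := up.1)
      (by intro i hi; obtain ⟨p, hp, rfl⟩ := List.mem_map.mp hi; exact (hM p hp).1)
      hwe.1 hwx.1 hi
  have hbC : ∀ i ∈ A.togC (M.map Prod.snd) e x, lo.2 ≤ i ∧ i ≤ up.2 := fun i hi =>
    mem_togC_bound (M := M.map Prod.snd) (lo := lo.2) (up := up.2)
      (by intro i hi; obtain ⟨p, hp, rfl⟩ := List.mem_map.mp hi; exact (hM p hp).2)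
      hwe.2 hwx.2 hi
  unfold T
  rw [List.map_append, List.map_append, List.map_append, List.map_append, hR, hC]
  rw [List.zip_append (by simp [tog_length hMv he hx]), List.zip_append (by simp),
    zip_fst_snd, zip_fst_snd]
  -- block separations
  have hs1 : ∀ p ∈ X, ∀ q ∈ (A.togR (M.map Prod.fst) e x).zip (A.togC (M.map Prod.snd) e x),
      A.blk p ≠ A.blk q := by
    intro p hp q hq hc
    obtain ⟨h1, h2, h3⟩ := hlo p hp
    have h4 := (hbR _ (mem_zip_fst hq)).1
    have h5 := (hbC _ (mem_zip_snd hq)).1
    apply h3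
    exact hA.conv _ _ _ _ _ _ h1.le h4 h2.le h5 hc
  have hs2 : ∀ p ∈ (A.togR (M.map Prod.fst) e x).zip (A.togC (M.map Prod.snd) e x),
      ∀ z ∈ Z, A.blk p ≠ A.blk z := by
    intro q hq z hz hc
    obtain ⟨h1, h2, h3⟩ := hup z hz
    have h4 := (hbR _ (mem_zip_fst hq)).2
    have h5 := (hbC _ (mem_zip_snd hq)).2
    apply h3
    exact (hA.conv _ _ _ _ _ _ h4 h1.le h5 h2.le hc).symm.trans hc
  have hs3 : ∀ p ∈ X, ∀ z ∈ Z, A.blk p ≠ A.blk z := by
    intro p hp z hz hc
    obtain ⟨h1, h2, h3⟩ := hlo p hp
    obtain ⟨h1', h2', h3'⟩ := hup z hz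
    apply h3
    exact hA.conv _ _ _ _ _ _ h1.le (le_trans hlu.1 h1'.le) h2.le (le_trans hlu.2 h2'.le) hc
  rw [val_append hA, val_append hA hs1]
  · generalize A.val X = a
    generalize A.val Z = b
    generalize A.val _ = c
    generalize decide (e < x) = d
    cases a <;> cases b <;> cases c <;> cases d <;> rfl
  · intro p hp q hq
    rcases List.mem_append.mp hp with h | h
    · exact hs3 p h q hq
    · exact hs2 p h q hq

theorem Win.mono {rlo rhi clo chi rlo' rhi' clo' chi' e : ℕ} (h : A.Win rlo rhi clo chi e)
    (h1 : rlo' ≤ rlo) (h2 : rhi ≤ rhi') (h3 : clo' ≤ clo) (h4 : chi ≤ chi') :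
    A.Win rlo' rhi' clo' chi' e :=
  ⟨fun he => ⟨h1.trans (h.1 he).1, (h.1 he).2.trans h2⟩,
    fun he => ⟨h3.trans (h.2 he).1, (h.2 he).2.trans h4⟩⟩

theorem WT.mono {M : List (ℕ × ℕ)} {rlo rhi clo chi rlo' rhi' clo' chi' : ℕ}
    (h : A.WT M rlo rhi clo chi)
    (h1 : rlo' ≤ rlo) (h2 : rhi ≤ rhi') (h3 : clo' ≤ clo) (h4 : chi ≤ chi') :
    A.WT M rlo' rhi' clo' chi' := by
  obtain ⟨e, e', x, x', w1, w2, w3, w4, h⟩ := h
  exact ⟨e, e', x, x', w1.mono h1 h2 h3 h4, w2.mono h1 h2 h3 h4, w3.mono h1 h2 h3 h4,
    w4.mono h1 h2 h3 h4, h⟩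

/-- **Window lemma**: a window test of the middle part blocks the whole basis. -/
theorem WT.window (hA : A.WF) {X M Z : List (ℕ × ℕ)} (hL : A.Valid (X ++ M ++ Z)) {lo up : ℕ × ℕ}
    (hlo : ∀ p ∈ X, p.1 < lo.1 ∧ p.2 < lo.2 ∧ A.blk p ≠ A.blk lo)
    (hup : ∀ p ∈ Z, up.1 < p.1 ∧ up.2 < p.2 ∧ A.blk up ≠ A.blk p)
    (hM : ∀ p ∈ M, (lo.1 ≤ p.1 ∧ p.1 ≤ up.1) ∧ (lo.2 ≤ p.2 ∧ p.2 ≤ up.2))
    (hlu : lo.1 ≤ up.1 ∧ lo.2 ≤ up.2) {rlo rhi clo chi : ℕ}
    (h1 : lo.1 ≤ rlo) (h2 : rhi ≤ up.1) (h3 : lo.2 ≤ clo) (h4 : chi ≤ up.2)
    (h : A.WT M rlo rhi clo chi) : A.WT (X ++ M ++ Z) rlo rhi clo chi := by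
  have hBas : ∀ e, A.Win rlo rhi clo chi e → A.Bas M e → A.Bas (X ++ M ++ Z) e := by
    intro e hw hb
    rcases hb with ⟨a, b⟩ | ⟨a, b, c⟩
    · left
      refine ⟨a, ?_⟩
      have hw1 := hw.1 a
      intro hc
      simp only [List.map_append, List.mem_append] at hc
      rcases hc with (hc | hc) | hc
      · obtain ⟨p, hp, hpe⟩ := List.mem_map.mp hc
        have := (hlo p hp).1
        omega
      · exact b hc
      · obtain ⟨p, hp, hpe⟩ := List.mem_map.mp hc
        have := (hup p hp).1
        omega
    · right
      refine ⟨a, b, ?_⟩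
      simp only [List.map_append, List.mem_append]
      exact Or.inl (Or.inr c)
  have hNon : ∀ e, A.Win rlo rhi clo chi e → A.Non M e → A.Non (X ++ M ++ Z) e := by
    intro e hw hb
    rcases hb with ⟨a, b⟩ | ⟨a, b, c⟩
    · left
      refine ⟨a, ?_⟩
      simp only [List.map_append, List.mem_append]
      exact Or.inl (Or.inr b)
    · right
      refine ⟨a, b, ?_⟩
      have hw1 := hw.2 a
      intro hc
      simp only [List.map_append, List.mem_append] at hc
      rcases hc with (hc | hc) | hc
      · obtain ⟨p, hp, hpe⟩ := List.mem_map.mp hc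
        have := (hlo p hp).2.1
        omega
      · exact c hc
      · obtain ⟨p, hp, hpe⟩ := List.mem_map.mp hc
        have := (hup p hp).2.1
        omega
  obtain ⟨e, e', x, x', w1, w2, w3, w4, b1, b2, n1, n2, a1, a2, ht⟩ := h
  refine ⟨e, e', x, x', w1, w2, w3, w4, hBas e w1 b1, hBas e' w2 b2, hNon x w3 n1,
    hNon x' w4 n2, a1, a2, ?_⟩
  have w1' := w1.mono h1 h2 h3 h4
  have w2' := w2.mono h1 h2 h3 h4
  have w3' := w3.mono h1 h2 h3 h4
  have w4' := w4.mono h1 h2 h3 h4
  rw [T_window hA hL hlo hup hM hlu w1' w3' b1 n1, T_window hA hL hlo hup hM hlu w2' w3' b2 n1,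
    T_window hA hL hlo hup hM hlu w1' w4' b1 n2, T_window hA hL hlo hup hM hlu w2' w4' b2 n2]
  rw [← ht]
  generalize A.T M e x = a
  generalize A.T M e' x = b
  generalize A.T M e x' = c
  generalize A.T M e' x' = d
  generalize A.val X = u
  generalize A.val Z = v
  cases a <;> cases b <;> cases c <;> cases d <;> cases u <;> cases v <;> rfl

end GArr

end Pool.Agent.Simplex
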