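import Pool.Agent.Work.MP_f99e36_co.DatGP3

/-!
Three-term relations for one block of an arbitrary block array whose local sign function is read
from a table, and for the whole array.
-/

set_option autoImplicit false

namespace Pool.Agent.Simplex

open Finset

namespace Arr

variable (A : Arr)

/-- weight of an element, from weights of rows and of columns -/
def wtG (wR wC : ℕ → ℕ) (x : ℕ) : ℕ := if x < A.m then wR (A.m - 1 - x) else wC (x - A.m)

/-- the elements of the block (a, b), increasing -/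
def elsG (a b : ℕ) : List ℕ := (List.range (A.m + A.N)).filter
  (fun x => if x < A.m then A.rb (A.m - 1 - x) == a else A.cb (x - A.m) == b)

/-- the row elements of the block row a, increasing -/
def reltsG (a : ℕ) : List ℕ := (List.range A.m).filter (fun x => A.rb (A.m - 1 - x) == a)

variable {A}

theorem toFinset_elsG (a b : ℕ) : (A.elsG a b).toFinset = A.RS a ∪ A.CS b := by
  ext x
  rw [List.mem_toFinset, mem_union]
  show _ ↔ (x ∈ Rset A.m A.rb a ∨ x ∈ Cset A.m A.N A.cb b)
  rw [mem_Rset, mem_Cset]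
  unfold elsG
  rw [List.mem_filter, List.mem_range]
  by_cases hx : x < A.m
  · simp only [hx, if_true, beq_iff_eq]
    constructor
    · rintro ⟨_, h2⟩
      exact Or.inl ⟨trivial, h2⟩
    · rintro (⟨_, h2⟩ | ⟨h1, _⟩)
      · exact ⟨by omega, h2⟩
      · omega
  · simp only [hx, if_false, beq_iff_eq, false_and, false_or]
    constructor
    · rintro ⟨h1, h2⟩
      exact ⟨by omega, h1, h2⟩
    · rintro ⟨_, h1, h2⟩
      exact ⟨h1, h2⟩

theorem toFinset_reltsG (a : ℕ) : (A.reltsG a).toFinset = A.RS a := by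
  ext x
  rw [List.mem_toFinset]
  show _ ↔ x ∈ Rset A.m A.rb a
  rw [mem_Rset]
  unfold reltsG
  rw [List.mem_filter, List.mem_range, beq_iff_eq]

theorem elsG_sorted (a b : ℕ) : (A.elsG a b).Pairwise (· < ·) :=
  (List.pairwise_lt_range (n := A.m + A.N)).filter _

theorem reltsG_nodup (a : ℕ) : (A.reltsG a).Nodup := List.nodup_range.filter _

/-- the weights of the elements of the block are distinct powers of two below 2 ^ 12 -/
structure GoodW (wt : ℕ → ℕ) (l : List ℕ) : Prop where
  pow : ∀ x ∈ l, wt x = 2 ^ (wt x).log2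
  lt : ∀ x ∈ l, wt x < 2 ^ 12
  nd : (l.map wt).Nodup

theorem GoodW.inj {wt : ℕ → ℕ} {l : List ℕ} (h : GoodW wt l) {x y : ℕ} (hx : x ∈ l) (hy : y ∈ l)
    (hxy : wt x = wt y) : x = y := by
  exact List.inj_on_of_nodup_map h.nd hx hy hxy

/-- the local sign function of the block (a, b) as a function on sets -/
theorem GS_eqG {a b : ℕ} {wR wC : ℕ → ℕ} {T : ℕ}
    (hg : ∀ L, A.g a b L =
      (!L.isEmpty && T.testBit ((L.map (fun p => wR p.1 + wC p.2)).sum)))
    (hw : GoodW (A.wtG wR wC) (A.elsG a b)) (hz : T.testBit 0 = false)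
    {S : Finset ℕ} (hS : S ⊆ A.RS a ∪ A.CS b) (hc : S.card = (A.RS a).card) :
    A.GS a b S = T.testBit (maskW (A.wtG wR wC) (A.RS a) ^^^ maskW (A.wtG wR wC) S) := by
  set wt := A.wtG wR wC with hwt
  set RR := A.RS a with hRR
  set CC := A.CS b with hCC
  have memR : ∀ x, x ∈ RR ↔ x < A.m ∧ A.rb (A.m - 1 - x) = a := fun x => by
    rw [hRR]; exact mem_Rset
  have memC : ∀ x, x ∈ CC ↔ A.m ≤ x ∧ x < A.m + A.N ∧ A.cb (x - A.m) = b := fun x => by
    rw [hCC]; exact mem_Cset
  have hmemE : ∀ x, x ∈ RR ∪ CC ↔ x ∈ A.elsG a b := fun x => by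
    rw [hRR, hCC, ← toFinset_elsG, List.mem_toFinset]
  have hdis : Disjoint RR CC := by
    rw [disjoint_left]
    intro x hx hx'
    rw [memR] at hx
    rw [memC] at hx'
    omega
  have hSeq : S = (RR ∩ S) ∪ (CC ∩ S) := by
    rw [← union_inter_distrib_right]
    exact (inter_eq_right.2 hS).symm
  have hReq : RR = (RR ∩ S) ∪ (RR \ S) := by
    ext x
    rw [mem_union, mem_inter, mem_sdiff]
    by_cases h : x ∈ S <;> simp [h]
  have hd1 : Disjoint (RR ∩ S) (CC ∩ S) := hdis.mono inter_subset_left inter_subset_left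
  have hd2 : Disjoint (RR ∩ S) (RR \ S) := by
    rw [disjoint_left]
    intro x hx hx'
    exact (mem_sdiff.mp hx').2 (mem_inter.mp hx).2
  have hd3 : Disjoint (RR \ S) (CC ∩ S) := hdis.mono sdiff_subset inter_subset_left
  have hmask : maskW wt RR ^^^ maskW wt S = ∑ x ∈ (RR \ S), wt x + ∑ x ∈ (CC ∩ S), wt x := by
    have h1 : maskW wt RR = maskW wt (RR ∩ S) ^^^ maskW wt (RR \ S) := by
      conv_lhs => rw [hReq]
      exact maskW_union hd2
    have h2 : maskW wt S = maskW wt (RR ∩ S) ^^^ maskW wt (CC ∩ S) := by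
      conv_lhs => rw [hSeq]
      exact maskW_union hd1
    have h3 : maskW wt RR ^^^ maskW wt S = maskW wt ((RR \ S) ∪ (CC ∩ S)) := by
      rw [h1, h2, maskW_union hd3]
      generalize maskW wt (RR ∩ S) = u
      generalize maskW wt (RR \ S) = v
      generalize maskW wt (CC ∩ S) = t
      rw [Nat.xor_comm u v, Nat.xor_assoc, ← Nat.xor_assoc u u t, Nat.xor_self, Nat.zero_xor]
    rw [h3, ← sum_union hd3]
    have hsub : (RR \ S) ∪ (CC ∩ S) ⊆ RR ∪ CC :=
      union_subset_union sdiff_subset inter_subset_left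
    refine (maskW_eq_sum (lg := fun x => (wt x).log2) _
      (fun x hx => hw.pow x ((hmemE x).1 (hsub hx))) (fun x hx y hy hxy => ?_)).1
    have hx' := (hmemE x).1 (hsub hx)
    have hy' := (hmemE y).1 (hsub hy)
    apply hw.inj hx' hy'
    rw [hw.pow x hx', hw.pow y hy']
    have : (wt x).log2 = (wt y).log2 := hxy
    rw [this]
  set LR : List ℕ := (List.range A.m).filter
    (fun i => decide (A.rb i = a ∧ A.m - 1 - i ∉ S)) with hLR
  set LC : List ℕ := (List.range A.N).filter
    (fun j => decide (A.cb j = b ∧ A.m + j ∈ S)) with hLC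
  have hLRmem : ∀ i, i ∈ LR ↔ i < A.m ∧ A.rb i = a ∧ A.m - 1 - i ∉ S := by
    intro i
    rw [hLR, List.mem_filter, List.mem_range, decide_eq_true_iff]
  have hLCmem : ∀ j, j ∈ LC ↔ j < A.N ∧ A.cb j = b ∧ A.m + j ∈ S := by
    intro i
    rw [hLC, List.mem_filter, List.mem_range, decide_eq_true_iff]
  have hLRnd : LR.Nodup := List.nodup_range.filter _
  have hLCnd : LC.Nodup := List.nodup_range.filter _
  have hLRinj : Set.InjOn (fun i => A.m - 1 - i) (LR.toFinset : Set ℕ) := by
    intro x hx y hy hxy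
    rw [List.coe_toFinset] at hx hy
    have h1 := (hLRmem x).1 hx
    have h2 := (hLRmem y).1 hy
    have h3 : A.m - 1 - x = A.m - 1 - y := hxy
    omega
  have hLCinj : Set.InjOn (fun j => A.m + j) (LC.toFinset : Set ℕ) := by
    intro x _ y _ hxy
    have : A.m + x = A.m + y := hxy
    omega
  have hLRim : LR.toFinset.image (fun i => A.m - 1 - i) = RR \ S := by
    ext x
    rw [mem_image, mem_sdiff, memR]
    constructor
    · rintro ⟨i, hi, rfl⟩
      rw [List.mem_toFinset, hLRmem] at hi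
      refine ⟨⟨by omega, ?_⟩, hi.2.2⟩
      rw [show A.m - 1 - (A.m - 1 - i) = i by omega]
      exact hi.2.1
    · rintro ⟨⟨h1, h2⟩, h3⟩
      refine ⟨A.m - 1 - x, ?_, by omega⟩
      rw [List.mem_toFinset, hLRmem, show A.m - 1 - (A.m - 1 - x) = x by omega]
      exact ⟨by omega, h2, h3⟩
  have hLCim : LC.toFinset.image (fun j => A.m + j) = CC ∩ S := by
    ext x
    rw [mem_image, mem_inter, memC]
    constructor
    · rintro ⟨i, hi, rfl⟩
      rw [List.mem_toFinset, hLCmem] at hi
      refine ⟨⟨by omega, by omega, ?_⟩, hi.2.2⟩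
      rw [show A.m + i - A.m = i by omega]
      exact hi.2.1
    · rintro ⟨⟨h1, h2, h3⟩, h4⟩
      refine ⟨x - A.m, ?_, by omega⟩
      rw [List.mem_toFinset, hLCmem, show A.m + (x - A.m) = x by omega]
      exact ⟨by omega, h3, h4⟩
  have hlenR : LR.length = (RR \ S).card := by
    rw [← hLRim, card_image_of_injOn hLRinj, List.toFinset_card_of_nodup hLRnd]
  have hlenC : LC.length = (CC ∩ S).card := by
    rw [← hLCim, card_image_of_injOn hLCinj, List.toFinset_card_of_nodup hLCnd]
  have hlen : LR.length = LC.length := by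
    have h1 : (RR ∩ S).card + (RR \ S).card = RR.card := card_inter_add_card_sdiff RR S
    have h2 : (RR ∩ S).card + (CC ∩ S).card = S.card := by
      rw [← card_union_of_disjoint hd1, ← hSeq]
    omega
  have hsumR : (LR.map wR).sum = ∑ x ∈ (RR \ S), wt x := by
    rw [← hLRim, sum_image hLRinj, ← List.sum_toFinset _ hLRnd]
    apply sum_congr rfl
    intro i hi
    rw [List.mem_toFinset, hLRmem] at hi
    rw [hwt]
    unfold wtG
    rw [if_pos (by omega), show A.m - 1 - (A.m - 1 - i) = i by omega]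
  have hsumC : (LC.map wC).sum = ∑ x ∈ (CC ∩ S), wt x := by
    rw [← hLCim, sum_image hLCinj, ← List.sum_toFinset _ hLCnd]
    apply sum_congr rfl
    intro i hi
    rw [List.mem_toFinset, hLCmem] at hi
    rw [hwt]
    unfold wtG
    rw [if_neg (by omega), show A.m + i - A.m = i by omega]
  have hGS : A.GS a b S = A.g a b (LR.zip LC) := rfl
  have hbs : ((LR.zip LC).map (fun p => wR p.1 + wC p.2)).sum = maskW wt RR ^^^ maskW wt S := by
    rw [hmask, ← hsumR, ← hsumC, ← Dat.zip_sum _ _ hlen]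
  rw [hGS, hg, hbs]
  rcases hl : LR.zip LC with _ | ⟨x, l⟩
  · rw [hl] at hbs
    have h0 : (0 : ℕ) = maskW wt RR ^^^ maskW wt S := by rw [← hbs]; rfl
    rw [← h0, hz]
    rfl
  · rfl

/-- **Check of a block.**  W: the weights of the elements of the block (a, b) in decreasing order of
the elements; k: the number of rows; R: the mask of the rows; T: the table of the block. -/
theorem GP3_blkG (a b : ℕ) (wR wC : ℕ → ℕ) (T : ℕ) (W : List ℕ) (k R : ℕ)
    (hg : ∀ L, A.g a b L =
      (!L.isEmpty && T.testBit ((L.map (fun p => wR p.1 + wC p.2)).sum)))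
    (hw : GoodW (A.wtG wR wC) (A.elsG a b))
    (hW : (A.elsG a b).reverse.map (A.wtG wR wC) = W) (hk : (A.reltsG a).length = k)
    (hR : ((A.reltsG a).map (A.wtG wR wC)).foldr (fun x y => x ^^^ y) 0 = R)
    (h0 : T.testBit 0 = false) (hchk : zrec T W (k - 2) R [] = true) :
    GP3 id (A.RS a ∪ A.CS b) (A.RS a).card (A.GS a b) := by
  have hk' : (A.RS a).card = k := by
    rw [← toFinset_reltsG, List.toFinset_card_of_nodup (reltsG_nodup a), hk]
  have hR' : maskW (A.wtG wR wC) (A.RS a) = R := by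
    rw [← toFinset_reltsG, ← foldr_map_eq_maskW _ _ (reltsG_nodup a), hR]
  have hmain : GP3 id (A.elsG a b).toFinset k
      (fun S => T.testBit (R ^^^ maskW (A.wtG wR wC) S)) := by
    apply zrec_sound (elsG_sorted a b)
    · intro x hx y hy hxy
      exact hw.inj hx hy hxy
    · rw [hW]; exact hchk
  rw [toFinset_elsG, ← hk'] at hmain
  refine GP3_congr (fun S hS hc => ?_) hmain
  show T.testBit (R ^^^ maskW (A.wtG wR wC) S) = A.GS a b S
  rw [GS_eqG hg hw h0 hS hc, ← hR']

end Arr

end Pool.Agent.Simplex
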