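import Pool.Agent.Work.MP_f99e36_co.GenGP3

/-!
The inner array with parameters: 3 row blocks of 4 rows, q column blocks of 4 columns, the same
block column repeated q times; the block tables are given by one numeral tab (256 bits for each
block row).  Its sign function satisfies the three-term relations.
-/

set_option autoImplicit false

namespace Pool.Agent.Simplex

open Finset

/-- weight of a row -/
def wRT (i : ℕ) : ℕ := 2 ^ (3 - i % 4)

/-- weight of a column -/
def wCT (j : ℕ) : ℕ := 16 * 2 ^ (3 - j % 4)

/-- the inner array -/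
def innerT (q tab : ℕ) : Arr where
  m := 12
  N := 4 * q
  rb := fun i => i / 4
  cb := fun j => j / 4
  bl := List.range 3 ×ˢ List.range q
  g := fun a _ L => !L.isEmpty &&
    tab.testBit (256 * a + (L.map (fun p => 2 ^ (3 - p.1 % 4) + 16 * 2 ^ (3 - p.2 % 4))).sum)

theorem innerT_wf (q tab : ℕ) : (innerT q tab).WF where
  rb_mono := fun _ _ h => Nat.div_le_div_right h
  cb_mono := fun _ _ h => Nat.div_le_div_right h
  g_nil := fun _ _ => rfl

theorem innerT_elsG {q tab a b : ℕ} (ha : a < 3) (hb : b < q) :
    (innerT q tab).elsG a b = [8 - 4 * a, 9 - 4 * a, 10 - 4 * a, 11 - 4 * a,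
      12 + 4 * b, 13 + 4 * b, 14 + 4 * b, 15 + 4 * b] := by
  apply eq_of_sorted_of_mem (Arr.elsG_sorted a b)
  · simp only [List.pairwise_cons, List.mem_cons, List.not_mem_nil, or_false,
      forall_eq_or_imp, forall_eq, List.Pairwise.nil, IsEmpty.forall_iff, implies_true, and_true]
    omega
  · intro x
    unfold Arr.elsG
    rw [List.mem_filter, List.mem_range]
    simp only [List.mem_cons, List.not_mem_nil, or_false]
    show (x < 12 + 4 * q ∧ (if x < 12 then (12 - 1 - x) / 4 == a else (x - 12) / 4 == b) = true) ↔ _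
    by_cases hx : x < 12
    · rw [if_pos hx, beq_iff_eq]
      omega
    · rw [if_neg hx, beq_iff_eq]
      omega

theorem innerT_reltsG {q tab a : ℕ} (ha : a < 3) :
    (innerT q tab).reltsG a = [8 - 4 * a, 9 - 4 * a, 10 - 4 * a, 11 - 4 * a] := by
  apply eq_of_sorted_of_mem
  · exact (List.pairwise_lt_range (n := 12)).filter _
  · simp only [List.pairwise_cons, List.mem_cons, List.not_mem_nil, or_false,
      forall_eq_or_imp, forall_eq, List.Pairwise.nil, IsEmpty.forall_iff, implies_true, and_true]
    omega
  · intro x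
    unfold Arr.reltsG
    rw [List.mem_filter, List.mem_range]
    simp only [List.mem_cons, List.not_mem_nil, or_false]
    show (x < 12 ∧ ((12 - 1 - x) / 4 == a) = true) ↔ _
    rw [beq_iff_eq]
    omega

theorem innerT_wt_row {q tab a t : ℕ} (ha : a < 3) (ht : t < 4) :
    (innerT q tab).wtG wRT wCT (8 + t - 4 * a) = 2 ^ t := by
  unfold Arr.wtG wRT
  show (if 8 + t - 4 * a < 12 then 2 ^ (3 - (12 - 1 - (8 + t - 4 * a)) % 4) else _) = _
  rw [if_pos (by omega)]
  congr 1
  omega

theorem innerT_wt_col {q tab b t : ℕ} (ht : t < 4) :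
    (innerT q tab).wtG wRT wCT (12 + t + 4 * b) = 16 * 2 ^ (3 - t) := by
  unfold Arr.wtG wCT
  show (if 12 + t + 4 * b < 12 then _ else 16 * 2 ^ (3 - (12 + t + 4 * b - 12) % 4)) = _
  rw [if_neg (by omega)]
  congr 2
  omega

theorem innerT_els {q tab a b : ℕ} (ha : a < 3) (hb : b < q) :
    ((innerT q tab).elsG a b).reverse.map ((innerT q tab).wtG wRT wCT) =
      [16, 32, 64, 128, 8, 4, 2, 1] := by
  rw [innerT_elsG ha hb]
  simp only [List.reverse_cons, List.reverse_nil, List.nil_append, List.cons_append,
    List.map_cons, List.map_nil]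
  have r0 := innerT_wt_row (q := q) (tab := tab) ha (t := 0) (by norm_num)
  have r1 := innerT_wt_row (q := q) (tab := tab) ha (t := 1) (by norm_num)
  have r2 := innerT_wt_row (q := q) (tab := tab) ha (t := 2) (by norm_num)
  have r3 := innerT_wt_row (q := q) (tab := tab) ha (t := 3) (by norm_num)
  have c0 := innerT_wt_col (q := q) (tab := tab) (b := b) (t := 0) (by norm_num)
  have c1 := innerT_wt_col (q := q) (tab := tab) (b := b) (t := 1) (by norm_num)
  have c2 := innerT_wt_col (q := q) (tab := tab) (b := b) (t := 2) (by norm_num)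
  have c3 := innerT_wt_col (q := q) (tab := tab) (b := b) (t := 3) (by norm_num)
  norm_num at r0 r1 r2 r3 c0 c1 c2 c3
  rw [r0, r1, r2, r3, c0, c1, c2, c3]

theorem innerT_relts {q tab a : ℕ} (ha : a < 3) :
    ((innerT q tab).reltsG a).map ((innerT q tab).wtG wRT wCT) = [1, 2, 4, 8] := by
  rw [innerT_reltsG ha]
  simp only [List.map_cons, List.map_nil]
  have r0 := innerT_wt_row (q := q) (tab := tab) ha (t := 0) (by norm_num)
  have r1 := innerT_wt_row (q := q) (tab := tab) ha (t := 1) (by norm_num)
  have r2 := innerT_wt_row (q := q) (tab := tab) ha (t := 2) (by norm_num)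
  have r3 := innerT_wt_row (q := q) (tab := tab) ha (t := 3) (by norm_num)
  norm_num at r0 r1 r2 r3
  rw [r0, r1, r2, r3]

theorem innerT_good {q tab a b : ℕ} (ha : a < 3) (hb : b < q) :
    Arr.GoodW ((innerT q tab).wtG wRT wCT) ((innerT q tab).elsG a b) := by
  have h := innerT_els (tab := tab) ha hb
  have hmem : ∀ x ∈ (innerT q tab).elsG a b,
      (innerT q tab).wtG wRT wCT x ∈ [16, 32, 64, 128, 8, 4, 2, 1] := by
    intro x hx
    rw [← h]
    exact List.mem_map_of_mem (List.mem_reverse.mpr hx)
  refine ⟨fun x hx => ?_, fun x hx => ?_, ?_⟩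
  · have := hmem x hx
    generalize (innerT q tab).wtG wRT wCT x = w at this
    revert w
    decide
  · have := hmem x hx
    generalize (innerT q tab).wtG wRT wCT x = w at this
    revert w
    decide
  · have h2 : (((innerT q tab).elsG a b).map ((innerT q tab).wtG wRT wCT)).reverse =
        [16, 32, 64, 128, 8, 4, 2, 1] := by
      rw [← List.map_reverse, h]
    rw [← List.nodup_reverse, h2]
    decide

/-- **The three-term relations for the inner array**, for every number q of column blocks. -/
theorem innerT_GP3 {q tab : ℕ} (hq : 1 ≤ q)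
    (hz : ∀ a, a < 3 → (tab >>> (256 * a)).testBit 0 = false)
    (hchk : ∀ a, a < 3 → zrec (tab >>> (256 * a)) [16, 32, 64, 128, 8, 4, 2, 1] (4 - 2) 15 [] = true) :
    GP3 id (range (12 + 4 * q)) 12 (innerT q tab).f := by
  have hcardR : ∀ a, a < 3 →
      2 ≤ ((range (innerT q tab).m).filter (fun i => (innerT q tab).rb i = a)).card := by
    intro a ha
    have hsub : ({4 * a, 4 * a + 1} : Finset ℕ) ⊆
        (range (innerT q tab).m).filter (fun i => (innerT q tab).rb i = a) := by
      intro x hx
      rw [mem_insert, mem_singleton] at hx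
      rw [mem_filter, mem_range]
      show x < 12 ∧ x / 4 = a
      omega
    have h2 : ({4 * a, 4 * a + 1} : Finset ℕ).card = 2 := card_pair (by omega)
    rw [← h2]
    exact card_le_card hsub
  have hcardC : ∀ b, b < q →
      2 ≤ ((range (innerT q tab).N).filter (fun j => (innerT q tab).cb j = b)).card := by
    intro b hb
    have hsub : ({4 * b, 4 * b + 1} : Finset ℕ) ⊆
        (range (innerT q tab).N).filter (fun j => (innerT q tab).cb j = b) := by
      intro x hx
      rw [mem_insert, mem_singleton] at hx
      rw [mem_filter, mem_range]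
      show x < 4 * q ∧ x / 4 = b
      omega
    have h2 : ({4 * b, 4 * b + 1} : Finset ℕ).card = 2 := card_pair (by omega)
    rw [← h2]
    exact card_le_card hsub
  exact Arr.f_GP3 (A := innerT q tab) (p := 3) (q := q) (innerT_wf q tab) (by norm_num) hq
    (List.nodup_range.product List.nodup_range)
    (fun x => by
      show x ∈ (List.range 3) ×ˢ (List.range q) ↔ _
      rw [List.mem_product, List.mem_range, List.mem_range])
    (fun i hi => by
      have : i < 12 := hi
      show i / 4 < 3
      omega)
    (fun j hj => by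
      have : j < 4 * q := hj
      show j / 4 < q
      omega)
    hcardR hcardC
    (fun a b ha hb => by
      refine Arr.GP3_blkG a b wRT wCT (tab >>> (256 * a)) [16, 32, 64, 128, 8, 4, 2, 1] 4 15 ?_
        (innerT_good ha hb) (innerT_els ha hb) ?_ ?_ (hz a ha) (hchk a ha)
      · intro L
        rw [Nat.testBit_shiftRight]
        rfl
      · rw [innerT_reltsG ha]; rfl
      · rw [innerT_relts ha]; rfl)

end Pool.Agent.Simplex
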