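import Pool.Agent.Work.MP_f99e36_co.Reorder
import Pool.Agent.Work.MP_f99e36_co.InnerT

/-!
The last two hypotheses (H3, H4) of the nested composition theorem, from a list of the exceptional
bases and a finite check.
-/

set_option autoImplicit false

namespace Pool.Agent.Simplex

open Finset

/-- the sign function of the inner array on lists -/
def fL (q tab : ℕ) (l : List ℕ) : Bool :=
  (innerT q tab).val (((List.range 12).filter (fun i => !(l.elem (11 - i)))).zip
    ((List.range (4 * q)).filter (fun j => l.elem (12 + j))))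

theorem f_toFinset (q tab : ℕ) (l : List ℕ) : (innerT q tab).f l.toFinset = fL q tab l := by
  unfold Arr.f Arr.pairs Arr.rowsOf Arr.colsOf fL
  show (innerT q tab).val (((List.range 12).filter (fun i => decide (12 - 1 - i ∉ l.toFinset))).zip
    ((List.range (4 * q)).filter (fun j => decide (12 + j ∈ l.toFinset)))) = _
  congr 2
  · apply List.filter_congr
    intro i _
    rw [Bool.eq_iff_iff]
    simp
  · apply List.filter_congr
    intro i _
    rw [Bool.eq_iff_iff]
    simp

theorem toFinset_map' (s : ℕ → ℕ) (l : List ℕ) : (l.map s).toFinset = l.toFinset.image s := by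
  ext x
  rw [List.mem_toFinset, List.mem_map, mem_image]
  constructor
  · rintro ⟨a, h1, h2⟩
    exact ⟨a, List.mem_toFinset.mpr h1, h2⟩
  · rintro ⟨a, h1, h2⟩
    exact ⟨a, List.mem_toFinset.mp h1, h2⟩

/-- inversions with an element outside do not change if it is replaced by a similar one -/
theorem invS_insert_eq {n0 : ℕ} {s : ℕ → ℕ} {Z : Finset ℕ} {e f : ℕ} (hZ : Z ⊆ range n0)
    (he : n0 ≤ e) (hf : n0 ≤ f) (hne : ∀ z < n0, s e ≠ s z) (hnf : ∀ z < n0, s f ≠ s z)
    (h : ∀ z < n0, (s e < s z ↔ s f < s z)) : invS s (insert e Z) = invS s (insert f Z) := by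
  have hz : ∀ z ∈ Z, z < n0 := fun z hz => mem_range.mp (hZ hz)
  have h1 : e ∉ Z := fun h => by have := hz e h; omega
  have h2 : f ∉ Z := fun h => by have := hz f h; omega
  rw [invS_eq, invS_eq, inv_insert h1 (fun y hy => by
      have := hz y hy
      show e ≠ y
      omega) (fun y hy => hne y (hz y hy)),
    inv_insert h2 (fun y hy => by
      have := hz y hy
      show f ≠ y
      omega) (fun y hy => hnf y (hz y hy))]
  congr 1
  unfold difN
  congr 3
  congr 1
  apply filter_congr
  intro y hy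
  have hy' := hz y hy
  unfold dif
  show ((decide (e < y) ^^ decide (s e < s y)) = true) ↔ ((decide (f < y) ^^ decide (s f < s y)) = true)
  rw [decide_eq_false (by omega : ¬ e < y), decide_eq_false (by omega : ¬ f < y), Bool.false_xor,
    Bool.false_xor, decide_eq_true_iff, decide_eq_true_iff]
  exact h y hy'

section

variable {q tab n0 n1 D : ℕ} {s : ℕ → ℕ} {ExcI : Finset ℕ → Prop} {eps : Finset ℕ}

/-- hypothesis H4 of the nested composition -/
theorem H4_of (hs : Set.InjOn s (range n1 : Set ℕ)) (h01 : n0 ≤ n1)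
    (ex : List (List ℕ)) (hex : ∀ l ∈ ex, l ≠ [] ∧ l.Nodup ∧ ∀ z ∈ l, z < n0)
    (hExc : ∀ B, ExcI B → ∃ l ∈ ex, B = (l.map s).toFinset)
    (hinv : ∀ Z : Finset ℕ, Z ⊆ range n0 → ∀ k < D, ∀ k' < D,
      invS s (insert (n0 + k) Z) = invS s (insert (n0 + k') Z))
    (PS : List ℕ) (hpat : ∀ l ∈ ex, ∃ a ∈ PS, ∀ k < D,
      fL q tab (((n0 + k) :: l.tail).map s) = a.testBit k)
    (hPS : ∀ a ∈ PS, ∀ b ∈ PS, ∃ k < D, ∃ k' < D, (a.testBit k ^^ a.testBit k' ^^
      b.testBit (D - 1 - k) ^^ b.testBit (D - 1 - k') ^^ decide (n0 + k ∈ eps) ^^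
      decide (n0 + k' ∈ eps)) = true)
    (X1 X2 : Finset ℕ) (h1 : ExcI (X1.image s) ∧ X1 ⊆ range n0)
    (h2 : ExcI (X2.image s) ∧ X2 ⊆ range n0) :
    ∃ x ∈ X1, ∃ y ∈ X2, ∃ e ∈ Ico n0 (n0 + D), ∃ f ∈ Ico n0 (n0 + D),
      (((innerT q tab).f ((insert e (X1.erase x)).image s) ^^ invS s (insert e (X1.erase x))) ^^
      ((innerT q tab).f ((insert f (X1.erase x)).image s) ^^ invS s (insert f (X1.erase x))) ^^
      ((innerT q tab).f ((insert (2 * n0 + D - 1 - e) (X2.erase y)).image s) ^^
        invS s (insert (2 * n0 + D - 1 - e) (X2.erase y))) ^^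
      ((innerT q tab).f ((insert (2 * n0 + D - 1 - f) (X2.erase y)).image s) ^^
        invS s (insert (2 * n0 + D - 1 - f) (X2.erase y))) ^^
      decide (e ∈ eps) ^^ decide (f ∈ eps)) = true := by
  have hsub : (range n0 : Finset ℕ) ⊆ range n1 := by
    intro x hx
    rw [mem_range] at hx ⊢
    omega
  -- the shape of an exceptional set
  have shape : ∀ X : Finset ℕ, ExcI (X.image s) ∧ X ⊆ range n0 → ∃ x ∈ X, ∃ a ∈ PS,
      X.erase x ⊆ range n0 ∧ ∀ k < D,
        (innerT q tab).f ((insert (n0 + k) (X.erase x)).image s) = a.testBit k := by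
    rintro X ⟨hX, hXr⟩
    obtain ⟨l, hl, hB⟩ := hExc _ hX
    obtain ⟨hl0, hnd, hlt⟩ := hex l hl
    have hXl : X = l.toFinset := by
      rw [toFinset_map'] at hB
      have hl' : (l.toFinset : Finset ℕ) ⊆ range n0 := by
        intro z hz
        rw [List.mem_toFinset] at hz
        exact mem_range.mpr (hlt z hz)
      ext z
      constructor
      · intro hz
        have h3 : s z ∈ l.toFinset.image s := by
          rw [← hB]; exact mem_image_of_mem s hz
        obtain ⟨w, hw, hwz⟩ := mem_image.mp h3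
        have h4 : w = z := hs (by exact_mod_cast hsub (hl' hw)) (by exact_mod_cast hsub (hXr hz)) hwz
        rw [← h4]; exact hw
      · intro hz
        have h3 : s z ∈ X.image s := by
          rw [hB]; exact mem_image_of_mem s hz
        obtain ⟨w, hw, hwz⟩ := mem_image.mp h3
        have h4 : w = z := hs (by exact_mod_cast hsub (hXr hw)) (by exact_mod_cast hsub (hl' hz)) hwz
        rw [← h4]; exact hw
    obtain ⟨a, ha, hpa⟩ := hpat l hl
    cases l with
    | nil => exact absurd rfl hl0
    | cons x t =>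
      have hxt : x ∉ t := (List.nodup_cons.mp hnd).1
      have her : X.erase x = t.toFinset := by
        rw [hXl, List.toFinset_cons, erase_insert]
        rwa [List.mem_toFinset]
      refine ⟨x, ?_, a, ha, (erase_subset x X).trans hXr, fun k hk => ?_⟩
      · rw [hXl, List.toFinset_cons]
        exact mem_insert_self _ _
      · rw [← hpa k hk, her, ← f_toFinset, List.tail_cons, toFinset_map', List.toFinset_cons]
  obtain ⟨x, hx, a, ha, hxr, hfa⟩ := shape X1 h1
  obtain ⟨y, hy, b, hb, hyr, hfb⟩ := shape X2 h2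
  obtain ⟨k, hk, k', hk', hkk⟩ := hPS a ha b hb
  refine ⟨x, hx, y, hy, n0 + k, by rw [mem_Ico]; omega, n0 + k', by rw [mem_Ico]; omega, ?_⟩
  have e1 : 2 * n0 + D - 1 - (n0 + k) = n0 + (D - 1 - k) := by omega
  have e2 : 2 * n0 + D - 1 - (n0 + k') = n0 + (D - 1 - k') := by omega
  rw [e1, e2, hfa k hk, hfa k' hk', hfb _ (by omega), hfb _ (by omega),
    hinv _ hxr k hk k' hk', hinv _ hyr (D - 1 - k) (by omega) (D - 1 - k') (by omega)]
  rw [← hkk]
  generalize a.testBit k = b1
  generalize a.testBit k' = b2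
  generalize b.testBit (D - 1 - k) = b3
  generalize b.testBit (D - 1 - k') = b4
  generalize invS s (insert (n0 + k') (X1.erase x)) = b5
  generalize invS s (insert (n0 + (D - 1 - k')) (X2.erase y)) = b6
  generalize decide (n0 + k ∈ eps) = b7
  generalize decide (n0 + k' ∈ eps) = b8
  revert b1 b2 b3 b4 b5 b6 b7 b8
  decide

end

end Pool.Agent.Simplex
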