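import Pool.Agent.Work.MP_f99e36_co.Inst
import Pool.Agent.Work.MP_f99e36_co.H4Gen

/-!
Hypothesis H4 of the nested composition theorem for the concrete inner array, from a list of the
exceptional bases in outer labels and finite checks.
-/

set_option autoImplicit false

namespace Pool.Agent.Simplex

open Finset

theorem sig_sim : ∀ k, k < 4 → ∀ k', k' < 4 → ∀ z, z < 44 →
    sig (44 + k) ≠ sig z ∧ (sig (44 + k) < sig z ↔ sig (44 + k') < sig z) := by
  decide +kernel

theorem sig_inv (Z : Finset ℕ) (hZ : Z ⊆ range 44) (k : ℕ) (hk : k < 4) (k' : ℕ) (hk' : k' < 4) :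
    invS sig (insert (44 + k) Z) = invS sig (insert (44 + k') Z) :=
  invS_insert_eq (n0 := 44) hZ (by omega) (by omega) (fun z hz => (sig_sim k hk k' hk' z hz).1)
    (fun z hz => (sig_sim k' hk' k hk z hz).1) (fun z hz => (sig_sim k hk k' hk' z hz).2)

/-- the pattern of a list of outer labels on the four middle elements -/
def patL (l : List ℕ) : ℕ :=
  (fL 17 tab17 ((44 :: l.tail).map sig)).toNat +
  2 * (fL 17 tab17 ((45 :: l.tail).map sig)).toNat +
  4 * (fL 17 tab17 ((46 :: l.tail).map sig)).toNat +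
  8 * (fL 17 tab17 ((47 :: l.tail).map sig)).toNat

theorem patL_bit (l : List ℕ) (k : ℕ) (hk : k < 4) :
    fL 17 tab17 (((44 + k) :: l.tail).map sig) = (patL l).testBit k := by
  unfold patL
  generalize h0 : fL 17 tab17 ((44 :: l.tail).map sig) = b0
  generalize h1 : fL 17 tab17 ((45 :: l.tail).map sig) = b1
  generalize h2 : fL 17 tab17 ((46 :: l.tail).map sig) = b2
  generalize h3 : fL 17 tab17 ((47 :: l.tail).map sig) = b3
  interval_cases k
  · rw [Nat.add_zero, h0]; clear h0 h1 h2 h3; revert b0 b1 b2 b3; decide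
  · rw [h1]; clear h0 h1 h2 h3; revert b0 b1 b2 b3; decide
  · rw [h2]; clear h0 h1 h2 h3; revert b0 b1 b2 b3; decide
  · rw [h3]; clear h0 h1 h2 h3; revert b0 b1 b2 b3; decide

/-- the finite check of H4: list of the exceptional bases (outer labels), list of patterns -/
structure ExcOK (T : GTb) (ex : List (List ℕ)) (PS : List ℕ) (eps : Finset ℕ) : Prop where
  mask : ∀ k, k < T.en → ∃ l ∈ ex, GDat.dset 12 68 (fld128 T.ex k) = (l.map sig).toFinset
  shape : ∀ l ∈ ex, l ≠ [] ∧ l.Nodup ∧ ∀ z ∈ l, z < 44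
  pat : ∀ l ∈ ex, patL l ∈ PS
  good : ∀ a ∈ PS, ∀ b ∈ PS, ∃ k < 4, ∃ k' < 4, (a.testBit k ^^ a.testBit k' ^^
      b.testBit (4 - 1 - k) ^^ b.testBit (4 - 1 - k') ^^ decide (44 + k ∈ eps) ^^
      decide (44 + k' ∈ eps)) = true

variable {pt bt al ng cc : ℕ} {T : GTb} {ex : List (List ℕ)} {PS : List ℕ} {eps : Finset ℕ}

/-- hypothesis H4 of the nested composition -/
theorem hyp_H4 (h : ExcOK T ex PS eps) (X1 X2 : Finset ℕ) (h1 : ExcF (datP pt bt al ng cc) T X1)
    (h2 : ExcF (datP pt bt al ng cc) T X2) :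
    ∃ x ∈ X1, ∃ y ∈ X2, ∃ e ∈ Ico (12 + 32) (12 + 32 + 4), ∃ f ∈ Ico (12 + 32) (12 + 32 + 4),
      (f1F (insert e (X1.erase x)) ^^ f1F (insert f (X1.erase x)) ^^
        f1F (insert (2 * 12 + 68 - 1 - e) (X2.erase y)) ^^
        f1F (insert (2 * 12 + 68 - 1 - f) (X2.erase y)) ^^
        decide (e ∈ eps) ^^ decide (f ∈ eps)) = true := by
  refine H4_of (q := 17) (tab := tab17) (n0 := 44) (n1 := 80) (D := 4) (s := sig)
    (ExcI := fun B => ∃ k, k < T.en ∧ B = GDat.dset 12 68 (fld128 T.ex k)) sig_inj (by norm_num)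
    ex h.shape ?_ (fun Z hZ k hk k' hk' => sig_inv Z hZ k hk k' hk') PS ?_ h.good X1 X2
    ⟨?_, h1.sub⟩ ⟨?_, h2.sub⟩
  · rintro B ⟨k, hk, rfl⟩
    exact h.mask k hk
  · intro l hl
    exact ⟨patL l, h.pat l hl, fun k hk => patL_bit l k hk⟩
  · exact h1.dset
  · exact h2.dset

end Pool.Agent.Simplex
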