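import Pool.Agent.Work.MP_f99e36_co.GenGP3

/-!
The inner array: 3 row blocks of 4 rows, 19 column blocks of 4 columns, the same block column
repeated 19 times; its sign function satisfies the three-term relations.
-/

set_option autoImplicit false

namespace Pool.Agent.Simplex

open Finset

/-- the three block tables: the bit at R + 64 C is the sign of the minor with rows R and
columns C, where row i (column j) of the block contributes 2 ^ (3 - i) (2 ^ (3 - j)) -/
def btab (a : ℕ) : ℕ :=
  if a = 0 then 319334449525555169873675211684020909967091254960672016237194870213398555743127675705135846249187751516289311858781211372384969840880470601914587096780693187670158207658721637664835589070021116319071802299025482644258650760429940825840978000707231282866390286583919059284506767654097721982189568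
  else if a = 1 then 12983366397190109095058932256808752768369484367710134898534021455909575294903205405153288465271713018640865508890535326139985090000801311217015139277927298190677229709928414034835070842269187400786871508641600703431645934946386380295998456274324236252156455715258016961921024
  else 319334449525555169879152569382835487241268648070984895618555155907464229320955291730135470647096685063112027182859465070327809987385261993093825143072472997134534101952249316477404399876649619425637583747949471780738271109600726422249416545336270833000761476190066698414060480936249933059588096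

/-- weight of a row -/
def wR4 (i : ℕ) : ℕ := 2 ^ (3 - i % 4)

/-- weight of a column -/
def wC4 (j : ℕ) : ℕ := 64 * 2 ^ (3 - j % 4)

/-- the inner array -/
def innerA : Arr where
  m := 12
  N := 76
  rb := fun i => i / 4
  cb := fun j => j / 4
  bl := List.range 3 ×ˢ List.range 19
  g := fun a _ L => !L.isEmpty && (btab a).testBit ((L.map (fun p => wR4 p.1 + wC4 p.2)).sum)

theorem inner_wf : innerA.WF where
  rb_mono := fun _ _ h => Nat.div_le_div_right h
  cb_mono := fun _ _ h => Nat.div_le_div_right h
  g_nil := fun _ _ => rfl

theorem inner_els : ∀ a, a < 3 → ∀ b, b < 19 →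
    (innerA.elsG a b).reverse.map (innerA.wtG wR4 wC4) = [64, 128, 256, 512, 8, 4, 2, 1] := by
  decide +kernel

theorem inner_relts : ∀ a, a < 3 →
    (innerA.reltsG a).map (innerA.wtG wR4 wC4) = [1, 2, 4, 8] := by
  decide +kernel

theorem inner_good {a b : ℕ} (ha : a < 3) (hb : b < 19) :
    Arr.GoodW (innerA.wtG wR4 wC4) (innerA.elsG a b) := by
  have h := inner_els a ha b hb
  have hmem : ∀ x ∈ innerA.elsG a b, innerA.wtG wR4 wC4 x ∈ [64, 128, 256, 512, 8, 4, 2, 1] := by
    intro x hx
    rw [← h]
    exact List.mem_map_of_mem (List.mem_reverse.mpr hx)
  refine ⟨fun x hx => ?_, fun x hx => ?_, ?_⟩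
  · have := hmem x hx
    generalize innerA.wtG wR4 wC4 x = w at this
    revert w
    decide
  · have := hmem x hx
    generalize innerA.wtG wR4 wC4 x = w at this
    revert w
    decide
  · have h2 : ((innerA.elsG a b).map (innerA.wtG wR4 wC4)).reverse = [64, 128, 256, 512, 8, 4, 2, 1] := by
      rw [← List.map_reverse, h]
    rw [← List.nodup_reverse, h2]
    decide

theorem inner_GP3 : GP3 id (range 88) 12 innerA.f := by
  have hchk0 : zrec (btab 0) [64, 128, 256, 512, 8, 4, 2, 1] (4 - 2) 15 [] = true := by
    decide +kernel
  have hchk1 : zrec (btab 1) [64, 128, 256, 512, 8, 4, 2, 1] (4 - 2) 15 [] = true := by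
    decide +kernel
  have hchk2 : zrec (btab 2) [64, 128, 256, 512, 8, 4, 2, 1] (4 - 2) 15 [] = true := by
    decide +kernel
  have hz0 : (btab 0).testBit 0 = false := by decide +kernel
  have hz1 : (btab 1).testBit 0 = false := by decide +kernel
  have hz2 : (btab 2).testBit 0 = false := by decide +kernel
  have hchk : ∀ a, a < 3 → zrec (btab a) [64, 128, 256, 512, 8, 4, 2, 1] (4 - 2) 15 [] = true := by
    intro a ha
    interval_cases a
    · exact hchk0
    · exact hchk1
    · exact hchk2
  have hz : ∀ a, a < 3 → (btab a).testBit 0 = false := by
    intro a ha
    interval_cases a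
    · exact hz0
    · exact hz1
    · exact hz2
  have h := Arr.f_GP3 (A := innerA) (p := 3) (q := 19) inner_wf (by norm_num) (by norm_num)
    (List.nodup_range.product List.nodup_range)
    (fun x => by
      show x ∈ (List.range 3) ×ˢ (List.range 19) ↔ _
      rw [List.mem_product, List.mem_range, List.mem_range])
    (fun i hi => by
      have : i < 12 := hi
      show i / 4 < 3
      omega)
    (fun j hj => by
      have : j < 76 := hj
      show j / 4 < 19
      omega)
    (by decide +kernel) (by decide +kernel)
    (fun a b ha hb => by
      refine Arr.GP3_blkG a b wR4 wC4 (btab a) [64, 128, 256, 512, 8, 4, 2, 1] 4 15 (fun L => rfl)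
        (inner_good ha hb) (inner_els a ha b hb) ?_ ?_ (hz a ha) (hchk a ha)
      · have := congrArg List.length (inner_relts a ha)
        rw [List.length_map] at this
        exact this
      · rw [inner_relts a ha]; rfl)
  exact h

end Pool.Agent.Simplex
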