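import Pool.Agent.Work.MP_f99e36_co.GChk1
import Pool.Agent.Work.MP_f99e36_co.InnerT

/-!
The checker data and the inner array define the same sign function.
-/

set_option autoImplicit false

namespace Pool.Agent.Simplex

theorem foldr_xor_congr {β : Type*} {l : List β} {h h' : β → Bool} (hh : ∀ x ∈ l, h x = h' x) :
    l.foldr (fun x s => h x ^^ s) false = l.foldr (fun x s => h' x ^^ s) false := by
  induction l with
  | nil => rfl
  | cons x t ih =>
    rw [List.foldr_cons, List.foldr_cons, ih (fun y hy => hh y (List.mem_cons_of_mem _ hy)),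
      hh x List.mem_cons_self]

theorem range_mul3 (q : ℕ) : List.range (3 * q) =
    (List.range 3 ×ˢ List.range q).map (fun ab => q * ab.1 + ab.2) := by
  have h3 : 3 * q = q + (q + q) := by ring
  have e : (List.range 3 ×ˢ List.range q) = (List.range q).map (fun b => (0, b)) ++
      ((List.range q).map (fun b => (1, b)) ++ (List.range q).map (fun b => (2, b))) := by
    show (List.range 3).product (List.range q) = _
    rw [show List.range 3 = [0, 1, 2] from rfl]
    simp [List.product]
  rw [h3, List.range_add, List.range_add, e]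
  simp only [List.map_append, List.map_map]
  congr 1
  · conv_lhs => rw [← List.map_id (List.range q)]
    apply List.map_congr_left
    intro b _
    simp
  · congr 1
    · apply List.map_congr_left
      intro b _
      simp
    · apply List.map_congr_left
      intro b _
      simp only [Function.comp]
      ring

theorem pairs_lt {A : Arr} {B : Finset ℕ} {p : ℕ × ℕ} (hp : p ∈ A.pairs B) :
    p.1 < A.m ∧ p.2 < A.N := by
  obtain ⟨a, b⟩ := p
  have h := List.of_mem_zip hp
  have h1 := (List.mem_filter.mp h.1).1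
  have h2 := (List.mem_filter.mp h.2).1
  exact ⟨List.mem_range.mp h1, List.mem_range.mp h2⟩

/-- **The link** between the checker data and the inner array. -/
theorem link2 {q : ℕ} {D : GDat} (hm : D.m = 12) (hN : D.N = 4 * q) (hnb : D.nb = 3 * q)
    (hbid : ∀ e, e < 12 → ∀ y, y < 4 * q → D.bid e y = q * ((11 - e) / 4) + (4 * q - 1 - y) / 4)
    (hloc : ∀ e, e < 12 → ∀ y, y < 4 * q → D.loc e y = 2 ^ (e % 4) + 16 * 2 ^ (y % 4))
    (hbas : ∀ b, b < 3 * q → bas D.bt b = 256 * (b / q)) (B : Finset ℕ) :
    D.arr.f B = (innerT q D.tab).f B := by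
  have hP : D.arr.pairs B = (innerT q D.tab).pairs B := by
    unfold GArr.pairs Arr.pairs GArr.rowsOf Arr.rowsOf GArr.colsOf Arr.colsOf
    show ((List.range D.m).filter (fun i => decide (D.m - 1 - i ∉ B))).zip
      ((List.range D.N).filter (fun j => decide (D.m + j ∈ B))) =
      ((List.range 12).filter (fun i => decide (12 - 1 - i ∉ B))).zip
      ((List.range (4 * q)).filter (fun j => decide (12 + j ∈ B)))
    rw [hm, hN]
  unfold GArr.f Arr.f
  rw [hP]
  have hlt : ∀ p ∈ (innerT q D.tab).pairs B, p.1 < 12 ∧ p.2 < 4 * q := fun p hp => pairs_lt hp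
  generalize (innerT q D.tab).pairs B = P at hlt
  unfold GArr.val Arr.val
  show (List.range D.nb).foldr (fun b s => D.arr.g b (D.arr.part b P) ^^ s) false =
    (List.range 3 ×ˢ List.range q).foldr (fun ab s => (innerT q D.tab).g ab.1 ab.2
      ((innerT q D.tab).part ab.1 ab.2 P) ^^ s) false
  rw [hnb, range_mul3, List.foldr_map]
  apply foldr_xor_congr
  rintro ⟨a, b⟩ hab
  obtain ⟨ha, hb⟩ := List.mem_product.mp hab
  rw [List.mem_range] at ha hb
  simp only at ha hb ⊢
  have hbk : ∀ p : ℕ × ℕ, p.1 < 12 → p.2 < 4 * q → D.arr.bk p.1 p.2 = q * (p.1 / 4) + p.2 / 4 := by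
    intro p h1 h2
    show D.bid (D.m - 1 - p.1) (D.N - 1 - p.2) = _
    rw [hm, hN, hbid _ (by omega) _ (by omega)]
    have e1 : 11 - (12 - 1 - p.1) = p.1 := by omega
    have e2 : 4 * q - 1 - (4 * q - 1 - p.2) = p.2 := by omega
    rw [e1, e2]
  have hpart : D.arr.part (q * a + b) P = (innerT q D.tab).part a b P := by
    unfold GArr.part Arr.part
    apply List.filter_congr
    intro p hp
    obtain ⟨h1, h2⟩ := hlt p hp
    rw [hbk p h1 h2, Bool.eq_iff_iff]
    show ((q * (p.1 / 4) + p.2 / 4 == q * a + b) = true) ↔ ((p.1 / 4 == a && p.2 / 4 == b) = true)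
    rw [beq_iff_eq, Bool.and_eq_true, beq_iff_eq, beq_iff_eq]
    have hq : 0 < q := by omega
    have h3 : p.2 / 4 < q := by omega
    constructor
    · intro h
      have e1 : (q * (p.1 / 4) + p.2 / 4) / q = p.1 / 4 := by
        rw [Nat.mul_add_div hq, Nat.div_eq_of_lt h3, add_zero]
      have e2 : (q * a + b) / q = a := by
        rw [Nat.mul_add_div hq, Nat.div_eq_of_lt hb, add_zero]
      have e3 : p.1 / 4 = a := by rw [← e1, h, e2]
      refine ⟨e3, ?_⟩
      rw [e3] at h
      omega
    · rintro ⟨h4, h5⟩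
      rw [h4, h5]
  rw [hpart]
  have hsub : ∀ p ∈ (innerT q D.tab).part a b P, p.1 < 12 ∧ p.2 < 4 * q := fun p hp =>
    hlt p (List.mem_filter.mp hp).1
  generalize (innerT q D.tab).part a b P = L at hsub
  show (!L.isEmpty && D.tab.testBit (bas D.bt (q * a + b) + D.lsum L)) =
    (!L.isEmpty && D.tab.testBit
      (256 * a + (L.map (fun p => 2 ^ (3 - p.1 % 4) + 16 * 2 ^ (3 - p.2 % 4))).sum))
  have hq : 0 < q := by omega
  have e2 : (q * a + b) / q = a := by
    rw [Nat.mul_add_div hq, Nat.div_eq_of_lt hb, add_zero]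
  have e3 : q * a + b < 3 * q := by
    have h1 : q * a ≤ q * 2 := Nat.mul_le_mul_left q (by omega)
    omega
  have e4 : D.lsum L = (L.map (fun p => 2 ^ (3 - p.1 % 4) + 16 * 2 ^ (3 - p.2 % 4))).sum := by
    unfold GDat.lsum
    congr 1
    apply List.map_congr_left
    intro p hp
    obtain ⟨h1, h2⟩ := hsub p hp
    rw [hm, hN, hloc _ (by omega) _ (by omega)]
    have k1 : (12 - 1 - p.1) % 4 = 3 - p.1 % 4 := by omega
    have k2 : (4 * q - 1 - p.2) % 4 = 3 - p.2 % 4 := by omega
    rw [k1, k2]
  rw [hbas _ e3, e2, e4]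

end Pool.Agent.Simplex
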