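import Pool.Agent.Work.MP_f99e36_co.Comp
import Pool.Agent.Work.MP_f99e36_co.Moves

/-!
Nested composition: one rank r function f1 on {0, ..., r+N-1}, glued with its mirror image
(reoriented on eps).
-/

set_option autoImplicit false

namespace Pool.Agent.Simplex

open Finset

/-- Transfer of blocked bases. -/
theorem Blocked.transfer {α β : Type*} [DecidableEq α] [DecidableEq β] {pos : α → ℕ}
    {pos' : β → ℕ} {E : Finset α} {E' : Finset β} {f : Finset α → Bool} {f' : Finset β → Bool}
    {B : Finset α} {B' : Finset β} (ψ φ : α → β) (u w : α → Bool)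
    (hψ : ∀ e ∈ B, ψ e ∈ B') (hφ : ∀ x ∈ E \ B, φ x ∈ E' \ B')
    (h : ∀ e ∈ B, ∀ x ∈ E \ B,
      xch pos' f' B' (ψ e) (φ x) = (xch pos f B e x ^^ u e ^^ w x))
    (hb : Blocked pos E f B) : Blocked pos' E' f' B' := by
  obtain ⟨e, he, e', he', x, hx, x', hx', hs⟩ := hb
  refine ⟨ψ e, hψ e he, ψ e', hψ e' he', φ x, hφ x hx, φ x', hφ x' hx', ?_⟩
  rw [h e he x hx, h e he x' hx', h e' he' x hx, h e' he' x' hx', ← hs]
  generalize xch pos f B e x = a
  generalize xch pos f B e x' = b
  generalize xch pos f B e' x = c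
  generalize xch pos f B e' x' = d
  generalize u e = p
  generalize u e' = q
  generalize w x = s
  generalize w x' = t
  cases a <;> cases b <;> cases c <;> cases d <;> cases p <;> cases q <;> cases s <;> cases t <;>
    rfl

/-- parity of the intersection with eps -/
def par (eps B : Finset ℕ) : Bool := Nat.bodd (B ∩ eps).card

theorem par_insert {eps S : Finset ℕ} {x : ℕ} (hx : x ∉ S) :
    par eps (insert x S) = (par eps S ^^ decide (x ∈ eps)) := by
  unfold par
  by_cases h : x ∈ eps
  · rw [insert_inter_of_mem h, card_insert_of_notMem (fun hc => hx (mem_inter.mp hc).1),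
      Nat.bodd_succ]
    simp [h]
  · rw [insert_inter_of_notMem h]
    simp [h]

theorem par_erase {eps S : Finset ℕ} {e : ℕ} (he : e ∈ S) :
    par eps (S.erase e) = (par eps S ^^ decide (e ∈ eps)) := by
  have h := par_insert (eps := eps) (S := S.erase e) (x := e) (notMem_erase e S)
  rw [insert_erase he] at h
  rw [h]
  generalize par eps (S.erase e) = a
  generalize decide (e ∈ eps) = b
  cases a <;> cases b <;> rfl

theorem par_exch {eps S : Finset ℕ} {e x : ℕ} (he : e ∈ S) (hx : x ∉ S) :
    par eps (insert x (S.erase e)) = (par eps S ^^ decide (e ∈ eps) ^^ decide (x ∈ eps)) := by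
  rw [par_insert (fun h => hx (mem_of_mem_erase h)), par_erase he]

/-- the mirror image -/
def mir (n e : ℕ) : ℕ := n - 1 - e

/-- mirror image of f, reoriented on eps -/
def mirF (n : ℕ) (eps : Finset ℕ) (f : Finset ℕ → Bool) (B : Finset ℕ) : Bool :=
  f (B.image (mir n)) ^^ par eps B

theorem mir_mir {n e : ℕ} (he : e < n) : mir n (mir n e) = e := by
  unfold mir; omega

theorem mir_lt {n e : ℕ} (he : e < n) : mir n e < n := by
  unfold mir; omega

theorem mir_inj {n e x : ℕ} (he : e < n) (hx : x < n) (h : mir n e = mir n x) : e = x := by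
  unfold mir at h; omega

theorem mem_image_mir {n e : ℕ} {S : Finset ℕ} (hS : S ⊆ range n) (he : e < n) :
    mir n e ∈ S.image (mir n) ↔ e ∈ S := by
  rw [mem_image]
  constructor
  · rintro ⟨x, hx, hxe⟩
    rwa [← mir_inj (mem_range.mp (hS hx)) he hxe]
  · exact fun h => ⟨e, h, rfl⟩

theorem image_mir_exch {n e x : ℕ} {S : Finset ℕ} (hS : S ⊆ range n) (he : e < n) :
    (insert x (S.erase e)).image (mir n) = insert (mir n x) ((S.image (mir n)).erase (mir n e)) := by
  rw [image_insert]
  congr 1
  ext y
  simp only [mem_image, mem_erase]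
  constructor
  · rintro ⟨z, ⟨hze, hz⟩, rfl⟩
    exact ⟨fun hc => hze (mir_inj (mem_range.mp (hS hz)) he hc), z, hz, rfl⟩
  · rintro ⟨hy, z, hz, rfl⟩
    exact ⟨z, ⟨fun hc => hy (by rw [hc]), hz⟩, rfl⟩

theorem image_mir_card {n : ℕ} {S : Finset ℕ} (hS : S ⊆ range n) :
    (S.image (mir n)).card = S.card :=
  card_image_of_injOn (fun _ hx _ hy h => mir_inj (mem_range.mp (hS hx)) (mem_range.mp (hS hy)) h)

/-- exchange signs of the mirror image -/
theorem xch_mirF {n e x : ℕ} {eps S : Finset ℕ} {f : Finset ℕ → Bool} (hS : S ⊆ range n)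
    (he : e ∈ S) (hx : x < n) (hxS : x ∉ S) :
    xch id (mirF n eps f) S e x = (xch id f (S.image (mir n)) (mir n e) (mir n x) ^^ true ^^
      par eps S ^^ decide (e ∈ eps) ^^ decide (x ∈ eps)) := by
  have hen : e < n := mem_range.mp (hS he)
  unfold xch mirF
  rw [image_mir_exch hS hen, par_exch he hxS]
  have hex : e ≠ x := fun h => hxS (h ▸ he)
  have hlt : decide (id e < id x) = !decide (id (mir n e) < id (mir n x)) := by
    by_cases h : e < x
    · have h2 : ¬ (mir n e < mir n x) := by unfold mir; omega
      simp [h, h2]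
    · have h2 : mir n e < mir n x := by unfold mir; omega
      simp [h, h2]
  rw [hlt]
  generalize f (insert (mir n x) ((S.image (mir n)).erase (mir n e))) = a
  generalize decide (id (mir n e) < id (mir n x)) = b
  generalize par eps S = c
  generalize decide (e ∈ eps) = d
  generalize decide (x ∈ eps) = g
  cases a <;> cases b <;> cases c <;> cases d <;> cases g <;> rfl

theorem image_mir_add2 {n : ℕ} (z : Finset ℕ) (a b : ℕ) :
    (add2 z a b).image (mir n) = add2 (z.image (mir n)) (mir n a) (mir n b) := by
  unfold add2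
  rw [image_insert, image_insert]

theorem par_add2 {eps z : Finset ℕ} {a b : ℕ} (ha : a ∉ z) (hb : b ∉ z) (hab : a ≠ b) :
    par eps (add2 z a b) = (par eps z ^^ decide (a ∈ eps) ^^ decide (b ∈ eps)) := by
  unfold add2
  rw [par_insert, par_insert hb]
  · generalize par eps z = p
    generalize decide (a ∈ eps) = q
    generalize decide (b ∈ eps) = s
    cases p <;> cases q <;> cases s <;> rfl
  · rw [mem_insert, not_or]
    exact ⟨hab, ha⟩

theorem GP3_mirF {n r : ℕ} {E E' eps : Finset ℕ} {f : Finset ℕ → Bool}
    (hE' : E' ⊆ range n) (hE : ∀ x ∈ E', mir n x ∈ E)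
    (h : GP3 id E r f) : GP3 id E' r (mirF n eps f) := by
  intro z a b c d hz ha hb hc hd haz hbz hcz hdz hcard hab hbc hcd
  have hlt : ∀ x ∈ E', x < n := fun x hx => mem_range.mp (hE' hx)
  have hzn : z ⊆ range n := hz.trans hE'
  simp only [id] at hab hbc hcd
  have an := hlt a ha
  have bn := hlt b hb
  have cn := hlt c hc
  have dn := hlt d hd
  have key := h (z.image (mir n)) (mir n d) (mir n c) (mir n b) (mir n a)
    (by
      intro y hy
      obtain ⟨x, hx, rfl⟩ := mem_image.mp hy
      exact hE x (hz hx))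
    (hE d hd) (hE c hc) (hE b hb) (hE a ha)
    (by rwa [mem_image_mir hzn dn]) (by rwa [mem_image_mir hzn cn])
    (by rwa [mem_image_mir hzn bn]) (by rwa [mem_image_mir hzn an])
    (by rw [image_mir_card hzn]; exact hcard)
    (by simp only [id]; unfold mir; omega) (by simp only [id]; unfold mir; omega)
    (by simp only [id]; unfold mir; omega)
  unfold mirF
  simp only [image_mir_add2]
  rw [par_add2 haz hcz (by omega), par_add2 hbz hdz (by omega), par_add2 haz hbz (by omega),
    par_add2 hcz hdz (by omega), par_add2 haz hdz (by omega), par_add2 hbz hcz (by omega)]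
  have e1 : ∀ u v : ℕ, add2 (z.image (mir n)) u v = add2 (z.image (mir n)) v u := fun u v =>
    add2_comm _ u v
  rw [e1 (mir n d) (mir n b), e1 (mir n c) (mir n a), e1 (mir n d) (mir n c),
    e1 (mir n b) (mir n a), e1 (mir n d) (mir n a), e1 (mir n c) (mir n b)] at key
  revert key
  generalize f (add2 (z.image (mir n)) (mir n a) (mir n c)) = x1
  generalize f (add2 (z.image (mir n)) (mir n b) (mir n d)) = x2
  generalize f (add2 (z.image (mir n)) (mir n a) (mir n b)) = x3
  generalize f (add2 (z.image (mir n)) (mir n c) (mir n d)) = x4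
  generalize f (add2 (z.image (mir n)) (mir n a) (mir n d)) = x5
  generalize f (add2 (z.image (mir n)) (mir n b) (mir n c)) = x6
  generalize par eps z = y0
  generalize decide (a ∈ eps) = y1
  generalize decide (b ∈ eps) = y2
  generalize decide (c ∈ eps) = y3
  generalize decide (d ∈ eps) = y4
  revert x1 x2 x3 x4 x5 x6 y0 y1 y2 y3 y4
  decide

/-! ### the glued function -/

/-- the glued function -/
def nestF (r N : ℕ) (eps : Finset ℕ) (f1 : Finset ℕ → Bool) : Finset ℕ → Bool :=
  comp id r r f1 (mirF (2 * r + N) eps f1)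

variable {r N : ℕ} {eps : Finset ℕ} {f1 : Finset ℕ → Bool}

theorem nestF_GP3 (hr : 2 ≤ r) (hgp : GP3 id (range (r + N)) r f1) :
    GP3 id (range (2 * r + N)) (2 * r) (nestF r N eps f1) := by
  have h2 : GP3 id (Ico r (2 * r + N)) r (mirF (2 * r + N) eps f1) := by
    refine GP3_mirF (E := range (r + N)) ?_ ?_ hgp
    · intro x hx
      rw [mem_Ico] at hx
      rw [mem_range]; exact hx.2
    · intro x hx
      rw [mem_Ico] at hx
      rw [mem_range]; unfold mir; omega
  have key := comp_GP3 (pos := id) (E := range (2 * r + N)) (E1 := range (r + N))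
    (E2 := Ico r (2 * r + N)) (r1 := r) (r2 := r) (f1 := f1) (f2 := mirF (2 * r + N) eps f1)
    (fun x _ y _ h => h)
    (by
      intro x hx y hy hyx
      simp only [id, mem_range] at *
      omega)
    (by
      intro x hx y hy hyx
      simp only [id, mem_range, mem_Ico] at *
      omega)
    (by
      have : range (2 * r + N) \ range (r + N) = Ico (r + N) (2 * r + N) := by
        ext x; simp only [mem_sdiff, mem_range, mem_Ico]; omega
      rw [this, Nat.card_Ico]; omega)
    (by
      have : range (2 * r + N) \ Ico r (2 * r + N) = range r := by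
        ext x; simp only [mem_sdiff, mem_range, mem_Ico]; omega
      rw [this, card_range])
    hr hr hgp h2
  rw [← two_mul] at key
  exact key

theorem nestF_union {X Y : Finset ℕ} (h : ∀ x ∈ X, ∀ y ∈ Y, x < y) (hX : X.card = r)
    (hY : Y.card = r) :
    nestF r N eps f1 (X ∪ Y) = (f1 X ^^ mirF (2 * r + N) eps f1 Y) :=
  comp_union (pos := id) h hX hY

/-- exchange inside the first part -/
theorem nestF_exL {X Y : Finset ℕ} {e x : ℕ} (h : ∀ x ∈ X, ∀ y ∈ Y, x < y) (hX : X.card = r)
    (hY : Y.card = r) (he : e ∈ X) (hx : x ∉ X) (hxY : ∀ y ∈ Y, x < y) :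
    nestF r N eps f1 (insert x ((X ∪ Y).erase e)) =
      (f1 (insert x (X.erase e)) ^^ mirF (2 * r + N) eps f1 Y) := by
  have heY : e ∉ Y := fun hc => lt_irrefl _ (h e he e hc)
  have hs : insert x ((X ∪ Y).erase e) = insert x (X.erase e) ∪ Y := by
    ext y
    simp only [mem_insert, mem_erase, mem_union]
    constructor
    · rintro (h1 | ⟨h1, h2 | h2⟩)
      · exact Or.inl (Or.inl h1)
      · exact Or.inl (Or.inr ⟨h1, h2⟩)
      · exact Or.inr h2
    · rintro ((h1 | ⟨h1, h2⟩) | h2)
      · exact Or.inl h1
      · exact Or.inr ⟨h1, Or.inl h2⟩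
      · exact Or.inr ⟨fun hc => heY (hc ▸ h2), Or.inr h2⟩
  rw [hs, nestF_union]
  · intro y hy z hz
    rcases mem_insert.mp hy with rfl | hy
    · exact hxY z hz
    · exact h y (mem_of_mem_erase hy) z hz
  · rw [card_insert_of_notMem (fun hc => hx (mem_of_mem_erase hc)), card_erase_of_mem he, hX]
    have : 0 < X.card := card_pos.mpr ⟨e, he⟩
    omega
  · exact hY

/-- exchange inside the last part -/
theorem nestF_exR {X Y : Finset ℕ} {e x : ℕ} (h : ∀ x ∈ X, ∀ y ∈ Y, x < y) (hX : X.card = r)
    (hY : Y.card = r) (he : e ∈ Y) (hx : x ∉ Y) (hxX : ∀ y ∈ X, y < x) :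
    nestF r N eps f1 (insert x ((X ∪ Y).erase e)) =
      (f1 X ^^ mirF (2 * r + N) eps f1 (insert x (Y.erase e))) := by
  have heX : e ∉ X := fun hc => lt_irrefl _ (h e hc e he)
  have hs : insert x ((X ∪ Y).erase e) = X ∪ insert x (Y.erase e) := by
    ext y
    simp only [mem_insert, mem_erase, mem_union]
    constructor
    · rintro (h1 | ⟨h1, h2 | h2⟩)
      · exact Or.inr (Or.inl h1)
      · exact Or.inl h2
      · exact Or.inr (Or.inr ⟨h1, h2⟩)
    · rintro (h2 | (h1 | ⟨h1, h2⟩))
      · exact Or.inr ⟨fun hc => heX (hc ▸ h2), Or.inl h2⟩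
      · exact Or.inl h1
      · exact Or.inr ⟨h1, Or.inr h2⟩
  rw [hs, nestF_union]
  · intro y hy z hz
    rcases mem_insert.mp hz with rfl | hz
    · exact hxX y hy
    · exact h y hy z (mem_of_mem_erase hz)
  · exact hX
  · rw [card_insert_of_notMem (fun hc => hx (mem_of_mem_erase hc)), card_erase_of_mem he, hY]
    have : 0 < Y.card := card_pos.mpr ⟨e, he⟩
    omega

/-- exchange across the cut, upwards: b moves to the first part -/
theorem nestF_exLR {X Y : Finset ℕ} {e b g : ℕ} (h : ∀ x ∈ X, ∀ y ∈ Y, x < y) (hX : X.card = r)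
    (hY : Y.card = r) (he : e ∈ X) (hb : b ∈ Y) (hbm : ∀ y ∈ Y, b ≤ y) (hg : g ∉ Y)
    (hbg : b < g) :
    nestF r N eps f1 (insert g ((X ∪ Y).erase e)) =
      (f1 (insert b (X.erase e)) ^^ mirF (2 * r + N) eps f1 (insert g (Y.erase b))) := by
  have heY : e ∉ Y := fun hc => lt_irrefl _ (h e he e hc)
  have hs : insert g ((X ∪ Y).erase e) = insert b (X.erase e) ∪ insert g (Y.erase b) := by
    ext y
    simp only [mem_insert, mem_erase, mem_union]
    constructor
    · rintro (h1 | ⟨h1, h2 | h2⟩)
      · exact Or.inr (Or.inl h1)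
      · exact Or.inl (Or.inr ⟨h1, h2⟩)
      · by_cases hyb : y = b
        · exact Or.inl (Or.inl hyb)
        · exact Or.inr (Or.inr ⟨hyb, h2⟩)
    · rintro ((h1 | ⟨h1, h2⟩) | (h1 | ⟨h1, h2⟩))
      · subst h1; exact Or.inr ⟨fun hc => heY (hc ▸ hb), Or.inr hb⟩
      · exact Or.inr ⟨h1, Or.inl h2⟩
      · exact Or.inl h1
      · exact Or.inr ⟨fun hc => heY (hc ▸ h2), Or.inr h2⟩
  have hbX : b ∉ X := fun hc => lt_irrefl _ (h b hc b hb)
  rw [hs, nestF_union]
  · intro y hy z hz
    rcases mem_insert.mp hy with rfl | hy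
    · rcases mem_insert.mp hz with rfl | hz
      · exact hbg
      · exact lt_of_le_of_ne (hbm z (mem_of_mem_erase hz)) (ne_of_mem_erase hz).symm
    · rcases mem_insert.mp hz with rfl | hz
      · exact (h y (mem_of_mem_erase hy) b hb).trans hbg
      · exact h y (mem_of_mem_erase hy) z (mem_of_mem_erase hz)
  · rw [card_insert_of_notMem (fun hc => hbX (mem_of_mem_erase hc)), card_erase_of_mem he, hX]
    have : 0 < X.card := card_pos.mpr ⟨e, he⟩
    omega
  · rw [card_insert_of_notMem (fun hc => hg (mem_of_mem_erase hc)), card_erase_of_mem hb, hY]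
    have : 0 < Y.card := card_pos.mpr ⟨b, hb⟩
    omega

/-- exchange across the cut, downwards: a moves to the last part -/
theorem nestF_exRL {X Y : Finset ℕ} {e a g : ℕ} (h : ∀ x ∈ X, ∀ y ∈ Y, x < y) (hX : X.card = r)
    (hY : Y.card = r) (he : e ∈ Y) (ha : a ∈ X) (ham : ∀ y ∈ X, y ≤ a) (hg : g ∉ X)
    (hga : g < a) :
    nestF r N eps f1 (insert g ((X ∪ Y).erase e)) =
      (f1 (insert g (X.erase a)) ^^ mirF (2 * r + N) eps f1 (insert a (Y.erase e))) := by
  have heX : e ∉ X := fun hc => lt_irrefl _ (h e hc e he)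
  have haY : a ∉ Y := fun hc => lt_irrefl _ (h a ha a hc)
  have hs : insert g ((X ∪ Y).erase e) = insert g (X.erase a) ∪ insert a (Y.erase e) := by
    ext y
    simp only [mem_insert, mem_erase, mem_union]
    constructor
    · rintro (h1 | ⟨h1, h2 | h2⟩)
      · exact Or.inl (Or.inl h1)
      · by_cases hya : y = a
        · exact Or.inr (Or.inl hya)
        · exact Or.inl (Or.inr ⟨hya, h2⟩)
      · exact Or.inr (Or.inr ⟨h1, h2⟩)
    · rintro ((h1 | ⟨h1, h2⟩) | (h1 | ⟨h1, h2⟩))
      · exact Or.inl h1
      · exact Or.inr ⟨fun hc => heX (hc ▸ h2), Or.inl h2⟩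
      · subst h1; exact Or.inr ⟨fun hc => heX (hc ▸ ha), Or.inl ha⟩
      · exact Or.inr ⟨h1, Or.inr h2⟩
  rw [hs, nestF_union]
  · intro y hy z hz
    rcases mem_insert.mp hz with rfl | hz
    · rcases mem_insert.mp hy with rfl | hy
      · exact hga
      · exact lt_of_le_of_ne (ham y (mem_of_mem_erase hy)) (ne_of_mem_erase hy)
    · rcases mem_insert.mp hy with rfl | hy
      · exact hga.trans (h a ha z (mem_of_mem_erase hz))
      · exact h y (mem_of_mem_erase hy) z (mem_of_mem_erase hz)
  · rw [card_insert_of_notMem (fun hc => hg (mem_of_mem_erase hc)), card_erase_of_mem ha, hX]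
    have : 0 < X.card := card_pos.mpr ⟨a, ha⟩
    omega
  · rw [card_insert_of_notMem (fun hc => haY (mem_of_mem_erase hc)), card_erase_of_mem he, hY]
    have : 0 < Y.card := card_pos.mpr ⟨e, he⟩
    omega

/-- a blocked first part blocks the whole basis -/
theorem nestF_liftL {X Y : Finset ℕ} {b : ℕ} (h : ∀ x ∈ X, ∀ y ∈ Y, x < y) (hX : X.card = r)
    (hY : Y.card = r) (hYn : Y ⊆ range (2 * r + N)) (hb : b ∈ Y) (hbm : ∀ y ∈ Y, b ≤ y)
    (hbl : (b < r + N ∧ Blocked id (range (b + 1)) f1 X) ∨ Blocked id (range b) f1 X) :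
    Blocked id (range (2 * r + N)) (nestF r N eps f1) (X ∪ Y) := by
  have hbn : b < 2 * r + N := mem_range.mp (hYn hb)
  -- evaluation for x < b
  have hlow : ∀ e ∈ X, ∀ x, x < b → x ∉ X →
      xch id (nestF r N eps f1) (X ∪ Y) e x =
        (xch id f1 X e x ^^ false ^^ mirF (2 * r + N) eps f1 Y) := by
    intro e he x hxb hxX
    unfold xch
    rw [nestF_exL h hX hY he hxX (fun y hy => lt_of_lt_of_le hxb (hbm y hy))]
    generalize f1 (insert x (X.erase e)) = p
    generalize mirF (2 * r + N) eps f1 Y = q
    generalize decide (id e < id x) = s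
    cases p <;> cases q <;> cases s <;> rfl
  have hout : ∀ x, x < b → x ∉ X → x ∈ range (2 * r + N) \ (X ∪ Y) := by
    intro x hxb hxX
    rw [mem_sdiff, mem_range, mem_union, not_or]
    exact ⟨hxb.trans hbn, hxX, fun hc => absurd (hbm x hc) (by omega)⟩
  rcases hbl with ⟨hbN, hbl⟩ | hbl
  · obtain ⟨g, hgn, hg⟩ : ∃ g ∈ Ioo b (2 * r + N), g ∉ Y := by
      by_contra hc
      push Not at hc
      have hsub : Ioo b (2 * r + N) ⊆ Y.erase b := by
        intro y hy
        rw [mem_erase]
        exact ⟨by rw [mem_Ioo] at hy; omega, hc y hy⟩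
      have := card_le_card hsub
      rw [Nat.card_Ioo, card_erase_of_mem hb, hY] at this
      have : 0 < Y.card := card_pos.mpr ⟨b, hb⟩
      omega
    rw [mem_Ioo] at hgn
    have hbX : b ∉ X := fun hc => lt_irrefl _ (h b hc b hb)
    refine hbl.transfer (fun e => e) (fun x => if x = b then g else x) (fun _ => false)
      (fun x => if x = b then mirF (2 * r + N) eps f1 (insert g (Y.erase b)) else
        mirF (2 * r + N) eps f1 Y) ?_ ?_ ?_
    · intro e he
      exact mem_union_left _ he
    · intro x hx
      rw [mem_sdiff, mem_range] at hx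
      by_cases hxb : x = b
      · simp only [hxb, if_true]
        rw [mem_sdiff, mem_range, mem_union, not_or]
        refine ⟨hgn.2, fun hc => ?_, hg⟩
        have := h g hc b hb
        omega
      · simp only [hxb, if_false]
        exact hout x (by omega) hx.2
    · intro e he x hx
      rw [mem_sdiff, mem_range] at hx
      by_cases hxb : x = b
      · simp only [hxb, if_true]
        unfold xch
        rw [nestF_exLR h hX hY he hb hbm hg hgn.1]
        have h1 : id e < id g := by
          have := h e he b hb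
          simp only [id]; omega
        have h2 : id e < id b := h e he b hb
        rw [decide_eq_true h1, decide_eq_true h2]
        generalize f1 (insert b (X.erase e)) = p
        generalize mirF (2 * r + N) eps f1 (insert g (Y.erase b)) = q
        cases p <;> cases q <;> rfl
      · simp only [hxb, if_false]
        exact hlow e he x (by omega) hx.2
  · refine hbl.transfer (fun e => e) (fun x => x) (fun _ => false)
      (fun _ => mirF (2 * r + N) eps f1 Y) ?_ ?_ ?_
    · intro e he
      exact mem_union_left _ he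
    · intro x hx
      rw [mem_sdiff, mem_range] at hx
      exact hout x hx.1 hx.2
    · intro e he x hx
      rw [mem_sdiff, mem_range] at hx
      exact hlow e he x hx.1 hx.2

/-- a blocked last part blocks the whole basis (mirror image) -/
theorem nestF_liftR {X Y : Finset ℕ} {a : ℕ} (h : ∀ x ∈ X, ∀ y ∈ Y, x < y) (hX : X.card = r)
    (hY : Y.card = r) (hYn : Y ⊆ range (2 * r + N)) (ha : a ∈ X) (ham : ∀ y ∈ X, y ≤ a)
    (han : a < 2 * r + N)
    (hbl : (r ≤ a ∧ Blocked id (range (mir (2 * r + N) a + 1)) f1 (Y.image (mir (2 * r + N)))) ∨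
      Blocked id (range (mir (2 * r + N) a)) f1 (Y.image (mir (2 * r + N)))) :
    Blocked id (range (2 * r + N)) (nestF r N eps f1) (X ∪ Y) := by
  set n := 2 * r + N with hn
  have hfin : ∀ x, x < mir n a → x ∉ Y.image (mir n) → a < mir n x ∧ mir n x < n ∧
      mir n x ∉ Y := by
    intro x hxa hxY
    have h1 : x < n := lt_trans hxa (mir_lt han)
    refine ⟨by unfold mir at hxa ⊢; omega, mir_lt h1, fun hc => hxY ?_⟩
    rw [mem_image]
    exact ⟨mir n x, hc, mir_mir h1⟩
  have hlow : ∀ e ∈ Y.image (mir n), ∀ x, x < mir n a → x ∉ Y.image (mir n) →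
      xch id (nestF r N eps f1) (X ∪ Y) (mir n e) (mir n x) =
        (xch id f1 (Y.image (mir n)) e x ^^ decide (mir n e ∈ eps) ^^
          (true ^^ f1 X ^^ par eps Y ^^ decide (mir n x ∈ eps))) := by
    intro e he x hxa hxY
    obtain ⟨h1, h2, h3⟩ := hfin x hxa hxY
    obtain ⟨y, hy, rfl⟩ := mem_image.mp he
    have hyn : y < n := mem_range.mp (hYn hy)
    rw [mir_mir hyn]
    have hxn : x < n := lt_trans hxa (mir_lt han)
    have e1 : xch id (nestF r N eps f1) (X ∪ Y) y (mir n x) =
        (f1 X ^^ xch id (mirF n eps f1) Y y (mir n x)) := by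
      unfold xch
      rw [nestF_exR h hX hY hy h3 (fun z hz => lt_of_le_of_lt (ham z hz) h1)]
      generalize f1 X = p
      generalize mirF (2 * r + N) eps f1 (insert (mir n x) (Y.erase y)) = q
      generalize decide (id y < id (mir n x)) = s
      cases p <;> cases q <;> cases s <;> rfl
    rw [e1, xch_mirF hYn hy h2 h3, mir_mir hxn]
    generalize f1 X = p
    generalize xch id f1 (Y.image (mir n)) (mir n y) x = q
    generalize par eps Y = s
    generalize decide (y ∈ eps) = t
    generalize decide (mir n x ∈ eps) = u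
    cases p <;> cases q <;> cases s <;> cases t <;> cases u <;> rfl
  have hout : ∀ x, x < mir n a → x ∉ Y.image (mir n) → mir n x ∈ range n \ (X ∪ Y) := by
    intro x hxa hxY
    obtain ⟨h1, h2, h3⟩ := hfin x hxa hxY
    rw [mem_sdiff, mem_range, mem_union, not_or]
    exact ⟨h2, fun hc => absurd (ham _ hc) (by omega), h3⟩
  have hmemY : ∀ e ∈ Y.image (mir n), mir n e ∈ X ∪ Y := by
    intro e he
    obtain ⟨y, hy, rfl⟩ := mem_image.mp he
    rw [mir_mir (mem_range.mp (hYn hy))]
    exact mem_union_right _ hy
  have haY : a ∉ Y := fun hc => lt_irrefl _ (h a ha a hc)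
  rcases hbl with ⟨har, hbl⟩ | hbl
  · obtain ⟨g, hga, hg⟩ : ∃ g ∈ range a, g ∉ X := by
      by_contra hc
      push Not at hc
      have hsub : range a ⊆ X.erase a := by
        intro y hy
        rw [mem_erase]
        exact ⟨by rw [mem_range] at hy; omega, hc y hy⟩
      have := card_le_card hsub
      rw [card_range, card_erase_of_mem ha, hX] at this
      have : 0 < X.card := card_pos.mpr ⟨a, ha⟩
      omega
    rw [mem_range] at hga
    refine hbl.transfer (mir n) (fun x => if x = mir n a then g else mir n x)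
      (fun e => decide (mir n e ∈ eps))
      (fun x => if x = mir n a then
        (true ^^ f1 (insert g (X.erase a)) ^^ par eps Y ^^ decide (a ∈ eps)) else
        (true ^^ f1 X ^^ par eps Y ^^ decide (mir n x ∈ eps))) hmemY ?_ ?_
    · intro x hx
      rw [mem_sdiff, mem_range] at hx
      by_cases hxa : x = mir n a
      · simp only [hxa, if_true]
        rw [mem_sdiff, mem_range, mem_union, not_or]
        refine ⟨by omega, hg, fun hc => ?_⟩
        have := h a ha g hc
        omega
      · simp only [hxa, if_false]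
        exact hout x (by omega) hx.2
    · intro e he x hx
      rw [mem_sdiff, mem_range] at hx
      by_cases hxa : x = mir n a
      · simp only [hxa, if_true]
        obtain ⟨y, hy, rfl⟩ := mem_image.mp he
        have hyn : y < n := mem_range.mp (hYn hy)
        have hay : a < y := h a ha y hy
        rw [mir_mir hyn]
        unfold xch
        rw [nestF_exRL h hX hY hy ha ham hg hga, ← hn]
        unfold mirF
        rw [image_mir_exch hYn hyn, par_exch hy haY]
        have h1 : ¬ (id y < id g) := by simp only [id]; omega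
        have h2 : id (mir n y) < id (mir n a) := by simp only [id]; unfold mir; omega
        rw [decide_eq_false h1, decide_eq_true h2]
        generalize f1 (insert g (X.erase a)) = p
        generalize f1 (insert (mir n a) ((Y.image (mir n)).erase (mir n y))) = q
        generalize par eps Y = s
        generalize decide (y ∈ eps) = t
        generalize decide (a ∈ eps) = u
        cases p <;> cases q <;> cases s <;> cases t <;> cases u <;> rfl
      · simp only [hxa, if_false]
        exact hlow e he x (by omega) hx.2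
  · refine hbl.transfer (mir n) (mir n) (fun e => decide (mir n e ∈ eps))
      (fun x => (true ^^ f1 X ^^ par eps Y ^^ decide (mir n x ∈ eps))) hmemY ?_ ?_
    · intro x hx
      rw [mem_sdiff, mem_range] at hx
      exact hout x hx.1 hx.2
    · intro e he x hx
      rw [mem_sdiff, mem_range] at hx
      exact hlow e he x hx.1 hx.2

/-- **Nested composition theorem.** -/
theorem nested_main {q0 D : ℕ} (hr : 2 ≤ r) (hN : N = 2 * q0 + D) (Exc : Finset ℕ → Prop)
    (hgp : GP3 id (range (r + N)) r f1)
    (H1 : ∀ (X : Finset ℕ) (b : ℕ), X ⊆ range b → X.card = r → r + q0 ≤ b → b < r + N →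
      Exc X ∨ Blocked id (range (b + 1)) f1 X)
    (H2 : ∀ X : Finset ℕ, X ⊆ range (r + N) → X.card = r →
      Exc X ∨ Blocked id (range (r + N)) f1 X)
    (H3 : ∀ X : Finset ℕ, Exc X → X ⊆ range (r + q0))
    (H4 : ∀ X1 X2 : Finset ℕ, Exc X1 → Exc X2 → ∃ x ∈ X1, ∃ y ∈ X2,
      ∃ e ∈ Ico (r + q0) (r + q0 + D), ∃ f ∈ Ico (r + q0) (r + q0 + D),
      (f1 (insert e (X1.erase x)) ^^ f1 (insert f (X1.erase x)) ^^
        f1 (insert (2 * r + N - 1 - e) (X2.erase y)) ^^
        f1 (insert (2 * r + N - 1 - f) (X2.erase y)) ^^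
        decide (e ∈ eps) ^^ decide (f ∈ eps)) = true) :
    GP3 id (range (2 * r + N)) (2 * r) (nestF r N eps f1) ∧
      ∀ B : Finset ℕ, B ⊆ range (2 * r + N) → B.card = 2 * r →
        Blocked id (range (2 * r + N)) (nestF r N eps f1) B := by
  refine ⟨nestF_GP3 hr hgp, ?_⟩
  intro B hBn hBc
  obtain ⟨X, Y, hXY, hd, hXc, hlt⟩ := exists_split (pos := id) B (fun x _ y _ h => h) r
    (by omega)
  simp only [id] at hlt
  have hYc : Y.card = r := by
    have h3 : X.card + Y.card = B.card := by rw [← hXY, card_union_of_disjoint hd]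
    omega
  subst hXY
  have hXn : X ⊆ range (2 * r + N) := fun x hx => hBn (mem_union_left _ hx)
  have hYn : Y ⊆ range (2 * r + N) := fun x hx => hBn (mem_union_right _ hx)
  obtain ⟨a, ha, ham⟩ := exists_max_image X id (by rw [← card_pos]; omega)
  obtain ⟨b, hb, hbm⟩ := exists_min_image Y id (by rw [← card_pos]; omega)
  simp only [id] at ham hbm
  have hab : a < b := hlt a ha b hb
  have han : a < 2 * r + N := mem_range.mp (hXn ha)
  have hbn : b < 2 * r + N := mem_range.mp (hYn hb)
  -- bounds from cardinalities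
  have hbr : b ≤ r + N := by
    have hsub : Y ⊆ Ico b (2 * r + N) := fun y hy =>
      mem_Ico.mpr ⟨hbm y hy, mem_range.mp (hYn hy)⟩
    have := card_le_card hsub
    rw [Nat.card_Ico, hYc] at this
    omega
  have har : r ≤ a + 1 := by
    have hsub : X ⊆ range (a + 1) := fun y hy => mem_range.mpr (by have := ham y hy; omega)
    have := card_le_card hsub
    rw [card_range, hXc] at this
    exact this
  have hXb : X ⊆ range b := fun x hx => mem_range.mpr (hlt x hx b hb)
  -- the mirror image of Y
  set n := 2 * r + N with hn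
  have hYb : Y.image (mir n) ⊆ range (mir n a) := by
    intro y hy
    obtain ⟨z, hz, rfl⟩ := mem_image.mp hy
    have h1 := hlt a ha z hz
    have h2 := mem_range.mp (hYn hz)
    rw [mem_range]; unfold mir; omega
  have hYcard : (Y.image (mir n)).card = r := by rw [image_mir_card hYn, hYc]
  -- the last part is exceptional or the basis is blocked, when a is small
  have stepY : a < r + q0 + D → Exc (Y.image (mir n)) ∨
      Blocked id (range n) (nestF r N eps f1) (X ∪ Y) := by
    intro haq
    by_cases har' : r ≤ a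
    · have h1 : mir n a < r + N := by unfold mir; omega
      have h2 : r + q0 ≤ mir n a := by unfold mir; omega
      rcases H1 _ _ hYb hYcard h2 h1 with h | h
      · exact Or.inl h
      · exact Or.inr (nestF_liftR hlt hXc hYc hYn ha ham han (Or.inl ⟨har', h⟩))
    · have h1 : mir n a = r + N := by unfold mir; omega
      rcases H2 (Y.image (mir n)) (by rw [← h1]; exact hYb) hYcard with h | h
      · exact Or.inl h
      · refine Or.inr (nestF_liftR hlt hXc hYc hYn ha ham han (Or.inr ?_))
        rw [← hn, h1]; exact h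
  have excY : Exc (Y.image (mir n)) → ∀ y ∈ Y, r + q0 + D ≤ y := by
    intro hE y hy
    have h1 := mem_range.mp (H3 _ hE (mem_image_of_mem _ hy))
    have h2 := mem_range.mp (hYn hy)
    unfold mir at h1
    omega
  by_cases hbq : b < r + q0
  · -- small b
    rcases stepY (by omega) with h | h
    · have := excY h b hb
      omega
    · exact h
  · -- large b
    have stepX : Exc X ∨ Blocked id (range n) (nestF r N eps f1) (X ∪ Y) := by
      by_cases hbN : b < r + N
      · rcases H1 X b hXb hXc (by omega) hbN with h | h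
        · exact Or.inl h
        · exact Or.inr (nestF_liftL hlt hXc hYc hYn hb hbm (Or.inl ⟨hbN, h⟩))
      · have hbe : b = r + N := by omega
        rcases H2 X (by rw [← hbe]; exact hXb) hXc with h | h
        · exact Or.inl h
        · refine Or.inr (nestF_liftL hlt hXc hYc hYn hb hbm (Or.inr ?_))
          rw [hbe]; exact h
    rcases stepX with hEX | h
    · have haX : a < r + q0 := mem_range.mp (H3 X hEX ha)
      rcases stepY (by omega) with hEY | h
      · -- both exceptional
        obtain ⟨x, hx, y, hy, e, he, f, hf, hxor⟩ := H4 X _ hEX hEY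
        rw [mem_Ico] at he hf
        obtain ⟨y', hy', rfl⟩ := mem_image.mp hy
        have hy'n : y' < n := mem_range.mp (hYn hy')
        have hYlow := excY hEY
        have hnX : ∀ t, r + q0 ≤ t → t ∉ X := by
          intro t ht hc
          have := mem_range.mp (H3 X hEX hc)
          omega
        have hnY : ∀ t, t < r + q0 + D → t ∉ Y := by
          intro t ht hc
          have := hYlow t hc
          omega
        have hXlt : ∀ t, r + q0 ≤ t → ∀ z ∈ X, z < t := by
          intro t ht z hz
          have := mem_range.mp (H3 X hEX hz)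
          omega
        have hYgt : ∀ t, t < r + q0 + D → ∀ z ∈ Y, t < z := by
          intro t ht z hz
          have := hYlow z hz
          omega
        have hin : ∀ t, r + q0 ≤ t → t < r + q0 + D → t ∈ range n \ (X ∪ Y) := by
          intro t h1 h2
          rw [mem_sdiff, mem_range, mem_union, not_or]
          exact ⟨by omega, hnX t h1, hnY t h2⟩
        refine ⟨x, mem_union_left _ hx, y', mem_union_right _ hy', e, hin e he.1 he.2,
          f, hin f hf.1 hf.2, ?_⟩
        have ex : ∀ t, r + q0 ≤ t → t < r + q0 + D →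
            xch id (nestF r N eps f1) (X ∪ Y) x t =
              (f1 (insert t (X.erase x)) ^^ mirF n eps f1 Y ^^ true) := by
          intro t h1 h2
          unfold xch
          rw [nestF_exL hlt hXc hYc hx (hnX t h1) (hYgt t h2)]
          have h3 : id x < id t := hXlt t h1 x hx
          rw [decide_eq_true h3]
        have ey : ∀ t, r + q0 ≤ t → t < r + q0 + D →
            xch id (nestF r N eps f1) (X ∪ Y) y' t =
              (f1 X ^^ (f1 (insert (n - 1 - t) ((Y.image (mir n)).erase (mir n y'))) ^^
                (par eps Y ^^ decide (y' ∈ eps) ^^ decide (t ∈ eps))) ^^ false) := by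
          intro t h1 h2
          unfold xch
          rw [nestF_exR hlt hXc hYc hy' (hnY t h2) (hXlt t h1)]
          have h3 : ¬ (id y' < id t) := by
            have := hYgt t h2 y' hy'
            simp only [id]; omega
          rw [decide_eq_false h3]
          rw [← hn]
          unfold mirF
          rw [image_mir_exch hYn hy'n, par_exch hy' (hnY t h2)]
          rfl
        rw [ex e he.1 he.2, ex f hf.1 hf.2, ey e he.1 he.2, ey f hf.1 hf.2, ← hxor]
        generalize f1 (insert e (X.erase x)) = c1
        generalize f1 (insert f (X.erase x)) = c2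
        generalize mirF n eps f1 Y = c3
        generalize f1 X = c4
        generalize par eps Y = c5
        generalize f1 (insert (n - 1 - e) ((Y.image (mir n)).erase (mir n y'))) = c6
        generalize f1 (insert (n - 1 - f) ((Y.image (mir n)).erase (mir n y'))) = c7
        generalize decide (y' ∈ eps) = c8
        generalize decide (e ∈ eps) = c9
        generalize decide (f ∈ eps) = c10
        cases c1 <;> cases c2 <;> cases c3 <;> cases c4 <;> cases c5 <;> cases c6 <;>
          cases c7 <;> cases c8 <;> cases c9 <;> cases c10 <;> rfl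
      · exact h
    · exact h

end Pool.Agent.Simplex
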