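import Pool.Agent.Work.MP_f99e36_co.InnerT

/-!
The concrete inner array (q = 17) and the order of insertion of its elements.
-/

set_option autoImplicit false

namespace Pool.Agent.Simplex

open Finset

/-- table of the three blocks of the repeated column -/
def tab17 : ℕ := 776259092554551975125446558275520474554614694480256806710484104591780165064950560370726784971706659336157973803578473338979874649026550655378603266840416833732732552277900225698477993143369169139961079032796249991635526139498463232

/-- inner number of the outer column c -/
def iotF (c : ℕ) : ℕ :=
  if c < 12 then c else if c < 32 then c + 36 else 44 - 4 * ((c - 32) / 4) + [2, 1, 0, 3].getD ((c - 32) % 4) 0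

/-- inner number of the outer element e -/
def sig (e : ℕ) : ℕ := if e < 12 then e else 12 + iotF (e - 12)

theorem sig_inj : Set.InjOn sig ((range 80 : Finset ℕ) : Set ℕ) := by
  have h : ∀ x, x < 80 → ∀ y, y < 80 → sig x = sig y → x = y := by decide +kernel
  intro x hx y hy
  exact h x (by simpa using hx) y (by simpa using hy)

theorem sig_image : (range 80).image sig = range 80 := by decide +kernel

theorem inner_F : GP3 id (range 80) 12 (innerT 17 tab17).f := by
  have := innerT_GP3 (q := 17) (tab := tab17) (by norm_num) (by decide +kernel) (by decide +kernel)
  simpa using this

end Pool.Agent.Simplex
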