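import Pool.Agent.Work.MP_f99e36_co.Moves

/-!
Change of the order of the ground set: the sign function is multiplied by the parity of the
number of inversions; for GP3 and for Blocked.
-/

set_option autoImplicit false
set_option linter.unusedSimpArgs false
set_option linter.unusedSectionVars false

namespace Pool.Agent.Simplex

open Finset

variable {α β : Type*} [DecidableEq α] [DecidableEq β]

/-- The pair is ordered differently by the two keys. -/
def dif (pos pos' : α → ℕ) (u v : α) : Bool := decide (pos u < pos v) ^^ decide (pos' u < pos' v)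

/-- Parity of the number of elements of B ordered differently with respect to x. -/
def difN (pos pos' : α → ℕ) (B : Finset α) (x : α) : Bool :=
  decide ((B.filter (fun y => dif pos pos' x y = true)).card % 2 = 1)

/-- Parity of the number of inversions in B: pairs u, v with pos u < pos v, pos' v < pos' u. -/
def inv (pos pos' : α → ℕ) (B : Finset α) : Bool :=
  decide (((B ×ˢ B).filter (fun p => pos p.1 < pos p.2 ∧ pos' p.2 < pos' p.1)).card % 2 = 1)

theorem dif_comm {pos pos' : α → ℕ} {u v : α} (h : pos u ≠ pos v) (h' : pos' u ≠ pos' v) :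
    dif pos pos' u v = dif pos pos' v u := by
  unfold dif
  rcases lt_or_gt_of_ne h with h1 | h1 <;> rcases lt_or_gt_of_ne h' with h2 | h2 <;>
    simp [h1, h2, not_lt_of_gt h1, not_lt_of_gt h2]

theorem dif_self (pos pos' : α → ℕ) (u : α) : dif pos pos' u u = false := by
  simp [dif]

theorem par_add (a b : ℕ) :
    decide ((a + b) % 2 = 1) = (decide (a % 2 = 1) ^^ decide (b % 2 = 1)) := by
  rcases Nat.mod_two_eq_zero_or_one a with h1 | h1 <;>
    rcases Nat.mod_two_eq_zero_or_one b with h2 | h2 <;>
    simp [Nat.add_mod, h1, h2]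

theorem difN_insert {pos pos' : α → ℕ} {B : Finset α} {x y : α} (hy : y ∉ B) :
    difN pos pos' (insert y B) x = (difN pos pos' B x ^^ dif pos pos' x y) := by
  unfold difN
  rw [filter_insert]
  by_cases h : dif pos pos' x y = true
  · rw [if_pos h, card_insert_of_notMem (fun hh => hy (mem_of_mem_filter y hh)), par_add]
    simp [h]
  · rw [if_neg h]
    simp only [Bool.not_eq_true] at h
    simp [h]

theorem inv_insert {pos pos' : α → ℕ} {B : Finset α} {x : α} (hx : x ∉ B)
    (h : ∀ y ∈ B, pos x ≠ pos y) (h' : ∀ y ∈ B, pos' x ≠ pos' y) :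
    inv pos pos' (insert x B) = (inv pos pos' B ^^ difN pos pos' B x) := by
  unfold inv difN
  rw [← par_add]
  congr 2
  have h1 : ((insert x B ×ˢ insert x B).filter
      (fun p => pos p.1 < pos p.2 ∧ pos' p.2 < pos' p.1)).card
      = ((B ×ˢ B).filter (fun p => pos p.1 < pos p.2 ∧ pos' p.2 < pos' p.1)).card
        + (B.filter (fun y => dif pos pos' x y = true)).card := by
    have h2 : (B.filter (fun y => dif pos pos' x y = true)).card
        = ((B.filter (fun y => dif pos pos' x y = true)).image
          (fun y => if pos x < pos y then (x, y) else (y, x))).card := by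
      rw [card_image_of_injOn]
      intro y hy y' hy' hyy
      have hyB := (mem_filter.1 (mem_coe.1 hy)).1
      have hyB' := (mem_filter.1 (mem_coe.1 hy')).1
      have n1 : x ≠ y := fun hh => hx (hh ▸ hyB)
      have n2 : x ≠ y' := fun hh => hx (hh ▸ hyB')
      beta_reduce at hyy
      split_ifs at hyy with c1 c2 c2
      · exact (Prod.mk.inj hyy).2
      · exact absurd (Prod.mk.inj hyy).1 n2
      · exact absurd (Prod.mk.inj hyy).1.symm n1
      · exact (Prod.mk.inj hyy).1
    rw [h2, ← card_union_of_disjoint]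
    · congr 1
      ext ⟨p, q⟩
      simp only [mem_filter, mem_product, mem_insert, mem_union, mem_image]
      constructor
      · rintro ⟨⟨hp, hq⟩, h3, h4⟩
        rcases hp with rfl | hp
        · rcases hq with rfl | hq
          · exact absurd h3 (lt_irrefl _)
          · right
            refine ⟨q, ⟨hq, ?_⟩, by rw [if_pos h3]⟩
            simp [dif, h3, not_lt_of_gt h4]
        · rcases hq with rfl | hq
          · right
            refine ⟨p, ⟨hp, ?_⟩, by rw [if_neg (not_lt_of_gt h3)]⟩
            simp [dif, h4, not_lt_of_gt h3]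
          · left
            exact ⟨⟨hp, hq⟩, h3, h4⟩
      · rintro (⟨⟨hp, hq⟩, h3, h4⟩ | ⟨y, ⟨hy, h3⟩, h4⟩)
        · exact ⟨⟨Or.inr hp, Or.inr hq⟩, h3, h4⟩
        · have n1 := h y hy
          have n2 := h' y hy
          split_ifs at h4 with c1
          · obtain ⟨rfl, rfl⟩ := Prod.mk.inj h4
            refine ⟨⟨Or.inl rfl, Or.inr hy⟩, c1, ?_⟩
            by_contra c2
            have c3 : pos' x < pos' y := by omega
            simp [dif, c1, c3] at h3
          · obtain ⟨rfl, rfl⟩ := Prod.mk.inj h4
            have c2 : pos y < pos x := by omega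
            refine ⟨⟨Or.inr hy, Or.inl rfl⟩, c2, ?_⟩
            by_contra c3
            simp [dif, c1, c3] at h3
    · rw [disjoint_left]
      rintro ⟨p, q⟩ h3 h4
      simp only [mem_filter, mem_product, mem_image] at h3 h4
      obtain ⟨⟨hp, hq⟩, _⟩ := h3
      obtain ⟨y, ⟨hy, _⟩, h5⟩ := h4
      split_ifs at h5 with c1
      · exact hx ((Prod.mk.inj h5).1 ▸ hp)
      · exact hx ((Prod.mk.inj h5).2 ▸ hq)
  rw [h1]

theorem inv_add2 {pos pos' : α → ℕ} {E z : Finset α} {a b : α} (hp : Set.InjOn pos (E : Set α))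
    (hp' : Set.InjOn pos' (E : Set α)) (hz : z ⊆ E) (ha : a ∈ E) (hb : b ∈ E) (haz : a ∉ z)
    (hbz : b ∉ z) (hab : a ≠ b) :
    inv pos pos' (add2 z a b) =
      (inv pos pos' z ^^ difN pos pos' z b ^^ difN pos pos' z a ^^ dif pos pos' a b) := by
  have hne : ∀ u v : α, u ∈ E → v ∈ E → u ≠ v → pos u ≠ pos v ∧ pos' u ≠ pos' v :=
    fun u v hu hv huv => ⟨fun hh => huv (hp hu hv hh), fun hh => huv (hp' hu hv hh)⟩
  unfold add2
  have haz' : a ∉ insert b z := by
    simp only [mem_insert, not_or]; exact ⟨hab, haz⟩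
  rw [inv_insert haz', inv_insert hbz, difN_insert hbz]
  · simp only [Bool.xor_assoc]
  · intro y hy
    exact (hne b y hb (hz hy) (fun hh => hbz (hh ▸ hy))).1
  · intro y hy
    exact (hne b y hb (hz hy) (fun hh => hbz (hh ▸ hy))).2
  · intro y hy
    rcases mem_insert.1 hy with rfl | hy
    · exact (hne a y ha hb hab).1
    · exact (hne a y ha (hz hy) (fun hh => haz (hh ▸ hy))).1
  · intro y hy
    rcases mem_insert.1 hy with rfl | hy
    · exact (hne a y ha hb hab).2
    · exact (hne a y ha (hz hy) (fun hh => haz (hh ▸ hy))).2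

theorem reorder_aux (v1 v2 v3 v4 v5 v6 t na nb nc nd p1 p2 p3 p4 p5 p6 : Bool)
    (h : (((v2 ^^ p2) ^^ (v5 ^^ p5)) = ((v1 ^^ p1) ^^ (v6 ^^ p6))) ∨
      (((v2 ^^ p2) ^^ (v5 ^^ p5)) = ((v3 ^^ p3) ^^ (v4 ^^ p4)))) :
    ((v2 ^^ (t ^^ nc ^^ na ^^ p2)) ^^ (v5 ^^ (t ^^ nd ^^ nb ^^ p5))) =
      ((v1 ^^ (t ^^ nb ^^ na ^^ p1)) ^^ (v6 ^^ (t ^^ nd ^^ nc ^^ p6))) ∨
    ((v2 ^^ (t ^^ nc ^^ na ^^ p2)) ^^ (v5 ^^ (t ^^ nd ^^ nb ^^ p5))) =
      ((v3 ^^ (t ^^ nd ^^ na ^^ p3)) ^^ (v4 ^^ (t ^^ nc ^^ nb ^^ p4))) := by
  have e : ∀ v t n m p : Bool, (v ^^ (t ^^ n ^^ m ^^ p)) = ((v ^^ p) ^^ (t ^^ n ^^ m)) := by decide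
  simp only [e]
  revert h
  generalize (v1 ^^ p1) = w1
  generalize (v2 ^^ p2) = w2
  generalize (v3 ^^ p3) = w3
  generalize (v4 ^^ p4) = w4
  generalize (v5 ^^ p5) = w5
  generalize (v6 ^^ p6) = w6
  have e2 : ∀ w w' t n m n' m' : Bool, ((w ^^ (t ^^ n ^^ m)) ^^ (w' ^^ (t ^^ n' ^^ m')))
      = ((w ^^ w') ^^ (n ^^ m ^^ n' ^^ m')) := by decide
  simp only [e2]
  generalize (w2 ^^ w5) = x2
  generalize (w1 ^^ w6) = x1
  generalize (w3 ^^ w4) = x3
  revert x1 x2 x3 na nb nc nd
  decide

/-- Change of the order: GP3. -/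
theorem GP3.reorder_pos {pos pos' : α → ℕ} {E : Finset α} {r : ℕ} {g : Finset α → Bool}
    (hp : Set.InjOn pos (E : Set α)) (hp' : Set.InjOn pos' (E : Set α)) (h : GP3 pos' E r g) :
    GP3 pos E r (fun B => g B ^^ inv pos pos' B) := by
  intro z a b c d hz ha hb hc hd haz hbz hcz hdz hzr hab hbc hcd
  have nab : a ≠ b := fun hh => by rw [hh] at hab; omega
  have nbc : b ≠ c := fun hh => by rw [hh] at hbc; omega
  have ncd : c ≠ d := fun hh => by rw [hh] at hcd; omega
  have nac : a ≠ c := fun hh => by rw [hh] at hab; omega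
  have nad : a ≠ d := fun hh => by rw [hh] at hab; omega
  have nbd : b ≠ d := fun hh => by rw [hh] at hbc; omega
  have mab : pos' a ≠ pos' b := fun hh => nab (hp' ha hb hh)
  have mac : pos' a ≠ pos' c := fun hh => nac (hp' ha hc hh)
  have mad : pos' a ≠ pos' d := fun hh => nad (hp' ha hd hh)
  have mbc : pos' b ≠ pos' c := fun hh => nbc (hp' hb hc hh)
  have mbd : pos' b ≠ pos' d := fun hh => nbd (hp' hb hd hh)
  have mcd : pos' c ≠ pos' d := fun hh => ncd (hp' hc hd hh)
  beta_reduce
  rw [inv_add2 hp hp' hz ha hb haz hbz nab, inv_add2 hp hp' hz ha hc haz hcz nac,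
    inv_add2 hp hp' hz ha hd haz hdz nad, inv_add2 hp hp' hz hb hc hbz hcz nbc,
    inv_add2 hp hp' hz hb hd hbz hdz nbd, inv_add2 hp hp' hz hc hd hcz hdz ncd]
  apply reorder_aux
  have dab : dif pos pos' a b = !decide (pos' a < pos' b) := by simp [dif, hab]
  have dac : dif pos pos' a c = !decide (pos' a < pos' c) := by
    simp [dif, show pos a < pos c by omega]
  have dad : dif pos pos' a d = !decide (pos' a < pos' d) := by
    simp [dif, show pos a < pos d by omega]
  have dbc : dif pos pos' b c = !decide (pos' b < pos' c) := by simp [dif, hbc]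
  have dbd : dif pos pos' b d = !decide (pos' b < pos' d) := by
    simp [dif, show pos b < pos d by omega]
  have dcd : dif pos pos' c d = !decide (pos' c < pos' d) := by simp [dif, hcd]
  rw [dab, dac, dad, dbc, dbd, dcd]
  have s1 := add2_comm z b a
  have s2 := add2_comm z c a
  have s3 := add2_comm z d a
  have s4 := add2_comm z c b
  have s5 := add2_comm z d b
  have s6 := add2_comm z d c
  clear hab hbc hcd dab dac dad dbc dbd dcd hp hp'
  rcases lt_or_gt_of_ne mab with o1 | o1 <;> rcases lt_or_gt_of_ne mac with o2 | o2 <;>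
    rcases lt_or_gt_of_ne mad with o3 | o3 <;> rcases lt_or_gt_of_ne mbc with o4 | o4 <;>
    rcases lt_or_gt_of_ne mbd with o5 | o5 <;> rcases lt_or_gt_of_ne mcd with o6 | o6
  · have k := h z a b c d hz ha hb hc hd haz hbz hcz hdz hzr o1 o4 o6
    try simp only [s1, s2, s3, s4, s5, s6] at k
    simp only [o1, o2, o3, o4, o5, o6, decide_true, decide_false]
    revert k
    generalize g (add2 z a b) = v1
    generalize g (add2 z a c) = v2
    generalize g (add2 z a d) = v3
    generalize g (add2 z b c) = v4
    generalize g (add2 z b d) = v5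
    generalize g (add2 z c d) = v6
    clear * -
    revert v1 v2 v3 v4 v5 v6
    decide
  · have k := h z a b d c hz ha hb hd hc haz hbz hdz hcz hzr o1 o5 o6
    try simp only [s1, s2, s3, s4, s5, s6] at k
    simp only [o1, o2, o3, o4, o5, not_lt_of_gt o6, decide_true, decide_false]
    revert k
    generalize g (add2 z a b) = v1
    generalize g (add2 z a c) = v2
    generalize g (add2 z a d) = v3
    generalize g (add2 z b c) = v4
    generalize g (add2 z b d) = v5
    generalize g (add2 z c d) = v6
    clear * -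
    revert v1 v2 v3 v4 v5 v6
    decide
  · exfalso; clear * - o1 o2 o3 o4 o5 o6; omega
  · have k := h z a d b c hz ha hd hb hc haz hdz hbz hcz hzr o3 o5 o4
    try simp only [s1, s2, s3, s4, s5, s6] at k
    simp only [o1, o2, o3, o4, not_lt_of_gt o5, not_lt_of_gt o6, decide_true, decide_false]
    revert k
    generalize g (add2 z a b) = v1
    generalize g (add2 z a c) = v2
    generalize g (add2 z a d) = v3
    generalize g (add2 z b c) = v4
    generalize g (add2 z b d) = v5
    generalize g (add2 z c d) = v6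
    clear * -
    revert v1 v2 v3 v4 v5 v6
    decide
  · have k := h z a c b d hz ha hc hb hd haz hcz hbz hdz hzr o2 o4 o5
    try simp only [s1, s2, s3, s4, s5, s6] at k
    simp only [o1, o2, o3, not_lt_of_gt o4, o5, o6, decide_true, decide_false]
    revert k
    generalize g (add2 z a b) = v1
    generalize g (add2 z a c) = v2
    generalize g (add2 z a d) = v3
    generalize g (add2 z b c) = v4
    generalize g (add2 z b d) = v5
    generalize g (add2 z c d) = v6
    clear * -
    revert v1 v2 v3 v4 v5 v6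
    decide
  · exfalso; clear * - o1 o2 o3 o4 o5 o6; omega
  · have k := h z a c d b hz ha hc hd hb haz hcz hdz hbz hzr o2 o6 o5
    try simp only [s1, s2, s3, s4, s5, s6] at k
    simp only [o1, o2, o3, not_lt_of_gt o4, not_lt_of_gt o5, o6, decide_true, decide_false]
    revert k
    generalize g (add2 z a b) = v1
    generalize g (add2 z a c) = v2
    generalize g (add2 z a d) = v3
    generalize g (add2 z b c) = v4
    generalize g (add2 z b d) = v5
    generalize g (add2 z c d) = v6
    clear * -
    revert v1 v2 v3 v4 v5 v6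
    decide
  · have k := h z a d c b hz ha hd hc hb haz hdz hcz hbz hzr o3 o6 o4
    try simp only [s1, s2, s3, s4, s5, s6] at k
    simp only [o1, o2, o3, not_lt_of_gt o4, not_lt_of_gt o5, not_lt_of_gt o6, decide_true, decide_false]
    revert k
    generalize g (add2 z a b) = v1
    generalize g (add2 z a c) = v2
    generalize g (add2 z a d) = v3
    generalize g (add2 z b c) = v4
    generalize g (add2 z b d) = v5
    generalize g (add2 z c d) = v6
    clear * -
    revert v1 v2 v3 v4 v5 v6
    decide
  · exfalso; clear * - o1 o2 o3 o4 o5 o6; omega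
  · exfalso; clear * - o1 o2 o3 o4 o5 o6; omega
  · exfalso; clear * - o1 o2 o3 o4 o5 o6; omega
  · have k := h z d a b c hz hd ha hb hc hdz haz hbz hcz hzr o3 o1 o4
    try simp only [s1, s2, s3, s4, s5, s6] at k
    simp only [o1, o2, not_lt_of_gt o3, o4, not_lt_of_gt o5, not_lt_of_gt o6, decide_true, decide_false]
    revert k
    generalize g (add2 z a b) = v1
    generalize g (add2 z a c) = v2
    generalize g (add2 z a d) = v3
    generalize g (add2 z b c) = v4
    generalize g (add2 z b d) = v5
    generalize g (add2 z c d) = v6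
    clear * -
    revert v1 v2 v3 v4 v5 v6
    decide
  · exfalso; clear * - o1 o2 o3 o4 o5 o6; omega
  · exfalso; clear * - o1 o2 o3 o4 o5 o6; omega
  · exfalso; clear * - o1 o2 o3 o4 o5 o6; omega
  · have k := h z d a c b hz hd ha hc hb hdz haz hcz hbz hzr o3 o2 o4
    try simp only [s1, s2, s3, s4, s5, s6] at k
    simp only [o1, o2, not_lt_of_gt o3, not_lt_of_gt o4, not_lt_of_gt o5, not_lt_of_gt o6, decide_true, decide_false]
    revert k
    generalize g (add2 z a b) = v1
    generalize g (add2 z a c) = v2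
    generalize g (add2 z a d) = v3
    generalize g (add2 z b c) = v4
    generalize g (add2 z b d) = v5
    generalize g (add2 z c d) = v6
    clear * -
    revert v1 v2 v3 v4 v5 v6
    decide
  · exfalso; clear * - o1 o2 o3 o4 o5 o6; omega
  · exfalso; clear * - o1 o2 o3 o4 o5 o6; omega
  · exfalso; clear * - o1 o2 o3 o4 o5 o6; omega
  · exfalso; clear * - o1 o2 o3 o4 o5 o6; omega
  · have k := h z c a b d hz hc ha hb hd hcz haz hbz hdz hzr o2 o1 o5
    try simp only [s1, s2, s3, s4, s5, s6] at k
    simp only [o1, not_lt_of_gt o2, o3, not_lt_of_gt o4, o5, o6, decide_true, decide_false]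
    revert k
    generalize g (add2 z a b) = v1
    generalize g (add2 z a c) = v2
    generalize g (add2 z a d) = v3
    generalize g (add2 z b c) = v4
    generalize g (add2 z b d) = v5
    generalize g (add2 z c d) = v6
    clear * -
    revert v1 v2 v3 v4 v5 v6
    decide
  · exfalso; clear * - o1 o2 o3 o4 o5 o6; omega
  · have k := h z c a d b hz hc ha hd hb hcz haz hdz hbz hzr o2 o3 o5
    try simp only [s1, s2, s3, s4, s5, s6] at k
    simp only [o1, not_lt_of_gt o2, o3, not_lt_of_gt o4, not_lt_of_gt o5, o6, decide_true, decide_false]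
    revert k
    generalize g (add2 z a b) = v1
    generalize g (add2 z a c) = v2
    generalize g (add2 z a d) = v3
    generalize g (add2 z b c) = v4
    generalize g (add2 z b d) = v5
    generalize g (add2 z c d) = v6
    clear * -
    revert v1 v2 v3 v4 v5 v6
    decide
  · exfalso; clear * - o1 o2 o3 o4 o5 o6; omega
  · exfalso; clear * - o1 o2 o3 o4 o5 o6; omega
  · exfalso; clear * - o1 o2 o3 o4 o5 o6; omega
  · exfalso; clear * - o1 o2 o3 o4 o5 o6; omega
  · exfalso; clear * - o1 o2 o3 o4 o5 o6; omega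
  · exfalso; clear * - o1 o2 o3 o4 o5 o6; omega
  · exfalso; clear * - o1 o2 o3 o4 o5 o6; omega
  · have k := h z c d a b hz hc hd ha hb hcz hdz haz hbz hzr o6 o3 o1
    try simp only [s1, s2, s3, s4, s5, s6] at k
    simp only [o1, not_lt_of_gt o2, not_lt_of_gt o3, not_lt_of_gt o4, not_lt_of_gt o5, o6, decide_true, decide_false]
    revert k
    generalize g (add2 z a b) = v1
    generalize g (add2 z a c) = v2
    generalize g (add2 z a d) = v3
    generalize g (add2 z b c) = v4
    generalize g (add2 z b d) = v5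
    generalize g (add2 z c d) = v6
    clear * -
    revert v1 v2 v3 v4 v5 v6
    decide
  · have k := h z d c a b hz hd hc ha hb hdz hcz haz hbz hzr o6 o2 o1
    try simp only [s1, s2, s3, s4, s5, s6] at k
    simp only [o1, not_lt_of_gt o2, not_lt_of_gt o3, not_lt_of_gt o4, not_lt_of_gt o5, not_lt_of_gt o6, decide_true, decide_false]
    revert k
    generalize g (add2 z a b) = v1
    generalize g (add2 z a c) = v2
    generalize g (add2 z a d) = v3
    generalize g (add2 z b c) = v4
    generalize g (add2 z b d) = v5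
    generalize g (add2 z c d) = v6
    clear * -
    revert v1 v2 v3 v4 v5 v6
    decide
  · have k := h z b a c d hz hb ha hc hd hbz haz hcz hdz hzr o1 o2 o6
    try simp only [s1, s2, s3, s4, s5, s6] at k
    simp only [not_lt_of_gt o1, o2, o3, o4, o5, o6, decide_true, decide_false]
    revert k
    generalize g (add2 z a b) = v1
    generalize g (add2 z a c) = v2
    generalize g (add2 z a d) = v3
    generalize g (add2 z b c) = v4
    generalize g (add2 z b d) = v5
    generalize g (add2 z c d) = v6
    clear * -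
    revert v1 v2 v3 v4 v5 v6
    decide
  · have k := h z b a d c hz hb ha hd hc hbz haz hdz hcz hzr o1 o3 o6
    try simp only [s1, s2, s3, s4, s5, s6] at k
    simp only [not_lt_of_gt o1, o2, o3, o4, o5, not_lt_of_gt o6, decide_true, decide_false]
    revert k
    generalize g (add2 z a b) = v1
    generalize g (add2 z a c) = v2
    generalize g (add2 z a d) = v3
    generalize g (add2 z b c) = v4
    generalize g (add2 z b d) = v5
    generalize g (add2 z c d) = v6
    clear * -
    revert v1 v2 v3 v4 v5 v6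
    decide
  · exfalso; clear * - o1 o2 o3 o4 o5 o6; omega
  · exfalso; clear * - o1 o2 o3 o4 o5 o6; omega
  · exfalso; clear * - o1 o2 o3 o4 o5 o6; omega
  · exfalso; clear * - o1 o2 o3 o4 o5 o6; omega
  · exfalso; clear * - o1 o2 o3 o4 o5 o6; omega
  · exfalso; clear * - o1 o2 o3 o4 o5 o6; omega
  · exfalso; clear * - o1 o2 o3 o4 o5 o6; omega
  · have k := h z b d a c hz hb hd ha hc hbz hdz haz hcz hzr o5 o3 o2
    try simp only [s1, s2, s3, s4, s5, s6] at k
    simp only [not_lt_of_gt o1, o2, not_lt_of_gt o3, o4, o5, not_lt_of_gt o6, decide_true, decide_false]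
    revert k
    generalize g (add2 z a b) = v1
    generalize g (add2 z a c) = v2
    generalize g (add2 z a d) = v3
    generalize g (add2 z b c) = v4
    generalize g (add2 z b d) = v5
    generalize g (add2 z c d) = v6
    clear * -
    revert v1 v2 v3 v4 v5 v6
    decide
  · exfalso; clear * - o1 o2 o3 o4 o5 o6; omega
  · have k := h z d b a c hz hd hb ha hc hdz hbz haz hcz hzr o5 o1 o2
    try simp only [s1, s2, s3, s4, s5, s6] at k
    simp only [not_lt_of_gt o1, o2, not_lt_of_gt o3, o4, not_lt_of_gt o5, not_lt_of_gt o6, decide_true, decide_false]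
    revert k
    generalize g (add2 z a b) = v1
    generalize g (add2 z a c) = v2
    generalize g (add2 z a d) = v3
    generalize g (add2 z b c) = v4
    generalize g (add2 z b d) = v5
    generalize g (add2 z c d) = v6
    clear * -
    revert v1 v2 v3 v4 v5 v6
    decide
  · exfalso; clear * - o1 o2 o3 o4 o5 o6; omega
  · exfalso; clear * - o1 o2 o3 o4 o5 o6; omega
  · exfalso; clear * - o1 o2 o3 o4 o5 o6; omega
  · exfalso; clear * - o1 o2 o3 o4 o5 o6; omega
  · have k := h z b c a d hz hb hc ha hd hbz hcz haz hdz hzr o4 o2 o3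
    try simp only [s1, s2, s3, s4, s5, s6] at k
    simp only [not_lt_of_gt o1, not_lt_of_gt o2, o3, o4, o5, o6, decide_true, decide_false]
    revert k
    generalize g (add2 z a b) = v1
    generalize g (add2 z a c) = v2
    generalize g (add2 z a d) = v3
    generalize g (add2 z b c) = v4
    generalize g (add2 z b d) = v5
    generalize g (add2 z c d) = v6
    clear * -
    revert v1 v2 v3 v4 v5 v6
    decide
  · exfalso; clear * - o1 o2 o3 o4 o5 o6; omega
  · exfalso; clear * - o1 o2 o3 o4 o5 o6; omega
  · exfalso; clear * - o1 o2 o3 o4 o5 o6; omega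
  · have k := h z c b a d hz hc hb ha hd hcz hbz haz hdz hzr o4 o1 o3
    try simp only [s1, s2, s3, s4, s5, s6] at k
    simp only [not_lt_of_gt o1, not_lt_of_gt o2, o3, not_lt_of_gt o4, o5, o6, decide_true, decide_false]
    revert k
    generalize g (add2 z a b) = v1
    generalize g (add2 z a c) = v2
    generalize g (add2 z a d) = v3
    generalize g (add2 z b c) = v4
    generalize g (add2 z b d) = v5
    generalize g (add2 z c d) = v6
    clear * -
    revert v1 v2 v3 v4 v5 v6
    decide
  · exfalso; clear * - o1 o2 o3 o4 o5 o6; omega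
  · exfalso; clear * - o1 o2 o3 o4 o5 o6; omega
  · exfalso; clear * - o1 o2 o3 o4 o5 o6; omega
  · have k := h z b c d a hz hb hc hd ha hbz hcz hdz haz hzr o4 o6 o3
    try simp only [s1, s2, s3, s4, s5, s6] at k
    simp only [not_lt_of_gt o1, not_lt_of_gt o2, not_lt_of_gt o3, o4, o5, o6, decide_true, decide_false]
    revert k
    generalize g (add2 z a b) = v1
    generalize g (add2 z a c) = v2
    generalize g (add2 z a d) = v3
    generalize g (add2 z b c) = v4
    generalize g (add2 z b d) = v5
    generalize g (add2 z c d) = v6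
    clear * -
    revert v1 v2 v3 v4 v5 v6
    decide
  · have k := h z b d c a hz hb hd hc ha hbz hdz hcz haz hzr o5 o6 o2
    try simp only [s1, s2, s3, s4, s5, s6] at k
    simp only [not_lt_of_gt o1, not_lt_of_gt o2, not_lt_of_gt o3, o4, o5, not_lt_of_gt o6, decide_true, decide_false]
    revert k
    generalize g (add2 z a b) = v1
    generalize g (add2 z a c) = v2
    generalize g (add2 z a d) = v3
    generalize g (add2 z b c) = v4
    generalize g (add2 z b d) = v5
    generalize g (add2 z c d) = v6
    clear * -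
    revert v1 v2 v3 v4 v5 v6
    decide
  · exfalso; clear * - o1 o2 o3 o4 o5 o6; omega
  · have k := h z d b c a hz hd hb hc ha hdz hbz hcz haz hzr o5 o4 o2
    try simp only [s1, s2, s3, s4, s5, s6] at k
    simp only [not_lt_of_gt o1, not_lt_of_gt o2, not_lt_of_gt o3, o4, not_lt_of_gt o5, not_lt_of_gt o6, decide_true, decide_false]
    revert k
    generalize g (add2 z a b) = v1
    generalize g (add2 z a c) = v2
    generalize g (add2 z a d) = v3
    generalize g (add2 z b c) = v4
    generalize g (add2 z b d) = v5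
    generalize g (add2 z c d) = v6
    clear * -
    revert v1 v2 v3 v4 v5 v6
    decide
  · have k := h z c b d a hz hc hb hd ha hcz hbz hdz haz hzr o4 o5 o3
    try simp only [s1, s2, s3, s4, s5, s6] at k
    simp only [not_lt_of_gt o1, not_lt_of_gt o2, not_lt_of_gt o3, not_lt_of_gt o4, o5, o6, decide_true, decide_false]
    revert k
    generalize g (add2 z a b) = v1
    generalize g (add2 z a c) = v2
    generalize g (add2 z a d) = v3
    generalize g (add2 z b c) = v4
    generalize g (add2 z b d) = v5
    generalize g (add2 z c d) = v6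
    clear * -
    revert v1 v2 v3 v4 v5 v6
    decide
  · exfalso; clear * - o1 o2 o3 o4 o5 o6; omega
  · have k := h z c d b a hz hc hd hb ha hcz hdz hbz haz hzr o6 o5 o1
    try simp only [s1, s2, s3, s4, s5, s6] at k
    simp only [not_lt_of_gt o1, not_lt_of_gt o2, not_lt_of_gt o3, not_lt_of_gt o4, not_lt_of_gt o5, o6, decide_true, decide_false]
    revert k
    generalize g (add2 z a b) = v1
    generalize g (add2 z a c) = v2
    generalize g (add2 z a d) = v3
    generalize g (add2 z b c) = v4
    generalize g (add2 z b d) = v5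
    generalize g (add2 z c d) = v6
    clear * -
    revert v1 v2 v3 v4 v5 v6
    decide
  · have k := h z d c b a hz hd hc hb ha hdz hcz hbz haz hzr o6 o4 o1
    try simp only [s1, s2, s3, s4, s5, s6] at k
    simp only [not_lt_of_gt o1, not_lt_of_gt o2, not_lt_of_gt o3, not_lt_of_gt o4, not_lt_of_gt o5, not_lt_of_gt o6, decide_true, decide_false]
    revert k
    generalize g (add2 z a b) = v1
    generalize g (add2 z a c) = v2
    generalize g (add2 z a d) = v3
    generalize g (add2 z b c) = v4
    generalize g (add2 z b d) = v5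
    generalize g (add2 z c d) = v6
    clear * -
    revert v1 v2 v3 v4 v5 v6
    decide

/-- Change of the order: blocked bases. -/
theorem xch_reorder {pos pos' : α → ℕ} {E : Finset α} {g : Finset α → Bool} {B : Finset α}
    (hp : Set.InjOn pos (E : Set α)) (hp' : Set.InjOn pos' (E : Set α)) (hB : B ⊆ E)
    {e x : α} (he : e ∈ B) (hx : x ∈ E \ B) :
    xch pos (fun B => g B ^^ inv pos pos' B) B e x =
      (xch pos' g B e x ^^ (inv pos pos' B ^^ difN pos pos' B e) ^^ difN pos pos' B x) := by
  obtain ⟨hxE, hxB⟩ := mem_sdiff.1 hx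
  have hne : ∀ u v : α, u ∈ E → v ∈ E → u ≠ v → pos u ≠ pos v ∧ pos' u ≠ pos' v :=
    fun u v hu hv huv => ⟨fun hh => huv (hp hu hv hh), fun hh => huv (hp' hu hv hh)⟩
  have hex : e ≠ x := fun hh => hxB (hh ▸ he)
  have heB : e ∉ B.erase e := notMem_erase e B
  have hxB' : x ∉ B.erase e := fun hh => hxB (mem_of_mem_erase hh)
  have h1 : inv pos pos' B = (inv pos pos' (B.erase e) ^^ difN pos pos' (B.erase e) e) := by
    conv_lhs => rw [← insert_erase he]
    apply inv_insert heB
    · intro y hy
      exact (hne e y (hB he) (hB (mem_of_mem_erase hy)) (fun hh => heB (hh ▸ hy))).1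
    · intro y hy
      exact (hne e y (hB he) (hB (mem_of_mem_erase hy)) (fun hh => heB (hh ▸ hy))).2
  have h2 : inv pos pos' (insert x (B.erase e)) =
      (inv pos pos' (B.erase e) ^^ difN pos pos' (B.erase e) x) := by
    apply inv_insert hxB'
    · intro y hy
      exact (hne x y hxE (hB (mem_of_mem_erase hy)) (fun hh => hxB' (hh ▸ hy))).1
    · intro y hy
      exact (hne x y hxE (hB (mem_of_mem_erase hy)) (fun hh => hxB' (hh ▸ hy))).2
  have h3 : difN pos pos' B e = difN pos pos' (B.erase e) e := by
    conv_lhs => rw [← insert_erase he]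
    rw [difN_insert heB, dif_self, Bool.xor_false]
  have h4 : difN pos pos' B x = (difN pos pos' (B.erase e) x ^^ dif pos pos' e x) := by
    conv_lhs => rw [← insert_erase he]
    rw [difN_insert heB, dif_comm (hne x e hxE (hB he) hex.symm).1 (hne x e hxE (hB he) hex.symm).2]
  unfold xch
  beta_reduce
  rw [h2, h1, h3, h4]
  unfold dif
  generalize g (insert x (B.erase e)) = v1
  generalize inv pos pos' (B.erase e) = v2
  generalize difN pos pos' (B.erase e) x = v3
  generalize difN pos pos' (B.erase e) e = v4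
  generalize decide (pos e < pos x) = v5
  generalize decide (pos' e < pos' x) = v6
  clear * -
  revert v1 v2 v3 v4 v5 v6
  decide

theorem Blocked.reorder_pos {pos pos' : α → ℕ} {E : Finset α} {g : Finset α → Bool}
    {B : Finset α} (hp : Set.InjOn pos (E : Set α)) (hp' : Set.InjOn pos' (E : Set α))
    (hB : B ⊆ E) :
    Blocked pos E (fun B => g B ^^ inv pos pos' B) B ↔ Blocked pos' E g B := by
  have key : ∀ e ∈ B, ∀ e' ∈ B, ∀ x ∈ E \ B, ∀ x' ∈ E \ B,
      (xch pos (fun B => g B ^^ inv pos pos' B) B e x ^^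
        xch pos (fun B => g B ^^ inv pos pos' B) B e x' ^^
        xch pos (fun B => g B ^^ inv pos pos' B) B e' x ^^
        xch pos (fun B => g B ^^ inv pos pos' B) B e' x') =
      (xch pos' g B e x ^^ xch pos' g B e x' ^^ xch pos' g B e' x ^^ xch pos' g B e' x') := by
    intro e he e' he' x hx x' hx'
    rw [xch_reorder hp hp' hB he hx, xch_reorder hp hp' hB he hx', xch_reorder hp hp' hB he' hx,
      xch_reorder hp hp' hB he' hx']
    generalize xch pos' g B e x = v1
    generalize xch pos' g B e x' = v2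
    generalize xch pos' g B e' x = v3
    generalize xch pos' g B e' x' = v4
    generalize (inv pos pos' B ^^ difN pos pos' B e) = v5
    generalize (inv pos pos' B ^^ difN pos pos' B e') = v6
    generalize difN pos pos' B x = v7
    generalize difN pos pos' B x' = v8
    clear * -
    revert v1 v2 v3 v4 v5 v6 v7 v8
    decide
  constructor
  · rintro ⟨e, he, e', he', x, hx, x', hx', hs⟩
    exact ⟨e, he, e', he', x, hx, x', hx', by rw [← key e he e' he' x hx x' hx']; exact hs⟩
  · rintro ⟨e, he, e', he', x, hx, x', hx', hs⟩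
    exact ⟨e, he, e', he', x, hx, x', hx', by rw [key e he e' he' x hx x' hx']; exact hs⟩

/-! ### Images -/

theorem image_add2 (s : α → β) (z : Finset α) (a b : α) :
    (add2 z a b).image s = add2 (z.image s) (s a) (s b) := by
  unfold add2
  rw [image_insert, image_insert]

theorem notMem_image_of_injOn {s : α → β} {E z : Finset α} (hs : Set.InjOn s (E : Set α))
    (hz : z ⊆ E) {a : α} (ha : a ∈ E) (haz : a ∉ z) : s a ∉ z.image s := by
  intro hh
  obtain ⟨y, hy, hya⟩ := mem_image.1 hh
  exact haz (hs (hz hy) ha hya ▸ hy)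

theorem GP3.image_iff {pos : β → ℕ} {E : Finset α} {r : ℕ} {f : Finset β → Bool} {s : α → β}
    (hs : Set.InjOn s (E : Set α)) :
    GP3 (fun a => pos (s a)) E r (fun B => f (B.image s)) ↔ GP3 pos (E.image s) r f := by
  constructor
  · intro h z a b c d hz ha0 hb0 hc0 hd0 haz hbz hcz hdz hzr hab hbc hcd
    obtain ⟨a, ha, rfl⟩ := mem_image.mp ha0
    obtain ⟨b, hb, rfl⟩ := mem_image.mp hb0
    obtain ⟨c, hc, rfl⟩ := mem_image.mp hc0
    obtain ⟨d, hd, rfl⟩ := mem_image.mp hd0
    obtain ⟨w, hw, rfl⟩ := subset_image_iff.mp hz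
    have hm : ∀ u, s u ∉ w.image s → u ∉ w := fun u hu hh => hu (mem_image_of_mem s hh)
    rw [card_image_of_injOn (hs.mono (coe_subset.2 hw))] at hzr
    have := h w a b c d hw ha hb hc hd (hm a haz) (hm b hbz) (hm c hcz) (hm d hdz) hzr hab hbc hcd
    beta_reduce at this
    simp only [image_add2] at this
    exact this
  · intro h z a b c d hz ha hb hc hd haz hbz hcz hdz hzr hab hbc hcd
    beta_reduce
    simp only [image_add2]
    exact h (z.image s) (s a) (s b) (s c) (s d) (image_subset_image hz) (mem_image_of_mem s ha)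
      (mem_image_of_mem s hb) (mem_image_of_mem s hc) (mem_image_of_mem s hd)
      (notMem_image_of_injOn hs hz ha haz) (notMem_image_of_injOn hs hz hb hbz)
      (notMem_image_of_injOn hs hz hc hcz) (notMem_image_of_injOn hs hz hd hdz)
      (by rw [card_image_of_injOn (hs.mono (coe_subset.2 hz))]; exact hzr) hab hbc hcd

theorem Blocked.image_iff {pos : β → ℕ} {E : Finset α} {f : Finset β → Bool} {B : Finset α}
    {s : α → β} (hs : Set.InjOn s (E : Set α)) (hB : B ⊆ E) :
    Blocked (fun a => pos (s a)) E (fun B => f (B.image s)) B ↔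
      Blocked pos (E.image s) f (B.image s) := by
  have hm : ∀ v, v ∈ E \ B → s v ∈ E.image s \ B.image s := by
    intro v hv
    obtain ⟨h1, h2⟩ := mem_sdiff.1 hv
    exact mem_sdiff.2 ⟨mem_image_of_mem s h1, notMem_image_of_injOn hs hB h1 h2⟩
  have key : ∀ u ∈ B, ∀ v ∈ E \ B, xch pos f (B.image s) (s u) (s v) =
      xch (fun a => pos (s a)) (fun B => f (B.image s)) B u v := by
    intro u hu v hv
    unfold xch
    beta_reduce
    congr 2
    ext y
    simp only [mem_insert, mem_erase, mem_image]
    constructor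
    · rintro (rfl | ⟨h1, w, hw, rfl⟩)
      · exact ⟨v, Or.inl rfl, rfl⟩
      · exact ⟨w, Or.inr ⟨fun hh => h1 (hh ▸ rfl), hw⟩, rfl⟩
    · rintro ⟨w, (rfl | ⟨h1, hw⟩), rfl⟩
      · exact Or.inl rfl
      · exact Or.inr ⟨fun hh => h1 (hs (hB hw) (hB hu) hh), w, hw, rfl⟩
  constructor
  · rintro ⟨e, he, e', he', x, hx, x', hx', h⟩
    refine ⟨s e, mem_image_of_mem s he, s e', mem_image_of_mem s he', s x, hm x hx, s x', hm x' hx',
      ?_⟩
    rw [key e he x hx, key e he x' hx', key e' he' x hx, key e' he' x' hx']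
    exact h
  · rintro ⟨e0, he0, e0', he0', x0, hx0, x0', hx0', h⟩
    obtain ⟨e, he, rfl⟩ := mem_image.mp he0
    obtain ⟨e', he', rfl⟩ := mem_image.mp he0'
    have hm' : ∀ w, w ∈ E.image s \ B.image s → ∃ v ∈ E \ B, s v = w := by
      intro w hw
      obtain ⟨h1, h2⟩ := mem_sdiff.1 hw
      obtain ⟨v, hv, rfl⟩ := mem_image.mp h1
      exact ⟨v, mem_sdiff.2 ⟨hv, fun hh => h2 (mem_image_of_mem s hh)⟩, rfl⟩
    obtain ⟨x, hx, rfl⟩ := hm' x0 hx0
    obtain ⟨x', hx', rfl⟩ := hm' x0' hx0'
    refine ⟨e, he, e', he', x, hx, x', hx', ?_⟩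
    rw [← key e he x hx, ← key e he x' hx', ← key e' he' x hx, ← key e' he' x' hx']
    exact h

/-! ### Reordering by a permutation of the ground set -/

/-- Parity of the number of inversions of s on B. -/
def invS (s : ℕ → ℕ) (B : Finset ℕ) : Bool :=
  decide (((B ×ˢ B).filter (fun p => p.1 < p.2 ∧ s p.2 < s p.1)).card % 2 = 1)

theorem invS_eq (s : ℕ → ℕ) (B : Finset ℕ) : invS s B = inv id s B := rfl

/-- Reordering: GP3. -/
theorem GP3.reorder {E : Finset ℕ} {r : ℕ} {s : ℕ → ℕ} {g : Finset ℕ → Bool}
    (hs : Set.InjOn s (E : Set ℕ)) (h : GP3 id (E.image s) r g) :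
    GP3 id E r (fun B => g (B.image s) ^^ invS s B) := by
  have h1 : GP3 (fun a => id (s a)) E r (fun B => g (B.image s)) := (GP3.image_iff hs).2 h
  exact GP3.reorder_pos (pos := id) (pos' := s) (fun _ _ _ _ hh => hh) hs h1

/-- Reordering: blocked bases. -/
theorem Blocked.reorder {E : Finset ℕ} {s : ℕ → ℕ} {g : Finset ℕ → Bool} {B : Finset ℕ}
    (hs : Set.InjOn s (E : Set ℕ)) (hB : B ⊆ E) :
    Blocked id E (fun B => g (B.image s) ^^ invS s B) B ↔
      Blocked id (E.image s) g (B.image s) := by
  rw [← Blocked.image_iff hs hB]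
  exact Blocked.reorder_pos (pos := id) (pos' := s) (fun _ _ _ _ hh => hh) hs hB

/-- Reordering is symmetric: GP3. -/
theorem GP3.of_reorder {E : Finset ℕ} {r : ℕ} {s : ℕ → ℕ} {g : Finset ℕ → Bool}
    (hs : Set.InjOn s (E : Set ℕ)) (h : GP3 id E r (fun B => g (B.image s) ^^ invS s B)) :
    GP3 id (E.image s) r g := by
  rw [← GP3.image_iff hs]
  have h1 := GP3.reorder_pos (pos := s) (pos' := id) hs (fun _ _ _ _ hh => hh) h
  refine h1.congr ?_
  intro B _ _
  have h2 : inv s id B = invS s B := by
    unfold inv invS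
    congr 3
    refine card_bij (fun (p : ℕ × ℕ) _ => (p.2, p.1)) ?_ ?_ ?_
    · rintro ⟨p, q⟩ hpq
      simp only [mem_filter, mem_product, id] at hpq ⊢
      exact ⟨⟨hpq.1.2, hpq.1.1⟩, hpq.2.2, hpq.2.1⟩
    · rintro ⟨p, q⟩ _ ⟨p', q'⟩ _ hh
      simp only [Prod.mk.injEq] at hh ⊢
      exact ⟨hh.2, hh.1⟩
    · rintro ⟨p, q⟩ hpq
      simp only [mem_filter, mem_product, id] at hpq
      refine ⟨(q, p), ?_, rfl⟩
      simp only [mem_filter, mem_product, id]
      exact ⟨⟨hpq.1.2, hpq.1.1⟩, hpq.2.2, hpq.2.1⟩
  rw [h2]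
  simp

end Pool.Agent.Simplex
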