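import Pool.Agent.Work.MP_f99e36_co.GChk6
import Pool.Agent.Work.MP_f99e36_co.Reorder
import Pool.Agent.Work.MP_f99e36_co.InnerT

/-!
From the checks of the insertion stages (inner labels) to the hypotheses of the nested
composition theorem (outer labels).
-/

set_option autoImplicit false

namespace Pool.Agent.Simplex

open Finset

section stages

variable {n0 n1 r : ℕ} {s : ℕ → ℕ} {g : Finset ℕ → Bool} {ExcI : Finset ℕ → Prop}

/-- Blocked bases in all windows from the stages. -/
theorem stages_aux (hs : Set.InjOn s (range n1 : Set ℕ)) (h01 : n0 < n1)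
    (h0 : ∀ B : Finset ℕ, B ⊆ (range n0).image s → B.card = r →
      ExcI B ∨ Blocked id ((range (n0 + 1)).image s) g B)
    (hi : ∀ i, n0 ≤ i → i < n1 → ∀ B : Finset ℕ, B ⊆ (range (i + 1)).image s → s i ∈ B →
      B.card = r → Blocked id ((range (min (i + 2) n1)).image s) g B)
    (X : Finset ℕ) (b : ℕ) (hX : X ⊆ range b) (hc : X.card = r) (hb0 : n0 ≤ b) (hb : b ≤ n1) :
    (ExcI (X.image s) ∧ X ⊆ range n0) ∨
      Blocked id (range (min (b + 1) n1)) (fun B => g (B.image s) ^^ invS s B) X := by
  have hsub1 : (range (min (b + 1) n1) : Finset ℕ) ⊆ range n1 := by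
    intro x hx
    rw [mem_range] at hx ⊢
    omega
  have hXb : X ⊆ range (min (b + 1) n1) := by
    intro x hx
    have := mem_range.mp (hX hx)
    rw [mem_range]
    omega
  have hinj : Set.InjOn s (range (min (b + 1) n1) : Set ℕ) := by
    intro x hx y hy
    exact hs (by exact_mod_cast hsub1 (by exact_mod_cast hx))
      (by exact_mod_cast hsub1 (by exact_mod_cast hy))
  rw [Blocked.reorder hinj hXb]
  have hcard : (X.image s).card = r := by
    rw [card_image_of_injOn, hc]
    intro x hx y hy
    exact hinj (by exact_mod_cast hXb (by exact_mod_cast hx))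
      (by exact_mod_cast hXb (by exact_mod_cast hy))
  by_cases hX0 : X ⊆ range n0
  · rcases h0 (X.image s) (image_subset_image hX0) hcard with h | h
    · exact Or.inl ⟨h, hX0⟩
    · right
      refine h.mono (image_subset_image ?_)
      intro x hx
      rw [mem_range] at hx ⊢
      omega
  · right
    obtain ⟨x0, hx0, hx0'⟩ := not_subset.mp hX0
    have hne : X.Nonempty := ⟨x0, hx0⟩
    set i := X.max' hne with hidef
    have hiX : i ∈ X := X.max'_mem hne
    have hi0 : n0 ≤ i := by
      have h1 : x0 ≤ i := X.le_max' x0 hx0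
      rw [mem_range] at hx0'
      omega
    have hib : i < b := mem_range.mp (hX hiX)
    have hXi : X ⊆ range (i + 1) := by
      intro x hx
      have := X.le_max' x hx
      rw [mem_range]
      omega
    refine (hi i hi0 (by omega) (X.image s) (image_subset_image hXi) (mem_image_of_mem s hiX)
      hcard).mono (image_subset_image ?_)
    intro x hx
    rw [mem_range] at hx ⊢
    omega

/-- hypothesis H1 of the nested composition -/
theorem stages_H1 (hs : Set.InjOn s (range n1 : Set ℕ)) (h01 : n0 < n1)
    (h0 : ∀ B : Finset ℕ, B ⊆ (range n0).image s → B.card = r →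
      ExcI B ∨ Blocked id ((range (n0 + 1)).image s) g B)
    (hi : ∀ i, n0 ≤ i → i < n1 → ∀ B : Finset ℕ, B ⊆ (range (i + 1)).image s → s i ∈ B →
      B.card = r → Blocked id ((range (min (i + 2) n1)).image s) g B)
    (X : Finset ℕ) (b : ℕ) (hX : X ⊆ range b) (hc : X.card = r) (hb0 : n0 ≤ b) (hb : b < n1) :
    (ExcI (X.image s) ∧ X ⊆ range n0) ∨
      Blocked id (range (b + 1)) (fun B => g (B.image s) ^^ invS s B) X := by
  have h := stages_aux hs h01 h0 hi X b hX hc hb0 hb.le
  rwa [min_eq_left (by omega)] at h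

/-- hypothesis H2 of the nested composition -/
theorem stages_H2 (hs : Set.InjOn s (range n1 : Set ℕ)) (h01 : n0 < n1)
    (h0 : ∀ B : Finset ℕ, B ⊆ (range n0).image s → B.card = r →
      ExcI B ∨ Blocked id ((range (n0 + 1)).image s) g B)
    (hi : ∀ i, n0 ≤ i → i < n1 → ∀ B : Finset ℕ, B ⊆ (range (i + 1)).image s → s i ∈ B →
      B.card = r → Blocked id ((range (min (i + 2) n1)).image s) g B)
    (X : Finset ℕ) (hX : X ⊆ range n1) (hc : X.card = r) :
    (ExcI (X.image s) ∧ X ⊆ range n0) ∨
      Blocked id (range n1) (fun B => g (B.image s) ^^ invS s B) X := by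
  have h := stages_aux hs h01 h0 hi X n1 hX hc h01.le le_rfl
  rwa [min_eq_right (by omega)] at h

end stages

/-! ### From the checker to a stage -/

namespace GDat

variable {D : GDat}

/-- the set represented by a mask -/
def dset (m N Z : ℕ) : Finset ℕ :=
  ((range m).filter (fun e => (Z % 4294967296).testBit e = false)) ∪
    ((range N).filter (fun j => (Z / 4294967296).testBit (N - 1 - j) = true)).image (fun j => m + j)

theorem eq_dset {B : Finset ℕ} {Z : ℕ} (hB : B ⊆ range (D.m + D.N)) (hc : B.card = D.m)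
    (h : D.Rep Z (D.arr.pairs B)) : B = dset D.m D.N Z := by
  have hlen : (D.arr.rowsOf B).length = (D.arr.colsOf B).length := by
    have h1 := GArr.rowsOf_length (A := D.arr) B
    have h2 := GArr.colsOf_length (A := D.arr) hB
    have h3 : D.arr.m = D.m := rfl
    omega
  have hf : (D.arr.pairs B).map Prod.fst = D.arr.rowsOf B := List.map_fst_zip (by omega)
  have hs : (D.arr.pairs B).map Prod.snd = D.arr.colsOf B := List.map_snd_zip (by omega)
  have h1 := h.fst
  have h2 := h.snd
  rw [hf] at h1
  rw [hs] at h2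
  ext x
  unfold dset
  rw [mem_union, mem_filter, mem_range, mem_image]
  by_cases hx : x < D.m
  · have h3 : (D.m - 1 - x) ∈ D.arr.rowsOf B ↔ x ∉ B := by
      rw [GArr.mem_rowsOf]
      show (D.m - 1 - x < D.m ∧ D.m - 1 - (D.m - 1 - x) ∉ B) ↔ _
      rw [show D.m - 1 - (D.m - 1 - x) = x by omega]
      constructor
      · exact fun h => h.2
      · exact fun h => ⟨by omega, h⟩
    rw [← h1, mem_dec, show D.m - 1 - (D.m - 1 - x) = x by omega] at h3
    constructor
    · intro hxB
      left
      refine ⟨hx, ?_⟩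
      by_contra hne
      rw [Bool.not_eq_false] at hne
      exact (h3.1 ⟨by omega, hne⟩) hxB
    · rintro (⟨_, h4⟩ | ⟨j, _, hj⟩)
      · by_contra hxB
        have := (h3.2 hxB).2
        rw [h4] at this
        exact absurd this (by simp)
      · omega
  · have h3 : (x - D.m) ∈ D.arr.colsOf B ↔ (x < D.m + D.N ∧ x ∈ B) := by
      rw [GArr.mem_colsOf]
      show (x - D.m < D.N ∧ D.m + (x - D.m) ∈ B) ↔ _
      rw [show D.m + (x - D.m) = x by omega]
      constructor
      · exact fun h => ⟨by omega, h.2⟩
      · exact fun h => ⟨by omega, h.2⟩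
    rw [← h2, mem_dec] at h3
    constructor
    · intro hxB
      right
      have hx' := mem_range.mp (hB hxB)
      have h4 := h3.2 ⟨hx', hxB⟩
      refine ⟨x - D.m, ?_, by omega⟩
      rw [mem_filter, mem_range]
      exact h4
    · rintro (⟨h4, _⟩ | ⟨j, hj, hjx⟩)
      · omega
      · rw [mem_filter, mem_range] at hj
        have hjx' : x - D.m = j := by omega
        rw [hjx'] at h3
        exact (h3.1 hj).2

/-- From the checker to a stage. -/
theorem blocked_of_stage {T : GTb} {g : Finset ℕ → Bool} {E B : Finset ℕ}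
    (hlink : ∀ B : Finset ℕ, B ⊆ range (D.m + D.N) → D.arr.f B = g B)
    (hall : ∀ L, D.arr.Valid L → D.Free L → D.Tgt T L)
    (hE : ∀ e, e < D.m + D.N → D.al.testBit (D.pos e) = true → e ∈ E)
    (hEr : E ⊆ range (D.m + D.N)) (hB : B ⊆ range (D.m + D.N)) (hc : B.card = D.m)
    (hfree : ∀ y, y < D.N → D.ng.testBit y = true → D.m + (D.N - 1 - y) ∉ B)
    (hcc : D.cc < D.N → D.m + (D.N - 1 - D.cc) ∈ B) :
    Blocked id E g B ∨ D.Exc T (D.arr.pairs B) := by
  have hlen : (D.arr.rowsOf B).length = (D.arr.colsOf B).length := by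
    have h1 := GArr.rowsOf_length (A := D.arr) B
    have h2 := GArr.colsOf_length (A := D.arr) hB
    have h3 : D.arr.m = D.m := rfl
    omega
  have hs : (D.arr.pairs B).map Prod.snd = D.arr.colsOf B := List.map_snd_zip (by omega)
  have hfr : D.Free (D.arr.pairs B) := by
    intro p hp
    have h1 : p.2 ∈ D.arr.colsOf B := by
      rw [← hs]; exact List.mem_map_of_mem hp
    rw [GArr.mem_colsOf] at h1
    have h2 : p.2 < D.N := h1.1
    have h3 : D.m + p.2 ∈ B := h1.2
    by_contra hne
    rw [Bool.not_eq_false] at hne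
    have h4 := hfree (D.N - 1 - p.2) (by omega) hne
    rw [show D.N - 1 - (D.N - 1 - p.2) = p.2 by omega] at h4
    exact h4 h3
  have hq : D.cc < D.N → ∃ p ∈ D.arr.pairs B, D.N - 1 - p.2 = D.cc := by
    intro hccN
    have h1 : D.N - 1 - D.cc ∈ D.arr.colsOf B := by
      rw [GArr.mem_colsOf]
      exact ⟨by show D.N - 1 - D.cc < D.N; omega, hcc hccN⟩
    rw [← hs, List.mem_map] at h1
    obtain ⟨p, hp, hp2⟩ := h1
    exact ⟨p, hp, by omega⟩
  rcases hall _ (GArr.valid_pairs B) hfr hq with h | h
  · left
    have hbl := GArr.blocked_of_full (A := D.arr) (E := E) hB hc hE h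
    obtain ⟨e, he, e', he', x, hx, x', hx', ht⟩ := hbl
    refine ⟨e, he, e', he', x, hx, x', hx', ?_⟩
    have key : ∀ u ∈ B, ∀ v ∈ E \ B, xch id g B u v = xch id D.arr.f B u v := by
      intro u _ v hv
      unfold xch
      rw [hlink]
      intro y hy
      rcases mem_insert.mp hy with h1 | h1
      · subst h1
        exact hEr (mem_sdiff.mp hv).1
      · exact hB (mem_of_mem_erase h1)
    rw [key e he x hx, key e he x' hx', key e' he' x hx, key e' he' x' hx']
    exact ht
  · exact Or.inr h

end GDat

end Pool.Agent.Simplex
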