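import Pool.Agent.Work.MP_f99e36_co.GChk7
import Pool.Agent.Work.MP_f99e36_co.Link2
import Pool.Agent.Work.MP_f99e36_co.Stages
import Pool.Agent.Work.MP_f99e36_co.Nested
import Pool.Agent.Work.MP_f99e36_co.SMap

/-!
The final object: data, link, and the first three hypotheses of the nested composition theorem
from the checks of the insertion stages.
-/

set_option autoImplicit false

namespace Pool.Agent.Simplex

open Finset

/-- the inner sign function -/
def gF : Finset ℕ → Bool := (innerT 17 tab17).f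

/-- the inner sign function in outer labels -/
def f1F (X : Finset ℕ) : Bool := gF (X.image sig) ^^ invS sig X

theorem f1F_GP3 : GP3 id (range 80) 12 f1F := by
  refine GP3.reorder sig_inj ?_
  rw [sig_image]
  exact inner_F

/-- the data of the checker -/
def datP (pt bt al ng cc : ℕ) : GDat := ⟨12, 68, 51, pt, bt, tab17, al, ng, cc⟩

/-- the facts about the pair table and the block table used in the link -/
structure LinkOK (pt bt : ℕ) : Prop where
  bid : ∀ e, e < 12 → ∀ y, y < 68 → (pf pt e y) >>> 20 = 17 * ((11 - e) / 4) + (67 - y) / 4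
  loc : ∀ e, e < 12 → ∀ y, y < 68 → pf pt e y % 1048576 = 2 ^ (e % 4) + 16 * 2 ^ (y % 4)
  bas : ∀ b, b < 51 → bas bt b = 256 * (b / 17)

variable {pt bt : ℕ}

theorem linkF (h : LinkOK pt bt) (al ng cc : ℕ) (B : Finset ℕ) :
    (datP pt bt al ng cc).arr.f B = gF B :=
  link2 (q := 17) (D := datP pt bt al ng cc) rfl rfl rfl h.bid h.loc h.bas B

/-- position of an element in the masks -/
def posF (e : ℕ) : ℕ := if e < 12 then e else 111 - e

/-- the masks of a stage: the newest element is number i, all elements of the basis have a number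
at most i, the outside elements of the tests have a number below w -/
structure StageOK (i w al ng cc : ℕ) : Prop where
  al_ok : ∀ e, e < 80 → al.testBit (posF e) = true → ∃ x, x < w ∧ sig x = e
  ng_ok : ∀ y, y < 68 → ng.testBit y = true → ∀ x, x < i + 1 → sig x ≠ 79 - y
  cc_ok : cc < 68 → 79 - cc = sig i

theorem stage_set {i w al ng cc : ℕ} {T : GTb} (hl : LinkOK pt bt) (hok : StageOK i w al ng cc)
    (hi : i < 80) (hw : w ≤ 80)
    (hall : ∀ L, (datP pt bt al ng cc).arr.Valid L → (datP pt bt al ng cc).Free L →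
      (datP pt bt al ng cc).Tgt T L)
    (B : Finset ℕ) (hB : B ⊆ (range (i + 1)).image sig) (hcc : cc < 68 → sig i ∈ B)
    (hc : B.card = 12) :
    Blocked id ((range w).image sig) gF B ∨
      (datP pt bt al ng cc).Exc T ((datP pt bt al ng cc).arr.pairs B) := by
  have himg : ∀ k, k ≤ 80 → (range k).image sig ⊆ range 80 := by
    intro k hk
    rw [← sig_image]
    apply image_subset_image
    intro x hx
    rw [mem_range] at hx ⊢
    omega
  refine GDat.blocked_of_stage (fun B _ => linkF hl al ng cc B) hall ?_ (himg w hw)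
    (hB.trans (himg (i + 1) hi)) hc ?_ ?_
  · intro e he ht
    obtain ⟨x, hx, hxe⟩ := hok.al_ok e he ht
    exact mem_image.mpr ⟨x, mem_range.mpr hx, hxe⟩
  · intro y hy ht hmem
    have hy' : y < 68 := hy
    obtain ⟨x, hx, hxe⟩ := mem_image.mp (hB hmem)
    refine hok.ng_ok y hy' ht x (mem_range.mp hx) ?_
    rw [hxe]
    show 12 + (68 - 1 - y) = _
    omega
  · intro hcN
    have hcN' : cc < 68 := hcN
    have h1 := hok.cc_ok hcN'
    have h2 := hcc hcN'
    show 12 + (68 - 1 - cc) ∈ B
    rw [show 12 + (68 - 1 - cc) = 79 - cc by omega, h1]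
    exact h2

/-- a certificate of the base: no restriction on the newest element -/
structure BaseCert (pt bt al ng cc : ℕ) (T : GTb) : Prop where
  ok : StageOK 43 45 al ng cc
  cc_ge : 68 ≤ cc
  all : ∀ L, (datP pt bt al ng cc).arr.Valid L → (datP pt bt al ng cc).Free L →
      (datP pt bt al ng cc).Tgt T L

/-- a certificate of the stage with newest element number i -/
def StageCert (pt bt i : ℕ) : Prop :=
  ∃ al ng cc T, StageOK i (min (i + 2) 80) al ng cc ∧ T.en = 0 ∧
    ∀ L, (datP pt bt al ng cc).arr.Valid L → (datP pt bt al ng cc).Free L →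
      (datP pt bt al ng cc).Tgt T L

/-- the exceptional bases in outer labels -/
def ExcF (D : GDat) (T : GTb) (X : Finset ℕ) : Prop :=
  D.Exc T (D.arr.pairs (X.image sig)) ∧ X ⊆ range 44 ∧ X.card = 12

theorem ExcF.sub {D : GDat} {T : GTb} {X : Finset ℕ} (h : ExcF D T X) : X ⊆ range 44 := h.2.1

/-- the image of an exceptional basis is given by a mask of the list -/
theorem ExcF.dset {al ng cc : ℕ} {T : GTb} {X : Finset ℕ}
    (h : ExcF (datP pt bt al ng cc) T X) :
    ∃ k, k < T.en ∧ X.image sig = GDat.dset 12 68 (fld128 T.ex k) := by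
  obtain ⟨⟨k, hk, hrep⟩, hX, hc⟩ := h
  refine ⟨k, hk, GDat.eq_dset (D := datP pt bt al ng cc) ?_ ?_ hrep⟩
  · show X.image sig ⊆ range 80
    rw [← sig_image]
    apply image_subset_image
    intro x hx
    have := mem_range.mp (hX hx)
    rw [mem_range]
    omega
  · show (X.image sig).card = 12
    rw [card_image_of_injOn, hc]
    intro x hx y hy
    have hx' := mem_range.mp (hX (by exact_mod_cast hx))
    have hy' := mem_range.mp (hX (by exact_mod_cast hy))
    apply sig_inj
    · simp only [coe_range, Set.mem_Iio]; omega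
    · simp only [coe_range, Set.mem_Iio]; omega

section main

variable {al0 ng0 cc0 : ℕ} {T0 : GTb}

theorem hyp_base (hl : LinkOK pt bt) (hb : BaseCert pt bt al0 ng0 cc0 T0) (B : Finset ℕ)
    (hB : B ⊆ (range 44).image sig) (hc : B.card = 12) :
    (datP pt bt al0 ng0 cc0).Exc T0 ((datP pt bt al0 ng0 cc0).arr.pairs B) ∨
      Blocked id ((range (44 + 1)).image sig) gF B := by
  have h := stage_set (i := 43) (w := 45) hl hb.ok (by norm_num) (by norm_num) hb.all B hB
    (fun h => absurd h (by have := hb.cc_ge; omega)) hc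
  exact h.symm

theorem hyp_stage (hl : LinkOK pt bt) {i : ℕ} (hi : i < 80) (hs : StageCert pt bt i) (B : Finset ℕ)
    (hB : B ⊆ (range (i + 1)).image sig) (hm : sig i ∈ B) (hc : B.card = 12) :
    Blocked id ((range (min (i + 2) 80)).image sig) gF B := by
  obtain ⟨al, ng, cc, T, hok, hen, hall⟩ := hs
  rcases stage_set hl hok hi (min_le_right _ _) hall B hB (fun _ => hm) hc with h | ⟨k, hk, -⟩
  · exact h
  · rw [hen] at hk
    exact absurd hk (Nat.not_lt_zero _)

/-- hypothesis H1 of the nested composition -/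
theorem hyp_H1 (hl : LinkOK pt bt) (hb : BaseCert pt bt al0 ng0 cc0 T0)
    (hs : ∀ i, 44 ≤ i → i < 80 → StageCert pt bt i) (X : Finset ℕ) (b : ℕ) (hX : X ⊆ range b)
    (hc : X.card = 12) (hb0 : 12 + 32 ≤ b) (hb1 : b < 12 + 68) :
    ExcF (datP pt bt al0 ng0 cc0) T0 X ∨ Blocked id (range (b + 1)) f1F X := by
  rcases stages_H1 (n0 := 44) (n1 := 80) (s := sig) (g := gF)
    (ExcI := fun B => (datP pt bt al0 ng0 cc0).Exc T0 ((datP pt bt al0 ng0 cc0).arr.pairs B))
    sig_inj (by norm_num) (hyp_base hl hb)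
    (fun i h0 h1 B hB hm hc => hyp_stage hl h1 (hs i h0 h1) B hB hm hc) X b hX hc hb0 hb1 with
    h | h
  · exact Or.inl ⟨h.1, h.2, hc⟩
  · exact Or.inr h

/-- hypothesis H2 of the nested composition -/
theorem hyp_H2 (hl : LinkOK pt bt) (hb : BaseCert pt bt al0 ng0 cc0 T0)
    (hs : ∀ i, 44 ≤ i → i < 80 → StageCert pt bt i) (X : Finset ℕ) (hX : X ⊆ range (12 + 68))
    (hc : X.card = 12) :
    ExcF (datP pt bt al0 ng0 cc0) T0 X ∨ Blocked id (range (12 + 68)) f1F X := by
  rcases stages_H2 (n0 := 44) (n1 := 80) (s := sig) (g := gF)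
    (ExcI := fun B => (datP pt bt al0 ng0 cc0).Exc T0 ((datP pt bt al0 ng0 cc0).arr.pairs B))
    sig_inj (by norm_num) (hyp_base hl hb)
    (fun i h0 h1 B hB hm hc => hyp_stage hl h1 (hs i h0 h1) B hB hm hc) X hX hc with
    h | h
  · exact Or.inl ⟨h.1, h.2, hc⟩
  · exact Or.inr h

end main

end Pool.Agent.Simplex
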