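import Pool.Agent.Work.MP_f99e36_co.PathDefs

/-!
Kernel-friendly evaluation of block arrays: rows and columns of a basis as bit masks
(row i is bit m-1-i, column j is bit N-1-j), pairs are read from the top bits.
-/

set_option autoImplicit false

namespace Pool.Agent.Simplex

/-- decode a mask: the increasing list of all i < n such that bit n-1-i is set -/
def dec (n X : ℕ) : List ℕ := (List.range n).filter (fun i => X.testBit (n - 1 - i))

theorem mem_dec {n X i : ℕ} : i ∈ dec n X ↔ i < n ∧ X.testBit (n - 1 - i) = true := by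
  unfold dec; rw [List.mem_filter, List.mem_range]

theorem dec_sorted (n X : ℕ) : (dec n X).Pairwise (· < ·) := by
  unfold dec
  exact (List.pairwise_lt_range (n := n)).filter _

theorem dec_zero (n : ℕ) : dec n 0 = [] := by
  unfold dec
  rw [List.filter_eq_nil_iff]
  intro i _
  simp

theorem testBit_log2 {X : ℕ} (h : X ≠ 0) : X.testBit X.log2 = true := by
  have h1 : 2 ^ X.log2 ≤ X := Nat.log2_self_le h
  have h2 : X < 2 ^ (X.log2 + 1) := Nat.lt_log2_self
  rw [Nat.testBit_eq_decide_div_mod_eq]
  have h3 : X / 2 ^ X.log2 = 1 := by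
    apply Nat.div_eq_of_lt_le
    · simpa using h1
    · rw [pow_succ] at h2; omega
  rw [h3]; rfl

theorem testBit_above {X i : ℕ} (h : X.log2 < i) : X.testBit i = false := by
  apply Nat.testBit_lt_two_pow
  calc X < 2 ^ (X.log2 + 1) := Nat.lt_log2_self
    _ ≤ 2 ^ i := Nat.pow_le_pow_right (by norm_num) h

/-- strictly increasing lists with the same members are equal -/
theorem eq_of_sorted_of_mem {l l' : List ℕ} (h : l.Pairwise (· < ·)) (h' : l'.Pairwise (· < ·))
    (hm : ∀ x, x ∈ l ↔ x ∈ l') : l = l' := by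
  have hp : l.Perm l' := (List.perm_ext_iff_of_nodup
    (h.imp (fun h => ne_of_lt h)) (h'.imp (fun h => ne_of_lt h))).mpr hm
  exact hp.eq_of_pairwise (fun a b _ _ h1 h2 => by omega) h h'

theorem dec_cons {n X : ℕ} (h0 : X ≠ 0) (hX : X < 2 ^ n) :
    dec n X = (n - 1 - X.log2) :: dec n (X ^^^ 2 ^ X.log2) := by
  have hlog : X.log2 < n := (Nat.log2_lt h0).mpr hX
  apply eq_of_sorted_of_mem (dec_sorted _ _)
  · rw [List.pairwise_cons]
    refine ⟨fun i hi => ?_, dec_sorted _ _⟩
    obtain ⟨h1, h2⟩ := mem_dec.mp hi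
    rw [Nat.testBit_xor] at h2
    by_contra hlt
    have h3 : X.log2 ≤ n - 1 - i := by omega
    rcases h3.eq_or_lt with h4 | h4
    · rw [← h4, testBit_log2 h0, Nat.testBit_two_pow_self] at h2
      simp at h2
    · rw [testBit_above h4, Nat.testBit_two_pow] at h2
      simp at h2
      omega
  · intro i
    rw [List.mem_cons, mem_dec, mem_dec, Nat.testBit_xor, Nat.testBit_two_pow]
    constructor
    · rintro ⟨h1, h2⟩
      by_cases h3 : i = n - 1 - X.log2
      · exact Or.inl h3
      · right
        refine ⟨h1, ?_⟩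
        rw [h2]
        have : ¬ (X.log2 = n - 1 - i) := by omega
        simp [this]
    · rintro (h1 | ⟨h1, h2⟩)
      · subst h1
        refine ⟨by omega, ?_⟩
        have : n - 1 - (n - 1 - X.log2) = X.log2 := by omega
        rw [this]; exact testBit_log2 h0
      · refine ⟨h1, ?_⟩
        by_cases h3 : X.log2 = n - 1 - i
        · rw [← h3] at h2 ⊢
          exact testBit_log2 h0
        · simpa [h3] using h2

theorem xor_top_lt {n X : ℕ} (h0 : X ≠ 0) (hX : X < 2 ^ n) : X ^^^ 2 ^ X.log2 < 2 ^ n := by
  have hlog : X.log2 < n := (Nat.log2_lt h0).mpr hX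
  exact Nat.xor_lt_two_pow hX (Nat.pow_lt_pow_right (by norm_num) hlog)

/-- lowest set bit -/
def lob (X : ℕ) : ℕ := Nat.log2 (Nat.xor X (Nat.sub X 1))

theorem log2_two_mul_add_one {c : ℕ} (h : c ≠ 0) : (2 * c + 1).log2 = c.log2 + 1 := by
  rw [Nat.log2_def, if_pos (by omega)]
  congr 2
  omega

theorem lob_even {c : ℕ} (hc0 : c ≠ 0) : lob (2 * c) = lob c + 1 := by
  have hne : c ^^^ (c - 1) ≠ 0 := by
    intro h
    have := Nat.xor_eq_zero_iff.mp h
    omega
  have hx : (2 * c) ^^^ (2 * c - 1) = 2 * (c ^^^ (c - 1)) + 1 := by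
    apply Nat.eq_of_testBit_eq
    intro j
    have e1 : 2 * c - 1 = 2 * (c - 1) + 1 := by omega
    rw [e1]
    cases j with
    | zero =>
      rw [Nat.testBit_xor]
      simp [Nat.testBit_zero]
    | succ j =>
      rw [Nat.testBit_xor, Nat.testBit_succ, Nat.testBit_succ, Nat.testBit_succ]
      have a1 : 2 * c / 2 = c := by omega
      have a2 : (2 * (c - 1) + 1) / 2 = c - 1 := by omega
      have a3 : (2 * (c ^^^ (c - 1)) + 1) / 2 = c ^^^ (c - 1) := by omega
      rw [a1, a2, a3, Nat.testBit_xor]
  show ((2 * c) ^^^ (2 * c - 1)).log2 = (c ^^^ (c - 1)).log2 + 1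
  rw [hx, log2_two_mul_add_one hne]

theorem lob_odd (c : ℕ) : lob (2 * c + 1) = 0 := by
  have hx : (2 * c + 1) ^^^ (2 * c + 1 - 1) = 1 := by
    apply Nat.eq_of_testBit_eq
    intro j
    have e1 : 2 * c + 1 - 1 = 2 * c := by omega
    rw [e1]
    cases j with
    | zero =>
      rw [Nat.testBit_xor]
      simp [Nat.testBit_zero]
    | succ j =>
      rw [Nat.testBit_xor, Nat.testBit_succ, Nat.testBit_succ, Nat.testBit_succ]
      have a1 : 2 * c / 2 = c := by omega
      have a2 : (2 * c + 1) / 2 = c := by omega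
      rw [a1, a2]
      simp
  show ((2 * c + 1) ^^^ (2 * c + 1 - 1)).log2 = 0
  rw [hx]
  rfl

theorem lob_spec : ∀ X : ℕ, X ≠ 0 → X.testBit (lob X) = true ∧ ∀ j, j < lob X →
    X.testBit j = false := by
  intro X
  induction X using Nat.strong_induction_on with
  | _ X ih =>
    intro hX
    rcases Nat.even_or_odd' X with ⟨c, hc | hc⟩
    · have hc0 : c ≠ 0 := by omega
      have h1 := ih c (by omega) hc0
      have hl : lob X = lob c + 1 := by rw [hc]; exact lob_even hc0
      have : X / 2 = c := by omega
      rw [hl]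
      constructor
      · rw [Nat.testBit_succ, this]
        exact h1.1
      · intro j hj
        cases j with
        | zero =>
          rw [hc]
          simp [Nat.testBit_zero]
        | succ j =>
          rw [Nat.testBit_succ, this]
          exact h1.2 j (by omega)
    · have hl : lob X = 0 := by rw [hc]; exact lob_odd c
      rw [hl]
      constructor
      · rw [hc, Nat.testBit_zero]
        simp
      · intro j hj
        omega

/-- removing the lowest bit -/
theorem land_pred_testBit : ∀ X : ℕ, X ≠ 0 → ∀ j,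
    (X &&& (X - 1)).testBit j = (X.testBit j && decide (j ≠ lob X)) := by
  intro X
  induction X using Nat.strong_induction_on with
  | _ X ih =>
    intro hX j
    rcases Nat.even_or_odd' X with ⟨c, hc | hc⟩
    · have hc0 : c ≠ 0 := by omega
      have hl : lob X = lob c + 1 := by rw [hc]; exact lob_even hc0
      rw [hl, Nat.testBit_and]
      cases j with
      | zero =>
        rw [hc]
        simp [Nat.testBit_zero]
      | succ j =>
        have h1 : X / 2 = c := by omega
        have h2 : (X - 1) / 2 = c - 1 := by omega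
        have h3 := ih c (by omega) hc0 j
        rw [Nat.testBit_and] at h3
        rw [Nat.testBit_succ, Nat.testBit_succ, h1, h2, h3]
        congr 1
        rw [decide_eq_decide]
        omega
    · have hl : lob X = 0 := by rw [hc]; exact lob_odd c
      rw [hl, Nat.testBit_and]
      cases j with
      | zero =>
        have : (X - 1).testBit 0 = false := by
          have : X - 1 = 2 * c := by omega
          rw [this]
          simp [Nat.testBit_zero]
        rw [this]
        simp
      | succ j =>
        have h1 : X / 2 = c := by omega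
        have h2 : (X - 1) / 2 = c := by omega
        rw [Nat.testBit_succ, Nat.testBit_succ, h1, h2]
        simp

theorem xor_land_pred {X : ℕ} (h : X ≠ 0) : X ^^^ (X &&& (X - 1)) = 2 ^ lob X := by
  apply Nat.eq_of_testBit_eq
  intro j
  rw [Nat.testBit_xor, land_pred_testBit X h, Nat.testBit_two_pow]
  by_cases hj : j = lob X
  · rw [hj, (lob_spec X h).1]
    simp
  · have h1 : ¬ (lob X = j) := fun h => hj h.symm
    simp [hj, h1]

theorem lob_lt {n X : ℕ} (h0 : X ≠ 0) (hX : X < 2 ^ n) : lob X < n := by
  by_contra h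
  have : X.testBit (lob X) = false :=
    Nat.testBit_lt_two_pow (lt_of_lt_of_le hX (Nat.pow_le_pow_right (by norm_num) (by omega)))
  rw [(lob_spec X h0).1] at this
  exact absurd this (by simp)

theorem dec_snoc {n X : ℕ} (h0 : X ≠ 0) (hX : X < 2 ^ n) :
    dec n X = dec n (X &&& (X - 1)) ++ [n - 1 - lob X] := by
  have hlt := lob_lt h0 hX
  obtain ⟨s1, s2⟩ := lob_spec X h0
  apply eq_of_sorted_of_mem (dec_sorted _ _)
  · rw [List.pairwise_append]
    refine ⟨dec_sorted _ _, List.pairwise_singleton _ _, ?_⟩
    intro i hi j hj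
    rw [List.mem_singleton] at hj
    rw [mem_dec, land_pred_testBit X h0, Bool.and_eq_true, decide_eq_true_iff] at hi
    subst hj
    by_contra hlt'
    have h1 : n - 1 - i < lob X := by
      have := hi.2.2
      omega
    have := s2 _ h1
    rw [hi.2.1] at this
    exact absurd this (by simp)
  · intro i
    rw [List.mem_append, List.mem_singleton, mem_dec, mem_dec, land_pred_testBit X h0,
      Bool.and_eq_true, decide_eq_true_iff]
    constructor
    · rintro ⟨h1, h2⟩
      by_cases h3 : n - 1 - i = lob X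
      · right
        omega
      · exact Or.inl ⟨h1, h2, h3⟩
    · rintro (⟨h1, h2, -⟩ | h1)
      · exact ⟨h1, h2⟩
      · refine ⟨by omega, ?_⟩
        have : n - 1 - i = lob X := by omega
        rw [this]
        exact s1

theorem land_pred_lt {n X : ℕ} (hX : X < 2 ^ n) : X &&& (X - 1) < 2 ^ n :=
  lt_of_le_of_lt Nat.and_le_left hX

/-! ## xor over the blocks -/

/-- xor of h over a list -/
def xr (bl : List (ℕ × ℕ)) (h : ℕ × ℕ → Bool) : Bool := bl.foldr (fun ab s => h ab ^^ s) false

theorem xr_congr {bl : List (ℕ × ℕ)} {h h' : ℕ × ℕ → Bool} (H : ∀ c ∈ bl, h c = h' c) :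
    xr bl h = xr bl h' := by
  induction bl with
  | nil => rfl
  | cons a l ih =>
    show (h a ^^ xr l h) = (h' a ^^ xr l h')
    rw [H a (by simp), ih (fun c hc => H c (by simp [hc]))]

/-- changing h at one point of the list -/
theorem xr_change {bl : List (ℕ × ℕ)} (hn : bl.Nodup) {c : ℕ × ℕ} (hc : c ∈ bl)
    {h h' : ℕ × ℕ → Bool} (H : ∀ d ∈ bl, d ≠ c → h d = h' d) :
    xr bl h = (h c ^^ h' c ^^ xr bl h') := by
  induction bl with
  | nil => simp at hc
  | cons a l ih =>
    show (h a ^^ xr l h) = (h c ^^ h' c ^^ (h' a ^^ xr l h'))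
    rw [List.nodup_cons] at hn
    by_cases hac : c = a
    · subst hac
      have : xr l h = xr l h' := xr_congr (fun d hd => H d (by simp [hd])
        (fun he => hn.1 (he ▸ hd)))
      rw [this]
      cases h c <;> cases h' c <;> simp
    · have hcl : c ∈ l := by
        rcases List.mem_cons.mp hc with h1 | h1
        · exact absurd h1 hac
        · exact h1
      rw [ih hn.2 hcl (fun d hd hne => H d (by simp [hd]) hne), H a (by simp) (Ne.symm hac)]
      cases h c <;> cases h' c <;> cases h' a <;> simp

theorem xr_single {bl : List (ℕ × ℕ)} (hn : bl.Nodup) {c : ℕ × ℕ} (hc : c ∈ bl)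
    {h : ℕ × ℕ → Bool} (H : ∀ d ∈ bl, d ≠ c → h d = false) : xr bl h = h c := by
  have h0 : xr bl (fun _ => false) = false := by
    clear hn hc H
    induction bl with
    | nil => rfl
    | cons a l ih => show (false ^^ xr l _) = false; rw [ih]; rfl
  rw [xr_change hn hc (h' := fun _ => false) H, h0]
  simp

namespace Arr

variable (A : Arr)

/-- evaluation of a list of pairs run by run -/
def rvl : List (ℕ × ℕ) → ℕ → ℕ → List (ℕ × ℕ) → Bool → Bool
  | [], a, b, P, s => s ^^ A.g a b P
  | p :: L, a, b, P, s =>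
    if A.rb p.1 = a ∧ A.cb p.2 = b then rvl L a b (P ++ [p]) s
    else rvl L (A.rb p.1) (A.cb p.2) [p] (s ^^ A.g a b P)

theorem val_eq_xr (L : List (ℕ × ℕ)) :
    A.val L = xr A.bl (fun ab => A.g ab.1 ab.2 (A.part ab.1 ab.2 L)) := rfl

variable {A}

theorem part_cons_pos {a b : ℕ} {p : ℕ × ℕ} (L : List (ℕ × ℕ)) (h : A.rb p.1 = a ∧ A.cb p.2 = b) :
    A.part a b (p :: L) = p :: A.part a b L := by
  unfold part
  rw [List.filter_cons_of_pos]
  simp [h.1, h.2]

theorem part_cons_neg {a b : ℕ} {p : ℕ × ℕ} (L : List (ℕ × ℕ))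
    (h : ¬ (A.rb p.1 = a ∧ A.cb p.2 = b)) : A.part a b (p :: L) = A.part a b L := by
  unfold part
  rw [List.filter_cons_of_neg]
  simpa using h

theorem rvl_eq (hA : A.WF) (hbl : A.bl.Nodup) :
    ∀ (L : List (ℕ × ℕ)) (a b : ℕ) (P : List (ℕ × ℕ)) (s : Bool), Inc L →
      (∀ p ∈ L, (A.rb p.1, A.cb p.2) ∈ A.bl) → (a, b) ∈ A.bl →
      (∀ p ∈ L, a ≤ A.rb p.1 ∧ b ≤ A.cb p.2) →
      A.rvl L a b P s = (s ^^ xr A.bl (fun cd =>
        A.g cd.1 cd.2 ((if cd = (a, b) then P else []) ++ A.part cd.1 cd.2 L))) := by
  intro L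
  induction L with
  | nil =>
    intro a b P s _ _ hab _
    show (s ^^ A.g a b P) = _
    rw [xr_single hbl hab]
    · simp [part]
    · intro d _ hd
      simp [part, hd, hA.g_nil]
  | cons p L ih =>
    intro a b P s hInc hmem hab hle
    have hInc' : Inc L := (List.pairwise_cons.mp hInc).2
    have hpL := (List.pairwise_cons.mp hInc).1
    unfold rvl
    by_cases hp : A.rb p.1 = a ∧ A.cb p.2 = b
    · rw [if_pos hp, ih a b (P ++ [p]) s hInc' (fun x hx => hmem x (by simp [hx])) hab
        (fun x hx => hle x (by simp [hx]))]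
      congr 1
      apply xr_congr
      intro c _
      by_cases hc : c = (a, b)
      · subst hc
        rw [if_pos rfl, if_pos rfl, part_cons_pos L hp]
        simp
      · rw [if_neg hc, if_neg hc, part_cons_neg L]
        rintro ⟨h1, h2⟩
        apply hc
        ext
        · simp only; omega
        · simp only; omega
    · rw [if_neg hp]
      have hpm : (A.rb p.1, A.cb p.2) ∈ A.bl := hmem p (by simp)
      have hmono : ∀ x ∈ L, A.rb p.1 ≤ A.rb x.1 ∧ A.cb p.2 ≤ A.cb x.2 := fun x hx =>
        ⟨hA.rb_mono _ _ (hpL x hx).1.le, hA.cb_mono _ _ (hpL x hx).2.le⟩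
      rw [ih _ _ [p] _ hInc' (fun x hx => hmem x (by simp [hx])) hpm hmono]
      have hlep := hle p (by simp)
      have hnot : ∀ x ∈ p :: L, ¬ (A.rb x.1 = a ∧ A.cb x.2 = b) := by
        intro x hx hxx
        rcases List.mem_cons.mp hx with h1 | h1
        · subst h1; exact hp hxx
        · have := hmono x h1
          apply hp
          constructor
          · omega
          · omega
      have hpart : A.part a b (p :: L) = [] := by
        unfold part
        rw [List.filter_eq_nil_iff]
        intro x hx
        simpa using hnot x hx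
      have hpart' : A.part a b L = [] := by
        unfold part
        rw [List.filter_eq_nil_iff]
        intro x hx
        simpa using hnot x (by simp [hx])
      rw [xr_change hbl hab (h := fun cd =>
          A.g cd.1 cd.2 ((if cd = (a, b) then P else []) ++ A.part cd.1 cd.2 (p :: L)))
        (h' := fun cd => A.g cd.1 cd.2
          ((if cd = (A.rb p.1, A.cb p.2) then [p] else []) ++ A.part cd.1 cd.2 L))]
      · have hne : ¬ ((a, b) = (A.rb p.1, A.cb p.2)) := by
          intro h
          apply hp
          rw [Prod.mk.injEq] at h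
          exact ⟨h.1.symm, h.2.symm⟩
        simp only [if_true, hpart, hpart', hne, if_false, List.append_nil, hA.g_nil]
        cases s <;> cases A.g a b P <;> simp
      · intro d _ hd
        rw [if_neg hd]
        by_cases hdp : d = (A.rb p.1, A.cb p.2)
        · subst hdp
          rw [if_pos rfl, part_cons_pos L ⟨rfl, rfl⟩]
          simp
        · rw [if_neg hdp, part_cons_neg L]
          rintro ⟨h1, h2⟩
          apply hdp
          ext
          · simp only; omega
          · simp only; omega

/-- the same for lists read from the last pair -/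
theorem rvl_eq_rev (hA : A.WF) (hbl : A.bl.Nodup) :
    ∀ (L : List (ℕ × ℕ)) (a b : ℕ) (P : List (ℕ × ℕ)) (s : Bool),
      L.Pairwise (fun p q => q.1 < p.1 ∧ q.2 < p.2) →
      (∀ p ∈ L, (A.rb p.1, A.cb p.2) ∈ A.bl) → (a, b) ∈ A.bl →
      (∀ p ∈ L, A.rb p.1 ≤ a ∧ A.cb p.2 ≤ b) →
      A.rvl L a b P s = (s ^^ xr A.bl (fun cd =>
        A.g cd.1 cd.2 ((if cd = (a, b) then P else []) ++ A.part cd.1 cd.2 L))) := by
  intro L
  induction L with
  | nil =>
    intro a b P s _ _ hab _
    show (s ^^ A.g a b P) = _
    rw [xr_single hbl hab]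
    · simp [part]
    · intro d _ hd
      simp [part, hd, hA.g_nil]
  | cons p L ih =>
    intro a b P s hInc hmem hab hle
    have hInc' := (List.pairwise_cons.mp hInc).2
    have hpL := (List.pairwise_cons.mp hInc).1
    unfold rvl
    by_cases hp : A.rb p.1 = a ∧ A.cb p.2 = b
    · rw [if_pos hp, ih a b (P ++ [p]) s hInc' (fun x hx => hmem x (by simp [hx])) hab
        (fun x hx => hle x (by simp [hx]))]
      congr 1
      apply xr_congr
      intro c _
      by_cases hc : c = (a, b)
      · subst hc
        rw [if_pos rfl, if_pos rfl, part_cons_pos L hp]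
        simp
      · rw [if_neg hc, if_neg hc, part_cons_neg L]
        rintro ⟨h1, h2⟩
        apply hc
        ext
        · simp only; omega
        · simp only; omega
    · rw [if_neg hp]
      have hpm : (A.rb p.1, A.cb p.2) ∈ A.bl := hmem p (by simp)
      have hmono : ∀ x ∈ L, A.rb x.1 ≤ A.rb p.1 ∧ A.cb x.2 ≤ A.cb p.2 := fun x hx =>
        ⟨hA.rb_mono _ _ (hpL x hx).1.le, hA.cb_mono _ _ (hpL x hx).2.le⟩
      rw [ih _ _ [p] _ hInc' (fun x hx => hmem x (by simp [hx])) hpm hmono]
      have hlep := hle p (by simp)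
      have hnot : ∀ x ∈ p :: L, ¬ (A.rb x.1 = a ∧ A.cb x.2 = b) := by
        intro x hx hxx
        rcases List.mem_cons.mp hx with h1 | h1
        · subst h1; exact hp hxx
        · have := hmono x h1
          apply hp
          constructor
          · omega
          · omega
      have hpart : A.part a b (p :: L) = [] := by
        unfold part
        rw [List.filter_eq_nil_iff]
        intro x hx
        simpa using hnot x hx
      have hpart' : A.part a b L = [] := by
        unfold part
        rw [List.filter_eq_nil_iff]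
        intro x hx
        simpa using hnot x (by simp [hx])
      rw [xr_change hbl hab (h := fun cd =>
          A.g cd.1 cd.2 ((if cd = (a, b) then P else []) ++ A.part cd.1 cd.2 (p :: L)))
        (h' := fun cd => A.g cd.1 cd.2
          ((if cd = (A.rb p.1, A.cb p.2) then [p] else []) ++ A.part cd.1 cd.2 L))]
      · have hne : ¬ ((a, b) = (A.rb p.1, A.cb p.2)) := by
          intro h
          apply hp
          rw [Prod.mk.injEq] at h
          exact ⟨h.1.symm, h.2.symm⟩
        simp only [if_true, hpart, hpart', hne, if_false, List.append_nil, hA.g_nil]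
        cases s <;> cases A.g a b P <;> simp
      · intro d _ hd
        rw [if_neg hd]
        by_cases hdp : d = (A.rb p.1, A.cb p.2)
        · subst hdp
          rw [if_pos rfl, part_cons_pos L ⟨rfl, rfl⟩]
          simp
        · rw [if_neg hdp, part_cons_neg L]
          rintro ⟨h1, h2⟩
          apply hdp
          ext
          · simp only; omega
          · simp only; omega

/-- evaluation from the last pair, when g does not depend on the order of the pairs -/
theorem val_eq_rvl_rev (hA : A.WF) (hbl : A.bl.Nodup) (h0 : (0, 0) ∈ A.bl)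
    (hsym : ∀ a b P, A.g a b P.reverse = A.g a b P) {L : List (ℕ × ℕ)}
    (hL : L.Pairwise (fun p q => q.1 < p.1 ∧ q.2 < p.2))
    (hmem : ∀ p ∈ L, (A.rb p.1, A.cb p.2) ∈ A.bl) (s : Bool) :
    A.rvl L 0 0 [] s = (s ^^ A.val L.reverse) := by
  have hval : A.val L.reverse = xr A.bl (fun cd => A.g cd.1 cd.2 (A.part cd.1 cd.2 L)) := by
    rw [val_eq_xr]
    apply xr_congr
    intro c _
    have : A.part c.1 c.2 L.reverse = (A.part c.1 c.2 L).reverse := by
      unfold part
      rw [List.filter_reverse]
    rw [this, hsym]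
  cases L with
  | nil =>
    show (s ^^ A.g 0 0 []) = _
    rw [hA.g_nil]
    congr 1
    rw [hval]
    symm
    rw [xr_single hbl h0 (h := fun cd => A.g cd.1 cd.2 (A.part cd.1 cd.2 []))]
    · exact hA.g_nil 0 0
    · intro d _ _
      exact hA.g_nil _ _
  | cons p t =>
    have hpm := hmem p (by simp)
    have hmono : ∀ x ∈ p :: t, A.rb x.1 ≤ A.rb p.1 ∧ A.cb x.2 ≤ A.cb p.2 := by
      intro x hx
      rcases List.mem_cons.mp hx with h | h
      · rw [h]
        exact ⟨le_refl _, le_refl _⟩
      · have := (List.pairwise_cons.mp hL).1 x h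
        exact ⟨hA.rb_mono _ _ this.1.le, hA.cb_mono _ _ this.2.le⟩
    have h1 := rvl_eq_rev hA hbl (p :: t) _ _ [] s hL hmem hpm hmono
    have h2 : A.rvl (p :: t) 0 0 [] s = A.rvl (p :: t) (A.rb p.1) (A.cb p.2) [] s := by
      unfold rvl
      rw [if_pos (c := A.rb p.1 = A.rb p.1 ∧ A.cb p.2 = A.cb p.2) ⟨rfl, rfl⟩]
      by_cases hp : A.rb p.1 = 0 ∧ A.cb p.2 = 0
      · rw [if_pos hp, hp.1, hp.2]
      · rw [if_neg hp, hA.g_nil]
        simp
    rw [h2, h1, hval]
    simp

theorem val_eq_rvl (hA : A.WF) (hbl : A.bl.Nodup) (h0 : (0, 0) ∈ A.bl) {L : List (ℕ × ℕ)}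
    (hL : Inc L) (hmem : ∀ p ∈ L, (A.rb p.1, A.cb p.2) ∈ A.bl) :
    A.val L = A.rvl L 0 0 [] false := by
  rw [rvl_eq hA hbl L 0 0 [] false hL hmem h0 (fun p _ => ⟨Nat.zero_le _, Nat.zero_le _⟩),
    val_eq_xr]
  simp

end Arr

end Pool.Agent.Simplex
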