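import Pool.Agent.Work.MP_f99e36_co.StD
import Pool.Agent.Work.MP_f99e36_co.St33
import Pool.Agent.Work.MP_f99e36_co.St34
import Pool.Agent.Work.MP_f99e36_co.St35
import Pool.Agent.Work.MP_f99e36_co.St36

/-!
All insertion stages from the certificates of the first four stages and the dense claim.
-/

set_option autoImplicit false

namespace Pool.Agent.Simplex

theorem stg_44 : Stg 44 :=
  stg_of_cert (al := St33.D.al) (ng := St33.D.ng) (cc := St33.D.cc) (T := St33.T)
    (by decide +kernel) (by decide +kernel) (by decide +kernel) rfl St33.full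

theorem stg_45 : Stg 45 :=
  stg_of_cert (al := St34.D.al) (ng := St34.D.ng) (cc := St34.D.cc) (T := St34.T)
    (by decide +kernel) (by decide +kernel) (by decide +kernel) rfl St34.full

theorem stg_46 : Stg 46 :=
  stg_of_cert (al := St35.D.al) (ng := St35.D.ng) (cc := St35.D.cc) (T := St35.T)
    (by decide +kernel) (by decide +kernel) (by decide +kernel) rfl St35.full

theorem stg_47 : Stg 47 :=
  stg_of_cert (al := St36.D.al) (ng := St36.D.ng) (cc := St36.D.cc) (T := St36.T)
    (by decide +kernel) (by decide +kernel) (by decide +kernel) rfl St36.full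

/-- **All stages.** -/
theorem stg_F : ∀ i, 44 ≤ i → i < 80 → Stg i := stg_all dense_F stg_44 stg_45 stg_46 stg_47

end Pool.Agent.Simplex
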