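import Pool.Agent.Work.MP_f99e36_co.Del
import Pool.Agent.Work.MP_f99e36_co.Assembly

/-!
Induction over the insertion stages: a basis of a late stage that misses one of the last six blocks
of columns comes from an earlier stage.
-/

set_option autoImplicit false

namespace Pool.Agent.Simplex

open GArr

/-- number of insertion of a column inside its block -/
def idx (r : ℕ) : ℕ := if r = 3 then 3 else 2 - r

/-- the column j may be used at the stage with newest element number i -/
def frc (i j : ℕ) : Prop :=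
  j < 12 ∨ 48 - 4 * ((i - 44) / 4) ≤ j ∨ (j / 4 = 11 - (i - 44) / 4 ∧ idx (j % 4) ≤ (i - 44) % 4)

/-- the column j is allowed in the tests at the stage with newest element number i -/
def wac (i j : ℕ) : Prop :=
  j < 12 ∨ 48 - 4 * ((i - 44) / 4) ≤ j ∨
    (j / 4 = 11 - (i - 44) / 4 ∧ idx (j % 4) ≤ (i - 44) % 4 + 1)

instance (i j : ℕ) : Decidable (frc i j) := by unfold frc; infer_instance

instance (i j : ℕ) : Decidable (wac i j) := by unfold wac; infer_instance

/-- the allowed elements at the stage with newest element number i -/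
def Wa (i e : ℕ) : Bool := decide (e < 12 ∨ wac i (e - 12))

/-- the newest column -/
def nwc (i : ℕ) : ℕ := 4 * (11 - (i - 44) / 4) + [2, 1, 0, 3].getD ((i - 44) % 4) 0

/-- the claim of a stage -/
def Stg (i : ℕ) : Prop := ∀ L, (arrW (Wa i)).Valid L → (∀ p ∈ L, frc i p.2) →
  (∃ p ∈ L, p.2 = nwc i) → (arrW (Wa i)).Full L

/-- insertion of an empty block -/
def phi (u c j : ℕ) : ℕ := if 4 * (11 - u) ≤ j ∧ j < 4 * (c + 1) then j - 4 else j

/-- deletion of the block c -/
def psi (u c j : ℕ) : ℕ := if 4 * (10 - u) ≤ j ∧ j < 4 * c then j + 4 else j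

theorem phi_shift {u c : ℕ} (hu : u ≤ 7) (h1 : 11 ≤ c) (h2 : c ≤ 16) :
    Shift (phi u c) (fun j => j < 68 ∧ (j < 12 ∨ 4 * (11 - u) ≤ j)) where
  lt := by
    intro j hj
    unfold phi
    refine ⟨hj.1, ?_⟩
    have := hj.1
    split_ifs <;> omega
  mono := by
    intro j1 j2 a b hlt
    unfold phi
    split_ifs <;> omega
  blk := by
    intro j1 j2 a b
    unfold phi
    split_ifs <;> omega
  md := by
    intro j a
    unfold phi
    split_ifs <;> omega

theorem psi_shift {u c : ℕ} (hu : u ≤ 7) (h1 : 11 ≤ c) (h2 : c ≤ 16) :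
    Shift (psi u c) (fun j => j < 68 ∧ j / 4 ≠ c ∧ (j < 12 ∨ 4 * (10 - u) ≤ j)) where
  lt := by
    intro j hj
    unfold psi
    refine ⟨hj.1, ?_⟩
    have := hj.1
    split_ifs <;> omega
  mono := by
    intro j1 j2 a b hlt
    unfold psi
    split_ifs <;> omega
  blk := by
    intro j1 j2 a b
    unfold psi
    split_ifs <;> omega
  md := by
    intro j a
    unfold psi
    split_ifs <;> omega

theorem phi_psi {u c j : ℕ} (hu : u ≤ 7) (h1 : 11 ≤ c)
    (hj : j < 68 ∧ j / 4 ≠ c ∧ (j < 12 ∨ 4 * (10 - u) ≤ j)) : phi u c (psi u c j) = j := by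
  unfold phi psi
  split_ifs <;> omega

/-- **Deletion step**: a basis that misses one of the last six blocks. -/
theorem del_step {i : ℕ} (h44 : 44 ≤ i) (h76 : i < 76) (h : Stg i) {L : List (ℕ × ℕ)}
    (hv : (arrW (Wa (i + 4))).Valid L) (hf : ∀ p ∈ L, frc (i + 4) p.2)
    (hn : ∃ p ∈ L, p.2 = nwc (i + 4)) {c : ℕ} (hc1 : 11 ≤ c) (hc2 : c ≤ 16)
    (hc : ∀ p ∈ L, p.2 / 4 ≠ c) : (arrW (Wa (i + 4))).Full L := by
  obtain ⟨u, hu⟩ : ∃ u, u = (i - 44) / 4 := ⟨_, rfl⟩
  have hu1 : (i + 4 - 44) / 4 = u + 1 := by omega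
  have hu2 : (i + 4 - 44) % 4 = (i - 44) % 4 := by omega
  have hu7 : u ≤ 7 := by omega
  have hcol : ∀ p ∈ L, p.2 < 68 ∧ p.2 / 4 ≠ c ∧ (p.2 < 12 ∨ 4 * (10 - u) ≤ p.2) := by
    intro p hp
    have a : p.2 < 68 := (hv.2 p hp).2
    have b := hf p hp
    have d := hc p hp
    unfold frc at b
    rw [hu1, hu2] at b
    refine ⟨a, d, ?_⟩
    rcases b with b | b | b
    · exact Or.inl b
    · right; omega
    · right; omega
  have hmm : (L.map (mp (psi u c))).map (mp (phi u c)) = L := by
    rw [List.map_map]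
    conv_rhs => rw [← List.map_id L]
    apply List.map_congr_left
    intro p hp
    show (p.1, phi u c (psi u c p.2)) = p
    rw [phi_psi hu7 hc1 (hcol p hp)]
  have hv' : (arrW (Wa i)).Valid (L.map (mp (psi u c))) := by
    refine ⟨inc_map (psi_shift hu7 hc1 hc2) hv.1 hcol, ?_⟩
    intro q hq
    obtain ⟨p, hp, rfl⟩ := List.mem_map.mp hq
    exact ⟨(hv.2 p hp).1, ((psi_shift hu7 hc1 hc2).lt _ (hcol p hp)).2⟩
  have hf' : ∀ q ∈ L.map (mp (psi u c)), frc i q.2 := by
    intro q hq
    obtain ⟨p, hp, rfl⟩ := List.mem_map.mp hq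
    have b := hf p hp
    have d := hcol p hp
    show frc i (psi u c p.2)
    unfold frc at b ⊢
    rw [← hu]
    rw [hu1, hu2] at b
    rcases b with b | b | ⟨b1, b2⟩
    · left
      unfold psi
      split_ifs <;> omega
    · right; left
      unfold psi
      split_ifs <;> omega
    · right; right
      have e : psi u c p.2 = p.2 + 4 := by
        unfold psi
        rw [if_pos (by omega)]
      rw [e]
      refine ⟨by omega, ?_⟩
      have : (p.2 + 4) % 4 = p.2 % 4 := by omega
      rw [this]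
      exact b2
  have hn' : ∃ q ∈ L.map (mp (psi u c)), q.2 = nwc i := by
    obtain ⟨p, hp, hpn⟩ := hn
    refine ⟨_, List.mem_map.mpr ⟨p, hp, rfl⟩, ?_⟩
    show psi u c p.2 = _
    have d := hcol p hp
    unfold nwc at hpn ⊢
    rw [hu1, hu2] at hpn
    rw [← hu]
    have ht : (i - 44) % 4 < 4 := Nat.mod_lt _ (by norm_num)
    have hg : [2, 1, 0, 3].getD ((i - 44) % 4) 0 < 4 := by
      generalize (i - 44) % 4 = t at ht
      interval_cases t <;> decide
    generalize [2, 1, 0, 3].getD ((i - 44) % 4) 0 = o at hpn hg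
    unfold psi
    rw [if_pos (by omega)]
    omega
  have hfull := h _ hv' hf' hn'
  rw [← hmm]
  refine full_map (W' := Wa i) (phi_shift hu7 hc1 hc2) hv' ?_ ?_ ?_ hfull
  · intro q hq
    obtain ⟨p, hp, rfl⟩ := List.mem_map.mp hq
    have d := hcol p hp
    have e := ((psi_shift hu7 hc1 hc2).lt _ d).2
    refine ⟨e, ?_⟩
    show psi u c p.2 < 12 ∨ 4 * (11 - u) ≤ psi u c p.2
    unfold psi
    split_ifs <;> omega
  · intro e he
    exact decide_eq_true (Or.inl he)
  · intro j hj hw
    have hw' := of_decide_eq_true hw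
    have hw2 : wac i j := by
      rcases hw' with h1 | h1
      · omega
      · rwa [show 12 + j - 12 = j by omega] at h1
    unfold wac at hw2
    rw [← hu] at hw2
    refine ⟨⟨hj, by omega⟩, decide_eq_true (Or.inr ?_)⟩
    rw [show 12 + phi u c j - 12 = phi u c j by omega]
    unfold wac
    rw [hu1, hu2]
    rcases hw2 with b | b | ⟨b1, b2⟩
    · left
      unfold phi
      split_ifs <;> omega
    · right; left
      unfold phi
      split_ifs <;> omega
    · right; right
      have e : phi u c j = j - 4 := by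
        unfold phi
        rw [if_pos (by omega)]
      rw [e]
      refine ⟨by omega, ?_⟩
      have : (j - 4) % 4 = j % 4 := by omega
      rw [this]
      exact b2

/-- the claim about bases that use the last six blocks and an earlier column -/
def Dense : Prop := ∀ W : ℕ → Bool, (∀ e, e < 12 → W e = true) →
  (∀ j, 44 ≤ j → j < 68 → W (12 + j) = true) → ∀ L, (arrW W).Valid L →
  (∀ c, 11 ≤ c → c ≤ 16 → ∃ p ∈ L, p.2 / 4 = c) → (∃ p ∈ L, p.2 < 44) → (arrW W).Full L

theorem stg_step (hd : Dense) {i : ℕ} (h44 : 44 ≤ i) (h76 : i < 76) (h : Stg i) :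
    Stg (i + 4) := by
  intro L hv hf hn
  by_cases hvis : ∀ c, 11 ≤ c → c ≤ 16 → ∃ p ∈ L, p.2 / 4 = c
  · refine hd _ (fun e he => decide_eq_true (Or.inl he)) ?_ L hv hvis ?_
    · intro j h1 h2
      refine decide_eq_true (Or.inr ?_)
      rw [show 12 + j - 12 = j by omega]
      unfold wac
      right; left
      omega
    · obtain ⟨p, hp, hpn⟩ := hn
      refine ⟨p, hp, ?_⟩
      rw [hpn]
      unfold nwc
      have ht : (i + 4 - 44) % 4 < 4 := Nat.mod_lt _ (by norm_num)
      have hg : [2, 1, 0, 3].getD ((i + 4 - 44) % 4) 0 < 4 := by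
        generalize (i + 4 - 44) % 4 = t at ht
        interval_cases t <;> decide
      omega
  · push Not at hvis
    obtain ⟨c, hc1, hc2, hc⟩ := hvis
    exact del_step h44 h76 h hv hf hn hc1 hc2 hc

theorem stg_all (hd : Dense) (h0 : Stg 44) (h1 : Stg 45) (h2 : Stg 46) (h3 : Stg 47) :
    ∀ i, 44 ≤ i → i < 80 → Stg i := by
  intro i
  induction i using Nat.strong_induction_on with
  | _ i ih =>
    intro h44 h80
    by_cases h48 : i < 48
    · have : i = 44 ∨ i = 45 ∨ i = 46 ∨ i = 47 := by omega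
      rcases this with rfl | rfl | rfl | rfl
      · exact h0
      · exact h1
      · exact h2
      · exact h3
    · have := stg_step hd (i := i - 4) (by omega) (by omega) (ih (i - 4) (by omega) (by omega)
        (by omega))
      rwa [show i - 4 + 4 = i by omega] at this

/-! ### from certificates to stages and from stages to blocked bases -/

theorem stg_of_cert {i al ng cc : ℕ} {T : GTb}
    (hal : ∀ e, e < 80 → al.testBit (posF e) = true → Wa i e = true)
    (hng : ∀ j, j < 68 → frc i j → ng.testBit (67 - j) = false)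
    (hcc : cc < 68 → 67 - nwc i = cc) (hen : T.en = 0)
    (h : ∀ L, (datP ptF btF al ng cc).arr.Valid L → (datP ptF btF al ng cc).Free L →
      (datP ptF btF al ng cc).Tgt T L) : Stg i := by
  intro L hv hf hn
  have h1 := h L hv (fun p hp => hng p.2 (hv.2 p hp).2 (hf p hp)) (fun hlt => by
    obtain ⟨p, hp, hpn⟩ := hn
    refine ⟨p, hp, ?_⟩
    show 68 - 1 - p.2 = cc
    rw [hpn]
    exact hcc hlt)
  rcases h1 with h1 | ⟨k, hk, -⟩
  · obtain ⟨e, e', x, x', w1, w2, w3, w4, b1, b2, n1, n2, a1, a2, ht⟩ := h1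
    have key : ∀ y, (datP ptF btF al ng cc).arr.Non L y →
        (datP ptF btF al ng cc).arr.al y = true → Wa i y = true := by
      intro y hy ha
      have hy80 : y < 80 := by
        rcases hy with ⟨h2, -⟩ | ⟨-, h2, -⟩
        · have : y < 12 := h2
          omega
        · exact h2
      refine hal y hy80 ?_
      have : (datP ptF btF al ng cc).pos y = posF y := by
        show (if y < 12 then y else 12 + 68 + 31 - y) = (if y < 12 then y else 111 - y)
        rfl
      rw [← this]
      exact ha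
    exact ⟨e, e', x, x', w1, w2, w3, w4, b1, b2, n1, n2, key x n1 a1, key x' n2 a2, ht⟩
  · rw [hen] at hk
    exact absurd hk (Nat.not_lt_zero _)

/-- number of an element -/
def sinv (e : ℕ) : ℕ :=
  if e < 24 then e else if 60 ≤ e then e - 36 else 44 + 4 * (11 - (e - 12) / 4) + idx (e % 4)

theorem sinv_ok : ∀ i, i < 80 → 44 ≤ i → ∀ e, e < 80 → Wa i e = true →
    sinv e < min (i + 2) 80 ∧ sig (sinv e) = e := by decide +kernel

theorem frc_ok : ∀ i, i < 80 → 44 ≤ i → ∀ x, x < i + 1 → 12 ≤ sig x → frc i (sig x - 12) := by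
  decide +kernel

theorem nwc_ok : ∀ i, i < 80 → 44 ≤ i → sig i = 12 + nwc i ∧ nwc i < 68 := by decide +kernel

open Finset in
theorem blocked_of_stg {i : ℕ} (h44 : 44 ≤ i) (h80 : i < 80) (h : Stg i) (B : Finset ℕ)
    (hB : B ⊆ (range (i + 1)).image sig) (hm : sig i ∈ B) (hc : B.card = 12) :
    Blocked id ((range (min (i + 2) 80)).image sig) gF B := by
  have hB80 : B ⊆ range (12 + 68) := by
    refine hB.trans ?_
    show _ ⊆ range 80
    rw [← sig_image]
    apply image_subset_image
    intro x hx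
    rw [mem_range] at hx ⊢
    omega
  have hlen : ((arrW (Wa i)).rowsOf B).length = ((arrW (Wa i)).colsOf B).length := by
    have h1 := GArr.rowsOf_length (A := arrW (Wa i)) B
    have h2 := GArr.colsOf_length (A := arrW (Wa i)) hB80
    have h3 : (arrW (Wa i)).m = 12 := rfl
    omega
  have hs : ((arrW (Wa i)).pairs B).map Prod.snd = (arrW (Wa i)).colsOf B :=
    List.map_snd_zip (by omega)
  have hfull : (arrW (Wa i)).Full ((arrW (Wa i)).pairs B) := by
    refine h _ (GArr.valid_pairs B) ?_ ?_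
    · intro p hp
      have h1 : p.2 ∈ (arrW (Wa i)).colsOf B := by
        rw [← hs]; exact List.mem_map_of_mem hp
      rw [GArr.mem_colsOf] at h1
      have h3 : 12 + p.2 ∈ B := h1.2
      obtain ⟨x, hx, hxe⟩ := mem_image.mp (hB h3)
      have := frc_ok i h80 h44 x (mem_range.mp hx) (by omega)
      rwa [hxe, show 12 + p.2 - 12 = p.2 by omega] at this
    · have h1 : nwc i ∈ (arrW (Wa i)).colsOf B := by
        rw [GArr.mem_colsOf]
        refine ⟨(nwc_ok i h80 h44).2, ?_⟩
        show 12 + nwc i ∈ B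
        rw [← (nwc_ok i h80 h44).1]
        exact hm
      rw [← hs, List.mem_map] at h1
      exact h1
  have hbl := GArr.blocked_of_full (A := arrW (Wa i)) (B := B)
    (E := (range (min (i + 2) 80)).image sig) hB80 hc (by
      intro e he hw
      have he' : e < 80 := he
      have := sinv_ok i h80 h44 e he' hw
      exact mem_image.mpr ⟨sinv e, mem_range.mpr this.1, this.2⟩) hfull
  have hfe : (arrW (Wa i)).f = gF := by
    funext B
    exact linkF linkOK_F 0 0 0 B
  rw [hfe] at hbl
  exact hbl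

/-- the final theorem from the base certificate, the first four stages and the dense claim -/
theorem final_of_stg {al0 ng0 cc0 : ℕ} {T0 : GTb} {eps : Finset ℕ}
    (hb : BaseCert ptF btF al0 ng0 cc0 T0) (hs : ∀ i, 44 ≤ i → i < 80 → Stg i)
    (h4 : PairOK eps (ExcF (datP ptF btF al0 ng0 cc0) T0)) :
    GP3 id (Finset.range 92) 24 (nestF 12 68 eps f1F) ∧
      ∀ B, B ⊆ Finset.range 92 → B.card = 24 →
        Blocked id (Finset.range 92) (nestF 12 68 eps f1F) B := by
  refine nested_main (r := 12) (N := 68) (q0 := 32) (D := 4) (eps := eps) (f1 := f1F) (by norm_num)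
    (by norm_num) (ExcF (datP ptF btF al0 ng0 cc0) T0) f1F_GP3 ?_ ?_ (fun _ h => h.sub) h4
  · intro X b hX hc hb0 hb1
    rcases stages_H1 (n0 := 44) (n1 := 80) (s := sig) (g := gF)
      (ExcI := fun B => (datP ptF btF al0 ng0 cc0).Exc T0
        ((datP ptF btF al0 ng0 cc0).arr.pairs B))
      sig_inj (by norm_num) (hyp_base linkOK_F hb)
      (fun i h0 h1 B hB hm hc => blocked_of_stg h0 h1 (hs i h0 h1) B hB hm hc)
      X b hX hc hb0 hb1 with h | h
    · exact Or.inl ⟨h.1, h.2, hc⟩
    · exact Or.inr h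
  · intro X hX hc
    rcases stages_H2 (n0 := 44) (n1 := 80) (s := sig) (g := gF)
      (ExcI := fun B => (datP ptF btF al0 ng0 cc0).Exc T0
        ((datP ptF btF al0 ng0 cc0).arr.pairs B))
      sig_inj (by norm_num) (hyp_base linkOK_F hb)
      (fun i h0 h1 B hB hm hc => blocked_of_stg h0 h1 (hs i h0 h1) B hB hm hc)
      X hX hc with h | h
    · exact Or.inl ⟨h.1, h.2, hc⟩
    · exact Or.inr h

end Pool.Agent.Simplex
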